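import Pool.Agent.YUS.Defs

/-!
# [YUS] Sanity: quotients of the plane and flat tori are examples of `Surf`
-/

open MeasureTheory Set Filter Topology
open scoped ContDiff

namespace Pool.Agent.YUS

open Pool.Agent.YUD Pool.Agent.YUT Pool.Agent.YUB Pool.Agent.YUR Pool.Agent.YUL

private theorem X1_mob (v w : ℂ) : mob 0 v w = w + v := by
  simp [mob]

/-- [X1'] complex tori: quotients of the plane by lattices, with an arbitrary conformal metric -/
theorem plane_surf {X : Type} [TopologicalSpace X] (π : ℂ → X) (P : X → ℝ) {ρ : ℝ} (hρ : 0 < ρ)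
    (hsurj : ∀ x, ∃ z : ℂ, π z = x) (hc : Continuous π) (ho : IsOpenMap π)
    (hi : ∀ a : ℂ, InjOn (fun w => π (a + w)) (Metric.ball 0 ρ))
    (hdeck : ∀ a b : ℂ, π a = π b → ∀ z, π (z + (b - a)) = π z)
    (hP : ∀ x, 0 < P x) (hs : ContDiff ℝ ∞ (fun z => P (π z))) :
    ∃ S : Surf X, S.κ = 0 ∧ S.P = P ∧ S.ρ = ρ ∧
      ∀ c, ∃ a : ℂ, π a = c ∧ ∀ w, S.E c w = π (a + w) := by
  choose a ha using hsurj
  refine ⟨
    { κ := 0
      ρ := ρ
      E := fun c w => π (a c + w)
      P := P
      ρ_pos := hρ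
      κ_le := by rw [abs_zero, zero_mul]; norm_num
      center := fun c => by
        show π (a c + 0) = c
        rw [add_zero, ha]
      inj := fun c => hi (a c)
      cont := fun c => (hc.comp (continuous_const.add continuous_id)).continuousOn
      isOpenMap := fun c U _ hU => by
        have h1 : IsOpenMap fun w : ℂ => π (a c + w) :=
          ho.comp (Homeomorph.addLeft (a c)).isOpenMap
        exact h1 U hU
      recenter := fun c v _ => by
        refine ⟨1, norm_one, fun w _ _ => ?_⟩
        show π (a c + mob 0 v w) = π (a (π (a c + v)) + 1 * w)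
        have h1 := hdeck (a (π (a c + v))) (a c + v) (ha _) (a (π (a c + v)) + w)
        rw [one_mul, ← h1, X1_mob]
        congr 1
        ring
      P_pos := hP
      P_smooth := fun c => (hs.comp (contDiff_const.add contDiff_id)).contDiffOn },
    rfl, rfl, rfl, fun c => ⟨a c, ha c, fun w => rfl⟩⟩

private theorem X1_coe {p : ℝ} {x : ℝ} (hx : |x| < p) (h : (x : AddCircle p) = 0) : x = 0 := by
  rw [AddCircle.coe_eq_zero_iff] at h
  obtain ⟨n, rfl⟩ := h
  rw [zsmul_eq_mul, abs_mul] at hx
  have hp : 0 < p := lt_of_le_of_lt (mul_nonneg (abs_nonneg _) (abs_nonneg _)) hx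
  rw [abs_of_pos hp] at hx
  have h1 : |(n : ℝ)| < 1 := by
    by_contra hcon
    push Not at hcon
    have := mul_le_mul_of_nonneg_right hcon hp.le
    linarith
  have h2 : |n| < 1 := by
    rw [← Int.cast_abs] at h1
    exact_mod_cast h1
  have h3 : n = 0 := Int.abs_lt_one_iff.1 h2
  rw [h3, zero_smul]

private theorem X1_diff {p : ℝ} {x y : ℝ} (h : (x : AddCircle p) = (y : AddCircle p)) :
    ((x - y : ℝ) : AddCircle p) = 0 := by
  rw [AddCircle.coe_sub, h, sub_self]

/-- [X1] flat tori with an arbitrary conformal metric: `X = (ℝ/pℤ) × (ℝ/qℤ)`, `E c v = c + v` -/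
theorem torus_surf (p q : ℝ) [Fact (0 < p)] [Fact (0 < q)] (P : AddCircle p × AddCircle q → ℝ)
    (hP : ∀ x, 0 < P x)
    (hs : ContDiff ℝ ∞ (fun v : ℂ => P ((v.re : AddCircle p), (v.im : AddCircle q)))) :
    ∃ S : Surf (AddCircle p × AddCircle q), S.κ = 0 ∧ S.P = P ∧
      ∀ c v, S.E c v = (c.1 + (v.re : AddCircle p), c.2 + (v.im : AddCircle q)) := by
  have hp : 0 < p := Fact.out
  have hq : 0 < q := Fact.out
  have key := plane_surf
    (fun z : ℂ => ((z.re : AddCircle p), (z.im : AddCircle q))) P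
    (ρ := min p q / 2) (by positivity)
  suffices hk : ∃ S : Surf (AddCircle p × AddCircle q), S.κ = 0 ∧ S.P = P ∧ S.ρ = min p q / 2 ∧
      ∀ c, ∃ a : ℂ, (fun z : ℂ => ((z.re : AddCircle p), (z.im : AddCircle q))) a = c ∧
        ∀ w, S.E c w = (fun z : ℂ => ((z.re : AddCircle p), (z.im : AddCircle q))) (a + w) by
    obtain ⟨S, h1, h2, h3, h4⟩ := hk
    refine ⟨S, h1, h2, fun c v => ?_⟩
    obtain ⟨a, ha, hE⟩ := h4 c
    rw [hE, ← ha]
    show (((a + v).re : AddCircle p), ((a + v).im : AddCircle q)) = _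
    rw [Complex.add_re, Complex.add_im, AddCircle.coe_add, AddCircle.coe_add]
  refine key ?_ ?_ ?_ ?_ ?_ hP hs
  · intro x
    obtain ⟨u, hu⟩ := QuotientAddGroup.mk_surjective x.1
    obtain ⟨v, hv⟩ := QuotientAddGroup.mk_surjective x.2
    refine ⟨⟨u, v⟩, Prod.ext hu hv⟩
  · exact ((AddCircle.continuous_mk' p).comp Complex.continuous_re).prodMk
      ((AddCircle.continuous_mk' q).comp Complex.continuous_im)
  · have e1 : IsOpenMap (Prod.map (fun x : ℝ => (x : AddCircle p)) (fun x : ℝ => (x : AddCircle q))) :=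
      (QuotientAddGroup.isOpenMap_coe).prodMap (QuotientAddGroup.isOpenMap_coe)
    exact e1.comp Complex.equivRealProdCLM.toHomeomorph.isOpenMap
  · intro a w hw w' hw' h
    rw [mem_ball_zero_iff] at hw hw'
    have g1 : (((a + w).re : ℝ) : AddCircle p) = ((a + w').re : ℝ) := congrArg Prod.fst h
    have g2 : (((a + w).im : ℝ) : AddCircle q) = ((a + w').im : ℝ) := congrArg Prod.snd h
    have g3 := X1_diff g1
    have g4 := X1_diff g2
    have n1 := Complex.abs_re_le_norm w
    have n2 := Complex.abs_re_le_norm w'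
    have n3 := Complex.abs_im_le_norm w
    have n4 := Complex.abs_im_le_norm w'
    have m1 : min p q ≤ p := min_le_left _ _
    have m2 : min p q ≤ q := min_le_right _ _
    apply Complex.ext
    · have k1 : (a + w).re - (a + w').re = w.re - w'.re := by
        rw [Complex.add_re, Complex.add_re]
        ring
      rw [k1] at g3
      have k2 := abs_sub w.re w'.re
      have := X1_coe (by linarith) g3
      linarith
    · have k1 : (a + w).im - (a + w').im = w.im - w'.im := by
        rw [Complex.add_im, Complex.add_im]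
        ring
      rw [k1] at g4
      have k2 := abs_sub w.im w'.im
      have := X1_coe (by linarith) g4
      linarith
  · intro a b h z
    have g1 : ((a.re : ℝ) : AddCircle p) = (b.re : ℝ) := congrArg Prod.fst h
    have g2 : ((a.im : ℝ) : AddCircle q) = (b.im : ℝ) := congrArg Prod.snd h
    have g3 := X1_diff g1.symm
    have g4 := X1_diff g2.symm
    apply Prod.ext
    · show (((z + (b - a)).re : ℝ) : AddCircle p) = (z.re : ℝ)
      rw [Complex.add_re, Complex.sub_re, AddCircle.coe_add, g3, add_zero]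
    · show (((z + (b - a)).im : ℝ) : AddCircle q) = (z.im : ℝ)
      rw [Complex.add_im, Complex.sub_im, AddCircle.coe_add, g4, add_zero]

end Pool.Agent.YUS
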