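import Pool.Agent.YUS.Defs

/-!
# [YUS-X2] Sanity: the Riemann sphere is a `Surf`
-/

open MeasureTheory Set Filter Topology
open scoped ContDiff

namespace Pool.Agent.YUS

open Pool.Agent.YUD Pool.Agent.YUT Pool.Agent.YUB Pool.Agent.YUR Pool.Agent.YUL

open Classical in
/-- the point of the sphere with homogeneous coordinates `(x, y)` -/
private noncomputable def X2_pt (x y : ℂ) : OnePoint ℂ :=
  if y = 0 then OnePoint.infty else ((x / y : ℂ) : OnePoint ℂ)

private theorem X2_pt_mul {k : ℂ} (hk : k ≠ 0) (x y : ℂ) :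
    X2_pt (k * x) (k * y) = X2_pt x y := by
  unfold X2_pt
  by_cases hy : y = 0
  · simp [hy]
  · rw [if_neg hy, if_neg (mul_ne_zero hk hy), mul_div_mul_left _ _ hk]

private theorem X2_pt_zero (x : ℂ) : X2_pt x 0 = OnePoint.infty := by
  unfold X2_pt
  rw [if_pos rfl]

private theorem X2_pt_ne (x : ℂ) {y : ℂ} (hy : y ≠ 0) :
    X2_pt x y = ((x / y : ℂ) : OnePoint ℂ) := by
  unfold X2_pt
  rw [if_neg hy]

private theorem X2_pt_inj {x y x' y' : ℂ} (e : X2_pt x y = X2_pt x' y') : x * y' = x' * y := by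
  by_cases hy : y = 0
  · by_cases hy' : y' = 0
    · rw [hy, hy', mul_zero, mul_zero]
    · rw [hy, X2_pt_zero, X2_pt_ne _ hy'] at e
      exact absurd e (OnePoint.infty_ne_coe _)
  · by_cases hy' : y' = 0
    · rw [hy', X2_pt_zero, X2_pt_ne _ hy] at e
      exact absurd e (OnePoint.coe_ne_infty _)
    · rw [X2_pt_ne _ hy, X2_pt_ne _ hy', OnePoint.coe_eq_coe, div_eq_div_iff hy hy'] at e
      exact e

/-- the rotation of the sphere with `0 ↦ a / b` -/
private noncomputable def X2_g (a b w : ℂ) : OnePoint ℂ :=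
  X2_pt ((starRingEnd ℂ) b * w + a) (b - (starRingEnd ℂ) a * w)

private theorem X2_det {a b : ℂ} (h : a ≠ 0 ∨ b ≠ 0) :
    (starRingEnd ℂ) a * a + (starRingEnd ℂ) b * b ≠ 0 := by
  rw [← Complex.normSq_eq_conj_mul_self, ← Complex.normSq_eq_conj_mul_self, ← Complex.ofReal_add,
    Complex.ofReal_ne_zero]
  have h1 := Complex.normSq_nonneg a
  have h2 := Complex.normSq_nonneg b
  rcases h with h | h
  · have := Complex.normSq_pos.2 h
    positivity
  · have := Complex.normSq_pos.2 h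
    positivity

private theorem X2_ne {a b : ℂ} (h : a ≠ 0 ∨ b ≠ 0) (w : ℂ) :
    (starRingEnd ℂ) b * w + a ≠ 0 ∨ b - (starRingEnd ℂ) a * w ≠ 0 := by
  by_contra hc
  push Not at hc
  apply X2_det h
  linear_combination (starRingEnd ℂ) a * hc.1 + (starRingEnd ℂ) b * hc.2

private theorem X2_inj {a b : ℂ} (h : a ≠ 0 ∨ b ≠ 0) : Function.Injective (X2_g a b) := by
  intro w w' e
  have e1 := X2_pt_inj e
  have e2 : ((starRingEnd ℂ) a * a + (starRingEnd ℂ) b * b) * (w - w') = 0 := by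
    linear_combination e1
  rcases mul_eq_zero.1 e2 with e3 | e3
  · exact absurd e3 (X2_det h)
  · exact sub_eq_zero.1 e3

open Classical in
/-- the charts -/
private noncomputable def X2_E (c : OnePoint ℂ) (w : ℂ) : OnePoint ℂ :=
  match c with
  | OnePoint.infty => X2_pt 1 w
  | OnePoint.some c => X2_g c 1 w

private theorem X2_E_pt {A B : ℂ} (h : A ≠ 0 ∨ B ≠ 0) : ∃ τ : ℂ, ‖τ‖ = 1 ∧
    ∀ w, X2_g A B w = X2_E (X2_pt A B) (τ * w) := by
  by_cases hB : B = 0
  · have hA : A ≠ 0 := by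
      rcases h with h | h
      · exact h
      · exact absurd hB h
    refine ⟨-((starRingEnd ℂ) A / A), ?_, fun w => ?_⟩
    · rw [norm_neg, norm_div, RCLike.norm_conj, div_self (norm_ne_zero_iff.2 hA)]
    · subst hB
      rw [X2_pt_zero]
      show X2_pt _ _ = X2_pt 1 _
      rw [← X2_pt_mul hA 1]
      congr 1
      · simp
      · field_simp
        ring
  · refine ⟨(starRingEnd ℂ) B / B, ?_, fun w => ?_⟩
    · rw [norm_div, RCLike.norm_conj, div_self (norm_ne_zero_iff.2 hB)]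
    · rw [X2_pt_ne _ hB]
      show X2_pt _ _ = X2_pt _ _
      rw [← X2_pt_mul hB ((starRingEnd ℂ) 1 * _ + _)]
      have hB' : (starRingEnd ℂ) B ≠ 0 := (map_ne_zero _).2 hB
      congr 1
      · rw [map_one]
        field_simp
      · rw [map_div₀]
        field_simp

private theorem X2_rep (c : OnePoint ℂ) : ∃ a b : ℂ, (a ≠ 0 ∨ b ≠ 0) ∧ X2_pt a b = c ∧
    ∀ w, X2_E c w = X2_g a b w := by
  induction c using OnePoint.rec with
  | infty =>
    refine ⟨Complex.I, 0, Or.inl Complex.I_ne_zero, X2_pt_zero _, fun w => ?_⟩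
    show X2_pt 1 w = X2_pt _ _
    rw [← X2_pt_mul Complex.I_ne_zero 1]
    congr 1
    · simp
    · simp
  | coe c =>
    refine ⟨c, 1, Or.inr one_ne_zero, ?_, fun w => rfl⟩
    rw [X2_pt_ne _ one_ne_zero, div_one]

/-- the chart at infinity maps neighborhoods of `0` to the neighborhoods of infinity -/
private theorem X2_map_infty : map (X2_pt 1) (𝓝 0) = 𝓝 (OnePoint.infty : OnePoint ℂ) := by
  have h1 : 𝓝 (0 : ℂ) = 𝓝[≠] 0 ⊔ pure 0 := by
    rw [sup_comm, pure_sup_nhdsNE]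
  have h2 : map (X2_pt 1) (𝓝[≠] (0 : ℂ)) = map ((↑) : ℂ → OnePoint ℂ) (map (fun z => z⁻¹) (𝓝[≠] (0 : ℂ))) := by
    rw [map_map]
    apply Filter.map_congr
    filter_upwards [self_mem_nhdsWithin] with z hz
    rw [X2_pt_ne _ hz, one_div]
    rfl
  have h3 : map (fun z : ℂ => z⁻¹) (𝓝[≠] (0 : ℂ)) = coclosedCompact ℂ := by
    rw [coclosedCompact_eq_cocompact, ← Metric.cobounded_eq_cocompact]
    exact Filter.inv_nhdsNE_zero
  rw [h1, Filter.map_sup, h2, h3, map_pure, X2_pt_zero, OnePoint.nhds_infty_eq]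

private theorem X2_map {a b : ℂ} (h : a ≠ 0 ∨ b ≠ 0) (w₀ : ℂ) :
    map (X2_g a b) (𝓝 w₀) = 𝓝 (X2_g a b w₀) := by
  have hx : HasStrictDerivAt (fun w => (starRingEnd ℂ) b * w + a) ((starRingEnd ℂ) b) w₀ := by
    simpa using ((hasStrictDerivAt_id w₀).const_mul ((starRingEnd ℂ) b)).add_const a
  have hy : HasStrictDerivAt (fun w => b - (starRingEnd ℂ) a * w) (-(starRingEnd ℂ) a) w₀ := by
    simpa using ((hasStrictDerivAt_id w₀).const_mul ((starRingEnd ℂ) a)).const_sub b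
  by_cases h0 : b - (starRingEnd ℂ) a * w₀ = 0
  · have h1 : (starRingEnd ℂ) b * w₀ + a ≠ 0 := by
      rcases X2_ne h w₀ with h2 | h2
      · exact h2
      · exact absurd h0 h2
    have h3 := hy.div hx h1
    have h4 : map (fun w => (b - (starRingEnd ℂ) a * w) / ((starRingEnd ℂ) b * w + a)) (𝓝 w₀) = 𝓝 0 := by
      have h5 : map (fun w => (b - (starRingEnd ℂ) a * w) / ((starRingEnd ℂ) b * w + a)) (𝓝 w₀) =
          𝓝 ((b - (starRingEnd ℂ) a * w₀) / ((starRingEnd ℂ) b * w₀ + a)) := h3.map_nhds_eq (by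
        apply div_ne_zero _ (pow_ne_zero 2 h1)
        intro h6
        apply X2_det h
        linear_combination -h6)
      rw [h5, h0, zero_div]
    have h6 : X2_g a b =ᶠ[𝓝 w₀] fun w => X2_pt 1 ((b - (starRingEnd ℂ) a * w) / ((starRingEnd ℂ) b * w + a)) := by
      filter_upwards [hx.hasDerivAt.continuousAt.eventually_ne h1] with w hw
      unfold X2_g
      rw [← X2_pt_mul hw 1]
      congr 1
      · rw [mul_one]
      · rw [mul_div_cancel₀ _ hw]
    rw [Filter.map_congr h6]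
    have h7 : (fun w => X2_pt 1 ((b - (starRingEnd ℂ) a * w) / ((starRingEnd ℂ) b * w + a))) =
      X2_pt 1 ∘ (fun w => (b - (starRingEnd ℂ) a * w) / ((starRingEnd ℂ) b * w + a)) := rfl
    rw [h7, ← map_map, h4, X2_map_infty]
    unfold X2_g
    rw [h0, X2_pt_zero]
  · have h3 := hx.div hy h0
    have h5 : map (fun w => ((starRingEnd ℂ) b * w + a) / (b - (starRingEnd ℂ) a * w)) (𝓝 w₀) =
        𝓝 (((starRingEnd ℂ) b * w₀ + a) / (b - (starRingEnd ℂ) a * w₀)) := h3.map_nhds_eq (by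
      apply div_ne_zero _ (pow_ne_zero 2 h0)
      intro h6
      apply X2_det h
      linear_combination h6)
    have h6 : X2_g a b =ᶠ[𝓝 w₀] fun w => ((((starRingEnd ℂ) b * w + a) / (b - (starRingEnd ℂ) a * w) : ℂ) : OnePoint ℂ) := by
      filter_upwards [hy.hasDerivAt.continuousAt.eventually_ne h0] with w hw
      unfold X2_g
      rw [X2_pt_ne _ hw]
    rw [Filter.map_congr h6]
    have h7 : (fun w => ((((starRingEnd ℂ) b * w + a) / (b - (starRingEnd ℂ) a * w) : ℂ) : OnePoint ℂ)) =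
      ((↑) : ℂ → OnePoint ℂ) ∘ (fun w => ((starRingEnd ℂ) b * w + a) / (b - (starRingEnd ℂ) a * w)) := rfl
    rw [h7, ← map_map, h5, OnePoint.isOpenEmbedding_coe.map_nhds_eq]
    unfold X2_g
    rw [X2_pt_ne _ h0]

private theorem X2_smooth {P : OnePoint ℂ → ℝ}
    (hs : ContDiff ℝ ∞ (fun v : ℂ => P (v : OnePoint ℂ)))
    (hs' : ContDiff ℝ ∞ (fun v : ℂ => if v = 0 then P OnePoint.infty else P ((v⁻¹ : ℂ) : OnePoint ℂ)))
    {a b : ℂ} (h : a ≠ 0 ∨ b ≠ 0) : ContDiff ℝ ∞ (fun w => P (X2_g a b w)) := by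
  rw [contDiff_iff_contDiffAt]
  intro w₀
  have hx : ContDiff ℝ ∞ (fun w : ℂ => (starRingEnd ℂ) b * w + a) := by fun_prop
  have hy : ContDiff ℝ ∞ (fun w : ℂ => b - (starRingEnd ℂ) a * w) := by fun_prop
  by_cases h0 : b - (starRingEnd ℂ) a * w₀ = 0
  · have h1 : (starRingEnd ℂ) b * w₀ + a ≠ 0 := by
      rcases X2_ne h w₀ with h2 | h2
      · exact h2
      · exact absurd h0 h2
    have h2 := hs'.contDiffAt.comp w₀ (hy.contDiffAt.mul (hx.contDiffAt.inv h1))
    refine h2.congr_of_eventuallyEq ?_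
    filter_upwards [hx.continuous.continuousAt.eventually_ne h1] with w hw
    unfold X2_g X2_pt
    simp only [Function.comp, Pi.inv_apply]
    by_cases h3 : b - (starRingEnd ℂ) a * w = 0
    · rw [h3, zero_mul, if_pos rfl, if_pos rfl]
    · rw [if_neg h3, ← div_eq_mul_inv, if_neg (div_ne_zero h3 hw), inv_div]
  · have h2 := hs.contDiffAt.comp w₀ (hx.contDiffAt.mul (hy.contDiffAt.inv h0))
    refine h2.congr_of_eventuallyEq ?_
    filter_upwards [hy.continuous.continuousAt.eventually_ne h0] with w hw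
    unfold X2_g X2_pt
    simp only [Function.comp, Pi.inv_apply]
    rw [if_neg hw, div_eq_mul_inv]

/-- [X2] the Riemann sphere with an arbitrary conformal metric -/
theorem sphere_surf (P : OnePoint ℂ → ℝ) (hP : ∀ x, 0 < P x)
    (hs : ContDiff ℝ ∞ (fun v : ℂ => P (v : OnePoint ℂ)))
    (hs' : ContDiff ℝ ∞ (fun v : ℂ => if v = 0 then P OnePoint.infty else P ((v⁻¹ : ℂ) : OnePoint ℂ))) :
    ∃ S : Surf (OnePoint ℂ), S.κ = 1 ∧ S.P = P ∧
      (∀ (c : ℂ) (v : ℂ), ‖v‖ < S.ρ → 1 - (starRingEnd ℂ) c * v ≠ 0 →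
        S.E (c : OnePoint ℂ) v = ((mob 1 c v : ℂ) : OnePoint ℂ)) ∧
      ∀ v : ℂ, ‖v‖ < S.ρ → v ≠ 0 → S.E OnePoint.infty v = ((v⁻¹ : ℂ) : OnePoint ℂ) := by
  refine ⟨⟨1, 1 / 4, X2_E, P, by norm_num, by norm_num, ?_, ?_, ?_, ?_, ?_, hP, ?_⟩,
    rfl, rfl, ?_, ?_⟩
  · intro c
    obtain ⟨a, b, h, hc, hE⟩ := X2_rep c
    rw [hE]
    unfold X2_g
    rw [mul_zero, mul_zero, zero_add, sub_zero, hc]
  · intro c
    obtain ⟨a, b, h, hc, hE⟩ := X2_rep c
    rw [show X2_E c = X2_g a b from funext hE]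
    exact (X2_inj h).injOn
  · intro c
    obtain ⟨a, b, h, hc, hE⟩ := X2_rep c
    rw [show X2_E c = X2_g a b from funext hE]
    exact (continuous_iff_continuousAt.2 fun w => (X2_map h w).le).continuousOn
  · intro c U _ hU
    obtain ⟨a, b, h, hc, hE⟩ := X2_rep c
    rw [show X2_E c = X2_g a b from funext hE]
    exact (isOpenMap_iff_nhds_le.2 fun w => (X2_map h w).ge) U hU
  · intro c v hv
    obtain ⟨a, b, h, hc, hE⟩ := X2_rep c
    have hE' : X2_E c = X2_g a b := funext hE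
    obtain ⟨τ, hτ, h1⟩ := X2_E_pt (X2_ne h v)
    refine ⟨τ, hτ, fun w hw _ => ?_⟩
    rw [hE']
    show _ = X2_E (X2_pt _ _) _
    rw [← h1]
    have hv0 := norm_nonneg v
    have hw0 := norm_nonneg w
    have h2 : 1 - (starRingEnd ℂ) v * w ≠ 0 := by
      intro h3
      have h4 : ‖(starRingEnd ℂ) v * w‖ = 1 := by
        rw [← sub_eq_zero.1 h3, norm_one]
      rw [norm_mul, RCLike.norm_conj] at h4
      nlinarith
    unfold X2_g mob
    rw [← X2_pt_mul h2]
    simp only [map_add, map_sub, map_mul, Complex.conj_conj, Complex.ofReal_one, one_mul]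
    congr 1
    · field_simp
      ring
    · field_simp
      ring
  · intro c
    obtain ⟨a, b, h, hc, hE⟩ := X2_rep c
    simp only [hE]
    exact (X2_smooth hs hs' h).contDiffOn
  · intro c v _ h
    show X2_pt _ _ = _
    rw [X2_pt_ne _ h]
    unfold mob
    rw [map_one, one_mul, Complex.ofReal_one, one_mul]
  · intro v _ h
    show X2_pt _ _ = _
    rw [X2_pt_ne _ h, one_div]

end Pool.Agent.YUS
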