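import Pool.Agent.YUS.Defs

/-!
# [YUS] Sanity: quotients of the unit disk are `Surf`
-/

open MeasureTheory Set Filter Topology
open scoped ContDiff

namespace Pool.Agent.YUS

open Pool.Agent.YUD Pool.Agent.YUT Pool.Agent.YUB Pool.Agent.YUR Pool.Agent.YUL

private lemma x3_eq (a w : ℂ) : mob (-1) a w = (w + a) / (1 + (starRingEnd ℂ) a * w) := by
  unfold mob
  congr 1
  push_cast
  ring

private lemma x3_zero (a : ℂ) : mob (-1) a 0 = a := by
  rw [x3_eq]
  simp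

private lemma x3_cm (a w : ℂ) (ha : ‖a‖ < 1) (hw : ‖w‖ ≤ 1) : ‖(starRingEnd ℂ) a * w‖ < 1 := by
  rw [norm_mul, RCLike.norm_conj]
  nlinarith [norm_nonneg a, norm_nonneg w]

private lemma x3_den (a w : ℂ) (ha : ‖a‖ < 1) (hw : ‖w‖ ≤ 1) : 1 + (starRingEnd ℂ) a * w ≠ 0 := by
  intro h
  have h1 : (starRingEnd ℂ) a * w = -1 := by linear_combination h
  have h2 := x3_cm a w ha hw
  rw [h1] at h2
  simp at h2

private lemma x3_lt (a w : ℂ) (ha : ‖a‖ < 1) (hw : ‖w‖ < 1) : ‖mob (-1) a w‖ < 1 := by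
  rw [x3_eq, norm_div, div_lt_one (norm_pos_iff.2 (x3_den a w ha hw.le))]
  have e : ‖1 + (starRingEnd ℂ) a * w‖ ^ 2 - ‖w + a‖ ^ 2 = (1 - ‖a‖ ^ 2) * (1 - ‖w‖ ^ 2) := by
    simp only [← Complex.normSq_eq_norm_sq]
    simp only [Complex.normSq_apply, Complex.add_re, Complex.add_im, Complex.mul_re, Complex.mul_im,
      Complex.conj_re, Complex.conj_im, Complex.one_re, Complex.one_im]
    ring
  have h1 : 0 < (1 - ‖a‖ ^ 2) * (1 - ‖w‖ ^ 2) := by
    apply mul_pos
    · nlinarith [norm_nonneg a]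
    · nlinarith [norm_nonneg w]
  exact lt_of_pow_lt_pow_left₀ 2 (norm_nonneg _) (by linarith)

private lemma x3_inv (a u : ℂ) (ha : ‖a‖ < 1) (hu : ‖u‖ < 1) :
    mob (-1) (-a) (mob (-1) a u) = u := by
  have h1 := x3_den a u ha hu.le
  have h2 : 1 + (starRingEnd ℂ) (-a) * ((u + a) / (1 + (starRingEnd ℂ) a * u)) ≠ 0 := by
    have := x3_den (-a) (mob (-1) a u) (by simpa using ha) (x3_lt a u ha hu).le
    rwa [x3_eq a u] at this
  rw [x3_eq (-a), x3_eq a u, div_eq_iff h2]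
  rw [map_neg] at h2 ⊢
  have h1' : 1 + u * (starRingEnd ℂ) a ≠ 0 := by rwa [mul_comm] at h1
  generalize (starRingEnd ℂ) a = b at h1 h1' h2 ⊢
  field_simp
  ring

/-- the composition of two automorphisms -/
private lemma x3_comp (a v w : ℂ) (ha : ‖a‖ < 1) (hv : ‖v‖ < 1) (hw : ‖w‖ < 1) :
    ∃ τ : ℂ, ‖τ‖ = 1 ∧ τ = (1 + a * (starRingEnd ℂ) v) / (1 + (starRingEnd ℂ) a * v) ∧
      mob (-1) a (mob (-1) v w) = mob (-1) (mob (-1) a v) (τ * w) := by
  have d1 := x3_den a v ha hv.le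
  have d1' : 1 + a * (starRingEnd ℂ) v ≠ 0 := by
    have := (map_ne_zero (starRingEnd ℂ)).2 d1
    simpa using this
  have d2 := x3_den v w hv hw.le
  refine ⟨(1 + a * (starRingEnd ℂ) v) / (1 + (starRingEnd ℂ) a * v), ?_, rfl, ?_⟩
  · have h : 1 + a * (starRingEnd ℂ) v = (starRingEnd ℂ) (1 + (starRingEnd ℂ) a * v) := by simp
    rw [norm_div, h, RCLike.norm_conj, div_self (norm_ne_zero_iff.2 d1)]
  · have h1 := x3_den a (mob (-1) v w) ha (x3_lt v w hv hw).le
    have hτ : ‖(1 + a * (starRingEnd ℂ) v) / (1 + (starRingEnd ℂ) a * v)‖ = 1 := by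
      have h : 1 + a * (starRingEnd ℂ) v = (starRingEnd ℂ) (1 + (starRingEnd ℂ) a * v) := by simp
      rw [norm_div, h, RCLike.norm_conj, div_self (norm_ne_zero_iff.2 d1)]
    have h2 := x3_den (mob (-1) a v) ((1 + a * (starRingEnd ℂ) v) / (1 + (starRingEnd ℂ) a * v) * w)
      (x3_lt a v ha hv) (by rw [norm_mul, hτ, one_mul]; exact hw.le)
    rw [x3_eq a (mob (-1) v w), x3_eq (mob (-1) a v)]
    rw [div_eq_div_iff h1 h2, x3_eq v w, x3_eq a v]
    have e1 : (starRingEnd ℂ) ((v + a) / (1 + (starRingEnd ℂ) a * v)) =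
      ((starRingEnd ℂ) v + (starRingEnd ℂ) a) / (1 + a * (starRingEnd ℂ) v) := by
      simp [map_div₀]
    rw [e1]
    have d1a : 1 + v * (starRingEnd ℂ) a ≠ 0 := by rwa [mul_comm] at d1
    have d1b : 1 + (starRingEnd ℂ) v * a ≠ 0 := by rwa [mul_comm] at d1'
    have d2a : 1 + w * (starRingEnd ℂ) v ≠ 0 := by rwa [mul_comm] at d2
    clear h1 h2 e1 hτ
    generalize (starRingEnd ℂ) a = b at d1 d1' d2 d1a d1b d2a ⊢
    generalize (starRingEnd ℂ) v = v' at d1 d1' d2 d1a d1b d2a ⊢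
    field_simp
    ring

theorem hyperbolic_surf {X : Type} [TopologicalSpace X] (π : ℂ → X) (P : X → ℝ) {ρ : ℝ} (hρ : 0 < ρ)
    (hρ1 : ρ ≤ 1 / 4) (hsurj : ∀ x, ∃ z : ℂ, ‖z‖ < 1 ∧ π z = x)
    (hc : ContinuousOn π (Metric.ball 0 1)) (ho : ∀ U ⊆ Metric.ball (0 : ℂ) 1, IsOpen U → IsOpen (π '' U))
    (hi : ∀ a : ℂ, ‖a‖ < 1 → InjOn (fun w => π (mob (-1) a w)) (Metric.ball 0 ρ))
    (hdeck : ∀ a b : ℂ, ‖a‖ < 1 → ‖b‖ < 1 → π a = π b → ∃ σ : ℂ, ‖σ‖ = 1 ∧
      ∀ z : ℂ, ‖z‖ < 1 → π (mob (-1) b (σ * mob (-1) (-a) z)) = π z)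
    (hP : ∀ x, 0 < P x) (hs : ContDiffOn ℝ ∞ (fun z => P (π z)) (Metric.ball 0 1)) :
    ∃ S : Surf X, S.κ = -1 ∧ S.P = P ∧ S.ρ = ρ ∧
      ∀ c, ∃ a : ℂ, ‖a‖ < 1 ∧ π a = c ∧ ∀ w, ‖w‖ < ρ → S.E c w = π (mob (-1) a w) := by
  choose l hl1 hl2 using hsurj
  have hball : ∀ a : ℂ, ‖a‖ < 1 → ∀ w ∈ Metric.ball (0 : ℂ) ρ,
      mob (-1) a w ∈ Metric.ball (0 : ℂ) 1 := by
    intro a ha w hw
    rw [mem_ball_zero_iff] at hw ⊢
    exact x3_lt a w ha (by linarith)
  have hcd : ∀ a : ℂ, ‖a‖ < 1 → ContDiffOn ℝ ∞ (fun w => mob (-1) a w) (Metric.ball 0 ρ) := by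
    intro a ha
    have e : (fun w => mob (-1) a w) = fun w => (w + a) / (1 + (starRingEnd ℂ) a * w) := by
      funext w
      exact x3_eq a w
    rw [e]
    have h1 : ContDiffOn ℝ ∞ (fun w : ℂ => w + a) (Metric.ball 0 ρ) :=
      (contDiff_id.add contDiff_const).contDiffOn
    have h2 : ContDiffOn ℝ ∞ (fun w : ℂ => 1 + (starRingEnd ℂ) a * w) (Metric.ball 0 ρ) :=
      (contDiff_const.add (contDiff_const.mul contDiff_id)).contDiffOn
    have h3 : ∀ w ∈ Metric.ball (0 : ℂ) ρ, 1 + (starRingEnd ℂ) a * w ≠ 0 := by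
      intro w hw
      rw [mem_ball_zero_iff] at hw
      exact x3_den a w ha (by linarith)
    simp only [div_eq_mul_inv]
    exact h1.mul (h2.inv h3)
  refine ⟨{ κ := -1, ρ := ρ, E := fun c w => π (mob (-1) (l c) w), P := P, ρ_pos := hρ, κ_le := ?_,
            center := ?_, inj := fun c => hi (l c) (hl1 c), cont := ?_, isOpenMap := ?_,
            recenter := ?_, P_pos := hP, P_smooth := ?_ }, rfl, rfl, rfl, ?_⟩
  · rw [abs_neg, abs_one]
    nlinarith
  · intro c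
    simp only [x3_zero]
    exact hl2 c
  · intro c
    exact hc.comp (hcd (l c) (hl1 c)).continuousOn (hball (l c) (hl1 c))
  · intro c U hU hUo
    have e : (fun w => π (mob (-1) (l c) w)) '' U = π '' ((fun w => mob (-1) (l c) w) '' U) := by
      rw [image_image]
    rw [e]
    have hl := hl1 c
    apply ho
    · rintro _ ⟨w, hw, rfl⟩
      exact hball (l c) hl w (hU hw)
    · -- the image is the preimage of `U` under the inverse in the ball
      have e2 : (fun w => mob (-1) (l c) w) '' U =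
          Metric.ball (0 : ℂ) 1 ∩ (fun w => mob (-1) (-(l c)) w) ⁻¹' U := by
        ext z
        constructor
        · rintro ⟨w, hw, rfl⟩
          refine ⟨hball (l c) hl w (hU hw), ?_⟩
          have hw1 : ‖w‖ < 1 := by
            have := hU hw
            rw [mem_ball_zero_iff] at this
            linarith
          show mob (-1) (-(l c)) (mob (-1) (l c) w) ∈ U
          rw [x3_inv (l c) w hl hw1]
          exact hw
        · rintro ⟨hz, hz2⟩
          rw [mem_ball_zero_iff] at hz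
          refine ⟨mob (-1) (-(l c)) z, hz2, ?_⟩
          have := x3_inv (-(l c)) z (by simpa using hl) hz
          simpa using this
      rw [e2]
      have hcont : ContinuousOn (fun w => mob (-1) (-(l c)) w) (Metric.ball (0 : ℂ) 1) := by
        have e3 : (fun w => mob (-1) (-(l c)) w) =
            fun w => (w + -(l c)) / (1 + (starRingEnd ℂ) (-(l c)) * w) := by
          funext w
          exact x3_eq _ w
        rw [e3]
        refine ContinuousOn.div (by fun_prop) (by fun_prop) ?_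
        intro w hw
        rw [mem_ball_zero_iff] at hw
        exact x3_den _ w (by simpa using hl) hw.le
      exact hcont.isOpen_inter_preimage Metric.isOpen_ball hUo
  · intro c v hv
    have hl := hl1 c
    have hv1 : ‖v‖ < 1 := by linarith
    set a' := mob (-1) (l c) v with ha'
    have ha'1 : ‖a'‖ < 1 := x3_lt _ _ hl hv1
    set b := l (π a') with hb
    have hb1 : ‖b‖ < 1 := hl1 _
    obtain ⟨σ, hσ, hσ2⟩ := hdeck a' b ha'1 hb1 (hl2 _).symm
    obtain ⟨τ, hτ, hτe, -⟩ := x3_comp (l c) v 0 hl hv1 (by simp)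
    refine ⟨σ * τ, by rw [norm_mul, hσ, hτ, one_mul], ?_⟩
    intro w hw _
    obtain ⟨τ', hτ', hτe', hcomp⟩ := x3_comp (l c) v w hl hv1 (by linarith)
    have hττ : τ' = τ := by rw [hτe, hτe']
    subst hττ
    have hz1 : ‖mob (-1) (l c) (mob (-1) v w)‖ < 1 := x3_lt _ _ hl (x3_lt _ _ hv1 (by linarith))
    have := hσ2 _ hz1
    rw [hcomp] at this
    rw [← ha'] at this hcomp
    rw [x3_inv a' (τ' * w) ha'1 (by rw [norm_mul, hτ', one_mul]; linarith)] at this
    show π (mob (-1) (l c) (mob (-1) v w)) = π (mob (-1) (l (π a')) (σ * τ' * w))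
    rw [hcomp, ← this, mul_assoc]
  · intro c
    exact hs.comp (hcd (l c) (hl1 c)) (hball (l c) (hl1 c))
  · intro c
    exact ⟨l c, hl1 c, hl2 c, fun w _ => rfl⟩

end Pool.Agent.YUS
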