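import Pool.Agent.YUS.PF

open MeasureTheory Set Filter Topology
open scoped ContDiff

namespace Pool.Agent.YUS

open Pool.Agent.YUD Pool.Agent.YUT Pool.Agent.YUB Pool.Agent.YUR Pool.Agent.YUL

/-! ### [A1] the isometries `mob` -/

private theorem A1_small {κ ρ : ℝ} (hρ : |κ| * ρ ^ 2 ≤ 1 / 4) {v w : ℂ} (hv : ‖v‖ ≤ ρ)
    (hw : ‖w‖ ≤ ρ) : |κ| * ‖v‖ * ‖w‖ ≤ 1 / 4 := by
  have h1 : ‖v‖ * ‖w‖ ≤ ρ * ρ := mul_le_mul hv hw (norm_nonneg _) ((norm_nonneg _).trans hv)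
  have h2 : |κ| * (‖v‖ * ‖w‖) ≤ |κ| * (ρ * ρ) := mul_le_mul_of_nonneg_left h1 (abs_nonneg _)
  nlinarith

private theorem A1_norm (κ : ℝ) (v w : ℂ) : ‖(κ : ℂ) * (starRingEnd ℂ) v * w‖ =
    |κ| * ‖v‖ * ‖w‖ := by
  rw [norm_mul, norm_mul, Complex.norm_real, Real.norm_eq_abs, RCLike.norm_conj]

private theorem A1_den {κ : ℝ} (v w : ℂ) :
    1 - |κ| * ‖v‖ * ‖w‖ ≤ ‖1 - (κ : ℂ) * (starRingEnd ℂ) v * w‖ := by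
  have h1 := norm_sub_norm_le (1 : ℂ) ((κ : ℂ) * (starRingEnd ℂ) v * w)
  rwa [A1_norm, norm_one] at h1

private theorem A1_pos {κ ρ : ℝ} (hρ : |κ| * ρ ^ 2 ≤ 1 / 4) {v : ℂ} (hv : ‖v‖ ≤ ρ) :
    0 < 1 + κ * ‖v‖ ^ 2 := by
  have h1 := A1_small hρ hv hv
  have h2 : -(|κ| * ‖v‖ * ‖v‖) ≤ κ * ‖v‖ ^ 2 := by
    have h3 : 0 ≤ ‖v‖ ^ 2 := by positivity
    have h4 : -|κ| * ‖v‖ ^ 2 ≤ κ * ‖v‖ ^ 2 :=
      mul_le_mul_of_nonneg_right (neg_abs_le κ) h3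
    nlinarith
  linarith

private theorem A1_conj (v : ℂ) : (starRingEnd ℂ) v * v = ((‖v‖ ^ 2 : ℝ) : ℂ) := by
  rw [mul_comm, Complex.mul_conj, Complex.normSq_eq_norm_sq]

theorem mob_zero_right (κ : ℝ) (v : ℂ) : mob κ v 0 = v := by
  simp [mob]

theorem mob_zero_left (κ : ℝ) (w : ℂ) : mob κ 0 w = w := by
  simp [mob]

theorem mob_den_ne {κ ρ : ℝ} (hρ : |κ| * ρ ^ 2 ≤ 1 / 4) {v w : ℂ} (hv : ‖v‖ ≤ ρ) (hw : ‖w‖ ≤ ρ) :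
    3 / 4 ≤ ‖1 - κ * (starRingEnd ℂ) v * w‖ := by
  have h1 := A1_small hρ hv hw
  have h2 := A1_den (κ := κ) v w
  linarith

theorem mob_le {κ ρ : ℝ} (hρ : |κ| * ρ ^ 2 ≤ 1 / 4) {v w : ℂ} (hv : ‖v‖ ≤ ρ) (hw : ‖w‖ ≤ ρ) :
    ‖mob κ v w‖ ≤ (‖v‖ + ‖w‖) / (1 - |κ| * ‖v‖ * ‖w‖) := by
  have h1 := A1_small hρ hv hw
  have h2 := A1_den (κ := κ) v w
  unfold mob
  rw [norm_div]
  apply div_le_div₀ (by positivity) _ (by linarith) h2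
  rw [add_comm ‖v‖]
  exact norm_add_le _ _

theorem mob_neg_mob {κ ρ : ℝ} (hρ : |κ| * ρ ^ 2 ≤ 1 / 4) {v w : ℂ} (hv : ‖v‖ ≤ ρ) (hw : ‖w‖ ≤ ρ) :
    mob κ (-v) (mob κ v w) = w := by
  have h1 := mob_den_ne hρ hv hw
  have hD : 1 - (κ : ℂ) * (starRingEnd ℂ) v * w ≠ 0 := by
    intro h
    rw [h, norm_zero] at h1
    linarith
  have h2 := A1_pos hρ hv
  have hc := A1_conj v
  have hE : 1 + (κ : ℂ) * ((starRingEnd ℂ) v * v) ≠ 0 := by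
    rw [hc]
    have h3 : 1 + (κ : ℂ) * ((‖v‖ ^ 2 : ℝ) : ℂ) = ((1 + κ * ‖v‖ ^ 2 : ℝ) : ℂ) := by push_cast; ring
    rw [h3]
    exact_mod_cast h2.ne'
  unfold mob
  rw [map_neg]
  have e1 : (w + v) / (1 - (κ : ℂ) * (starRingEnd ℂ) v * w) + -v =
      w * (1 + (κ : ℂ) * ((starRingEnd ℂ) v * v)) / (1 - (κ : ℂ) * (starRingEnd ℂ) v * w) := by
    rw [eq_div_iff hD, add_mul, div_mul_cancel₀ _ hD]
    ring
  have e2 : 1 - (κ : ℂ) * -(starRingEnd ℂ) v * ((w + v) / (1 - (κ : ℂ) * (starRingEnd ℂ) v * w)) =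
      (1 + (κ : ℂ) * ((starRingEnd ℂ) v * v)) / (1 - (κ : ℂ) * (starRingEnd ℂ) v * w) := by
    rw [eq_div_iff hD, sub_mul, mul_assoc _ ((w + v) / _), div_mul_cancel₀ _ hD]
    ring
  rw [e1, e2, div_div_div_cancel_right₀ hD, mul_div_assoc, div_self hE, mul_one]

theorem mob_rot {κ : ℝ} {σ : ℂ} (hσ : ‖σ‖ = 1) (v w : ℂ) :
    mob κ (σ * v) (σ * w) = σ * mob κ v w := by
  have hc : (starRingEnd ℂ) σ * σ = 1 := by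
    rw [A1_conj, hσ]
    norm_num
  unfold mob
  rw [map_mul, ← mul_add, mul_div_assoc]
  congr 2
  linear_combination (-(κ : ℂ) * (starRingEnd ℂ) v * w) * hc

theorem mob_hasDerivAt {κ ρ : ℝ} (hρ : |κ| * ρ ^ 2 ≤ 1 / 4) {v w : ℂ} (hv : ‖v‖ ≤ ρ)
    (hw : ‖w‖ ≤ ρ) :
    HasDerivAt (mob κ v) ((1 + κ * ‖v‖ ^ 2 : ℝ) / (1 - κ * (starRingEnd ℂ) v * w) ^ 2) w := by
  have h1 := mob_den_ne hρ hv hw
  have hD : 1 - (κ : ℂ) * (starRingEnd ℂ) v * w ≠ 0 := by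
    intro h
    rw [h, norm_zero] at h1
    linarith
  have hc := A1_conj v
  have d1 : HasDerivAt (fun w : ℂ => w + v) 1 w := (hasDerivAt_id w).add_const v
  have d2 : HasDerivAt (fun w : ℂ => 1 - (κ : ℂ) * (starRingEnd ℂ) v * w)
      (-((κ : ℂ) * (starRingEnd ℂ) v * 1)) w :=
    ((hasDerivAt_id w).const_mul _).const_sub 1
  have d3 := d1.div d2 hD
  have e : ((1 + κ * ‖v‖ ^ 2 : ℝ) : ℂ) / (1 - (κ : ℂ) * (starRingEnd ℂ) v * w) ^ 2 =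
      (1 * (1 - (κ : ℂ) * (starRingEnd ℂ) v * w) - (w + v) * -((κ : ℂ) * (starRingEnd ℂ) v * 1)) /
        (1 - (κ : ℂ) * (starRingEnd ℂ) v * w) ^ 2 := by
    congr 1
    have h3 : ((1 + κ * ‖v‖ ^ 2 : ℝ) : ℂ) = 1 + (κ : ℂ) * ((‖v‖ ^ 2 : ℝ) : ℂ) := by push_cast; ring
    rw [h3, ← hc]
    ring
  rw [e]
  exact d3

/-- `mob` is an isometry of `|dw|/(1 + κ |w|²)` -/
theorem mob_iso {κ ρ : ℝ} (hρ : |κ| * ρ ^ 2 ≤ 1 / 4) {v w : ℂ} (hv : ‖v‖ ≤ ρ) (hw : ‖w‖ ≤ ρ) :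
    (1 + κ * ‖mob κ v w‖ ^ 2) * ‖1 - κ * (starRingEnd ℂ) v * w‖ ^ 2 =
      (1 + κ * ‖v‖ ^ 2) * (1 + κ * ‖w‖ ^ 2) := by
  have h1 := mob_den_ne hρ hv hw
  have hN : ‖1 - (κ : ℂ) * (starRingEnd ℂ) v * w‖ ≠ 0 := by
    intro h
    rw [h] at h1
    linarith
  have e1 : ‖mob κ v w‖ * ‖1 - (κ : ℂ) * (starRingEnd ℂ) v * w‖ = ‖w + v‖ := by
    unfold mob
    rw [norm_div, div_mul_cancel₀ _ hN]
  have e2 : (1 + κ * ‖mob κ v w‖ ^ 2) * ‖1 - (κ : ℂ) * (starRingEnd ℂ) v * w‖ ^ 2 =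
      ‖1 - (κ : ℂ) * (starRingEnd ℂ) v * w‖ ^ 2 + κ * ‖w + v‖ ^ 2 := by
    rw [← e1]
    ring
  rw [e2, ← Complex.normSq_eq_norm_sq, ← Complex.normSq_eq_norm_sq, ← Complex.normSq_eq_norm_sq,
    ← Complex.normSq_eq_norm_sq]
  simp only [Complex.normSq_apply, Complex.sub_re, Complex.sub_im, Complex.mul_re, Complex.mul_im,
    Complex.conj_re, Complex.conj_im, Complex.ofReal_re, Complex.ofReal_im, Complex.one_re,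
    Complex.one_im, Complex.add_re, Complex.add_im]
  ring

end Pool.Agent.YUS
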