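import Pool.Agent.YUS.PF

/-!
# [YUS-A2] charts
-/

open MeasureTheory Set Filter Topology
open scoped ContDiff

namespace Pool.Agent.YUS

open Pool.Agent.YUD Pool.Agent.YUT Pool.Agent.YUB Pool.Agent.YUR Pool.Agent.YUL

namespace Surf

variable {X : Type} [TopologicalSpace X] (S : Surf X)

theorem iv_E {c : X} {v : ℂ} (hv : ‖v‖ < S.ρ) : S.iv c (S.E c v) = v :=
  (S.inj c).leftInvOn_invFunOn (mem_ball_zero_iff.2 hv)

theorem E_iv {c x : X} (h : x ∈ S.E c '' Metric.ball 0 S.ρ) :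
    S.E c (S.iv c x) = x ∧ ‖S.iv c x‖ < S.ρ :=
  ⟨Function.invFunOn_eq h, mem_ball_zero_iff.1 (Function.invFunOn_mem h)⟩

theorem iv_self (c : X) : S.iv c c = 0 := by
  have h : ‖(0 : ℂ)‖ < S.ρ := by
    rw [norm_zero]
    exact S.ρ_pos
  have h1 := S.iv_E (c := c) h
  rwa [S.center] at h1

theorem isOpen_chart (c : X) : IsOpen (S.E c '' Metric.ball 0 S.ρ) :=
  S.isOpenMap c _ subset_rfl Metric.isOpen_ball

theorem iv_cont (c : X) : ContinuousOn (S.iv c) (S.E c '' Metric.ball 0 S.ρ) := by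
  rw [continuousOn_iff']
  intro t ht
  refine ⟨S.E c '' (t ∩ Metric.ball 0 S.ρ),
    S.isOpenMap c _ inter_subset_right (ht.inter Metric.isOpen_ball), ?_⟩
  ext x
  constructor
  · rintro ⟨h1, h2⟩
    obtain ⟨e1, e2⟩ := S.E_iv h2
    exact ⟨⟨S.iv c x, ⟨h1, mem_ball_zero_iff.2 e2⟩, e1⟩, h2⟩
  · rintro ⟨⟨v, ⟨hv, hv'⟩, rfl⟩, h2⟩
    refine ⟨?_, h2⟩
    show S.iv c (S.E c v) ∈ t
    rw [S.iv_E (mem_ball_zero_iff.1 hv')]
    exact hv

theorem isOpen_D {M : Set X} (hM : IsOpen M) (c : X) : IsOpen (S.D M c) := by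
  have h1 : S.D M c = Metric.ball 0 S.ρ ∩ S.E c ⁻¹' M := by
    ext v
    show ‖v‖ < S.ρ ∧ S.E c v ∈ M ↔ v ∈ Metric.ball 0 S.ρ ∧ S.E c v ∈ M
    rw [mem_ball_zero_iff]
  rw [h1]
  exact (S.cont c).isOpen_inter_preimage Metric.isOpen_ball hM

end Surf

end Pool.Agent.YUS
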