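import Pool.Agent.YUS.PF
import Pool.Agent.YUS.A1
import Pool.Agent.YUS.A2

/-!
# [YUS-A3] change of charts
-/

open MeasureTheory Set Filter Topology
open scoped ContDiff

namespace Pool.Agent.YUS

open Pool.Agent.YUD Pool.Agent.YUT Pool.Agent.YUB Pool.Agent.YUR Pool.Agent.YUL

/-! ### holomorphic changes of variables -/

/-- the derivative of `f ∘ T` in the direction `v` -/
theorem A3.fderiv_holo {f : ℂ → ℝ} {T : ℂ → ℂ} {w D : ℂ} (hD : HasDerivAt T D w)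
    (hf : DifferentiableAt ℝ f (T w)) (v : ℂ) :
    fderiv ℝ (fun z => f (T z)) w v = fderiv ℝ f (T w) (v * D) := by
  have h1 := hD.hasFDerivAt.restrictScalars ℝ
  have h2 := (hf.hasFDerivAt.comp w h1).fderiv
  have h3 : fderiv ℝ (fun z => f (T z)) w = _ := h2
  rw [h3]
  rfl

theorem A3.clm_eq {V : Type*} [AddCommGroup V] [Module ℝ V] [TopologicalSpace V] (A : ℂ →L[ℝ] V)
    (u : ℂ) : A u = u.re • A 1 + u.im • A Complex.I := by
  have e : u = u.re • (1 : ℂ) + u.im • Complex.I := by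
    apply Complex.ext <;> simp
  conv_lhs => rw [e]
  rw [map_add, map_smul, map_smul]

theorem perp_holo {f : ℂ → ℝ} {T : ℂ → ℂ} {w D : ℂ} (hD : HasDerivAt T D w)
    (hf : DifferentiableAt ℝ f (T w)) :
    perp (fun z => f (T z)) w = (starRingEnd ℂ) D * perp f (T w) := by
  apply Complex.ext
  · show -(fderiv ℝ (fun z => f (T z)) w Complex.I) =
      D.re * -(fderiv ℝ f (T w) Complex.I) - (-D.im) * (fderiv ℝ f (T w) 1)
    rw [A3.fderiv_holo hD hf, A3.clm_eq (fderiv ℝ f (T w)) (Complex.I * D)]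
    simp only [Complex.mul_re, Complex.mul_im, Complex.I_re, Complex.I_im, smul_eq_mul]
    ring
  · show fderiv ℝ (fun z => f (T z)) w 1 =
      D.re * (fderiv ℝ f (T w) 1) + (-D.im) * -(fderiv ℝ f (T w) Complex.I)
    rw [A3.fderiv_holo hD hf, one_mul, A3.clm_eq (fderiv ℝ f (T w)) D]
    simp only [smul_eq_mul]
    ring

theorem A3.sum_eq (B : ℂ →L[ℝ] ℂ →L[ℝ] ℝ) (D : ℂ) :
    B D D + B (Complex.I * D) (Complex.I * D) = ‖D‖ ^ 2 * (B 1 1 + B Complex.I Complex.I) := by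
  have h1 : ∀ u : ℂ, B u u = u.re * (u.re * B 1 1 + u.im * B 1 Complex.I) +
      u.im * (u.re * B Complex.I 1 + u.im * B Complex.I Complex.I) := by
    intro u
    rw [A3.clm_eq B u]
    show (u.re • B 1 + u.im • B Complex.I) u = _
    rw [_root_.add_apply, _root_.smul_apply, _root_.smul_apply, A3.clm_eq (B 1) u,
      A3.clm_eq (B Complex.I) u]
    simp only [smul_eq_mul]
  have h2 : ‖D‖ ^ 2 = D.re * D.re + D.im * D.im := by
    rw [← Complex.normSq_eq_norm_sq, Complex.normSq_apply]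
  rw [h1 D, h1 (Complex.I * D), h2]
  simp only [Complex.mul_re, Complex.mul_im, Complex.I_re, Complex.I_im]
  ring

theorem lap_holo {f : ℂ → ℝ} {T : ℂ → ℂ} {w D : ℂ} (hT : ∀ᶠ z in 𝓝 w, DifferentiableAt ℂ T z)
    (hD : HasDerivAt T D w) (hf : ContDiffAt ℝ 2 f (T w)) :
    lap (fun z => f (T z)) w = ‖D‖ ^ 2 * lap f (T w) := by
  have hTa : AnalyticAt ℂ T w := Complex.analyticAt_iff_eventually_differentiableAt.2 hT
  obtain ⟨E, hE⟩ : ∃ E, HasDerivAt (deriv T) E w := ⟨_, hTa.deriv.differentiableAt.hasDerivAt⟩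
  have hDe : deriv T w = D := hD.deriv
  have hTc : ContinuousAt T w := hD.continuousAt
  have hf1 : ∀ᶠ z in 𝓝 w, DifferentiableAt ℝ f (T z) := by
    have h1 : ∀ᶠ y in 𝓝 (T w), DifferentiableAt ℝ f y :=
      (hf.eventually (by simp)).mono fun y hy => hy.differentiableAt (by norm_num)
    exact hTc.eventually h1
  have hf2 : HasFDerivAt (fderiv ℝ f) (fderiv ℝ (fderiv ℝ f) (T w)) (T w) :=
    ((hf.fderiv_right (m := 1) (by norm_num)).differentiableAt (by norm_num)).hasFDerivAt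
  have hg : HasFDerivAt (fun z => fderiv ℝ f (T z)) _ w :=
    hf2.comp w (hD.hasFDerivAt.restrictScalars ℝ)
  have key : ∀ v : ℂ, fderiv ℝ (fun z => fderiv ℝ (fun z => f (T z)) z v) w v =
      fderiv ℝ f (T w) (v * (v * E)) + fderiv ℝ (fderiv ℝ f) (T w) (v * D) (v * D) := by
    intro v
    have e1 : (fun z => fderiv ℝ (fun z => f (T z)) z v) =ᶠ[𝓝 w]
        fun z => fderiv ℝ f (T z) (v * deriv T z) := by
      filter_upwards [hT, hf1] with z hz hz'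
      exact A3.fderiv_holo hz.hasDerivAt hz' v
    have hu : HasFDerivAt (fun z => v * deriv T z) _ w :=
      (hE.const_mul v).hasFDerivAt.restrictScalars ℝ
    have e2 := (hg.clm_apply hu).fderiv
    rw [e1.fderiv_eq, e2, ← hDe]
    rfl
  have key2 : ∀ v : ℂ, fderiv ℝ (fun z => fderiv ℝ f z v) (T w) v =
      fderiv ℝ (fderiv ℝ f) (T w) v v := by
    intro v
    have e2 := (hf2.clm_apply (hasFDerivAt_const v (T w))).fderiv
    rw [e2]
    simp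
  have e1 : lap (fun z => f (T z)) w =
      fderiv ℝ (fun z => fderiv ℝ (fun z => f (T z)) z 1) w 1 +
      fderiv ℝ (fun z => fderiv ℝ (fun z => f (T z)) z Complex.I) w Complex.I := rfl
  have e2 : lap f (T w) = fderiv ℝ (fun z => fderiv ℝ f z 1) (T w) 1 +
      fderiv ℝ (fun z => fderiv ℝ f z Complex.I) (T w) Complex.I := rfl
  have e3 : Complex.I * (Complex.I * E) = -E := by
    rw [← mul_assoc, Complex.I_mul_I, neg_one_mul]
  rw [e1, e2, key, key, key2, key2, ← A3.sum_eq, one_mul, one_mul, one_mul, e3, map_neg]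
  ring

namespace Surf

variable {X : Type} [TopologicalSpace X] (S : Surf X)

private theorem A3_kappa {v : ℂ} (hv : ‖v‖ < S.ρ) : |S.κ * ‖v‖ ^ 2| ≤ 1 / 16 := by
  rw [abs_mul, abs_of_nonneg (sq_nonneg ‖v‖)]
  have h1 : ‖v‖ ^ 2 ≤ S.ρ ^ 2 := pow_le_pow_left₀ (norm_nonneg _) hv.le 2
  exact (mul_le_mul_of_nonneg_left h1 (abs_nonneg _)).trans S.κ_le

private theorem A3_le : |S.κ| * S.ρ ^ 2 ≤ 1 / 4 := S.κ_le.trans (by norm_num)

/-- the relation between being near is symmetric -/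
theorem near_symm {c : X} {v : ℂ} (hv : ‖v‖ < S.ρ) :
    ∃ v' : ℂ, ‖v'‖ = ‖v‖ ∧ S.E (S.E c v) v' = c := by
  obtain ⟨τ, hτ, h⟩ := S.recenter c v hv
  have h0 : mob S.κ v (-v) = 0 := by
    unfold mob
    rw [neg_add_cancel, zero_div]
  refine ⟨τ * -v, ?_, ?_⟩
  · rw [norm_mul, hτ, one_mul, norm_neg]
  · rw [← h (-v) (by rwa [norm_neg]) (by
      rw [h0, norm_zero]
      exact S.ρ_pos), h0, S.center]

/-- two charts containing a point -/
theorem change {c c' : X} {v v' : ℂ} (hv : ‖v‖ < S.ρ) (hv' : ‖v'‖ < S.ρ)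
    (h : S.E c v = S.E c' v') : ∃ σ : ℂ, ‖σ‖ = 1 ∧
      ∀ w, ‖w‖ < S.ρ → ‖mob S.κ (-v) w‖ < S.ρ →
        ‖mob S.κ v' (σ * mob S.κ (-v) w)‖ < S.ρ →
          S.E c w = S.E c' (mob S.κ v' (σ * mob S.κ (-v) w)) := by
  obtain ⟨τ, hτ, h1⟩ := S.recenter c v hv
  obtain ⟨τ', hτ', h2⟩ := S.recenter c' v' hv'
  have h0 : τ' ≠ 0 := by
    intro h0
    rw [h0, norm_zero] at hτ'
    exact zero_ne_one hτ'
  have hσ : ‖τ / τ'‖ = 1 := by
    rw [norm_div, hτ, hτ', div_one]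
  refine ⟨τ / τ', hσ, fun w hw hu hT => ?_⟩
  have e1 : mob S.κ v (mob S.κ (-v) w) = w := by
    have h3 := mob_neg_mob S.A3_le (v := -v) (w := w) (by rw [norm_neg]; exact hv.le) hw.le
    rwa [neg_neg] at h3
  have e2 := h1 _ hu (by rwa [e1])
  rw [e1] at e2
  have e3 := h2 (τ / τ' * mob S.κ (-v) w) (by rwa [norm_mul, hσ, one_mul]) hT
  rw [e2, e3, ← h, ← mul_assoc, mul_div_cancel₀ _ h0]

/-- `X` is a Hausdorff space -/
theorem t2 (S : Surf X) : T2Space X := by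
  refine ⟨fun x x' hne => ?_⟩
  by_cases hdis : Disjoint (S.E x '' Metric.ball 0 S.ρ) (S.E x' '' Metric.ball 0 S.ρ)
  · have h0 : (0 : ℂ) ∈ Metric.ball (0 : ℂ) S.ρ := Metric.mem_ball_self S.ρ_pos
    exact ⟨_, _, S.isOpen_chart x, S.isOpen_chart x', ⟨0, h0, S.center x⟩, ⟨0, h0, S.center x'⟩,
      hdis⟩
  · rw [Set.not_disjoint_iff] at hdis
    obtain ⟨y, ⟨v, hv, rfl⟩, ⟨v', hv', hvv⟩⟩ := hdis
    rw [mem_ball_zero_iff] at hv hv'
    obtain ⟨z, hz, hzx⟩ := S.near_symm (c := x) hv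
    obtain ⟨z', hz', hzx'⟩ := S.near_symm (c := x') hv'
    rw [hvv] at hzx'
    have hzz : z ≠ z' := by
      intro h
      apply hne
      rw [← hzx, ← hzx', h]
    obtain ⟨U, U', hU, hU', hzU, hzU', hUU⟩ := t2_separation hzz
    have hb : ‖z‖ < S.ρ := by rwa [hz]
    have hb' : ‖z'‖ < S.ρ := by rwa [hz']
    refine ⟨S.E (S.E x v) '' (U ∩ Metric.ball 0 S.ρ), S.E (S.E x v) '' (U' ∩ Metric.ball 0 S.ρ),
      S.isOpenMap _ _ inter_subset_right (hU.inter Metric.isOpen_ball),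
      S.isOpenMap _ _ inter_subset_right (hU'.inter Metric.isOpen_ball),
      ⟨z, ⟨hzU, mem_ball_zero_iff.2 hb⟩, hzx⟩, ⟨z', ⟨hzU', mem_ball_zero_iff.2 hb'⟩, hzx'⟩, ?_⟩
    rw [Set.disjoint_left]
    rintro _ ⟨p, ⟨hp, hp'⟩, rfl⟩ ⟨q, ⟨hq, hq'⟩, hpq⟩
    have h1 := S.inj (S.E x v) hq' hp' hpq
    rw [h1] at hq
    exact Set.disjoint_left.1 hUU hp hq

/-- the transition maps are holomorphic and respect the densities -/
theorem trans {c c' : X} {v : ℂ} (hv : ‖v‖ < S.ρ) (h : S.E c v ∈ S.E c' '' Metric.ball 0 S.ρ) :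
    ∃ D : ℂ, 1 / 2 ≤ ‖D‖ ∧ ‖D‖ ≤ 2 ∧ HasDerivAt (fun w => S.iv c' (S.E c w)) D v ∧
      ContDiffAt ℝ ∞ (fun w => S.iv c' (S.E c w)) v ∧
      ‖D‖ ^ 2 * S.den c' (S.iv c' (S.E c v)) = S.den c v := by
  obtain ⟨e1, e2⟩ := S.E_iv h
  set v' : ℂ := S.iv c' (S.E c v) with hv'
  obtain ⟨σ, hσ, hch⟩ := S.change hv e2 e1.symm
  set T : ℂ → ℂ := fun w => mob S.κ v' (σ * mob S.κ (-v) w) with hT
  have k1 := abs_le.1 (S.A3_kappa hv)
  have k2 := abs_le.1 (S.A3_kappa e2)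
  have m0 : mob S.κ (-v) v = 0 := by
    unfold mob
    rw [add_neg_cancel, zero_div]
  have hρ0 : ‖(0 : ℂ)‖ ≤ S.ρ := by
    rw [norm_zero]
    exact S.ρ_pos.le
  have hv0 : ‖-v‖ ≤ S.ρ := by
    rw [norm_neg]
    exact hv.le
  have hTv : T v = v' := by
    rw [hT]
    show mob S.κ v' (σ * mob S.κ (-v) v) = v'
    rw [m0, mul_zero, mob_zero_right]
  have d1 := mob_hasDerivAt S.A3_le hv0 hv.le
  have d2 : HasDerivAt (mob S.κ v') ((1 + S.κ * ‖v'‖ ^ 2 : ℝ)) (σ * mob S.κ (-v) v) := by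
    have h1 := mob_hasDerivAt S.A3_le e2.le hρ0
    rw [mul_zero, sub_zero, one_pow, div_one] at h1
    rw [m0, mul_zero]
    exact h1
  have d3' : HasDerivAt (mob S.κ v' ∘ fun w => σ * mob S.κ (-v) w)
      ((1 + S.κ * ‖v'‖ ^ 2 : ℝ) * (σ * ((1 + S.κ * ‖-v‖ ^ 2 : ℝ) /
      (1 - S.κ * (starRingEnd ℂ) (-v) * v) ^ 2))) v := HasDerivAt.comp v d2 (d1.const_mul σ)
  have d3 : HasDerivAt T ((1 + S.κ * ‖v'‖ ^ 2 : ℝ) * (σ * ((1 + S.κ * ‖-v‖ ^ 2 : ℝ) /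
      (1 - S.κ * (starRingEnd ℂ) (-v) * v) ^ 2))) v := d3'
  have hc : (starRingEnd ℂ) v * v = ((‖v‖ ^ 2 : ℝ) : ℂ) := by
    rw [mul_comm, Complex.mul_conj, Complex.normSq_eq_norm_sq]
  have hr : (0 : ℝ) < 1 + S.κ * ‖v‖ ^ 2 := by linarith
  have hr' : (0 : ℝ) < 1 + S.κ * ‖v'‖ ^ 2 := by linarith
  set D : ℂ := σ * (((1 + S.κ * ‖v'‖ ^ 2) / (1 + S.κ * ‖v‖ ^ 2) : ℝ) : ℂ) with hD
  have hDe : ((1 + S.κ * ‖v'‖ ^ 2 : ℝ) * (σ * ((1 + S.κ * ‖-v‖ ^ 2 : ℝ) /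
      (1 - S.κ * (starRingEnd ℂ) (-v) * v) ^ 2)) : ℂ) = D := by
    have h1 : (1 - S.κ * (starRingEnd ℂ) (-v) * v : ℂ) = ((1 + S.κ * ‖v‖ ^ 2 : ℝ) : ℂ) := by
      rw [map_neg, mul_neg, neg_mul, sub_neg_eq_add, mul_assoc, hc]
      push_cast
      ring
    have h2 : ((1 + S.κ * ‖v‖ ^ 2 : ℝ) : ℂ) ≠ 0 := Complex.ofReal_ne_zero.2 hr.ne'
    rw [h1, norm_neg, hD, Complex.ofReal_div]
    field_simp
  rw [hDe] at d3
  have hDn : ‖D‖ = (1 + S.κ * ‖v'‖ ^ 2) / (1 + S.κ * ‖v‖ ^ 2) := by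
    rw [hD, norm_mul, hσ, one_mul, Complex.norm_real, Real.norm_eq_abs,
      abs_of_pos (div_pos hr' hr)]
  -- the transition map is `T` near `v`
  have hcm : ContinuousAt (mob S.κ (-v)) v := d1.continuousAt
  have hcT : ContinuousAt T v := d3.continuousAt
  have ev : (fun w => S.iv c' (S.E c w)) =ᶠ[𝓝 v] T := by
    have n1 : ∀ᶠ w in 𝓝 v, ‖w‖ < S.ρ :=
      continuousAt_id.norm.eventually (gt_mem_nhds hv)
    have n2 : ∀ᶠ w in 𝓝 v, ‖mob S.κ (-v) w‖ < S.ρ :=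
      hcm.norm.eventually (gt_mem_nhds (by
        show ‖mob S.κ (-v) v‖ < S.ρ
        rw [m0, norm_zero]
        exact S.ρ_pos))
    have n3 : ∀ᶠ w in 𝓝 v, ‖T w‖ < S.ρ :=
      hcT.norm.eventually (gt_mem_nhds (by
        show ‖T v‖ < S.ρ
        rwa [hTv]))
    filter_upwards [n1, n2, n3] with w h1 h2 h3
    rw [hch w h1 h2 h3]
    exact S.iv_E h3
  have hsm : ∀ {u w : ℂ}, ‖u‖ ≤ S.ρ → ‖w‖ ≤ S.ρ → ContDiffAt ℝ ∞ (mob S.κ u) w := by
    intro u w hu hw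
    have h1 : (1 - S.κ * (starRingEnd ℂ) u * w : ℂ) ≠ 0 := by
      intro h1
      have h2 := mob_den_ne S.A3_le hu hw
      rw [h1, norm_zero] at h2
      norm_num at h2
    have h2 : ContDiffAt ℂ ∞ (mob S.κ u) w := by
      show ContDiffAt ℂ ∞ (fun w => (w + u) / (1 - S.κ * (starRingEnd ℂ) u * w)) w
      exact (contDiffAt_id.add contDiffAt_const).div
        (contDiffAt_const.sub (contDiffAt_const.mul contDiffAt_id)) h1
    exact h2.restrict_scalars ℝ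
  have hsT : ContDiffAt ℝ ∞ T v := by
    have h1 : ContDiffAt ℝ ∞ (fun w => σ * mob S.κ (-v) w) v := contDiffAt_const.mul (hsm hv0 hv.le)
    have h2 : ContDiffAt ℝ ∞ (mob S.κ v') (σ * mob S.κ (-v) v) := by
      rw [m0, mul_zero]
      exact hsm e2.le hρ0
    exact h2.comp v h1
  refine ⟨D, ?_, ?_, d3.congr_of_eventuallyEq ev, hsT.congr_of_eventuallyEq ev, ?_⟩
  · rw [hDn, le_div_iff₀ hr]
    linarith
  · rw [hDn, div_le_iff₀ hr]
    linarith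
  · unfold den
    rw [hDn, e1]
    field_simp

end Surf

end Pool.Agent.YUS
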