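import Pool.Agent.YUS.A3
import Pool.Agent.YUS.A2

/-!
# [YUS-A4] the Laplacian in the charts
-/

open MeasureTheory Set Filter Topology
open scoped ContDiff

namespace Pool.Agent.YUS

open Pool.Agent.YUD Pool.Agent.YUT Pool.Agent.YUB Pool.Agent.YUR Pool.Agent.YUL

namespace Surf

variable {X : Type} [TopologicalSpace X] (S : Surf X)

theorem lap_chart {f : X → ℝ} {c : X} {v : ℂ} (hv : ‖v‖ < S.ρ)
    (hf : ContDiffAt ℝ 2 (fun w => f (S.E c w)) v) :
    lap (fun w => f (S.E c w)) v = S.den c v * S.lapS f (S.E c v) := by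
  have h0 : ‖(0 : ℂ)‖ < S.ρ := by
    rw [norm_zero]
    exact S.ρ_pos
  set x : X := S.E c v with hx
  have hxc : S.E x 0 ∈ S.E c '' Metric.ball 0 S.ρ := by
    rw [S.center x]
    exact ⟨v, mem_ball_zero_iff.2 hv, rfl⟩
  obtain ⟨D, hD1, hD2, hD, hDs, hDd⟩ := S.trans (c := x) (c' := c) (v := 0) h0 hxc
  have hT0 : S.iv c (S.E x 0) = v := by
    rw [S.center x, hx]
    exact S.iv_E hv
  -- near `0` the point `E x u` is in the chart `c`
  have hopen : IsOpen {u : ℂ | u ∈ Metric.ball (0 : ℂ) S.ρ ∧ S.E x u ∈ S.E c '' Metric.ball 0 S.ρ} :=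
    (S.cont x).isOpen_inter_preimage Metric.isOpen_ball (S.isOpen_chart c)
  have hev : ∀ᶠ u in 𝓝 (0 : ℂ), ‖u‖ < S.ρ ∧ S.E x u ∈ S.E c '' Metric.ball 0 S.ρ := by
    filter_upwards [hopen.mem_nhds ⟨Metric.mem_ball_self S.ρ_pos, hxc⟩] with u hu
    exact ⟨mem_ball_zero_iff.1 hu.1, hu.2⟩
  have hT : ∀ᶠ u in 𝓝 (0 : ℂ), DifferentiableAt ℂ (fun w => S.iv c (S.E x w)) u := by
    filter_upwards [hev] with u hu
    obtain ⟨D', -, -, hD', -⟩ := S.trans (c := x) (c' := c) (v := u) hu.1 hu.2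
    exact hD'.differentiableAt
  have e1 := lap_holo (f := fun w => f (S.E c w)) hT hD (by
    show ContDiffAt ℝ 2 (fun w => f (S.E c w)) (S.iv c (S.E x 0))
    rw [hT0]
    exact hf)
  have e2 : (fun z => f (S.E c (S.iv c (S.E x z)))) =ᶠ[𝓝 0] fun z => f (S.E x z) := by
    filter_upwards [hev] with u hu
    rw [(S.E_iv hu.2).1]
  have e3 : lap (fun z => f (S.E c (S.iv c (S.E x z)))) 0 = lap (fun z => f (S.E x z)) 0 := by
    obtain ⟨U, hU, hUo, h0U⟩ := eventually_nhds_iff.1 e2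
    exact lap_congr hUo (fun z hz => hU z hz) h0U
  have e4 : lap (fun z => f (S.E x z)) 0 = ‖D‖ ^ 2 * lap (fun w => f (S.E c w)) v := by
    rw [← e3, e1, hT0]
  have hP : S.den x 0 = S.P x := by
    unfold den
    rw [S.center x, norm_zero]
    simp
  rw [hT0, hP] at hDd
  unfold lapS
  rw [e4, ← hDd]
  have hPx : ‖D‖ ^ 2 * S.den c v ≠ 0 := by
    rw [hDd]
    exact (S.P_pos x).ne'
  have hd1 : ‖D‖ ^ 2 ≠ 0 := left_ne_zero_of_mul hPx
  have hd2 : S.den c v ≠ 0 := right_ne_zero_of_mul hPx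
  field_simp

end Surf

end Pool.Agent.YUS
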