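import Pool.Agent.YUS.PF
import Pool.Agent.YUS.A1

/-!
# [YUS-A5a] uniform bounds of the density
-/

open MeasureTheory Set Filter Topology
open scoped ContDiff

namespace Pool.Agent.YUS

open Pool.Agent.YUD Pool.Agent.YUT Pool.Agent.YUB Pool.Agent.YUR Pool.Agent.YUL

/-- jets of a smooth function with parameters in a compact set are bounded -/
theorem A5a.par {P : Type} [NormedAddCommGroup P] [NormedSpace ℝ P] {K : Set (P × ℂ)}
    (hK : IsCompact K) (n : ℕ) : ∀ {F : P × ℂ → ℝ}, (∀ z ∈ K, ContDiffAt ℝ ∞ F z) →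
      ∃ C : ℝ, ∀ (p : P) (M : Set ℂ), IsOpen M → (∀ u ∈ M, (p, u) ∈ K) →
        JetLe M n C (fun u => F (p, u)) := by
  induction n with
  | zero =>
    intro F hF
    obtain ⟨C, hC⟩ := hK.exists_bound_of_continuousOn
      (fun z hz => (hF z hz).continuousAt.continuousWithinAt : ContinuousOn F K)
    exact ⟨C, fun p M _ h u hu => hC (p, u) (h u hu)⟩
  | succ n ih =>
    intro F hF
    obtain ⟨C, hC⟩ := hK.exists_bound_of_continuousOn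
      (fun z hz => (hF z hz).continuousAt.continuousWithinAt : ContinuousOn F K)
    have hd : ∀ (v : ℂ), ∀ z ∈ K, ContDiffAt ℝ ∞ (fun z => fderiv ℝ F z ((0 : P), v)) z :=
      fun v z hz => ((hF z hz).fderiv_right (m := ∞) (by simp)).clm_apply contDiffAt_const
    obtain ⟨C1, hC1⟩ := ih (hd 1)
    obtain ⟨C2, hC2⟩ := ih (hd Complex.I)
    have key : ∀ (v : ℂ) (p : P) (M : Set ℂ), (∀ u ∈ M, (p, u) ∈ K) → ∀ u ∈ M,
        fderiv ℝ F (p, u) ((0 : P), v) = fderiv ℝ (fun u => F (p, u)) u v := by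
      intro v p M h u hu
      have h1 : HasFDerivAt F (fderiv ℝ F (p, u)) (p, u) :=
        ((hF _ (h u hu)).differentiableAt (by simp)).hasFDerivAt
      have h2 : HasFDerivAt (fun u : ℂ => (p, u)) (ContinuousLinearMap.inr ℝ P ℂ) u :=
        hasFDerivAt_prodMk_right p u
      have h3 : fderiv ℝ (fun u => F (p, u)) u = _ := (h1.comp u h2).fderiv
      rw [h3]
      rfl
    refine ⟨max C (max C1 C2), fun p M hM h => ⟨fun u hu => ?_, ?_, ?_⟩⟩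
    · exact (hC (p, u) (h u hu)).trans (le_max_left _ _)
    · exact ((hC1 p M hM h).congr hM (key 1 p M h)).mono
        ((le_max_left _ _).trans (le_max_right _ _))
    · exact ((hC2 p M hM h).congr hM (key Complex.I p M h)).mono
        ((le_max_right _ _).trans (le_max_right _ _))

namespace Surf

variable {X : Type} [TopologicalSpace X] (S : Surf X)

private theorem A5a_mob {v w : ℂ} (hv : ‖v‖ ≤ S.ρ / 8) (hw : ‖w‖ ≤ S.ρ / 2) :
    ‖mob S.κ v w‖ < S.ρ := by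
  have hρ := S.ρ_pos
  have h1 := mob_le (κ := S.κ) (ρ := S.ρ) (S.κ_le.trans (by norm_num)) (v := v) (w := w)
    (by linarith) (by linarith)
  refine h1.trans_lt ?_
  have h2 : |S.κ| * ‖v‖ * ‖w‖ ≤ 1 / 16 := by
    have h3 : ‖v‖ * ‖w‖ ≤ S.ρ * S.ρ := mul_le_mul (by linarith) (by linarith) (norm_nonneg _) hρ.le
    have h4 := mul_le_mul_of_nonneg_left h3 (abs_nonneg S.κ)
    have h5 := S.κ_le
    nlinarith
  rw [div_lt_iff₀ (by linarith)]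
  nlinarith

/-- the density, with parameters -/
private noncomputable def A5aF (c : X) (z : (ℂ × ℂ) × ℂ) : ℝ :=
  S.P (S.E c (mob S.κ z.1.1 (z.1.2 * z.2))) / (1 + S.κ * ‖z.2‖ ^ 2) ^ 2

private theorem A5a_pos {u : ℂ} (hu : ‖u‖ ≤ S.ρ) : 0 < 1 + S.κ * ‖u‖ ^ 2 := by
  have h1 : ‖u‖ ^ 2 ≤ S.ρ ^ 2 := pow_le_pow_left₀ (norm_nonneg _) hu 2
  have h2 := mul_le_mul_of_nonneg_left h1 (abs_nonneg S.κ)
  have h3 := S.κ_le
  have h4 : -(|S.κ| * ‖u‖ ^ 2) ≤ S.κ * ‖u‖ ^ 2 := by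
    rw [← neg_mul]
    exact mul_le_mul_of_nonneg_right (neg_abs_le _) (sq_nonneg _)
  linarith

private theorem A5a_smooth (c : X) {z : (ℂ × ℂ) × ℂ} (h1 : ‖z.1.1‖ ≤ S.ρ / 8) (h2 : ‖z.1.2‖ = 1)
    (h3 : ‖z.2‖ ≤ S.ρ / 2) : ContDiffAt ℝ ∞ (S.A5aF c) z := by
  have hρ := S.ρ_pos
  have hw : ‖z.1.2 * z.2‖ ≤ S.ρ / 2 := by rwa [norm_mul, h2, one_mul]
  have hden : (1 - S.κ * (starRingEnd ℂ) z.1.1 * (z.1.2 * z.2) : ℂ) ≠ 0 := by
    intro h4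
    have h5 := mob_den_ne (κ := S.κ) (ρ := S.ρ) (S.κ_le.trans (by norm_num)) (v := z.1.1)
      (w := z.1.2 * z.2) (by linarith) (by linarith)
    rw [h4, norm_zero] at h5
    norm_num at h5
  have s1 : ContDiffAt ℝ ∞ (fun z : (ℂ × ℂ) × ℂ => z.1.1) z := contDiffAt_fst.comp z contDiffAt_fst
  have s2 : ContDiffAt ℝ ∞ (fun z : (ℂ × ℂ) × ℂ => z.1.2) z := contDiffAt_snd.comp z contDiffAt_fst
  have s3 : ContDiffAt ℝ ∞ (fun z : (ℂ × ℂ) × ℂ => z.2) z := contDiffAt_snd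
  have s4 : ContDiffAt ℝ ∞ (fun z : (ℂ × ℂ) × ℂ => (starRingEnd ℂ) z.1.1) z :=
    Complex.conjCLE.contDiff.contDiffAt.comp z s1
  have s5 : ContDiffAt ℝ ∞ (fun z : (ℂ × ℂ) × ℂ => mob S.κ z.1.1 (z.1.2 * z.2)) z := by
    have s9 : ContDiffAt ℝ ∞ (fun z : (ℂ × ℂ) × ℂ =>
        (1 - S.κ * (starRingEnd ℂ) z.1.1 * (z.1.2 * z.2) : ℂ)) z :=
      contDiffAt_const.sub ((contDiffAt_const.mul s4).mul (s2.mul s3))
    exact ((s2.mul s3).add s1).mul (s9.inv hden)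
  have s6 : ContDiffAt ℝ ∞ (fun v => S.P (S.E c v)) (mob S.κ z.1.1 (z.1.2 * z.2)) :=
    (S.P_smooth c).contDiffAt (Metric.isOpen_ball.mem_nhds
      (mem_ball_zero_iff.2 (S.A5a_mob h1 hw)))
  have s7 : ContDiffAt ℝ ∞ (fun z : (ℂ × ℂ) × ℂ => S.P (S.E c (mob S.κ z.1.1 (z.1.2 * z.2)))) z :=
    ContDiffAt.comp (g := fun v => S.P (S.E c v)) z s6 s5
  have s8 : ContDiffAt ℝ ∞ (fun z : (ℂ × ℂ) × ℂ => (1 + S.κ * ‖z.2‖ ^ 2) ^ 2) z :=
    (contDiffAt_const.add (contDiffAt_const.mul (s3.norm_sq ℝ))).pow 2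
  exact s7.div s8 (pow_ne_zero 2 (S.A5a_pos (by linarith)).ne')

private theorem A5a_eq {c : X} {v : ℂ} (hv : ‖v‖ ≤ S.ρ / 8) : ∃ σ : ℂ, ‖σ‖ = 1 ∧
    ∀ u, ‖u‖ ≤ S.ρ / 2 → S.den (S.E c v) u = S.A5aF c ((v, σ), u) := by
  have hρ := S.ρ_pos
  obtain ⟨τ, hτ, h⟩ := S.recenter c v (by linarith)
  have h0 : τ ≠ 0 := by
    intro h0
    rw [h0, norm_zero] at hτ
    exact zero_ne_one hτ
  refine ⟨τ⁻¹, by rw [norm_inv, hτ, inv_one], fun u hu => ?_⟩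
  have hn : ‖τ⁻¹ * u‖ ≤ S.ρ / 2 := by rwa [norm_mul, norm_inv, hτ, inv_one, one_mul]
  have h1 := h (τ⁻¹ * u) (by linarith) (S.A5a_mob hv hn)
  rw [← mul_assoc, mul_inv_cancel₀ h0, one_mul] at h1
  unfold den A5aF
  rw [h1]

private theorem A5a_local (c : X) : ∃ C : ℝ, ∀ v : ℂ, ‖v‖ ≤ S.ρ / 8 →
    JetLe (Metric.ball 0 (S.ρ / 2)) 4 C (S.den (S.E c v)) ∧
      ∀ u ∈ Metric.ball (0 : ℂ) (S.ρ / 2), 1 ≤ C * S.den (S.E c v) u := by
  have hρ := S.ρ_pos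
  set K : Set ((ℂ × ℂ) × ℂ) := (Metric.closedBall 0 (S.ρ / 8) ×ˢ Metric.sphere 0 1) ×ˢ
    Metric.closedBall 0 (S.ρ / 2) with hKdef
  have hK : IsCompact K := ((isCompact_closedBall _ _).prod (isCompact_sphere _ _)).prod
    (isCompact_closedBall _ _)
  have hKm : ∀ z ∈ K, ‖z.1.1‖ ≤ S.ρ / 8 ∧ ‖z.1.2‖ = 1 ∧ ‖z.2‖ ≤ S.ρ / 2 := by
    rintro z ⟨⟨h1, h2⟩, h3⟩
    exact ⟨mem_closedBall_zero_iff.1 h1, mem_sphere_zero_iff_norm.1 h2,
      mem_closedBall_zero_iff.1 h3⟩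
  have hF : ∀ z ∈ K, ContDiffAt ℝ ∞ (S.A5aF c) z := fun z hz =>
    S.A5a_smooth c (hKm z hz).1 (hKm z hz).2.1 (hKm z hz).2.2
  have hFpos : ∀ z ∈ K, 0 < S.A5aF c z := by
    intro z hz
    exact div_pos (S.P_pos _) (pow_pos (S.A5a_pos (by linarith [(hKm z hz).2.2])) 2)
  obtain ⟨C1, hC1⟩ := A5a.par hK 4 hF
  obtain ⟨C2, hC2⟩ := hK.exists_bound_of_continuousOn
    (fun z hz => ((hF z hz).continuousAt.inv₀ (hFpos z hz).ne').continuousWithinAt :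
      ContinuousOn (fun z => (S.A5aF c z)⁻¹) K)
  refine ⟨max C1 C2, fun v hv => ?_⟩
  obtain ⟨σ, hσ, he⟩ := S.A5a_eq (c := c) hv
  have hmem : ∀ u ∈ Metric.ball (0 : ℂ) (S.ρ / 2), ((v, σ), u) ∈ K := by
    intro u hu
    exact ⟨⟨mem_closedBall_zero_iff.2 hv, mem_sphere_zero_iff_norm.2 hσ⟩,
      Metric.ball_subset_closedBall hu⟩
  have he' : ∀ u ∈ Metric.ball (0 : ℂ) (S.ρ / 2), S.A5aF c ((v, σ), u) = S.den (S.E c v) u :=
    fun u hu => (he u (mem_ball_zero_iff.1 hu).le).symm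
  refine ⟨((hC1 (v, σ) _ Metric.isOpen_ball hmem).congr Metric.isOpen_ball he').mono
    (le_max_left _ _), fun u hu => ?_⟩
  have h1 := hFpos _ (hmem u hu)
  have h2 : ‖(S.A5aF c ((v, σ), u))⁻¹‖ ≤ C2 := hC2 _ (hmem u hu)
  rw [Real.norm_eq_abs, abs_of_pos (inv_pos.2 h1), inv_le_iff_one_le_mul₀ h1] at h2
  rw [← he' u hu]
  exact h2.trans (mul_le_mul_of_nonneg_right (le_max_right _ _) h1.le)

theorem den_bounds [CompactSpace X] : ∃ C : ℝ, 1 ≤ C ∧ ∀ c,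
    JetLe (Metric.ball 0 (S.ρ / 2)) 4 C (S.den c) ∧
      (∀ v ∈ Metric.ball (0 : ℂ) (S.ρ / 2), 1 ≤ C * S.den c v) ∧
      ContDiffOn ℝ ∞ (S.den c) (Metric.ball 0 S.ρ) := by
  have hρ := S.ρ_pos
  choose C hC using S.A5a_local
  obtain ⟨t, -, ht⟩ := isCompact_univ.elim_nhds_subcover
    (fun c : X => S.E c '' Metric.ball 0 (S.ρ / 8)) (fun c _ =>
      (S.isOpenMap c _ (Metric.ball_subset_ball (by linarith)) Metric.isOpen_ball).mem_nhds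
        ⟨0, Metric.mem_ball_self (by positivity), S.center c⟩)
  have hCs : ∀ i ∈ t, C i ≤ 1 + ∑ i ∈ t, |C i| := by
    intro i hi
    have h1 := Finset.single_le_sum (f := fun i => |C i|) (fun _ _ => abs_nonneg _) hi
    have h2 := le_abs_self (C i)
    linarith
  refine ⟨1 + ∑ i ∈ t, |C i|, ?_, fun c => ?_⟩
  · have h1 : 0 ≤ ∑ i ∈ t, |C i| := Finset.sum_nonneg fun _ _ => abs_nonneg _
    linarith
  · have h1 := ht (mem_univ c)
    simp only [mem_iUnion] at h1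
    obtain ⟨i, hi, v, hv, rfl⟩ := h1
    obtain ⟨h2, h3⟩ := hC i v (mem_ball_zero_iff.1 hv).le
    refine ⟨h2.mono (hCs i hi), fun u hu => ?_, ?_⟩
    · have h4 : 0 ≤ S.den (S.E i v) u :=
        (div_pos (S.P_pos _) (pow_pos (S.A5a_pos (by
          have := mem_ball_zero_iff.1 hu
          linarith)) 2)).le
      exact (h3 u hu).trans (mul_le_mul_of_nonneg_right (hCs i hi) h4)
    · intro u hu
      have hu' := mem_ball_zero_iff.1 hu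
      have s1 := S.P_smooth (S.E i v) u hu
      have s2 : ContDiffWithinAt ℝ ∞ (fun z : ℂ => (1 + S.κ * ‖z‖ ^ 2) ^ 2) (Metric.ball 0 S.ρ) u :=
        (contDiffWithinAt_const.add (contDiffWithinAt_const.mul
          (contDiffWithinAt_id.norm_sq ℝ))).pow 2
      exact s1.div s2 (pow_ne_zero 2 (S.A5a_pos hu'.le).ne')

end Surf

end Pool.Agent.YUS
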