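import Pool.Agent.YUS.PF

open MeasureTheory Set Filter Topology
open scoped ContDiff

namespace Pool.Agent.YUS

open Pool.Agent.YUD Pool.Agent.YUT Pool.Agent.YUB Pool.Agent.YUR Pool.Agent.YUL

namespace Surf

variable {X : Type} [TopologicalSpace X] (S : Surf X)

/-- one small step -/
private def A5b_near (r : ℝ) (x y : X) : Prop := ∃ v : ℂ, ‖v‖ < r ∧ y = S.E x v

/-- `n` small steps -/
private def A5b_R (r : ℝ) : ℕ → X → X → Prop
  | 0, x, y => x = y
  | n + 1, x, y => ∃ z, A5b_near S r x z ∧ A5b_R r n z y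

private theorem A5b_refl {r : ℝ} (hr : 0 < r) (x : X) : A5b_near S r x x :=
  ⟨0, by rwa [norm_zero], (S.center x).symm⟩

private theorem A5b_symm {r : ℝ} (hr' : r ≤ S.ρ) {x y : X} (h : A5b_near S r x y) :
    A5b_near S r y x := by
  obtain ⟨v, hv, rfl⟩ := h
  have hv' : ‖v‖ < S.ρ := hv.trans_le hr'
  obtain ⟨τ, hτ, h1⟩ := S.recenter x v hv'
  have h0 : mob S.κ v (-v) = 0 := by
    unfold mob
    rw [neg_add_cancel, zero_div]
  have h2 := h1 (-v) (by rwa [norm_neg]) (by rw [h0, norm_zero]; exact S.ρ_pos)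
  rw [h0, S.center] at h2
  exact ⟨τ * -v, by rw [norm_mul, hτ, one_mul, norm_neg]; exact hv, h2⟩

private theorem A5b_trans {r : ℝ} {n m : ℕ} {x y z : X} (h : A5b_R S r n x y)
    (h' : A5b_R S r m y z) : A5b_R S r (n + m) x z := by
  induction n generalizing x with
  | zero =>
    obtain rfl : x = y := h
    rwa [zero_add]
  | succ n ih =>
    obtain ⟨w, h1, h2⟩ := h
    rw [Nat.succ_add]
    exact ⟨w, h1, ih h2⟩

private theorem A5b_rev {r : ℝ} (hr' : r ≤ S.ρ) {n : ℕ} {x y : X} (h : A5b_R S r n x y) :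
    A5b_R S r n y x := by
  induction n generalizing x with
  | zero =>
    obtain rfl : x = y := h
    rfl
  | succ n ih =>
    obtain ⟨w, h1, h2⟩ := h
    exact A5b_trans S (ih h2) ⟨x, A5b_symm S hr' h1, rfl⟩

private theorem A5b_pad {r : ℝ} (hr : 0 < r) {n : ℕ} {x y : X} (h : A5b_R S r n x y) :
    A5b_R S r (n + 1) x y := ⟨x, A5b_refl S hr x, h⟩

private theorem A5b_mono {r : ℝ} (hr : 0 < r) {n m : ℕ} (hnm : n ≤ m) {x y : X}
    (h : A5b_R S r n x y) : A5b_R S r m x y := by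
  induction hnm with
  | refl => exact h
  | step _ ih => exact A5b_pad S hr ih

private theorem A5b_seq {r : ℝ} {n : ℕ} {x y : X} (h : A5b_R S r n x y) :
    ∃ c : ℕ → X, c 0 = x ∧ c n = y ∧ ∀ i < n, ∃ v : ℂ, ‖v‖ < r ∧ c (i + 1) = S.E (c i) v := by
  induction n generalizing x with
  | zero =>
    obtain rfl : x = y := h
    exact ⟨fun _ => x, rfl, rfl, fun i hi => absurd hi (Nat.not_lt_zero i)⟩
  | succ n ih =>
    obtain ⟨w, ⟨v, hv, hw⟩, h2⟩ := h
    obtain ⟨c, c0, cn, hc⟩ := ih h2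
    refine ⟨fun i => Nat.casesOn i x c, rfl, cn, fun i hi => ?_⟩
    rcases i with _ | i
    · exact ⟨v, hv, c0.trans hw⟩
    · exact hc i (Nat.lt_of_succ_lt_succ hi)

/-- the points reached from `x` in `n + 1` steps -/
private theorem A5b_open {r : ℝ} (hr' : r ≤ S.ρ) (x : X) (n : ℕ) :
    IsOpen {y | A5b_R S r (n + 1) x y} := by
  rw [isOpen_iff_mem_nhds]
  intro y hy
  have h1 : A5b_R S r (n + 1) y x := A5b_rev S hr' hy
  obtain ⟨z, h2, h3⟩ := h1
  obtain ⟨v, hv, hyz⟩ := A5b_symm S hr' h2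
  have h4 : IsOpen (S.E z '' Metric.ball 0 r) :=
    S.isOpenMap z _ (Metric.ball_subset_ball hr') Metric.isOpen_ball
  have h5 : y ∈ S.E z '' Metric.ball 0 r := ⟨v, by rwa [mem_ball_zero_iff], hyz.symm⟩
  refine Filter.mem_of_superset (h4.mem_nhds h5) ?_
  rintro w ⟨u, hu, rfl⟩
  rw [mem_ball_zero_iff] at hu
  exact A5b_trans S (A5b_rev S hr' h3) ⟨_, ⟨u, hu, rfl⟩, rfl⟩

private theorem A5b_all [ConnectedSpace X] {r : ℝ} (hr : 0 < r) (hr' : r ≤ S.ρ) (x y : X) :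
    ∃ n, A5b_R S r (n + 1) x y := by
  have hU : IsClopen {y | ∃ n, A5b_R S r (n + 1) x y} := by
    constructor
    · rw [← isOpen_compl_iff, isOpen_iff_mem_nhds]
      intro y hy
      have h4 : IsOpen (S.E y '' Metric.ball 0 r) :=
        S.isOpenMap y _ (Metric.ball_subset_ball hr') Metric.isOpen_ball
      have h5 : y ∈ S.E y '' Metric.ball 0 r := ⟨0, by simpa using hr, S.center y⟩
      refine Filter.mem_of_superset (h4.mem_nhds h5) ?_
      rintro w ⟨u, hu, rfl⟩ ⟨n, hn⟩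
      rw [mem_ball_zero_iff] at hu
      exact hy ⟨n + 1, A5b_trans S hn ⟨_, A5b_symm S hr' ⟨u, hu, rfl⟩, rfl⟩⟩
    · have h6 : {y | ∃ n, A5b_R S r (n + 1) x y} = ⋃ n, {y | A5b_R S r (n + 1) x y} := by
        ext y
        simp only [mem_iUnion]
        rfl
      rw [h6]
      exact isOpen_iUnion fun n => A5b_open S hr' x n
  have hne : ({y | ∃ n, A5b_R S r (n + 1) x y} : Set X).Nonempty :=
    ⟨x, 0, x, A5b_refl S hr x, rfl⟩
  have h7 := hU.eq_univ hne
  have h8 : y ∈ ({y | ∃ n, A5b_R S r (n + 1) x y} : Set X) := by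
    rw [h7]
    exact mem_univ y
  exact h8

/-- chains of small steps: `n` steps of length `< r` connect any two points -/
theorem chain [CompactSpace X] [ConnectedSpace X] {r : ℝ} (hr : 0 < r) (hr' : r ≤ S.ρ) :
    ∃ n : ℕ, ∀ x y : X, ∃ c : ℕ → X, c 0 = x ∧ c n = y ∧
      ∀ i < n, ∃ v : ℂ, ‖v‖ < r ∧ c (i + 1) = S.E (c i) v := by
  obtain ⟨x₀⟩ : Nonempty X := inferInstance
  obtain ⟨N, hN⟩ := isCompact_univ.elim_directed_cover
    (fun n : ℕ => {y | A5b_R S r (n + 1) x₀ y}) (fun n => A5b_open S hr' x₀ n)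
    (fun y _ => mem_iUnion.2 (A5b_all S hr hr' x₀ y))
    (directed_of_isDirected_le fun n m hnm y hy => A5b_mono S hr (Nat.succ_le_succ hnm) hy)
  refine ⟨(N + 1) + (N + 1), fun x y => ?_⟩
  have h1 : A5b_R S r (N + 1) x₀ x := hN (mem_univ x)
  have h2 : A5b_R S r (N + 1) x₀ y := hN (mem_univ y)
  exact A5b_seq S (A5b_trans S (A5b_rev S hr' h1) h2)

end Surf

end Pool.Agent.YUS
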