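import Pool.Agent.YUS.A3
import Pool.Agent.YUS.A1
import Pool.Agent.YUS.A2

/-!
# [YUS-A6] extension by zero of functions with support in a chart
-/

open MeasureTheory Set Filter Topology
open scoped ContDiff

namespace Pool.Agent.YUS

open Pool.Agent.YUD Pool.Agent.YUT Pool.Agent.YUB Pool.Agent.YUR Pool.Agent.YUL

/-- the denominator of the transition map -/
private noncomputable def A6_den (κ : ℝ) (σ v v' w : ℂ) : ℂ :=
  (1 + κ * (starRingEnd ℂ) v * w) - κ * (starRingEnd ℂ) v' * (σ * (w - v))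

/-- the derivative of the transition map -/
private noncomputable def A6_D (κ : ℝ) (σ v v' w : ℂ) : ℂ :=
  σ * (((1 + κ * ‖v'‖ ^ 2) * (1 + κ * ‖v‖ ^ 2) : ℝ) : ℂ) / A6_den κ σ v v' w ^ 2

private theorem A6_mul {κ ρ : ℝ} (hρ : |κ| * ρ ^ 2 ≤ 1 / 16) {v w : ℂ} {r : ℝ} (hr : 0 ≤ r)
    (hv : ‖v‖ ≤ ρ) (hw : ‖w‖ ≤ r * ρ) : ‖(κ : ℂ) * (starRingEnd ℂ) v * w‖ ≤ r / 16 := by
  rw [norm_mul, norm_mul, Complex.norm_real, RCLike.norm_conj, Real.norm_eq_abs]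
  have h0 : 0 ≤ ρ := (norm_nonneg v).trans hv
  have h1 : |κ| * ‖v‖ * ‖w‖ ≤ |κ| * ρ * (r * ρ) :=
    mul_le_mul (mul_le_mul_of_nonneg_left hv (abs_nonneg _)) hw (norm_nonneg _)
      (mul_nonneg (abs_nonneg _) h0)
  calc |κ| * ‖v‖ * ‖w‖ ≤ r * (|κ| * ρ ^ 2) := by linarith
    _ ≤ r * (1 / 16) := mul_le_mul_of_nonneg_left hρ hr
    _ = r / 16 := by ring

private theorem A6_sq {κ ρ : ℝ} (hρ : |κ| * ρ ^ 2 ≤ 1 / 16) {v : ℂ} (hv : ‖v‖ ≤ ρ) :
    |κ * ‖v‖ ^ 2| ≤ 1 / 16 := by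
  rw [abs_mul, abs_of_nonneg (sq_nonneg ‖v‖)]
  have h1 : ‖v‖ ^ 2 ≤ ρ ^ 2 := pow_le_pow_left₀ (norm_nonneg _) hv 2
  exact (mul_le_mul_of_nonneg_left h1 (abs_nonneg _)).trans hρ

section

variable {κ ρ : ℝ} (hρ : |κ| * ρ ^ 2 ≤ 1 / 16) {σ v v' : ℂ} (hσ : ‖σ‖ = 1) (hv : ‖v‖ ≤ ρ)
  (hv' : ‖v'‖ ≤ ρ)

include hρ hσ hv hv'

private theorem A6_den_sub {w : ℂ} (hw : ‖w‖ ≤ ρ) : ‖A6_den κ σ v v' w - 1‖ ≤ 3 / 16 := by
  have e : A6_den κ σ v v' w - 1 = κ * (starRingEnd ℂ) v * w -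
      κ * (starRingEnd ℂ) v' * (σ * (w - v)) := by
    unfold A6_den
    ring
  rw [e]
  refine (norm_sub_le _ _).trans ?_
  have h1 := A6_mul hρ zero_le_one hv (w := w) (by linarith)
  have h2 := A6_mul hρ zero_le_two hv' (w := σ * (w - v)) (by
    rw [norm_mul, hσ, one_mul]
    exact (norm_sub_le _ _).trans (by linarith))
  linarith

private theorem A6_den_lo {w : ℂ} (hw : ‖w‖ ≤ ρ) : 13 / 16 ≤ ‖A6_den κ σ v v' w‖ := by
  have h1 := A6_den_sub hρ hσ hv hv' hw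
  have h2 := norm_sub_norm_le (1 : ℂ) (A6_den κ σ v v' w)
  rw [norm_one, norm_sub_rev] at h2
  linarith

private theorem A6_den_hi {w : ℂ} (hw : ‖w‖ ≤ ρ) : ‖A6_den κ σ v v' w‖ ≤ 19 / 16 := by
  have h1 := A6_den_sub hρ hσ hv hv' hw
  have h2 := norm_sub_norm_le (A6_den κ σ v v' w) (1 : ℂ)
  rw [norm_one] at h2
  linarith

omit hρ in
private theorem A6_den_diff (w w' : ℂ) :
    ‖A6_den κ σ v v' w - A6_den κ σ v v' w'‖ ≤ 2 * |κ| * ρ * ‖w - w'‖ := by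
  have e : A6_den κ σ v v' w - A6_den κ σ v v' w' =
      κ * (((starRingEnd ℂ) v - (starRingEnd ℂ) v' * σ) * (w - w')) := by
    unfold A6_den
    ring
  rw [e, norm_mul, norm_mul, Complex.norm_real, Real.norm_eq_abs]
  have h1 : ‖(starRingEnd ℂ) v - (starRingEnd ℂ) v' * σ‖ ≤ 2 * ρ := by
    refine (norm_sub_le _ _).trans ?_
    rw [norm_mul, RCLike.norm_conj, RCLike.norm_conj, hσ, mul_one]
    linarith
  calc |κ| * (‖(starRingEnd ℂ) v - (starRingEnd ℂ) v' * σ‖ * ‖w - w'‖)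
      ≤ |κ| * (2 * ρ * ‖w - w'‖) := by
        refine mul_le_mul_of_nonneg_left ?_ (abs_nonneg _)
        exact mul_le_mul_of_nonneg_right h1 (norm_nonneg _)
    _ = 2 * |κ| * ρ * ‖w - w'‖ := by ring

private theorem A6_M : ‖σ * (((1 + κ * ‖v'‖ ^ 2) * (1 + κ * ‖v‖ ^ 2) : ℝ) : ℂ)‖ ≤ 289 / 256 := by
  rw [norm_mul, hσ, one_mul, Complex.norm_real, Real.norm_eq_abs, abs_mul]
  have k1 := abs_le.1 (A6_sq hρ hv)
  have k2 := abs_le.1 (A6_sq hρ hv')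
  have h1 : |1 + κ * ‖v'‖ ^ 2| ≤ 17 / 16 := abs_le.2 ⟨by linarith, by linarith⟩
  have h2 : |1 + κ * ‖v‖ ^ 2| ≤ 17 / 16 := abs_le.2 ⟨by linarith, by linarith⟩
  calc |1 + κ * ‖v'‖ ^ 2| * |1 + κ * ‖v‖ ^ 2| ≤ 17 / 16 * (17 / 16) :=
        mul_le_mul h1 h2 (abs_nonneg _) (by norm_num)
    _ = 289 / 256 := by norm_num

private theorem A6_D_le {w : ℂ} (hw : ‖w‖ ≤ ρ) : ‖A6_D κ σ v v' w‖ ≤ 2 := by
  unfold A6_D
  rw [norm_div, norm_pow]
  have h1 := A6_M hρ hσ hv hv'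
  have h2 := A6_den_lo hρ hσ hv hv' hw
  have h3 : (13 / 16 : ℝ) ^ 2 ≤ ‖A6_den κ σ v v' w‖ ^ 2 := pow_le_pow_left₀ (by norm_num) h2 2
  have h4 : 0 < ‖A6_den κ σ v v' w‖ ^ 2 := lt_of_lt_of_le (by norm_num) h3
  rw [div_le_iff₀ h4]
  norm_num at h3
  linarith

private theorem A6_D_diff {w w' : ℂ} (hw : ‖w‖ ≤ ρ) (hw' : ‖w'‖ ≤ ρ) :
    ‖A6_D κ σ v v' w - A6_D κ σ v v' w'‖ ≤ 20 * |κ| * ρ * ‖w - w'‖ := by
  have l1 := A6_den_lo hρ hσ hv hv' hw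
  have l2 := A6_den_lo hρ hσ hv hv' hw'
  have u1 := A6_den_hi hρ hσ hv hv' hw
  have u2 := A6_den_hi hρ hσ hv hv' hw'
  have hM := A6_M hρ hσ hv hv'
  have hd := A6_den_diff (κ := κ) hσ hv hv' w' w
  have hρ0 : 0 ≤ ρ := (norm_nonneg v).trans hv
  have n1 : A6_den κ σ v v' w ≠ 0 := by
    intro h
    rw [h, norm_zero] at l1
    norm_num at l1
  have n2 : A6_den κ σ v v' w' ≠ 0 := by
    intro h
    rw [h, norm_zero] at l2
    norm_num at l2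
  have e : A6_D κ σ v v' w - A6_D κ σ v v' w' =
      σ * (((1 + κ * ‖v'‖ ^ 2) * (1 + κ * ‖v‖ ^ 2) : ℝ) : ℂ) *
      ((A6_den κ σ v v' w' - A6_den κ σ v v' w) * (A6_den κ σ v v' w' + A6_den κ σ v v' w)) /
      (A6_den κ σ v v' w ^ 2 * A6_den κ σ v v' w' ^ 2) := by
    unfold A6_D
    field_simp
    ring
  rw [e, norm_div, norm_mul _ (_ * _), norm_mul (_ - _), norm_mul (_ ^ 2), norm_pow, norm_pow]
  have h3 : (13 / 16 : ℝ) ^ 2 ≤ ‖A6_den κ σ v v' w‖ ^ 2 := pow_le_pow_left₀ (by norm_num) l1 2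
  have h4 : (13 / 16 : ℝ) ^ 2 ≤ ‖A6_den κ σ v v' w'‖ ^ 2 := pow_le_pow_left₀ (by norm_num) l2 2
  have h5 : (13 / 16 : ℝ) ^ 2 * (13 / 16 : ℝ) ^ 2 ≤
      ‖A6_den κ σ v v' w‖ ^ 2 * ‖A6_den κ σ v v' w'‖ ^ 2 :=
    mul_le_mul h3 h4 (by norm_num) (by positivity)
  have h6 : ‖A6_den κ σ v v' w' + A6_den κ σ v v' w‖ ≤ 19 / 8 :=
    (norm_add_le _ _).trans (by linarith)
  rw [norm_sub_rev w' w] at hd
  have h7 : 0 ≤ |κ| * ρ * ‖w - w'‖ := mul_nonneg (mul_nonneg (abs_nonneg _) hρ0) (norm_nonneg _)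
  rw [div_le_iff₀ (lt_of_lt_of_le (by norm_num) h5)]
  calc ‖σ * (((1 + κ * ‖v'‖ ^ 2) * (1 + κ * ‖v‖ ^ 2) : ℝ) : ℂ)‖ *
        (‖A6_den κ σ v v' w' - A6_den κ σ v v' w‖ * ‖A6_den κ σ v v' w' + A6_den κ σ v v' w‖)
      ≤ 289 / 256 * ((2 * |κ| * ρ * ‖w - w'‖) * (19 / 8)) := by
        refine mul_le_mul hM (mul_le_mul hd h6 (norm_nonneg _) ?_) (by positivity) (by norm_num)
        linarith
    _ ≤ (20 * |κ| * ρ * ‖w - w'‖) * ((13 / 16 : ℝ) ^ 2 * (13 / 16 : ℝ) ^ 2) := by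
        nlinarith
    _ ≤ (20 * |κ| * ρ * ‖w - w'‖) *
        (‖A6_den κ σ v v' w‖ ^ 2 * ‖A6_den κ σ v v' w'‖ ^ 2) := by
        refine mul_le_mul_of_nonneg_left h5 ?_
        linarith

private theorem A6_hasDeriv {w : ℂ} (hw : ‖w‖ ≤ ρ) (hu : ‖mob κ (-v) w‖ ≤ ρ) :
    HasDerivAt (fun w => mob κ v' (σ * mob κ (-v) w)) (A6_D κ σ v v' w) w := by
  have hρ' : |κ| * ρ ^ 2 ≤ 1 / 4 := hρ.trans (by norm_num)
  have hv0 : ‖-v‖ ≤ ρ := by rwa [norm_neg]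
  have d1 := mob_hasDerivAt hρ' hv0 hw
  have hsu : ‖σ * mob κ (-v) w‖ ≤ ρ := by rwa [norm_mul, hσ, one_mul]
  have d2 := mob_hasDerivAt hρ' hv' hsu
  have d3 : HasDerivAt (mob κ v' ∘ fun w => σ * mob κ (-v) w) _ w :=
    HasDerivAt.comp w d2 (d1.const_mul σ)
  refine HasDerivAt.congr_deriv (f := fun w => mob κ v' (σ * mob κ (-v) w)) d3 ?_
  have n1 := mob_den_ne hρ' hv0 hw
  have n2 := mob_den_ne hρ' hv' hsu
  have n3 := A6_den_lo hρ hσ hv hv' hw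
  have m1 : (1 - κ * (starRingEnd ℂ) (-v) * w : ℂ) ≠ 0 := by
    intro h
    rw [h, norm_zero] at n1
    norm_num at n1
  have m2 : (1 - κ * (starRingEnd ℂ) v' * (σ * mob κ (-v) w) : ℂ) ≠ 0 := by
    intro h
    rw [h, norm_zero] at n2
    norm_num at n2
  have m3 : A6_den κ σ v v' w ≠ 0 := by
    intro h
    rw [h, norm_zero] at n3
    norm_num at n3
  have e1 : (1 - κ * (starRingEnd ℂ) (-v) * w : ℂ) = 1 + κ * (starRingEnd ℂ) v * w := by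
    rw [map_neg]
    ring
  have e2 : (1 - κ * (starRingEnd ℂ) v' * (σ * mob κ (-v) w)) *
      (1 - κ * (starRingEnd ℂ) (-v) * w) = A6_den κ σ v v' w := by
    have e3 : mob κ (-v) w * (1 - κ * (starRingEnd ℂ) (-v) * w) = w - v := by
      unfold mob
      rw [div_mul_cancel₀ _ m1, sub_eq_add_neg]
    unfold A6_den
    calc (1 - κ * (starRingEnd ℂ) v' * (σ * mob κ (-v) w)) *
        (1 - κ * (starRingEnd ℂ) (-v) * w) = (1 - κ * (starRingEnd ℂ) (-v) * w) -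
        κ * (starRingEnd ℂ) v' * (σ * (mob κ (-v) w * (1 - κ * (starRingEnd ℂ) (-v) * w))) := by
          ring
      _ = _ := by rw [e3, e1]
  unfold A6_D
  rw [← e2, norm_neg]
  push_cast
  field_simp

end

namespace Surf

variable {X : Type} [TopologicalSpace X] (S : Surf X)

open Classical in
/-- the extension by zero -/
private noncomputable def A6_ext (a : X) (g : ℂ → ℝ) (x : X) : ℝ :=
  if x ∈ S.E a '' Metric.ball 0 S.ρ then g (S.iv a x) else 0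

private theorem A6_ext_in (a : X) (g : ℂ → ℝ) {u : ℂ} (hu : ‖u‖ < S.ρ) :
    S.A6_ext a g (S.E a u) = g u := by
  unfold A6_ext
  rw [if_pos ⟨u, mem_ball_zero_iff.2 hu, rfl⟩, S.iv_E hu]

private theorem A6_ext_out (a : X) {g : ℂ → ℝ}
    (hg : ∀ v, v ∉ Metric.ball (0 : ℂ) (S.ρ / 4) → g v = 0) {x : X}
    (hx : x ∉ S.E a '' Metric.closedBall 0 (S.ρ / 4)) : S.A6_ext a g x = 0 := by
  by_cases h : x ∈ S.E a '' Metric.ball 0 S.ρ
  · obtain ⟨u, hu, rfl⟩ := h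
    rw [S.A6_ext_in a g (mem_ball_zero_iff.1 hu)]
    refine hg u fun h2 => hx ⟨u, Metric.ball_subset_closedBall h2, rfl⟩
  · unfold A6_ext
    rw [if_neg h]

private theorem A6_closed (a : X) : IsClosed (S.E a '' Metric.closedBall 0 (S.ρ / 4)) := by
  have := S.t2
  refine IsCompact.isClosed ?_
  refine (isCompact_closedBall (0 : ℂ) (S.ρ / 4)).image_of_continuousOn ((S.cont a).mono ?_)
  exact Metric.closedBall_subset_ball (by linarith [S.ρ_pos])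

/-- near a point outside of the support -/
private theorem A6_zero (a c : X) {g : ℂ → ℝ}
    (hg : ∀ v, v ∉ Metric.ball (0 : ℂ) (S.ρ / 4) → g v = 0) {v : ℂ} (hv : ‖v‖ < S.ρ)
    (hx : S.E c v ∉ S.E a '' Metric.closedBall 0 (S.ρ / 4)) :
    (fun w => S.A6_ext a g (S.E c w)) =ᶠ[𝓝 v] fun _ => 0 := by
  have hopen : IsOpen (Metric.ball (0 : ℂ) S.ρ ∩
      S.E c ⁻¹' (S.E a '' Metric.closedBall 0 (S.ρ / 4))ᶜ) :=
    (S.cont c).isOpen_inter_preimage Metric.isOpen_ball (S.A6_closed a).isOpen_compl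
  filter_upwards [hopen.mem_nhds ⟨mem_ball_zero_iff.2 hv, hx⟩] with w hw
  exact S.A6_ext_out a hg hw.2

/-- the local formula near a point of the support -/
private theorem A6_loc (a c : X) (g : ℂ → ℝ) {v : ℂ} (hv : ‖v‖ < S.ρ)
    (hx : S.E c v ∈ S.E a '' Metric.closedBall 0 (S.ρ / 4)) :
    ∃ T D : ℂ → ℂ, ∀ w ∈ Metric.ball (0 : ℂ) S.ρ ∩ Metric.ball v (S.ρ / 8),
      (fun z => S.A6_ext a g (S.E c z)) =ᶠ[𝓝 w] (fun z => g (T z)) ∧ HasDerivAt T (D w) w ∧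
        ‖D w‖ ≤ 2 ∧ ‖D w - D v‖ ≤ 20 * |S.κ| * S.ρ * ‖w - v‖ := by
  have hρ0 := S.ρ_pos
  have hρ' : |S.κ| * S.ρ ^ 2 ≤ 1 / 4 := S.κ_le.trans (by norm_num)
  obtain ⟨v', hv', hvv⟩ := hx
  rw [mem_closedBall_zero_iff] at hv'
  have hv'' : ‖v'‖ < S.ρ := by linarith
  obtain ⟨σ, hσ, hch⟩ := S.change hv hv'' hvv.symm
  have hmob : ∀ w ∈ Metric.ball (0 : ℂ) S.ρ ∩ Metric.ball v (S.ρ / 8),
      ‖w‖ < S.ρ ∧ ‖mob S.κ (-v) w‖ < S.ρ ∧ ‖mob S.κ v' (σ * mob S.κ (-v) w)‖ < S.ρ := by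
    rintro w ⟨hw, hwv⟩
    rw [mem_ball_zero_iff] at hw
    rw [Metric.mem_ball, dist_eq_norm] at hwv
    have n1 := mob_den_ne hρ' (v := -v) (w := w) (by rw [norm_neg]; exact hv.le) hw.le
    have h1 : ‖mob S.κ (-v) w‖ ≤ S.ρ / 6 := by
      unfold mob
      rw [norm_div, div_le_iff₀ (by linarith), ← sub_eq_add_neg]
      have h2 : S.ρ / 6 * (3 / 4) ≤ S.ρ / 6 * ‖1 - S.κ * (starRingEnd ℂ) (-v) * w‖ :=
        mul_le_mul_of_nonneg_left n1 (by linarith)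
      linarith
    have h3 : ‖σ * mob S.κ (-v) w‖ ≤ S.ρ / 6 := by rwa [norm_mul, hσ, one_mul]
    refine ⟨hw, by linarith, ?_⟩
    have n2 := mob_den_ne hρ' (v := v') (w := σ * mob S.κ (-v) w) hv''.le (by linarith)
    have h4 : ‖mob S.κ v' (σ * mob S.κ (-v) w)‖ ≤ (S.ρ / 6 + S.ρ / 4) * (4 / 3) := by
      rw [mob, norm_div, div_le_iff₀ (by linarith)]
      refine (norm_add_le _ _).trans ?_
      have h2 : (S.ρ / 6 + S.ρ / 4) * (4 / 3) * (3 / 4) ≤ (S.ρ / 6 + S.ρ / 4) * (4 / 3) *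
          ‖1 - S.κ * (starRingEnd ℂ) v' * (σ * mob S.κ (-v) w)‖ :=
        mul_le_mul_of_nonneg_left n2 (by linarith)
      linarith
    linarith
  refine ⟨fun w => mob S.κ v' (σ * mob S.κ (-v) w), A6_D S.κ σ v v', fun w hw => ?_⟩
  obtain ⟨h1, h2, h3⟩ := hmob w hw
  refine ⟨?_, A6_hasDeriv S.κ_le hσ hv.le hv''.le h1.le h2.le,
    A6_D_le S.κ_le hσ hv.le hv''.le h1.le, A6_D_diff S.κ_le hσ hv.le hv''.le h1.le hv.le⟩
  filter_upwards [(Metric.isOpen_ball.inter Metric.isOpen_ball).mem_nhds hw] with z hz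
  obtain ⟨k1, k2, k3⟩ := hmob z hz
  rw [hch z k1 k2 k3, S.A6_ext_in a g k3]

theorem norm_ext {α : ℝ} (hα : 0 < α) (hα1 : α < 1) : ∃ C : ℝ, 1 ≤ C ∧ ∀ (a : X) (g : ℂ → ℝ) (ε : ℝ),
    (∀ v, v ∉ Metric.ball (0 : ℂ) (S.ρ / 4) → g v = 0) → NormLe univ α ε g →
      S.Norm univ α (C * ε) (fun x => open Classical in
        if x ∈ S.E a '' Metric.ball 0 S.ρ then g (S.iv a x) else 0) := by
  have hρ0 := S.ρ_pos
  set r : ℝ := S.ρ / 8 with hr
  have hr0 : 0 < r := by positivity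
  set L : ℝ := 20 * |S.κ| * S.ρ with hL
  have hL0 : 0 ≤ L := by positivity
  have hrp : 0 < r ^ α := Real.rpow_pos_of_pos hr0 _
  have hrq : 0 < r ^ (1 - α) := Real.rpow_pos_of_pos hr0 _
  set B : ℝ := L * r ^ (1 - α) + 4 / r ^ α with hB
  have hB0 : 0 ≤ B := by positivity
  refine ⟨6 + B, by linarith, fun a g ε hg hgN => ?_⟩
  obtain ⟨hgd, ga, gb, gc, hga, hgb, hgc, hsum, hgA, hgB, hgC⟩ := hgN
  change S.Norm univ α ((6 + B) * ε) (S.A6_ext a g)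
  intro c
  have hD : S.D univ c = Metric.ball (0 : ℂ) S.ρ := by
    ext v
    simp [D]
  rw [hD]
  have hgdiff : ∀ z, DifferentiableAt ℝ g z := fun z =>
    (hgd z (mem_univ z)).differentiableAt univ_mem
  set F : ℂ → ℝ := fun v => S.A6_ext a g (S.E c v) with hF
  -- the gradient
  have hgrad : ∀ v ∈ Metric.ball (0 : ℂ) S.ρ, DifferentiableAt ℝ F v ∧ ‖fderiv ℝ F v‖ ≤ 2 * gb ∧
      |F v| ≤ ga := by
    intro v hv
    rw [mem_ball_zero_iff] at hv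
    by_cases hx : S.E c v ∈ S.E a '' Metric.closedBall 0 (S.ρ / 4)
    · obtain ⟨T, D', hT⟩ := S.A6_loc a c g hv hx
      obtain ⟨h1, h2, h3, -⟩ := hT v ⟨mem_ball_zero_iff.2 hv, Metric.mem_ball_self (by positivity)⟩
      have h4 : DifferentiableAt ℝ (fun z => g (T z)) v :=
        (hgdiff (T v)).comp v (h2.hasFDerivAt.restrictScalars ℝ).differentiableAt
      refine ⟨h4.congr_of_eventuallyEq h1, ?_, ?_⟩
      · rw [h1.fderiv_eq]
        refine ContinuousLinearMap.opNorm_le_bound _ (by positivity) fun u => ?_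
        rw [A3.fderiv_holo h2 (hgdiff (T v))]
        calc ‖fderiv ℝ g (T v) (u * D' v)‖ ≤ ‖fderiv ℝ g (T v)‖ * ‖u * D' v‖ :=
              ContinuousLinearMap.le_opNorm _ _
          _ ≤ gb * (‖u‖ * 2) := by
              rw [norm_mul]
              exact mul_le_mul (hgB _ (mem_univ _)) (mul_le_mul_of_nonneg_left h3 (norm_nonneg _))
                (by positivity) hgb
          _ = 2 * gb * ‖u‖ := by ring
      · have h5 : F v = g (T v) := h1.eq_of_nhds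
        rw [h5]
        exact hgA _ (mem_univ _)
    · have h1 := S.A6_zero a c hg hv hx
      refine ⟨(differentiableAt_const (0 : ℝ)).congr_of_eventuallyEq h1, ?_, ?_⟩
      · rw [h1.fderiv_eq, fderiv_fun_const]
        simp only [Pi.zero_apply, norm_zero]
        positivity
      · have h5 : F v = 0 := h1.eq_of_nhds
        rw [h5, abs_zero]
        exact hga
  -- Hoelder estimate near the support
  have hnear : ∀ v ∈ Metric.ball (0 : ℂ) S.ρ, ∀ w ∈ Metric.ball (0 : ℂ) S.ρ, ‖w - v‖ < r →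
      S.E c v ∈ S.E a '' Metric.closedBall 0 (S.ρ / 4) →
      ‖fderiv ℝ F w - fderiv ℝ F v‖ ≤ (4 * gc + B * gb) * ‖w - v‖ ^ α := by
    intro v hv w hw hwv hx
    have hv1 := mem_ball_zero_iff.1 hv
    obtain ⟨T, D', hT⟩ := S.A6_loc a c g hv1 hx
    have hmem : w ∈ Metric.ball (0 : ℂ) S.ρ ∩ Metric.ball v (S.ρ / 8) :=
      ⟨hw, by rw [Metric.mem_ball, dist_eq_norm]; exact hwv⟩
    have hmem0 : v ∈ Metric.ball (0 : ℂ) S.ρ ∩ Metric.ball v (S.ρ / 8) :=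
      ⟨hv, Metric.mem_ball_self (by positivity)⟩
    obtain ⟨h1, h2, h3, h4⟩ := hT w hmem
    obtain ⟨k1, k2, k3, -⟩ := hT v hmem0
    have hTT : ‖T w - T v‖ ≤ 2 * ‖w - v‖ := by
      refine ((convex_ball (0 : ℂ) S.ρ).inter
        (convex_ball v (S.ρ / 8))).norm_image_sub_le_of_norm_hasDerivWithin_le
        (f' := D') (fun z hz => (hT z hz).2.1.hasDerivWithinAt) (fun z hz => (hT z hz).2.2.1)
        hmem0 hmem
    rcases eq_or_ne w v with hwe | hwe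
    · rw [hwe, sub_self, sub_self, norm_zero, norm_zero, Real.zero_rpow hα.ne', mul_zero]
    have hd0 : 0 < ‖w - v‖ := norm_pos_iff.2 (sub_ne_zero.2 hwe)
    have hdp : 0 < ‖w - v‖ ^ α := Real.rpow_pos_of_pos hd0 _
    have hpow2 : ‖T w - T v‖ ^ α ≤ 2 * ‖w - v‖ ^ α := by
      calc ‖T w - T v‖ ^ α ≤ (2 * ‖w - v‖) ^ α := Real.rpow_le_rpow (norm_nonneg _) hTT hα.le
        _ = 2 ^ α * ‖w - v‖ ^ α := Real.mul_rpow (by norm_num) hd0.le
        _ ≤ 2 * ‖w - v‖ ^ α := by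
            refine mul_le_mul_of_nonneg_right ?_ hdp.le
            calc (2 : ℝ) ^ α ≤ 2 ^ (1 : ℝ) := Real.rpow_le_rpow_of_exponent_le (by norm_num) hα1.le
              _ = 2 := Real.rpow_one 2
    have hlin : ‖w - v‖ ≤ r ^ (1 - α) * ‖w - v‖ ^ α := by
      calc ‖w - v‖ = ‖w - v‖ ^ (1 - α) * ‖w - v‖ ^ α := by
            rw [← Real.rpow_add hd0]
            simp
        _ ≤ r ^ (1 - α) * ‖w - v‖ ^ α := by
            refine mul_le_mul_of_nonneg_right ?_ hdp.le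
            exact Real.rpow_le_rpow hd0.le hwv.le (by linarith)
    rw [h1.fderiv_eq, k1.fderiv_eq]
    refine ContinuousLinearMap.opNorm_le_bound _ (by positivity) fun u => ?_
    rw [_root_.sub_apply, A3.fderiv_holo h2 (hgdiff (T w)), A3.fderiv_holo k2 (hgdiff (T v))]
    have e : fderiv ℝ g (T w) (u * D' w) - fderiv ℝ g (T v) (u * D' v) =
        (fderiv ℝ g (T w) - fderiv ℝ g (T v)) (u * D' v) +
          fderiv ℝ g (T w) (u * (D' w - D' v)) := by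
      rw [_root_.sub_apply, mul_sub, map_sub]
      ring
    rw [e]
    refine (norm_add_le _ _).trans ?_
    have f1 : ‖(fderiv ℝ g (T w) - fderiv ℝ g (T v)) (u * D' v)‖ ≤
        4 * gc * ‖w - v‖ ^ α * ‖u‖ := by
      calc ‖(fderiv ℝ g (T w) - fderiv ℝ g (T v)) (u * D' v)‖
          ≤ ‖fderiv ℝ g (T w) - fderiv ℝ g (T v)‖ * ‖u * D' v‖ :=
            ContinuousLinearMap.le_opNorm _ _
        _ ≤ (gc * (2 * ‖w - v‖ ^ α)) * (‖u‖ * 2) := by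
            rw [norm_mul]
            refine mul_le_mul ?_ (mul_le_mul_of_nonneg_left k3 (norm_nonneg _)) (by positivity)
              (by positivity)
            exact (hgC _ (mem_univ _) _ (mem_univ _)).trans (mul_le_mul_of_nonneg_left hpow2 hgc)
        _ = 4 * gc * ‖w - v‖ ^ α * ‖u‖ := by ring
    have f2 : ‖fderiv ℝ g (T w) (u * (D' w - D' v))‖ ≤
        (L * r ^ (1 - α)) * gb * ‖w - v‖ ^ α * ‖u‖ := by
      calc ‖fderiv ℝ g (T w) (u * (D' w - D' v))‖ ≤ ‖fderiv ℝ g (T w)‖ * ‖u * (D' w - D' v)‖ :=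
            ContinuousLinearMap.le_opNorm _ _
        _ ≤ gb * (‖u‖ * (L * (r ^ (1 - α) * ‖w - v‖ ^ α))) := by
            rw [norm_mul]
            refine mul_le_mul (hgB _ (mem_univ _)) (mul_le_mul_of_nonneg_left ?_ (norm_nonneg _))
              (by positivity) hgb
            exact h4.trans (mul_le_mul_of_nonneg_left hlin hL0)
        _ = (L * r ^ (1 - α)) * gb * ‖w - v‖ ^ α * ‖u‖ := by ring
    have f3 : 0 ≤ 4 / r ^ α * gb * ‖w - v‖ ^ α * ‖u‖ := by positivity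
    have f4 : (4 * gc + B * gb) * ‖w - v‖ ^ α * ‖u‖ = 4 * gc * ‖w - v‖ ^ α * ‖u‖ +
        (L * r ^ (1 - α)) * gb * ‖w - v‖ ^ α * ‖u‖ + 4 / r ^ α * gb * ‖w - v‖ ^ α * ‖u‖ := by
      rw [hB]
      ring
    rw [f4]
    linarith
  refine ⟨fun v hv => (hgrad v hv).1.differentiableWithinAt, ga, 2 * gb, 4 * gc + B * gb, hga,
    by positivity, by positivity, ?_, fun v hv => (hgrad v hv).2.2, fun v hv => (hgrad v hv).2.1, ?_⟩
  · have hε : 0 ≤ ε := by linarith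
    nlinarith [mul_nonneg hB0 hga, mul_nonneg hB0 hgc, mul_nonneg hB0 hgb,
      mul_le_mul_of_nonneg_left hsum hB0]
  · intro v hv w hw
    by_cases hvw : ‖v - w‖ < r
    · by_cases hx : S.E c v ∈ S.E a '' Metric.closedBall 0 (S.ρ / 4)
      · rw [norm_sub_rev, norm_sub_rev v w]
        exact hnear v hv w hw (by rwa [norm_sub_rev]) hx
      · by_cases hy : S.E c w ∈ S.E a '' Metric.closedBall 0 (S.ρ / 4)
        · exact hnear w hw v hv hvw hy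
        · have h1 := (S.A6_zero a c hg (mem_ball_zero_iff.1 hv) hx).fderiv_eq (𝕜 := ℝ)
          have h2 := (S.A6_zero a c hg (mem_ball_zero_iff.1 hw) hy).fderiv_eq (𝕜 := ℝ)
          have h3 : fderiv ℝ F v = fderiv ℝ F w := by
            have h4 : fderiv ℝ F v = fderiv ℝ (fun _ : ℂ => (0 : ℝ)) v := h1
            have h5 : fderiv ℝ F w = fderiv ℝ (fun _ : ℂ => (0 : ℝ)) w := h2
            rw [h4, h5, fderiv_fun_const]
            rfl
          rw [h3, sub_self, norm_zero]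
          positivity
    · push Not at hvw
      have h1 := (hgrad v hv).2.1
      have h2 := (hgrad w hw).2.1
      have h3 : 1 ≤ ‖v - w‖ ^ α / r ^ α := by
        rw [le_div_iff₀ hrp, one_mul]
        exact Real.rpow_le_rpow hr0.le hvw hα.le
      have h4 : 0 ≤ ‖v - w‖ ^ α := Real.rpow_nonneg (norm_nonneg _) _
      calc ‖fderiv ℝ F v - fderiv ℝ F w‖ ≤ ‖fderiv ℝ F v‖ + ‖fderiv ℝ F w‖ := norm_sub_le _ _
        _ ≤ 4 * gb * 1 := by linarith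
        _ ≤ 4 * gb * (‖v - w‖ ^ α / r ^ α) := mul_le_mul_of_nonneg_left h3 (by positivity)
        _ = 4 / r ^ α * gb * ‖v - w‖ ^ α := by ring
        _ ≤ (4 * gc + B * gb) * ‖v - w‖ ^ α := by
            refine mul_le_mul_of_nonneg_right ?_ h4
            rw [hB]
            have h5 : 0 ≤ L * r ^ (1 - α) * gb := by positivity
            nlinarith

end Surf

end Pool.Agent.YUS
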