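import Pool.Agent.YUL.All

/-!
# [YUS] Closed surfaces, fluid domains, Euler flows on surfaces: definitions

A closed (compact, connected, oriented) Riemannian surface `X` is described by conformal charts
`E c : ball 0 ρ → X` centred at every point `c = E c 0`, whose transition maps are the isometries
`w ↦ τ (w + v)/(1 - κ v̄ w)` of the metric `|dw|²/(1 + κ|w|²)²` of constant curvature `4κ`, and by a positive
smooth weight `P`: the Riemannian metric is `P |dw|²/(1 + κ|w|²)²` in every chart. By the uniformization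
theorem every closed oriented Riemannian surface is of this form.
-/

open MeasureTheory Set Filter Topology
open scoped ContDiff

namespace Pool.Agent.YUS

open Pool.Agent.YUD Pool.Agent.YUT Pool.Agent.YUB Pool.Agent.YUR Pool.Agent.YUL

/-- the isometry `w ↦ (w + v)/(1 - κ v̄ w)` of the metric `|dw|²/(1 + κ|w|²)²`; it maps `0` to `v` -/
noncomputable def mob (κ : ℝ) (v w : ℂ) : ℂ := (w + v) / (1 - κ * (starRingEnd ℂ) v * w)

/-- A closed Riemannian surface (see the header). -/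
structure Surf (X : Type) [TopologicalSpace X] where
  κ : ℝ
  ρ : ℝ
  E : X → ℂ → X
  P : X → ℝ
  ρ_pos : 0 < ρ
  κ_le : |κ| * ρ ^ 2 ≤ 1 / 16
  center : ∀ c, E c 0 = c
  inj : ∀ c, InjOn (E c) (Metric.ball 0 ρ)
  cont : ∀ c, ContinuousOn (E c) (Metric.ball 0 ρ)
  isOpenMap : ∀ c, ∀ U ⊆ Metric.ball (0 : ℂ) ρ, IsOpen U → IsOpen (E c '' U)
  recenter : ∀ c v, ‖v‖ < ρ → ∃ τ : ℂ, ‖τ‖ = 1 ∧
    ∀ w, ‖w‖ < ρ → ‖mob κ v w‖ < ρ → E c (mob κ v w) = E (E c v) (τ * w)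
  P_pos : ∀ x, 0 < P x
  P_smooth : ∀ c, ContDiffOn ℝ ∞ (fun v => P (E c v)) (Metric.ball 0 ρ)

namespace Surf

variable {X : Type} [TopologicalSpace X] (S : Surf X)

/-- the inverse of the chart `E c` -/
noncomputable def iv (c x : X) : ℂ := Function.invFunOn (S.E c) (Metric.ball 0 S.ρ) x

/-- the part of the chart `E c` in `M` -/
def D (M : Set X) (c : X) : Set ℂ := {v | ‖v‖ < S.ρ ∧ S.E c v ∈ M}

/-- the density of the area in the chart `E c` -/
noncomputable def den (c : X) (v : ℂ) : ℝ := S.P (S.E c v) / (1 + S.κ * ‖v‖ ^ 2) ^ 2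

/-- the Laplace-Beltrami operator -/
noncomputable def lapS (f : X → ℝ) (x : X) : ℝ := lap (fun v => f (S.E x v)) 0 / S.P x

/-- the norm of `f` in `C^{1,α}(M)` is at most `K`: in every chart the norm is at most `K` -/
def Norm (M : Set X) (α K : ℝ) (f : X → ℝ) : Prop :=
  ∀ c, NormLe (S.D M c) α K (fun v => f (S.E c v))

/-- `(ψ, Φ)` is a global solution, in Lagrangian form, of the Euler equations in the open set `M` of
the surface with initial vorticity `w₀`: `Φ t : M → M` are area preserving bijections, `Φ 0 = id`, the velocity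
of `Φ` is `∇^⊥ ψ` (in the chart centred at the particle: `P⁻¹ (-ψ_y, ψ_x)`), `ψ = 0` on the boundary of `M`, and the vorticity
`Δψ` is transported by `Φ`. -/
structure Flow (M : Set X) (w₀ : X → ℝ) (ψ : ℝ → X → ℝ) (Φ : ℝ → X → X) : Prop where
  stream : ∀ T : ℝ, ∃ C : ℝ, ∀ t, 0 ≤ t → t ≤ T → ∀ c,
    ContDiffOn ℝ 2 (fun v => ψ t (S.E c v)) (S.D M c) ∧
      JetLe (S.D M c) 2 C (fun v => ψ t (S.E c v))
  zero : ∀ t, 0 ≤ t → ∀ ε > 0, ∃ K ⊆ M, IsCompact K ∧ ∀ x ∈ M, x ∉ K → |ψ t x| < ε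
  cont : ∀ c, ContinuousOn (fun z : ℝ × ℂ =>
    (ψ z.1 (S.E c z.2), fderiv ℝ (fun v => ψ z.1 (S.E c v)) z.2)) (Ici 0 ×ˢ S.D M c)
  Φ_cont : ContinuousOn (fun z : ℝ × X => Φ z.1 z.2) (Ici 0 ×ˢ M)
  c1 : ∀ c c', ContDiffOn ℝ 1 (fun z : ℝ × ℂ => S.iv c' (Φ z.1 (S.E c z.2)))
    {z | 0 ≤ z.1 ∧ z.2 ∈ S.D M c ∧ Φ z.1 (S.E c z.2) ∈ S.E c' '' Metric.ball 0 S.ρ}
  bij : ∀ t, 0 ≤ t → BijOn (Φ t) M M
  area : ∀ t, 0 ≤ t → ∀ x ∈ M,
    (fderiv ℝ (fun v => S.iv (Φ t x) (Φ t (S.E x v))) 0).det * S.P (Φ t x) = S.P x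
  start : ∀ x ∈ M, Φ 0 x = x
  ode : ∀ t, 0 ≤ t → ∀ x ∈ M, HasDerivWithinAt (fun s => S.iv (Φ t x) (Φ s x))
    ((S.P (Φ t x))⁻¹ • perp (fun v => ψ t (S.E (Φ t x) v)) 0) (Ici 0) t
  vort : ∀ t, 0 ≤ t → ∀ x ∈ M, S.lapS (ψ t) (Φ t x) = w₀ x

/-- the flow is `C²` in space -/
def FlowC2 (M : Set X) (Φ : ℝ → X → X) : Prop :=
  ∀ t, 0 ≤ t → ∀ c c', ContDiffOn ℝ 2 (fun v => S.iv c' (Φ t (S.E c v)))
    {v | v ∈ S.D M c ∧ Φ t (S.E c v) ∈ S.E c' '' Metric.ball 0 S.ρ}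

/-- the inverse of `lmap p q` -/
noncomputable def _root_.Pool.Agent.YUS.ginv (p q w : ℂ) : ℂ := (wed p q)⁻¹ • linv p q w

end Surf

/-- The fluid domains: the closed surface itself, or an open set whose complement has interior points
(for instance the interior of a compact surface with boundary, inside of a closed surface which contains it). -/
def Fluid {X : Type} [TopologicalSpace X] (M : Set X) : Prop :=
  IsOpen M ∧ M.Nonempty ∧ (M = univ ∨ (interior Mᶜ).Nonempty)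

end Pool.Agent.YUS
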