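import Pool.Agent.YUD.A1

/-!
# [YUS-E1] interior gradient estimate in the plane
-/

open MeasureTheory Set Filter Topology
open scoped ContDiff

namespace Pool.Agent.YUS.BE

open Pool.Agent.YUD

/-- second directional derivative, the square of the sign disappears -/
theorem second_neg (φ : ℂ → ℝ) (v y : ℂ) :
    fderiv ℝ (fun y' => fderiv ℝ φ y' (-v)) y (-v) = fderiv ℝ (fun y' => fderiv ℝ φ y' v) y v := by
  have h1 : (fun y' => fderiv ℝ φ y' (-v)) = fun y' => -(fderiv ℝ φ y' v) := by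
    ext y'
    rw [map_neg]
  rw [h1, fderiv_fun_neg]
  simp

theorem second_comp {U : Set ℂ} (hU : IsOpen U) {φ : ℂ → ℝ} (hφ : ContDiffOn ℝ 2 φ U)
    (A : ℂ →L[ℝ] ℂ) {c e z : ℂ} (hz : c + A z ∈ U) :
    fderiv ℝ (fun w => fderiv ℝ (fun w => φ (c + A w)) w e) z e =
      fderiv ℝ (fun y => fderiv ℝ φ y (A e)) (c + A z) (A e) := by
  have hT : ∀ w, HasFDerivAt (fun w => c + A w) A w := fun w => A.hasFDerivAt.const_add c
  have hcont : Continuous fun w => c + A w := by fun_prop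
  have hmem : (fun w => c + A w) ⁻¹' U ∈ 𝓝 z := (hU.preimage hcont).mem_nhds hz
  have h1 : (fun w => fderiv ℝ (fun w => φ (c + A w)) w e) =ᶠ[𝓝 z]
      fun w => fderiv ℝ φ (c + A w) (A e) := by
    filter_upwards [hmem] with w hw
    have hd : DifferentiableAt ℝ φ (c + A w) :=
      (hφ.contDiffAt (hU.mem_nhds hw)).differentiableAt (by norm_num)
    have h2 := (hd.hasFDerivAt.comp w (hT w)).fderiv
    have h3 : fderiv ℝ (fun w => φ (c + A w)) w = (fderiv ℝ φ (c + A w)).comp A := h2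
    rw [h3]
    rfl
  rw [h1.fderiv_eq]
  have hd1 : DifferentiableAt ℝ (fun y => fderiv ℝ φ y (A e)) (c + A z) := by
    have : ContDiffOn ℝ 1 (fderiv ℝ φ) U := hφ.fderiv_of_isOpen hU (by norm_num)
    exact ((this.contDiffAt (hU.mem_nhds hz)).differentiableAt one_ne_zero).clm_apply
      (differentiableAt_const _)
  have h4 := (hd1.hasFDerivAt.comp z (hT z)).fderiv
  have h5 : fderiv ℝ (fun w => fderiv ℝ φ (c + A w) (A e)) z =
      (fderiv ℝ (fun y => fderiv ℝ φ y (A e)) (c + A z)).comp A := h4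
  rw [h5]
  rfl

/-- the Laplacian is invariant under the symmetries of the square -/
theorem lap_affine {U : Set ℂ} (hU : IsOpen U) {φ : ℂ → ℝ} (hφ : ContDiffOn ℝ 2 φ U)
    (A : ℂ →L[ℝ] ℂ)
    (hA : (A 1 = 1 ∧ A Complex.I = -Complex.I) ∨ (A 1 = -Complex.I ∧ A Complex.I = 1)) {c z : ℂ}
    (hz : c + A z ∈ U) :
    lap (fun w => φ (c + A w)) z = lap φ (c + A z) := by
  have h1 := second_comp hU hφ A (c := c) (e := 1) hz
  have h2 := second_comp hU hφ A (c := c) (e := Complex.I) hz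
  change fderiv ℝ (fun w => fderiv ℝ (fun w => φ (c + A w)) w 1) z 1 +
    fderiv ℝ (fun w => fderiv ℝ (fun w => φ (c + A w)) w Complex.I) z Complex.I =
    fderiv ℝ (fun y => fderiv ℝ φ y 1) (c + A z) 1 +
      fderiv ℝ (fun y => fderiv ℝ φ y Complex.I) (c + A z) Complex.I
  rw [h1, h2]
  rcases hA with ⟨e1, e2⟩ | ⟨e1, e2⟩
  · rw [e1, e2, second_neg]
  · rw [e1, e2, second_neg, add_comm]

/-- a quadratic barrier -/
theorem quad_lap (a b c x₀ y₀ : ℝ) :
    ContDiff ℝ 2 (fun z : ℂ => a * (z.re - x₀) ^ 2 + b * (z.im - y₀) ^ 2 + c * (z.im - y₀)) ∧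
      ∀ z, lap (fun z : ℂ => a * (z.re - x₀) ^ 2 + b * (z.im - y₀) ^ 2 + c * (z.im - y₀)) z =
        2 * a + 2 * b := by
  have h1 : ContDiff ℝ 2 Complex.re := Complex.reCLM.contDiff
  have h2 : ContDiff ℝ 2 Complex.im := Complex.imCLM.contDiff
  refine ⟨by fun_prop, fun z => ?_⟩
  have hre : ∀ z, HasFDerivAt (fun z : ℂ => z.re - x₀) Complex.reCLM z := fun z =>
    Complex.reCLM.hasFDerivAt.sub_const x₀
  have him : ∀ z, HasFDerivAt (fun z : ℂ => z.im - y₀) Complex.imCLM z := fun z =>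
    Complex.imCLM.hasFDerivAt.sub_const y₀
  have hd : ∀ z : ℂ, HasFDerivAt
      (fun z : ℂ => a * (z.re - x₀) ^ 2 + b * (z.im - y₀) ^ 2 + c * (z.im - y₀))
      ((a * (2 * (z.re - x₀))) • Complex.reCLM + (b * (2 * (z.im - y₀))) • Complex.imCLM
        + c • Complex.imCLM) z := by
    intro z
    have h3 := ((((hre z).pow 2).const_mul a).fun_add (((him z).pow 2).const_mul b)).fun_add
      ((him z).const_mul c)
    refine h3.congr_fderiv ?_
    ext w
    simp
    ring
  have e1 : dx (fun z : ℂ => a * (z.re - x₀) ^ 2 + b * (z.im - y₀) ^ 2 + c * (z.im - y₀)) =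
      fun z => (2 * a) * (z.re - x₀) := by
    ext z; rw [dx, (hd z).fderiv]; simp; ring
  have e2 : dy (fun z : ℂ => a * (z.re - x₀) ^ 2 + b * (z.im - y₀) ^ 2 + c * (z.im - y₀)) =
      fun z => (2 * b) * (z.im - y₀) + c := by
    ext z; rw [dy, (hd z).fderiv]; simp; ring
  unfold lap
  rw [e1, e2]
  unfold dx dy
  rw [((hre z).const_mul (2 * a)).fderiv, (((him z).const_mul (2 * b)).add_const c).fderiv]
  simp

/-- the one-sided estimate with an extra `e` -/
theorem grad_one {φ : ℂ → ℝ} {v : ℂ} {d S K e : ℝ} (hd : 0 < d) (he : 0 < e)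
    (hφ : ContDiffOn ℝ 2 φ (Metric.ball v (2 * d)))
    (hS : ∀ z ∈ Metric.ball v (2 * d), |φ z| ≤ S) (hK : ∀ z ∈ Metric.ball v (2 * d), |lap φ z| ≤ K) :
    fderiv ℝ φ v Complex.I ≤ 2 * S / d + (K + e) * d / 2 := by
  have hv : v ∈ Metric.ball v (2 * d) := Metric.mem_ball_self (by positivity)
  have hS0 : 0 ≤ S := (abs_nonneg _).trans (hS v hv)
  have hK0 : 0 ≤ K := (abs_nonneg _).trans (hK v hv)
  -- the reflection
  set A : ℂ →L[ℝ] ℂ := (Complex.conjCLE : ℂ →L[ℝ] ℂ) with hA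
  set c : ℂ := v - (starRingEnd ℂ) v with hc
  have hAz : ∀ z, A z = (starRingEnd ℂ) z := fun z => rfl
  have hT : ∀ z, c + A z - v = (starRingEnd ℂ) (z - v) := by
    intro z
    rw [hAz, hc, map_sub]
    ring
  have hTn : ∀ z, ‖c + A z - v‖ = ‖z - v‖ := by
    intro z
    rw [hT, Complex.norm_conj]
  have hTm : ∀ z, z ∈ Metric.ball v (2 * d) → c + A z ∈ Metric.ball v (2 * d) := by
    intro z hz
    rw [mem_ball_iff_norm] at hz ⊢
    rw [hTn]
    exact hz
  have hAp : (A 1 = 1 ∧ A Complex.I = -Complex.I) ∨ (A 1 = -Complex.I ∧ A Complex.I = 1) := by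
    left
    refine ⟨?_, ?_⟩
    · rw [hAz, map_one]
    · rw [hAz, Complex.conj_I]
  -- the barrier
  set b : ℂ → ℝ := fun z : ℂ => (S / d ^ 2) * (z.re - v.re) ^ 2 +
    (-(S / d ^ 2) - (K + e) / 2) * (z.im - v.im) ^ 2 +
    (2 * S / d + (K + e) * d / 2) * (z.im - v.im) with hb
  obtain ⟨hb2, hbl⟩ := quad_lap (S / d ^ 2) (-(S / d ^ 2) - (K + e) / 2)
    (2 * S / d + (K + e) * d / 2) v.re v.im
  have hball : IsOpen (Metric.ball v (2 * d)) := Metric.isOpen_ball
  have hφT : ContDiffOn ℝ 2 (fun z => φ (c + A z)) (Metric.ball v (2 * d)) := by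
    refine hφ.comp (t := Metric.ball v (2 * d)) ?_ hTm
    exact (contDiff_const.add A.contDiff).contDiffOn
  set G : ℂ → ℝ := fun z => (1 / 2) * (φ z - φ (c + A z)) - b z with hG
  have hGc : ContDiffOn ℝ 2 G (Metric.ball v (2 * d)) :=
    (contDiffOn_const.mul (hφ.sub hφT)).sub hb2.contDiffOn
  have hlapG : ∀ z ∈ Metric.ball v (2 * d), e ≤ lap G z := by
    intro z hz
    have h1 : lap G z = (1 / 2) * (lap φ z - lap φ (c + A z)) - lap b z := by
      rw [hG, lap_sub hball (contDiffOn_const.mul (hφ.sub hφT)) hb2.contDiffOn hz,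
        lap_const_mul hball (1 / 2) (hφ.sub hφT) hz, lap_sub hball hφ hφT hz,
        lap_affine hball hφ A hAp (hTm z hz)]
    have h2 := abs_le.1 (hK z hz)
    have h3 := abs_le.1 (hK _ (hTm z hz))
    have h4 : lap b z = -(K + e) := by
      rw [hb, hbl]
      ring
    rw [h1, h4]
    linarith [h2.1, h3.2]
  -- the half square
  set Q : Set ℂ := (Set.Icc (v.re - d) (v.re + d)) ×ℂ (Set.Icc v.im (v.im + d)) with hQ
  have hQc : IsCompact Q := IsCompact.reProdIm isCompact_Icc isCompact_Icc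
  have hQm : ∀ z, z ∈ Q ↔ (v.re - d ≤ z.re ∧ z.re ≤ v.re + d) ∧ (v.im ≤ z.im ∧ z.im ≤ v.im + d) := by
    intro z
    rw [hQ, Complex.mem_reProdIm, mem_Icc, mem_Icc]
  have hnorm : ∀ z : ℂ, ‖z - v‖ ^ 2 = (z.re - v.re) ^ 2 + (z.im - v.im) ^ 2 := by
    intro z
    rw [← Complex.normSq_eq_norm_sq, Complex.normSq_apply, Complex.sub_re, Complex.sub_im]
    ring
  have hQb : Q ⊆ Metric.ball v (2 * d) := by
    intro z hz
    rw [hQm] at hz
    obtain ⟨⟨h1, h2⟩, h3, h4⟩ := hz
    rw [mem_ball_iff_norm]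
    have h5 : ‖z - v‖ ^ 2 ≤ 2 * d ^ 2 := by
      rw [hnorm]
      nlinarith
    by_contra hcon
    push Not at hcon
    have h6 : (2 * d) ^ 2 ≤ ‖z - v‖ ^ 2 := pow_le_pow_left₀ (by positivity) hcon 2
    nlinarith [sq_nonneg d, mul_pos hd hd]
  have hmain : ∀ z ∈ Q, G z ≤ 0 := by
    by_contra hcon
    push Not at hcon
    obtain ⟨z0, hz0, hpos⟩ := hcon
    obtain ⟨z1, hz1, hmax⟩ := hQc.exists_isMaxOn ⟨z0, hz0⟩ (hGc.continuousOn.mono hQb)
    have hpos1 : 0 < G z1 := lt_of_lt_of_le hpos (hmax hz0)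
    have hz1' := (hQm z1).1 hz1
    obtain ⟨⟨h1, h2⟩, h3, h4⟩ := hz1'
    have ha1 := abs_le.1 (hS z1 (hQb hz1))
    have ha2 := abs_le.1 (hS _ (hTm z1 (hQb hz1)))
    have hgS : (1 / 2) * (φ z1 - φ (c + A z1)) ≤ S := by linarith [ha1.2, ha2.1]
    obtain ⟨X, hX⟩ : ∃ X : ℝ, X = z1.re - v.re := ⟨_, rfl⟩
    obtain ⟨Y, hY⟩ : ∃ Y : ℝ, Y = z1.im - v.im := ⟨_, rfl⟩
    have hbz : b z1 = S / d ^ 2 * (X ^ 2 + Y * (2 * d - Y)) + (K + e) / 2 * (Y * (d - Y)) := by
      rw [hb, hX, hY]
      field_simp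
      ring
    have hY0 : 0 ≤ Y := by rw [hY]; linarith
    have hYd : Y ≤ d := by rw [hY]; linarith
    have hXl : -d ≤ X := by rw [hX]; linarith
    have hXr : X ≤ d := by rw [hX]; linarith
    have hSd : 0 ≤ S / d ^ 2 := by positivity
    have hKe : 0 ≤ (K + e) / 2 * (Y * (d - Y)) :=
      mul_nonneg (by linarith) (mul_nonneg hY0 (by linarith))
    -- the boundary
    have hb_large : ∀ t : ℝ, d ^ 2 ≤ t → S ≤ S / d ^ 2 * t := by
      intro t ht
      have h7 : S = S / d ^ 2 * d ^ 2 := by field_simp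
      calc S = S / d ^ 2 * d ^ 2 := h7
        _ ≤ S / d ^ 2 * t := mul_le_mul_of_nonneg_left ht hSd
    have hXne : X ≠ d ∧ X ≠ -d := by
      constructor
      · intro h5
        have h6 : S ≤ b z1 := by
          rw [hbz, h5]
          have := hb_large (d ^ 2 + Y * (2 * d - Y)) (by nlinarith)
          linarith
        have : G z1 ≤ 0 := by
          change (1 / 2) * (φ z1 - φ (c + A z1)) - b z1 ≤ 0
          linarith
        linarith
      · intro h5
        have h6 : S ≤ b z1 := by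
          rw [hbz, h5]
          have := hb_large ((-d) ^ 2 + Y * (2 * d - Y)) (by nlinarith)
          linarith
        have : G z1 ≤ 0 := by
          change (1 / 2) * (φ z1 - φ (c + A z1)) - b z1 ≤ 0
          linarith
        linarith
    have hYne : Y ≠ 0 ∧ Y ≠ d := by
      constructor
      · intro h5
        have h6 : c + A z1 = z1 := by
          apply Complex.ext
          · have := congrArg Complex.re (hT z1)
            rw [Complex.sub_re, Complex.conj_re, Complex.sub_re] at this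
            linarith
          · have := congrArg Complex.im (hT z1)
            rw [Complex.sub_im, Complex.conj_im, Complex.sub_im] at this
            linarith
        have : G z1 ≤ 0 := by
          change (1 / 2) * (φ z1 - φ (c + A z1)) - b z1 ≤ 0
          rw [h6, hbz, h5]
          have h7 : 0 ≤ S / d ^ 2 * X ^ 2 := mul_nonneg hSd (sq_nonneg _)
          nlinarith
        linarith
      · intro h5
        have h6 : S ≤ b z1 := by
          rw [hbz, h5]
          have := hb_large (X ^ 2 + d * (2 * d - d)) (by nlinarith [sq_nonneg X])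
          nlinarith
        have : G z1 ≤ 0 := by
          change (1 / 2) * (φ z1 - φ (c + A z1)) - b z1 ≤ 0
          linarith
        linarith
    have hX1 : X < d := lt_of_le_of_ne hXr hXne.1
    have hX2 : -d < X := lt_of_le_of_ne hXl (fun h => hXne.2 h.symm)
    have hY1 : 0 < Y := lt_of_le_of_ne hY0 (fun h => hYne.1 h.symm)
    have hY2 : Y < d := lt_of_le_of_ne hYd hYne.2
    have hQn : Q ∈ 𝓝 z1 := by
      have h7 : (Set.Ioo (v.re - d) (v.re + d)) ×ℂ (Set.Ioo v.im (v.im + d)) ∈ 𝓝 z1 := by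
        refine (IsOpen.reProdIm isOpen_Ioo isOpen_Ioo).mem_nhds ?_
        rw [Complex.mem_reProdIm, mem_Ioo, mem_Ioo]
        rw [hX] at hX1 hX2
        rw [hY] at hY1 hY2
        refine ⟨⟨by linarith, by linarith⟩, by linarith, by linarith⟩
      refine mem_of_superset h7 ?_
      intro z hz
      rw [Complex.mem_reProdIm, mem_Ioo, mem_Ioo] at hz
      rw [hQm]
      exact ⟨⟨hz.1.1.le, hz.1.2.le⟩, hz.2.1.le, hz.2.2.le⟩
    have hloc : IsLocalMax G z1 := by
      filter_upwards [hQn] with z hz using hmax hz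
    have h8 := lap_nonpos_of_isLocalMax hball hGc (hQb hz1) hloc
    have h9 := hlapG z1 (hQb hz1)
    linarith
  -- the derivative
  have hdφ : HasFDerivAt φ (fderiv ℝ φ v) v :=
    ((hφ.contDiffAt (hball.mem_nhds hv)).differentiableAt (by norm_num)).hasFDerivAt
  have hl1 : HasDerivAt (fun t : ℝ => v + t * Complex.I) Complex.I 0 := by
    have h1 : HasDerivAt (fun t : ℝ => (t : ℂ)) 1 0 := Complex.ofRealCLM.hasDerivAt
    simpa using (h1.mul_const Complex.I).const_add v
  have hl2 : HasDerivAt (fun t : ℝ => v - t * Complex.I) (-Complex.I) 0 := by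
    have h1 : HasDerivAt (fun t : ℝ => (t : ℂ)) 1 0 := Complex.ofRealCLM.hasDerivAt
    simpa using (h1.mul_const Complex.I).const_sub v
  have hd1 : HasDerivAt (fun t : ℝ => φ (v + t * Complex.I)) (fderiv ℝ φ v Complex.I) 0 := by
    have hdφ' : HasFDerivAt φ (fderiv ℝ φ v) (v + ((0 : ℝ) : ℂ) * Complex.I) := by simpa using hdφ
    exact hdφ'.comp_hasDerivAt (0 : ℝ) hl1
  have hd2 : HasDerivAt (fun t : ℝ => φ (v - t * Complex.I)) (fderiv ℝ φ v (-Complex.I)) 0 := by
    have hdφ' : HasFDerivAt φ (fderiv ℝ φ v) (v - ((0 : ℝ) : ℂ) * Complex.I) := by simpa using hdφ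
    exact hdφ'.comp_hasDerivAt (0 : ℝ) hl2
  have hd3 : HasDerivAt (fun t : ℝ => (1 / 2) * (φ (v + t * Complex.I) - φ (v - t * Complex.I)))
      (fderiv ℝ φ v Complex.I) 0 := by
    have := (hd1.sub hd2).const_mul (1 / 2 : ℝ)
    refine this.congr_deriv ?_
    rw [map_neg]
    ring
  by_contra hcon
  push Not at hcon
  set B := 2 * S / d + (K + e) * d / 2 with hB
  have hd4 : HasDerivAt (fun t : ℝ => (1 / 2) * (φ (v + t * Complex.I) - φ (v - t * Complex.I))
      - B * t) (fderiv ℝ φ v Complex.I - B) 0 := by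
    have h1 : HasDerivAt (fun t : ℝ => B * t) B 0 := by
      simpa using (hasDerivAt_id (0 : ℝ)).const_mul B
    exact hd3.fun_sub h1
  have hpos : 0 < fderiv ℝ φ v Complex.I - B := by linarith
  have hev := hd4.tendsto_slope
  have hev2 := hev.eventually (lt_mem_nhds hpos)
  have hev3 : ∀ᶠ t in 𝓝[>] (0 : ℝ), 0 < slope (fun t : ℝ =>
      (1 / 2) * (φ (v + t * Complex.I) - φ (v - t * Complex.I)) - B * t) 0 t :=
    hev2.filter_mono (nhdsWithin_mono _ (fun t ht => ne_of_gt ht))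
  have hev4 : ∀ᶠ t in 𝓝[>] (0 : ℝ), t < d :=
    (eventually_lt_nhds hd).filter_mono nhdsWithin_le_nhds
  obtain ⟨t, ⟨ht1, ht2⟩, ht3⟩ := ((hev3.and hev4).and self_mem_nhdsWithin).exists
  have ht3' : 0 < t := ht3
  rw [slope_def_field] at ht1
  have hre : (v + t * Complex.I).re = v.re := by simp
  have him : (v + t * Complex.I).im = v.im + t := by simp
  have h10 : v + t * Complex.I ∈ Q := by
    rw [hQm, hre, him]
    refine ⟨⟨by linarith, by linarith⟩, by linarith, by linarith⟩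
  have h11 := hmain _ h10
  have h12 : c + A (v + t * Complex.I) = v - t * Complex.I := by
    have := hT (v + t * Complex.I)
    rw [add_sub_cancel_left, map_mul, Complex.conj_ofReal, Complex.conj_I] at this
    linear_combination this
  have h13 : b (v + t * Complex.I) ≤ B * t := by
    rw [hb]
    simp only [hre, him]
    have h14 : 0 ≤ S / d ^ 2 + (K + e) / 2 := by positivity
    have h15 : v.re - v.re = 0 := by ring
    have h16 : v.im + t - v.im = t := by ring
    rw [h15, h16]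
    nlinarith [mul_nonneg h14 (sq_nonneg t)]
  have h17 : (1 / 2) * (φ (v + t * Complex.I) - φ (v - t * Complex.I)) - B * t ≤ 0 := by
    have h18 : G (v + t * Complex.I) = (1 / 2) * (φ (v + t * Complex.I) - φ (v - t * Complex.I))
        - b (v + t * Complex.I) := by
      rw [hG]
      simp only
      rw [h12]
    rw [h18] at h11
    linarith
  have h19 : ((1 / 2) * (φ (v + (t : ℂ) * Complex.I) - φ (v - (t : ℂ) * Complex.I)) - B * t -
      ((1 / 2) * (φ (v + ((0 : ℝ) : ℂ) * Complex.I) - φ (v - ((0 : ℝ) : ℂ) * Complex.I)) - B * 0))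
        / (t - 0) ≤ 0 := by
    have h20 : (1 / 2) * (φ (v + ((0 : ℝ) : ℂ) * Complex.I) - φ (v - ((0 : ℝ) : ℂ) * Complex.I))
        - B * 0 = 0 := by
      simp
    rw [h20, sub_zero, sub_zero]
    exact div_nonpos_of_nonpos_of_nonneg h17 ht3'.le
  linarith

theorem grad_y {φ : ℂ → ℝ} {v : ℂ} {r S K : ℝ} (hr : 0 < r)
    (hφ : ContDiffOn ℝ 2 φ (Metric.ball v r))
    (hS : ∀ z ∈ Metric.ball v r, |φ z| ≤ S) (hK : ∀ z ∈ Metric.ball v r, |lap φ z| ≤ K) :
    |fderiv ℝ φ v Complex.I| ≤ 4 * S / r + K * r / 4 := by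
  have h2 : r = 2 * (r / 2) := by ring
  rw [h2] at hφ hS hK
  have hball : IsOpen (Metric.ball v (2 * (r / 2))) := Metric.isOpen_ball
  have hv : v ∈ Metric.ball v (2 * (r / 2)) := Metric.mem_ball_self (by positivity)
  have e1 : ∀ e : ℝ, 2 * S / (r / 2) + (K + e) * (r / 2) / 2 =
      4 * S / r + K * r / 4 + e * (r / 4) := by
    intro e
    field_simp
    ring
  rw [abs_le]
  constructor
  · have h3 : ∀ e > 0, -(fderiv ℝ φ v Complex.I) ≤ 4 * S / r + K * r / 4 + e * (r / 4) := by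
      intro e he
      have h4 := grad_one (φ := fun z => -φ z) (v := v) (d := r / 2) (S := S) (K := K) (e := e)
        (by positivity) he hφ.neg (fun z hz => by rw [abs_neg]; exact hS z hz)
        (fun z hz => by rw [lap_neg hball hφ hz, abs_neg]; exact hK z hz)
      rw [e1, fderiv_fun_neg] at h4
      simpa using h4
    have h5 : -(fderiv ℝ φ v Complex.I) ≤ 4 * S / r + K * r / 4 := by
      refine le_of_forall_pos_le_add fun ε hε => ?_
      have h6 := h3 (ε / (r / 4)) (by positivity)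
      rwa [div_mul_cancel₀ _ (by positivity)] at h6
    linarith
  · refine le_of_forall_pos_le_add fun ε hε => ?_
    have h4 := grad_one (φ := φ) (v := v) (d := r / 2) (S := S) (K := K) (e := ε / (r / 4))
      (by positivity) (by positivity) hφ hS hK
    rw [e1, div_mul_cancel₀ _ (by positivity)] at h4
    exact h4

/-- [E1] the interior gradient estimate -/
theorem grad_le {φ : ℂ → ℝ} {v : ℂ} {r S K : ℝ} (hr : 0 < r)
    (hφ : ContDiffOn ℝ 2 φ (Metric.ball v r))
    (hS : ∀ z ∈ Metric.ball v r, |φ z| ≤ S) (hK : ∀ z ∈ Metric.ball v r, |lap φ z| ≤ K) :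
    ‖fderiv ℝ φ v‖ ≤ 8 * (S / r + K * r) := by
  have hball : IsOpen (Metric.ball v r) := Metric.isOpen_ball
  have hv : v ∈ Metric.ball v r := Metric.mem_ball_self hr
  have hS0 : 0 ≤ S := (abs_nonneg _).trans (hS v hv)
  have hK0 : 0 ≤ K := (abs_nonneg _).trans (hK v hv)
  have h1 := grad_y hr hφ hS hK
  -- the rotation
  set A : ℂ →L[ℝ] ℂ := (ContinuousLinearMap.mul ℝ ℂ (-Complex.I)) with hA
  have hAz : ∀ z, A z = -Complex.I * z := fun z => rfl
  set c : ℂ := v - A v with hc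
  have hT : ∀ z, c + A z - v = -Complex.I * (z - v) := by
    intro z
    rw [hc, hAz, hAz]
    ring
  have hTm : ∀ z, z ∈ Metric.ball v r → c + A z ∈ Metric.ball v r := by
    intro z hz
    rw [mem_ball_iff_norm] at hz ⊢
    rw [hT, norm_mul, norm_neg, Complex.norm_I, one_mul]
    exact hz
  have hAp : (A 1 = 1 ∧ A Complex.I = -Complex.I) ∨ (A 1 = -Complex.I ∧ A Complex.I = 1) := by
    right
    refine ⟨?_, ?_⟩
    · rw [hAz, mul_one]
    · rw [hAz, neg_mul, Complex.I_mul_I, neg_neg]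
  have hφT : ContDiffOn ℝ 2 (fun z => φ (c + A z)) (Metric.ball v r) := by
    refine hφ.comp (t := Metric.ball v r) ?_ hTm
    exact (contDiff_const.add A.contDiff).contDiffOn
  have h2 := grad_y hr hφT (fun z hz => hS _ (hTm z hz))
    (fun z hz => by rw [lap_affine hball hφ A hAp (hTm z hz)]; exact hK _ (hTm z hz))
  have hcv : c + A v = v := by rw [hc]; ring
  have h3 : fderiv ℝ (fun z => φ (c + A z)) v Complex.I = fderiv ℝ φ v 1 := by
    have hdφ : HasFDerivAt φ (fderiv ℝ φ v) (c + A v) := by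
      rw [hcv]
      exact ((hφ.contDiffAt (hball.mem_nhds hv)).differentiableAt (by norm_num)).hasFDerivAt
    have hTd : HasFDerivAt (fun w => c + A w) A v := A.hasFDerivAt.const_add c
    have h4 : HasFDerivAt (fun z => φ (c + A z)) ((fderiv ℝ φ v).comp A) v := hdφ.comp v hTd
    rw [h4.fderiv, ContinuousLinearMap.comp_apply, hAz, neg_mul, Complex.I_mul_I, neg_neg]
  rw [h3] at h2
  have h5 := norm_fderiv_le φ v
  have h6 : |dx φ v| = |fderiv ℝ φ v 1| := rfl
  have h7 : |dy φ v| = |fderiv ℝ φ v Complex.I| := rfl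
  rw [h6, h7] at h5
  have h8 : 0 ≤ K * r := by positivity
  have h9 : 4 * S / r = 4 * (S / r) := by ring
  rw [h9] at h1 h2
  linarith

end Pool.Agent.YUS.BE
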