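import Pool.Agent.YUS.E1

/-!
# [YUS-E2] the growth lemma in the plane
-/

open MeasureTheory Set Filter Topology
open scoped ContDiff

namespace Pool.Agent.YUS.BE

open Pool.Agent.YUD

theorem inv_lap {v z : ℂ} (hz : z ≠ v) :
    ContDiffAt ℝ 2 (fun z : ℂ => ((z.re - v.re) ^ 2 + (z.im - v.im) ^ 2)⁻¹) z ∧
      lap (fun z : ℂ => ((z.re - v.re) ^ 2 + (z.im - v.im) ^ 2)⁻¹) z =
        4 * (((z.re - v.re) ^ 2 + (z.im - v.im) ^ 2)⁻¹) ^ 2 := by
  have h1 : ContDiff ℝ 2 Complex.re := Complex.reCLM.contDiff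
  have h2 : ContDiff ℝ 2 Complex.im := Complex.imCLM.contDiff
  set q : ℂ → ℝ := fun z => (z.re - v.re) ^ 2 + (z.im - v.im) ^ 2 with hq
  have hqc : ContDiff ℝ 2 q := by rw [hq]; fun_prop
  have hq0 : ∀ w, w ≠ v → q w ≠ 0 := by
    intro w hw h0
    apply hw
    have h3 : (w.re - v.re) ^ 2 + (w.im - v.im) ^ 2 = 0 := h0
    have h4 : w.re - v.re = 0 := by nlinarith [sq_nonneg (w.re - v.re), sq_nonneg (w.im - v.im)]
    have h5 : w.im - v.im = 0 := by nlinarith [sq_nonneg (w.re - v.re), sq_nonneg (w.im - v.im)]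
    exact Complex.ext (by linarith) (by linarith)
  refine ⟨hqc.contDiffAt.inv (hq0 z hz), ?_⟩
  have hre : ∀ z, HasFDerivAt (fun z : ℂ => z.re - v.re) Complex.reCLM z := fun z =>
    Complex.reCLM.hasFDerivAt.sub_const v.re
  have him : ∀ z, HasFDerivAt (fun z : ℂ => z.im - v.im) Complex.imCLM z := fun z =>
    Complex.imCLM.hasFDerivAt.sub_const v.im
  have hqd : ∀ z : ℂ, HasFDerivAt q
      ((2 * (z.re - v.re)) • Complex.reCLM + (2 * (z.im - v.im)) • Complex.imCLM) z := by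
    intro z
    have h3 := ((hre z).pow 2).fun_add ((him z).pow 2)
    refine h3.congr_fderiv ?_
    ext w
    simp
  have hinv : ∀ w, w ≠ v → HasFDerivAt (fun z => (q z)⁻¹)
      ((-(q w ^ 2)⁻¹) • ((2 * (w.re - v.re)) • Complex.reCLM + (2 * (w.im - v.im)) • Complex.imCLM))
        w := by
    intro w hw
    exact (hasDerivAt_inv (hq0 w hw)).comp_hasFDerivAt w (hqd w)
  have hne : {w : ℂ | w ≠ v} ∈ 𝓝 z := isOpen_ne.mem_nhds hz
  have e1 : dx (fun z => (q z)⁻¹) =ᶠ[𝓝 z] fun w => (-2) * ((w.re - v.re) * ((q w)⁻¹ * (q w)⁻¹)) := by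
    filter_upwards [hne] with w hw
    rw [dx, (hinv w hw).fderiv]
    simp
    ring
  have e2 : dy (fun z => (q z)⁻¹) =ᶠ[𝓝 z] fun w => (-2) * ((w.im - v.im) * ((q w)⁻¹ * (q w)⁻¹)) := by
    filter_upwards [hne] with w hw
    rw [dy, (hinv w hw).fderiv]
    simp
    ring
  have hqq := (hinv z hz).mul (hinv z hz)
  have e3 := ((hre z).mul hqq).const_mul (-2)
  have e4 := ((him z).mul hqq).const_mul (-2)
  unfold lap
  rw [dx_congr_nhds e1, dy_congr_nhds e2]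
  have e5 : dx (fun w => (-2) * ((w.re - v.re) * ((q w)⁻¹ * (q w)⁻¹))) z =
      (-2) * ((q z)⁻¹ * (q z)⁻¹ - (z.re - v.re) * (2 * (q z)⁻¹ * ((q z ^ 2)⁻¹ * (2 * (z.re - v.re))))) := by
    have e6 : fderiv ℝ (fun w => (-2) * ((w.re - v.re) * ((q w)⁻¹ * (q w)⁻¹))) z = _ := e3.fderiv
    rw [dx, e6]
    simp
    ring
  have e7 : dy (fun w => (-2) * ((w.im - v.im) * ((q w)⁻¹ * (q w)⁻¹))) z =
      (-2) * ((q z)⁻¹ * (q z)⁻¹ - (z.im - v.im) * (2 * (q z)⁻¹ * ((q z ^ 2)⁻¹ * (2 * (z.im - v.im))))) := by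
    have e6 : fderiv ℝ (fun w => (-2) * ((w.im - v.im) * ((q w)⁻¹ * (q w)⁻¹))) z = _ := e4.fderiv
    rw [dy, e6]
    simp
    ring
  rw [e5, e7]
  have hqz : q z ≠ 0 := hq0 z hz
  have hqe : (z.re - v.re) ^ 2 + (z.im - v.im) ^ 2 = q z := rfl
  change _ = 4 * ((q z)⁻¹) ^ 2
  have e8 : (-2) * ((q z)⁻¹ * (q z)⁻¹ - (z.re - v.re) * (2 * (q z)⁻¹ * ((q z ^ 2)⁻¹ * (2 * (z.re - v.re)))))
      + (-2) * ((q z)⁻¹ * (q z)⁻¹ - (z.im - v.im) * (2 * (q z)⁻¹ * ((q z ^ 2)⁻¹ * (2 * (z.im - v.im)))))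
      = -4 * ((q z)⁻¹) ^ 2 + 8 * (((z.re - v.re) ^ 2 + (z.im - v.im) ^ 2) * ((q z)⁻¹ * (q z ^ 2)⁻¹)) := by
    ring
  rw [e8, hqe]
  field_simp
  ring

/-- [E2] the growth lemma -/
theorem growth {u : ℂ → ℝ} {v : ℂ} {rb R S s K : ℝ} (hrb : 0 < rb) (hR : 2 * rb ≤ R) (hK : 0 ≤ K)
    (hs : 0 ≤ s) (hsS : s ≤ S) (hc : ContinuousOn u (Metric.closedBall v R))
    (h0 : ∀ z ∈ Metric.closedBall v R, 0 ≤ u z)
    (h1 : ∀ z ∈ Metric.ball v R, u z < S → ∃ U, IsOpen U ∧ z ∈ U ∧ ContDiffOn ℝ 2 u U ∧ lap u z ≤ K)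
    (hb : ∀ z ∈ Metric.closedBall v rb, s ≤ u z) :
    ∀ z ∈ Metric.closedBall v (R / 2), 3 * rb ^ 2 / R ^ 2 * s - K * R ^ 2 / 2 ≤ u z := by
  have hR0 : 0 < R := by linarith
  have hrR : rb < R := by linarith
  have hden : 0 < R ^ 2 - rb ^ 2 := by nlinarith
  intro z hz
  have hnorm : ∀ z : ℂ, (z.re - v.re) ^ 2 + (z.im - v.im) ^ 2 = ‖z - v‖ ^ 2 := by
    intro z
    rw [← Complex.normSq_eq_norm_sq, Complex.normSq_apply, Complex.sub_re, Complex.sub_im]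
    ring
  have hzR : ‖z - v‖ ≤ R / 2 := by rwa [mem_closedBall_iff_norm] at hz
  by_cases hzb : ‖z - v‖ ≤ rb
  · have h2 := hb z (by rwa [mem_closedBall_iff_norm])
    have h3 : 3 * rb ^ 2 / R ^ 2 * s ≤ s := by
      have h4 : 3 * rb ^ 2 / R ^ 2 ≤ 1 := by
        rw [div_le_one (by positivity)]
        nlinarith
      calc 3 * rb ^ 2 / R ^ 2 * s ≤ 1 * s := mul_le_mul_of_nonneg_right h4 hs
        _ = s := one_mul s
    have h5 : 0 ≤ K * R ^ 2 / 2 := by positivity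
    linarith
  push Not at hzb
  -- the comparison function
  set a : ℝ := s * rb ^ 2 * R ^ 2 / (R ^ 2 - rb ^ 2) with ha
  have ha0 : 0 ≤ a := by positivity
  have key : ∀ e : ℝ, 0 < e → a * (((z.re - v.re) ^ 2 + (z.im - v.im) ^ 2)⁻¹ - (R ^ 2)⁻¹) +
      (K + e) / 2 * ((z.re - v.re) ^ 2 + (z.im - v.im) ^ 2 - R ^ 2) ≤ u z := by
    intro e he
    set h : ℂ → ℝ := fun z => a * (((z.re - v.re) ^ 2 + (z.im - v.im) ^ 2)⁻¹) +
      ((K + e) / 2 * (z.re - v.re) ^ 2 + (K + e) / 2 * (z.im - v.im) ^ 2 + 0 * (z.im - v.im)) with hh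
    set cst : ℝ := a * (R ^ 2)⁻¹ + (K + e) / 2 * R ^ 2 with hcst
    obtain ⟨hq2, hql⟩ := quad_lap ((K + e) / 2) ((K + e) / 2) 0 v.re v.im
    have hhv : ∀ z, h z - cst = a * ((‖z - v‖ ^ 2)⁻¹ - (R ^ 2)⁻¹) +
        (K + e) / 2 * (‖z - v‖ ^ 2 - R ^ 2) := by
      intro z
      rw [hh, hcst, ← hnorm]
      ring
    -- bounds for h
    have hh_le : ∀ z, rb ≤ ‖z - v‖ → ‖z - v‖ ≤ R → h z - cst ≤ s := by
      intro z hz1 hz2
      rw [hhv]
      have h2 : (‖z - v‖ ^ 2)⁻¹ ≤ (rb ^ 2)⁻¹ := by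
        apply inv_anti₀ (by positivity)
        exact pow_le_pow_left₀ hrb.le hz1 2
      have h3 : ‖z - v‖ ^ 2 - R ^ 2 ≤ 0 := by
        have := pow_le_pow_left₀ (norm_nonneg (z - v)) hz2 2
        linarith
      have h4 : a * ((rb ^ 2)⁻¹ - (R ^ 2)⁻¹) = s := by
        rw [ha]
        have : R ^ 2 - rb ^ 2 ≠ 0 := hden.ne'
        field_simp
      have h5 : a * ((‖z - v‖ ^ 2)⁻¹ - (R ^ 2)⁻¹) ≤ s := by
        rw [← h4]
        exact mul_le_mul_of_nonneg_left (by linarith) ha0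
      have h6 : (K + e) / 2 * (‖z - v‖ ^ 2 - R ^ 2) ≤ 0 :=
        mul_nonpos_of_nonneg_of_nonpos (by linarith) h3
      linarith
    -- smoothness
    have hne : ∀ w, rb ≤ ‖w - v‖ → w ≠ v := by
      intro w hw h2
      rw [h2, sub_self, norm_zero] at hw
      linarith
    have hsm : ∀ w, w ≠ v → ContDiffAt ℝ 2 h w := fun w hw =>
      (contDiffAt_const.mul (inv_lap hw).1).add hq2.contDiffAt
    have hO : IsOpen {w : ℂ | w ≠ v} := isOpen_ne
    have hsmO : ContDiffOn ℝ 2 (fun z : ℂ => ((z.re - v.re) ^ 2 + (z.im - v.im) ^ 2)⁻¹)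
        {w : ℂ | w ≠ v} := fun w hw => (inv_lap hw).1.contDiffWithinAt
    have hlap : ∀ w, w ≠ v → 2 * (K + e) ≤ lap h w := by
      intro w hw
      rw [hh, lap_add hO (contDiffOn_const.mul hsmO) hq2.contDiffOn hw,
        lap_const_mul hO a hsmO hw, (inv_lap hw).2, hql]
      have : 0 ≤ a * (4 * (((w.re - v.re) ^ 2 + (w.im - v.im) ^ 2)⁻¹) ^ 2) := by positivity
      linarith
    -- the annulus
    set An : Set ℂ := Metric.closedBall v R ∩ {w | rb ≤ ‖w - v‖} with hAn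
    have hcl : IsClosed {w : ℂ | rb ≤ ‖w - v‖} := isClosed_le continuous_const (by fun_prop)
    have hAnc : IsCompact An := (isCompact_closedBall v R).inter_right hcl
    have hcont : ContinuousOn (fun w => u w - h w) An := by
      refine (hc.mono inter_subset_left).sub ?_
      intro w hw
      exact (hsm w (hne w hw.2)).continuousAt.continuousWithinAt
    have hzAn : z ∈ An := by
      refine ⟨?_, hzb.le⟩
      rw [mem_closedBall_iff_norm]
      linarith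
    obtain ⟨z1, hz1, hmin⟩ := hAnc.exists_isMinOn ⟨z, hzAn⟩ hcont
    have hz1R : ‖z1 - v‖ ≤ R := by
      have := hz1.1
      rwa [mem_closedBall_iff_norm] at this
    have hz1b : rb ≤ ‖z1 - v‖ := hz1.2
    have hclaim : -cst ≤ u z1 - h z1 := by
      by_contra hcon
      push Not at hcon
      have h2 : ‖z1 - v‖ ≠ R := by
        intro h3
        have h4 := hhv z1
        rw [h3, sub_self, sub_self, mul_zero, mul_zero, add_zero] at h4
        have h5 := h0 z1 hz1.1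
        linarith
      have h3 : ‖z1 - v‖ ≠ rb := by
        intro h4
        have h5 := hb z1 (by rw [mem_closedBall_iff_norm, h4])
        have h6 := hh_le z1 hz1b hz1R
        linarith
      have h4 : ‖z1 - v‖ < R := lt_of_le_of_ne hz1R h2
      have h5 : rb < ‖z1 - v‖ := lt_of_le_of_ne hz1b (Ne.symm h3)
      have h6 : u z1 < S := by
        by_contra hcon2
        push Not at hcon2
        have := hh_le z1 hz1b hz1R
        linarith
      obtain ⟨U, hU, hzU, hu2, hul⟩ := h1 z1 (by rwa [mem_ball_iff_norm]) h6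
      set V : Set ℂ := U ∩ {w : ℂ | w ≠ v} with hV
      have hVo : IsOpen V := hU.inter hO
      have hz1V : z1 ∈ V := ⟨hzU, hne z1 hz1b⟩
      have hhV : ContDiffOn ℝ 2 h V := fun w hw => (hsm w hw.2).contDiffWithinAt
      have huV : ContDiffOn ℝ 2 u V := hu2.mono inter_subset_left
      have hloc : IsLocalMax (fun w => h w - u w) z1 := by
        have h7 : Metric.ball v R ∩ {w : ℂ | rb < ‖w - v‖} ∈ 𝓝 z1 := by
          refine (Metric.isOpen_ball.inter ?_).mem_nhds ⟨by rwa [mem_ball_iff_norm], h5⟩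
          exact isOpen_lt continuous_const (by fun_prop)
        filter_upwards [h7] with w hw
        have h8 : w ∈ An := ⟨Metric.ball_subset_closedBall hw.1, (show rb < ‖w - v‖ from hw.2).le⟩
        have h9 := hmin h8
        simp only [mem_ofPred_eq] at h9
        linarith
      have h7 := lap_nonpos_of_isLocalMax hVo (hhV.sub huV) hz1V hloc
      rw [lap_sub hVo hhV huV hz1V] at h7
      have h8 := hlap z1 (hne z1 hz1b)
      linarith
    have h2 := hmin hzAn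
    simp only [mem_ofPred_eq] at h2
    have h3 := hhv z
    rw [hnorm z]
    linarith
  -- conclusion
  have hzn : 0 < ‖z - v‖ := by linarith
  refine le_of_forall_pos_le_add fun ε hε => ?_
  have h2 := key (ε / (R ^ 2 / 2)) (by positivity)
  rw [hnorm z] at h2
  have h3 : ‖z - v‖ ^ 2 ≤ R ^ 2 / 4 := by
    have := pow_le_pow_left₀ (norm_nonneg (z - v)) hzR 2
    linarith [this, (by ring : (R / 2) ^ 2 = R ^ 2 / 4)]
  have h4 : 4 * (R ^ 2)⁻¹ ≤ (‖z - v‖ ^ 2)⁻¹ := by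
    have h5 : (R ^ 2 / 4)⁻¹ ≤ (‖z - v‖ ^ 2)⁻¹ := inv_anti₀ (by positivity) h3
    have h6 : (R ^ 2 / 4)⁻¹ = 4 * (R ^ 2)⁻¹ := by
      rw [inv_div, div_eq_mul_inv]
    linarith
  have h5 : 3 * rb ^ 2 / R ^ 2 * s ≤ a * (3 * (R ^ 2)⁻¹) := by
    have h6 : s * rb ^ 2 ≤ a := by
      rw [ha, le_div_iff₀ hden]
      nlinarith [mul_nonneg hs (sq_nonneg rb), mul_nonneg (mul_nonneg hs (sq_nonneg rb)) (sq_nonneg rb)]
    calc 3 * rb ^ 2 / R ^ 2 * s = (s * rb ^ 2) * (3 * (R ^ 2)⁻¹) := by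
          rw [div_eq_mul_inv]; ring
      _ ≤ a * (3 * (R ^ 2)⁻¹) := mul_le_mul_of_nonneg_right h6 (by positivity)
  have h6 : a * (3 * (R ^ 2)⁻¹) ≤ a * ((‖z - v‖ ^ 2)⁻¹ - (R ^ 2)⁻¹) :=
    mul_le_mul_of_nonneg_left (by linarith) ha0
  have h7 : -(K * R ^ 2 / 2) - ε ≤ (K + ε / (R ^ 2 / 2)) / 2 * (‖z - v‖ ^ 2 - R ^ 2) := by
    have h8 : (K + ε / (R ^ 2 / 2)) / 2 * (‖z - v‖ ^ 2 - R ^ 2) ≥
        (K + ε / (R ^ 2 / 2)) / 2 * (- R ^ 2) := by
      apply mul_le_mul_of_nonneg_left _ (by positivity)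
      nlinarith [sq_nonneg ‖z - v‖]
    have h9 : (K + ε / (R ^ 2 / 2)) / 2 * (- R ^ 2) = -(K * R ^ 2 / 2) - ε := by
      field_simp
      ring
    linarith
  linarith

end Pool.Agent.YUS.BE
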