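import Pool.Agent.YUS.E2
import Pool.Agent.YUS.A1
import Pool.Agent.YUS.A2
import Pool.Agent.YUS.A3
import Pool.Agent.YUS.A4
import Pool.Agent.YUS.A5a
import Pool.Agent.YUS.A5b

/-!
# [YUS-E3] the gradient of the stream function is bounded by the vorticity
-/

open MeasureTheory Set Filter Topology
open scoped ContDiff

namespace Pool.Agent.YUS.BE

open Pool.Agent.YUD Pool.Agent.YUT Pool.Agent.YUB Pool.Agent.YUR Pool.Agent.YUL

variable {X : Type} [TopologicalSpace X] (S : Surf X)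

theorem mem_chart (x : X) : x ∈ S.E x '' Metric.ball 0 S.ρ :=
  ⟨0, Metric.mem_ball_self S.ρ_pos, S.center x⟩

include S in
theorem t2 : T2Space X := by
  refine ⟨fun x y hxy => ?_⟩
  by_cases h : ∃ z, z ∈ S.E x '' Metric.ball 0 S.ρ ∧ z ∈ S.E y '' Metric.ball 0 S.ρ
  · obtain ⟨z, ⟨v, hv, hvz⟩, w, hw, hwz⟩ := h
    rw [mem_ball_zero_iff] at hv hw
    obtain ⟨v', hv', hv2⟩ := S.near_symm (c := x) hv
    obtain ⟨w', hw', hw2⟩ := S.near_symm (c := y) hw
    rw [hvz] at hv2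
    rw [hwz] at hw2
    rw [← hv'] at hv
    rw [← hw'] at hw
    have hne : v' ≠ w' := by
      intro h
      rw [h, hw2] at hv2
      exact hxy hv2.symm
    obtain ⟨U, V, hU, hV, hvU, hwV, hUV⟩ := t2_separation hne
    refine ⟨S.E z '' (U ∩ Metric.ball 0 S.ρ), S.E z '' (V ∩ Metric.ball 0 S.ρ),
      S.isOpenMap z _ inter_subset_right (hU.inter Metric.isOpen_ball),
      S.isOpenMap z _ inter_subset_right (hV.inter Metric.isOpen_ball),
      ⟨v', ⟨hvU, by rwa [mem_ball_zero_iff]⟩, hv2⟩, ⟨w', ⟨hwV, by rwa [mem_ball_zero_iff]⟩, hw2⟩, ?_⟩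
    rw [Set.disjoint_left]
    rintro a ⟨p, hp, hpa⟩ ⟨q, hq, hqa⟩
    have hpq : p = q := S.inj z hp.2 hq.2 (hpa.trans hqa.symm)
    rw [← hpq] at hq
    exact (Set.disjoint_left.1 hUV) hp.1 hq.1
  · refine ⟨_, _, S.isOpen_chart x, S.isOpen_chart y, mem_chart S x, mem_chart S y, ?_⟩
    rw [Set.disjoint_left]
    intro a h1 h2
    exact h ⟨a, h1, h2⟩

theorem contAt_of_chart {f : X → ℝ} {x : X} (h : ContinuousAt (fun v => f (S.E x v)) 0) :
    ContinuousAt f x := by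
  have hn := (S.isOpen_chart x).mem_nhds (mem_chart S x)
  have h1 : ContinuousAt (S.iv x) x := (S.iv_cont x).continuousAt hn
  have h2 : ContinuousAt ((fun v => f (S.E x v)) ∘ S.iv x) x :=
    ContinuousAt.comp (by rw [S.iv_self]; exact h) h1
  refine h2.congr ?_
  filter_upwards [hn] with y hy
  rw [Function.comp_apply, (S.E_iv hy).1]

theorem zero_mem_D {M : Set X} {x : X} (hx : x ∈ M) : (0 : ℂ) ∈ S.D M x := by
  refine ⟨by rw [norm_zero]; exact S.ρ_pos, ?_⟩
  rw [S.center]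
  exact hx

theorem contAt_of_smooth {M : Set X} (hM : IsOpen M) {f : X → ℝ}
    (hf : ∀ c, ContDiffOn ℝ 2 (fun v => f (S.E c v)) (S.D M c)) {x : X} (hx : x ∈ M) :
    ContinuousAt f x := by
  apply contAt_of_chart S
  exact ((hf x).continuousOn).continuousAt ((S.isOpen_D hM x).mem_nhds (zero_mem_D S hx))

/-- almost superharmonic below the level `A` -/
def AS (u : X → ℝ) (A K : ℝ) : Prop := ∀ c, ∀ z ∈ Metric.ball (0 : ℂ) (S.ρ / 2),
  u (S.E c z) < A → ∃ U, IsOpen U ∧ z ∈ U ∧ ContDiffOn ℝ 2 (fun w => u (S.E c w)) U ∧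
    lap (fun w => u (S.E c w)) z ≤ K

theorem step {u : X → ℝ} {A K s rb : ℝ} (hu : Continuous u) (h0 : ∀ x, 0 ≤ u x)
    (hAS : AS S u A K) (hK : 0 ≤ K) (hs : 0 ≤ s) (hsA : s ≤ A) (hrb : 0 < rb)
    (hrb' : rb ≤ S.ρ / 16) {c : X} (hc : ∀ w, ‖w‖ < rb → s ≤ u (S.E c w)) {v : ℂ}
    (hv : ‖v‖ < S.ρ / 16) : ∀ w, ‖w‖ < rb →
      3 * (rb / 2) ^ 2 / (S.ρ / 4) ^ 2 * s - K * (S.ρ / 4) ^ 2 / 2 ≤ u (S.E (S.E c v) w) := by
  have hρ := S.ρ_pos
  have hκ : |S.κ| * S.ρ ^ 2 ≤ 1 / 4 := S.κ_le.trans (by norm_num)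
  obtain ⟨v', hv', hv2⟩ := S.near_symm (c := c) (v := v) (by linarith)
  obtain ⟨τ, hτ, hre⟩ := S.recenter (S.E c v) v' (by linarith)
  rw [hv2] at hre
  set y := S.E c v with hy
  have hsub : Metric.closedBall v' (S.ρ / 4) ⊆ Metric.ball 0 (S.ρ / 2) := by
    intro z hz
    rw [mem_closedBall_iff_norm] at hz
    rw [mem_ball_zero_iff]
    have : ‖z‖ ≤ ‖z - v'‖ + ‖v'‖ := by simpa using norm_add_le (z - v') v'
    linarith
  have hg := growth (u := fun z => u (S.E y z)) (v := v') (rb := rb / 2) (R := S.ρ / 4) (s := s)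
    (S := A) (K := K) (by positivity) (by linarith) hK hs hsA ?_ (fun z _ => h0 _) ?_ ?_
  · intro w hw
    refine hg w ?_
    rw [mem_closedBall_iff_norm]
    have := norm_sub_le w v'
    linarith
  · refine hu.comp_continuousOn ((S.cont y).mono fun z hz => ?_)
    have := hsub hz
    rw [mem_ball_zero_iff] at this ⊢
    linarith
  · intro z hz hzA
    exact hAS y z (hsub (Metric.ball_subset_closedBall hz)) hzA
  · intro z hz
    rw [mem_closedBall_iff_norm] at hz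
    have hzn : ‖z‖ < S.ρ := by
      have : ‖z‖ ≤ ‖z - v'‖ + ‖v'‖ := by simpa using norm_add_le (z - v') v'
      linarith
    have hv'n : ‖-v'‖ ≤ S.ρ := by
      rw [norm_neg]
      linarith
    have h1 := mob_neg_mob hκ hv'n hzn.le
    rw [neg_neg] at h1
    have h2 := mob_den_ne hκ hv'n hzn.le
    have h3 : ‖mob S.κ (-v') z‖ < rb := by
      unfold mob
      rw [norm_div, div_lt_iff₀ (by linarith), ← sub_eq_add_neg]
      nlinarith
    have h4 := hre (mob S.κ (-v') z) (by linarith) (by rw [h1]; exact hzn)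
    rw [h1] at h4
    show s ≤ u (S.E y z)
    rw [h4]
    apply hc
    rw [norm_mul, hτ, one_mul]
    exact h3

theorem harnack [CompactSpace X] [ConnectedSpace X] {rb : ℝ} (hrb : 0 < rb)
    (hrb' : rb ≤ S.ρ / 16) : ∃ a b : ℝ, 0 < a ∧ 0 ≤ b ∧ ∀ (u : X → ℝ) (A K s : ℝ), Continuous u →
      (∀ x, 0 ≤ u x) → AS S u A K → 0 ≤ K → 0 ≤ s → s ≤ A →
      ∀ c : X, (∀ w, ‖w‖ < rb → s ≤ u (S.E c w)) → ∀ y, a * s - b * K ≤ u y := by
  have hρ := S.ρ_pos
  obtain ⟨n, hn⟩ := S.chain (r := S.ρ / 16) (by positivity) (by linarith)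
  set q : ℝ := 3 * (rb / 2) ^ 2 / (S.ρ / 4) ^ 2 with hq
  have hq0 : 0 < q := by positivity
  have hq1 : q ≤ 1 := by
    rw [hq, div_le_one (by positivity)]
    nlinarith
  set d : ℝ := (S.ρ / 4) ^ 2 / 2 with hd
  have hd0 : 0 ≤ d := by positivity
  refine ⟨q ^ n, n * d, by positivity, by positivity, ?_⟩
  intro u A K s hu h0 hAS hK hs hsA c hc y
  obtain ⟨p, hp0, hpn, hp⟩ := hn c y
  have key : ∀ i ≤ n, ∀ w, ‖w‖ < rb → q ^ i * s - i * d * K ≤ u (S.E (p i) w) := by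
    intro i
    induction i with
    | zero =>
      intro _ w hw
      rw [hp0]
      have := hc w hw
      simpa using this
    | succ i ih =>
      intro hi w hw
      obtain ⟨v, hv, hpv⟩ := hp i (by omega)
      have h1 : ∀ w, ‖w‖ < rb → max 0 (q ^ i * s - i * d * K) ≤ u (S.E (p i) w) :=
        fun w hw => max_le (h0 _) (ih (by omega) w hw)
      have h2 : max 0 (q ^ i * s - i * d * K) ≤ A := by
        apply max_le (hs.trans hsA)
        have h3 : q ^ i * s ≤ 1 * s := mul_le_mul_of_nonneg_right (pow_le_one₀ hq0.le hq1) hs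
        have h4 : 0 ≤ i * d * K := by positivity
        linarith
      have h3 := step S hu h0 hAS hK (le_max_left _ _) h2 hrb hrb' h1 hv w hw
      rw [← hpv, ← hq] at h3
      have h4 : q * (q ^ i * s - i * d * K) ≤ q * max 0 (q ^ i * s - i * d * K) :=
        mul_le_mul_of_nonneg_left (le_max_right _ _) hq0.le
      have h5 : q * (i * d * K) ≤ 1 * (i * d * K) :=
        mul_le_mul_of_nonneg_right hq1 (by positivity)
      have h6 : K * (S.ρ / 4) ^ 2 / 2 = d * K := by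
        rw [hd]
        ring
      rw [h6] at h3
      push_cast
      have h7 : q ^ (i + 1) * s = q * (q ^ i * s) := by ring
      rw [h7]
      linarith
  have h1 := key n le_rfl 0 (by rw [norm_zero]; exact hrb)
  rw [S.center, hpn] at h1
  exact h1

/-- the extension by zero -/
theorem ext_cont {M : Set X} (hM : IsOpen M) {f : X → ℝ}
    (hf : ∀ c, ContDiffOn ℝ 2 (fun v => f (S.E c v)) (S.D M c))
    (hz : ∀ ε > 0, ∃ Kc ⊆ M, IsCompact Kc ∧ ∀ x ∈ M, x ∉ Kc → |f x| < ε) :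
    ∃ F : X → ℝ, Continuous F ∧ (∀ x ∈ M, F x = f x) ∧ ∀ x, x ∉ M → F x = 0 := by
  classical
  have := t2 S
  refine ⟨fun x => if x ∈ M then f x else 0, ?_, fun x hx => if_pos hx, fun x hx => if_neg hx⟩
  rw [continuous_iff_continuousAt]
  intro x
  by_cases hx : x ∈ M
  · refine (contAt_of_smooth S hM hf hx).congr ?_
    filter_upwards [hM.mem_nhds hx] with y hy
    rw [if_pos hy]
  · rw [Metric.continuousAt_iff']
    intro ε hε
    obtain ⟨Kc, hKM, hKc, hK⟩ := hz ε hε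
    have h1 : Kcᶜ ∈ 𝓝 x := hKc.isClosed.isOpen_compl.mem_nhds fun h => hx (hKM h)
    filter_upwards [h1] with y hy
    rw [if_neg hx, Real.dist_eq, sub_zero]
    split_ifs with hyM
    · exact hK y hyM hy
    · rw [abs_zero]
      exact hε

theorem bdd_above [CompactSpace X] [ConnectedSpace X] {M : Set X} (hM : IsOpen M)
    (hi : (interior Mᶜ).Nonempty) : ∃ C : ℝ, 0 ≤ C ∧ ∀ (f : X → ℝ) (K : ℝ), 0 ≤ K →
      (∀ c, ContDiffOn ℝ 2 (fun v => f (S.E c v)) (S.D M c)) →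
      (∀ ε > 0, ∃ Kc ⊆ M, IsCompact Kc ∧ ∀ x ∈ M, x ∉ Kc → |f x| < ε) →
      (∀ x ∈ M, -K ≤ S.lapS f x) → ∀ x ∈ M, f x ≤ C * K := by
  have hρ := S.ρ_pos
  obtain ⟨C0, hC0, hden⟩ := S.den_bounds
  obtain ⟨b, hb⟩ := hi
  -- a ball in the complement
  obtain ⟨r0, hr0, hball⟩ : ∃ r0 > 0, ∀ w, ‖w‖ < r0 → S.E b w ∉ M := by
    have h1 : ContinuousAt (S.E b) 0 := (S.cont b).continuousAt (Metric.isOpen_ball.mem_nhds
      (Metric.mem_ball_self hρ))
    have h2 : Mᶜ ∈ 𝓝 (S.E b 0) := by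
      rw [S.center]
      exact mem_interior_iff_mem_nhds.1 hb
    obtain ⟨r0, hr0, h3⟩ := Metric.mem_nhds_iff.1 (h1 h2)
    refine ⟨r0, hr0, fun w hw => ?_⟩
    exact h3 (by rwa [mem_ball_zero_iff])
  obtain ⟨p, q, hp, hq, hharn⟩ := harnack S (rb := min r0 (S.ρ / 16))
    (lt_min hr0 (by positivity)) (min_le_right _ _)
  refine ⟨q / p * C0, by positivity, ?_⟩
  intro f K hK hf hz hlap x hx
  obtain ⟨F, hFc, hFM, hF0⟩ := ext_cont S hM hf hz
  -- the maximum of the positive part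
  obtain ⟨y, -, hy⟩ := isCompact_univ.exists_isMaxOn ⟨x, mem_univ x⟩
    ((hFc.max continuous_const).continuousOn (f := fun x => max (F x) 0))
  set A : ℝ := max (F y) 0 with hA
  have hAmax : ∀ z, max (F z) 0 ≤ A := fun z => hy (mem_univ z)
  have hA0 : 0 ≤ A := le_max_right _ _
  set u : X → ℝ := fun z => A - max (F z) 0 with hu
  have hAS : AS S u A (C0 * K) := by
    intro c z hz hlt
    have h1 : 0 < F (S.E c z) := by
      by_contra hcon
      push Not at hcon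
      have h2 : u (S.E c z) = A := by
        rw [hu]
        simp only
        rw [max_eq_right hcon, sub_zero]
      linarith
    have hzn : ‖z‖ < S.ρ / 2 := by rwa [mem_ball_zero_iff] at hz
    have hzM : S.E c z ∈ M := by
      by_contra hcon
      rw [hF0 _ hcon] at h1
      exact lt_irrefl _ h1
    have hcont : ContinuousOn (fun v => F (S.E c v)) (Metric.ball 0 S.ρ) :=
      hFc.comp_continuousOn (S.cont c)
    have hopen := hcont.isOpen_inter_preimage Metric.isOpen_ball (isOpen_Ioi (a := (0 : ℝ)))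
    have hUo : IsOpen (S.D M c ∩ (Metric.ball 0 S.ρ ∩ (fun v => F (S.E c v)) ⁻¹' Ioi 0)) :=
      (S.isOpen_D hM c).inter hopen
    have hzD : z ∈ S.D M c := ⟨by linarith, hzM⟩
    have hzU : z ∈ S.D M c ∩ (Metric.ball 0 S.ρ ∩ (fun v => F (S.E c v)) ⁻¹' Ioi 0) :=
      ⟨hzD, by rw [mem_ball_zero_iff]; linarith, h1⟩
    have heq : ∀ w ∈ S.D M c ∩ (Metric.ball 0 S.ρ ∩ (fun v => F (S.E c v)) ⁻¹' Ioi 0),
        u (S.E c w) = A + -(f (S.E c w)) := by
      intro w hw
      have h3 : 0 < F (S.E c w) := hw.2.2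
      rw [hu]
      simp only
      rw [max_eq_left h3.le, hFM _ hw.1.2, sub_eq_add_neg]
    refine ⟨_, hUo, hzU, ?_, ?_⟩
    · refine ContDiffOn.congr ?_ heq
      exact contDiffOn_const.add ((hf c).mono inter_subset_left).neg
    · rw [lap_congr hUo heq hzU]
      have h4 : ContDiffOn ℝ 2 (fun w => f (S.E c w))
        (S.D M c ∩ (Metric.ball 0 S.ρ ∩ (fun v => F (S.E c v)) ⁻¹' Ioi 0)) :=
        (hf c).mono inter_subset_left
      rw [lap_add hUo contDiffOn_const h4.neg hzU, lap_neg hUo h4 hzU]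
      have h5 : lap (fun _ : ℂ => A) z = 0 := by
        unfold lap dx dy
        simp
      rw [h5, zero_add, S.lap_chart (by linarith) ((hf c).contDiffAt ((S.isOpen_D hM c).mem_nhds
        hzD))]
      obtain ⟨h6, h7, -⟩ := hden c
      have h8 : S.den c z ≤ C0 := (le_abs_self _).trans (h6.1 z hz)
      have h9 := h7 z hz
      have h10 : 0 ≤ S.den c z := by
        by_contra hcon
        push Not at hcon
        nlinarith
      have h11 := hlap _ hzM
      nlinarith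
  have h1 := hharn u A (C0 * K) A (continuous_const.sub (hFc.max continuous_const))
    (fun z => by rw [hu]; simp only; linarith [hAmax z]) hAS (by positivity) hA0 le_rfl b
    (fun w hw => by
      rw [hu]
      simp only
      rw [hF0 _ (hball w (hw.trans_le (min_le_left _ _))), max_self, sub_zero]) y
  have h2 : u y = 0 := by
    rw [hu]
    simp only
    rw [← hA, sub_self]
  rw [h2] at h1
  have h3 : A ≤ q / p * C0 * K := by
    have h4 : p * A ≤ q * (C0 * K) := by linarith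
    have h5 : A ≤ q * (C0 * K) / p := by
      rw [le_div_iff₀ hp]
      linarith
    calc A ≤ q * (C0 * K) / p := h5
      _ = q / p * C0 * K := by ring
  have h4 := hAmax x
  rw [hFM x hx] at h4
  exact ((le_max_left _ _).trans h4).trans h3

theorem lapS_neg {M : Set X} (hM : IsOpen M) {f : X → ℝ}
    (hf : ∀ c, ContDiffOn ℝ 2 (fun v => f (S.E c v)) (S.D M c)) {x : X} (hx : x ∈ M) :
    S.lapS (fun y => -(f y)) x = -(S.lapS f x) := by
  unfold Surf.lapS
  rw [lap_neg (S.isOpen_D hM x) (hf x) (zero_mem_D S hx), neg_div]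

theorem bdd_bdry [CompactSpace X] [ConnectedSpace X] {M : Set X} (hM : IsOpen M)
    (hi : (interior Mᶜ).Nonempty) : ∃ C : ℝ, 0 ≤ C ∧ ∀ (f : X → ℝ) (K : ℝ), 0 ≤ K →
      (∀ c, ContDiffOn ℝ 2 (fun v => f (S.E c v)) (S.D M c)) →
      (∀ ε > 0, ∃ Kc ⊆ M, IsCompact Kc ∧ ∀ x ∈ M, x ∉ Kc → |f x| < ε) →
      (∀ x ∈ M, |S.lapS f x| ≤ K) → ∀ x ∈ M, |f x| ≤ C * K := by
  obtain ⟨C, hC, h⟩ := bdd_above S hM hi
  refine ⟨C, hC, fun f K hK hf hz hlap x hx => ?_⟩
  have h1 := h f K hK hf hz (fun y hy => (abs_le.1 (hlap y hy)).1) x hx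
  have h2 := h (fun y => -(f y)) K hK (fun c => (hf c).neg) (by
    intro ε hε
    obtain ⟨Kc, h3, h4, h5⟩ := hz ε hε
    exact ⟨Kc, h3, h4, fun y hy hy2 => by rw [abs_neg]; exact h5 y hy hy2⟩) (fun y hy => by
      rw [lapS_neg S hM hf hy]
      linarith [(abs_le.1 (hlap y hy)).2]) x hx
  rw [abs_le]
  exact ⟨by linarith, h1⟩

theorem bdd_closed [CompactSpace X] [ConnectedSpace X] : ∃ C : ℝ, 0 ≤ C ∧
    ∀ (f : X → ℝ) (K : ℝ), 0 ≤ K →
      (∀ c, ContDiffOn ℝ 2 (fun v => f (S.E c v)) (S.D univ c)) →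
      (∀ x, |S.lapS f x| ≤ K) → ∃ m : ℝ, ∀ x, |f x - m| ≤ C * K := by
  have hρ := S.ρ_pos
  obtain ⟨C0, hC0, hden⟩ := S.den_bounds
  obtain ⟨p, q, hp, hq, hharn⟩ := harnack S (rb := S.ρ / 64) (by positivity) (by linarith)
  refine ⟨2 * (q / p * C0) + C0 * S.ρ ^ 2 / 16, by positivity, ?_⟩
  intro f K hK hf hlap
  have hball : ∀ c, Metric.ball (0 : ℂ) S.ρ ⊆ S.D univ c := by
    intro c v hv
    exact ⟨by rwa [mem_ball_zero_iff] at hv, mem_univ _⟩
  have hfc : Continuous f := continuous_iff_continuousAt.2 fun x =>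
    contAt_of_smooth S isOpen_univ hf (mem_univ x)
  have hlc : ∀ c, ∀ z ∈ Metric.ball (0 : ℂ) (S.ρ / 2), |lap (fun w => f (S.E c w)) z| ≤ C0 * K := by
    intro c z hz
    have hzn : ‖z‖ < S.ρ / 2 := by rwa [mem_ball_zero_iff] at hz
    rw [S.lap_chart (by linarith) ((hf c).contDiffAt ((S.isOpen_D isOpen_univ c).mem_nhds
        (hball c (by rw [mem_ball_zero_iff]; linarith)))), abs_mul]
    exact mul_le_mul ((hden c).1.1 z hz) (hlap _) (abs_nonneg _) (by linarith)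
  obtain ⟨x0⟩ : Nonempty X := inferInstance
  obtain ⟨y0, -, hy0⟩ := isCompact_univ.exists_isMinOn ⟨x0, mem_univ x0⟩ hfc.continuousOn
  obtain ⟨y1, -, hy1⟩ := isCompact_univ.exists_isMaxOn ⟨x0, mem_univ x0⟩ hfc.continuousOn
  have hmin : ∀ x, f y0 ≤ f x := fun x => hy0 (mem_univ x)
  have hmax : ∀ x, f x ≤ f y1 := fun x => hy1 (mem_univ x)
  set O : ℝ := f y1 - f y0 with hO
  have hO0 : 0 ≤ O := sub_nonneg.2 (hmin y1)
  -- the estimate near the minimum
  have hnear : ∀ w, ‖w‖ < S.ρ / 64 → O / 2 - C0 * K * S.ρ ^ 2 / 32 ≤ f y1 - f (S.E y0 w) := by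
    intro w hw
    have hgr : ∀ z ∈ Metric.ball (0 : ℂ) (S.ρ / 64), ‖fderiv ℝ (fun v => f (S.E y0 v)) z‖ ≤
        8 * (O / (S.ρ / 4) + C0 * K * (S.ρ / 4)) := by
      intro z hz
      rw [mem_ball_zero_iff] at hz
      have hsub : Metric.ball z (S.ρ / 4) ⊆ Metric.ball 0 (S.ρ / 2) := by
        intro x hx
        rw [mem_ball_iff_norm] at hx
        rw [mem_ball_zero_iff]
        have : ‖x‖ ≤ ‖x - z‖ + ‖z‖ := by simpa using norm_add_le (x - z) z
        linarith
      have hsub2 : Metric.ball z (S.ρ / 4) ⊆ S.D univ y0 := fun x hx => by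
        have := hsub hx
        rw [mem_ball_zero_iff] at this
        exact hball y0 (by rw [mem_ball_zero_iff]; linarith)
      have h1 := grad_le (φ := fun v => f (S.E y0 v) - f y0) (v := z) (r := S.ρ / 4) (S := O)
        (K := C0 * K) (by positivity) (((hf y0).mono hsub2).sub contDiffOn_const)
        (fun x hx => by
          rw [abs_of_nonneg (by linarith [hmin (S.E y0 x)])]
          linarith [hmax (S.E y0 x)])
        (fun x hx => by
          have h2 : lap (fun v => f (S.E y0 v) - f y0) x = lap (fun v => f (S.E y0 v)) x := by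
            rw [lap_sub (S.isOpen_D isOpen_univ y0) (hf y0) contDiffOn_const (hsub2 hx)]
            have h5 : lap (fun _ : ℂ => f y0) x = 0 := by
              unfold lap dx dy
              simp
            rw [h5, sub_zero]
          rw [h2]
          exact hlc y0 x (hsub hx))
      rw [fderiv_sub_const] at h1
      exact h1
    have h1 := (convex_ball (0 : ℂ) (S.ρ / 64)).norm_image_sub_le_of_norm_fderiv_le (𝕜 := ℝ)
      (f := fun v => f (S.E y0 v)) (x := 0) (y := w)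
      (fun z hz => ((hf y0).contDiffAt ((S.isOpen_D isOpen_univ y0).mem_nhds
        (hball y0 (by
          rw [mem_ball_zero_iff] at hz ⊢
          linarith)))).differentiableAt (by norm_num)) hgr
      (Metric.mem_ball_self (by positivity)) (by rwa [mem_ball_zero_iff])
    simp only [sub_zero] at h1
    rw [S.center, Real.norm_eq_abs] at h1
    have h2 := (le_abs_self _).trans h1
    have h3 : 8 * (O / (S.ρ / 4) + C0 * K * (S.ρ / 4)) * ‖w‖ ≤
        8 * (O / (S.ρ / 4) + C0 * K * (S.ρ / 4)) * (S.ρ / 64) :=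
      mul_le_mul_of_nonneg_left hw.le (by positivity)
    have h4 : 8 * (O / (S.ρ / 4) + C0 * K * (S.ρ / 4)) * (S.ρ / 64) =
        O / 2 + C0 * K * S.ρ ^ 2 / 32 := by
      field_simp
      ring
    linarith
  set s : ℝ := max 0 (O / 2 - C0 * K * S.ρ ^ 2 / 32) with hs
  have hCK : 0 ≤ C0 * K := by positivity
  have hsO : s ≤ O := by
    apply max_le hO0
    have : 0 ≤ C0 * K * S.ρ ^ 2 / 32 := by positivity
    linarith
  have hAS : AS S (fun x => f y1 - f x) O (C0 * K) := by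
    intro c z hz _
    have hzB : z ∈ Metric.ball (0 : ℂ) S.ρ := by
      rw [mem_ball_zero_iff] at hz ⊢
      linarith
    have hD := S.isOpen_D isOpen_univ c
    refine ⟨S.D univ c, hD, hball c hzB, contDiffOn_const.sub (hf c), ?_⟩
    rw [lap_sub hD contDiffOn_const (hf c) (hball c hzB)]
    have h5 : lap (fun _ : ℂ => f y1) z = 0 := by
      unfold lap dx dy
      simp
    rw [h5]
    have := (abs_le.1 (hlc c z hz)).1
    linarith
  have h1 := hharn (fun x => f y1 - f x) O (C0 * K) s (continuous_const.sub hfc)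
    (fun x => sub_nonneg.2 (hmax x)) hAS hCK (le_max_left _ _) hsO y0
    (fun w hw => max_le (sub_nonneg.2 (hmax _)) (hnear w hw)) y1
  simp only [sub_self] at h1
  have h2 : s ≤ q / p * C0 * K := by
    have h4 : p * s ≤ q * (C0 * K) := by linarith
    have h5 : s ≤ q * (C0 * K) / p := by
      rw [le_div_iff₀ hp]
      linarith
    calc s ≤ q * (C0 * K) / p := h5
      _ = q / p * C0 * K := by ring
  have h3 : O / 2 - C0 * K * S.ρ ^ 2 / 32 ≤ s := le_max_right _ _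
  refine ⟨f y0, fun x => ?_⟩
  rw [abs_of_nonneg (sub_nonneg.2 (hmin x))]
  have h4 : f x - f y0 ≤ O := sub_le_sub_right (hmax x) _
  have h5 : (2 * (q / p * C0) + C0 * S.ρ ^ 2 / 16) * K =
      2 * (q / p * C0 * K) + 2 * (C0 * K * S.ρ ^ 2 / 32) := by ring
  rw [h5]
  linarith

theorem bdd [CompactSpace X] [ConnectedSpace X] {M : Set X} (hM : Fluid M) : ∃ C : ℝ, 0 ≤ C ∧
    ∀ (f : X → ℝ) (K : ℝ), 0 ≤ K → (∀ c, ContDiffOn ℝ 2 (fun v => f (S.E c v)) (S.D M c)) →
      (∀ ε > 0, ∃ Kc ⊆ M, IsCompact Kc ∧ ∀ x ∈ M, x ∉ Kc → |f x| < ε) →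
      (∀ x ∈ M, |S.lapS f x| ≤ K) → ∃ m : ℝ, ∀ x ∈ M, |f x - m| ≤ C * K := by
  obtain ⟨hMo, -, hM | hM⟩ := hM
  · subst hM
    obtain ⟨C, hC, h⟩ := bdd_closed S
    refine ⟨C, hC, fun f K hK hf _ hlap => ?_⟩
    obtain ⟨m, hm⟩ := h f K hK hf (fun x => hlap x (mem_univ x))
    exact ⟨m, fun x _ => hm x⟩
  · obtain ⟨C, hC, h⟩ := bdd_bdry S hMo hM
    refine ⟨C, hC, fun f K hK hf hz hlap => ⟨0, fun x hx => ?_⟩⟩
    rw [sub_zero]
    exact h f K hK hf hz hlap x hx

end Pool.Agent.YUS.BE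

namespace Pool.Agent.YUS

open Pool.Agent.YUD Pool.Agent.YUT Pool.Agent.YUB Pool.Agent.YUR Pool.Agent.YUL

/-- [E1] interior gradient estimate in the plane -/
theorem interior_grad : ∃ C : ℝ, 0 ≤ C ∧ ∀ (φ : ℂ → ℝ) (v : ℂ) (r A K : ℝ),
    0 < r → 0 ≤ K → ContDiffOn ℝ 2 φ (Metric.ball v r) → (∀ x ∈ Metric.ball v r, |φ x| ≤ A) →
      (∀ x ∈ Metric.ball v r, |lap φ x| ≤ K) → ‖fderiv ℝ φ v‖ ≤ C * (A / r + K * r) :=
  ⟨8, by norm_num, fun _ _ _ _ _ hr _ hφ hA hK => BE.grad_le hr hφ hA hK⟩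

namespace Surf

variable {X : Type} [TopologicalSpace X] (S : Surf X)

/-- the gradient of the stream function is bounded by the vorticity, up to the distance to the
boundary -/
theorem grad_bound [CompactSpace X] [ConnectedSpace X] {M : Set X} (hM : Fluid M) :
    ∃ C : ℝ, 0 ≤ C ∧
    ∀ (f : X → ℝ) (K : ℝ), 0 ≤ K → (∀ c, ContDiffOn ℝ 2 (fun v => f (S.E c v)) (S.D M c)) →
      (∀ ε > 0, ∃ Kc ⊆ M, IsCompact Kc ∧ ∀ x ∈ M, x ∉ Kc → |f x| < ε) →
      (∀ x ∈ M, |S.lapS f x| ≤ K) →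
      ∀ (c : X) (v : ℂ) (r : ℝ), 0 < r → r ≤ 1 → Metric.closedBall v r ⊆ S.D M c →
        Metric.closedBall v r ⊆ Metric.ball 0 (S.ρ / 2) →
        ‖fderiv ℝ (fun v => f (S.E c v)) v‖ ≤ C * K / r := by
  have hρ := S.ρ_pos
  obtain ⟨C0, hC0, hden⟩ := S.den_bounds
  obtain ⟨C, hC, hb⟩ := BE.bdd S hM
  refine ⟨8 * (C + C0), by positivity, ?_⟩
  intro f K hK hf hz hlap c v r hr hr1 hrD hrB
  obtain ⟨m, hm⟩ := hb f K hK hf hz hlap
  have hsub : Metric.ball v r ⊆ S.D M c := Metric.ball_subset_closedBall.trans hrD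
  have hD := S.isOpen_D hM.1 c
  have h1 := BE.grad_le (φ := fun v => f (S.E c v) - m) (v := v) (r := r) (S := C * K)
    (K := C0 * K) hr (((hf c).mono hsub).sub contDiffOn_const)
    (fun x hx => hm _ (hsub hx).2)
    (fun x hx => by
      have h2 : lap (fun v => f (S.E c v) - m) x = lap (fun v => f (S.E c v)) x := by
        rw [lap_sub hD (hf c) contDiffOn_const (hsub hx)]
        have h5 : lap (fun _ : ℂ => m) x = 0 := by
          unfold lap dx dy
          simp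
        rw [h5, sub_zero]
      rw [h2, S.lap_chart (hsub hx).1 ((hf c).contDiffAt (hD.mem_nhds (hsub hx))), abs_mul]
      exact mul_le_mul ((hden c).1.1 x (hrB (Metric.ball_subset_closedBall hx)))
        (hlap _ (hsub hx).2) (abs_nonneg _) (by linarith))
  rw [fderiv_sub_const] at h1
  refine h1.trans ?_
  have h2 : C0 * K * r ≤ C0 * K / r := by
    rw [le_div_iff₀ hr]
    have h3 : r * r ≤ 1 := by nlinarith
    have h4 : 0 ≤ C0 * K := by positivity
    calc C0 * K * r * r = C0 * K * (r * r) := by ring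
      _ ≤ C0 * K * 1 := mul_le_mul_of_nonneg_left h3 h4
      _ = C0 * K := mul_one _
  calc 8 * (C * K / r + C0 * K * r) ≤ 8 * (C * K / r + C0 * K / r) := by linarith
    _ = 8 * (C + C0) * K / r := by ring

end Surf

end Pool.Agent.YUS
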