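import Pool.Agent.YUS.Z

/-!
# [YUS] No state is stable
-/

open MeasureTheory Set Filter Topology
open scoped ContDiff

namespace Pool.Agent.YUS

open Pool.Agent.YUD Pool.Agent.YUT Pool.Agent.YUB Pool.Agent.YUR Pool.Agent.YUL

variable {X : Type} [TopologicalSpace X]

/-- Lyapunov stability of the state `ws` in `C^{1,α}(M)`, only with respect to perturbations of mean zero
supported in a disk of `M`: for every `ε > 0` there is `δ > 0` such that every initial vorticity `w₀` in the `δ`-ball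
about `ws`, equal to `ws` off a disk of `M` and with the same integral, has a global solution (with a flow of
class `C²`) which stays in the `ε`-ball about `ws`. -/
def Surf.QStable (S : Surf X) (M : Set X) (α : ℝ) (ws : X → ℝ) : Prop :=
  ∀ ε > 0, ∃ δ > 0, ∀ (w₀ : X → ℝ) (a : X) (ρ : ℝ), 0 < ρ → Metric.ball 0 ρ ⊆ S.D M a →
    (∀ x, x ∉ S.E a '' Metric.ball 0 ρ → w₀ x = ws x) →
    (∫ v in Metric.ball (0 : ℂ) ρ, (w₀ (S.E a v) - ws (S.E a v)) * S.den a v) = 0 →
    S.Norm M α δ (fun x => w₀ x - ws x) →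
    ∃ (ψ : ℝ → X → ℝ) (Φ : ℝ → X → X), S.Flow M w₀ ψ Φ ∧ S.FlowC2 M Φ ∧
      ∀ t, 0 ≤ t → S.Norm M α ε (fun x => S.lapS (ψ t) x - ws x)

theorem normLe_add {N : Set ℂ} (hN : IsOpen N) {α A B : ℝ} {f g : ℂ → ℝ} (hf : NormLe N α A f)
    (hg : NormLe N α B g) : NormLe N α (A + B) (fun x => f x + g x) := by
  obtain ⟨df, a, b, c, ha, hb, hc, hs, h1, h2, h3⟩ := hf
  obtain ⟨dg, a', b', c', ha', hb', hc', hs', h1', h2', h3'⟩ := hg
  have hfd : ∀ x ∈ N, fderiv ℝ (fun x => f x + g x) x = fderiv ℝ f x + fderiv ℝ g x := by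
    intro x hx
    exact fderiv_add (df.differentiableAt (hN.mem_nhds hx)) (dg.differentiableAt (hN.mem_nhds hx))
  refine ⟨df.add dg, a + a', b + b', c + c', by positivity, by positivity, by positivity,
    by linarith, fun x hx => ?_, fun x hx => ?_, fun x hx y hy => ?_⟩
  · exact (abs_add_le _ _).trans (add_le_add (h1 x hx) (h1' x hx))
  · rw [hfd x hx]
    exact (norm_add_le _ _).trans (add_le_add (h2 x hx) (h2' x hx))
  · rw [hfd x hx, hfd y hy]
    have e : fderiv ℝ f x + fderiv ℝ g x - (fderiv ℝ f y + fderiv ℝ g y) =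
      (fderiv ℝ f x - fderiv ℝ f y) + (fderiv ℝ g x - fderiv ℝ g y) := by abel
    rw [e]
    refine (norm_add_le _ _).trans ?_
    have := h3 x hx y hy
    have := h3' x hx y hy
    linarith [add_mul c c' (‖x - y‖ ^ α)]

/-- no state is stable -/
theorem Surf.not_stable [T2Space X] [CompactSpace X] [ConnectedSpace X] (S : Surf X) {M : Set X}
    (hM : Fluid M) {α : ℝ} (hα : 0 < α) (hα1 : α < 1) {ws : X → ℝ} {K₀ : ℝ}
    (hws : S.Norm M α K₀ ws) : ¬ S.QStable M α ws := by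
  intro h
  obtain ⟨δ, hδ, h⟩ := h 1 one_pos
  obtain ⟨w₀, a, ρ, hρ, hB, h1, h2, h3, h4⟩ := S.instability hM hα hα1 hws hδ
  obtain ⟨ψ, Φ, hF, hC, hn⟩ := h w₀ a ρ hρ hB h1 h2 h3
  obtain ⟨t, ht, hnot⟩ := h4 ψ Φ hF hC (1 + K₀)
  apply hnot
  intro c
  have h5 := normLe_add (S.isOpen_D hM.1 c) (hn t ht c) (hws c)
  have e : (fun x => S.lapS (ψ t) (S.E c x) - ws (S.E c x) + ws (S.E c x)) =
      fun v => S.lapS (ψ t) (S.E c v) := by
    funext x; ring
  rw [e] at h5
  exact h5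

end Pool.Agent.YUS
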