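import Pool.Agent.YUS.PF
import Pool.Agent.YUS.A2
import Pool.Agent.YUS.A3
import Pool.Agent.YUS.A4

/-!
# [YUS-K1a] the flow at one point, seen in any chart
-/

open MeasureTheory Set Filter Topology
open scoped ContDiff

namespace Pool.Agent.YUS

open Pool.Agent.YUD Pool.Agent.YUT Pool.Agent.YUB Pool.Agent.YUR Pool.Agent.YUL

namespace K1a

theorem det_eq (A : ℂ →L[ℝ] ℂ) :
    A.det = (A 1).re * (A Complex.I).im - (A Complex.I).re * (A 1).im := by
  have h : A.det = LinearMap.det (A : ℂ →ₗ[ℝ] ℂ) := rfl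
  rw [h, ← LinearMap.det_toMatrix Complex.basisOneI, Matrix.det_fin_two]
  simp [LinearMap.toMatrix_apply, Complex.coe_basisOneI_repr, Complex.coe_basisOneI]

theorem det_smul_one (D : ℂ) : (D • (1 : ℂ →L[ℝ] ℂ)).det = ‖D‖ ^ 2 := by
  rw [det_eq, ← Complex.normSq_eq_norm_sq, Complex.normSq_apply]
  simp

theorem det_comp (A B : ℂ →L[ℝ] ℂ) : (A.comp B).det = A.det * B.det :=
  LinearMap.det_comp (A : ℂ →ₗ[ℝ] ℂ) (B : ℂ →ₗ[ℝ] ℂ)

theorem norm_smul_one_comp_le (D : ℂ) (A : ℂ →L[ℝ] ℂ) :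
    ‖(D • (1 : ℂ →L[ℝ] ℂ)).comp A‖ ≤ ‖D‖ * ‖A‖ := by
  refine ContinuousLinearMap.opNorm_le_bound _ (by positivity) fun x => ?_
  have h1 : ((D • (1 : ℂ →L[ℝ] ℂ)).comp A) x = D * A x := by simp
  rw [h1, norm_mul, mul_assoc]
  exact mul_le_mul_of_nonneg_left (A.le_opNorm x) (norm_nonneg _)

theorem perp_comp {φ : ℂ → ℝ} {T : ℂ → ℂ} {w D : ℂ} (hT : HasDerivAt T D w)
    (hφ : DifferentiableAt ℝ φ (T w)) :
    perp (fun u => φ (T u)) w = (starRingEnd ℂ) D * perp φ (T w) := by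
  have h1 : HasFDerivAt (fun u => φ (T u)) ((fderiv ℝ φ (T w)).comp (D • (1 : ℂ →L[ℝ] ℂ))) w :=
    hφ.hasFDerivAt.comp w hT.complexToReal_fderiv
  have h2 : ∀ z, fderiv ℝ (fun u => φ (T u)) w z = fderiv ℝ φ (T w) (D * z) := by
    intro z
    rw [h1.fderiv]
    simp
  have h3 : dx (fun u => φ (T u)) w = D.re * dx φ (T w) + D.im * dy φ (T w) := by
    unfold dx
    rw [h2, mul_one, fderiv_apply']
    unfold dx dy
    ring
  have h4 : dy (fun u => φ (T u)) w = -D.im * dx φ (T w) + D.re * dy φ (T w) := by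
    unfold dy
    rw [h2, fderiv_apply']
    unfold dx dy
    simp
  apply Complex.ext
  · simp only [perp, h3, h4, Complex.mul_re, Complex.conj_re, Complex.conj_im]
    ring
  · simp only [perp, h3, h4, Complex.mul_im, Complex.conj_re, Complex.conj_im]
    ring

section

variable {X : Type} [TopologicalSpace X] (S : Surf X)

theorem den_zero (c : X) : S.den c 0 = S.P c := by
  unfold Surf.den
  rw [S.center]
  simp

theorem mem_self (c : X) : c ∈ S.E c '' Metric.ball 0 S.ρ :=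
  ⟨0, Metric.mem_ball_self S.ρ_pos, S.center c⟩

theorem D_self {M : Set X} {x : X} (hx : x ∈ M) : (0 : ℂ) ∈ S.D M x := by
  refine ⟨by rw [norm_zero]; exact S.ρ_pos, ?_⟩
  rw [S.center]
  exact hx

theorem den_pos {c : X} {v : ℂ} (hv : ‖v‖ < S.ρ) : 0 < S.den c v := by
  unfold Surf.den
  have h0 : |S.κ * ‖v‖ ^ 2| ≤ 1 / 16 := by
    rw [abs_mul, abs_of_nonneg (by positivity : (0 : ℝ) ≤ ‖v‖ ^ 2)]
    refine (mul_le_mul_of_nonneg_left ?_ (abs_nonneg _)).trans S.κ_le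
    exact pow_le_pow_left₀ (norm_nonneg _) hv.le 2
  have h1 : 0 < 1 + S.κ * ‖v‖ ^ 2 := by
    have := (abs_le.1 h0).1
    linarith
  exact div_pos (S.P_pos _) (by positivity)

variable {S}
variable {M : Set X} {w₀ : X → ℝ} {ψ : ℝ → X → ℝ} {Φ : ℝ → X → X}

theorem flow_mem (hF : S.Flow M w₀ ψ Φ) {t : ℝ} (ht : 0 ≤ t) {x : X} (hx : x ∈ M) : Φ t x ∈ M :=
  (hF.bij t ht).mapsTo hx

theorem continuousAt_flow (hM : IsOpen M) (hF : S.Flow M w₀ ψ Φ) {t : ℝ} (ht : 0 ≤ t) {x : X}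
    (hx : x ∈ M) : ContinuousAt (Φ t) x := by
  have h1 : ContinuousOn (fun z : ℝ × X => Φ z.1 z.2) (Ici 0 ×ˢ M) := hF.Φ_cont
  have h2 : ContinuousOn (Φ t) M := by
    have h3 : ContinuousOn (fun x : X => ((t, x) : ℝ × X)) M := by fun_prop
    exact h1.comp h3 (fun x hx => ⟨ht, hx⟩)
  exact h2.continuousAt (hM.mem_nhds hx)

theorem continuousAt_E {a : X} {v : ℂ} (hv : v ∈ S.D M a) :
    ContinuousAt (S.E a) v :=
  (S.cont a).continuousAt (Metric.isOpen_ball.mem_nhds (by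
    rw [mem_ball_zero_iff]
    exact hv.1))

theorem nhds_chart (hM : IsOpen M) (hF : S.Flow M w₀ ψ Φ) {t : ℝ} (ht : 0 ≤ t) {a c' : X} {v : ℂ}
    (hv : v ∈ S.D M a) (hc' : Φ t (S.E a v) ∈ S.E c' '' Metric.ball 0 S.ρ) :
    ∀ᶠ u in 𝓝 v, u ∈ S.D M a ∧ Φ t (S.E a u) ∈ S.E c' '' Metric.ball 0 S.ρ := by
  have h0 : ∀ᶠ u in 𝓝 v, u ∈ S.D M a := (S.isOpen_D hM a).mem_nhds hv
  refine h0.and ?_
  have h1 : ContinuousAt (fun u => Φ t (S.E a u)) v :=
    (continuousAt_flow hM hF ht hv.2).comp (continuousAt_E hv)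
  exact h1 ((S.isOpen_chart c').mem_nhds hc')

theorem contDiffAt_flow (hM : IsOpen M) (hF : S.Flow M w₀ ψ Φ) {t : ℝ} (ht : 0 ≤ t) {a c' : X}
    {v : ℂ} (hv : v ∈ S.D M a) (hc' : Φ t (S.E a v) ∈ S.E c' '' Metric.ball 0 S.ρ) :
    ContDiffAt ℝ 1 (fun u => S.iv c' (Φ t (S.E a u))) v := by
  have h1 : ContDiffOn ℝ 1 (fun u => S.iv c' (Φ t (S.E a u)))
      {u | u ∈ S.D M a ∧ Φ t (S.E a u) ∈ S.E c' '' Metric.ball 0 S.ρ} := by
    have h2 : ContDiffOn ℝ 1 (fun u : ℂ => ((t, u) : ℝ × ℂ))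
        {u | u ∈ S.D M a ∧ Φ t (S.E a u) ∈ S.E c' '' Metric.ball 0 S.ρ} :=
      (contDiff_const.prodMk contDiff_id).contDiffOn
    exact (hF.c1 a c').comp h2 (fun u hu => ⟨ht, hu.1, hu.2⟩)
  exact h1.contDiffAt (nhds_chart hM hF ht hv hc')

/-- change of the target chart -/
theorem hasFDerivAt_target (hM : IsOpen M) (hF : S.Flow M w₀ ψ Φ) {t : ℝ} (ht : 0 ≤ t) {a c' : X}
    {v : ℂ} (hv : v ∈ S.D M a) {D : ℂ}
    (hD : HasDerivAt (fun w => S.iv c' (S.E (Φ t (S.E a v)) w)) D 0) :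
    HasFDerivAt (fun u => S.iv c' (Φ t (S.E a u)))
      ((D • (1 : ℂ →L[ℝ] ℂ)).comp
        (fderiv ℝ (fun u => S.iv (Φ t (S.E a v)) (Φ t (S.E a u))) v)) v := by
  set y := Φ t (S.E a v) with hy
  have h1 : HasFDerivAt (fun u => S.iv y (Φ t (S.E a u)))
      (fderiv ℝ (fun u => S.iv y (Φ t (S.E a u))) v) v :=
    ((contDiffAt_flow hM hF ht hv (mem_self S _)).differentiableAt (by norm_num)).hasFDerivAt
  have h0 : S.iv y (Φ t (S.E a v)) = 0 := S.iv_self y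
  have h2 : HasFDerivAt (fun w => S.iv c' (S.E y w)) (D • (1 : ℂ →L[ℝ] ℂ))
      (S.iv y (Φ t (S.E a v))) := by
    rw [h0]
    exact hD.complexToReal_fderiv
  refine (h2.comp v h1).congr_of_eventuallyEq ?_
  filter_upwards [nhds_chart hM hF ht hv (mem_self S y)] with u hu
  simp only [Function.comp_apply]
  rw [(S.E_iv hu.2).1]

/-- change of the source chart -/
theorem hasFDerivAt_source (hM : IsOpen M) (hF : S.Flow M w₀ ψ Φ) {t : ℝ} (ht : 0 ≤ t) {a c' : X}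
    {v : ℂ} (hv : v ∈ S.D M a) (hc' : Φ t (S.E a v) ∈ S.E c' '' Metric.ball 0 S.ρ) {D : ℂ}
    (hD : HasDerivAt (fun w => S.iv (S.E a v) (S.E a w)) D v) :
    HasFDerivAt (fun u => S.iv c' (Φ t (S.E a u)))
      ((fderiv ℝ (fun u => S.iv c' (Φ t (S.E (S.E a v) u))) 0).comp (D • (1 : ℂ →L[ℝ] ℂ))) v := by
  set x := S.E a v with hx
  have hx0 : Φ t (S.E x 0) ∈ S.E c' '' Metric.ball 0 S.ρ := by
    rw [S.center]
    exact hc'
  have h1 : HasFDerivAt (fun u => S.iv c' (Φ t (S.E x u)))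
      (fderiv ℝ (fun u => S.iv c' (Φ t (S.E x u))) 0) 0 :=
    ((contDiffAt_flow hM hF ht (D_self S hv.2) hx0).differentiableAt (by norm_num)).hasFDerivAt
  have h0 : S.iv x (S.E a v) = 0 := S.iv_self x
  have h2 : HasFDerivAt (fun w => S.iv x (S.E a w)) (D • (1 : ℂ →L[ℝ] ℂ)) v :=
    hD.complexToReal_fderiv
  have h1' : HasFDerivAt (fun u => S.iv c' (Φ t (S.E x u)))
      (fderiv ℝ (fun u => S.iv c' (Φ t (S.E x u))) 0) (S.iv x (S.E a v)) := by
    rw [h0]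
    exact h1
  refine (h1'.comp v h2).congr_of_eventuallyEq ?_
  have h3 : ∀ᶠ u in 𝓝 v, S.E a u ∈ S.E x '' Metric.ball 0 S.ρ :=
    (continuousAt_E hv) ((S.isOpen_chart x).mem_nhds (mem_self S x))
  filter_upwards [h3] with u hu
  simp only [Function.comp_apply]
  rw [(S.E_iv hu).1]

end

end K1a

namespace Surf

variable {X : Type} [TopologicalSpace X] (S : Surf X)

open K1a in
/-- [K1a] the flow at one point, seen in any chart -/
theorem local_facts {M : Set X} (hM : IsOpen M) {w₀ : X → ℝ} {ψ : ℝ → X → ℝ} {Φ : ℝ → X → X}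
    (hF : S.Flow M w₀ ψ Φ) {a : X} {L t : ℝ} (ht : 0 ≤ t) {v : ℂ} (hv : v ∈ S.D M a)
    (hL : ‖fderiv ℝ (fun u => S.iv (Φ t (S.E a v)) (Φ t (S.E a u))) v‖ ≤ L) {c' : X}
    (hc' : Φ t (S.E a v) ∈ S.E c' '' Metric.ball 0 S.ρ) :
    S.iv c' (Φ t (S.E a v)) ∈ S.D M c' ∧
    ContDiffAt ℝ 1 (fun u => S.iv c' (Φ t (S.E a u))) v ∧
    ‖fderiv ℝ (fun u => S.iv c' (Φ t (S.E a u))) v‖ ≤ 2 * L ∧
    (fderiv ℝ (fun u => S.iv c' (Φ t (S.E a u))) v).det * S.den c' (S.iv c' (Φ t (S.E a v))) =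
      S.den a v ∧
    lap (fun u => ψ t (S.E c' u)) (S.iv c' (Φ t (S.E a v))) =
      S.den c' (S.iv c' (Φ t (S.E a v))) * w₀ (S.E a v) ∧
    HasDerivWithinAt (fun t' => S.iv c' (Φ t' (S.E a v)))
      ((S.den c' (S.iv c' (Φ t (S.E a v))))⁻¹ •
        perp (fun u => ψ t (S.E c' u)) (S.iv c' (Φ t (S.E a v)))) (Ici 0) t := by
  have hx : S.E a v ∈ M := hv.2
  have hyM : Φ t (S.E a v) ∈ M := flow_mem hF ht hx
  obtain ⟨hE, hn⟩ := S.E_iv hc'
  have hDc : S.iv c' (Φ t (S.E a v)) ∈ S.D M c' := ⟨hn, by rw [hE]; exact hyM⟩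
  -- the transition map from the chart at y to the chart at c'
  have hy0 : S.E (Φ t (S.E a v)) 0 ∈ S.E c' '' Metric.ball 0 S.ρ := by
    rw [S.center]
    exact hc'
  obtain ⟨D, hD1, hD2, hD, hDc2, hDd⟩ := S.trans (c := Φ t (S.E a v)) (c' := c') (v := 0)
    (by rw [norm_zero]; exact S.ρ_pos) hy0
  rw [S.center, den_zero] at hDd
  -- the transition map from the chart at a to the chart at x
  obtain ⟨D', hD1', hD2', hD', -, hDd'⟩ := S.trans (c := a) (c' := S.E a v) (v := v) hv.1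
    (mem_self S _)
  rw [S.iv_self, den_zero] at hDd'
  have hfd := hasFDerivAt_target hM hF ht hv hD
  have hfs := hasFDerivAt_source hM hF ht hv (mem_self S (Φ t (S.E a v))) hD'
  have hdc : 0 < S.den c' (S.iv c' (Φ t (S.E a v))) := den_pos S hn
  have hPy := S.P_pos (Φ t (S.E a v))
  have harea := hF.area t ht (S.E a v) hx
  refine ⟨hDc, contDiffAt_flow hM hF ht hv hc', ?_, ?_, ?_, ?_⟩
  · rw [hfd.fderiv]
    refine (norm_smul_one_comp_le D _).trans ?_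
    exact mul_le_mul hD2 hL (norm_nonneg _) (by norm_num)
  · rw [hfd.fderiv, det_comp, det_smul_one, hfs.fderiv, det_comp, det_smul_one]
    rw [← hDd']
    rw [← harea]
    rw [← hDd]
    ring
  · have h1 : ContDiffAt ℝ 2 (fun w => ψ t (S.E c' w)) (S.iv c' (Φ t (S.E a v))) := by
      obtain ⟨C, hC⟩ := hF.stream t
      exact (hC t ht le_rfl c').1.contDiffAt ((S.isOpen_D hM c').mem_nhds hDc)
    rw [S.lap_chart hn h1, hE, hF.vort t ht _ hx]
  · have h1 : DifferentiableAt ℝ (fun w => ψ t (S.E c' w)) (S.iv c' (Φ t (S.E a v))) := by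
      obtain ⟨C, hC⟩ := hF.stream t
      exact ((hC t ht le_rfl c').1.contDiffAt ((S.isOpen_D hM c').mem_nhds hDc)).differentiableAt
        (by norm_num)
    have hode := hF.ode t ht (S.E a v) hx
    have h0 : S.iv (Φ t (S.E a v)) (Φ t (S.E a v)) = 0 := S.iv_self _
    have h2 : HasFDerivAt (fun w => S.iv c' (S.E (Φ t (S.E a v)) w)) (D • (1 : ℂ →L[ℝ] ℂ))
        (S.iv (Φ t (S.E a v)) (Φ t (S.E a v))) := by
      rw [h0]
      exact hD.complexToReal_fderiv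
    have h3 := h2.comp_hasDerivWithinAt t hode
    have h4 : perp (fun u => ψ t (S.E (Φ t (S.E a v)) u)) 0 =
        (starRingEnd ℂ) D * perp (fun u => ψ t (S.E c' u)) (S.iv c' (Φ t (S.E a v))) := by
      have h5 : (fun u => ψ t (S.E (Φ t (S.E a v)) u)) =ᶠ[𝓝 0]
          (fun u => (fun w => ψ t (S.E c' w)) (S.iv c' (S.E (Φ t (S.E a v)) u))) := by
        have h6 : ∀ᶠ u in 𝓝 (0 : ℂ), S.E (Φ t (S.E a v)) u ∈ S.E c' '' Metric.ball 0 S.ρ := by
          have h7 : ContinuousAt (S.E (Φ t (S.E a v))) 0 :=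
            continuousAt_E (D_self S hyM)
          exact h7 ((S.isOpen_chart c').mem_nhds (by rw [S.center]; exact hc'))
        filter_upwards [h6] with u hu
        rw [(S.E_iv hu).1]
      have h8 : perp (fun u => ψ t (S.E (Φ t (S.E a v)) u)) 0 =
          perp (fun u => (fun w => ψ t (S.E c' w)) (S.iv c' (S.E (Φ t (S.E a v)) u))) 0 := by
        unfold perp
        rw [dx_congr_nhds h5, dy_congr_nhds h5]
      rw [h8]
      have h9 := perp_comp (φ := fun w => ψ t (S.E c' w)) hD (by rw [S.center]; exact h1)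
      rw [h9, S.center]
    have h5 : (D • (1 : ℂ →L[ℝ] ℂ)) ((S.P (Φ t (S.E a v)))⁻¹ •
        perp (fun u => ψ t (S.E (Φ t (S.E a v)) u)) 0) =
        (S.den c' (S.iv c' (Φ t (S.E a v))))⁻¹ •
          perp (fun u => ψ t (S.E c' u)) (S.iv c' (Φ t (S.E a v))) := by
      rw [h4]
      set Q := perp (fun u => ψ t (S.E c' u)) (S.iv c' (Φ t (S.E a v)))
      have h6 : (D • (1 : ℂ →L[ℝ] ℂ)) ((S.P (Φ t (S.E a v)))⁻¹ • ((starRingEnd ℂ) D * Q)) =
          (((S.P (Φ t (S.E a v)))⁻¹ : ℝ) : ℂ) * (D * (starRingEnd ℂ) D) * Q := by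
        simp only [smul_apply, one_apply_eq_self, Complex.real_smul, smul_eq_mul]
        ring
      rw [h6, Complex.mul_conj, Complex.normSq_eq_norm_sq, ← Complex.ofReal_mul, Complex.real_smul]
      congr 2
      rw [← hDd]
      have hDn : ‖D‖ ≠ 0 := by
        intro h
        rw [h] at hD1
        norm_num at hD1
      field_simp
    rw [h5] at h3
    have h6 : ContinuousWithinAt (fun t' => Φ t' (S.E a v)) (Ici 0) t := by
      have h7 : ContinuousOn (fun z : ℝ × X => Φ z.1 z.2) (Ici 0 ×ˢ M) := hF.Φ_cont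
      have h8 : ContinuousOn (fun t' : ℝ => ((t', S.E a v) : ℝ × X)) (Ici 0) := by fun_prop
      exact (h7.comp h8 (fun t' ht' => ⟨ht', hx⟩)) t ht
    have h7 : ∀ᶠ t' in 𝓝[Ici 0] t, Φ t' (S.E a v) ∈ S.E (Φ t (S.E a v)) '' Metric.ball 0 S.ρ :=
      h6 ((S.isOpen_chart _).mem_nhds (mem_self S _))
    refine h3.congr_of_eventuallyEq ?_ ?_
    · filter_upwards [h7] with t' ht'
      simp only [Function.comp_apply]
      rw [(S.E_iv ht').1]
    · simp only [Function.comp_apply]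
      rw [(S.E_iv (mem_self S _)).1]

end Surf

end Pool.Agent.YUS
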