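import Pool.Agent.YUS.PF
import Pool.Agent.YUS.A2
import Pool.Agent.YUS.G1
import Pool.Agent.YUS.K1a

/-!
# [YUS-G2] the deformation is bounded
-/

open MeasureTheory Set Filter Topology
open scoped ContDiff

namespace Pool.Agent.YUS

open Pool.Agent.YUD Pool.Agent.YUT Pool.Agent.YUB Pool.Agent.YUR Pool.Agent.YUL

namespace G2

theorem rough_mono {M U : Set ℂ} {γ c : ℝ} {w : ℂ → ℝ} (hr : RoughC M γ c w) (hU : IsOpen U)
    (hUM : U ⊆ M) : RoughC U γ c w := by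
  intro x₀ hx₀ e he δ hδ
  obtain ⟨r, hr0, hball⟩ := Metric.isOpen_iff.1 hU x₀ hx₀
  obtain ⟨x, s, hs0, hsδ, hxδ, hb, hcs⟩ := hr x₀ (hUM hx₀) e he (min δ (r / 2))
    (lt_min hδ (by linarith))
  refine ⟨x, s, hs0, hsδ.trans_le (min_le_left _ _), hxδ.trans_le (min_le_left _ _), ?_, hcs⟩
  intro z hz
  apply hball
  rw [Metric.mem_closedBall] at hz
  rw [Metric.mem_ball]
  have h1 : dist x x₀ < r / 2 := by
    rw [dist_eq_norm]
    exact hxδ.trans_le (min_le_right _ _)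
  have h2 : s < r / 2 := hsδ.trans_le (min_le_right _ _)
  linarith [dist_triangle z x x₀]

end G2

namespace Surf

variable {X : Type} [TopologicalSpace X] (S : Surf X)

theorem deform_bound {M : Set X} (hM : IsOpen M) {w₀ : X → ℝ} {ψ : ℝ → X → ℝ} {Φ : ℝ → X → X}
    (hF : S.Flow M w₀ ψ Φ) (hC : S.FlowC2 M Φ) {α K c ρ₀ : ℝ} (hα : 0 < α) (hα1 : α < 1)
    (hK : ∀ t, 0 ≤ t → S.Norm M α K (S.lapS (ψ t))) {a : X} (hc : 0 < c)
    (hB : Metric.ball 0 ρ₀ ⊆ S.D M a) (hρ : ρ₀ ≤ S.ρ / 4) (hP : ∃ C : ℝ, 1 ≤ C ∧ ∀ x, S.P x ≤ C ∧ 1 ≤ C * S.P x)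
    (hR : RoughC (Metric.ball 0 ρ₀) (1 + α) c (fun v => w₀ (S.E a v))) :
    ∃ L : ℝ, 1 ≤ L ∧ ∀ t, 0 ≤ t → ∀ v ∈ Metric.ball (0 : ℂ) ρ₀,
      ‖fderiv ℝ (fun u => S.iv (Φ t (S.E a v)) (Φ t (S.E a u))) v‖ ≤ L := by
  obtain ⟨C, hC1, hPC⟩ := hP
  have h1α : 0 < 1 + α := by linarith
  set B : ℝ := 2 * C * C with hBdef
  have hB0 : 0 < B := by positivity
  refine ⟨max 1 ((2 * K * B ^ (1 + α) / c) ^ (1 / (1 + α))), le_max_left _ _, ?_⟩
  intro t ht v hv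
  have hvD : v ∈ S.D M a := hB hv
  have hxM : S.E a v ∈ M := hvD.2
  set y := Φ t (S.E a v) with hy
  have hyM : y ∈ M := (hF.bij t ht).mapsTo hxM
  have hyy : y ∈ S.E y '' Metric.ball 0 S.ρ := ⟨0, Metric.mem_ball_self S.ρ_pos, S.center y⟩
  -- the domain
  set U : Set ℂ := {u | u ∈ Metric.ball (0 : ℂ) ρ₀ ∧ Φ t (S.E a u) ∈ S.E y '' Metric.ball 0 S.ρ}
    with hUdef
  have hcE : ContinuousOn (S.E a) (Metric.ball 0 ρ₀) := (S.cont a).mono (fun u hu => by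
    rw [mem_ball_zero_iff]
    exact (hB hu).1)
  have hcΦ : ContinuousOn (Φ t) M := by
    have h1 : ContinuousOn (fun z : ℝ × X => Φ z.1 z.2) (Ici 0 ×ˢ M) := hF.Φ_cont
    have h3 : ContinuousOn (fun x : X => ((t, x) : ℝ × X)) M := by fun_prop
    exact h1.comp h3 (fun x hx => ⟨ht, hx⟩)
  have hUo : IsOpen U := (hcΦ.comp hcE (fun u hu => (hB hu).2)).isOpen_inter_preimage
    Metric.isOpen_ball (S.isOpen_chart y)
  have hUB : U ⊆ Metric.ball 0 ρ₀ := fun u hu => hu.1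
  have hvU : v ∈ U := ⟨hv, hyy⟩
  have hΦ : ContDiffOn ℝ 2 (fun u => S.iv y (Φ t (S.E a u))) U :=
    (hC t ht a y).mono (fun u hu => ⟨hB hu.1, hu.2⟩)
  have hmap : MapsTo (fun u => S.iv y (Φ t (S.E a u))) U (S.D M y) := by
    intro u hu
    obtain ⟨h1, h2⟩ := S.E_iv hu.2
    refine ⟨h2, ?_⟩
    rw [h1]
    exact (hF.bij t ht).mapsTo (hB hu.1).2
  -- the determinant
  obtain ⟨-, -, -, hdet, -, -⟩ := S.local_facts hM hF ht hvD le_rfl (c' := y) hyy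
  rw [← hy, S.iv_self] at hdet
  have hd0 : S.den y 0 = S.P y := by
    unfold Surf.den
    rw [S.center]
    simp
  rw [hd0] at hdet
  have hPy := S.P_pos y
  have hPx := S.P_pos (S.E a v)
  have hκ : |S.κ * ‖v‖ ^ 2| ≤ 1 / 16 := by
    rw [abs_mul, abs_of_nonneg (by positivity : (0 : ℝ) ≤ ‖v‖ ^ 2)]
    refine (mul_le_mul_of_nonneg_left ?_ (abs_nonneg _)).trans S.κ_le
    exact pow_le_pow_left₀ (norm_nonneg _) hvD.1.le 2
  have hκ1 := (abs_le.1 hκ).1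
  have hden : S.den a v ≤ 2 * C := by
    unfold Surf.den
    have h1 : (1 : ℝ) / 2 ≤ (1 + S.κ * ‖v‖ ^ 2) ^ 2 := by nlinarith
    rw [div_le_iff₀ (by linarith)]
    have h2 := (hPC (S.E a v)).1
    nlinarith
  have hden0 : 0 < S.den a v := by
    unfold Surf.den
    have h1 : 0 < 1 + S.κ * ‖v‖ ^ 2 := by linarith
    exact div_pos hPx (by positivity)
  have hdet0 : 0 < (fderiv ℝ (fun u => S.iv y (Φ t (S.E a u))) v).det := by
    by_contra h
    push Not at h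
    have := mul_nonpos_of_nonpos_of_nonneg h hPy.le
    linarith
  have hdetB : |(fderiv ℝ (fun u => S.iv y (Φ t (S.E a u))) v).det| ≤ B := by
    rw [abs_of_pos hdet0]
    have h1 := (hPC y).2
    have h2 : (fderiv ℝ (fun u => S.iv y (Φ t (S.E a u))) v).det * 1 ≤
        (fderiv ℝ (fun u => S.iv y (Φ t (S.E a u))) v).det * (C * S.P y) :=
      mul_le_mul_of_nonneg_left h1 hdet0.le
    have h3 : (fderiv ℝ (fun u => S.iv y (Φ t (S.E a u))) v).det * (C * S.P y) =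
        C * S.den a v := by
      rw [← hdet]
      ring
    have h4 : C * S.den a v ≤ C * (2 * C) := mul_le_mul_of_nonneg_left hden (by linarith)
    rw [hBdef]
    linarith
  have key := rough_det hUo (S.isOpen_D hM y) hα hα1 (w₀ := fun u => w₀ (S.E a u))
    (w := fun u => S.lapS (ψ t) (S.E y u)) hΦ hmap hvU hdet0.ne' hdetB (fun u hu => by
      show S.lapS (ψ t) (S.E y (S.iv y (Φ t (S.E a u)))) = w₀ (S.E a u)
      rw [(S.E_iv hu.2).1, hF.vort t ht _ (hB hu.1).2]) (G2.rough_mono hR hUo hUB) (hK t ht y)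
  refine le_trans ?_ (le_max_right _ _)
  set l := ‖fderiv ℝ (fun u => S.iv y (Φ t (S.E a u))) v‖ with hl
  have hl0 : 0 ≤ l := norm_nonneg _
  have h5 : l ^ (1 + α) ≤ 2 * K * B ^ (1 + α) / c := by
    rw [le_div_iff₀ hc]
    linarith
  have h6 := Real.rpow_le_rpow (Real.rpow_nonneg hl0 _) h5 (by positivity : (0 : ℝ) ≤ 1 / (1 + α))
  rwa [← Real.rpow_mul hl0, mul_one_div_cancel h1α.ne', Real.rpow_one] at h6

end Surf

end Pool.Agent.YUS
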