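import Pool.Agent.YUS.PF
import Pool.Agent.YUS.A1
import Pool.Agent.YUS.A2
import Pool.Agent.YUS.A3
import Pool.Agent.YUS.K1a

/-!
# [YUS-K1b] the flow stays in the moving chart; covering in the plane
-/

open MeasureTheory Set Filter Topology
open scoped ContDiff

namespace Pool.Agent.YUS

open Pool.Agent.YUD Pool.Agent.YUT Pool.Agent.YUB Pool.Agent.YUR Pool.Agent.YUL

namespace K1b

/-- open-closed argument on the unit interval -/
theorem open_closed {P : ℝ → Prop} (h0 : P 0)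
    (hopen : ∀ x ∈ Icc (0 : ℝ) 1, P x → ∀ᶠ y in 𝓝[Icc (0 : ℝ) 1] x, P y)
    (hclosed : ∀ x ∈ Ioc (0 : ℝ) 1, (∀ y ∈ Ico (0 : ℝ) x, P y) → P x) :
    ∀ x ∈ Icc (0 : ℝ) 1, P x := by
  by_contra hcon
  push Not at hcon
  obtain ⟨z, hz, hPz⟩ := hcon
  set B : Set ℝ := {x | x ∈ Icc (0 : ℝ) 1 ∧ ¬ P x} with hB
  have hBne : B.Nonempty := ⟨z, hz, hPz⟩
  have hBbd : BddBelow B := ⟨0, fun x hx => hx.1.1⟩
  set m := sInf B with hm
  have hm0 : 0 ≤ m := le_csInf hBne fun x hx => hx.1.1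
  have hm1 : m ≤ 1 := (csInf_le hBbd ⟨hz, hPz⟩).trans hz.2
  have hbelow : ∀ y ∈ Ico (0 : ℝ) m, P y := by
    intro y hy
    by_contra hPy
    exact absurd (csInf_le hBbd ⟨⟨hy.1, hy.2.le.trans hm1⟩, hPy⟩) (not_le.2 hy.2)
  have hPm : P m := by
    rcases eq_or_lt_of_le hm0 with h | h
    · rw [← h]; exact h0
    · exact hclosed m ⟨h, hm1⟩ hbelow
  have hev := hopen m ⟨hm0, hm1⟩ hPm
  rw [eventually_nhdsWithin_iff, Metric.eventually_nhds_iff] at hev
  obtain ⟨ε, hε, hev⟩ := hev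
  obtain ⟨y, hyB, hy⟩ := exists_lt_of_csInf_lt hBne (show sInf B < m + ε by linarith)
  have hym : m ≤ y := csInf_le hBbd hyB
  refine hyB.2 (hev ?_ hyB.1)
  rw [Real.dist_eq, abs_lt]
  constructor <;> linarith

end K1b

open K1b

/-- [K1b2] covering, in the plane -/
theorem cover_plane {f : ℂ → ℂ} {r₁ L : ℝ} (hL : 0 < L)
    (hf : ContDiffOn ℝ 1 f (Metric.ball 0 r₁)) (h0 : f 0 = 0) (hi : InjOn f (Metric.ball 0 r₁))
    (hlow : ∀ v ∈ Metric.ball (0 : ℂ) r₁, ∀ w : ℂ, ‖w‖ ≤ L * ‖fderiv ℝ f v w‖) :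
    ∀ r, 0 < r → r ≤ r₁ → Metric.ball 0 (r / L) ⊆ f '' Metric.ball 0 r := by
  intro r hr hrr u hu
  have hu' : ‖u‖ < r / L := by simpa using hu
  have hLu : L * ‖u‖ < r := by rwa [lt_div_iff₀' hL] at hu'
  have hr₁ : 0 < r₁ := hr.trans_le hrr
  -- the derivatives are invertible
  have hker : ∀ v ∈ Metric.ball (0 : ℂ) r₁, ∃ e : ℂ ≃L[ℝ] ℂ,
      (e : ℂ →L[ℝ] ℂ) = fderiv ℝ f v ∧ ∀ w, ‖e.symm w‖ ≤ L * ‖w‖ := by
    intro v hv
    have hinj : Function.Injective (fderiv ℝ f v : ℂ →ₗ[ℝ] ℂ) := by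
      rw [injective_iff_map_eq_zero]
      intro w hw
      have h1 := hlow v hv w
      have h2 : fderiv ℝ f v w = 0 := hw
      rw [h2] at h1
      simpa using h1
    refine ⟨(LinearEquiv.ofInjectiveEndo (fderiv ℝ f v : ℂ →ₗ[ℝ] ℂ) hinj).toContinuousLinearEquiv,
      ?_, ?_⟩
    · ext w; all_goals rfl
    · intro w
      set e := (LinearEquiv.ofInjectiveEndo (fderiv ℝ f v : ℂ →ₗ[ℝ] ℂ) hinj).toContinuousLinearEquiv
        with he
      have h1 := hlow v hv (e.symm w)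
      have h2 : fderiv ℝ f v (e.symm w) = w := by
        have : e (e.symm w) = w := e.apply_symm_apply w
        exact this
      rwa [h2] at h1
  have hstrict : ∀ v ∈ Metric.ball (0 : ℂ) r₁, HasStrictFDerivAt f (fderiv ℝ f v) v := by
    intro v hv
    exact (hf.contDiffAt (Metric.isOpen_ball.mem_nhds hv)).hasStrictFDerivAt one_ne_zero
  have hmap : ∀ v ∈ Metric.ball (0 : ℂ) r₁, map f (𝓝 v) = 𝓝 (f v) := by
    intro v hv
    obtain ⟨e, he, -⟩ := hker v hv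
    have := hstrict v hv
    rw [← he] at this
    exact this.map_nhds_eq_of_equiv
  set V : Set ℂ := f '' Metric.ball 0 r₁ with hV
  have hVo : IsOpen V := by
    rw [isOpen_iff_mem_nhds]
    rintro _ ⟨v, hv, rfl⟩
    rw [← hmap v hv]
    exact image_mem_map (Metric.isOpen_ball.mem_nhds hv)
  set g : ℂ → ℂ := Function.invFunOn f (Metric.ball 0 r₁) with hg
  have hgf : ∀ v ∈ Metric.ball (0 : ℂ) r₁, g (f v) = v := fun v hv => hi.leftInvOn_invFunOn hv
  have hfg : ∀ y ∈ V, f (g y) = y := by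
    rintro _ ⟨v, hv, rfl⟩
    rw [hgf v hv]
  have hgmem : ∀ y ∈ V, g y ∈ Metric.ball (0 : ℂ) r₁ := by
    rintro _ ⟨v, hv, rfl⟩
    rw [hgf v hv]; exact hv
  have hgderiv : ∀ y ∈ V, ∃ G : ℂ →L[ℝ] ℂ, HasFDerivAt g G y ∧ ∀ w, ‖G w‖ ≤ L * ‖w‖ := by
    rintro _ ⟨v, hv, rfl⟩
    obtain ⟨e, he, heL⟩ := hker v hv
    refine ⟨(e.symm : ℂ →L[ℝ] ℂ), ?_, heL⟩
    have hcont : ContinuousAt g (f v) := by
      rw [ContinuousAt, ← hmap v hv, tendsto_map'_iff, hgf v hv]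
      refine Tendsto.congr' ?_ tendsto_id
      filter_upwards [Metric.isOpen_ball.mem_nhds hv] with v' hv'
      simp [hgf v' hv']
    refine HasFDerivAt.of_local_left_inverse (f := f) hcont ?_ ?_
    · rw [hgf v hv, he]
      exact (hstrict v hv).hasFDerivAt
    · filter_upwards [hVo.mem_nhds ⟨v, hv, rfl⟩] with y hy
      exact hfg y hy
  -- bound along the segment
  have hbound : ∀ s : ℝ, 0 ≤ s → (∀ s' ∈ Icc (0 : ℝ) s, (s' : ℝ) • u ∈ V) →
      ‖g (s • u)‖ ≤ L * ‖u‖ * s := by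
    intro s hs hall
    have hd : ∀ x ∈ Icc (0 : ℝ) s, ∃ G : ℂ, HasDerivAt (fun s' : ℝ => g (s' • u)) G x ∧
        ‖G‖ ≤ L * ‖u‖ := by
      intro x hx
      obtain ⟨G, hG, hGL⟩ := hgderiv _ (hall x hx)
      refine ⟨G u, ?_, hGL u⟩
      have h1 : HasDerivAt (fun s' : ℝ => s' • u) u x := by
        simpa using (hasDerivAt_id x).smul_const u
      exact hG.comp_hasDerivAt x h1
    have := norm_image_sub_le_of_norm_deriv_le_segment' (f := fun s' : ℝ => g (s' • u))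
      (f' := fun x => deriv (fun s' : ℝ => g (s' • u)) x) (a := 0) (b := s) (C := L * ‖u‖)
      (fun x hx => by
        obtain ⟨G, hG, -⟩ := hd x hx
        rw [hG.deriv]
        exact hG.hasDerivWithinAt)
      (fun x hx => by
        obtain ⟨G, hG, hGL⟩ := hd x ⟨hx.1, hx.2.le⟩
        rw [hG.deriv]
        exact hGL) s ⟨hs, le_rfl⟩
    have hg0 : g ((0 : ℝ) • u) = 0 := by
      rw [zero_smul, ← h0]
      exact (hgf 0 (by simpa using hr₁)).trans h0.symm
    beta_reduce at this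
    rw [hg0, sub_zero, sub_zero] at this
    exact this
  have hcb : Metric.closedBall (0 : ℂ) (L * ‖u‖) ⊆ Metric.ball 0 r₁ :=
    Metric.closedBall_subset_ball (hLu.trans_le hrr)
  have hK : IsCompact (f '' Metric.closedBall (0 : ℂ) (L * ‖u‖)) :=
    (isCompact_closedBall _ _).image_of_continuousOn (hf.continuousOn.mono hcb)
  have hall : ∀ x ∈ Icc (0 : ℝ) 1, x • u ∈ V := by
    refine open_closed (P := fun x => x • u ∈ V) ?_ ?_ ?_
    · exact ⟨0, by simpa using hr₁, by simpa using h0⟩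
    · intro x _ hx
      have hc : ContinuousAt (fun s' : ℝ => s' • u) x := by fun_prop
      exact (hc.eventually (hVo.mem_nhds hx)).filter_mono nhdsWithin_le_nhds
    · intro x hx hlt
      have hC : IsClosed {s' : ℝ | s' • u ∈ f '' Metric.closedBall (0 : ℂ) (L * ‖u‖)} :=
        hK.isClosed.preimage (by fun_prop : Continuous fun s' : ℝ => s' • u)
      have hsub : Ico (0 : ℝ) x ⊆ {s' : ℝ | s' • u ∈ f '' Metric.closedBall (0 : ℂ) (L * ‖u‖)} := by
        intro y hy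
        have hyV := hlt y hy
        have h1 := hbound y hy.1 fun s' hs' => hlt s' ⟨hs'.1, hs'.2.trans_lt hy.2⟩
        refine ⟨g (y • u), ?_, hfg _ hyV⟩
        rw [mem_closedBall_zero_iff]
        refine h1.trans ?_
        have : y ≤ 1 := hy.2.le.trans hx.2
        have h3 : 0 ≤ L * ‖u‖ := by positivity
        nlinarith
      have hmem : x ∈ closure (Ico (0 : ℝ) x) := by
        rw [closure_Ico hx.1.ne]
        exact ⟨hx.1.le, le_rfl⟩
      exact image_mono hcb (closure_minimal hsub hC hmem)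
  have huV : u ∈ V := by simpa using hall 1 ⟨zero_le_one, le_rfl⟩
  have hgu := hbound 1 zero_le_one hall
  simp only [one_smul, mul_one] at hgu
  refine ⟨g u, ?_, hfg u huV⟩
  rw [mem_ball_zero_iff]
  exact hgu.trans_lt hLu

namespace Surf

variable {X : Type} [TopologicalSpace X] (S : Surf X)

/-- [K1b1] the flow stays in the moving chart -/
theorem stays {M : Set X} (hM : IsOpen M) {w₀ : X → ℝ} {ψ : ℝ → X → ℝ} {Φ : ℝ → X → X}
    (hF : S.Flow M w₀ ψ Φ) {a : X} {ρ₀ L r₁ : ℝ} (hB : Metric.ball 0 ρ₀ ⊆ S.D M a) (hL1 : 1 ≤ L)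
    (hL : ∀ t, 0 ≤ t → ∀ v ∈ Metric.ball (0 : ℂ) ρ₀,
      ‖fderiv ℝ (fun u => S.iv (Φ t (S.E a v)) (Φ t (S.E a u))) v‖ ≤ L)
    (hr₁ : r₁ ≤ ρ₀) (hr₂ : 2 * L * r₁ < S.ρ) : ∀ t, 0 ≤ t → ∀ v ∈ Metric.ball (0 : ℂ) r₁,
      Φ t (S.E a v) ∈ S.E (Φ t a) '' Metric.closedBall 0 (2 * L * ‖v‖) := by
  intro t ht v hv
  have hv' : ‖v‖ < r₁ := by simpa using hv
  have hρ := S.ρ_pos
  have hseg : ∀ x ∈ Icc (0 : ℝ) 1, x • v ∈ Metric.ball (0 : ℂ) ρ₀ := by
    intro x hx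
    rw [mem_ball_zero_iff, norm_smul, Real.norm_eq_abs, abs_of_nonneg hx.1]
    have : x * ‖v‖ ≤ 1 * ‖v‖ := mul_le_mul_of_nonneg_right hx.2 (norm_nonneg _)
    linarith
  have hsegD : ∀ x ∈ Icc (0 : ℝ) 1, x • v ∈ S.D M a := fun x hx => hB (hseg x hx)
  set m : ℝ := 2 * L * ‖v‖ with hm
  have hm0 : 0 ≤ m := by positivity
  have hmρ : m < S.ρ := by
    refine lt_of_le_of_lt ?_ hr₂
    rw [hm]
    exact mul_le_mul_of_nonneg_left hv'.le (by linarith)
  set c : X := Φ t a with hc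
  -- continuity of the path
  have hcont : ContinuousOn (fun x : ℝ => Φ t (S.E a (x • v))) (Icc 0 1) := by
    have h1 : ContinuousOn (fun x : ℝ => (t, S.E a (x • v))) (Icc (0 : ℝ) 1) := by
      refine continuousOn_const.prodMk ?_
      refine (S.cont a).comp (by fun_prop : Continuous fun x : ℝ => x • v).continuousOn ?_
      intro x hx
      exact mem_ball_zero_iff.2 (hsegD x hx).1
    exact hF.Φ_cont.comp h1 fun x hx => ⟨ht, (hsegD x hx).2⟩
  -- the bound along the path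
  have hbound : ∀ s ∈ Icc (0 : ℝ) 1,
      (∀ s' ∈ Icc (0 : ℝ) s, Φ t (S.E a (s' • v)) ∈ S.E c '' Metric.ball 0 S.ρ) →
      ‖S.iv c (Φ t (S.E a (s • v)))‖ ≤ m * s := by
    intro s hs hall
    have hd : ∀ x ∈ Icc (0 : ℝ) s, ∃ G : ℂ,
        HasDerivAt (fun s' : ℝ => S.iv c (Φ t (S.E a (s' • v)))) G x ∧ ‖G‖ ≤ m := by
      intro x hx
      have hx1 : x ∈ Icc (0 : ℝ) 1 := ⟨hx.1, hx.2.trans hs.2⟩
      obtain ⟨-, hcd, hle, -⟩ := S.local_facts hM hF ht (hsegD x hx1) (hL t ht _ (hseg x hx1))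
        (hall x hx)
      have hfd := (hcd.differentiableAt one_ne_zero).hasFDerivAt
      refine ⟨fderiv ℝ (fun u => S.iv c (Φ t (S.E a u))) (x • v) v, ?_, ?_⟩
      · have h1 : HasDerivAt (fun s' : ℝ => s' • v) v x := by
          simpa using (hasDerivAt_id x).smul_const v
        exact hfd.comp_hasDerivAt x h1
      · refine (ContinuousLinearMap.le_opNorm _ _).trans ?_
        rw [hm]
        exact mul_le_mul_of_nonneg_right hle (norm_nonneg _)
    have := norm_image_sub_le_of_norm_deriv_le_segment'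
      (f := fun s' : ℝ => S.iv c (Φ t (S.E a (s' • v))))
      (f' := fun x => deriv (fun s' : ℝ => S.iv c (Φ t (S.E a (s' • v)))) x)
      (a := 0) (b := s) (C := m)
      (fun x hx => by
        obtain ⟨G, hG, -⟩ := hd x hx
        rw [hG.deriv]
        exact hG.hasDerivWithinAt)
      (fun x hx => by
        obtain ⟨G, hG, hGL⟩ := hd x ⟨hx.1, hx.2.le⟩
        rw [hG.deriv]
        exact hGL) s ⟨hs.1, le_rfl⟩
    have hg0 : S.iv c (Φ t (S.E a ((0 : ℝ) • v))) = 0 := by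
      rw [zero_smul, S.center a]
      exact S.iv_self c
    beta_reduce at this
    rw [hg0, sub_zero, sub_zero] at this
    exact this
  have hall : ∀ x ∈ Icc (0 : ℝ) 1, Φ t (S.E a (x • v)) ∈ S.E c '' Metric.ball 0 S.ρ := by
    refine open_closed (P := fun x : ℝ => Φ t (S.E a (x • v)) ∈ S.E c '' Metric.ball 0 S.ρ) ?_ ?_ ?_
    · refine ⟨0, by simpa using hρ, ?_⟩
      rw [S.center c, zero_smul, S.center a]
    · intro x hx hP
      exact (hcont x hx).eventually ((S.isOpen_chart c).mem_nhds hP)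
    · intro x hx hlt
      have hx1 : x ∈ Icc (0 : ℝ) 1 := ⟨hx.1.le, hx.2⟩
      set y : X := Φ t (S.E a (x • v)) with hy
      set ε : ℝ := (S.ρ - m) / 2 with hε
      have hε0 : 0 < ε := by rw [hε]; linarith
      have hερ : ε < S.ρ := by rw [hε]; linarith
      have hN : S.E y '' Metric.ball 0 ε ∈ 𝓝 y := by
        refine (S.isOpenMap y _ (Metric.ball_subset_ball hερ.le) Metric.isOpen_ball).mem_nhds ?_
        exact ⟨0, by simpa using hε0, S.center y⟩
      have hev : ∀ᶠ s in 𝓝[Icc (0 : ℝ) 1] x, Φ t (S.E a (s • v)) ∈ S.E y '' Metric.ball 0 ε :=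
        (hcont x hx1).eventually hN
      rw [eventually_nhdsWithin_iff, Metric.eventually_nhds_iff] at hev
      obtain ⟨δ, hδ, hev⟩ := hev
      obtain ⟨s, hs0, hsx⟩ : ∃ s, max 0 (x - δ / 2) ≤ s ∧ s < x :=
        ⟨max 0 (x - δ / 2), le_rfl, max_lt hx.1 (by linarith)⟩
      have hs00 : 0 ≤ s := (le_max_left _ _).trans hs0
      have hsδ : x - δ / 2 ≤ s := (le_max_right _ _).trans hs0
      have hsI : s ∈ Icc (0 : ℝ) 1 := ⟨hs00, hsx.le.trans hx.2⟩
      obtain ⟨z, hz, hzE⟩ := hev (y := s) (by rw [Real.dist_eq, abs_lt]; constructor <;> linarith) hsI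
      have hz' : ‖z‖ < ε := by simpa using hz
      obtain ⟨z', hz'n, hz'E⟩ := S.near_symm (c := y) (v := z) (hz'.trans hερ)
      rw [hzE] at hz'E
      -- the point at time s in the chart
      set u' : ℂ := S.iv c (Φ t (S.E a (s • v))) with hu'
      have hu'E := S.E_iv (hlt s ⟨hs00, hsx⟩)
      have hu'm : ‖u'‖ ≤ m := by
        refine (hbound s hsI fun s' hs' => hlt s' ⟨hs'.1, hs'.2.trans_lt hsx⟩).trans ?_
        nlinarith [hsI.2]
      obtain ⟨τ, hτ, hrec⟩ := S.recenter c u' hu'E.2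
      have hτ0 : τ ≠ 0 := by
        intro h; rw [h] at hτ; simp at hτ
      set w : ℂ := τ⁻¹ * z' with hw
      have hwn : ‖w‖ = ‖z‖ := by rw [hw, norm_mul, norm_inv, hτ, inv_one, one_mul, hz'n]
      have hκ : |S.κ| * S.ρ ^ 2 ≤ 1 / 16 := S.κ_le
      have hmob : ‖mob S.κ u' w‖ < S.ρ := by
        have h1 := mob_le (κ := S.κ) (ρ := S.ρ) (by linarith) (v := u') (w := w)
          (hu'm.trans hmρ.le) (by rw [hwn]; exact (hz'.trans hερ).le)
        refine h1.trans_lt ?_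
        have hk1 : |S.κ| * ‖u'‖ * ‖w‖ * S.ρ ≤ 1 / 16 * ε := by
          have e1 : ‖u'‖ ≤ S.ρ := hu'm.trans hmρ.le
          have e2 : ‖w‖ ≤ ε := by rw [hwn]; exact hz'.le
          have e3 : |S.κ| * ‖u'‖ * ‖w‖ * S.ρ ≤ |S.κ| * S.ρ * ε * S.ρ := by
            gcongr
          have e4 : |S.κ| * S.ρ * ε * S.ρ = |S.κ| * S.ρ ^ 2 * ε := by ring
          rw [e4] at e3
          exact e3.trans (mul_le_mul_of_nonneg_right hκ hε0.le)
        have hk2 : |S.κ| * ‖u'‖ * ‖w‖ ≤ 1 / 16 := by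
          have e1 : ‖u'‖ ≤ S.ρ := hu'm.trans hmρ.le
          have e2 : ‖w‖ ≤ S.ρ := by rw [hwn]; exact (hz'.trans hερ).le
          have e3 : |S.κ| * ‖u'‖ * ‖w‖ ≤ |S.κ| * S.ρ * S.ρ := by gcongr
          have e4 : |S.κ| * S.ρ * S.ρ = |S.κ| * S.ρ ^ 2 := by ring
          rw [e4] at e3
          exact e3.trans hκ
        rw [div_lt_iff₀ (by linarith)]
        have e5 : ‖w‖ < ε := by rw [hwn]; exact hz'
        have e6 : 2 * ε = S.ρ - m := by rw [hε]; ring
        nlinarith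
      have hrec' := hrec w (by rw [hwn]; exact hz'.trans hερ) hmob
      refine ⟨mob S.κ u' w, by simpa using hmob, ?_⟩
      rw [hrec', hu'E.1, hw, mul_inv_cancel_left₀ hτ0]
      exact hz'E
  have h1 : Φ t (S.E a v) ∈ S.E c '' Metric.ball 0 S.ρ := by
    simpa using hall 1 ⟨zero_le_one, le_rfl⟩
  have h2 := hbound 1 ⟨zero_le_one, le_rfl⟩ hall
  simp only [one_smul, mul_one] at h2
  exact ⟨S.iv c (Φ t (S.E a v)), by simpa using h2, (S.E_iv h1).1⟩

end Surf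

end Pool.Agent.YUS
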