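import Pool.Agent.YUS.PF
import Pool.Agent.YUS.A1
import Pool.Agent.YUS.A2
import Pool.Agent.YUS.A4
import Pool.Agent.YUS.A5a
import Pool.Agent.YUS.K1a
import Pool.Agent.YUS.K1b

/-!
# [YUS-K1c] from the surface to the particle frame
-/

open MeasureTheory Set Filter Topology
open scoped ContDiff

namespace Pool.Agent.YUS

open Pool.Agent.YUD Pool.Agent.YUT Pool.Agent.YUB Pool.Agent.YUR Pool.Agent.YUL

namespace K1c

theorem jet_sub {n : ℕ} : ∀ {C : ℝ} {f : ℂ → ℝ} {A M : Set ℂ}, JetLe M n C f → A ⊆ M →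
    JetLe A n C f := by
  induction n with
  | zero => intro C f A M h hA x hx; exact h x (hA hx)
  | succ n ih =>
    intro C f A M h hA
    exact ⟨fun x hx => h.1 x (hA hx), ih h.2.1 hA, ih h.2.2 hA⟩

theorem norm_sub {M A : Set ℂ} {α C : ℝ} {f : ℂ → ℝ} (h : NormLe M α C f) (hA : A ⊆ M) :
    NormLe A α C f := by
  obtain ⟨hd, a, b, c, ha, hb, hc, habc, h1, h2, h3⟩ := h
  exact ⟨hd.mono hA, a, b, c, ha, hb, hc, habc, fun x hx => h1 x (hA hx),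
    fun x hx => h2 x (hA hx), fun x hx y hy => h3 x (hA hx) y (hA hy)⟩

theorem det_mat (A : ℂ →L[ℝ] ℂ) :
    A.det = (A 1).re * (A Complex.I).im - (A 1).im * (A Complex.I).re := by
  have h : A.det = LinearMap.det (A : ℂ →ₗ[ℝ] ℂ) := rfl
  rw [h, ← LinearMap.det_toMatrix Complex.basisOneI, Matrix.det_fin_two]
  simp [LinearMap.toMatrix_apply, Complex.coe_basisOneI_repr, Complex.coe_basisOneI]
  ring

theorem apply_eq (A : ℂ →L[ℝ] ℂ) (v : ℂ) : A v = v.re • A 1 + v.im • A Complex.I := by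
  rw [← map_smul, ← map_smul, ← map_add]
  congr 1
  apply Complex.ext <;> simp

theorem wed_map (A : ℂ →L[ℝ] ℂ) (u v : ℂ) : wed (A u) (A v) = A.det * wed u v := by
  rw [det_mat, apply_eq A u, apply_eq A v]
  simp only [wed, Complex.add_re, Complex.add_im, Complex.real_smul, Complex.mul_re, Complex.mul_im,
    Complex.ofReal_re, Complex.ofReal_im, zero_mul, sub_zero, add_zero]
  ring

theorem det_le (A : ℂ →L[ℝ] ℂ) (v : ℂ) : |A.det| * ‖v‖ ≤ ‖A‖ * ‖A v‖ := by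
  by_cases hv : v = 0
  · subst hv
    simp
  have hv0 : 0 < ‖v‖ := norm_pos_iff.2 hv
  have h0 : wed v (Complex.I * v) = ‖v‖ ^ 2 := by
    rw [← Complex.normSq_eq_norm_sq, Complex.normSq_apply]
    simp only [wed, Complex.mul_re, Complex.mul_im, Complex.I_re, Complex.I_im]
    ring
  have h1 : A.det * ‖v‖ ^ 2 = wed (A v) (A (Complex.I * v)) := by
    rw [wed_map, h0]
  have h2 := wed_le (A v) (A (Complex.I * v))
  have h3 : ‖A (Complex.I * v)‖ ≤ ‖A‖ * ‖v‖ := by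
    have h4 := A.le_opNorm (Complex.I * v)
    rwa [norm_mul, Complex.norm_I, one_mul] at h4
  have h5 : |A.det| * ‖v‖ ^ 2 ≤ ‖A v‖ * (‖A‖ * ‖v‖) := by
    calc |A.det| * ‖v‖ ^ 2 = |A.det * ‖v‖ ^ 2| := by
          rw [abs_mul, abs_of_nonneg (sq_nonneg ‖v‖)]
      _ ≤ ‖A v‖ * ‖A (Complex.I * v)‖ := by rw [h1]; exact h2
      _ ≤ _ := mul_le_mul_of_nonneg_left h3 (norm_nonneg _)
  have h6 : (|A.det| * ‖v‖) * ‖v‖ ≤ (‖A‖ * ‖A v‖) * ‖v‖ := by nlinarith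
  exact le_of_mul_le_mul_right h6 hv0

theorem mob_small {κ ρ : ℝ} (hρ : |κ| * ρ ^ 2 ≤ 1 / 16) {x u : ℂ} (hx : ‖x‖ ≤ ρ) (hu : ‖u‖ ≤ ρ) :
    ‖mob κ x u‖ ≤ 4 / 3 * (‖x‖ + ‖u‖) := by
  have h1 := mob_le (κ := κ) (ρ := ρ) (by linarith) hx hu
  have h0 := norm_nonneg x
  have h0' := norm_nonneg u
  have hρ0 : 0 ≤ ρ := h0.trans hx
  have h2 : |κ| * ‖x‖ * ‖u‖ ≤ 1 / 16 := by
    calc |κ| * ‖x‖ * ‖u‖ ≤ |κ| * ρ * ρ := by gcongr
      _ = |κ| * ρ ^ 2 := by ring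
      _ ≤ 1 / 16 := hρ
  refine h1.trans ?_
  rw [div_le_iff₀ (by linarith)]
  nlinarith

end K1c

namespace Surf

variable {X : Type} [TopologicalSpace X] (S : Surf X)

/-- the local structure of the moving charts in time -/
theorem K1d_aux {M : Set X} (hM : IsOpen M) {w₀ : X → ℝ} {ψ : ℝ → X → ℝ}
    {Φ : ℝ → X → X} (hF : S.Flow M w₀ ψ Φ) {α K L E₀ C s₀ s₁ : ℝ} {a : X} (haM : a ∈ M)
    (hs₀ : 0 < s₀) (hs₀ρ : 8 * s₀ ≤ S.ρ / 2)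
    (hden : ∀ c, JetLe (Metric.ball 0 (S.ρ / 2)) 4 C (S.den c) ∧
      (∀ v ∈ Metric.ball (0 : ℂ) (S.ρ / 2), 1 ≤ C * S.den c v) ∧
      ContDiffOn ℝ ∞ (S.den c) (Metric.ball 0 S.ρ))
    (hball : ∀ t, 0 ≤ t → Metric.ball 0 (8 * s₀) ⊆ S.D M (Φ t a))
    (hDa : Metric.ball 0 s₁ ⊆ S.D M a)
    (hLa : ∀ t, 0 ≤ t → ∀ v ∈ Metric.ball (0 : ℂ) s₁,
      ‖fderiv ℝ (fun u => S.iv (Φ t (S.E a v)) (Φ t (S.E a u))) v‖ ≤ L)
    (hX : ∀ t, 0 ≤ t → ∀ v ∈ Metric.ball (0 : ℂ) s₁, ‖S.iv (Φ t a) (Φ t (S.E a v))‖ < s₀ ∧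
      S.E (Φ t a) (S.iv (Φ t a) (Φ t (S.E a v))) = Φ t (S.E a v))
    (hgrad : ∀ t, 0 ≤ t → ∀ t', 0 ≤ t' → ∀ v ∈ Metric.ball (0 : ℂ) (4 * s₀),
      ‖fderiv ℝ (fun v => ψ t (S.E (Φ t' a) v)) v‖ ≤ E₀)
    (hnorm : ∀ t, 0 ≤ t → ∀ t', 0 ≤ t' → NormLe (Metric.ball 0 (4 * s₀)) α K
      (fun v => lap (fun v => ψ t (S.E (Φ t' a) v)) v / S.den (Φ t' a) v))
    {t₀ : ℝ} (ht₀ : 0 ≤ t₀) :
    ∃ (δ : ℝ) (x τ : ℝ → ℂ) (X₀ : ℝ → ℂ → ℂ) (ψ₀ : ℝ → ℂ → ℝ) (d₀ : ℂ → ℝ),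
      TLoc α S.κ s₀ s₁ K E₀ C t₀ δ (fun t v => ψ t (S.E (Φ t a) v)) (fun t => S.den (Φ t a))
        (fun t v => S.iv (Φ t a) (Φ t (S.E a v))) x τ X₀ ψ₀ d₀ := by
  have hρ := S.ρ_pos
  have hκ := S.κ_le
  have hκ4 : |S.κ| * S.ρ ^ 2 ≤ 1 / 4 := by linarith
  set c₀ : X := Φ t₀ a with hc₀
  -- the choice of `δ`
  obtain ⟨δ, hδ, hδx⟩ : ∃ δ : ℝ, 0 < δ ∧ ∀ t, 0 ≤ t → |t - t₀| < δ →
      Φ t a ∈ S.E c₀ '' Metric.ball 0 (s₀ / 8) := by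
    have hopen : IsOpen (S.E c₀ '' Metric.ball 0 (s₀ / 8)) :=
      S.isOpenMap c₀ _ (Metric.ball_subset_ball (by linarith)) Metric.isOpen_ball
    have hcont : ContinuousOn (fun t => Φ t a) (Ici 0) := by
      have h1 : ContinuousOn (fun t : ℝ => ((t, a) : ℝ × X)) (Ici 0) := by fun_prop
      exact hF.Φ_cont.comp h1 fun t ht => ⟨ht, haM⟩
    have hmem : Φ t₀ a ∈ S.E c₀ '' Metric.ball 0 (s₀ / 8) :=
      ⟨0, Metric.mem_ball_self (by linarith), S.center c₀⟩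
    have h2 := (hcont t₀ ht₀).preimage_mem_nhdsWithin (hopen.mem_nhds hmem)
    obtain ⟨δ, hδ, h3⟩ := Metric.mem_nhdsWithin_iff.1 h2
    exact ⟨δ, hδ, fun t ht htδ => h3 ⟨by rwa [Metric.mem_ball, Real.dist_eq], ht⟩⟩
  set x : ℝ → ℂ := fun t => S.iv c₀ (Φ t a) with hxdef
  have hx : ∀ t, 0 ≤ t → |t - t₀| < δ → ‖x t‖ < s₀ / 8 ∧ S.E c₀ (x t) = Φ t a := by
    intro t ht htδ
    obtain ⟨v, hv, hvE⟩ := hδx t ht htδ
    rw [mem_ball_zero_iff] at hv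
    have h1 : x t = v := by
      show S.iv c₀ (Φ t a) = v
      rw [← hvE]
      exact S.iv_E (by linarith)
    rw [h1]
    exact ⟨hv, hvE⟩
  have hx0 : x t₀ = 0 := S.iv_self c₀
  -- the rotations
  have hτex : ∀ t, ∃ τ : ℂ, ‖τ‖ = 1 ∧ (t = t₀ → τ = 1) ∧ (0 ≤ t → |t - t₀| < δ →
      ∀ w, ‖w‖ < S.ρ → ‖mob S.κ (x t) w‖ < S.ρ →
        S.E c₀ (mob S.κ (x t) w) = S.E (Φ t a) (τ * w)) := by
    intro t
    by_cases h1 : t = t₀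
    · subst h1
      refine ⟨1, norm_one, fun _ => rfl, fun _ _ w _ _ => ?_⟩
      rw [hx0, mob_zero_left, one_mul]
    · by_cases h2 : 0 ≤ t ∧ |t - t₀| < δ
      · obtain ⟨hx1, hx2⟩ := hx t h2.1 h2.2
        obtain ⟨τ, hτ1, hτ2⟩ := S.recenter c₀ (x t) (by linarith)
        refine ⟨τ, hτ1, fun h => absurd h h1, fun _ _ w hw1 hw2 => ?_⟩
        rw [hτ2 w hw1 hw2, hx2]
      · exact ⟨1, norm_one, fun _ => rfl, fun h3 h4 => absurd ⟨h3, h4⟩ h2⟩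
  choose τ hτ1 hτ2 hτ3 using hτex
  -- the flow in the fixed chart
  have key : ∀ t, 0 ≤ t → |t - t₀| < δ → ∀ v ∈ Metric.ball (0 : ℂ) s₁, ∃ u : ℂ, ‖u‖ < s₀ ∧
      τ t * u = S.iv (Φ t a) (Φ t (S.E a v)) ∧ ‖mob S.κ (x t) u‖ < 2 * s₀ ∧
      S.E c₀ (mob S.κ (x t) u) = Φ t (S.E a v) ∧
      S.iv c₀ (Φ t (S.E a v)) = mob S.κ (x t) u := by
    intro t ht htδ v hv
    obtain ⟨hx1, hx2⟩ := hx t ht htδ
    obtain ⟨hX1, hX2⟩ := hX t ht v hv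
    have hτ0 : τ t ≠ 0 := by
      intro h
      have := hτ1 t
      rw [h, norm_zero] at this
      exact zero_ne_one this
    obtain ⟨u, hu⟩ : ∃ u, u = (τ t)⁻¹ * S.iv (Φ t a) (Φ t (S.E a v)) := ⟨_, rfl⟩
    have hu1 : ‖u‖ < s₀ := by
      rw [hu, norm_mul, norm_inv, hτ1, inv_one, one_mul]
      exact hX1
    have hu2 : τ t * u = S.iv (Φ t a) (Φ t (S.E a v)) := by
      rw [hu, mul_inv_cancel_left₀ hτ0]
    have hu3 : ‖mob S.κ (x t) u‖ < 2 * s₀ := by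
      have := K1c.mob_small (κ := S.κ) (ρ := S.ρ) hκ (x := x t) (u := u) (by linarith) (by linarith)
      linarith
    have hu4 : S.E c₀ (mob S.κ (x t) u) = Φ t (S.E a v) := by
      rw [hτ3 t ht htδ u (by linarith) (by linarith), hu2, hX2]
    refine ⟨u, hu1, hu2, hu3, hu4, ?_⟩
    rw [← hu4]
    exact S.iv_E (by linarith)
  have hD0 : Metric.ball 0 (4 * s₀) ⊆ S.D M c₀ :=
    (Metric.ball_subset_ball (by linarith)).trans (hball t₀ ht₀)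
  have h4ρ : Metric.ball (0 : ℂ) (4 * s₀) ⊆ Metric.ball 0 (S.ρ / 2) :=
    Metric.ball_subset_ball (by linarith)
  refine ⟨δ, x, τ, fun t v => S.iv c₀ (Φ t (S.E a v)), fun t v => ψ t (S.E c₀ v), S.den c₀, ?_⟩
  constructor
  · exact hδ
  · exact hx0
  · exact hτ2 t₀ rfl
  · exact hτ1
  · exact fun t ht htδ => (hx t ht htδ).1
  · intro t _ _
    show S.iv c₀ (Φ t (S.E a 0)) = S.iv c₀ (Φ t a)
    rw [S.center]
  · refine (hF.c1 a c₀).mono ?_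
    rintro ⟨t, v⟩ ⟨⟨ht, ht1, ht2⟩, hv⟩
    have htδ : |t - t₀| < δ := by
      rw [abs_lt]
      simp only at ht1 ht2
      constructor <;> linarith
    obtain ⟨u, hu1, hu2, hu3, hu4, hu5⟩ := key t ht htδ v hv
    exact ⟨ht, hDa hv, ⟨mob S.κ (x t) u, by rw [mem_ball_zero_iff]; linarith, hu4⟩⟩
  · intro t ht htδ v hv
    obtain ⟨u, hu1, hu2, hu3, hu4, hu5⟩ := key t ht htδ v hv
    show S.iv c₀ (Φ t (S.E a v)) ∈ Metric.ball (0 : ℂ) (2 * s₀)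
    rw [hu5, mem_ball_zero_iff]
    exact hu3
  · intro t ht _
    obtain ⟨C', hC'⟩ := hF.stream t
    exact (hC' t ht le_rfl c₀).1.mono hD0
  · have h1 := (hF.cont c₀).snd
    refine h1.mono ?_
    rintro ⟨t, v⟩ ⟨⟨ht, -⟩, hv⟩
    exact ⟨ht, hD0 hv⟩
  · intro t ht _ v hv
    exact hgrad t ht t₀ ht₀ v hv
  · intro t ht _
    exact hnorm t ht t₀ ht₀
  · exact (hden c₀).2.2.mono (Metric.ball_subset_ball (by linarith))
  · exact K1c.jet_sub (hden c₀).1 h4ρ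
  · exact fun v hv => (hden c₀).2.1 v (h4ρ hv)
  · intro t ht htδ v hv
    obtain ⟨u, hu1, hu2, hu3, hu4, hu5⟩ := key t ht htδ v hv
    exact (S.local_facts hM hF ht (hDa hv) (hLa t ht v hv) (c' := c₀)
      ⟨mob S.κ (x t) u, by rw [mem_ball_zero_iff]; linarith, hu4⟩).2.2.2.2.2
  · intro t ht htδ u hu
    obtain ⟨hx1, hx2⟩ := hx t ht htδ
    rw [mem_ball_zero_iff] at hu
    show ψ t (S.E (Φ t a) (τ t * u)) = ψ t (S.E c₀ (mob S.κ (x t) u))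
    have h1 := K1c.mob_small (κ := S.κ) (ρ := S.ρ) hκ (x := x t) (u := u) (by linarith) (by linarith)
    rw [hτ3 t ht htδ u (by linarith) (by linarith)]
  · intro t ht htδ v hv
    obtain ⟨hx1, hx2⟩ := hx t ht htδ
    obtain ⟨u, hu1, hu2, hu3, hu4, hu5⟩ := key t ht htδ v hv
    show S.iv (Φ t a) (Φ t (S.E a v)) = τ t * mob S.κ (-x t) (S.iv c₀ (Φ t (S.E a v)))
    rw [hu5, mob_neg_mob hκ4 (by linarith) (by linarith), hu2]
  · intro t ht htδ u hu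
    obtain ⟨hx1, hx2⟩ := hx t ht htδ
    rw [mem_ball_zero_iff] at hu
    have h1 := K1c.mob_small (κ := S.κ) (ρ := S.ρ) hκ (x := x t) (u := u) (by linarith) (by linarith)
    have h2 := hτ3 t ht htδ u (by linarith) (by linarith)
    have h3 := mob_iso (κ := S.κ) (ρ := S.ρ) hκ4 (v := x t) (w := u) (by linarith) (by linarith)
    have h4 := mob_den_ne (κ := S.κ) (ρ := S.ρ) hκ4 (v := x t) (w := u) (by linarith) (by linarith)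
    have hpos : ∀ z : ℂ, ‖z‖ ≤ S.ρ → 0 < 1 + S.κ * ‖z‖ ^ 2 := by
      intro z hz
      have h5 : |S.κ| * ‖z‖ ^ 2 ≤ |S.κ| * S.ρ ^ 2 :=
        mul_le_mul_of_nonneg_left (pow_le_pow_left₀ (norm_nonneg _) hz 2) (abs_nonneg _)
      have h6 : -(|S.κ| * ‖z‖ ^ 2) ≤ S.κ * ‖z‖ ^ 2 := by
        have := neg_abs_le S.κ
        nlinarith [sq_nonneg ‖z‖]
      linarith
    have p1 := hpos (x t) (by linarith)
    have p2 := hpos u (by linarith)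
    have p3 := hpos (mob S.κ (x t) u) (by linarith)
    show S.P (S.E (Φ t a) (τ t * u)) / (1 + S.κ * ‖τ t * u‖ ^ 2) ^ 2 =
      S.P (S.E c₀ (mob S.κ (x t) u)) / (1 + S.κ * ‖mob S.κ (x t) u‖ ^ 2) ^ 2 *
        (1 + S.κ * ‖x t‖ ^ 2) ^ 2 / ‖1 - S.κ * (starRingEnd ℂ) (x t) * u‖ ^ 4
    rw [norm_mul, hτ1, one_mul, h2]
    have hq : 0 < ‖1 - (S.κ : ℂ) * (starRingEnd ℂ) (x t) * u‖ := by linarith
    set q := ‖1 - (S.κ : ℂ) * (starRingEnd ℂ) (x t) * u‖ with hqdef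
    set A := 1 + S.κ * ‖mob S.κ (x t) u‖ ^ 2 with hA
    set B := 1 + S.κ * ‖x t‖ ^ 2 with hB
    set D := 1 + S.κ * ‖u‖ ^ 2 with hD
    have h5 : (A * q ^ 2) ^ 2 = (B * D) ^ 2 := by rw [h3]
    rw [div_mul_eq_mul_div, div_div, div_eq_div_iff (by positivity) (by positivity)]
    linear_combination (S.P (S.E (Φ t a) (τ t * u))) * h5

theorem pf_of_flow [CompactSpace X] {M : Set X} (hM : IsOpen M) {w₀ : X → ℝ} {ψ : ℝ → X → ℝ}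
    {Φ : ℝ → X → X} (hF : S.Flow M w₀ ψ Φ) {α K ρ₀ L E₁ : ℝ} (hα : 0 < α) (hα1 : α < 1)
    (hK : ∀ t, 0 ≤ t → S.Norm M α K (S.lapS (ψ t))) {a : X} (hρ₀ : 0 < ρ₀)
    (hB : Metric.ball 0 ρ₀ ⊆ S.D M a) (hρ : ρ₀ ≤ S.ρ / 4) (hL1 : 1 ≤ L)
    (hL : ∀ t, 0 ≤ t → ∀ v ∈ Metric.ball (0 : ℂ) ρ₀,
      ‖fderiv ℝ (fun u => S.iv (Φ t (S.E a v)) (Φ t (S.E a u))) v‖ ≤ L)
    (hE : ∀ t, 0 ≤ t → ∀ (c : X) (v : ℂ) (r : ℝ), 0 < r → r ≤ 1 →
      Metric.closedBall v r ⊆ S.D M c → Metric.closedBall v r ⊆ Metric.ball 0 (S.ρ / 2) →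
        ‖fderiv ℝ (fun v => ψ t (S.E c v)) v‖ ≤ E₁ / r)
    (hw : ContDiffOn ℝ 1 (fun v => w₀ (S.E a v)) (Metric.ball 0 ρ₀)) :
    ∃ s₀ s₁ L' E₀ C : ℝ, PF α S.κ s₀ s₁ L' K E₀ C (fun v => w₀ (S.E a v))
      (fun t v => ψ t (S.E (Φ t a) v)) (fun t => S.den (Φ t a))
      (fun t v => S.iv (Φ t a) (Φ t (S.E a v))) := by
  obtain ⟨C, hC1, hden⟩ := S.den_bounds
  have hρS := S.ρ_pos
  have hC0 : 0 < C := by linarith
  have hL0 : 0 < L := by linarith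
  -- constants
  obtain ⟨r₁, hr₁0, hr₁ρ₀, hr₁L⟩ : ∃ r₁ : ℝ, 0 < r₁ ∧ r₁ ≤ ρ₀ ∧ 2 * L * r₁ ≤ S.ρ / 4 := by
    refine ⟨min ρ₀ (S.ρ / (8 * L)), lt_min hρ₀ (by positivity), min_le_left _ _, ?_⟩
    have h1 : min ρ₀ (S.ρ / (8 * L)) ≤ S.ρ / (8 * L) := min_le_right _ _
    rw [le_div_iff₀ (by positivity)] at h1
    linarith
  obtain ⟨L₂, hL₂⟩ : ∃ L₂ : ℝ, L₂ = 2 * L * C ^ 2 := ⟨_, rfl⟩
  have hC2 : 1 ≤ C ^ 2 := one_le_pow₀ hC1
  have hLL : 2 * L ≤ L₂ := by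
    rw [hL₂]
    nlinarith
  have hL₂0 : 0 < L₂ := by linarith
  obtain ⟨s₀, hs₀, hs₀1, hs₀ρ, hs₀r⟩ : ∃ s₀ : ℝ, 0 < s₀ ∧ s₀ ≤ 1 ∧ 8 * s₀ ≤ S.ρ / 2 ∧
      8 * s₀ ≤ r₁ / L₂ := by
    refine ⟨min 1 (min (S.ρ / 16) (r₁ / L₂ / 8)), lt_min one_pos (lt_min (by positivity)
      (by positivity)), min_le_left _ _, ?_, ?_⟩
    · have h1 : min 1 (min (S.ρ / 16) (r₁ / L₂ / 8)) ≤ S.ρ / 16 :=
        (min_le_right _ _).trans (min_le_left _ _)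
      linarith
    · have h1 : min 1 (min (S.ρ / 16) (r₁ / L₂ / 8)) ≤ r₁ / L₂ / 8 :=
        (min_le_right _ _).trans (min_le_right _ _)
      linarith
  obtain ⟨s₁, hs₁, hs₁r, hs₁L⟩ : ∃ s₁ : ℝ, 0 < s₁ ∧ s₁ ≤ r₁ ∧ L₂ * s₁ ≤ s₀ := by
    refine ⟨min r₁ (s₀ / L₂), lt_min hr₁0 (by positivity), min_le_left _ _, ?_⟩
    have h1 : min r₁ (s₀ / L₂) ≤ s₀ / L₂ := min_le_right _ _
    rw [le_div_iff₀ hL₂0] at h1
    linarith
  have haM : a ∈ M := by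
    have := (hB (Metric.mem_ball_self hρ₀)).2
    rwa [S.center] at this
  have hb₀ : Metric.ball (0 : ℂ) r₁ ⊆ Metric.ball 0 ρ₀ := Metric.ball_subset_ball hr₁ρ₀
  have hb₁ : Metric.ball (0 : ℂ) s₁ ⊆ Metric.ball 0 r₁ := Metric.ball_subset_ball hs₁r
  have hstay := S.stays hM hF hB hL1 hL hr₁ρ₀ (by linarith)
  have hXf : ∀ t, 0 ≤ t → ∀ v ∈ Metric.ball (0 : ℂ) r₁,
      ‖S.iv (Φ t a) (Φ t (S.E a v))‖ ≤ 2 * L * ‖v‖ ∧
      S.E (Φ t a) (S.iv (Φ t a) (Φ t (S.E a v))) = Φ t (S.E a v) ∧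
      ‖S.iv (Φ t a) (Φ t (S.E a v))‖ < S.ρ / 4 := by
    intro t ht v hv
    obtain ⟨u, hu, huE⟩ := hstay t ht v hv
    rw [mem_closedBall_zero_iff] at hu
    rw [mem_ball_zero_iff] at hv
    have h1 : 2 * L * ‖v‖ < S.ρ / 4 := by
      have : 2 * L * ‖v‖ < 2 * L * r₁ := mul_lt_mul_of_pos_left hv (by positivity)
      linarith
    have h2 : S.iv (Φ t a) (Φ t (S.E a v)) = u := by
      rw [← huE]
      exact S.iv_E (by linarith)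
    rw [h2]
    exact ⟨hu, huE, by linarith⟩
  have hin : ∀ t, 0 ≤ t → ∀ v ∈ Metric.ball (0 : ℂ) r₁,
      Φ t (S.E a v) ∈ S.E (Φ t a) '' Metric.ball 0 S.ρ := by
    intro t ht v hv
    obtain ⟨h1, h2, h3⟩ := hXf t ht v hv
    exact ⟨_, by rw [mem_ball_zero_iff]; linarith, h2⟩
  have hloc := fun (t : ℝ) (ht : 0 ≤ t) (v : ℂ) (hv : v ∈ Metric.ball (0 : ℂ) r₁) =>
    S.local_facts hM hF ht (hB (hb₀ hv)) (hL t ht v (hb₀ hv)) (c' := Φ t a) (hin t ht v hv)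
  have hdenle : ∀ c, ∀ v ∈ Metric.ball (0 : ℂ) (S.ρ / 2), S.den c v ≤ C := fun c v hv =>
    (le_abs_self _).trans ((hden c).1.zero_le v hv)
  have hdenpos : ∀ c, ∀ v ∈ Metric.ball (0 : ℂ) (S.ρ / 2), 0 < S.den c v := by
    intro c v hv
    have h1 := (hden c).2.1 v hv
    by_contra hcon
    have h2 : C * S.den c v ≤ 0 := mul_nonpos_of_nonneg_of_nonpos hC0.le (not_lt.1 hcon)
    linarith
  have hlow : ∀ t, 0 ≤ t → ∀ v ∈ Metric.ball (0 : ℂ) r₁, ∀ w : ℂ,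
      ‖w‖ ≤ L₂ * ‖fderiv ℝ (fun v => S.iv (Φ t a) (Φ t (S.E a v))) v w‖ := by
    intro t ht v hv w
    obtain ⟨-, -, h3, h4, -, -⟩ := hloc t ht v hv
    obtain ⟨h5, h6, h7⟩ := hXf t ht v hv
    set A := fderiv ℝ (fun v => S.iv (Φ t a) (Φ t (S.E a v))) v with hA
    have hmem : S.iv (Φ t a) (Φ t (S.E a v)) ∈ Metric.ball (0 : ℂ) (S.ρ / 2) := by
      rw [mem_ball_zero_iff]; linarith
    have hmem' : v ∈ Metric.ball (0 : ℂ) (S.ρ / 2) := by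
      have := hb₀ hv
      rw [mem_ball_zero_iff] at this ⊢
      linarith
    have h8 := hdenle (Φ t a) _ hmem
    have h8' := hdenpos (Φ t a) _ hmem
    have h9 := (hden a).2.1 v hmem'
    have h10 : 1 ≤ C ^ 2 * |A.det| := by
      have e1 : |A.det| * S.den (Φ t a) (S.iv (Φ t a) (Φ t (S.E a v))) = S.den a v := by
        rw [← abs_of_pos h8', ← abs_mul, h4, abs_of_pos (hdenpos a v hmem')]
      calc 1 ≤ C * S.den a v := h9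
        _ = C * (|A.det| * S.den (Φ t a) (S.iv (Φ t a) (Φ t (S.E a v)))) := by rw [e1]
        _ ≤ C * (|A.det| * C) := by gcongr
        _ = C ^ 2 * |A.det| := by ring
    have h11 := K1c.det_le A w
    calc ‖w‖ = 1 * ‖w‖ := (one_mul _).symm
      _ ≤ C ^ 2 * |A.det| * ‖w‖ := mul_le_mul_of_nonneg_right h10 (norm_nonneg _)
      _ = C ^ 2 * (|A.det| * ‖w‖) := by ring
      _ ≤ C ^ 2 * (‖A‖ * ‖A w‖) := by gcongr
      _ ≤ C ^ 2 * (2 * L * ‖A w‖) := by gcongr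
      _ = L₂ * ‖A w‖ := by rw [hL₂]; ring
  have hinj : ∀ t, 0 ≤ t → InjOn (fun v => S.iv (Φ t a) (Φ t (S.E a v))) (Metric.ball 0 r₁) := by
    intro t ht v hv v' hv' hvv
    have h1 := (hXf t ht v hv).2.1
    have h2 := (hXf t ht v' hv').2.1
    have h3 : Φ t (S.E a v) = Φ t (S.E a v') := by
      rw [← h1, ← h2]
      simp only at hvv
      rw [hvv]
    have h4 := (hF.bij t ht).injOn (hB (hb₀ hv)).2 (hB (hb₀ hv')).2 h3
    refine S.inj a ?_ ?_ h4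
    · rw [mem_ball_zero_iff]; exact (hB (hb₀ hv)).1
    · rw [mem_ball_zero_iff]; exact (hB (hb₀ hv')).1
  have hX0 : ∀ t, S.iv (Φ t a) (Φ t (S.E a 0)) = 0 := by
    intro t
    rw [S.center, S.iv_self]
  have hc1 : ∀ t, 0 ≤ t → ContDiffOn ℝ 1 (fun v => S.iv (Φ t a) (Φ t (S.E a v)))
      (Metric.ball 0 r₁) := fun t ht v hv => (hloc t ht v hv).2.1.contDiffWithinAt
  have hcov : ∀ t, 0 ≤ t → ∀ r, 0 < r → r ≤ r₁ → Metric.ball 0 (r / L₂) ⊆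
      (fun v => S.iv (Φ t a) (Φ t (S.E a v))) '' Metric.ball 0 r := fun t ht =>
    cover_plane hL₂0 (hc1 t ht) (hX0 t) (hinj t ht) (hlow t ht)
  have hball : ∀ t, 0 ≤ t → Metric.ball 0 (8 * s₀) ⊆ S.D M (Φ t a) := by
    intro t ht u hu
    obtain ⟨v, hv, rfl⟩ := hcov t ht r₁ hr₁0 le_rfl (Metric.ball_subset_ball hs₀r hu)
    exact (hloc t ht v hv).1
  have h8ρ : Metric.ball (0 : ℂ) (8 * s₀) ⊆ Metric.ball 0 (S.ρ / 2) :=
    Metric.ball_subset_ball hs₀ρ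
  have hgrad : ∀ t, 0 ≤ t → ∀ t', 0 ≤ t' → ∀ v ∈ Metric.ball (0 : ℂ) (4 * s₀),
      ‖fderiv ℝ (fun v => ψ t (S.E (Φ t' a) v)) v‖ ≤ E₁ / s₀ := by
    intro t ht t' ht' v hv
    have hsub : Metric.closedBall v s₀ ⊆ Metric.ball 0 (8 * s₀) := by
      intro u hu
      rw [Metric.mem_closedBall, dist_eq_norm] at hu
      rw [mem_ball_zero_iff] at hv ⊢
      have : ‖u‖ ≤ ‖u - v‖ + ‖v‖ := by
        have := norm_add_le (u - v) v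
        rwa [sub_add_cancel] at this
      linarith
    exact hE t ht (Φ t' a) v s₀ hs₀ hs₀1 (hsub.trans (hball t' ht')) (hsub.trans h8ρ)
  have hE0 : 0 ≤ E₁ / s₀ :=
    (norm_nonneg _).trans (hgrad 0 le_rfl 0 le_rfl 0 (Metric.mem_ball_self (by linarith)))
  have h48 : Metric.ball (0 : ℂ) (4 * s₀) ⊆ Metric.ball 0 (8 * s₀) :=
    Metric.ball_subset_ball (by linarith)
  have hstream : ∀ t, 0 ≤ t → ∀ c, ContDiffOn ℝ 2 (fun v => ψ t (S.E c v)) (S.D M c) := by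
    intro t ht c
    obtain ⟨C', hC'⟩ := hF.stream t
    exact (hC' t ht le_rfl c).1
  have hnorm : ∀ t, 0 ≤ t → ∀ t', 0 ≤ t' → NormLe (Metric.ball 0 (4 * s₀)) α K
      (fun v => lap (fun v => ψ t (S.E (Φ t' a) v)) v / S.den (Φ t' a) v) := by
    intro t ht t' ht'
    have h1 : NormLe (Metric.ball 0 (4 * s₀)) α K (fun v => S.lapS (ψ t) (S.E (Φ t' a) v)) :=
      K1c.norm_sub (hK t ht (Φ t' a)) (h48.trans (hball t' ht'))
    refine h1.congr Metric.isOpen_ball fun v hv => ?_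
    have h2 := hball t' ht' (h48 hv)
    have h3 := S.lap_chart (f := ψ t) (c := Φ t' a) (v := v) h2.1
      ((hstream t ht (Φ t' a)).contDiffAt ((S.isOpen_D hM (Φ t' a)).mem_nhds h2))
    have h4 := hdenpos (Φ t' a) v (h8ρ (h48 hv))
    rw [h3, mul_div_cancel_left₀ _ h4.ne']
  have hstart : Φ 0 a = a := hF.start a haM
  refine ⟨s₀, s₁, L₂, E₁ / s₀, C, ?_⟩
  constructor
  · exact hs₁
  · linarith
  · exact hs₁L
  · have hκ := S.κ_le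
    have h1 : (8 * s₀) ^ 2 ≤ S.ρ ^ 2 := pow_le_pow_left₀ (by positivity) (by linarith) 2
    have h2 := mul_le_mul_of_nonneg_left h1 (abs_nonneg S.κ)
    linarith
  · exact hC1
  · exact hE0
  · exact hw.mono (hb₁.trans hb₀)
  · exact fun t ht => (hstream t ht (Φ t a)).mono (h48.trans (hball t ht))
  · exact fun t ht v hv => hgrad t ht t ht v hv
  · exact fun t ht => hnorm t ht t ht
  · exact fun t _ => (hden (Φ t a)).2.2.mono (Metric.ball_subset_ball (by linarith))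
  · exact fun t _ => K1c.jet_sub (hden (Φ t a)).1 (h48.trans h8ρ)
  · exact fun t _ v hv => (hden (Φ t a)).2.1 v (h8ρ (h48 hv))
  · exact fun t ht => (hc1 t ht).mono hb₁
  · exact fun t _ => hX0 t
  · intro v hv
    show S.iv (Φ 0 a) (Φ 0 (S.E a v)) = v
    have h1 := hB (hb₀ (hb₁ hv))
    rw [hstart, hF.start _ h1.2]
    exact S.iv_E h1.1
  · intro t ht v hv
    exact (hloc t ht v (hb₁ hv)).2.2.1.trans hLL
  · exact fun t ht => (hinj t ht).mono hb₁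
  · exact fun t ht r hr hrs => hcov t ht r hr (hrs.trans hs₁r)
  · intro t ht v hv
    show (fderiv ℝ (fun v => S.iv (Φ t a) (Φ t (S.E a v))) v).det *
      S.den (Φ t a) (S.iv (Φ t a) (Φ t (S.E a v))) = S.den (Φ 0 a) v
    rw [hstart]
    exact (hloc t ht v (hb₁ hv)).2.2.2.1
  · exact fun t ht v hv => (hloc t ht v (hb₁ hv)).2.2.2.2.1
  · intro t₀ ht₀
    refine S.K1d_aux hM hF haM hs₀ hs₀ρ hden hball (hb₁.trans (hb₀.trans hB)) (L := L)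
      (fun t ht v hv => hL t ht v (hb₀ (hb₁ hv))) (fun t ht v hv => ?_) hgrad hnorm ht₀
    obtain ⟨h1, h2, -⟩ := hXf t ht v (hb₁ hv)
    refine ⟨?_, h2⟩
    rw [mem_ball_zero_iff] at hv
    calc ‖S.iv (Φ t a) (Φ t (S.E a v))‖ ≤ 2 * L * ‖v‖ := h1
      _ ≤ L₂ * ‖v‖ := mul_le_mul_of_nonneg_right hLL (norm_nonneg _)
      _ < L₂ * s₁ := mul_lt_mul_of_pos_left hv hL₂0
      _ ≤ s₀ := hs₁L

end Surf

end Pool.Agent.YUS
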