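import Pool.Agent.YUS.PF

/-!
# [YUS-K2a] facts about the frame: determinant, bounds, the flow in the frame, vorticity
-/

open MeasureTheory Set Filter Topology
open scoped ContDiff

namespace Pool.Agent.YUS

open Pool.Agent.YUD Pool.Agent.YUT Pool.Agent.YUB Pool.Agent.YUR Pool.Agent.YUL

namespace K2a

theorem det_eq (A : ℂ →L[ℝ] ℂ) :
    A.det = (A 1).re * (A Complex.I).im - (A Complex.I).re * (A 1).im := by
  have h : A.det = LinearMap.det (A : ℂ →ₗ[ℝ] ℂ) := rfl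
  rw [h, ← LinearMap.det_toMatrix Complex.basisOneI, Matrix.det_fin_two]
  simp [LinearMap.toMatrix_apply, Complex.coe_basisOneI_repr, Complex.coe_basisOneI]

/-- the linear map `z ↦ A (τ z)` in terms of its columns -/
theorem lmap_eq (A : ℂ →L[ℝ] ℂ) (τ z : ℂ) : lmap (A τ) (A (τ * Complex.I)) z = A (τ * z) := by
  have h : τ * z = z.re • τ + z.im • (τ * Complex.I) := by
    apply Complex.ext <;> simp <;> ring
  rw [h, map_add, map_smul, map_smul]
  simp [lmap, Complex.real_smul]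

theorem apply_eq (A : ℂ →L[ℝ] ℂ) (z : ℂ) : A z = z.re • A 1 + z.im • A Complex.I := by
  have h : z = z.re • (1 : ℂ) + z.im • Complex.I := by
    apply Complex.ext <;> simp
  conv_lhs => rw [h]
  rw [map_add, map_smul, map_smul]

theorem wed_eq (A : ℂ →L[ℝ] ℂ) (z : ℂ) : wed (A z) (A (z * Complex.I)) = A.det * ‖z‖ ^ 2 := by
  rw [apply_eq A z, apply_eq A (z * Complex.I), det_eq, ← Complex.normSq_eq_norm_sq,
    Complex.normSq_apply]
  simp only [wed, Complex.add_re, Complex.add_im, Complex.real_smul, Complex.mul_re, Complex.mul_im,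
    Complex.ofReal_re, Complex.ofReal_im, Complex.I_re, Complex.I_im]
  ring

theorem abs_wed_le (a b : ℂ) : |wed a b| ≤ ‖a‖ * ‖b‖ := by
  have h : wed a b = ((starRingEnd ℂ) a * b).im := by
    simp only [wed, Complex.mul_im, Complex.conj_re, Complex.conj_im]
    ring
  rw [h, ← RCLike.norm_conj a, ← norm_mul]
  exact Complex.abs_im_le_norm _

theorem norm_le_det (A : ℂ →L[ℝ] ℂ) {L : ℝ} (hA : ‖A‖ ≤ L) (z : ℂ) :
    A.det * ‖z‖ ≤ L * ‖A z‖ := by
  by_cases hz : z = 0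
  · subst hz
    simp
  · have hz' : 0 < ‖z‖ := norm_pos_iff.2 hz
    have h1 : A.det * ‖z‖ ^ 2 ≤ ‖A z‖ * ‖A (z * Complex.I)‖ := by
      rw [← wed_eq]
      exact (le_abs_self _).trans (abs_wed_le _ _)
    have h2 : ‖A (z * Complex.I)‖ ≤ L * ‖z‖ := by
      have h3 := A.le_of_opNorm_le hA (z * Complex.I)
      rwa [norm_mul, Complex.norm_I, mul_one] at h3
    have h4 : A.det * ‖z‖ ^ 2 ≤ ‖A z‖ * (L * ‖z‖) :=
      h1.trans (mul_le_mul_of_nonneg_left h2 (norm_nonneg _))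
    have h5 : (A.det * ‖z‖) * ‖z‖ ≤ (L * ‖A z‖) * ‖z‖ := by nlinarith
    exact le_of_mul_le_mul_right h5 hz'

theorem lmap_ginv {p q : ℂ} (h : wed p q ≠ 0) (w : ℂ) : lmap p q (ginv p q w) = w := by
  have h0 : wed p q = p.re * q.im - p.im * q.re := rfl
  rw [h0] at h
  unfold ginv linv lmap
  rw [h0]
  apply Complex.ext
  · simp only [wed, Complex.real_smul, Complex.add_re, Complex.mul_re, Complex.mul_im,
      Complex.ofReal_re, Complex.ofReal_im]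
    field_simp
    ring
  · simp only [wed, Complex.real_smul, Complex.add_im, Complex.mul_re, Complex.mul_im,
      Complex.ofReal_re, Complex.ofReal_im]
    field_simp
    ring

theorem ginv_lmap {p q : ℂ} (h : wed p q ≠ 0) (w : ℂ) : ginv p q (lmap p q w) = w := by
  have h0 : wed p q = p.re * q.im - p.im * q.re := rfl
  rw [h0] at h
  unfold ginv linv lmap
  rw [h0]
  apply Complex.ext
  · simp only [wed, Complex.real_smul, Complex.add_re, Complex.add_im, Complex.mul_re,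
      Complex.mul_im, Complex.ofReal_re, Complex.ofReal_im]
    field_simp
    ring
  · simp only [wed, Complex.real_smul, Complex.add_re, Complex.add_im, Complex.mul_re,
      Complex.mul_im, Complex.ofReal_re, Complex.ofReal_im]
    field_simp
    ring

section

variable {α κ s₀ s₁ L K E₀ C : ℝ} {w : ℂ → ℝ} {Ψ d : ℝ → ℂ → ℝ} {X : ℝ → ℂ → ℂ}

theorem s₀_pos (h : PF α κ s₀ s₁ L K E₀ C w Ψ d X) : 0 < s₀ := by
  have h1 := h.s₁_pos
  have h2 := h.L_le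
  have h3 := h.s_le
  nlinarith

theorem s₁_le (h : PF α κ s₀ s₁ L K E₀ C w Ψ d X) : s₁ ≤ s₀ := by
  have h1 := h.s₁_pos
  have h2 := h.L_le
  have h3 := h.s_le
  nlinarith

theorem X_le (h : PF α κ s₀ s₁ L K E₀ C w Ψ d X) {t : ℝ} (ht : 0 ≤ t) {v : ℂ} (hv : ‖v‖ < s₁) :
    ‖X t v‖ ≤ L * ‖v‖ := by
  have hd : ∀ x ∈ Metric.ball (0 : ℂ) s₁, DifferentiableAt ℝ (X t) x := fun x hx =>
    ((h.X_c1 t ht).differentiableOn one_ne_zero).differentiableAt (Metric.isOpen_ball.mem_nhds hx)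
  have h1 := (convex_ball (0 : ℂ) s₁).norm_image_sub_le_of_norm_fderiv_le (𝕜 := ℝ) hd
    (h.X_lip t ht) (Metric.mem_ball_self h.s₁_pos) (mem_ball_zero_iff.2 hv)
  rwa [h.X_zero t ht, sub_zero, sub_zero] at h1

theorem X_lt (h : PF α κ s₀ s₁ L K E₀ C w Ψ d X) {t : ℝ} (ht : 0 ≤ t) {v : ℂ} (hv : ‖v‖ < s₁) :
    ‖X t v‖ < s₀ := by
  have h1 := X_le h ht hv
  have h2 := h.L_le
  have h3 := h.s_le
  nlinarith

theorem d_pos (h : PF α κ s₀ s₁ L K E₀ C w Ψ d X) {t : ℝ} (ht : 0 ≤ t) {v : ℂ}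
    (hv : ‖v‖ < 4 * s₀) : 0 < d t v := by
  have h1 := h.d_lo t ht v (mem_ball_zero_iff.2 hv)
  have h2 := h.C_le
  by_contra hcon
  nlinarith

theorem d_le (h : PF α κ s₀ s₁ L K E₀ C w Ψ d X) {t : ℝ} (ht : 0 ≤ t) {v : ℂ}
    (hv : ‖v‖ < 4 * s₀) : d t v ≤ C := by
  have h1 : ∀ x ∈ Metric.ball (0 : ℂ) (4 * s₀), |d t x| ≤ C := (h.d_jet t ht).1
  exact (le_abs_self _).trans (h1 v (mem_ball_zero_iff.2 hv))

theorem det_facts (h : PF α κ s₀ s₁ L K E₀ C w Ψ d X) {t : ℝ} (ht : 0 ≤ t) :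
    (fderiv ℝ (X t) 0).det * d t 0 = d 0 0 ∧ 0 < (fderiv ℝ (X t) 0).det ∧
      1 ≤ C ^ 2 * (fderiv ℝ (X t) 0).det := by
  have hs := s₀_pos h
  have h0 : ‖(0 : ℂ)‖ < 4 * s₀ := by
    rw [norm_zero]
    linarith
  have h1 := h.area t ht 0 (Metric.mem_ball_self h.s₁_pos)
  rw [h.X_zero t ht] at h1
  have h2 := d_pos h ht h0
  have h3 := d_pos h le_rfl h0
  have h4 := h.d_lo 0 le_rfl 0 (Metric.mem_ball_self (by linarith))
  have h5 := d_le h ht h0
  have h6 := h.C_le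
  have h7 : 0 < (fderiv ℝ (X t) 0).det := by
    by_contra hcon
    push Not at hcon
    have := mul_nonpos_of_nonpos_of_nonneg hcon h2.le
    linarith
  refine ⟨h1, h7, ?_⟩
  have h8 : (fderiv ℝ (X t) 0).det * d t 0 ≤ (fderiv ℝ (X t) 0).det * C :=
    mul_le_mul_of_nonneg_left h5 h7.le
  nlinarith

end

end K2a

section dynamics

variable {α κ s₀ s₁ L K E₀ C : ℝ} {w : ℂ → ℝ} {Ψ d : ℝ → ℂ → ℝ} {X : ℝ → ℂ → ℂ}

open K2a in
/-- [K2a] facts about the frame: determinant, bounds, the flow in the frame, vorticity -/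
theorem frame_facts (h : PF α κ s₀ s₁ L K E₀ C w Ψ d X) {τ : ℂ} (hτ : ‖τ‖ = 1) :
    ∀ t, 0 ≤ t → wed (pf X τ t) (qf X τ t) * d t 0 = d 0 0 ∧ 0 < wed (pf X τ t) (qf X τ t) ∧
      (∀ z, ‖lmap (pf X τ t) (qf X τ t) z‖ ≤ L * ‖z‖) ∧
      (∀ z, ‖z‖ ≤ (L * C ^ 2) * ‖lmap (pf X τ t) (qf X τ t) z‖) ∧
      (∀ y, ‖y‖ < s₁ → lmap (pf X τ t) (qf X τ t) (Yf X τ t y) = X t (τ * y)) ∧
      (∀ y, ‖y‖ < s₁ → ‖Yf X τ t y‖ ≤ (L ^ 2 * C ^ 2) * ‖y‖) ∧
      (∀ y, ‖y‖ < s₁ → wf Ψ d X τ t (Yf X τ t y) = w (τ * y)) ∧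
      (∀ z, fderiv ℝ (fun v => lap (Ψ t) v / d t v) 0 (lmap (pf X τ t) (qf X τ t) z) =
        fderiv ℝ w 0 (τ * z)) := by
  intro t ht
  have hs := s₀_pos h
  have hs₁ := h.s₁_pos
  have hC := h.C_le
  have hL := h.L_le
  obtain ⟨hdet, hpos, hlo⟩ := det_facts h ht
  have hwed : wed (pf X τ t) (qf X τ t) = (fderiv ℝ (X t) 0).det := by
    unfold pf qf
    rw [wed_eq, hτ]
    ring
  have hlm : ∀ z, lmap (pf X τ t) (qf X τ t) z = fderiv ℝ (X t) 0 (τ * z) := fun z => by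
    unfold pf qf
    exact lmap_eq _ _ _
  have hnz : ∀ z : ℂ, ‖τ * z‖ = ‖z‖ := fun z => by rw [norm_mul, hτ, one_mul]
  have hA : ‖fderiv ℝ (X t) 0‖ ≤ L := h.X_lip t ht 0 (Metric.mem_ball_self hs₁)
  have hlow : ∀ z, ‖z‖ ≤ (L * C ^ 2) * ‖lmap (pf X τ t) (qf X τ t) z‖ := fun z => by
    have h1 := norm_le_det (fderiv ℝ (X t) 0) hA (τ * z)
    rw [hnz, ← hlm] at h1
    have h2 := norm_nonneg z
    have h3 : 0 ≤ C ^ 2 := sq_nonneg C
    have h4 : C ^ 2 * ((fderiv ℝ (X t) 0).det * ‖z‖) ≤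
        C ^ 2 * (L * ‖lmap (pf X τ t) (qf X τ t) z‖) := mul_le_mul_of_nonneg_left h1 h3
    nlinarith
  have hY : ∀ y, lmap (pf X τ t) (qf X τ t) (Yf X τ t y) = X t (τ * y) := fun y => by
    unfold Yf
    rw [lmap_ginv]
    rw [hwed]
    exact hpos.ne'
  have hin : ∀ y, ‖y‖ < s₁ → X t (τ * y) ∈ Metric.ball (0 : ℂ) s₀ := fun y hy =>
    mem_ball_zero_iff.2 (X_lt h ht (by rwa [hnz]))
  refine ⟨by rw [hwed]; exact hdet, by rw [hwed]; exact hpos, ?_, hlow, fun y _ => hY y, ?_, ?_, ?_⟩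
  · intro z
    rw [hlm]
    refine ((fderiv ℝ (X t) 0).le_of_opNorm_le hA _).trans (le_of_eq ?_)
    rw [hnz]
  · intro y hy
    have h1 := hlow (Yf X τ t y)
    rw [hY] at h1
    have h2 := X_le h ht (v := τ * y) (by rwa [hnz])
    rw [hnz] at h2
    have h3 : 0 ≤ L * C ^ 2 := by positivity
    calc ‖Yf X τ t y‖ ≤ (L * C ^ 2) * ‖X t (τ * y)‖ := h1
      _ ≤ (L * C ^ 2) * (L * ‖y‖) := mul_le_mul_of_nonneg_left h2 h3
      _ = (L ^ 2 * C ^ 2) * ‖y‖ := by ring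
  · intro y hy
    unfold wf
    rw [hY, h.vort t ht _ (mem_ball_zero_iff.2 (by rwa [hnz]))]
    have h1 := mem_ball_zero_iff.1 (hin y hy)
    have h2 := d_pos h ht (v := X t (τ * y)) (by linarith)
    field_simp
  · intro z
    have h0 : (0 : ℂ) ∈ Metric.ball (0 : ℂ) (4 * s₀) := Metric.mem_ball_self (by linarith)
    have h1 : DifferentiableAt ℝ (fun v => lap (Ψ t) v / d t v) (X t 0) := by
      rw [h.X_zero t ht]
      exact ((h.norm t ht).1).differentiableAt (Metric.isOpen_ball.mem_nhds h0)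
    have h2 : DifferentiableAt ℝ (X t) 0 :=
      ((h.X_c1 t ht).differentiableOn one_ne_zero).differentiableAt
        (Metric.isOpen_ball.mem_nhds (Metric.mem_ball_self hs₁))
    have h3 := fderiv_comp (x := (0 : ℂ)) (g := fun v => lap (Ψ t) v / d t v) h1 h2
    have h4 : ((fun v => lap (Ψ t) v / d t v) ∘ X t) =ᶠ[𝓝 0] w := by
      filter_upwards [Metric.isOpen_ball.mem_nhds (Metric.mem_ball_self (x := (0 : ℂ)) hs₁)] with v hv
      have h5 := X_lt h ht (mem_ball_zero_iff.1 hv)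
      have h6 := d_pos h ht (v := X t v) (by linarith)
      simp only [Function.comp_apply]
      rw [h.vort t ht v hv]
      field_simp
    rw [h4.fderiv_eq, h.X_zero t ht] at h3
    rw [h3, hlm]
    rfl

end dynamics

end Pool.Agent.YUS
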