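import Pool.Agent.YUS.K2n
import Pool.Agent.YUS.A1

/-!
# [YUS-K2b] the equation of motion in the frame
-/

open MeasureTheory Set Filter Topology
open scoped ContDiff

namespace Pool.Agent.YUS

open Pool.Agent.YUD Pool.Agent.YUT Pool.Agent.YUB Pool.Agent.YUR Pool.Agent.YUL

namespace K2b

theorem re_deriv {p : ℝ → ℂ} {p' : ℂ} {s : Set ℝ} {t₀ : ℝ} (hp : HasDerivWithinAt p p' s t₀) :
    HasDerivWithinAt (fun t => (p t).re) p'.re s t₀ :=
  Complex.reCLM.hasFDerivAt.comp_hasDerivWithinAt t₀ hp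

theorem im_deriv {p : ℝ → ℂ} {p' : ℂ} {s : Set ℝ} {t₀ : ℝ} (hp : HasDerivWithinAt p p' s t₀) :
    HasDerivWithinAt (fun t => (p t).im) p'.im s t₀ :=
  Complex.imCLM.hasFDerivAt.comp_hasDerivWithinAt t₀ hp

theorem wed_deriv {p q : ℝ → ℂ} {p' q' : ℂ} {s : Set ℝ} {t₀ : ℝ}
    (hp : HasDerivWithinAt p p' s t₀) (hq : HasDerivWithinAt q q' s t₀) :
    HasDerivWithinAt (fun t => wed (p t) (q t)) (wed p' (q t₀) + wed (p t₀) q') s t₀ := by
  have h1 := ((re_deriv hp).mul (im_deriv hq)).sub ((im_deriv hp).mul (re_deriv hq))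
  have h2 : wed p' (q t₀) + wed (p t₀) q' =
      p'.re * (q t₀).im + (p t₀).re * q'.im - (p'.im * (q t₀).re + (p t₀).im * q'.re) := by
    unfold wed
    ring
  rw [h2]
  exact h1

theorem lin_wed (N : ℂ →L[ℝ] ℂ) (p : ℂ) :
    (N p).re = p.re * (N 1).re + p.im * (N Complex.I).re ∧
      (N p).im = p.re * (N 1).im + p.im * (N Complex.I).im := by
  rw [K2a.apply_eq N p]
  simp

/-- derivative of the solution of a linear system whose columns move with `N` -/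
theorem ginv_deriv {N : ℂ →L[ℝ] ℂ} {p q ξ : ℝ → ℂ} {ξ' : ℂ} {s : Set ℝ} {t₀ : ℝ}
    (hp : HasDerivWithinAt p (N (p t₀)) s t₀) (hq : HasDerivWithinAt q (N (q t₀)) s t₀)
    (hξ : HasDerivWithinAt ξ ξ' s t₀) (h : wed (p t₀) (q t₀) ≠ 0) :
    HasDerivWithinAt (fun t => ginv (p t) (q t) (ξ t)) (ginv (p t₀) (q t₀) (ξ' - N (ξ t₀)))
      s t₀ := by
  have h1 := (wed_deriv hp hq).fun_inv h
  have h2 := h1.fun_mul (wed_deriv hξ hq)
  have h3 := h1.fun_mul (wed_deriv hp hξ)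
  have h4 := h2.ofReal_comp.fun_add (h3.ofReal_comp.mul_const Complex.I)
  have e1 : (fun t => ginv (p t) (q t) (ξ t)) = fun t =>
      (((wed (p t) (q t))⁻¹ * wed (ξ t) (q t) : ℝ) : ℂ) +
        (((wed (p t) (q t))⁻¹ * wed (p t) (ξ t) : ℝ) : ℂ) * Complex.I := by
    funext t
    unfold ginv linv
    apply Complex.ext <;> simp
  rw [e1]
  refine h4.congr_deriv ?_
  symm
  obtain ⟨a1, a2⟩ := lin_wed N (p t₀)
  obtain ⟨b1, b2⟩ := lin_wed N (q t₀)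
  obtain ⟨c1, c2⟩ := lin_wed N (ξ t₀)
  have h5 : (p t₀).re * (q t₀).im - (p t₀).im * (q t₀).re ≠ 0 := h
  unfold ginv linv
  apply Complex.ext
  · simp only [Complex.real_smul, Complex.add_re, Complex.mul_re, Complex.ofReal_re,
      Complex.ofReal_im, Complex.I_re, Complex.I_im, wed, Complex.sub_re, Complex.sub_im,
      a1, a2, b1, b2, c1, c2]
    field_simp
    ring
  · simp only [Complex.real_smul, Complex.add_im, Complex.mul_im, Complex.ofReal_re,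
      Complex.ofReal_im, Complex.I_re, Complex.I_im, wed, Complex.sub_re, Complex.sub_im,
      a1, a2, b1, b2, c1, c2]
    field_simp
    ring

end K2b

section dynamics

variable {α κ s₀ s₁ L K E₀ C : ℝ} {w : ℂ → ℝ} {Ψ d : ℝ → ℂ → ℝ} {X : ℝ → ℂ → ℂ}

open K2m in
/-- [K2b] the equation of motion in the frame -/
theorem frame_motion (hα : 0 < α) (hα1 : α < 1) (h : PF α κ s₀ s₁ L K E₀ C w Ψ d X) {τ : ℂ}
    (hτ : ‖τ‖ = 1) : ∀ t, 0 ≤ t → ∀ y, ‖y‖ < s₁ →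
      HasDerivWithinAt (fun t' => Yf X τ t' y)
        (Vf κ (Ψ t) (d t) (pf X τ t) (qf X τ t) (Yf X τ t y)) (Ici 0) t := by
  intro t₀ ht₀ y hy
  obtain ⟨δ, x, ρ, X₀, ψ₀, d₀, T⟩ := h.tloc t₀ ht₀
  have hs := K2a.s₀_pos h
  have hm := t₀_mem T ht₀
  have hS := nhds_S (t₀ := t₀) T.δ_pos
  obtain ⟨-, hlin⟩ := K2m.lin hα hα1 h T ht₀
  have h00 : |t₀ - t₀| < δ := by
    rw [sub_self, abs_zero]
    exact T.δ_pos
  have hX0 : X₀ t₀ 0 = 0 := by rw [X₀_zero T hm, T.x_zero]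
  have hτy : τ * y ∈ Metric.ball (0 : ℂ) s₁ := mem_ball_zero_iff.2 (by rwa [norm_mul, hτ, one_mul])
  have hcf : cf κ x t₀ = 1 := by
    unfold cf
    rw [T.x_zero, norm_zero]
    ring
  -- derivative of the position of the particle
  have hx : HasDerivWithinAt x (Uf (ψ₀ t₀) d₀ 0) (Ici 0) t₀ := by
    have h1 := T.ode t₀ ht₀ h00 0 (Metric.mem_ball_self h.s₁_pos)
    rw [hX0] at h1
    refine h1.congr_of_eventuallyEq ?_ (by rw [hX0, T.x_zero])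
    filter_upwards [hS] with t ht
    exact (X₀_zero T ht).symm
  have hζ : HasDerivWithinAt (fun t => X₀ t (τ * y)) (Uf (ψ₀ t₀) d₀ (X₀ t₀ (τ * y))) (Ici 0) t₀ :=
    T.ode t₀ ht₀ h00 _ hτy
  -- derivative of the factor
  have hc : HasDerivWithinAt (fun t => (cf κ x t : ℂ)) 0 (Ici 0) t₀ := by
    have h1 := ((hx.norm_sq).const_mul κ).const_add 1
    rw [T.x_zero, inner_zero_left, mul_zero, mul_zero] at h1
    have h2 := h1.ofReal_comp
    rwa [Complex.ofReal_zero] at h2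
  -- derivative of the numerator and the denominator of `mob`
  have hn : HasDerivWithinAt (fun t => X₀ t (τ * y) + -x t)
      (Uf (ψ₀ t₀) d₀ (X₀ t₀ (τ * y)) + -Uf (ψ₀ t₀) d₀ 0) (Ici 0) t₀ := hζ.add hx.neg
  have hd : HasDerivWithinAt (fun t => 1 - κ * (starRingEnd ℂ) (-x t) * X₀ t (τ * y))
      (κ * (starRingEnd ℂ) (Uf (ψ₀ t₀) d₀ 0) * X₀ t₀ (τ * y)) (Ici 0) t₀ := by
    have h1 : HasDerivWithinAt (fun t => (starRingEnd ℂ) (-x t))
        ((starRingEnd ℂ) (-Uf (ψ₀ t₀) d₀ 0)) (Ici 0) t₀ := hx.neg.star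
    have h2 := ((h1.const_mul (κ : ℂ)).mul hζ).const_sub 1
    refine h2.congr_deriv ?_
    rw [T.x_zero]
    simp
  have hd0 : 1 - (κ : ℂ) * (starRingEnd ℂ) (-x t₀) * X₀ t₀ (τ * y) = 1 := by
    rw [T.x_zero]
    simp
  have hmob := hn.div hd (by rw [hd0]; exact one_ne_zero)
  have hξ := hc.mul hmob
  have hwed := (wed_hat (σ := τ) hτ h T hm).2
  have hfin := K2b.ginv_deriv (N := fderiv ℝ (Uf (ψ₀ t₀) d₀) 0) (p := pf X₀ τ) (q := qf X₀ τ)
    (hlin τ) (hlin (τ * Complex.I)) hξ hwed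
  -- the flow in the frame
  have hY : (fun t' => Yf X τ t' y) =ᶠ[𝓝[Ici 0] t₀] fun t => ginv (pf X₀ τ t) (qf X₀ τ t)
      (cf κ x t * ((X₀ t (τ * y) + -x t) / (1 - κ * (starRingEnd ℂ) (-x t) * X₀ t (τ * y)))) := by
    filter_upwards [hS] with t ht
    exact Yf_eq hτ h T ht hy
  have hY0 : Yf X τ t₀ y = ginv (pf X₀ τ t₀) (qf X₀ τ t₀)
      (cf κ x t₀ * ((X₀ t₀ (τ * y) + -x t₀) /
        (1 - κ * (starRingEnd ℂ) (-x t₀) * X₀ t₀ (τ * y)))) := Yf_eq hτ h T hm hy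
  have hfin2 := hfin.congr_of_eventuallyEq hY hY0
  refine hfin2.congr_deriv ?_
  symm
  -- the relative velocity
  have hY1 : Yf X τ t₀ y = ginv (pf X₀ τ t₀) (qf X₀ τ t₀) (X₀ t₀ (τ * y)) := by
    rw [hY0, hd0, hcf, T.x_zero]
    simp
  have hu : X₀ t₀ (τ * y) =
      (cf κ x t₀ : ℂ)⁻¹ * lmap (pf X₀ τ t₀) (qf X₀ τ t₀) (Yf X τ t₀ y) := by
    rw [hY1, K2a.lmap_ginv hwed, hcf]
    simp
  have hu2 : ‖X₀ t₀ (τ * y)‖ < 2 * s₀ :=
    mem_ball_zero_iff.1 (T.X₀_mem t₀ ht₀ h00 _ hτy)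
  rw [Vf_eq hα hα1 hτ h T hm hu hu2]
  congr 1
  simp only [Pi.mul_apply, Pi.div_apply]
  rw [hd0, hcf]
  unfold Uh
  rw [hcf, T.x_zero, mob_zero_left, mob_zero_left]
  simp
  ring

end dynamics

end Pool.Agent.YUS
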