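import Pool.Agent.YUS.K2b
import Pool.Agent.YUS.A1
import Pool.Agent.YUS.K2a

/-!
# [YUS-K2c] continuity in time of the frame, the density and the relative velocity
-/

open MeasureTheory Set Filter Topology
open scoped ContDiff

namespace Pool.Agent.YUS

open Pool.Agent.YUD Pool.Agent.YUT Pool.Agent.YUB Pool.Agent.YUR Pool.Agent.YUL

namespace K2c

open K2m

section general

variable {Y : Type*} [TopologicalSpace Y] {s : Set Y} {y₀ : Y}

theorem re_cont {p : Y → ℂ} (hp : ContinuousWithinAt p s y₀) :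
    ContinuousWithinAt (fun y => (p y).re) s y₀ :=
  Complex.continuous_re.continuousAt.comp_continuousWithinAt hp

theorem im_cont {p : Y → ℂ} (hp : ContinuousWithinAt p s y₀) :
    ContinuousWithinAt (fun y => (p y).im) s y₀ :=
  Complex.continuous_im.continuousAt.comp_continuousWithinAt hp

theorem of_cont {p : Y → ℝ} (hp : ContinuousWithinAt p s y₀) :
    ContinuousWithinAt (fun y => (p y : ℂ)) s y₀ :=
  Complex.continuous_ofReal.continuousAt.comp_continuousWithinAt hp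

theorem conj_cont {p : Y → ℂ} (hp : ContinuousWithinAt p s y₀) :
    ContinuousWithinAt (fun y => (starRingEnd ℂ) (p y)) s y₀ :=
  Complex.continuous_conj.continuousAt.comp_continuousWithinAt hp

theorem wed_cont {p q : Y → ℂ} (hp : ContinuousWithinAt p s y₀) (hq : ContinuousWithinAt q s y₀) :
    ContinuousWithinAt (fun y => wed (p y) (q y)) s y₀ :=
  ((re_cont hp).mul (im_cont hq)).sub ((im_cont hp).mul (re_cont hq))

theorem lmap_cont {p q z : Y → ℂ} (hp : ContinuousWithinAt p s y₀)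
    (hq : ContinuousWithinAt q s y₀) (hz : ContinuousWithinAt z s y₀) :
    ContinuousWithinAt (fun y => lmap (p y) (q y) (z y)) s y₀ :=
  ((of_cont (re_cont hz)).mul hp).add ((of_cont (im_cont hz)).mul hq)

theorem ginv_cont {p q z : Y → ℂ} (hp : ContinuousWithinAt p s y₀)
    (hq : ContinuousWithinAt q s y₀) (hz : ContinuousWithinAt z s y₀)
    (h : wed (p y₀) (q y₀) ≠ 0) :
    ContinuousWithinAt (fun y => ginv (p y) (q y) (z y)) s y₀ := by
  have h1 : ContinuousWithinAt (fun y => (wed (p y) (q y))⁻¹) s y₀ := (wed_cont hp hq).inv₀ h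
  have e : (fun y => ginv (p y) (q y) (z y)) = fun y => (((wed (p y) (q y))⁻¹ : ℝ) : ℂ) *
      (((wed (z y) (q y) : ℝ) : ℂ) + ((wed (p y) (z y) : ℝ) : ℂ) * Complex.I) := by
    funext y
    unfold ginv linv
    rw [Complex.real_smul]
    congr 1
    apply Complex.ext <;> simp
  rw [e]
  exact (of_cont h1).mul ((of_cont (wed_cont hz hq)).add
    ((of_cont (wed_cont hp hz)).mul continuousWithinAt_const))

end general

section

variable {α κ s₀ s₁ L K E₀ C t₀ δ : ℝ} {w : ℂ → ℝ} {Ψ d : ℝ → ℂ → ℝ} {X : ℝ → ℂ → ℂ}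
  {x τ : ℝ → ℂ} {X₀ : ℝ → ℂ → ℂ} {ψ₀ : ℝ → ℂ → ℝ} {d₀ : ℂ → ℝ} {σ : ℂ}

theorem x_cont (h : PF α κ s₀ s₁ L K E₀ C w Ψ d X)
    (T : TLoc α κ s₀ s₁ K E₀ C t₀ δ Ψ d X x τ X₀ ψ₀ d₀) (ht₀ : 0 ≤ t₀) :
    ContinuousWithinAt x (Ici 0) t₀ := by
  have hm := t₀_mem T ht₀
  have h1 := (T.ode t₀ ht₀ (mem_iff.1 hm).2 0 (Metric.mem_ball_self h.s₁_pos)).continuousWithinAt
  refine h1.congr_of_eventuallyEq ?_ (X₀_zero T hm).symm
  filter_upwards [nhds_S (t₀ := t₀) T.δ_pos] with t ht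
  exact (X₀_zero T ht).symm

theorem cf_zero (T : TLoc α κ s₀ s₁ K E₀ C t₀ δ Ψ d X x τ X₀ ψ₀ d₀) : cf κ x t₀ = 1 := by
  unfold cf
  rw [T.x_zero, norm_zero]
  ring

variable {Y : Type*} [TopologicalSpace Y] {s : Set Y} {y₀ : Y} {tt : Y → ℝ} {zz : Y → ℂ}

theorem cf_cont {x : Y → ℂ} (hx : ContinuousWithinAt x s y₀) :
    ContinuousWithinAt (fun y => 1 + κ * ‖x y‖ ^ 2) s y₀ :=
  continuousWithinAt_const.add (continuousWithinAt_const.mul (hx.norm.pow 2))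

theorem mob_cont {x z : Y → ℂ} (hx : ContinuousWithinAt x s y₀) (hz : ContinuousWithinAt z s y₀)
    (h0 : x y₀ = 0) : ContinuousWithinAt (fun y => mob κ (x y) (z y)) s y₀ := by
  unfold mob
  refine (hz.add hx).div (continuousWithinAt_const.sub
    ((continuousWithinAt_const.mul (conj_cont hx)).mul hz)) ?_
  rw [h0]
  simp

/-- joint continuity of the relative velocity -/
theorem Vf_cont (hα : 0 < α) (hα1 : α < 1) (hσ : ‖σ‖ = 1) (h : PF α κ s₀ s₁ L K E₀ C w Ψ d X)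
    (T : TLoc α κ s₀ s₁ K E₀ C t₀ δ Ψ d X x τ X₀ ψ₀ d₀) (ht₀ : 0 ≤ t₀)
    (htt : ContinuousWithinAt tt s y₀) (hzz : ContinuousWithinAt zz s y₀) (h0 : tt y₀ = t₀)
    (hm : MapsTo tt s (Ici 0)) (hz0 : ‖zz y₀‖ < s₀ / L) :
    ContinuousWithinAt (fun y => Vf κ (Ψ (tt y)) (d (tt y)) (pf X σ (tt y)) (qf X σ (tt y)) (zz y))
      s y₀ := by
  have hs := K2a.s₀_pos h
  have hL : 0 < L := lt_of_lt_of_le one_pos h.L_le
  have hmem := t₀_mem T ht₀
  obtain ⟨hN, hlin⟩ := K2m.lin hα hα1 h T ht₀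
  have htt' : Tendsto tt (𝓝[s] y₀) (𝓝[Ici 0] t₀) := by
    have h1 := htt.tendsto_nhdsWithin hm
    rwa [h0] at h1
  -- pull back of continuity
  have pull : ∀ {E : Type} [TopologicalSpace E] {f : ℝ → E}, ContinuousWithinAt f (Ici 0) t₀ →
      ContinuousWithinAt (fun y => f (tt y)) s y₀ := by
    intro E _ f hf
    have h1 : Tendsto (fun y => f (tt y)) (𝓝[s] y₀) (𝓝 (f t₀)) := hf.tendsto.comp htt'
    have h2 : f t₀ = (fun y => f (tt y)) y₀ := by simp only [h0]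
    rw [h2] at h1
    exact h1
  have hx := pull (x_cont h T ht₀)
  have hp : ContinuousWithinAt (fun y => pf X₀ σ (tt y)) s y₀ :=
    pull (hlin σ).continuousWithinAt
  have hq : ContinuousWithinAt (fun y => qf X₀ σ (tt y)) s y₀ :=
    pull (hlin (σ * Complex.I)).continuousWithinAt
  have hx0 : x (tt y₀) = 0 := by rw [h0, T.x_zero]
  have hcf0 : cf κ x (tt y₀) = 1 := by rw [h0, cf_zero T]
  have hc : ContinuousWithinAt (fun y => (cf κ x (tt y) : ℂ)) s y₀ := of_cont (cf_cont hx)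
  have hci : ContinuousWithinAt (fun y => (cf κ x (tt y) : ℂ)⁻¹) s y₀ := by
    refine hc.inv₀ ?_
    rw [hcf0]
    simp
  have hwed := (wed_hat (σ := σ) hσ h T hmem).2
  have hu : ContinuousWithinAt (fun y => (cf κ x (tt y) : ℂ)⁻¹ *
      lmap (pf X₀ σ (tt y)) (qf X₀ σ (tt y)) (zz y)) s y₀ := hci.mul (lmap_cont hp hq hzz)
  -- the size of `u`
  have hu0 : ‖(cf κ x (tt y₀) : ℂ)⁻¹ * lmap (pf X₀ σ (tt y₀)) (qf X₀ σ (tt y₀)) (zz y₀)‖ < s₀ := by
    have h1 := (frame_facts h hσ t₀ ht₀).2.2.1 (zz y₀)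
    rw [pf_eq h T hmem, qf_eq h T hmem, lmap_smul, mul_assoc, norm_mul, T.τ_norm, one_mul] at h1
    rw [h0]
    refine lt_of_le_of_lt h1 ?_
    rw [lt_div_iff₀ hL] at hz0
    linarith
  have hu1 : ∀ᶠ y in 𝓝[s] y₀, ‖(cf κ x (tt y) : ℂ)⁻¹ *
      lmap (pf X₀ σ (tt y)) (qf X₀ σ (tt y)) (zz y)‖ < 2 * s₀ :=
    hu.norm.eventually_lt continuousWithinAt_const (by linarith)
  have hU : ∀ {z : Y → ℂ}, ContinuousWithinAt z s y₀ → ‖z y₀‖ < s₀ →
      ContinuousWithinAt (fun y => Uf (ψ₀ (tt y)) d₀ (mob κ (x (tt y)) (z y))) s y₀ := by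
    intro z hz hzs
    have h1 : ContinuousWithinAt (fun y => (tt y, mob κ (x (tt y)) (z y))) s y₀ :=
      htt.prodMk (mob_cont hx hz hx0)
    have hbase : (tt y₀, mob κ (x (tt y₀)) (z y₀)) ∈
        (Ici (0 : ℝ) ∩ Ioo (t₀ - δ) (t₀ + δ)) ×ˢ Metric.ball (0 : ℂ) (4 * s₀) := by
      refine ⟨?_, ?_⟩
      · simpa only [h0] using hmem
      · rw [hx0, mob_zero_left]
        exact mem_ball_zero_iff.2 (by linarith)
    have h2 := (U_cont h T) _ hbase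
    have h3 : ∀ᶠ y in 𝓝[s] y₀, (tt y, mob κ (x (tt y)) (z y)) ∈
        (Ici (0 : ℝ) ∩ Ioo (t₀ - δ) (t₀ + δ)) ×ˢ Metric.ball (0 : ℂ) (4 * s₀) := by
      have h4 : ∀ᶠ y in 𝓝[s] y₀, tt y ∈ Ici (0 : ℝ) ∩ Ioo (t₀ - δ) (t₀ + δ) :=
        htt'.eventually (nhds_S T.δ_pos)
      have h5 : ∀ᶠ y in 𝓝[s] y₀, ‖mob κ (x (tt y)) (z y)‖ < 4 * s₀ := by
        refine (mob_cont hx hz hx0).norm.eventually_lt continuousWithinAt_const ?_
        change ‖mob κ (x (tt y₀)) (z y₀)‖ < 4 * s₀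
        rw [hx0, mob_zero_left]
        linarith
      filter_upwards [h4, h5] with y hy1 hy2
      exact ⟨hy1, mem_ball_zero_iff.2 hy2⟩
    exact h2.tendsto.comp (tendsto_nhdsWithin_of_tendsto_nhds_of_eventually_within _ h1 h3)
  have hUh : ∀ {z : Y → ℂ}, ContinuousWithinAt z s y₀ → ‖z y₀‖ < s₀ →
      ContinuousWithinAt (fun y => Uh κ x ψ₀ d₀ (tt y) (z y)) s y₀ := by
    intro z hz hzs
    exact (hU hz hzs).mul (((continuousWithinAt_const.sub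
      ((continuousWithinAt_const.mul (conj_cont hx)).mul hz)).pow 2).mul hci)
  have hUx : ContinuousWithinAt (fun y => Uf (ψ₀ (tt y)) d₀ (x (tt y))) s y₀ := by
    have h1 := hU (z := fun _ => (0 : ℂ)) continuousWithinAt_const (by simpa using hs)
    simp only [mob_zero_right] at h1
    exact h1
  have hUh0 := hUh (z := fun _ => (0 : ℂ)) continuousWithinAt_const (by simpa using hs)
  have hDU : ContinuousWithinAt (fun y => fderiv ℝ (Uf (ψ₀ (tt y)) d₀) (x (tt y))) s y₀ := by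
    refine pull (f := fun t => fderiv ℝ (Uf (ψ₀ t) d₀) (x t)) ?_
    have h1 : ContinuousWithinAt (fun t => fderiv ℝ (Uf (ψ₀ t) d₀) (X₀ t 0)) (Ici 0) t₀ :=
      (hN t₀ hmem).mono_of_mem_nhdsWithin (nhds_S T.δ_pos)
    refine h1.congr_of_eventuallyEq ?_ (by rw [X₀_zero T hmem])
    filter_upwards [nhds_S (t₀ := t₀) T.δ_pos] with t ht
    rw [X₀_zero T ht]
  have hfin := ginv_cont hp hq (hc.mul ((((hUh hu hu0).sub hUh0).sub
    ((continuousWithinAt_const (b := (κ : ℂ))).mul (conj_cont hUh0) |>.mul (hu.pow 2))).sub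
      ((hDU.clm_apply hu).sub ((((continuousWithinAt_const (b := (2 * κ : ℂ))).mul
        (conj_cont hx)).mul hci).mul hu |>.mul hUx)))) (by rw [h0]; exact hwed)
  refine hfin.congr_of_eventuallyEq ?_ ?_
  · have h4 : ∀ᶠ y in 𝓝[s] y₀, tt y ∈ Ici (0 : ℝ) ∩ Ioo (t₀ - δ) (t₀ + δ) :=
      htt'.eventually (nhds_S T.δ_pos)
    filter_upwards [h4, hu1] with y hy1 hy2
    exact Vf_eq hα hα1 hσ h T hy1 rfl hy2
  · refine Vf_eq hα hα1 hσ h T ?_ rfl (by linarith)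
    rw [h0]
    exact hmem

/-- continuity of the density in the frame -/
theorem mf_cont (hα : 0 < α) (hα1 : α < 1) (hσ : ‖σ‖ = 1) (h : PF α κ s₀ s₁ L K E₀ C w Ψ d X)
    (T : TLoc α κ s₀ s₁ K E₀ C t₀ δ Ψ d X x τ X₀ ψ₀ d₀) (ht₀ : 0 ≤ t₀) :
    ContinuousWithinAt (fun t => ‖qf X σ t‖ ^ 2 / wed (pf X σ t) (qf X σ t) ^ 2) (Ici 0) t₀ ∧
      ContinuousWithinAt (fun t => wed (pf X σ t) (qf X σ t)) (Ici 0) t₀ ∧
      ContinuousWithinAt (fun t => d t 0) (Ici 0) t₀ ∧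
      (∀ z, ‖z‖ < s₀ / L → ContinuousWithinAt (fun t => mf d X σ t z) (Ici 0) t₀) := by
  have hs := K2a.s₀_pos h
  have hL : 0 < L := lt_of_lt_of_le one_pos h.L_le
  have hmem := t₀_mem T ht₀
  have hS := nhds_S (t₀ := t₀) T.δ_pos
  obtain ⟨-, hlin⟩ := K2m.lin hα hα1 h T ht₀
  have hx := x_cont h T ht₀
  have hp : ContinuousWithinAt (pf X₀ σ) (Ici 0) t₀ := (hlin σ).continuousWithinAt
  have hq : ContinuousWithinAt (qf X₀ σ) (Ici 0) t₀ := (hlin (σ * Complex.I)).continuousWithinAt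
  have hc : ContinuousWithinAt (cf κ x) (Ici 0) t₀ := cf_cont hx
  have hcf0 : cf κ x t₀ = 1 := cf_zero T
  have hci : ContinuousWithinAt (fun t => (cf κ x t)⁻¹) (Ici 0) t₀ := by
    refine hc.inv₀ ?_
    rw [hcf0]
    exact one_ne_zero
  have hciC : ContinuousWithinAt (fun t => (cf κ x t : ℂ)⁻¹) (Ici 0) t₀ := by
    refine (of_cont hc).inv₀ ?_
    rw [hcf0]
    simp
  have hwed := (wed_hat (σ := σ) hσ h T hmem).2
  have h1 : ContinuousWithinAt (fun t => wed (pf X σ t) (qf X σ t)) (Ici 0) t₀ := by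
    refine ((hci.pow 2).mul (wed_cont hp hq)).congr_of_eventuallyEq ?_ (wed_hat hσ h T hmem).1
    filter_upwards [hS] with t ht
    exact (wed_hat hσ h T ht).1
  have h2 : ContinuousWithinAt (fun t => ‖qf X σ t‖) (Ici 0) t₀ := by
    have h3 : ∀ t ∈ Ici (0 : ℝ) ∩ Ioo (t₀ - δ) (t₀ + δ),
        ‖qf X σ t‖ = (cf κ x t)⁻¹ * ‖qf X₀ σ t‖ := fun t ht => by
      rw [qf_eq h T ht, norm_mul, sc_norm h T ht]
    refine (hci.mul hq.norm).congr_of_eventuallyEq ?_ (h3 t₀ hmem)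
    filter_upwards [hS] with t ht
    exact h3 t ht
  have hpos := (frame_facts h hσ t₀ ht₀).2.1
  -- the density
  have hd : ∀ {z : ℝ → ℂ}, ContinuousWithinAt z (Ici 0) t₀ → ‖z t₀‖ < s₀ →
      ContinuousWithinAt (fun t => d t (τ t * z t)) (Ici 0) t₀ := by
    intro z hz hzs
    have h4 := mob_cont (κ := κ) hx hz T.x_zero
    have hb : mob κ (x t₀) (z t₀) ∈ Metric.ball (0 : ℂ) (4 * s₀) := by
      rw [T.x_zero, mob_zero_left]
      exact mem_ball_zero_iff.2 (by linarith)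
    have h5 : ContinuousWithinAt (fun t => d₀ (mob κ (x t) (z t))) (Ici 0) t₀ := by
      have h6 : ContinuousAt d₀ (mob κ (x t₀) (z t₀)) :=
        (T.d₀_smooth.continuousOn).continuousAt (Metric.isOpen_ball.mem_nhds hb)
      exact ContinuousAt.comp_continuousWithinAt (f := fun t => mob κ (x t) (z t)) h6 h4
    have h7 : ContinuousWithinAt (fun t => d₀ (mob κ (x t) (z t)) * cf κ x t ^ 2 /
        ‖1 - κ * (starRingEnd ℂ) (x t) * z t‖ ^ 4) (Ici 0) t₀ := by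
      refine (h5.mul (hc.pow 2)).div (((continuousWithinAt_const.sub
        ((continuousWithinAt_const.mul (conj_cont hx)).mul hz)).norm).pow 4) ?_
      rw [T.x_zero]
      simp
    have h8 : ∀ᶠ t in 𝓝[Ici 0] t₀, ‖z t‖ < 2 * s₀ :=
      hz.norm.eventually_lt continuousWithinAt_const (by linarith)
    refine h7.congr_of_eventuallyEq ?_ ?_
    · filter_upwards [hS, h8] with t ht1 ht2
      exact T.d_eq t (mem_iff.1 ht1).1 (mem_iff.1 ht1).2 (z t) (mem_ball_zero_iff.2 ht2)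
    · exact T.d_eq t₀ ht₀ (mem_iff.1 hmem).2 (z t₀) (mem_ball_zero_iff.2 (by linarith))
  have hd0 : ContinuousWithinAt (fun t => d t 0) (Ici 0) t₀ := by
    have h4 := hd (z := fun _ => (0 : ℂ)) continuousWithinAt_const (by simpa using hs)
    simpa only [mul_zero] using h4
  refine ⟨(h2.pow 2).div (h1.pow 2) (pow_ne_zero _ hpos.ne'), h1, hd0, fun z hz => ?_⟩
  have hu : ContinuousWithinAt (fun t => (cf κ x t : ℂ)⁻¹ *
      lmap (pf X₀ σ t) (qf X₀ σ t) z) (Ici 0) t₀ :=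
    hciC.mul (lmap_cont hp hq continuousWithinAt_const)
  have hu0 : ‖(cf κ x t₀ : ℂ)⁻¹ * lmap (pf X₀ σ t₀) (qf X₀ σ t₀) z‖ < s₀ := by
    have h1 := (frame_facts h hσ t₀ ht₀).2.2.1 z
    rw [pf_eq h T hmem, qf_eq h T hmem, lmap_smul, mul_assoc, norm_mul, T.τ_norm, one_mul] at h1
    refine lt_of_le_of_lt h1 ?_
    rw [lt_div_iff₀ hL] at hz
    linarith
  have h4 := hd hu hu0
  have h5 : ∀ t ∈ Ici (0 : ℝ) ∩ Ioo (t₀ - δ) (t₀ + δ), mf d X σ t z =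
      d t (τ t * ((cf κ x t : ℂ)⁻¹ * lmap (pf X₀ σ t) (qf X₀ σ t) z)) / d t 0 := fun t ht => by
    unfold mf
    rw [pf_eq h T ht, qf_eq h T ht, lmap_smul, mul_assoc]
  have hdne : d t₀ 0 ≠ 0 := (K2a.d_pos h ht₀ (by rw [norm_zero]; linarith)).ne'
  refine (h4.div hd0 hdne).congr_of_eventuallyEq ?_ (h5 t₀ hmem)
  filter_upwards [hS] with t ht
  exact h5 t ht

end

end K2c

section dynamics

variable {α κ s₀ s₁ L K E₀ C : ℝ} {w : ℂ → ℝ} {Ψ d : ℝ → ℂ → ℝ} {X : ℝ → ℂ → ℂ}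

/-- [K2c] continuity in time -/
theorem frame_cont (hα : 0 < α) (hα1 : α < 1) (h : PF α κ s₀ s₁ L K E₀ C w Ψ d X) {τ : ℂ}
    (hτ : ‖τ‖ = 1) :
    ContinuousOn (fun t => ‖qf X τ t‖ ^ 2 / wed (pf X τ t) (qf X τ t) ^ 2) (Ici 0) ∧
      ContinuousOn (fun t => wed (pf X τ t) (qf X τ t)) (Ici 0) ∧
      ContinuousOn (fun t => d t 0) (Ici 0) ∧
      (∀ y, ‖y‖ < s₁ → ContinuousOn (fun t => Yf X τ t y) (Ici 0)) ∧
      (∀ z, ‖z‖ < s₀ / L → ContinuousOn (fun t => mf d X τ t z) (Ici 0)) ∧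
      ContinuousOn (fun x : ℝ × ℂ => Vf κ (Ψ x.1) (d x.1) (pf X τ x.1) (qf X τ x.1) x.2)
        (Ici 0 ×ˢ Metric.ball 0 (s₀ / L)) := by
  have key : ∀ t₀ : ℝ, 0 ≤ t₀ →
      ContinuousWithinAt (fun t => ‖qf X τ t‖ ^ 2 / wed (pf X τ t) (qf X τ t) ^ 2) (Ici 0) t₀ ∧
      ContinuousWithinAt (fun t => wed (pf X τ t) (qf X τ t)) (Ici 0) t₀ ∧
      ContinuousWithinAt (fun t => d t 0) (Ici 0) t₀ ∧
      (∀ z, ‖z‖ < s₀ / L → ContinuousWithinAt (fun t => mf d X τ t z) (Ici 0) t₀) := by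
    intro t₀ ht₀
    obtain ⟨δ, x, ρ, X₀, ψ₀, d₀, T⟩ := h.tloc t₀ ht₀
    exact K2c.mf_cont hα hα1 hτ h T ht₀
  refine ⟨fun t ht => (key t ht).1, fun t ht => (key t ht).2.1, fun t ht => (key t ht).2.2.1,
    fun y hy t ht => (frame_motion hα hα1 h hτ t ht y hy).continuousWithinAt,
    fun z hz t ht => (key t ht).2.2.2 z hz, ?_⟩
  rintro ⟨t₀, z₀⟩ ⟨ht₀, hz₀⟩
  obtain ⟨δ, x, ρ, X₀, ψ₀, d₀, T⟩ := h.tloc t₀ ht₀
  exact K2c.Vf_cont hα hα1 hτ h T ht₀ continuousWithinAt_fst continuousWithinAt_snd rfl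
    (fun y hy => hy.1) (mem_ball_zero_iff.1 hz₀)

end dynamics

end Pool.Agent.YUS
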