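import Pool.Agent.YUS.PF
import Pool.Agent.YUS.K2a
import Pool.Agent.YUS.K2b
import Pool.Agent.YUS.K2c

open MeasureTheory Set Filter Topology
open scoped ContDiff

namespace Pool.Agent.YUS

open Pool.Agent.YUD Pool.Agent.YUT Pool.Agent.YUB Pool.Agent.YUR Pool.Agent.YUL

/-! ### auxiliary facts for `frame_transport` -/

namespace K2d

theorem det_apply (A : ℂ →L[ℝ] ℂ) : A.det = (A 1).re * (A Complex.I).im -
    (A Complex.I).re * (A 1).im := by
  have h : A.det = LinearMap.det (A : ℂ →ₗ[ℝ] ℂ) := rfl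
  rw [h, ← LinearMap.det_toMatrix Complex.basisOneI, Matrix.det_fin_two]
  simp [LinearMap.toMatrix_apply, Complex.coe_basisOneI_repr, Complex.coe_basisOneI]

theorem lmap_clm (p q : ℂ) : ∃ A : ℂ →L[ℝ] ℂ, (∀ z, A z = lmap p q z) ∧ A.det = wed p q := by
  have h : ∀ z : ℂ, (Complex.reCLM.smulRight p + Complex.imCLM.smulRight q) z = lmap p q z := by
    intro z
    simp [lmap]
  have h1 : (Complex.reCLM.smulRight p + Complex.imCLM.smulRight q) (1 : ℂ) = p := by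
    simp
  have h2 : (Complex.reCLM.smulRight p + Complex.imCLM.smulRight q) Complex.I = q := by
    simp
  refine ⟨Complex.reCLM.smulRight p + Complex.imCLM.smulRight q, h, ?_⟩
  rw [det_apply, h1, h2]
  unfold wed
  ring

theorem ginv_lmap {p q : ℂ} (h : wed p q ≠ 0) (z : ℂ) : ginv p q (lmap p q z) = z := by
  have e : linv p q (lmap p q z) = wed p q • z := by
    apply Complex.ext
    · simp only [linv, lmap, wed, Complex.add_re, Complex.add_im, Complex.mul_re, Complex.mul_im,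
        Complex.ofReal_re, Complex.ofReal_im, Complex.real_smul]
      ring
    · simp only [linv, lmap, wed, Complex.add_re, Complex.add_im, Complex.mul_re, Complex.mul_im,
        Complex.ofReal_re, Complex.ofReal_im, Complex.real_smul]
      ring
  rw [ginv, e, smul_smul, inv_mul_cancel₀ h, one_smul]

theorem ginv_clm {p q : ℂ} (h : wed p q ≠ 0) : ∃ B : ℂ →L[ℝ] ℂ, (∀ w, B w = ginv p q w) ∧
    B.det = (wed p q)⁻¹ := by
  obtain ⟨B, hB, hdet⟩ := lmap_clm (ginv p q 1) (ginv p q Complex.I)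
  refine ⟨B, fun w => ?_, ?_⟩
  · rw [hB]
    apply Complex.ext
    · simp only [linv, lmap, wed, ginv, Complex.add_re, Complex.mul_re,
        Complex.ofReal_re, Complex.ofReal_im, Complex.real_smul, Complex.one_re, Complex.one_im,
        Complex.I_re, Complex.I_im]
      ring
    · simp only [linv, lmap, wed, ginv, Complex.add_im, Complex.mul_im,
        Complex.ofReal_re, Complex.ofReal_im, Complex.real_smul, Complex.one_re, Complex.one_im,
        Complex.I_re, Complex.I_im]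
      ring
  · rw [hdet]
    have h' : p.re * q.im - p.im * q.re ≠ 0 := h
    simp only [linv, wed, ginv, Complex.mul_re, Complex.mul_im,
        Complex.ofReal_re, Complex.ofReal_im, Complex.real_smul, Complex.one_re, Complex.one_im,
        Complex.I_re, Complex.I_im]
    field_simp
    ring

theorem rot_clm {τ : ℂ} (hτ : ‖τ‖ = 1) : ∃ A : ℂ →L[ℝ] ℂ, (∀ z, A z = τ * z) ∧ A.det = 1 := by
  obtain ⟨A, hA, hdet⟩ := lmap_clm τ (τ * Complex.I)
  refine ⟨A, fun z => ?_, ?_⟩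
  · rw [hA, lmap]
    conv_rhs => rw [← Complex.re_add_im z]
    ring
  · rw [hdet, wed]
    have h1 : τ.re * τ.re + τ.im * τ.im = 1 := by
      rw [← Complex.normSq_apply, Complex.normSq_eq_norm_sq, hτ, one_pow]
    simp only [Complex.mul_re, Complex.mul_im, Complex.I_re, Complex.I_im]
    linarith

theorem det_comp3 (A B D : ℂ →L[ℝ] ℂ) : (A.comp (B.comp D)).det = A.det * B.det * D.det := by
  have h : ∀ A B : ℂ →L[ℝ] ℂ, (A.comp B).det = A.det * B.det := by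
    intro A B
    exact LinearMap.det_comp (A : ℂ →ₗ[ℝ] ℂ) (B : ℂ →ₗ[ℝ] ℂ)
  rw [h, h]
  ring

variable {α κ s₀ s₁ L K E₀ C : ℝ} {w : ℂ → ℝ} {Ψ d : ℝ → ℂ → ℝ} {X : ℝ → ℂ → ℂ}

theorem rot_mem {τ : ℂ} (hτ : ‖τ‖ = 1) {y : ℂ} {s : ℝ} (hy : ‖y‖ < s) :
    τ * y ∈ Metric.ball (0 : ℂ) s := by
  rw [mem_ball_zero_iff, norm_mul, hτ, one_mul]
  exact hy

theorem s1_le (h : PF α κ s₀ s₁ L K E₀ C w Ψ d X) : s₁ ≤ s₀ := by
  have h1 := h.s_le
  have h2 := h.L_le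
  have h3 := h.s₁_pos
  nlinarith

theorem X_diff (h : PF α κ s₀ s₁ L K E₀ C w Ψ d X) {t : ℝ} (ht : 0 ≤ t) {v : ℂ}
    (hv : v ∈ Metric.ball (0 : ℂ) s₁) : DifferentiableAt ℝ (X t) v :=
  ((h.X_c1 t ht).differentiableOn (by norm_num)).differentiableAt (Metric.isOpen_ball.mem_nhds hv)

theorem X_mem (h : PF α κ s₀ s₁ L K E₀ C w Ψ d X) {t : ℝ} (ht : 0 ≤ t) {v : ℂ}
    (hv : v ∈ Metric.ball (0 : ℂ) s₁) : X t v ∈ Metric.ball (0 : ℂ) (4 * s₀) := by
  have h0 : (0 : ℂ) ∈ Metric.ball (0 : ℂ) s₁ := Metric.mem_ball_self h.s₁_pos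
  have h1 := Convex.norm_image_sub_le_of_norm_fderiv_le (𝕜 := ℝ) (f := X t)
    (s := Metric.ball (0 : ℂ) s₁) (fun x hx => X_diff h ht hx) (fun x hx => h.X_lip t ht x hx)
    (convex_ball 0 s₁) h0 hv
  rw [h.X_zero t ht, sub_zero, sub_zero] at h1
  rw [mem_ball_zero_iff] at hv ⊢
  have h2 := h.L_le
  have h3 := h.s_le
  have h4 := h.s₁_pos
  have h5 : L * ‖v‖ < L * s₁ := by
    apply mul_lt_mul_of_pos_left hv
    linarith
  have h6 := s1_le h
  linarith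

theorem d_pos (h : PF α κ s₀ s₁ L K E₀ C w Ψ d X) {t : ℝ} (ht : 0 ≤ t) {v : ℂ}
    (hv : v ∈ Metric.ball (0 : ℂ) (4 * s₀)) : 0 < d t v := by
  have h1 := h.d_lo t ht v hv
  have h2 := h.C_le
  by_contra h3
  push Not at h3
  nlinarith

theorem s0_pos (h : PF α κ s₀ s₁ L K E₀ C w Ψ d X) : 0 < s₀ :=
  h.s₁_pos.trans_le (s1_le h)

theorem Yf_inj (h : PF α κ s₀ s₁ L K E₀ C w Ψ d X) {τ : ℂ} (hτ : ‖τ‖ = 1) {t : ℝ} (ht : 0 ≤ t) :
    InjOn (Yf X τ t) (Metric.ball 0 s₁) := by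
  intro y hy y' hy' he
  obtain ⟨-, -, -, -, h5, -⟩ := frame_facts h hτ t ht
  rw [mem_ball_zero_iff] at hy hy'
  have h6 : X t (τ * y) = X t (τ * y') := by rw [← h5 y hy, ← h5 y' hy', he]
  have h7 := h.X_inj t ht (rot_mem hτ hy) (rot_mem hτ hy') h6
  have h8 : τ ≠ 0 := by
    intro h0
    rw [h0, norm_zero] at hτ
    exact zero_ne_one hτ
  exact mul_left_cancel₀ h8 h7

theorem Yf_cover (h : PF α κ s₀ s₁ L K E₀ C w Ψ d X) {τ : ℂ} (hτ : ‖τ‖ = 1) {t : ℝ} (ht : 0 ≤ t)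
    {R : ℝ} (hR : 0 < R) (hR' : L ^ 2 * R < s₁) {z : ℂ} (hz : ‖z‖ < R) :
    ∃ y : ℂ, ‖y‖ < L ^ 2 * R ∧ Yf X τ t y = z := by
  obtain ⟨-, h2, h3, -, -, -⟩ := frame_facts h hτ t ht
  have hL := h.L_le
  have hL0 : 0 < L := by linarith
  have h4 : lmap (pf X τ t) (qf X τ t) z ∈ Metric.ball (0 : ℂ) (L ^ 2 * R / L) := by
    rw [mem_ball_zero_iff]
    calc ‖lmap (pf X τ t) (qf X τ t) z‖ ≤ L * ‖z‖ := h3 z
      _ < L * R := mul_lt_mul_of_pos_left hz hL0
      _ = L ^ 2 * R / L := by field_simp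
  obtain ⟨v, hv, hXv⟩ := h.X_image t ht (L ^ 2 * R) (by positivity) hR'.le h4
  rw [mem_ball_zero_iff] at hv
  have h8 : τ ≠ 0 := by
    intro h0
    rw [h0, norm_zero] at hτ
    exact zero_ne_one hτ
  refine ⟨τ⁻¹ * v, ?_, ?_⟩
  · rw [norm_mul, norm_inv, hτ, inv_one, one_mul]
    exact hv
  · rw [Yf, ← mul_assoc, mul_inv_cancel₀ h8, one_mul, hXv, ginv_lmap h2.ne']

theorem Yf_deriv (h : PF α κ s₀ s₁ L K E₀ C w Ψ d X) {τ : ℂ} (hτ : ‖τ‖ = 1) {t : ℝ} (ht : 0 ≤ t) :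
    ∃ D : ℂ → ℂ →L[ℝ] ℂ, ∀ y, ‖y‖ < s₁ → HasFDerivAt (Yf X τ t) (D y) y ∧
      |(D y).det| * mf d X τ t (Yf X τ t y) = d 0 (τ * y) / d 0 0 := by
  obtain ⟨h1, h2, -, -, h5, -⟩ := frame_facts h hτ t ht
  obtain ⟨B, hB, hBdet⟩ := ginv_clm h2.ne'
  obtain ⟨A, hA, hAdet⟩ := rot_clm hτ
  refine ⟨fun y => B.comp ((fderiv ℝ (X t) (τ * y)).comp A), fun y hy => ⟨?_, ?_⟩⟩
  · have e : Yf X τ t = fun y => B (X t (A y)) := by
      funext y
      rw [Yf, hB, hA]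
    rw [e]
    have h6 : HasFDerivAt (X t) (fderiv ℝ (X t) (τ * y)) (A y) := by
      rw [hA]
      exact (X_diff h ht (rot_mem hτ hy)).hasFDerivAt
    exact B.hasFDerivAt.comp y (h6.comp y A.hasFDerivAt)
  · have hv := rot_mem hτ hy
    have h6 := h.area t ht _ hv
    have hXm := X_mem h ht hv
    have hd1 := d_pos h ht hXm
    have h00 : (0 : ℂ) ∈ Metric.ball (0 : ℂ) (4 * s₀) :=
      Metric.mem_ball_self (by have := s0_pos h; linarith)
    have hd2 := d_pos h ht h00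
    have hd3 := d_pos h le_rfl h00
    have hv4 : τ * y ∈ Metric.ball (0 : ℂ) (4 * s₀) := by
      refine Metric.ball_subset_ball ?_ hv
      have h7 := s1_le h
      have h8 := s0_pos h
      linarith
    have hd4 := d_pos h le_rfl hv4
    have hdet : 0 < (fderiv ℝ (X t) (τ * y)).det := by
      by_contra h7
      push Not at h7
      nlinarith
    show |(B.comp ((fderiv ℝ (X t) (τ * y)).comp A)).det| * _ = _
    rw [det_comp3, hBdet, hAdet, mul_one, abs_of_pos (mul_pos (inv_pos.2 h2) hdet), mf, h5 y hy]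
    rw [← h6, ← h1]
    have hd2' : d t 0 ≠ 0 := hd2.ne'
    have h2' := h2.ne'
    field_simp

/-- change of variables -/
theorem cov (h : PF α κ s₀ s₁ L K E₀ C w Ψ d X) {τ : ℂ} (hτ : ‖τ‖ = 1) {f₀ : ℂ → ℝ}
    {f : ℝ → ℂ → ℝ} (hf : ∀ t, 0 ≤ t → ∀ y, ‖y‖ < s₁ → f t (Yf X τ t y) = f₀ y) {R : ℝ}
    (hR : 0 < R) (hR' : L ^ 2 * R < s₁) {t : ℝ} (ht : 0 ≤ t) {F : ℂ → ℝ}
    (hF : ∀ z, R ≤ ‖z‖ → F z = 0) :
    ∫ z, f t z * mf d X τ t z * F z =
      ∫ y in Metric.closedBall (0 : ℂ) (L ^ 2 * R), f₀ y * (d 0 (τ * y) / d 0 0) *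
        F (Yf X τ t y) := by
  obtain ⟨D, hD⟩ := Yf_deriv h hτ ht
  have h1 := integral_image_eq_integral_abs_det_fderiv_smul (μ := volume)
    (s := Metric.ball (0 : ℂ) s₁) (f := Yf X τ t) (f' := D) Metric.isOpen_ball.measurableSet
    (fun y hy => ((hD y (mem_ball_zero_iff.1 hy)).1).hasFDerivWithinAt) (Yf_inj h hτ ht)
    (fun z => f t z * mf d X τ t z * F z)
  have h2 : ∫ z in Yf X τ t '' Metric.ball (0 : ℂ) s₁, f t z * mf d X τ t z * F z =
      ∫ z, f t z * mf d X τ t z * F z := by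
    refine setIntegral_eq_integral_of_forall_compl_eq_zero fun z hz => ?_
    have h3 : R ≤ ‖z‖ := by
      by_contra h4
      obtain ⟨y, hy, hyz⟩ := Yf_cover h hτ ht hR hR' (not_le.1 h4)
      exact hz ⟨y, mem_ball_zero_iff.2 (hy.trans hR'), hyz⟩
    rw [hF z h3, mul_zero]
  rw [← h2, h1]
  have h3 : ∫ y in Metric.ball (0 : ℂ) s₁, |(D y).det| • (f t (Yf X τ t y) *
      mf d X τ t (Yf X τ t y) * F (Yf X τ t y)) =
      ∫ y in Metric.ball (0 : ℂ) s₁, f₀ y * (d 0 (τ * y) / d 0 0) * F (Yf X τ t y) := by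
    refine setIntegral_congr_fun Metric.isOpen_ball.measurableSet fun y hy => ?_
    have hy' := mem_ball_zero_iff.1 hy
    show |(D y).det| • (f t (Yf X τ t y) * mf d X τ t (Yf X τ t y) * F (Yf X τ t y)) = _
    rw [hf t ht y hy', ← (hD y hy').2, smul_eq_mul]
    ring
  rw [h3]
  refine setIntegral_eq_of_subset_of_forall_sdiff_eq_zero Metric.isOpen_ball.measurableSet
    (Metric.closedBall_subset_ball hR') fun y hy => ?_
  have h4 : R ≤ ‖Yf X τ t y‖ := by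
    by_contra h5
    obtain ⟨y', hy', hyz⟩ := Yf_cover h hτ ht hR hR' (not_le.1 h5)
    have h6 := Yf_inj h hτ ht (mem_ball_zero_iff.2 (hy'.trans hR')) hy.1 hyz
    apply hy.2
    rw [mem_closedBall_zero_iff, ← h6]
    exact hy'.le
  rw [hF _ h4, mul_zero]

theorem H_facts {H : ℝ → ℂ → ℝ} (hH : ContDiff ℝ 1 (fun x : ℝ × ℂ => H x.1 x.2)) (t : ℝ)
    (z : ℂ) :
    deriv (fun t' => H t' z) t = fderiv ℝ (fun x : ℝ × ℂ => H x.1 x.2) (t, z) (1, 0) ∧
      ∀ v, fderiv ℝ (H t) z v = fderiv ℝ (fun x : ℝ × ℂ => H x.1 x.2) (t, z) (0, v) := by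
  have hd : HasFDerivAt (fun x : ℝ × ℂ => H x.1 x.2)
      (fderiv ℝ (fun x : ℝ × ℂ => H x.1 x.2) (t, z)) (t, z) :=
    (hH.differentiable (by norm_num) _).hasFDerivAt
  constructor
  · have h1 : HasFDerivAt (fun t' : ℝ => ((t', z) : ℝ × ℂ)) (ContinuousLinearMap.inl ℝ ℝ ℂ) t :=
      hasFDerivAt_prodMk_left t z
    have h2 : HasFDerivAt (fun t' : ℝ => H t' z)
        ((fderiv ℝ (fun x : ℝ × ℂ => H x.1 x.2) (t, z)).comp (ContinuousLinearMap.inl ℝ ℝ ℂ)) t :=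
      HasFDerivAt.comp (g := fun x : ℝ × ℂ => H x.1 x.2) (f := fun t' : ℝ => ((t', z) : ℝ × ℂ)) t hd h1
    have h3 := h2.hasDerivAt.deriv
    rw [h3]
    simp
  · intro v
    have h1 : HasFDerivAt (fun z' : ℂ => ((t, z') : ℝ × ℂ)) (ContinuousLinearMap.inr ℝ ℝ ℂ) z :=
      hasFDerivAt_prodMk_right t z
    have h2 : HasFDerivAt (H t)
        ((fderiv ℝ (fun x : ℝ × ℂ => H x.1 x.2) (t, z)).comp (ContinuousLinearMap.inr ℝ ℝ ℂ)) z :=
      HasFDerivAt.comp (g := fun x : ℝ × ℂ => H x.1 x.2) (f := fun z' : ℂ => ((t, z') : ℝ × ℂ)) z hd h1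
    rw [h2.fderiv]
    simp

theorem H_zero {H : ℝ → ℂ → ℝ} {R' : ℝ} (hH0 : ∀ t z, R' ≤ ‖z‖ → H t z = 0) (t : ℝ) {z : ℂ}
    (hz : R' < ‖z‖) (v : ℂ) : deriv (fun t' => H t' z) t + fderiv ℝ (H t) z v = 0 := by
  have h1 : deriv (fun t' => H t' z) t = 0 := by
    have : (fun t' => H t' z) = fun _ => 0 := by funext t'; exact hH0 t' z hz.le
    rw [this, deriv_const]
  have h2 : fderiv ℝ (H t) z = 0 := by
    have h3 : H t =ᶠ[𝓝 z] fun _ => 0 := by
      filter_upwards [(isOpen_lt continuous_const continuous_norm).mem_nhds hz] with y hy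
      exact hH0 t y (le_of_lt hy)
    rw [h3.fderiv_eq, fderiv_fun_const]
    rfl
  rw [h1, h2]
  simp

theorem G_cont {V : ℝ → ℂ → ℂ} {H : ℝ → ℂ → ℝ} {R R' : ℝ} (hRR : R' < R)
    (hV : ContinuousOn (fun x : ℝ × ℂ => V x.1 x.2) (Ici 0 ×ˢ Metric.ball 0 R))
    (hH : ContDiff ℝ 1 (fun x : ℝ × ℂ => H x.1 x.2)) (hH0 : ∀ t z, R' ≤ ‖z‖ → H t z = 0) :
    ContinuousOn (fun x : ℝ × ℂ => deriv (fun t' => H t' x.2) x.1 +
      fderiv ℝ (H x.1) x.2 (V x.1 x.2)) (Ici 0 ×ˢ univ) := by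
  have hf : Continuous (fun x : ℝ × ℂ => fderiv ℝ (fun x : ℝ × ℂ => H x.1 x.2) x) :=
    hH.continuous_fderiv (by norm_num)
  have hball : ContinuousOn (fun x : ℝ × ℂ => deriv (fun t' => H t' x.2) x.1 +
      fderiv ℝ (H x.1) x.2 (V x.1 x.2)) (Ici 0 ×ˢ Metric.ball 0 R) := by
    have e : (fun x : ℝ × ℂ => deriv (fun t' => H t' x.2) x.1 +
        fderiv ℝ (H x.1) x.2 (V x.1 x.2)) =
        fun x : ℝ × ℂ => fderiv ℝ (fun x : ℝ × ℂ => H x.1 x.2) x (1, 0) +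
          fderiv ℝ (fun x : ℝ × ℂ => H x.1 x.2) x (0, V x.1 x.2) := by
      funext x
      obtain ⟨h1, h2⟩ := H_facts hH x.1 x.2
      rw [h1, h2]
    rw [e]
    exact (hf.clm_apply continuous_const).continuousOn.add
      (hf.continuousOn.clm_apply (continuousOn_const.prodMk hV))
  rintro ⟨t, z⟩ ⟨ht, -⟩
  by_cases hz : ‖z‖ < R
  · have h1 := hball (t, z) ⟨ht, mem_ball_zero_iff.mpr hz⟩
    refine h1.mono_of_mem_nhdsWithin ?_
    rw [mem_nhdsWithin]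
    refine ⟨univ ×ˢ Metric.ball 0 R, isOpen_univ.prod Metric.isOpen_ball,
      ⟨mem_univ _, mem_ball_zero_iff.mpr hz⟩, ?_⟩
    rintro ⟨t', z'⟩ ⟨⟨-, h2⟩, ⟨h3, -⟩⟩
    exact ⟨h3, h2⟩
  · have hz' : R' < ‖z‖ := lt_of_lt_of_le hRR (not_lt.mp hz)
    have h1 : (fun x : ℝ × ℂ => deriv (fun t' => H t' x.2) x.1 +
        fderiv ℝ (H x.1) x.2 (V x.1 x.2)) =ᶠ[𝓝 (t, z)] fun _ => 0 := by
      have ho : IsOpen {x : ℝ × ℂ | R' < ‖x.2‖} := isOpen_lt continuous_const continuous_snd.norm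
      filter_upwards [ho.mem_nhds (show ((t, z) : ℝ × ℂ) ∈ {x : ℝ × ℂ | R' < ‖x.2‖} from hz')] with x hx
      exact H_zero hH0 x.1 hx _
    exact (continuousAt_const.congr h1.symm).continuousWithinAt

end K2d

section dynamics

variable {α κ s₀ s₁ L K E₀ C : ℝ} {w : ℂ → ℝ} {Ψ d : ℝ → ℂ → ℝ} {X : ℝ → ℂ → ℂ}

/-- [K2d] transport of test functions in the frame, for any function `f₀` of the labels; `f t` is this
function at the time `t` -/
theorem frame_transport (hα : 0 < α) (hα1 : α < 1) (h : PF α κ s₀ s₁ L K E₀ C w Ψ d X) {τ : ℂ}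
    (hτ : ‖τ‖ = 1) {f₀ : ℂ → ℝ} (hf₀ : ContinuousOn f₀ (Metric.ball 0 s₁)) {f : ℝ → ℂ → ℝ}
    (hf : ∀ t, 0 ≤ t → ∀ y, ‖y‖ < s₁ → f t (Yf X τ t y) = f₀ y) {R : ℝ} (hR : 0 < R)
    (hR' : L ^ 3 * C ^ 2 * R < s₁) {H : ℝ → ℂ → ℝ}
    (hH : ContDiff ℝ 1 (fun x : ℝ × ℂ => H x.1 x.2)) (hH0 : ∀ t z, R ≤ ‖z‖ → H t z = 0) {T : ℝ}
    (hT : 0 ≤ T) :
    (∫ z, f T z * H T z * mf d X τ T z) - (∫ z, f 0 z * H 0 z * mf d X τ 0 z) =
      ∫ t in (0 : ℝ)..T, ∫ z, f t z * mf d X τ t z * (deriv (fun t' => H t' z) t +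
        fderiv ℝ (H t) z (Vf κ (Ψ t) (d t) (pf X τ t) (qf X τ t) z)) := by
  have hL := h.L_le
  have hC := h.C_le
  have hs₁ := h.s₁_pos
  have hs₀ := K2d.s0_pos h
  have hs10 := K2d.s1_le h
  have hL0 : 0 < L := by linarith
  have hC0 : 0 < C := by linarith
  obtain ⟨fc1, fc2, fc3, fc4, fc5, fc6⟩ := frame_cont hα hα1 h hτ
  -- a slightly larger radius
  obtain ⟨R₁, hRR₁, hR₁'⟩ : ∃ R₁, R < R₁ ∧ L ^ 3 * C ^ 2 * R₁ < s₁ := by
    have hp : 0 < L ^ 3 * C ^ 2 := by positivity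
    have h1 : R < s₁ / (L ^ 3 * C ^ 2) := by
      rw [lt_div_iff₀ hp]
      linarith
    obtain ⟨R₁, h2, h3⟩ := exists_between h1
    refine ⟨R₁, h2, ?_⟩
    rw [lt_div_iff₀ hp] at h3
    linarith
  have hR₁ : 0 < R₁ := hR.trans hRR₁
  have hL2 : L ^ 2 * R₁ < s₁ := by
    refine lt_of_le_of_lt ?_ hR₁'
    have h1 : (1 : ℝ) ≤ L * C ^ 2 := by nlinarith [one_le_pow₀ (n := 2) hC]
    have h2 : 0 ≤ L ^ 2 * R₁ := by positivity
    calc L ^ 2 * R₁ = L ^ 2 * R₁ * 1 := by ring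
      _ ≤ L ^ 2 * R₁ * (L * C ^ 2) := mul_le_mul_of_nonneg_left h1 h2
      _ = L ^ 3 * C ^ 2 * R₁ := by ring
  have hR₁s : R₁ ≤ s₀ / L := by
    rw [le_div_iff₀ hL0]
    have h1 : (1 : ℝ) ≤ L ^ 2 := one_le_pow₀ hL
    have h2 : R₁ ≤ L ^ 2 * R₁ := by nlinarith
    have h3 : R₁ * L ≤ s₁ * L := mul_le_mul_of_nonneg_right (h2.trans hL2.le) hL0.le
    have h4 := h.s_le
    linarith
  set Kc : Set ℂ := Metric.closedBall (0 : ℂ) (L ^ 2 * R₁) with hKc
  have hKcc : IsCompact Kc := isCompact_closedBall _ _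
  have hKm : MeasurableSet Kc := hKcc.isClosed.measurableSet
  have hKn : ∀ y ∈ Kc, ‖y‖ < s₁ := fun y hy => (mem_closedBall_zero_iff.1 hy).trans_lt hL2
  have hKs : Kc ⊆ Metric.ball 0 s₁ := Metric.closedBall_subset_ball hL2
  set Y : ℝ → ℂ → ℂ := Yf X τ with hY
  set G : ℝ → ℂ → ℝ := fun t z => deriv (fun t' => H t' z) t +
    fderiv ℝ (H t) z (Vf κ (Ψ t) (d t) (pf X τ t) (qf X τ t) z) with hG
  have hGc : ContinuousOn (fun x : ℝ × ℂ => G x.1 x.2) (Ici 0 ×ˢ univ) :=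
    K2d.G_cont (V := fun t z => Vf κ (Ψ t) (d t) (pf X τ t) (qf X τ t) z) hRR₁
      (fc6.mono (Set.prod_mono (Subset.refl _) (Metric.ball_subset_ball hR₁s))) hH hH0
  have hG0 : ∀ t z, R₁ ≤ ‖z‖ → G t z = 0 := fun t z hz =>
    K2d.H_zero hH0 t (lt_of_lt_of_le hRR₁ hz) _
  have hH0' : ∀ t z, R₁ ≤ ‖z‖ → H t z = 0 := fun t z hz => hH0 t z (hRR₁.le.trans hz)
  have hYt : ∀ y, ‖y‖ < s₁ → ContinuousOn (fun t => Y t y) (Ici 0) := fc4
  have hYs : ∀ t, 0 ≤ t → ContinuousOn (Y t) Kc := by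
    intro t ht y hy
    obtain ⟨D, hD⟩ := K2d.Yf_deriv h hτ ht
    exact ((hD y (hKn y hy)).1).continuousAt.continuousWithinAt
  -- the weight of the labels
  set m₀ : ℂ → ℝ := fun y => f₀ y * (d 0 (τ * y) / d 0 0) with hm₀
  have hm₀c : ContinuousOn m₀ Kc := by
    refine (hf₀.mono hKs).mul (ContinuousOn.div_const ?_ _)
    have h1 : ContinuousOn (d 0) (Metric.ball 0 (4 * s₀)) := (h.d_smooth 0 le_rfl).continuousOn
    refine h1.comp (f := fun y : ℂ => τ * y) (by fun_prop) ?_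
    intro y hy
    refine K2d.rot_mem hτ ((hKn y hy).trans_le ?_)
    linarith
  -- the change of variables
  have hcov : ∀ t, 0 ≤ t → ∀ F : ℂ → ℝ, (∀ z, R₁ ≤ ‖z‖ → F z = 0) →
      ∫ z, f t z * mf d X τ t z * F z = ∫ y in Kc, m₀ y * F (Y t y) := by
    intro t ht F hF0
    exact K2d.cov h hτ hf hR₁ hL2 ht hF0
  -- the time derivative along the trajectories
  have hder : ∀ y, ‖y‖ < s₁ → ∀ t, 0 ≤ t → HasDerivWithinAt (fun t' => H t' (Y t' y))
      (G t (Y t y)) (Ioi t) t := by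
    intro y hy t ht
    have h1 : HasDerivWithinAt (fun t' => Y t' y)
        (Vf κ (Ψ t) (d t) (pf X τ t) (qf X τ t) (Y t y)) (Ioi t) t :=
      (frame_motion hα hα1 h hτ t ht y hy).mono (fun u hu => ht.trans (le_of_lt hu))
    have h2 : HasDerivWithinAt (fun t' : ℝ => ((t', Y t' y) : ℝ × ℂ))
        (1, Vf κ (Ψ t) (d t) (pf X τ t) (qf X τ t) (Y t y)) (Ioi t) t :=
      (hasDerivWithinAt_id t (Ioi t)).prodMk h1
    have hd : HasFDerivAt (fun x : ℝ × ℂ => H x.1 x.2)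
        (fderiv ℝ (fun x : ℝ × ℂ => H x.1 x.2) (t, Y t y)) (t, Y t y) :=
      (hH.differentiable (by norm_num) _).hasFDerivAt
    have h3 := hd.comp_hasDerivWithinAt t h2
    have h4 : fderiv ℝ (fun x : ℝ × ℂ => H x.1 x.2) (t, Y t y)
        (1, Vf κ (Ψ t) (d t) (pf X τ t) (qf X τ t) (Y t y)) = G t (Y t y) := by
      obtain ⟨i1, i2⟩ := K2d.H_facts hH t (Y t y)
      have e : ((1, Vf κ (Ψ t) (d t) (pf X τ t) (qf X τ t) (Y t y)) : ℝ × ℂ) =
          (1, 0) + (0, Vf κ (Ψ t) (d t) (pf X τ t) (qf X τ t) (Y t y)) := by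
        simp
      rw [e, map_add, ← i1, ← i2]
    rw [h4] at h3
    exact h3
  have hGt : ∀ y, ‖y‖ < s₁ → ContinuousOn (fun t => G t (Y t y)) (Ici 0) := fun y hy =>
    hGc.comp (f := fun t : ℝ => ((t, Y t y) : ℝ × ℂ)) (continuousOn_id.prodMk (hYt y hy))
      (fun t ht => ⟨ht, mem_univ _⟩)
  have hftc : ∀ y, ‖y‖ < s₁ → ∫ t in (0 : ℝ)..T, G t (Y t y) = H T (Y T y) - H 0 (Y 0 y) := by
    intro y hy
    have hc1 : ContinuousOn (fun t => H t (Y t y)) (Ici 0) :=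
      hH.continuous.comp_continuousOn (continuousOn_id.prodMk (hYt y hy))
    exact intervalIntegral.integral_eq_sub_of_hasDeriv_right_of_le hT
      (hc1.mono Icc_subset_Ici_self) (fun t ht => hder y hy t ht.1.le)
      (((hGt y hy).mono Icc_subset_Ici_self).intervalIntegrable_of_Icc hT)
  -- extensions to all times and labels
  set G' : ℝ × ℂ → ℝ := fun x => G (max x.1 0) x.2 with hG'
  have hG'c : Continuous G' := by
    have h1 : Continuous (fun x : ℝ × ℂ => ((max x.1 0, x.2) : ℝ × ℂ)) := by fun_prop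
    exact hGc.comp_continuous h1 fun x => ⟨mem_Ici.2 (le_max_right _ _), mem_univ _⟩
  set Y' : ℝ → ℂ → ℂ := fun t => Kc.indicator (Y (max t 0)) with hY'
  have hY'm : Measurable (Function.uncurry Y') := by
    refine measurable_uncurry_of_continuous_of_measurable (fun y => ?_) (fun t => ?_)
    · by_cases hy : y ∈ Kc
      · have e : (fun t => Y' t y) = fun t => Y (max t 0) y := by
          funext t
          exact indicator_of_mem hy _
        rw [e]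
        exact (hYt y (hKn y hy)).comp_continuous (by fun_prop) fun t =>
          mem_Ici.2 (le_max_right _ _)
      · have e : (fun t => Y' t y) = fun _ => 0 := by
          funext t
          exact indicator_of_notMem hy _
        rw [e]
        exact continuous_const
    · classical
      have e : Y' t = Kc.piecewise (Y (max t 0)) 0 := by
        rw [piecewise_eq_indicator]
      rw [e]
      exact (hYs _ (le_max_right _ _)).measurable_piecewise continuousOn_const hKm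
  have hm₀m : Measurable (Kc.indicator m₀) := by
    classical
    rw [← piecewise_eq_indicator]
    exact hm₀c.measurable_piecewise continuousOn_const hKm
  set u : ℝ → ℂ → ℝ := fun t y => Kc.indicator m₀ y * G' (t, Y' t y) with hu
  have hum : Measurable (Function.uncurry u) :=
    (hm₀m.comp measurable_snd).mul (hG'c.measurable.comp (measurable_fst.prodMk hY'm))
  have hueq : ∀ t, 0 ≤ t → ∀ y ∈ Kc, u t y = m₀ y * G t (Y t y) := by
    intro t ht y hy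
    simp only [hu, hG', hY', indicator_of_mem hy, max_eq_left ht]
  -- bounds
  obtain ⟨M₁, hM₁⟩ := hKcc.exists_bound_of_continuousOn hm₀c
  obtain ⟨M₂, hM₂⟩ := (isCompact_Icc.prod (isCompact_closedBall (0 : ℂ) R₁)).exists_bound_of_continuousOn
    (s := Icc (0 : ℝ) T ×ˢ Metric.closedBall (0 : ℂ) R₁)
    (hGc.mono (Set.prod_mono Icc_subset_Ici_self (subset_univ _)))
  have hM₂0 : 0 ≤ M₂ := (norm_nonneg _).trans (hM₂ ((0, 0) : ℝ × ℂ)
    ⟨⟨le_rfl, hT⟩, Metric.mem_closedBall_self hR₁.le⟩)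
  have hGb : ∀ t, 0 ≤ t → t ≤ T → ∀ z, ‖G t z‖ ≤ M₂ := by
    intro t ht htT z
    by_cases hz : ‖z‖ ≤ R₁
    · exact hM₂ ((t, z) : ℝ × ℂ) ⟨⟨ht, htT⟩, mem_closedBall_zero_iff.2 hz⟩
    · rw [hG0 t z (not_le.1 hz).le, norm_zero]
      exact hM₂0
  have hint : Integrable (Function.uncurry u)
      (((volume : Measure ℝ).restrict (Ioc 0 T)).prod ((volume : Measure ℂ).restrict Kc)) := by
    have : IsFiniteMeasure ((volume : Measure ℂ).restrict Kc) :=
      ⟨by rw [Measure.restrict_apply_univ]; exact hKcc.measure_lt_top⟩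
    refine Integrable.of_bound hum.aestronglyMeasurable (M₁ * M₂) ?_
    rw [Measure.prod_restrict]
    refine (ae_restrict_iff' (measurableSet_Ioc.prod hKm)).2 (Eventually.of_forall ?_)
    rintro ⟨t, y⟩ ⟨ht, hy⟩
    show ‖u t y‖ ≤ M₁ * M₂
    rw [hueq t ht.1.le y hy, norm_mul]
    exact mul_le_mul (hM₁ y hy) (hGb t ht.1.le ht.2 _) (norm_nonneg _)
      ((norm_nonneg _).trans (hM₁ y hy))
  have hI : ∀ t, 0 ≤ t → IntegrableOn (fun y => m₀ y * H t (Y t y)) Kc := by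
    intro t ht
    have h1 : ContinuousOn (fun y => H t (Y t y)) Kc :=
      hH.continuous.comp_continuousOn (continuousOn_const.prodMk (hYs t ht))
    exact (hm₀c.mul h1).integrableOn_compact hKcc
  have hswap : ∀ t, ∫ z, f t z * H t z * mf d X τ t z = ∫ z, f t z * mf d X τ t z * H t z :=
    fun t => integral_congr_ae (Eventually.of_forall fun z => by ring)
  rw [hswap, hswap, hcov T hT (H T) (hH0' T), hcov 0 le_rfl (H 0) (hH0' 0),
    ← integral_sub (hI T hT) (hI 0 le_rfl)]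
  have hLs : (∫ y in Kc, (m₀ y * H T (Y T y) - m₀ y * H 0 (Y 0 y))) =
      ∫ y in Kc, ∫ t in Ioc 0 T, u t y := by
    refine setIntegral_congr_fun hKm fun y hy => ?_
    show m₀ y * H T (Y T y) - m₀ y * H 0 (Y 0 y) = _
    rw [← mul_sub, ← hftc y (hKn y hy), intervalIntegral.integral_of_le hT, ← integral_const_mul]
    refine setIntegral_congr_fun measurableSet_Ioc fun t ht => ?_
    exact (hueq t ht.1.le y hy).symm
  have hRs : (∫ t in (0 : ℝ)..T, ∫ z, f t z * mf d X τ t z * G t z) =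
      ∫ t in Ioc 0 T, ∫ y in Kc, u t y := by
    rw [intervalIntegral.integral_of_le hT]
    refine setIntegral_congr_fun measurableSet_Ioc fun t ht => ?_
    show ∫ z, f t z * mf d X τ t z * G t z = _
    rw [hcov t ht.1.le (G t) (hG0 t)]
    refine setIntegral_congr_fun hKm fun y hy => ?_
    exact (hueq t ht.1.le y hy).symm
  rw [hLs]
  refine Eq.trans ?_ hRs.symm
  exact (integral_integral_swap hint).symm

end dynamics

end Pool.Agent.YUS
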