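import Pool.Agent.YUS.PF
import Pool.Agent.YUR.X2
import Pool.Agent.YUT.R2
import Pool.Agent.YUB.C3

open MeasureTheory Set Filter Topology
open scoped ContDiff

namespace Pool.Agent.YUS

open Pool.Agent.YUD Pool.Agent.YUT Pool.Agent.YUB Pool.Agent.YUR Pool.Agent.YUL

namespace K2h

private theorem taylor_of {f : ℂ → ℂ} {c : ℂ} {B : ℂ →L[ℝ] ℂ} {s D : ℝ} (hs : 0 < s)
    (h : ∀ v : ℂ, ‖v‖ ≤ s → ‖f (c + v) - f c - B v‖ ≤ D * ‖v‖ ^ 2) : HasFDerivAt f B c := by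
  rw [hasFDerivAt_iff_isLittleO_nhds_zero]
  have h1 : (fun v : ℂ => f (c + v) - f c - B v) =O[𝓝 0] fun v : ℂ => ‖v‖ ^ 2 := by
    refine Asymptotics.IsBigO.of_bound D ?_
    filter_upwards [Metric.ball_mem_nhds (0 : ℂ) hs] with v hv
    rw [mem_ball_zero_iff] at hv
    refine (h v hv.le).trans (le_of_eq ?_)
    rw [Real.norm_of_nonneg (by positivity)]
  exact h1.trans_isLittleO (Asymptotics.isLittleO_norm_pow_id one_lt_two)

private theorem rp2 {x : ℝ} : x ^ (1 + 1 : ℝ) = x ^ 2 := by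
  rw [show (1 + 1 : ℝ) = ((2 : ℕ) : ℝ) by norm_num, Real.rpow_natCast]

/-- facts about the density -/
private theorem dfacts {s₀ C : ℝ} {d : ℂ → ℝ} (hC : 1 ≤ C)
    (hd : ContDiffOn ℝ ∞ d (Metric.ball 0 (4 * s₀))) (hj : JetLe (Metric.ball 0 (4 * s₀)) 4 C d) :
    (∀ x ∈ Metric.ball (0 : ℂ) (4 * s₀), DifferentiableAt ℝ d x ∧ |d x| ≤ C ∧ ‖fderiv ℝ d x‖ ≤ 2 * C) ∧
    (∀ x ∈ Metric.ball (0 : ℂ) (4 * s₀), ∀ y ∈ Metric.ball (0 : ℂ) (4 * s₀),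
      |d y - d x| ≤ 2 * C * ‖y - x‖) ∧
    ∀ x ∈ Metric.ball (0 : ℂ) (4 * s₀), ∀ y ∈ Metric.ball (0 : ℂ) (4 * s₀),
      |d y - d x - fderiv ℝ d x (y - x)| ≤ 4 * C * ‖y - x‖ ^ 2 := by
  have hM : IsOpen (Metric.ball (0 : ℂ) (4 * s₀)) := Metric.isOpen_ball
  have h2 : ContDiffOn ℝ 2 d (Metric.ball (0 : ℂ) (4 * s₀)) := by
    exact_mod_cast contDiffOn_infty.1 hd 2
  have hdx : ContDiffOn ℝ 1 (dx d) (Metric.ball (0 : ℂ) (4 * s₀)) := contDiffOn_dx (n := 1) hM h2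
  have hdy : ContDiffOn ℝ 1 (dy d) (Metric.ball (0 : ℂ) (4 * s₀)) := contDiffOn_dy (n := 1) hM h2
  have hA : ∀ x ∈ Metric.ball (0 : ℂ) (4 * s₀), DifferentiableAt ℝ d x ∧ |d x| ≤ C ∧
      ‖fderiv ℝ d x‖ ≤ 2 * C := by
    intro x hx
    refine ⟨(h2.contDiffAt (hM.mem_nhds hx)).differentiableAt two_ne_zero, hj.1 x hx, ?_⟩
    refine (norm_fderiv_le d x).trans ?_
    have h3 := hj.2.1.1 x hx
    have h4 := hj.2.2.1 x hx
    linarith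
  have hlip : ∀ (f : ℂ → ℝ), ContDiffOn ℝ 1 f (Metric.ball (0 : ℂ) (4 * s₀)) →
      (∀ x ∈ Metric.ball (0 : ℂ) (4 * s₀), ‖fderiv ℝ f x‖ ≤ 2 * C) →
      ∀ x ∈ Metric.ball (0 : ℂ) (4 * s₀), ∀ y ∈ Metric.ball (0 : ℂ) (4 * s₀),
        |f y - f x| ≤ 2 * C * ‖y - x‖ := by
    intro f hf hb x hx y hy
    have h3 := (convex_ball (0 : ℂ) (4 * s₀)).norm_image_sub_le_of_norm_fderiv_le (𝕜 := ℝ)
      (f := f) (C := 2 * C) (fun z hz => (hf.contDiffAt (hM.mem_nhds hz)).differentiableAt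
        one_ne_zero) hb hx hy
    rwa [Real.norm_eq_abs] at h3
  have hB := hlip d (h2.of_le (by norm_num)) (fun x hx => (hA x hx).2.2)
  have hBx := hlip (dx d) hdx (fun x hx => by
    refine (norm_fderiv_le (dx d) x).trans ?_
    have h3 := hj.2.1.2.1.1 x hx
    have h4 := hj.2.1.2.2.1 x hx
    linarith)
  have hBy := hlip (dy d) hdy (fun x hx => by
    refine (norm_fderiv_le (dy d) x).trans ?_
    have h3 := hj.2.2.2.1.1 x hx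
    have h4 := hj.2.2.2.2.1 x hx
    linarith)
  refine ⟨hA, hB, ?_⟩
  intro x hx y hy
  have h3 := R2_taylor (w := d) (convex_ball (0 : ℂ) (4 * s₀)) (α := 1) (c := 4 * C) one_pos
    (by linarith) hx hy (fun z hz => (hA z hz).1) (fun z hz => by
      refine (norm_fderiv_sub_le d d z x).trans ?_
      have h4 := hBx x hx z hz
      have h5 := hBy x hx z hz
      rw [Real.rpow_one]
      linarith)
  rwa [rp2] at h3

end K2h

open K2h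

theorem Uf_expand {α s₀ K E₀ C : ℝ} (hα : 0 < α) (hα1 : α < 1) (hs : 0 < s₀) (hC : 1 ≤ C)
    (hE : 0 ≤ E₀) : ∃ C' : ℝ, 1 ≤ C' ∧ ∀ (Ψ d : ℂ → ℝ), ContDiffOn ℝ 2 Ψ (Metric.ball 0 (4 * s₀)) →
      (∀ v ∈ Metric.ball (0 : ℂ) (4 * s₀), ‖fderiv ℝ Ψ v‖ ≤ E₀) →
      NormLe (Metric.ball 0 (4 * s₀)) α K (fun v => lap Ψ v / d v) →
      ContDiffOn ℝ ∞ d (Metric.ball 0 (4 * s₀)) → JetLe (Metric.ball 0 (4 * s₀)) 4 C d →
      (∀ v ∈ Metric.ball (0 : ℂ) (4 * s₀), 1 ≤ C * d v) →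
      ∀ c ∈ Metric.ball (0 : ℂ) (2 * s₀), ContDiffAt ℝ 1 (Uf Ψ d) c ∧ ‖Uf Ψ d c‖ ≤ C' ∧
        ‖fderiv ℝ (Uf Ψ d) c‖ ≤ C' ∧ ∀ v : ℂ, ‖v‖ ≤ s₀ →
          ‖Uf Ψ d (c + v) - Uf Ψ d c - fderiv ℝ (Uf Ψ d) c v‖ ≤ C' * ‖v‖ ^ 2 := by
  obtain ⟨C₂, hC₂, hexp⟩ := expansion2 hα hα1 hs
  have hC0 : 0 < C := by linarith
  set K₀ : ℝ := max K 0 with hK₀
  have hK0 : 0 ≤ K₀ := le_max_right _ _
  have hsα : 0 < s₀ ^ (1 - α) := Real.rpow_pos_of_pos hs _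
  have hsα' : 0 < s₀ ^ α := Real.rpow_pos_of_pos hs _
  set K₁ : ℝ := C * K₀ * (4 + 6 * s₀ ^ (1 - α)) with hK₁
  have hK1 : 0 ≤ K₁ := by positivity
  set E : ℝ := E₀ * (Real.pi * s₀ ^ 2) with hEdef
  have hE' : 0 ≤ E := by have := Real.pi_pos; positivity
  set D : ℝ := C₂ * (K₁ + E) with hD
  have hD0 : 0 ≤ D := by positivity
  set D₂ : ℝ := D + K₁ + D * s₀ ^ α + 128 * E₀ / s₀ ^ 2 + 8 * (D + K₁) / s₀ with hD₂
  have hD20 : 0 ≤ D₂ := by positivity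
  set C' : ℝ := 1 + C * E₀ + C * (D + K₁) + 2 * C ^ 3 * E₀ + (4 * C ^ 3 + 4 * C ^ 5) * E₀ +
    2 * C ^ 3 * (D + K₁) + C * D₂ with hC'
  have p1 : 0 ≤ C * E₀ := by positivity
  have p2 : 0 ≤ C * (D + K₁) := by positivity
  have p3 : 0 ≤ 2 * C ^ 3 * E₀ := by positivity
  have p4 : 0 ≤ (4 * C ^ 3 + 4 * C ^ 5) * E₀ := by positivity
  have p5 : 0 ≤ 2 * C ^ 3 * (D + K₁) := by positivity
  have p6 : 0 ≤ C * D₂ := by positivity
  refine ⟨C', by linarith, ?_⟩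
  intro Ψ d hΨ hdΨ hN hd hj hlo c hc
  set M : Set ℂ := Metric.ball (0 : ℂ) (4 * s₀) with hMdef
  have hM : IsOpen M := Metric.isOpen_ball
  obtain ⟨hA, hB, hT⟩ := dfacts hC hd hj
  have hcn : ‖c‖ < 2 * s₀ := by rwa [mem_ball_zero_iff] at hc
  have hcM : c ∈ M := by
    rw [hMdef, mem_ball_zero_iff]
    linarith
  have hcv : ∀ v : ℂ, ‖v‖ ≤ s₀ → c + v ∈ M := by
    intro v hv
    rw [hMdef, mem_ball_zero_iff]
    have := norm_add_le c v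
    linarith
  have hbM : Metric.closedBall c s₀ ⊆ M := by
    intro x hx
    rw [Metric.mem_closedBall, dist_eq_norm] at hx
    have h1 := hcv (x - c) hx
    rwa [add_sub_cancel] at h1
  have hbM' : Metric.ball c s₀ ⊆ M := Metric.ball_subset_closedBall.trans hbM
  have hdpos : ∀ x ∈ M, 0 < d x := by
    intro x hx
    have h1 := hlo x hx
    by_contra h
    push Not at h
    have : C * d x ≤ 0 := mul_nonpos_of_nonneg_of_nonpos hC0.le h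
    linarith
  -- the vorticity
  obtain ⟨hΩd, a₀, b₀, c₀, ha₀, hb₀, hc₀, habc, hΩ0, hΩ1, hΩ2⟩ := hN
  have hKK : K ≤ K₀ := le_max_left _ _
  set Ω : ℂ → ℝ := fun v => lap Ψ v / d v with hΩ
  have hΩat : ∀ x ∈ M, DifferentiableAt ℝ Ω x := fun x hx =>
    (hΩd x hx).differentiableAt (hM.mem_nhds hx)
  have hlapeq : ∀ x ∈ M, lap Ψ x = d x * Ω x := by
    intro x hx
    rw [hΩ]
    field_simp [(hdpos x hx).ne']
  have hΩ0' : ∀ x ∈ M, |Ω x| ≤ K₀ := fun x hx => by linarith [hΩ0 x hx]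
  have hΩ1' : ∀ x ∈ M, ‖fderiv ℝ Ω x‖ ≤ K₀ := fun x hx => by linarith [hΩ1 x hx]
  have hΩ2' : ∀ x ∈ M, ∀ y ∈ M, ‖fderiv ℝ Ω x - fderiv ℝ Ω y‖ ≤ K₀ * ‖x - y‖ ^ α := by
    intro x hx y hy
    refine (hΩ2 x hx y hy).trans (mul_le_mul_of_nonneg_right (by linarith) ?_)
    exact Real.rpow_nonneg (norm_nonneg _) _
  obtain ⟨hdc, hdc1, hdc2⟩ := hA c hcM
  have hlapd : HasFDerivAt (lap Ψ) (d c • fderiv ℝ Ω c + Ω c • fderiv ℝ d c) c := by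
    have h1 := (hdc.hasFDerivAt.mul (hΩat c hcM).hasFDerivAt)
    refine h1.congr_of_eventuallyEq ?_
    filter_upwards [hM.mem_nhds hcM] with x hx
    rw [hlapeq x hx]
    rfl
  set a : ℂ := wg (lap Ψ) c / 2 with hadef
  have hgn : ‖fderiv ℝ (lap Ψ) c‖ ≤ 3 * (C * K₀) := by
    rw [hlapd.fderiv]
    have h1 : ‖d c • fderiv ℝ Ω c‖ ≤ C * K₀ := by
      rw [norm_smul, Real.norm_eq_abs]
      exact mul_le_mul hdc1 (hΩ1' c hcM) (norm_nonneg _) hC0.le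
    have h2 : ‖Ω c • fderiv ℝ d c‖ ≤ K₀ * (2 * C) := by
      rw [norm_smul, Real.norm_eq_abs]
      exact mul_le_mul (hΩ0' c hcM) hdc2 (norm_nonneg _) hK0
    refine (norm_add_le _ _).trans ?_
    linarith
  have hCK : 0 ≤ C * K₀ := by positivity
  have hCKs : 0 ≤ C * K₀ * s₀ ^ (1 - α) := by positivity
  have hK₁e : K₁ = 4 * (C * K₀) + 6 * (C * K₀ * s₀ ^ (1 - α)) := by rw [hK₁]; ring
  have gfa := grad_facts (M := M) hM hΨ
  have gfl := grad_facts (M := ∅) isOpen_empty (ψ := lap Ψ) contDiffOn_empty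
  have ha : ‖a‖ ≤ K₁ := by
    have h1 : ‖wg (lap Ψ) c‖ ≤ ‖fderiv ℝ (lap Ψ) c‖ := gfl.2.2.2 c
    have h3 : ‖a‖ = ‖wg (lap Ψ) c‖ / 2 := by
      rw [hadef, norm_div, Complex.norm_ofNat]
    rw [h3]
    linarith [norm_nonneg (wg (lap Ψ) c)]
  have ha2 : ∀ v : ℂ, 2 * (a * v).re = fderiv ℝ (lap Ψ) c v := by
    intro v
    have h0 : fderiv ℝ (lap Ψ) c v = (v * wg (lap Ψ) c).re := gfl.2.2.1 c v
    rw [h0]
    have h1 : v * wg (lap Ψ) c = 2 * (a * v) := by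
      rw [hadef]
      ring
    rw [h1]
    simp
  have hgc : |lap Ψ c| ≤ K₁ := by
    rw [hlapeq c hcM, abs_mul]
    have h1 : |d c| * |Ω c| ≤ C * K₀ := mul_le_mul hdc1 (hΩ0' c hcM) (abs_nonneg _) hC0.le
    linarith
  have htay : ∀ ζ ∈ Metric.ball c s₀,
      |lap Ψ ζ - lap Ψ c - 2 * (a * (ζ - c)).re| ≤ K₁ * ‖ζ - c‖ ^ (1 + α) := by
    intro ζ hζ
    have hζM : ζ ∈ M := hbM' hζ
    rw [ha2, hlapd.fderiv, hlapeq ζ hζM, hlapeq c hcM]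
    have hh : ‖ζ - c‖ ≤ s₀ := by
      rw [Metric.mem_ball, dist_eq_norm] at hζ
      exact hζ.le
    have h1 : |Ω ζ - Ω c - fderiv ℝ Ω c (ζ - c)| ≤ K₀ * ‖ζ - c‖ ^ (1 + α) :=
      R2_taylor (convex_ball (0 : ℂ) (4 * s₀)) hα hK0 hcM hζM hΩat
        (fun y hy => hΩ2' y hy c hcM)
    have h2 : |d ζ - d c| ≤ 2 * C * ‖ζ - c‖ := hB c hcM ζ hζM
    have h3 : |d ζ - d c - fderiv ℝ d c (ζ - c)| ≤ 4 * C * ‖ζ - c‖ ^ 2 := hT c hcM ζ hζM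
    have h4 : |fderiv ℝ Ω c (ζ - c)| ≤ K₀ * ‖ζ - c‖ := by
      have h5 := (fderiv ℝ Ω c).le_opNorm (ζ - c)
      rw [Real.norm_eq_abs] at h5
      exact h5.trans (mul_le_mul_of_nonneg_right (hΩ1' c hcM) (norm_nonneg _))
    have h6 : ‖ζ - c‖ ^ 2 ≤ s₀ ^ (1 - α) * ‖ζ - c‖ ^ (1 + α) := by
      rcases eq_or_lt_of_le (norm_nonneg (ζ - c)) with h0 | h0
      · rw [← h0]
        have : (0 : ℝ) ^ (1 + α) = 0 := Real.zero_rpow (by linarith)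
        rw [this]
        norm_num
      · have h7 : ‖ζ - c‖ ^ 2 = ‖ζ - c‖ ^ (1 - α) * ‖ζ - c‖ ^ (1 + α) := by
          rw [← Real.rpow_add h0, show 1 - α + (1 + α) = ((2 : ℕ) : ℝ) by push_cast; ring,
            Real.rpow_natCast]
        rw [h7]
        exact mul_le_mul_of_nonneg_right (Real.rpow_le_rpow h0.le hh (by linarith))
          (Real.rpow_nonneg h0.le _)
    have h8 : (d c • fderiv ℝ Ω c + Ω c • fderiv ℝ d c) (ζ - c) =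
        d c * fderiv ℝ Ω c (ζ - c) + Ω c * fderiv ℝ d c (ζ - c) := by
      simp
    rw [h8]
    have h9 : d ζ * Ω ζ - d c * Ω c - (d c * fderiv ℝ Ω c (ζ - c) + Ω c * fderiv ℝ d c (ζ - c)) =
        d ζ * (Ω ζ - Ω c - fderiv ℝ Ω c (ζ - c)) + (d ζ - d c) * fderiv ℝ Ω c (ζ - c) +
          Ω c * (d ζ - d c - fderiv ℝ d c (ζ - c)) := by ring
    rw [h9]
    have i1 : |d ζ * (Ω ζ - Ω c - fderiv ℝ Ω c (ζ - c))| ≤ C * (K₀ * ‖ζ - c‖ ^ (1 + α)) := by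
      rw [abs_mul]
      exact mul_le_mul (hA ζ hζM).2.1 h1 (abs_nonneg _) hC0.le
    have i2 : |(d ζ - d c) * fderiv ℝ Ω c (ζ - c)| ≤ 2 * C * ‖ζ - c‖ * (K₀ * ‖ζ - c‖) := by
      rw [abs_mul]
      exact mul_le_mul h2 h4 (abs_nonneg _) (by positivity)
    have i3 : |Ω c * (d ζ - d c - fderiv ℝ d c (ζ - c))| ≤ K₀ * (4 * C * ‖ζ - c‖ ^ 2) := by
      rw [abs_mul]
      exact mul_le_mul (hΩ0' c hcM) h3 (abs_nonneg _) hK0
    refine (abs_add_three _ _ _).trans ?_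
    have hr : 0 ≤ ‖ζ - c‖ ^ (1 + α) := Real.rpow_nonneg (norm_nonneg _) _
    have i4 : 6 * (C * K₀) * ‖ζ - c‖ ^ 2 ≤ 6 * (C * K₀) * (s₀ ^ (1 - α) * ‖ζ - c‖ ^ (1 + α)) :=
      mul_le_mul_of_nonneg_left h6 (by positivity)
    have i5 : 0 ≤ 3 * (C * K₀) * ‖ζ - c‖ ^ (1 + α) := by positivity
    rw [hK₁e]
    linarith [i1, i2, i3, i4, i5]
  -- the gradient
  have hWc1 : ContDiffOn ℝ 1 (wg Ψ) M := gfa.1
  have hWdb : ∀ x ∈ M, db (wg Ψ) x = lap Ψ x := gfa.2.1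
  have hWle : ∀ x, ‖wg Ψ x‖ ≤ ‖fderiv ℝ Ψ x‖ := gfa.2.2.2
  have hWi : IntegrableOn (wg Ψ) (Metric.ball c s₀) :=
    ((hWc1.continuousOn.mono hbM).integrableOn_compact (isCompact_closedBall c s₀)).mono_set
      Metric.ball_subset_closedBall
  have hWE : (∫ ζ in Metric.ball c s₀, ‖wg Ψ ζ‖) ≤ E := by
    have h1 : ‖∫ ζ in Metric.ball c s₀, ‖wg Ψ ζ‖‖ ≤ E₀ * (volume (Metric.ball c s₀)).toReal := by
      refine norm_setIntegral_le_of_norm_le_const ?_ ?_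
      · exact measure_ball_lt_top
      · intro x hx
        rw [norm_norm]
        exact (hWle x).trans (hdΨ x (hbM' hx))
    have h2 : (volume (Metric.ball c s₀)).toReal = Real.pi * s₀ ^ 2 := by
      rw [Complex.volume_ball, ENNReal.toReal_mul, ENNReal.toReal_pow, ENNReal.toReal_ofReal hs.le]
      simp [mul_comm]
    rw [h2] at h1
    exact (le_abs_self _).trans h1
  obtain ⟨b₁, b₂, hb₁, hb₂, hrem⟩ := hexp (wg Ψ) (lap Ψ) c a K₁ E hE' (hWc1.mono hbM')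
    (fun ζ hζ => hWdb ζ (hbM' hζ)) hgc ha htay hWi hWE
  -- quadratic estimate for the gradient
  have hquad : ∀ v : ℂ, ‖v‖ ≤ s₀ →
      ‖wg Ψ (c + v) - wg Ψ c - (b₁ * v + ((lap Ψ c / 2 : ℝ) : ℂ) * (starRingEnd ℂ) v)‖ ≤
        D₂ * ‖v‖ ^ 2 := by
    intro v hv
    have hv0 := norm_nonneg v
    have hlc : ‖((lap Ψ c / 2 : ℝ) : ℂ)‖ ≤ K₁ := by
      rw [Complex.norm_real, Real.norm_eq_abs, abs_div, abs_two]
      have := abs_nonneg (lap Ψ c)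
      linarith
    by_cases h8 : ‖v‖ ≤ s₀ / 8
    · have h1 := hrem v h8
      have e1 : wg Ψ (c + v) - wg Ψ c - (b₁ * v + ((lap Ψ c / 2 : ℝ) : ℂ) * (starRingEnd ℂ) v) =
          (wg Ψ (c + v) - wg Ψ c - b₁ * v - ((lap Ψ c / 2 : ℝ) : ℂ) * (starRingEnd ℂ) v -
            b₂ * v ^ 2 - (a / 2) * (v * (starRingEnd ℂ) v) -
              ((starRingEnd ℂ) a / 4) * (starRingEnd ℂ) v ^ 2) + b₂ * v ^ 2 +
            (a / 2) * (v * (starRingEnd ℂ) v) + ((starRingEnd ℂ) a / 4) * (starRingEnd ℂ) v ^ 2 := by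
        ring
      rw [e1]
      have n1 : ‖b₂ * v ^ 2‖ ≤ D * ‖v‖ ^ 2 := by
        rw [norm_mul, norm_pow]
        exact mul_le_mul_of_nonneg_right hb₂ (by positivity)
      have n2 : ‖(a / 2) * (v * (starRingEnd ℂ) v)‖ ≤ K₁ / 2 * ‖v‖ ^ 2 := by
        rw [norm_mul, norm_mul, RCLike.norm_conj, norm_div, Complex.norm_ofNat, ← sq]
        exact mul_le_mul_of_nonneg_right (by linarith) (by positivity)
      have n3 : ‖((starRingEnd ℂ) a / 4) * (starRingEnd ℂ) v ^ 2‖ ≤ K₁ / 4 * ‖v‖ ^ 2 := by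
        rw [norm_mul, norm_div, norm_pow, RCLike.norm_conj, RCLike.norm_conj, Complex.norm_ofNat]
        exact mul_le_mul_of_nonneg_right (by linarith) (by positivity)
      have n4 : C₂ * (K₁ + E) * ‖v‖ ^ (2 + α) ≤ D * s₀ ^ α * ‖v‖ ^ 2 := by
        have h2 : ‖v‖ ^ (2 + α) ≤ s₀ ^ α * ‖v‖ ^ 2 := by
          rcases eq_or_lt_of_le hv0 with h0 | h0
          · rw [← h0, Real.zero_rpow (by linarith)]
            norm_num
          · rw [Real.rpow_add h0, show (2 : ℝ) = ((2 : ℕ) : ℝ) by norm_num, Real.rpow_natCast,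
              mul_comm]
            exact mul_le_mul_of_nonneg_right (Real.rpow_le_rpow h0.le hv hα.le) (by positivity)
        calc C₂ * (K₁ + E) * ‖v‖ ^ (2 + α) ≤ D * (s₀ ^ α * ‖v‖ ^ 2) :=
              mul_le_mul_of_nonneg_left h2 hD0
          _ = D * s₀ ^ α * ‖v‖ ^ 2 := by ring
      have hv2 : 0 ≤ ‖v‖ ^ 2 := by positivity
      have q1 : 0 ≤ 128 * E₀ / s₀ ^ 2 * ‖v‖ ^ 2 := by positivity
      have q2 : 0 ≤ 8 * (D + K₁) / s₀ * ‖v‖ ^ 2 := by positivity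
      have q3 : 0 ≤ K₁ * ‖v‖ ^ 2 := by positivity
      refine (norm_add_le _ _).trans ?_
      refine (add_le_add ((norm_add_le _ _).trans (add_le_add ((norm_add_le _ _).trans
        (add_le_add (h1.trans n4) n1)) n2)) n3).trans ?_
      rw [hD₂]
      linarith [q1, q2, q3]
    · push Not at h8
      have h1 : ‖wg Ψ (c + v)‖ ≤ E₀ := (hWle _).trans (hdΨ _ (hcv v hv))
      have h2 : ‖wg Ψ c‖ ≤ E₀ := (hWle _).trans (hdΨ _ hcM)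
      have h3 : ‖b₁ * v + ((lap Ψ c / 2 : ℝ) : ℂ) * (starRingEnd ℂ) v‖ ≤ (D + K₁) * ‖v‖ := by
        refine (norm_add_le _ _).trans ?_
        rw [norm_mul, norm_mul, RCLike.norm_conj, add_mul]
        exact add_le_add (mul_le_mul_of_nonneg_right hb₁ hv0) (mul_le_mul_of_nonneg_right hlc hv0)
      have h4 : ‖wg Ψ (c + v) - wg Ψ c -
          (b₁ * v + ((lap Ψ c / 2 : ℝ) : ℂ) * (starRingEnd ℂ) v)‖ ≤ 2 * E₀ + (D + K₁) * ‖v‖ := by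
        refine (norm_sub_le _ _).trans ?_
        refine (add_le_add (norm_sub_le _ _) h3).trans ?_
        linarith
      refine h4.trans ?_
      have h5 : 1 ≤ 8 * ‖v‖ / s₀ := by
        rw [le_div_iff₀ hs]
        linarith
      have h6 : 2 * E₀ ≤ 128 * E₀ / s₀ ^ 2 * ‖v‖ ^ 2 := by
        have h7 : 1 ≤ (8 * ‖v‖ / s₀) ^ 2 := one_le_pow₀ h5
        calc 2 * E₀ = 2 * E₀ * 1 := by ring
          _ ≤ 2 * E₀ * (8 * ‖v‖ / s₀) ^ 2 := mul_le_mul_of_nonneg_left h7 (by positivity)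
          _ = 128 * E₀ / s₀ ^ 2 * ‖v‖ ^ 2 := by
            field_simp
            ring
      have h7 : (D + K₁) * ‖v‖ ≤ 8 * (D + K₁) / s₀ * ‖v‖ ^ 2 := by
        calc (D + K₁) * ‖v‖ = (D + K₁) * ‖v‖ * 1 := by ring
          _ ≤ (D + K₁) * ‖v‖ * (8 * ‖v‖ / s₀) := mul_le_mul_of_nonneg_left h5 (by positivity)
          _ = 8 * (D + K₁) / s₀ * ‖v‖ ^ 2 := by ring
      have q1 : 0 ≤ D * ‖v‖ ^ 2 := by positivity
      have q2 : 0 ≤ K₁ * ‖v‖ ^ 2 := by positivity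
      have q3 : 0 ≤ D * s₀ ^ α * ‖v‖ ^ 2 := by positivity
      rw [hD₂]
      linarith [q1, q2, q3, h6, h7]
  -- the velocity times density
  have hperp : ∀ x, perp Ψ x = Complex.I * (starRingEnd ℂ) (wg Ψ x) := by
    intro x
    apply Complex.ext
    · simp [perp, wg]
    · simp [perp, wg]
  have hpn : ∀ x, ‖perp Ψ x‖ ≤ ‖fderiv ℝ Ψ x‖ := by
    intro x
    rw [hperp, norm_mul, Complex.norm_I, RCLike.norm_conj, one_mul]
    exact hWle x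
  set B : ℂ →L[ℝ] ℂ := Complex.I • ((starRingEnd ℂ) b₁ • (Complex.conjCLE : ℂ →L[ℝ] ℂ) +
    ((lap Ψ c / 2 : ℝ) : ℂ) • ContinuousLinearMap.id ℝ ℂ) with hBdef
  have hBv : ∀ v : ℂ, B v = Complex.I * (starRingEnd ℂ)
      (b₁ * v + ((lap Ψ c / 2 : ℝ) : ℂ) * (starRingEnd ℂ) v) := by
    intro v
    rw [hBdef, map_add, map_mul, map_mul, Complex.conj_ofReal, Complex.conj_conj]
    rfl
  have hBn : ∀ v : ℂ, ‖B v‖ ≤ (D + K₁) * ‖v‖ := by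
    intro v
    rw [hBv, norm_mul, Complex.norm_I, RCLike.norm_conj, one_mul]
    refine (norm_add_le _ _).trans ?_
    have hlc : ‖((lap Ψ c / 2 : ℝ) : ℂ)‖ ≤ K₁ := by
      rw [Complex.norm_real, Real.norm_eq_abs, abs_div, abs_two]
      have := abs_nonneg (lap Ψ c)
      linarith
    rw [norm_mul, norm_mul, RCLike.norm_conj, add_mul]
    exact add_le_add (mul_le_mul_of_nonneg_right hb₁ (norm_nonneg _))
      (mul_le_mul_of_nonneg_right hlc (norm_nonneg _))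
  have hpq : ∀ v : ℂ, ‖v‖ ≤ s₀ → ‖perp Ψ (c + v) - perp Ψ c - B v‖ ≤ D₂ * ‖v‖ ^ 2 := by
    intro v hv
    have e1 : perp Ψ (c + v) - perp Ψ c - B v = Complex.I * (starRingEnd ℂ)
        (wg Ψ (c + v) - wg Ψ c - (b₁ * v + ((lap Ψ c / 2 : ℝ) : ℂ) * (starRingEnd ℂ) v)) := by
      rw [hperp, hperp, hBv, map_sub, map_sub]
      ring
    rw [e1, norm_mul, Complex.norm_I, RCLike.norm_conj, one_mul]
    exact hquad v hv
  have hpd : HasFDerivAt (perp Ψ) B c := taylor_of hs hpq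
  -- the inverse density
  have hdne : d c ≠ 0 := (hdpos c hcM).ne'
  have hinv : ∀ x ∈ M, 0 < (d x)⁻¹ ∧ (d x)⁻¹ ≤ C := by
    intro x hx
    have h1 := hdpos x hx
    refine ⟨inv_pos.2 h1, ?_⟩
    rw [inv_le_comm₀ h1 hC0, inv_eq_one_div, div_le_iff₀ hC0]
    linarith [hlo x hx]
  set e' : ℂ →L[ℝ] ℝ := (-(d c ^ 2)⁻¹) • fderiv ℝ d c with he'
  have hed : HasFDerivAt (fun x => (d x)⁻¹) e' c := (hasDerivAt_inv hdne).comp_hasFDerivAt c hdc.hasFDerivAt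
  obtain ⟨hi0, hi1⟩ := hinv c hcM
  have hden : ∀ v : ℂ, |fderiv ℝ d c v| ≤ 2 * C * ‖v‖ := by
    intro v
    have h5 := (fderiv ℝ d c).le_opNorm v
    rw [Real.norm_eq_abs] at h5
    exact h5.trans (mul_le_mul_of_nonneg_right hdc2 (norm_nonneg _))
  have hen : ∀ v : ℂ, |e' v| ≤ 2 * C ^ 3 * ‖v‖ := by
    intro v
    have e1 : e' v = -((d c)⁻¹ * (d c)⁻¹ * fderiv ℝ d c v) := by
      rw [he']
      simp [sq]
    rw [e1, abs_neg, abs_mul, abs_mul, abs_of_pos hi0]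
    calc (d c)⁻¹ * (d c)⁻¹ * |fderiv ℝ d c v| ≤ C * C * (2 * C * ‖v‖) := by
          have := hden v
          gcongr
      _ = 2 * C ^ 3 * ‖v‖ := by ring
  have hel : ∀ v : ℂ, ‖v‖ ≤ s₀ → |(d (c + v))⁻¹ - (d c)⁻¹| ≤ 2 * C ^ 3 * ‖v‖ := by
    intro v hv
    obtain ⟨hj0, hj1⟩ := hinv (c + v) (hcv v hv)
    have h1 := hB c hcM (c + v) (hcv v hv)
    rw [add_sub_cancel_left] at h1
    have e1 : (d (c + v))⁻¹ - (d c)⁻¹ = -((d (c + v))⁻¹ * (d c)⁻¹ * (d (c + v) - d c)) := by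
      have := (hdpos (c + v) (hcv v hv)).ne'
      field_simp
      ring
    rw [e1, abs_neg, abs_mul, abs_mul, abs_of_pos hi0, abs_of_pos hj0]
    calc (d (c + v))⁻¹ * (d c)⁻¹ * |d (c + v) - d c| ≤ C * C * (2 * C * ‖v‖) := by gcongr
      _ = 2 * C ^ 3 * ‖v‖ := by ring
  have heq : ∀ v : ℂ, ‖v‖ ≤ s₀ → |(d (c + v))⁻¹ - (d c)⁻¹ - e' v| ≤
      (4 * C ^ 3 + 4 * C ^ 5) * ‖v‖ ^ 2 := by
    intro v hv
    obtain ⟨hj0, hj1⟩ := hinv (c + v) (hcv v hv)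
    have h1 := hB c hcM (c + v) (hcv v hv)
    have h2 := hT c hcM (c + v) (hcv v hv)
    rw [add_sub_cancel_left] at h1 h2
    have e0 : e' v = -((d c)⁻¹ * (d c)⁻¹ * fderiv ℝ d c v) := by
      rw [he']
      simp [sq]
    have e1 : (d (c + v))⁻¹ - (d c)⁻¹ - e' v =
        -((d (c + v))⁻¹ * (d c)⁻¹ * (d (c + v) - d c - fderiv ℝ d c v)) +
          (d (c + v))⁻¹ * (d c)⁻¹ * (d c)⁻¹ * (fderiv ℝ d c v * (d (c + v) - d c)) := by
      rw [e0]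
      have := (hdpos (c + v) (hcv v hv)).ne'
      field_simp
      ring
    rw [e1]
    refine (abs_add_le _ _).trans ?_
    rw [abs_neg, abs_mul, abs_mul, abs_mul, abs_mul, abs_mul, abs_mul, abs_of_pos hi0,
      abs_of_pos hj0]
    have h3 := hden v
    calc (d (c + v))⁻¹ * (d c)⁻¹ * |d (c + v) - d c - fderiv ℝ d c v| +
          (d (c + v))⁻¹ * (d c)⁻¹ * (d c)⁻¹ * (|fderiv ℝ d c v| * |d (c + v) - d c|)
        ≤ C * C * (4 * C * ‖v‖ ^ 2) + C * C * C * (2 * C * ‖v‖ * (2 * C * ‖v‖)) := by gcongr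
      _ = (4 * C ^ 3 + 4 * C ^ 5) * ‖v‖ ^ 2 := by ring
  -- the product
  have hUd : HasFDerivAt (Uf Ψ d) ((d c)⁻¹ • B + e'.smulRight (perp Ψ c)) c := hed.smul hpd
  have hpc : ‖perp Ψ c‖ ≤ E₀ := (hpn c).trans (hdΨ c hcM)
  refine ⟨?_, ?_, ?_, ?_⟩
  · have h0 : ContDiffOn ℝ 1 d M := by exact_mod_cast contDiffOn_infty.1 hd 1
    have h1 : ContDiffAt ℝ 1 d c := h0.contDiffAt (hM.mem_nhds hcM)
    have h2 : ContDiffAt ℝ 1 (wg Ψ) c := hWc1.contDiffAt (hM.mem_nhds hcM)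
    have h3 : ContDiffAt ℝ 1 (perp Ψ) c := by
      have e1 : perp Ψ = fun x => Complex.I * (starRingEnd ℂ) (wg Ψ x) := funext hperp
      rw [e1]
      exact contDiffAt_const.mul (Complex.conjCLE.contDiff.contDiffAt.comp c h2)
    exact (h1.inv hdne).smul h3
  · unfold Uf
    rw [norm_smul, Real.norm_eq_abs, abs_of_pos hi0]
    have h1 : (d c)⁻¹ * ‖perp Ψ c‖ ≤ C * E₀ := by gcongr
    linarith
  · rw [hUd.fderiv]
    refine ContinuousLinearMap.opNorm_le_bound _ (by linarith) fun v => ?_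
    have e1 : ((d c)⁻¹ • B + e'.smulRight (perp Ψ c)) v = (d c)⁻¹ • B v + e' v • perp Ψ c := by
      simp
    rw [e1]
    refine (norm_add_le _ _).trans ?_
    rw [norm_smul, norm_smul, Real.norm_eq_abs, Real.norm_eq_abs, abs_of_pos hi0]
    have h1 : (d c)⁻¹ * ‖B v‖ ≤ C * ((D + K₁) * ‖v‖) := by
      have := hBn v
      gcongr
    have h2 : |e' v| * ‖perp Ψ c‖ ≤ 2 * C ^ 3 * ‖v‖ * E₀ := by
      have := hen v
      gcongr
    have hv0 := norm_nonneg v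
    have h3 : C * ((D + K₁) * ‖v‖) + 2 * C ^ 3 * ‖v‖ * E₀ =
        (C * (D + K₁) + 2 * C ^ 3 * E₀) * ‖v‖ := by ring
    have h4 : (C * (D + K₁) + 2 * C ^ 3 * E₀) * ‖v‖ ≤ C' * ‖v‖ :=
      mul_le_mul_of_nonneg_right (by linarith) hv0
    linarith
  · intro v hv
    rw [hUd.fderiv]
    have e1 : ((d c)⁻¹ • B + e'.smulRight (perp Ψ c)) v = (d c)⁻¹ • B v + e' v • perp Ψ c := by
      simp
    rw [e1]
    unfold Uf
    have e2 : (d (c + v))⁻¹ • perp Ψ (c + v) - (d c)⁻¹ • perp Ψ c -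
        ((d c)⁻¹ • B v + e' v • perp Ψ c) =
        ((d (c + v))⁻¹ - (d c)⁻¹ - e' v) • perp Ψ c + ((d (c + v))⁻¹ - (d c)⁻¹) • B v +
          (d (c + v))⁻¹ • (perp Ψ (c + v) - perp Ψ c - B v) := by
      simp only [sub_smul, smul_sub]
      abel
    rw [e2]
    obtain ⟨hj0, hj1⟩ := hinv (c + v) (hcv v hv)
    refine (norm_add₃_le).trans ?_
    rw [norm_smul, norm_smul, norm_smul, Real.norm_eq_abs, Real.norm_eq_abs, Real.norm_eq_abs,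
      abs_of_pos hj0]
    have h1 := heq v hv
    have h2 := hel v hv
    have h3 := hpq v hv
    have h4 := hBn v
    have i1 : |(d (c + v))⁻¹ - (d c)⁻¹ - e' v| * ‖perp Ψ c‖ ≤
        (4 * C ^ 3 + 4 * C ^ 5) * ‖v‖ ^ 2 * E₀ := by gcongr
    have i2 : |(d (c + v))⁻¹ - (d c)⁻¹| * ‖B v‖ ≤ 2 * C ^ 3 * ‖v‖ * ((D + K₁) * ‖v‖) := by gcongr
    have i3 : (d (c + v))⁻¹ * ‖perp Ψ (c + v) - perp Ψ c - B v‖ ≤ C * (D₂ * ‖v‖ ^ 2) := by gcongr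
    have h5 : (4 * C ^ 3 + 4 * C ^ 5) * ‖v‖ ^ 2 * E₀ + 2 * C ^ 3 * ‖v‖ * ((D + K₁) * ‖v‖) +
        C * (D₂ * ‖v‖ ^ 2) = ((4 * C ^ 3 + 4 * C ^ 5) * E₀ + 2 * C ^ 3 * (D + K₁) + C * D₂) *
          ‖v‖ ^ 2 := by ring
    have h6 : ((4 * C ^ 3 + 4 * C ^ 5) * E₀ + 2 * C ^ 3 * (D + K₁) + C * D₂) * ‖v‖ ^ 2 ≤
        C' * ‖v‖ ^ 2 := mul_le_mul_of_nonneg_right (by linarith) (by positivity)
    linarith

end Pool.Agent.YUS
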