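import Pool.Agent.YUS.K2sf
import Pool.Agent.YUS.K2h

/-!
# [YUS-K2s] The picture at one time
-/

open MeasureTheory Set Filter Topology
open scoped ContDiff

namespace Pool.Agent.YUS.K2s

open Pool.Agent.YUD Pool.Agent.YUT Pool.Agent.YUB Pool.Agent.YUR Pool.Agent.YUL

theorem V_bound {κ s₀ L C C₂ : ℝ} (hs : 0 < s₀) (hL : 1 ≤ L) (hC₂ : 0 ≤ C₂) {Ψ d : ℂ → ℝ} {p q : ℂ}
    (hA : ∀ z, ‖lmap p q z‖ ≤ L * ‖z‖) (hδ : 0 < wed p q) (hδi : (wed p q)⁻¹ ≤ C ^ 2)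
    (h0 : ‖Uf Ψ d 0‖ ≤ C₂)
    (h2 : ∀ v : ℂ, ‖v‖ ≤ s₀ → ‖Uf Ψ d (0 + v) - Uf Ψ d 0 - fderiv ℝ (Uf Ψ d) 0 v‖ ≤ C₂ * ‖v‖ ^ 2) :
    ∀ z ∈ Metric.ball (0 : ℂ) (s₀ / (4 * L)),
      ‖Vf κ Ψ d p q z‖ ≤ C ^ 2 * (2 * L * (C₂ * (1 + |κ|) * L ^ 2)) * ‖z‖ ^ 2 := by
  intro z hz
  have hL0 : 0 < L := by linarith
  have hmem := (lmap_mem hs hL hA hz).1
  have hp : ‖p‖ ≤ L := by
    have := hA 1
    rwa [lmap_one, norm_one, mul_one] at this
  have hq : ‖q‖ ≤ L := by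
    have := hA Complex.I
    rwa [lmap_I, Complex.norm_I, mul_one] at this
  have h3 := h2 (lmap p q z) (by linarith)
  rw [zero_add] at h3
  have h4 : ‖lmap p q z‖ ^ 2 ≤ L ^ 2 * ‖z‖ ^ 2 := by
    rw [← mul_pow]
    exact pow_le_pow_left₀ (norm_nonneg _) (hA z) 2
  have e : Uf Ψ d (lmap p q z) - Uf Ψ d 0 - κ * (starRingEnd ℂ) (Uf Ψ d 0) * (lmap p q z) ^ 2 -
      fderiv ℝ (Uf Ψ d) 0 (lmap p q z) =
      (Uf Ψ d (lmap p q z) - Uf Ψ d 0 - fderiv ℝ (Uf Ψ d) 0 (lmap p q z)) -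
        κ * (starRingEnd ℂ) (Uf Ψ d 0) * (lmap p q z) ^ 2 := by ring
  have h5 : ‖(κ : ℂ) * (starRingEnd ℂ) (Uf Ψ d 0) * (lmap p q z) ^ 2‖ ≤
      |κ| * C₂ * ‖lmap p q z‖ ^ 2 := by
    rw [norm_mul, norm_mul, norm_pow, RCLike.norm_conj, Complex.norm_real, Real.norm_eq_abs]
    exact mul_le_mul_of_nonneg_right (mul_le_mul_of_nonneg_left h0 (abs_nonneg _)) (by positivity)
  unfold Vf ginv
  rw [e, norm_smul, Real.norm_eq_abs, abs_of_pos (inv_pos.2 hδ)]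
  have h6 : ‖(Uf Ψ d (lmap p q z) - Uf Ψ d 0 - fderiv ℝ (Uf Ψ d) 0 (lmap p q z)) -
        κ * (starRingEnd ℂ) (Uf Ψ d 0) * (lmap p q z) ^ 2‖ ≤ C₂ * (1 + |κ|) * (L ^ 2 * ‖z‖ ^ 2) := by
    refine (norm_sub_le _ _).trans ((add_le_add h3 h5).trans ?_)
    calc C₂ * ‖lmap p q z‖ ^ 2 + |κ| * C₂ * ‖lmap p q z‖ ^ 2 =
          C₂ * (1 + |κ|) * ‖lmap p q z‖ ^ 2 := by ring
      _ ≤ _ := mul_le_mul_of_nonneg_left h4 (by positivity)
  have h7 := (norm_linv_le hp hq _).trans (mul_le_mul_of_nonneg_left h6 (by positivity :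
    0 ≤ 2 * L))
  calc _ ≤ C ^ 2 * (2 * L * (C₂ * (1 + |κ|) * (L ^ 2 * ‖z‖ ^ 2))) :=
        mul_le_mul hδi h7 (norm_nonneg _) (by positivity)
    _ = _ := by ring

theorem cub_le {k : Fin 4 → ℝ} {B : ℝ} (hk : ∀ i, |k i| ≤ B) (z : ℂ) :
    |cub k z| ≤ 4 * B * ‖z‖ ^ 3 := by
  have hx := Complex.abs_re_le_norm z
  have hy := Complex.abs_im_le_norm z
  have hB : 0 ≤ B := (abs_nonneg _).trans (hk 0)
  have key : ∀ (c u v w : ℝ), |c| ≤ B → |u| ≤ ‖z‖ → |v| ≤ ‖z‖ → |w| ≤ ‖z‖ →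
      |c * (u * v * w)| ≤ B * ‖z‖ ^ 3 := by
    intro c u v w hc hu hv hw
    rw [abs_mul, abs_mul, abs_mul]
    have h1 : |u| * |v| ≤ ‖z‖ * ‖z‖ := mul_le_mul hu hv (abs_nonneg _) (norm_nonneg _)
    have h2 : |u| * |v| * |w| ≤ ‖z‖ * ‖z‖ * ‖z‖ :=
      mul_le_mul h1 hw (abs_nonneg _) (by positivity)
    calc |c| * (|u| * |v| * |w|) ≤ B * (‖z‖ * ‖z‖ * ‖z‖) :=
          mul_le_mul hc h2 (by positivity) hB
      _ = _ := by ring
  have h0 := abs_le.1 (key (k 0) z.re z.re z.re (hk 0) hx hx hx)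
  have h1 := abs_le.1 (key (k 1) z.re z.re z.im (hk 1) hx hx hy)
  have h2 := abs_le.1 (key (k 2) z.re z.im z.im (hk 2) hx hy hy)
  have h3 := abs_le.1 (key (k 3) z.im z.im z.im (hk 3) hy hy hy)
  unfold cub
  rw [abs_le]
  constructor <;> nlinarith

end Pool.Agent.YUS.K2s

namespace Pool.Agent.YUS

open Pool.Agent.YUD Pool.Agent.YUT Pool.Agent.YUB Pool.Agent.YUR Pool.Agent.YUL

/-- [K2s] the picture at one time -/
theorem gstatic {α κ s₀ L K E₀ C : ℝ} (hα : 0 < α) (hα1 : α < 1) (hs : 0 < s₀)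
    (hκ : |κ| * (8 * s₀) ^ 2 ≤ 1) (hL : 1 ≤ L) (hC : 1 ≤ C) (hE : 0 ≤ E₀) :
    ∃ C' R : ℝ, 1 ≤ C' ∧ 0 < R ∧ ∀ (Ψ d : ℂ → ℝ) (p q : ℂ) (g β P₀ : ℝ),
      ContDiffOn ℝ 2 Ψ (Metric.ball 0 (4 * s₀)) →
      (∀ v ∈ Metric.ball (0 : ℂ) (4 * s₀), ‖fderiv ℝ Ψ v‖ ≤ E₀) →
      NormLe (Metric.ball 0 (4 * s₀)) α K (fun v => lap Ψ v / d v) →
      ContDiffOn ℝ ∞ d (Metric.ball 0 (4 * s₀)) → JetLe (Metric.ball 0 (4 * s₀)) 4 C d →
      (∀ v ∈ Metric.ball (0 : ℂ) (4 * s₀), 1 ≤ C * d v) →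
      (∀ z, ‖lmap p q z‖ ≤ L * ‖z‖) → (∀ z, ‖z‖ ≤ L * ‖lmap p q z‖) → wed p q * d 0 = P₀ →
      P₀ ≤ C → 1 ≤ C * P₀ → g = lap Ψ 0 / d 0 → 0 ≤ β → β ≤ C →
      (∀ z, fderiv ℝ (fun v => lap Ψ v / d v) 0 (lmap p q z) = β * z.im) →
      ∃ (a b : Fin 3 → ℝ) (s W₁ W₂ : ℂ → ℝ),
        GSlc α C' R 1 a b (‖q‖ ^ 2 / wed p q ^ 2) (-(p.re * q.re + p.im * q.im) / wed p q ^ 2)
          (‖p‖ ^ 2 / wed p q ^ 2) (1 / wed p q) s
          (fun z => lap Ψ (lmap p q z) / d (lmap p q z) - g - β * z.im)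
          (fun z => d (lmap p q z) / d 0) W₁ W₂ ∧
        (∀ z ∈ Metric.ball (0 : ℂ) R, ((d (lmap p q z) / d 0 : ℝ) : ℂ) * Vf κ Ψ d p q z =
          ⟨W₁ z, W₂ z⟩ + perp s z) ∧
        (∀ z ∈ Metric.ball (0 : ℂ) R, |(Vf κ Ψ d p q z).re - qua a z| ≤ C' * (‖z‖ ^ (2 + α) + ‖z‖ ^ 3) ∧
          |(Vf κ Ψ d p q z).im - qua b z| ≤ C' * (‖z‖ ^ (2 + α) + ‖z‖ ^ 3)) := by
  have hL0 : 0 < L := by linarith
  have hC0 : 0 < C := by linarith
  set Kp : ℝ := |K| with hKp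
  have hKp0 : 0 ≤ Kp := abs_nonneg K
  set K₁ : ℝ := C * Kp * (1 + 8 * (2 * (4 * s₀)) ^ (1 - α)) + 3 * (C * Kp) with hK₁
  have hpw : 0 ≤ (2 * (4 * s₀)) ^ (1 - α) := by positivity
  have hK₁0 : 0 ≤ K₁ := by positivity
  set E : ℝ := E₀ * volume.real (Metric.ball (0 : ℂ) (2 * s₀)) with hEdef
  have hE0 : 0 ≤ E := by positivity
  obtain ⟨C₁, hC₁, hst⟩ := static (K := K₁) (L := 1) (E := E) (ρ := 2 * s₀) hα hα1 hK₁0 le_rfl hE0
    (by positivity)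
  obtain ⟨C₂, hC₂, hUf⟩ := Uf_expand (K := K) hα hα1 hs hC hE
  set R : ℝ := s₀ / (4 * L) with hRdef
  have hR : 0 < R := by positivity
  set Bm : ℝ := C * ((2 * L) ^ 4 * C) with hBm
  have hBm0 : 0 ≤ Bm := by positivity
  have hC₁0 : 0 ≤ C₁ := by linarith
  have hC₂0 : 0 ≤ C₂ := by linarith
  have hCL : 0 ≤ C₂ * L := by positivity
  have hC2 : 0 ≤ C ^ 2 := by positivity
  set B : ℝ := 1 + |κ| + L + E₀ + C₁ + K₁ + C₂ * L + C₂ + C ^ 2 + C + Bm with hBdef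
  have hκ0 : 0 ≤ |κ| := abs_nonneg κ
  have hB0 : 0 ≤ B := by positivity
  obtain ⟨C₃, hW⟩ := K2s.Wf_sm (B := B) (R := R) hB0 hR
  set C₄ : ℝ := C * C₁ * L ^ (3 + α) with hC₄
  have hC₄0 : 0 ≤ C₄ := by positivity
  set BV : ℝ := C ^ 2 * (2 * L * (C₂ * (1 + |κ|) * L ^ 2)) with hBV
  have hBV0 : 0 ≤ BV := by positivity
  set C' : ℝ := 1 + L ^ 2 * C ^ 4 + C ^ 2 + 2 * C₄ + Kp * L ^ (1 + α) +
    C ^ 2 * (6 * Bm * (Kp * L)) + 8 * Bm + 20 * |C₃| + 16 * |C₃| * R + 2 * BV * Bm with hC'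
  have hC₃0 : 0 ≤ |C₃| := abs_nonneg _
  have n1 : 0 ≤ L ^ 2 * C ^ 4 := by positivity
  have n2 : 0 ≤ Kp * L ^ (1 + α) := by positivity
  have n3 : 0 ≤ C ^ 2 * (6 * Bm * (Kp * L)) := by positivity
  have n4 : 0 ≤ 16 * |C₃| * R := by positivity
  have n5 : 0 ≤ 2 * BV * Bm := by positivity
  refine ⟨C', R, by linarith, hR, ?_⟩
  intro Ψ d p q g β P₀ hΨ hdΨ hw hd hj hlo hA hA' hP hPC hPlo hg hβ0 hβC hβ
  subst hP
  have hM : IsOpen (Metric.ball (0 : ℂ) (4 * s₀)) := Metric.isOpen_ball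
  have hN : IsOpen (Metric.ball (0 : ℂ) R) := Metric.isOpen_ball
  have h0 : (0 : ℂ) ∈ Metric.ball (0 : ℂ) (4 * s₀) := Metric.mem_ball_self (by linarith)
  have hK0 : 0 ≤ K := hw.nonneg
  have hKK : Kp = K := abs_of_nonneg hK0
  have hdpos : ∀ v ∈ Metric.ball (0 : ℂ) (4 * s₀), 0 < d v := by
    intro v hv
    by_contra h
    have h1 : C * d v ≤ 0 := mul_nonpos_of_nonneg_of_nonpos hC0.le (not_lt.1 h)
    linarith [hlo v hv]
  have hd0 := hdpos 0 h0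
  have hd0C : d 0 ≤ C := (le_abs_self _).trans (hj.zero_le 0 h0)
  have hdi : (d 0)⁻¹ ≤ C := by
    rw [inv_le_iff_one_le_mul₀ hd0]; exact hlo 0 h0
  have hP0 : 0 < wed p q * d 0 := by
    by_contra h
    have h1 : C * (wed p q * d 0) ≤ 0 := mul_nonpos_of_nonneg_of_nonpos hC0.le (not_lt.1 h)
    linarith
  have hPi : (wed p q * d 0)⁻¹ ≤ C := by
    rw [inv_le_iff_one_le_mul₀ hP0]; exact hPlo
  have hδ : 0 < wed p q := (pos_iff_pos_of_mul_pos hP0).2 hd0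
  have hδi : (wed p q)⁻¹ ≤ C ^ 2 := by
    have e : (wed p q)⁻¹ = d 0 * (wed p q * d 0)⁻¹ := by field_simp
    rw [e, pow_two]
    exact mul_le_mul hd0C hPi (by positivity) hC0.le
  have hδC : wed p q ≤ C ^ 2 := by
    have e : wed p q = (wed p q * d 0) * (d 0)⁻¹ := by field_simp
    rw [e, pow_two]
    exact mul_le_mul hPC hdi (by positivity) hC0.le
  have hp : ‖p‖ ≤ L := by
    have := hA 1
    rwa [K2s.lmap_one, norm_one, mul_one] at this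
  have hq : ‖q‖ ≤ L := by
    have := hA Complex.I
    rwa [K2s.lmap_I, Complex.norm_I, mul_one] at this
  have hq' : 1 ≤ L * ‖q‖ := by
    have := hA' Complex.I
    rwa [K2s.lmap_I, Complex.norm_I] at this
  -- the Laplacian of `Ψ`
  set w : ℂ → ℝ := fun v => lap Ψ v / d v with hwdef
  have hlap : ∀ v ∈ Metric.ball (0 : ℂ) (4 * s₀), lap Ψ v = d v * w v := by
    intro v hv
    have := (hdpos v hv).ne'
    rw [hwdef]
    field_simp
  have hd2 : ContDiffOn ℝ 2 d (Metric.ball 0 (4 * s₀)) := hd.of_le (K2s.nat_le_inf 2)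
  obtain ⟨pb1, pb2, pb3, pb4⟩ := K2s.prod_bounds hα1 (by linarith : (0 : ℝ) < 4 * s₀) hK0 hd2
    (hj.of_le (by norm_num)) hw
  have hfl : ∀ x ∈ Metric.ball (0 : ℂ) (4 * s₀), fderiv ℝ (lap Ψ) x =
      fderiv ℝ (fun v => d v * w v) x := fun x hx => fderiv_congr_on hM hlap hx
  have q1 : DifferentiableOn ℝ (lap Ψ) (Metric.ball 0 (4 * s₀)) := pb1.congr hlap
  have hCK : 0 ≤ C * Kp := by positivity
  have hCK' : 0 ≤ C * Kp * (1 + 8 * (2 * (4 * s₀)) ^ (1 - α)) := by positivity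
  have q2 : |lap Ψ 0| ≤ K₁ := by
    rw [hlap 0 h0]
    refine pb2.trans ?_
    rw [← hKK, hK₁]
    linarith
  have q3 : ∀ x ∈ Metric.ball (0 : ℂ) (4 * s₀), ‖fderiv ℝ (lap Ψ) x‖ ≤ K₁ := by
    intro x hx
    rw [hfl x hx]
    refine (pb3 x hx).trans ?_
    rw [← hKK, hK₁]
    linarith
  have q4 : ∀ x ∈ Metric.ball (0 : ℂ) (4 * s₀), ∀ y ∈ Metric.ball (0 : ℂ) (4 * s₀),
      ‖fderiv ℝ (lap Ψ) x - fderiv ℝ (lap Ψ) y‖ ≤ K₁ * ‖x - y‖ ^ α := by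
    intro x hx y hy
    rw [hfl x hx, hfl y hy]
    refine (pb4 x hx y hy).trans (mul_le_mul_of_nonneg_right ?_ (by positivity))
    rw [← hKK, hK₁]
    linarith
  have q5 : (∫ x in Metric.ball (0 : ℂ) (2 * s₀), ‖fderiv ℝ Ψ x‖) ≤ E := by
    have h1 := norm_setIntegral_le_of_norm_le_const (μ := volume) (f := fun x => ‖fderiv ℝ Ψ x‖)
      (s := Metric.ball (0 : ℂ) (2 * s₀)) (C := E₀) measure_ball_lt_top (fun x hx => by
        rw [norm_norm]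
        refine hdΨ x (Metric.ball_subset_ball (by linarith) hx))
    exact (le_abs_self _).trans h1
  obtain ⟨b₁, b₂, hb₁, hb₂, hrem, -⟩ := hst (Metric.ball 0 (4 * s₀)) Ψ 0 1 Complex.I hM
    (Metric.closedBall_subset_ball (by linarith)) hΨ q1 q2 q3 q4 q5 (by simp [wed])
    (fun z => by simp [lmap])
  set a₀ : ℂ := wg (lap Ψ) 0 / 2 with ha₀
  have hrem' : ∀ v : ℂ, ‖v‖ ≤ s₀ / 4 → ‖wrem Ψ 0 b₁ b₂ a₀ v‖ ≤ C₁ * ‖v‖ ^ (2 + α) :=
    fun v hv => hrem v (by linarith)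
  have hwgle : ∀ (f : ℂ → ℝ) (x : ℂ), ‖wg f x‖ ≤ ‖fderiv ℝ f x‖ := fun f x =>
    (grad_facts (M := ∅) isOpen_empty (ψ := f) contDiffOn_empty).2.2.2 x
  have ha₀le : ‖a₀‖ ≤ K₁ := by
    rw [ha₀, norm_div]
    have h1 := (hwgle (lap Ψ) 0).trans (q3 0 h0)
    simp only [Complex.norm_ofNat]
    linarith [norm_nonneg (wg (lap Ψ) 0)]
  -- the velocity
  obtain ⟨u1, u2, u3, u4⟩ := hUf Ψ d hΨ hdΨ hw hd hj hlo 0 (Metric.mem_ball_self (by linarith))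
  have hV := K2s.V_bound (κ := κ) (C := C) hs hL hC₂0 hA hδ hδi u2 u4
  -- the rough part
  set s : ℂ → ℝ := fun z => srem Ψ 0 b₁ b₂ a₀ (lmap p q z) / (wed p q * d 0) with hsdef
  obtain ⟨s1, s2, s3⟩ := K2s.s_facts (p := p) (q := q) hα hs hL hC₁0 hP0 hΨ hA hrem'
  have hPC₄ : (wed p q * d 0)⁻¹ * C₁ * L ^ (3 + α) ≤ C₄ := by
    rw [hC₄]
    exact mul_le_mul_of_nonneg_right (mul_le_mul_of_nonneg_right hPi hC₁0) (by positivity)
  have s2' : ∀ z ∈ Metric.ball (0 : ℂ) R, |s z| ≤ C₄ * ‖z‖ ^ (3 + α) := fun z hz =>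
    (s2 z hz).trans (mul_le_mul_of_nonneg_right hPC₄ (by positivity))
  have s3' : ∀ z ∈ Metric.ball (0 : ℂ) R, ‖fderiv ℝ s z‖ ≤ C₄ * ‖z‖ ^ (2 + α) := fun z hz =>
    (s3 z hz).trans (mul_le_mul_of_nonneg_right hPC₄ (by positivity))
  -- the density
  obtain ⟨hm, -⟩ := K2s.m_facts hs hL hC hd hj (hlo 0 h0) hA
  set m : ℂ → ℝ := fun z => d (lmap p q z) / d 0 with hmdef
  have hm0 : m 0 = 1 := by
    rw [hmdef]
    simp only
    rw [K2s.lmap_zero]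
    exact div_self hd0.ne'
  obtain ⟨m₂, hm₂, hmt⟩ := K2s.taylor2 (hm.smooth.of_le (by norm_num)) hR
    (hm.jet.of_le (by norm_num))
  have hmt0 := K2s.taylor0 (hm.smooth.of_le (by norm_num)) (hm.jet.of_le (by norm_num))
  rw [hm0] at hmt hmt0
  -- the smooth part of the velocity
  set W : ℂ → ℂ := fun z => ((m z : ℝ) : ℂ) * Vf κ Ψ d p q z - perp s z with hWdef
  have hmem : ∀ z ∈ Metric.ball (0 : ℂ) R, lmap p q z ∈ Metric.ball (0 : ℂ) (4 * s₀) :=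
    fun z hz => (K2s.lmap_mem hs hL hA hz).2
  have hWeq : ∀ z ∈ Metric.ball (0 : ℂ) R, W z = K2s.Wf κ p q (wg Ψ 0) b₁ ((lap Ψ 0 / 2 : ℝ) : ℂ) b₂ a₀
      (Uf Ψ d 0) (fderiv ℝ (Uf Ψ d) 0 p) (fderiv ℝ (Uf Ψ d) 0 q) (wed p q)⁻¹ (d 0)⁻¹ m z :=
    fun z hz => K2s.W_eq hδ.ne' hd0.ne' (hdpos _ (hmem z hz)).ne'
      (dat (n := 1) hM hΨ (hmem z hz))
  have hWsm : K2s.SmC (Metric.ball 0 R) |C₃| W := by
    have h1 := hW κ p q (wg Ψ 0) b₁ ((lap Ψ 0 / 2 : ℝ) : ℂ) b₂ a₀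
      (Uf Ψ d 0) (fderiv ℝ (Uf Ψ d) 0 p) (fderiv ℝ (Uf Ψ d) 0 q) (wed p q)⁻¹ (d 0)⁻¹ m
      (by linarith) (by linarith) (by linarith)
      (by linarith [(hwgle Ψ 0).trans (hdΨ 0 h0)]) (by linarith)
      (by
        rw [Complex.norm_real, Real.norm_eq_abs, abs_div, abs_two]
        linarith [abs_nonneg (lap Ψ 0)])
      (by linarith) (by linarith) (by linarith)
      (by
        have h2 := ((fderiv ℝ (Uf Ψ d) 0).le_opNorm p).trans
          (mul_le_mul u3 hp (norm_nonneg _) hC₂0)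
        linarith)
      (by
        have h2 := ((fderiv ℝ (Uf Ψ d) 0).le_opNorm q).trans
          (mul_le_mul u3 hq (norm_nonneg _) hC₂0)
        linarith)
      (by rw [abs_of_pos (inv_pos.2 hδ)]; linarith)
      (by rw [abs_of_pos (inv_pos.2 hd0)]; linarith)
      (hm.mono (by linarith))
    exact (h1.congr hN fun z hz => (hWeq z hz).symm).mono (le_abs_self _)
  have hmle : ∀ z ∈ Metric.ball (0 : ℂ) R, |m z| ≤ Bm := fun z hz => hm.jet.zero_le z hz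
  have hperp : ∀ z ∈ Metric.ball (0 : ℂ) R, ‖perp s z‖ ≤ 2 * C₄ * ‖z‖ ^ (2 + α) := by
    intro z hz
    have h1 := K2s.norm_perp_le s z
    have h2 := s3' z hz
    linarith
  have hpowα : ∀ z ∈ Metric.ball (0 : ℂ) R, ‖z‖ ^ (2 + α) ≤ R ^ α * ‖z‖ ^ 2 := by
    intro z hz
    have hz' : ‖z‖ < R := by simpa using hz
    rcases eq_or_lt_of_le (norm_nonneg z) with h | h
    · rw [← h, Real.zero_rpow (by linarith)]; positivity
    · rw [Real.rpow_add h, Real.rpow_two, mul_comm]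
      exact mul_le_mul_of_nonneg_right (Real.rpow_le_rpow h.le hz'.le hα.le) (by positivity)
  have hWq : ∀ z : ℂ, ‖z‖ < R → ‖W z‖ ≤ (Bm * BV + 2 * C₄ * R ^ α) * ‖z‖ ^ 2 := by
    intro z hz
    have hz' : z ∈ Metric.ball (0 : ℂ) R := by simpa using hz
    have h1 : ‖((m z : ℝ) : ℂ) * Vf κ Ψ d p q z‖ ≤ Bm * (BV * ‖z‖ ^ 2) := by
      rw [norm_mul, Complex.norm_real, Real.norm_eq_abs]
      exact mul_le_mul (hmle z hz') (hV z hz') (norm_nonneg _) hBm0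
    have h2 := hperp z hz'
    have h3 := mul_le_mul_of_nonneg_left (hpowα z hz') (by positivity : 0 ≤ 2 * C₄)
    calc ‖W z‖ ≤ ‖((m z : ℝ) : ℂ) * Vf κ Ψ d p q z‖ + ‖perp s z‖ := norm_sub_le _ _
      _ ≤ Bm * (BV * ‖z‖ ^ 2) + 2 * C₄ * (R ^ α * ‖z‖ ^ 2) := by linarith
      _ = _ := by ring
  obtain ⟨x0, x1, x2⟩ := K2s.quad_zero (f := fun z => (W z).re) hR fun z hz =>
    (Complex.abs_re_le_norm _).trans (hWq z hz)
  obtain ⟨y0, y1, y2⟩ := K2s.quad_zero (f := fun z => (W z).im) hR fun z hz =>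
    (Complex.abs_im_le_norm _).trans (hWq z hz)
  obtain ⟨a, ka, ha, hka, hta⟩ := K2s.taylor3 hWsm.re.smooth hR hWsm.re.jet
  obtain ⟨b, kb, hb, hkb, htb⟩ := K2s.taylor3 hWsm.im.smooth hR hWsm.im.jet
  have hlin0 : ∀ z, lin ![(0 : ℝ), 0] z = 0 := fun z => by simp [lin]
  rw [x1, x2, x0] at hta
  rw [y1, y2, y0] at htb
  simp only [hlin0, sub_zero] at hta htb
  obtain ⟨e1, e2, e3⟩ := K2s.eta_facts (w := w) hα hs hL hw hA hg hβ
  have hKL : K * L ^ (1 + α) ≤ C' := by rw [← hKK]; linarith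
  have hKL0 : 0 ≤ K * L ^ (1 + α) := by positivity
  have hδ2 : 0 < wed p q ^ 2 := by positivity
  have hδ2i : (wed p q ^ 2)⁻¹ ≤ C ^ 4 := by
    rw [← inv_pow, show (4 : ℕ) = 2 * 2 from rfl, pow_mul]
    exact pow_le_pow_left₀ (by positivity) hδi 2
  have key2 : ∀ x : ℝ, |x| ≤ L ^ 2 → |x / wed p q ^ 2| ≤ L ^ 2 * C ^ 4 := by
    intro x hx
    rw [abs_div, abs_of_pos hδ2, div_eq_mul_inv]
    exact mul_le_mul hx hδ2i (by positivity) (by positivity)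
  refine ⟨a, b, s, fun z => (W z).re, fun z => (W z).im, ?_, ?_, ?_⟩
  · refine ⟨fun i => (ha i).trans (by linarith), fun i => (hb i).trans (by linarith), ?_, ?_, ?_, ?_,
      ?_, ?_, s1, ?_, ?_, e1, ?_, ?_, ?_, hm.smooth.continuousOn, hWsm.re.smooth.continuousOn,
      hWsm.im.smooth.continuousOn, ?_, ?_, ?_⟩
    · -- γ_lo
      have h1 : wed p q ^ 2 ≤ C ^ 4 := by
        rw [show (4 : ℕ) = 2 * 2 from rfl, pow_mul]
        exact pow_le_pow_left₀ hδ.le hδC 2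
      have h2 : 1 ≤ L ^ 2 * ‖q‖ ^ 2 := by
        rw [← mul_pow]; exact one_le_pow₀ hq'
      have h3 : 1 ≤ L ^ 2 * C ^ 4 * (‖q‖ ^ 2 / wed p q ^ 2) := by
        rw [← mul_div_assoc, le_div_iff₀ hδ2, one_mul]
        nlinarith
      have h4 : 0 ≤ ‖q‖ ^ 2 / wed p q ^ 2 := by positivity
      nlinarith
    · -- γ_le
      have h1 := key2 (‖q‖ ^ 2) (by
        rw [abs_of_nonneg (by positivity)]; exact pow_le_pow_left₀ (norm_nonneg _) hq 2)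
      linarith [le_abs_self (‖q‖ ^ 2 / wed p q ^ 2)]
    · -- μ_le
      have h1 := key2 (-(p.re * q.re + p.im * q.im)) (by
        rw [abs_neg]
        have h2 : p.re * q.re + p.im * q.im = (p * (starRingEnd ℂ) q).re := by
          simp [Complex.mul_re]
        rw [h2]
        refine (Complex.abs_re_le_norm _).trans ?_
        rw [norm_mul, RCLike.norm_conj, pow_two]
        exact mul_le_mul hp hq (norm_nonneg _) hL0.le)
      linarith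
    · -- ν_le
      have h1 := key2 (‖p‖ ^ 2) (by
        rw [abs_of_nonneg (by positivity)]; exact pow_le_pow_left₀ (norm_nonneg _) hp 2)
      linarith [le_abs_self (‖p‖ ^ 2 / wed p q ^ 2)]
    · -- p_lo
      rw [mul_one_div, le_div_iff₀ hδ]
      linarith
    · -- p_le
      rw [one_div]; linarith
    · -- s_le
      intro z hz
      refine (s2' z hz).trans (mul_le_mul_of_nonneg_right ?_ (by positivity))
      linarith
    · -- ds_le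
      intro z hz
      refine (s3' z hz).trans (mul_le_mul_of_nonneg_right ?_ (by positivity))
      linarith
    · -- η_le
      intro z hz
      exact (e2 z hz).trans (mul_le_mul_of_nonneg_right hKL (by positivity))
    · -- dη_le
      intro z hz z' hz'
      exact (e3 z hz z' hz').trans (mul_le_mul_of_nonneg_right hKL (by positivity))
    · -- lap_s
      intro z hz
      have h1 := K2s.lap_s (b₁ := b₁) (b₂ := b₂) hs hL hC hΨ hd hj (hlo 0 h0) hA hδ hδi hw hlap hg hβ z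
        hz
      refine h1.trans (mul_le_mul_of_nonneg_right ?_ (by positivity))
      rw [Real.one_rpow, mul_one, ← hKK]
      linarith
    · -- m_eq
      refine ⟨![dx m 0, dy m 0], m₂, ?_, fun i => (hm₂ i).trans (by linarith), ?_⟩
      · have z0 : (0 : ℂ) ∈ Metric.ball (0 : ℂ) R := Metric.mem_ball_self hR
        have h1 := hm.jet.2.1.zero_le 0 z0
        have h2 := hm.jet.2.2.zero_le 0 z0
        intro i
        fin_cases i
        · show |dx m 0| ≤ C'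
          linarith
        · show |dy m 0| ≤ C'
          linarith
      · intro z hz
        have h1 := hmt z (by simpa using hz)
        rw [one_mul, one_pow, one_mul, one_pow, mul_one]
        exact h1.trans (mul_le_mul_of_nonneg_right (by linarith) (by positivity))
    · -- W₁_eq
      refine ⟨ka, fun i => (hka i).trans (by linarith), fun z hz => ?_⟩
      have h1 := hta z (by simpa using hz)
      rw [one_mul, one_pow, one_mul, one_pow, mul_one]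
      exact h1.trans (mul_le_mul_of_nonneg_right (by linarith) (by positivity))
    · -- W₂_eq
      refine ⟨kb, fun i => (hkb i).trans (by linarith), fun z hz => ?_⟩
      have h1 := htb z (by simpa using hz)
      rw [one_mul, one_pow, one_mul, one_pow, mul_one]
      exact h1.trans (mul_le_mul_of_nonneg_right (by linarith) (by positivity))
  · intro z hz
    have h1 : W z = ((m z : ℝ) : ℂ) * Vf κ Ψ d p q z - perp s z := rfl
    show ((m z : ℝ) : ℂ) * Vf κ Ψ d p q z = W z + perp s z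
    rw [h1]; ring
  · intro z hz
    have hz' : ‖z‖ < R := by simpa using hz
    have v1 := hV z hz
    have v2 := hmt0 z hz'
    have v3 := hperp z hz
    have hmV : ((m z : ℝ) : ℂ) * Vf κ Ψ d p q z = W z + perp s z := by
      have h1 : W z = ((m z : ℝ) : ℂ) * Vf κ Ψ d p q z - perp s z := rfl
      rw [h1]; ring
    have v4 : ‖z‖ ^ 4 ≤ R * ‖z‖ ^ 3 := by
      rw [show (4 : ℕ) = 3 + 1 from rfl, pow_succ, mul_comm]
      exact mul_le_mul_of_nonneg_right hz'.le (by positivity)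
    have hα2 : 0 ≤ ‖z‖ ^ (2 + α) := by positivity
    have hz3 : 0 ≤ ‖z‖ ^ 3 := by positivity
    have fin : ∀ (V Wc P c2 c3 : ℝ), |V| ≤ BV * ‖z‖ ^ 2 → m z * V = Wc + P →
        |Wc - c2 - c3| ≤ 16 * |C₃| * ‖z‖ ^ 4 → |c3| ≤ 4 * |C₃| * ‖z‖ ^ 3 →
        |P| ≤ 2 * C₄ * ‖z‖ ^ (2 + α) → |V - c2| ≤ C' * (‖z‖ ^ (2 + α) + ‖z‖ ^ 3) := by
      intro V Wc P c2 c3 hV hmV' hWc hc3 hP
      have g1 : V - c2 = -((m z - 1) * V) + (Wc - c2 - c3) + c3 + P := by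
        linear_combination hmV'
      have g2 : |(m z - 1) * V| ≤ 2 * Bm * ‖z‖ * (BV * ‖z‖ ^ 2) := by
        rw [abs_mul]
        exact mul_le_mul v2 hV (abs_nonneg _) (by positivity)
      have g3 : |V - c2| ≤ |(m z - 1) * V| + |Wc - c2 - c3| + |c3| + |P| := by
        rw [g1]
        refine (abs_add_le _ _).trans ?_
        refine add_le_add_left ?_ _
        refine (abs_add_le _ _).trans ?_
        refine add_le_add_left ?_ _
        refine (abs_add_le _ _).trans ?_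
        rw [abs_neg]
      have g4 : 16 * |C₃| * ‖z‖ ^ 4 ≤ 16 * |C₃| * (R * ‖z‖ ^ 3) :=
        mul_le_mul_of_nonneg_left v4 (by positivity)
      have g5 : |V - c2| ≤ (2 * BV * Bm + 16 * |C₃| * R + 4 * |C₃|) * ‖z‖ ^ 3 +
          2 * C₄ * ‖z‖ ^ (2 + α) := by
        calc |V - c2| ≤ 2 * Bm * ‖z‖ * (BV * ‖z‖ ^ 2) + 16 * |C₃| * (R * ‖z‖ ^ 3) +
              4 * |C₃| * ‖z‖ ^ 3 + 2 * C₄ * ‖z‖ ^ (2 + α) := by linarith
          _ = _ := by ring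
      have g6 : (2 * BV * Bm + 16 * |C₃| * R + 4 * |C₃|) * ‖z‖ ^ 3 ≤ C' * ‖z‖ ^ 3 :=
        mul_le_mul_of_nonneg_right (by linarith) hz3
      have g7 : 2 * C₄ * ‖z‖ ^ (2 + α) ≤ C' * ‖z‖ ^ (2 + α) :=
        mul_le_mul_of_nonneg_right (by linarith) hα2
      linarith
    have r1 := congrArg Complex.re hmV
    have r2 := congrArg Complex.im hmV
    rw [Complex.re_ofReal_mul, Complex.add_re] at r1
    rw [Complex.im_ofReal_mul, Complex.add_im] at r2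
    exact ⟨fin _ _ _ _ (cub ka z) ((Complex.abs_re_le_norm _).trans v1) r1 (hta z hz')
      (K2s.cub_le hka z) ((Complex.abs_re_le_norm _).trans v3),
      fin _ _ _ _ (cub kb z) ((Complex.abs_im_le_norm _).trans v1) r2 (htb z hz')
      (K2s.cub_le hkb z) ((Complex.abs_im_le_norm _).trans v3)⟩

end Pool.Agent.YUS
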