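import Pool.Agent.YUS.PF
import Pool.Agent.YUS.K2s
import Pool.Agent.YUS.K2a
import Pool.Agent.YUS.K2b
import Pool.Agent.YUS.K2c
import Pool.Agent.YUS.K2d

open MeasureTheory Set Filter Topology
open scoped ContDiff

namespace Pool.Agent.YUS

open Pool.Agent.YUD Pool.Agent.YUT Pool.Agent.YUB Pool.Agent.YUR Pool.Agent.YUL

namespace K2e

theorem ibp {φ g : ℂ → ℝ} (hφ : ContDiff ℝ ∞ φ) (hs : HasCompactSupport φ) (hg : ContDiff ℝ ∞ g) (v : ℂ) :
    ∫ z, g z * fderiv ℝ φ z v = - ∫ z, fderiv ℝ g z v * φ z := by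
  have hcφ : Continuous φ := hφ.continuous
  have hcg : Continuous g := hg.continuous
  have hcφ' : Continuous (fun z => fderiv ℝ φ z v) :=
    (hφ.continuous_fderiv (by norm_num)).clm_apply continuous_const
  have hcg' : Continuous (fun z => fderiv ℝ g z v) :=
    (hg.continuous_fderiv (by norm_num)).clm_apply continuous_const
  have hs' : HasCompactSupport (fun z => fderiv ℝ φ z v) :=
    (hs.fderiv ℝ).comp_left (g := fun A : ℂ →L[ℝ] ℝ => A v) (by simp)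
  refine integral_mul_fderiv_eq_neg_fderiv_mul_of_integrable ?_ ?_ ?_ (fun x _ => ?_) (fun x _ => ?_)
  · exact (hcg'.mul hcφ).integrable_of_hasCompactSupport hs.mul_left
  · exact (hcg.mul hcφ').integrable_of_hasCompactSupport hs'.mul_left
  · exact (hcg.mul hcφ).integrable_of_hasCompactSupport hs.mul_left
  · exact hg.contDiffAt.differentiableAt (by norm_num)
  · exact hφ.contDiffAt.differentiableAt (by norm_num)

theorem theta (A B : ℝ) : ∃ (θ : ℂ → ℝ) (K : ℝ), ContDiff ℝ ∞ θ ∧ 0 ≤ K ∧ (∀ z, 1 ≤ ‖z‖ → θ z = 0) ∧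
    (∀ z, |θ z| ≤ K) ∧ (∀ z, ‖fderiv ℝ θ z‖ ≤ K) ∧ ∫ z, θ z = 0 ∧ ∫ z, z.re * θ z = A ∧
      ∫ z, z.im * θ z = B := by
  let f : ContDiffBump (0 : ℂ) := ⟨1 / 4, 1 / 2, by norm_num, by norm_num⟩
  let φ : ℂ → ℝ := f.normed volume
  have hφ : ContDiff ℝ ∞ φ := f.contDiff_normed
  have hcs : HasCompactSupport φ := f.hasCompactSupport_normed
  have hint : ∫ z, φ z = 1 := f.integral_normed
  have hts : tsupport φ = Metric.closedBall 0 (1 / 2) := f.tsupport_normed_eq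
  let e : ℂ := ⟨-A, -B⟩
  let θ : ℂ → ℝ := fun z => fderiv ℝ φ z e
  have hθ : ContDiff ℝ ∞ θ := (hφ.fderiv_right (m := ∞) (by norm_num)).clm_apply contDiff_const
  have hθs : HasCompactSupport θ :=
    (hcs.fderiv ℝ).comp_left (g := fun A : ℂ →L[ℝ] ℝ => A e) (by simp)
  have hc1 : Continuous θ := hθ.continuous
  have hc2 : Continuous (fderiv ℝ θ) := hθ.continuous_fderiv (by norm_num)
  obtain ⟨K₁, hK₁⟩ := hθs.exists_bound_of_continuous hc1
  obtain ⟨K₂, hK₂⟩ := (hθs.fderiv ℝ).exists_bound_of_continuous hc2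
  have h0 : ∫ z, θ z = 0 := by
    have h1 := ibp hφ hcs (g := fun _ => 1) contDiff_const e
    simpa using h1
  have hre : ContDiff ℝ ∞ (fun z : ℂ => z.re) := Complex.reCLM.contDiff
  have him : ContDiff ℝ ∞ (fun z : ℂ => z.im) := Complex.imCLM.contDiff
  have h1 : ∫ z, z.re * θ z = A := by
    have h1 := ibp hφ hcs (g := fun z => z.re) hre e
    have h2 : ∀ z : ℂ, fderiv ℝ (fun z : ℂ => z.re) z e = -A := fun z => by
      have h3 : HasFDerivAt (fun z : ℂ => z.re) Complex.reCLM z := Complex.reCLM.hasFDerivAt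
      rw [h3.fderiv]
      rfl
    simp only [h2, integral_const_mul, hint] at h1
    rw [h1]
    ring
  have h2 : ∫ z, z.im * θ z = B := by
    have h1 := ibp hφ hcs (g := fun z => z.im) him e
    have h2 : ∀ z : ℂ, fderiv ℝ (fun z : ℂ => z.im) z e = -B := fun z => by
      have h3 : HasFDerivAt (fun z : ℂ => z.im) Complex.imCLM z := Complex.imCLM.hasFDerivAt
      rw [h3.fderiv]
      rfl
    simp only [h2, integral_const_mul, hint] at h1
    rw [h1]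
    ring
  refine ⟨θ, max K₁ K₂, hθ, ?_, fun z hz => ?_, fun z => (hK₁ z).trans (le_max_left _ _),
    fun z => (hK₂ z).trans (le_max_right _ _), h0, h1, h2⟩
  · exact (norm_nonneg _).trans ((hK₁ 0).trans (le_max_left _ _))
  · have h3 : z ∉ tsupport φ := by
      rw [hts, mem_closedBall_zero_iff, not_le]
      linarith
    have h4 : fderiv ℝ φ z = 0 := by
      by_contra h5
      exact h3 (support_fderiv_subset ℝ h5)
    show fderiv ℝ φ z e = 0
    rw [h4]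
    rfl

theorem test_fun (A B : ℝ) : ∃ K : ℝ, 0 ≤ K ∧ ∀ ε : ℝ, 0 < ε → ∃ H : ℂ → ℝ, ContDiff ℝ ∞ H ∧
    (∀ z, ε ≤ ‖z‖ → H z = 0) ∧ (∀ z, |H z| ≤ K * ε⁻¹ ^ 3) ∧ (∀ z, ‖fderiv ℝ H z‖ ≤ K * ε⁻¹ ^ 4) ∧
      ∫ z, H z = 0 ∧ ∫ z, z.re * H z = A ∧ ∫ z, z.im * H z = B := by
  obtain ⟨θ, K, hθ, hK, hs, hK1, hK2, h0, h1, h2⟩ := theta A B
  refine ⟨K, hK, fun ε hε => ⟨fun z => ε⁻¹ ^ 3 * θ (ε⁻¹ • z), ?_, ?_, ?_, ?_, ?_, ?_, ?_⟩⟩
  · exact contDiff_const.mul (hθ.comp (contDiff_const_smul _))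
  · intro z hz
    have h3 : 1 ≤ ‖ε⁻¹ • z‖ := by
      rw [norm_smul, Real.norm_of_nonneg (by positivity), inv_mul_eq_div, one_le_div hε]
      exact hz
    simp only [hs _ h3, mul_zero]
  · intro z
    rw [abs_mul, abs_of_nonneg (by positivity), mul_comm]
    exact mul_le_mul_of_nonneg_right (hK1 _) (by positivity)
  · intro z
    have h3 : fderiv ℝ (fun z => ε⁻¹ ^ 3 * θ (ε⁻¹ • z)) z = ε⁻¹ ^ 3 • ε⁻¹ • fderiv ℝ θ (ε⁻¹ • z) := by
      rw [← fderiv_comp_smul]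
      exact fderiv_const_mul ((hθ.comp (contDiff_const_smul _)).contDiffAt.differentiableAt (by norm_num)) _
    rw [h3, norm_smul, norm_smul, Real.norm_of_nonneg (by positivity), Real.norm_of_nonneg (by positivity),
      ← mul_assoc, ← pow_succ, mul_comm]
    exact mul_le_mul_of_nonneg_right (hK2 _) (by positivity)
  · rw [integral_const_mul, Measure.integral_comp_smul, h0, smul_zero, mul_zero]
  · have h3 : (fun z : ℂ => z.re * (ε⁻¹ ^ 3 * θ (ε⁻¹ • z))) =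
        fun z => ε⁻¹ ^ 2 * ((fun u : ℂ => u.re * θ u) (ε⁻¹ • z)) := by
      funext z
      simp only [Complex.smul_re, smul_eq_mul]
      field_simp
    have h4 := Measure.integral_comp_smul volume (fun u : ℂ => u.re * θ u) ε⁻¹
    rw [h3, integral_const_mul, h4, h1, Complex.finrank_real_complex, smul_eq_mul,
      abs_of_pos (by positivity)]
    field_simp
  · have h3 : (fun z : ℂ => z.im * (ε⁻¹ ^ 3 * θ (ε⁻¹ • z))) =
        fun z => ε⁻¹ ^ 2 * ((fun u : ℂ => u.im * θ u) (ε⁻¹ • z)) := by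
      funext z
      simp only [Complex.smul_im, smul_eq_mul]
      field_simp
    have h4 := Measure.integral_comp_smul volume (fun u : ℂ => u.im * θ u) ε⁻¹
    rw [h3, integral_const_mul, h4, h2, Complex.finrank_real_complex, smul_eq_mul,
      abs_of_pos (by positivity)]
    field_simp

theorem int_le {F : ℂ → ℝ} {ε M : ℝ} (hε : 0 < ε) (hM : 0 ≤ M) (h0 : ∀ z, ε ≤ ‖z‖ → F z = 0)
    (h1 : ∀ z, ‖z‖ < ε → |F z| ≤ M) : |∫ z, F z| ≤ 4 * ε ^ 2 * M := by
  have h2 : ∫ z, F z = ∫ z in Metric.ball (0 : ℂ) ε, F z := by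
    rw [setIntegral_eq_integral_of_forall_compl_eq_zero]
    intro z hz
    rw [mem_ball_zero_iff, not_lt] at hz
    exact h0 z hz
  have h3 : ‖∫ z in Metric.ball (0 : ℂ) ε, F z‖ ≤ M * volume.real (Metric.ball (0 : ℂ) ε) :=
    norm_setIntegral_le_of_norm_le_const measure_ball_lt_top fun z hz => h1 z (mem_ball_zero_iff.1 hz)
  rw [h2, ← Real.norm_eq_abs]
  refine h3.trans ?_
  have h4 : volume.real (Metric.ball (0 : ℂ) ε) = ε ^ 2 * Real.pi := by
    rw [Measure.real, Complex.volume_ball, ENNReal.toReal_mul, ENNReal.toReal_pow, ENNReal.toReal_ofReal hε.le]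
    rfl
  rw [h4]
  nlinarith [Real.pi_le_four, mul_nonneg hM (sq_nonneg ε)]

theorem fderiv_qua (k : Fin 3 → ℝ) (z v : ℂ) : fderiv ℝ (qua k) z v =
    (2 * k 0 * z.re + k 1 * z.im) * v.re + (k 1 * z.re + 2 * k 2 * z.im) * v.im := by
  have hre : HasFDerivAt (fun z : ℂ => z.re) Complex.reCLM z := Complex.reCLM.hasFDerivAt
  have him : HasFDerivAt (fun z : ℂ => z.im) Complex.imCLM z := Complex.imCLM.hasFDerivAt
  have h1 : HasFDerivAt (qua k) _ z := (((hre.pow 2).const_mul (k 0)).add ((hre.mul him).const_mul (k 1))).add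
    ((him.pow 2).const_mul (k 2))
  rw [h1.fderiv]
  simp
  ring

theorem qua_smooth (k : Fin 3 → ℝ) : ContDiff ℝ ∞ (qua k) := by
  have hre : ContDiff ℝ ∞ (fun z : ℂ => z.re) := Complex.reCLM.contDiff
  have him : ContDiff ℝ ∞ (fun z : ℂ => z.im) := Complex.imCLM.contDiff
  unfold qua
  exact ((contDiff_const.mul (hre.pow 2)).add (contDiff_const.mul (hre.mul him))).add
    (contDiff_const.mul (him.pow 2))

theorem fderiv_split (H : ℂ → ℝ) (z v : ℂ) : fderiv ℝ H z v = v.re * dx H z + v.im * dy H z := by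
  have h : v = v.re • (1 : ℂ) + v.im • Complex.I := by
    apply Complex.ext <;> simp
  conv_lhs => rw [h]
  rw [map_add, map_smul, map_smul, smul_eq_mul, smul_eq_mul]
  rfl

/-- the main term -/
theorem int_qua {H : ℂ → ℝ} {A B ε : ℝ} (hH : ContDiff ℝ ∞ H) (hs : ∀ z, ε ≤ ‖z‖ → H z = 0)
    (h1 : ∫ z, z.re * H z = A) (h2 : ∫ z, z.im * H z = B) (a b : Fin 3 → ℝ) :
    ∫ z, fderiv ℝ H z ⟨qua a z, qua b z⟩ = -(A * (2 * a 0 + b 1) + B * (a 1 + 2 * b 2)) := by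
  have hcs : HasCompactSupport H := HasCompactSupport.intro (isCompact_closedBall 0 ε) fun z hz => by
    rw [mem_closedBall_zero_iff, not_le] at hz
    exact hs z hz.le
  have hcH : Continuous H := hH.continuous
  have hd : ∀ v : ℂ, Continuous (fun z => fderiv ℝ H z v) := fun v =>
    (hH.continuous_fderiv (by norm_num)).clm_apply continuous_const
  have hds : ∀ v : ℂ, HasCompactSupport (fun z => fderiv ℝ H z v) := fun v =>
    (hcs.fderiv ℝ).comp_left (g := fun A : ℂ →L[ℝ] ℝ => A v) (by simp)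
  have hi : ∀ (g : ℂ → ℝ) (v : ℂ), Continuous g → Integrable (fun z => g z * fderiv ℝ H z v) := fun g v hg =>
    (hg.mul (hd v)).integrable_of_hasCompactSupport (hds v).mul_left
  have hi' : ∀ (g : ℂ → ℝ), Continuous g → Integrable (fun z => g z * H z) := fun g hg =>
    (hg.mul hcH).integrable_of_hasCompactSupport hcs.mul_left
  have h3 : (fun z => fderiv ℝ H z ⟨qua a z, qua b z⟩) =
      fun z => qua a z * fderiv ℝ H z 1 + qua b z * fderiv ℝ H z Complex.I := by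
    funext z
    rw [fderiv_split]
    rfl
  rw [h3, integral_add (hi _ _ (qua_smooth a).continuous) (hi _ _ (qua_smooth b).continuous),
    ibp hH hcs (qua_smooth a), ibp hH hcs (qua_smooth b)]
  have h4 : (fun z => fderiv ℝ (qua a) z 1 * H z) =
      fun z => 2 * a 0 * (z.re * H z) + a 1 * (z.im * H z) := by
    funext z
    rw [fderiv_qua]
    simp
    ring
  have h5 : (fun z => fderiv ℝ (qua b) z Complex.I * H z) =
      fun z => b 1 * (z.re * H z) + 2 * b 2 * (z.im * H z) := by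
    funext z
    rw [fderiv_qua]
    simp
    ring
  rw [h4, h5, integral_add ((hi' _ Complex.continuous_re).const_mul _) ((hi' _ Complex.continuous_im).const_mul _),
    integral_add ((hi' _ Complex.continuous_re).const_mul _) ((hi' _ Complex.continuous_im).const_mul _),
    integral_const_mul, integral_const_mul, integral_const_mul, integral_const_mul, h1, h2]
  ring

theorem cont_of_supp {E : Type} [TopologicalSpace E] [Zero E] {F : ℂ → E} {ε R : ℝ} (hεR : ε < R)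
    (h0 : ∀ z, ε ≤ ‖z‖ → F z = 0) (hF : ContinuousOn F (Metric.ball 0 R)) : Continuous F := by
  rw [continuous_iff_continuousAt]
  intro z
  by_cases hz : ‖z‖ < R
  · exact hF.continuousAt (Metric.isOpen_ball.mem_nhds (mem_ball_zero_iff.2 hz))
  · have h1 : F =ᶠ[𝓝 z] fun _ => 0 := by
      have h2 : {w : ℂ | ε < ‖w‖} ∈ 𝓝 z :=
        (isOpen_lt continuous_const continuous_norm).mem_nhds (hεR.trans_le (not_lt.1 hz))
      filter_upwards [h2] with w hw
      exact h0 w (le_of_lt hw)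
    exact continuousAt_const.congr h1.symm

theorem int_of_supp {F : ℂ → ℝ} {ε R : ℝ} (hεR : ε < R)
    (h0 : ∀ z, ε ≤ ‖z‖ → F z = 0) (hF : ContinuousOn F (Metric.ball 0 R)) : Integrable F := by
  refine (cont_of_supp hεR h0 hF).integrable_of_hasCompactSupport
    (HasCompactSupport.intro (isCompact_closedBall 0 ε) fun z hz => ?_)
  rw [mem_closedBall_zero_iff, not_le] at hz
  exact h0 z hz.le

theorem lin_le {C : ℝ} {k : Fin 2 → ℝ} (hk : ∀ i, |k i| ≤ C) (z : ℂ) : |lin k z| ≤ 2 * C * ‖z‖ := by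
  have h1 := Complex.abs_re_le_norm z
  have h2 := Complex.abs_im_le_norm z
  have hC : 0 ≤ C := (abs_nonneg _).trans (hk 0)
  calc |lin k z| ≤ |k 0 * z.re| + |k 1 * z.im| := abs_add_le _ _
    _ = |k 0| * |z.re| + |k 1| * |z.im| := by rw [abs_mul, abs_mul]
    _ ≤ C * ‖z‖ + C * ‖z‖ := add_le_add (mul_le_mul (hk 0) h1 (abs_nonneg _) hC)
        (mul_le_mul (hk 1) h2 (abs_nonneg _) hC)
    _ = 2 * C * ‖z‖ := by ring

theorem qua_le {C : ℝ} {k : Fin 3 → ℝ} (hk : ∀ i, |k i| ≤ C) (z : ℂ) : |qua k z| ≤ 3 * C * ‖z‖ ^ 2 := by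
  have h1 := Complex.abs_re_le_norm z
  have h2 := Complex.abs_im_le_norm z
  have hC : 0 ≤ C := (abs_nonneg _).trans (hk 0)
  have h3 : |z.re ^ 2| ≤ ‖z‖ ^ 2 := by
    rw [abs_pow]
    exact pow_le_pow_left₀ (abs_nonneg _) h1 2
  have h4 : |z.im ^ 2| ≤ ‖z‖ ^ 2 := by
    rw [abs_pow]
    exact pow_le_pow_left₀ (abs_nonneg _) h2 2
  have h5 : |z.re * z.im| ≤ ‖z‖ ^ 2 := by
    rw [abs_mul, sq]
    exact mul_le_mul h1 h2 (abs_nonneg _) (norm_nonneg _)
  calc |qua k z| ≤ |k 0 * z.re ^ 2| + |k 1 * (z.re * z.im)| + |k 2 * z.im ^ 2| :=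
        (abs_add_le _ _).trans (add_le_add_left (abs_add_le _ _) _)
    _ = |k 0| * |z.re ^ 2| + |k 1| * |z.re * z.im| + |k 2| * |z.im ^ 2| := by
        rw [abs_mul (k 0), abs_mul (k 1), abs_mul (k 2)]
    _ ≤ C * ‖z‖ ^ 2 + C * ‖z‖ ^ 2 + C * ‖z‖ ^ 2 :=
        add_le_add (add_le_add (mul_le_mul (hk 0) h3 (abs_nonneg _) hC)
          (mul_le_mul (hk 1) h5 (abs_nonneg _) hC)) (mul_le_mul (hk 2) h4 (abs_nonneg _) hC)
    _ = 3 * C * ‖z‖ ^ 2 := by ring

theorem rpow_a {x α : ℝ} (hx : 0 ≤ x) (hx1 : x ≤ 1) (hα : 0 < α) : x ^ (2 + α) ≤ x ^ 2 := by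
  rcases hx.eq_or_lt with h0 | h0
  · rw [← h0, Real.zero_rpow (by linarith)]
    norm_num
  · rw [← Real.rpow_natCast]
    exact Real.rpow_le_rpow_of_exponent_ge h0 hx1 (by push_cast; linarith)

theorem rpow_b {x α : ℝ} (hx : 0 ≤ x) (hx1 : x ≤ 1) (hα : α < 1) (hα0 : 0 < α) : x ^ 3 ≤ x ^ (2 + α) := by
  rcases hx.eq_or_lt with h0 | h0
  · rw [← h0, Real.zero_rpow (by linarith)]
    norm_num
  · rw [← Real.rpow_natCast]
    exact Real.rpow_le_rpow_of_exponent_ge h0 hx1 (by push_cast; linarith)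

/-- bounds on the disc -/
theorem ptw {α C : ℝ} (hα : 0 < α) (hα1 : α < 1) (hC : 1 ≤ C) {z : ℂ} (hz : ‖z‖ ≤ 1) {mz : ℝ} {Vz : ℂ}
    {m₁ : Fin 2 → ℝ} {m₂ a b : Fin 3 → ℝ} (h1 : ∀ i, |m₁ i| ≤ C) (h2 : ∀ i, |m₂ i| ≤ C)
    (h3 : |mz - 1 - lin m₁ z - qua m₂ z| ≤ C * ‖z‖ ^ 3) (ha : ∀ i, |a i| ≤ C) (hb : ∀ i, |b i| ≤ C)
    (h4 : |Vz.re - qua a z| ≤ C * (‖z‖ ^ (2 + α) + ‖z‖ ^ 3))
    (h5 : |Vz.im - qua b z| ≤ C * (‖z‖ ^ (2 + α) + ‖z‖ ^ 3)) :
    |mz - 1 - lin m₁ z| ≤ 4 * C * ‖z‖ ^ 2 ∧ |mz - 1| ≤ 6 * C * ‖z‖ ∧ ‖Vz‖ ≤ 10 * C * ‖z‖ ^ 2 ∧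
      ‖mz • Vz - ⟨qua a z, qua b z⟩‖ ≤ 64 * C ^ 2 * ‖z‖ ^ (2 + α) := by
  have hz0 := norm_nonneg z
  have hC0 : 0 < C := by linarith
  have p1 := rpow_a hz0 hz hα
  have p2 := rpow_b hz0 hz hα1 hα
  have p3 : ‖z‖ ^ 3 ≤ ‖z‖ ^ 2 := pow_le_pow_of_le_one hz0 hz (by norm_num)
  have p4 : ‖z‖ ^ 2 ≤ ‖z‖ := by
    have := pow_le_pow_of_le_one hz0 hz (show 1 ≤ 2 by norm_num)
    rwa [pow_one] at this
  have l1 := lin_le h1 z
  have l2 := qua_le h2 z
  have l3 := qua_le ha z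
  have l4 := qua_le hb z
  have q3 : C * ‖z‖ ^ 3 ≤ C * ‖z‖ ^ 2 := mul_le_mul_of_nonneg_left p3 hC0.le
  have q4 : C * ‖z‖ ^ 2 ≤ C * ‖z‖ := mul_le_mul_of_nonneg_left p4 hC0.le
  have r1 : |mz - 1 - lin m₁ z| ≤ 4 * C * ‖z‖ ^ 2 := by
    have e : mz - 1 - lin m₁ z = (mz - 1 - lin m₁ z - qua m₂ z) + qua m₂ z := by ring
    rw [e]
    refine (abs_add_le _ _).trans ?_
    linarith
  have r2 : |mz - 1| ≤ 6 * C * ‖z‖ := by
    have e : mz - 1 = (mz - 1 - lin m₁ z) + lin m₁ z := by ring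
    rw [e]
    refine (abs_add_le _ _).trans ?_
    linarith
  have q1 : C * ‖z‖ ^ (2 + α) ≤ C * ‖z‖ ^ 2 := mul_le_mul_of_nonneg_left p1 hC0.le
  have q2 : C * ‖z‖ ^ 3 ≤ C * ‖z‖ ^ (2 + α) := mul_le_mul_of_nonneg_left p2 hC0.le
  have r3 : ‖Vz - ⟨qua a z, qua b z⟩‖ ≤ 4 * C * ‖z‖ ^ (2 + α) := by
    refine (Complex.norm_le_abs_re_add_abs_im _).trans ?_
    simp only [Complex.sub_re, Complex.sub_im]
    linarith
  have r4 : ‖(⟨qua a z, qua b z⟩ : ℂ)‖ ≤ 6 * C * ‖z‖ ^ 2 := by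
    refine (Complex.norm_le_abs_re_add_abs_im _).trans ?_
    simp only
    linarith
  have r5 : ‖Vz‖ ≤ 10 * C * ‖z‖ ^ 2 := by
    have e : Vz = (Vz - ⟨qua a z, qua b z⟩) + ⟨qua a z, qua b z⟩ := by ring
    rw [e]
    refine (norm_add_le _ _).trans ?_
    linarith
  refine ⟨r1, r2, r5, ?_⟩
  have e : mz • Vz - ⟨qua a z, qua b z⟩ = (mz - 1) • Vz + (Vz - ⟨qua a z, qua b z⟩) := by
    rw [sub_smul, one_smul]
    ring
  rw [e]
  refine (norm_add_le _ _).trans ?_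
  rw [norm_smul, Real.norm_eq_abs]
  have r6 : |mz - 1| * ‖Vz‖ ≤ (6 * C * ‖z‖) * (10 * C * ‖z‖ ^ 2) :=
    mul_le_mul r2 r5 (norm_nonneg _) (by positivity)
  have r7 : C ^ 2 * ‖z‖ ^ 3 ≤ C ^ 2 * ‖z‖ ^ (2 + α) := mul_le_mul_of_nonneg_left p2 (by positivity)
  have r8 : C * ‖z‖ ^ (2 + α) ≤ C ^ 2 * ‖z‖ ^ (2 + α) := by
    refine mul_le_mul_of_nonneg_right ?_ (by positivity)
    nlinarith
  nlinarith

/-- the mass of the test function -/
theorem mass_le {α C R K A B ε : ℝ} (hα : 0 < α) (hα1 : α < 1) (hC : 1 ≤ C) (hK : 0 ≤ K) (hε : 0 < ε)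
    (hε1 : ε ≤ 1) (hεR : ε < R) {H : ℂ → ℝ} (hH : ContDiff ℝ ∞ H) (hs : ∀ z, ε ≤ ‖z‖ → H z = 0)
    (hK1 : ∀ z, |H z| ≤ K * ε⁻¹ ^ 3) (h0 : ∫ z, H z = 0) (h1 : ∫ z, z.re * H z = A)
    (h2 : ∫ z, z.im * H z = B) {m : ℂ → ℝ} (hmc : ContinuousOn m (Metric.ball 0 R))
    (hm : ∃ (m₁ : Fin 2 → ℝ) (m₂ : Fin 3 → ℝ), (∀ i, |m₁ i| ≤ C) ∧ (∀ i, |m₂ i| ≤ C) ∧
      ∀ z ∈ Metric.ball (0 : ℂ) R, |m z - 1 - lin m₁ z - qua m₂ z| ≤ C * ‖z‖ ^ 3) :
    |∫ z, H z * m z| ≤ C * (|A| + |B|) + 16 * K * C * ε := by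
  obtain ⟨m₁, m₂, hm1, hm2, hm3⟩ := hm
  have hcH : Continuous H := hH.continuous
  have hcs : HasCompactSupport H := HasCompactSupport.intro (isCompact_closedBall 0 ε) fun z hz => by
    rw [mem_closedBall_zero_iff, not_le] at hz
    exact hs z hz.le
  have hi' : ∀ (g : ℂ → ℝ), Continuous g → Integrable (fun z => g z * H z) := fun g hg =>
    (hg.mul hcH).integrable_of_hasCompactSupport hcs.mul_left
  have hlc : Continuous (lin m₁) := by
    unfold lin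
    exact (continuous_const.mul Complex.continuous_re).add (continuous_const.mul Complex.continuous_im)
  have hi1 : Integrable (fun z => H z * (m z - 1 - lin m₁ z)) := by
    refine int_of_supp hεR (fun z hz => by rw [hs z hz, zero_mul]) ?_
    exact hcH.continuousOn.mul ((hmc.sub continuousOn_const).sub hlc.continuousOn)
  have hi2 : Integrable (fun z => m₁ 0 * (z.re * H z)) := (hi' _ Complex.continuous_re).const_mul _
  have hi3 : Integrable (fun z => m₁ 1 * (z.im * H z)) := (hi' _ Complex.continuous_im).const_mul _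
  have hi4 : Integrable H := hcH.integrable_of_hasCompactSupport hcs
  have e : (fun z => H z * m z) = fun z => H z + (m₁ 0 * (z.re * H z) + m₁ 1 * (z.im * H z)) +
      H z * (m z - 1 - lin m₁ z) := by
    funext z
    unfold lin
    ring
  have h5 : |∫ z, H z * (m z - 1 - lin m₁ z)| ≤ 4 * ε ^ 2 * (K * ε⁻¹ ^ 3 * (4 * C * ε ^ 2)) := by
    refine int_le hε (by positivity) (fun z hz => by rw [hs z hz, zero_mul]) fun z hz => ?_
    rw [abs_mul]
    refine mul_le_mul (hK1 z) ?_ (abs_nonneg _) (by positivity)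
    have h6 := hm3 z (mem_ball_zero_iff.2 (hz.trans hεR))
    have hz1 : ‖z‖ ≤ 1 := hz.le.trans hε1
    have h7 : |m z - 1 - lin m₁ z| ≤ 4 * C * ‖z‖ ^ 2 := by
      have e : m z - 1 - lin m₁ z = (m z - 1 - lin m₁ z - qua m₂ z) + qua m₂ z := by ring
      rw [e]
      refine (abs_add_le _ _).trans ?_
      have l2 := qua_le hm2 z
      have p3 : ‖z‖ ^ 3 ≤ ‖z‖ ^ 2 := pow_le_pow_of_le_one (norm_nonneg _) hz1 (by norm_num)
      have q3 : C * ‖z‖ ^ 3 ≤ C * ‖z‖ ^ 2 := mul_le_mul_of_nonneg_left p3 (by linarith)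
      linarith
    refine h7.trans (mul_le_mul_of_nonneg_left ?_ (by positivity))
    exact pow_le_pow_left₀ (norm_nonneg _) hz.le 2
  have h6 : 4 * ε ^ 2 * (K * ε⁻¹ ^ 3 * (4 * C * ε ^ 2)) = 16 * K * C * ε := by
    field_simp
    ring
  have hi5 : Integrable (fun z => m₁ 0 * (z.re * H z) + m₁ 1 * (z.im * H z)) := hi2.add hi3
  have hi6 : Integrable (fun z => H z + (m₁ 0 * (z.re * H z) + m₁ 1 * (z.im * H z))) := hi4.add hi5
  rw [e, integral_add hi6 hi1, integral_add hi4 hi5, integral_add hi2 hi3, h0,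
    integral_const_mul, integral_const_mul, h1, h2, zero_add]
  refine (abs_add_le _ _).trans (add_le_add ?_ (h5.trans_eq h6))
  refine (abs_add_le _ _).trans ?_
  rw [abs_mul, abs_mul, mul_add]
  exact add_le_add (mul_le_mul_of_nonneg_right (hm1 0) (abs_nonneg _))
    (mul_le_mul_of_nonneg_right (hm1 1) (abs_nonneg _))

theorem fderiv_zero {H : ℂ → ℝ} {ε : ℝ} (hs : ∀ z, ε ≤ ‖z‖ → H z = 0) {z : ℂ} (hz : ε < ‖z‖) :
    fderiv ℝ H z = 0 := by
  have h1 : H =ᶠ[𝓝 z] fun _ => 0 := by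
    have h2 : {w : ℂ | ε < ‖w‖} ∈ 𝓝 z := (isOpen_lt continuous_const continuous_norm).mem_nhds hz
    filter_upwards [h2] with w hw
    exact hs w (le_of_lt hw)
  rw [h1.fderiv_eq, fderiv_fun_const]
  rfl

theorem fderiv_zero' {H : ℂ → ℝ} {ε : ℝ} (hH : ContDiff ℝ 1 H) (hs : ∀ z, ε ≤ ‖z‖ → H z = 0) {z : ℂ}
    (hz0 : z ≠ 0) (hz : ε ≤ ‖z‖) : fderiv ℝ H z = 0 := by
  have hc : Continuous (fderiv ℝ H) := hH.continuous_fderiv (by norm_num)
  have h1 : Tendsto (fun s : ℝ => fderiv ℝ H (s • z)) (𝓝[>] 1) (𝓝 (fderiv ℝ H z)) := by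
    have h2 : Continuous (fun s : ℝ => fderiv ℝ H (s • z)) := hc.comp (continuous_id.smul continuous_const)
    have h3 := (h2.tendsto 1).mono_left (nhdsWithin_le_nhds (s := Ioi (1 : ℝ)))
    rwa [one_smul] at h3
  refine tendsto_nhds_unique h1 (tendsto_const_nhds.congr' ?_)
  filter_upwards [self_mem_nhdsWithin] with s hs'
  refine (fderiv_zero hs ?_).symm
  rw [norm_smul, Real.norm_of_nonneg (zero_le_one.trans (le_of_lt hs'))]
  have h4 : 0 < ‖z‖ := norm_pos_iff.2 hz0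
  have h5 : (1 : ℝ) < s := hs'
  nlinarith

theorem div_aux {α C R K A B ε : ℝ} (hα : 0 < α) (hα1 : α < 1) (hC : 1 ≤ C) (hK : 0 ≤ K) (hε : 0 < ε)
    (hε1 : ε ≤ 1) (hεR : ε < R) {H : ℂ → ℝ} (hH : ContDiff ℝ ∞ H) (hs : ∀ z, ε ≤ ‖z‖ → H z = 0)
    (hK2 : ∀ z, ‖fderiv ℝ H z‖ ≤ K * ε⁻¹ ^ 4) (h1 : ∫ z, z.re * H z = A)
    (h2 : ∫ z, z.im * H z = B) {m : ℂ → ℝ} (hmc : ContinuousOn m (Metric.ball 0 R)) {V : ℂ → ℂ}
    (hVc : ContinuousOn V (Metric.ball 0 R))
    (hm : ∃ (m₁ : Fin 2 → ℝ) (m₂ : Fin 3 → ℝ), (∀ i, |m₁ i| ≤ C) ∧ (∀ i, |m₂ i| ≤ C) ∧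
      ∀ z ∈ Metric.ball (0 : ℂ) R, |m z - 1 - lin m₁ z - qua m₂ z| ≤ C * ‖z‖ ^ 3)
    {a b : Fin 3 → ℝ} (ha : ∀ i, |a i| ≤ C) (hb : ∀ i, |b i| ≤ C)
    (hV : ∀ z ∈ Metric.ball (0 : ℂ) R, |(V z).re - qua a z| ≤ C * (‖z‖ ^ (2 + α) + ‖z‖ ^ 3) ∧
      |(V z).im - qua b z| ≤ C * (‖z‖ ^ (2 + α) + ‖z‖ ^ 3)) :
    |(∫ z, m z * fderiv ℝ H z (V z)) + (A * (2 * a 0 + b 1) + B * (a 1 + 2 * b 2))| ≤
      256 * K * C ^ 2 * ε ^ α := by
  obtain ⟨m₁, m₂, hm1, hm2, hm3⟩ := hm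
  have hcd : Continuous (fderiv ℝ H) := hH.continuous_fderiv (by norm_num)
  have h3 := int_qua hH hs h1 h2 a b
  have hz1 : ∀ z : ℂ, ε ≤ ‖z‖ → fderiv ℝ H z = 0 := fun z hz =>
    fderiv_zero' (hH.of_le (by norm_num)) hs (norm_pos_iff.1 (hε.trans_le hz)) hz
  have hqc : Continuous (fun z : ℂ => (⟨qua a z, qua b z⟩ : ℂ)) := by
    have e : (fun z : ℂ => (⟨qua a z, qua b z⟩ : ℂ)) = fun z => ((qua a z : ℝ) : ℂ) + ((qua b z : ℝ) : ℂ) * Complex.I := by
      funext z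
      apply Complex.ext <;> simp
    rw [e]
    exact (Complex.continuous_ofReal.comp (qua_smooth a).continuous).add
      ((Complex.continuous_ofReal.comp (qua_smooth b).continuous).mul continuous_const)
  have hi1 : Integrable (fun z => m z * fderiv ℝ H z (V z)) :=
    int_of_supp hεR (fun z hz => by rw [hz1 z hz]; simp)
      (hmc.mul (hcd.continuousOn.clm_apply hVc))
  have hi2 : Integrable (fun z => fderiv ℝ H z ⟨qua a z, qua b z⟩) :=
    int_of_supp hεR (fun z hz => by rw [hz1 z hz]; simp)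
      (hcd.continuousOn.clm_apply hqc.continuousOn)
  have h4 : (∫ z, m z * fderiv ℝ H z (V z)) + (A * (2 * a 0 + b 1) + B * (a 1 + 2 * b 2)) =
      ∫ z, fderiv ℝ H z (m z • V z - ⟨qua a z, qua b z⟩) := by
    have h5 : (fun z => fderiv ℝ H z (m z • V z - ⟨qua a z, qua b z⟩)) = fun z =>
        m z * fderiv ℝ H z (V z) - fderiv ℝ H z ⟨qua a z, qua b z⟩ := by
      funext z
      rw [map_sub, map_smul, smul_eq_mul]
    rw [h5, integral_sub hi1 hi2, h3]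
    ring
  rw [h4]
  have h6 : |∫ z, fderiv ℝ H z (m z • V z - ⟨qua a z, qua b z⟩)| ≤
      4 * ε ^ 2 * (K * ε⁻¹ ^ 4 * (64 * C ^ 2 * ε ^ (2 + α))) := by
    refine int_le hε (by positivity) (fun z hz => by rw [hz1 z hz]; rfl) fun z hz => ?_
    refine ((fderiv ℝ H z).le_opNorm _).trans (mul_le_mul (hK2 z) ?_ (norm_nonneg _) (by positivity))
    have hzR := mem_ball_zero_iff.2 (hz.trans hεR)
    obtain ⟨-, -, -, h7⟩ := ptw hα hα1 hC (hz.le.trans hε1) hm1 hm2 (hm3 z hzR) ha hb (hV z hzR).1 (hV z hzR).2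
    refine h7.trans (mul_le_mul_of_nonneg_left ?_ (by positivity))
    exact Real.rpow_le_rpow (norm_nonneg _) hz.le (by linarith)
  refine h6.trans_eq ?_
  rw [Real.rpow_add hε, Real.rpow_two]
  field_simp
  ring

theorem div_le {α C R : ℝ} (hα : 0 < α) (hα1 : α < 1) (hC : 1 ≤ C) (hR : 0 < R)
    {a b : ℝ → Fin 3 → ℝ} (ha : ContinuousOn a (Ici 0)) (hb : ContinuousOn b (Ici 0))
    {m : ℝ → ℂ → ℝ} {V : ℝ → ℂ → ℂ}
    (hmc : ∀ t, 0 ≤ t → ContinuousOn (m t) (Metric.ball 0 R))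
    (hmt : ∀ z ∈ Metric.ball (0 : ℂ) R, ContinuousOn (fun t => m t z) (Ici 0))
    (hVc : ContinuousOn (fun x : ℝ × ℂ => V x.1 x.2) (Ici 0 ×ˢ Metric.ball 0 R))
    (hm : ∀ t, 0 ≤ t → ∃ (m₁ : Fin 2 → ℝ) (m₂ : Fin 3 → ℝ), (∀ i, |m₁ i| ≤ C) ∧ (∀ i, |m₂ i| ≤ C) ∧
      ∀ z ∈ Metric.ball (0 : ℂ) R, |m t z - 1 - lin m₁ z - qua m₂ z| ≤ C * ‖z‖ ^ 3)
    (ha1 : ∀ t, 0 ≤ t → ∀ i, |a t i| ≤ C) (hb1 : ∀ t, 0 ≤ t → ∀ i, |b t i| ≤ C)
    (hV : ∀ t, 0 ≤ t → ∀ z ∈ Metric.ball (0 : ℂ) R,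
      |(V t z).re - qua (a t) z| ≤ C * (‖z‖ ^ (2 + α) + ‖z‖ ^ 3) ∧
      |(V t z).im - qua (b t) z| ≤ C * (‖z‖ ^ (2 + α) + ‖z‖ ^ 3))
    (htr : ∀ H : ℂ → ℝ, ContDiff ℝ 1 H → ∀ ε, 0 < ε → ε < R → (∀ z, ε ≤ ‖z‖ → H z = 0) → ∀ T, 0 ≤ T →
      (∫ z, H z * m T z) - (∫ z, H z * m 0 z) = ∫ t in (0 : ℝ)..T, ∫ z, m t z * fderiv ℝ H z (V t z))
    (A B : ℝ) {T : ℝ} (hT : 0 ≤ T) :
    |∫ t in (0 : ℝ)..T, (A * (2 * a t 0 + b t 1) + B * (a t 1 + 2 * b t 2))| ≤
      2 * (C * (|A| + |B|)) := by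
  obtain ⟨K, hK, hKε⟩ := test_fun A B
  have hai : ∀ i, ContinuousOn (fun t => a t i) (Ici 0) := fun i => (continuous_apply i).comp_continuousOn ha
  have hbi : ∀ i, ContinuousOn (fun t => b t i) (Ici 0) := fun i => (continuous_apply i).comp_continuousOn hb
  have hPc : ContinuousOn (fun t => A * (2 * a t 0 + b t 1) + B * (a t 1 + 2 * b t 2)) (Ici 0) :=
    (continuousOn_const.mul ((continuousOn_const.mul (hai 0)).add (hbi 1))).add
      (continuousOn_const.mul ((hai 1).add (continuousOn_const.mul (hbi 2))))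
  have hsub : uIcc 0 T ⊆ Ici 0 := by
    rw [uIcc_of_le hT]
    exact Icc_subset_Ici_self
  have hPi : IntervalIntegrable (fun t => A * (2 * a t 0 + b t 1) + B * (a t 1 + 2 * b t 2)) volume 0 T :=
    (hPc.mono hsub).intervalIntegrable
  -- the estimate for one test function
  have key : ∀ ε : ℝ, 0 < ε → ε ≤ 1 → ε < R →
      |∫ t in (0 : ℝ)..T, (A * (2 * a t 0 + b t 1) + B * (a t 1 + 2 * b t 2))| ≤
        256 * K * C ^ 2 * ε ^ α * T + 2 * (C * (|A| + |B|) + 16 * K * C * ε) := by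
    intro ε hε hε1 hεR
    obtain ⟨H, hH, hs, hK1, hK2, h0, h1, h2⟩ := hKε ε hε
    have hH1 : ContDiff ℝ 1 H := hH.of_le (by norm_num)
    have hcd : Continuous (fderiv ℝ H) := hH.continuous_fderiv (by norm_num)
    have hz1 : ∀ z : ℂ, ε ≤ ‖z‖ → fderiv ℝ H z = 0 := fun z hz =>
      fderiv_zero' hH1 hs (norm_pos_iff.1 (hε.trans_le hz)) hz
    have hVct : ∀ t, 0 ≤ t → ContinuousOn (V t) (Metric.ball 0 R) := fun t ht =>
      hVc.comp (f := fun z : ℂ => ((t, z) : ℝ × ℂ)) (by fun_prop) fun z hz => ⟨ht, hz⟩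
    have hIc : ContinuousOn (fun t => ∫ z, m t z * fderiv ℝ H z (V t z)) (Ici 0) := by
      refine continuousOn_of_dominated
        (bound := fun z => (Metric.closedBall (0 : ℂ) ε).indicator
          (fun _ => (1 + 6 * C * 1) * (K * ε⁻¹ ^ 4 * (10 * C * 1))) z) (fun t ht => ?_) (fun t ht => ?_) ?_ ?_
      · have hi : Integrable (fun z => m t z * fderiv ℝ H z (V t z)) :=
          int_of_supp hεR (fun z hz => by rw [hz1 z hz]; simp)
            ((hmc t ht).mul (hcd.continuousOn.clm_apply (hVct t ht)))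
        exact hi.aestronglyMeasurable
      · refine Eventually.of_forall fun z => ?_
        by_cases hz : ‖z‖ < ε
        · rw [indicator_of_mem (mem_closedBall_zero_iff.2 hz.le)]
          have hzR := mem_ball_zero_iff.2 (hz.trans hεR)
          have hz11 : ‖z‖ ≤ 1 := hz.le.trans hε1
          obtain ⟨m₁, m₂, hm1, hm2, hm3⟩ := hm t ht
          obtain ⟨-, h7, h8, -⟩ := ptw hα hα1 hC hz11 hm1 hm2 (hm3 z hzR) (ha1 t ht) (hb1 t ht)
            (hV t ht z hzR).1 (hV t ht z hzR).2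
          have h9 : |m t z| ≤ 1 + 6 * C * 1 := by
            have e : m t z = 1 + (m t z - 1) := by ring
            rw [e]
            refine (abs_add_le _ _).trans ?_
            rw [abs_one]
            have h10 : 6 * C * ‖z‖ ≤ 6 * C * 1 := mul_le_mul_of_nonneg_left hz11 (by linarith)
            linarith
          have h10 : ‖V t z‖ ≤ 10 * C * 1 := by
            refine h8.trans (mul_le_mul_of_nonneg_left ?_ (by linarith))
            exact pow_le_one₀ (norm_nonneg _) hz11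
          rw [norm_mul, Real.norm_eq_abs]
          refine mul_le_mul h9 ?_ (norm_nonneg _) (by linarith)
          exact ((fderiv ℝ H z).le_opNorm _).trans (mul_le_mul (hK2 z) h10 (norm_nonneg _) (by positivity))
        · rw [hz1 z (not_lt.1 hz)]
          simp only [zero_apply, mul_zero, norm_zero]
          refine indicator_nonneg (fun _ _ => ?_) _
          positivity
      · rw [integrable_indicator_iff measurableSet_closedBall]
        exact integrableOn_const (isCompact_closedBall (0 : ℂ) ε).measure_lt_top.ne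
      · refine Eventually.of_forall fun z => ?_
        by_cases hz : ‖z‖ < ε
        · have hzR := mem_ball_zero_iff.2 (hz.trans hεR)
          refine (hmt z hzR).mul (continuousOn_const.clm_apply ?_)
          exact hVc.comp (f := fun t : ℝ => ((t, z) : ℝ × ℂ)) (by fun_prop) fun t ht => ⟨ht, hzR⟩
        · simp only [hz1 z (not_lt.1 hz), zero_apply, mul_zero]
          exact continuousOn_const
    have hIi : IntervalIntegrable (fun t => ∫ z, m t z * fderiv ℝ H z (V t z)) volume 0 T :=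
      (hIc.mono hsub).intervalIntegrable
    have h3 : |∫ t in (0 : ℝ)..T, ((∫ z, m t z * fderiv ℝ H z (V t z)) +
        (A * (2 * a t 0 + b t 1) + B * (a t 1 + 2 * b t 2)))| ≤ 256 * K * C ^ 2 * ε ^ α * |T - 0| := by
      rw [← Real.norm_eq_abs]
      refine intervalIntegral.norm_integral_le_of_norm_le_const fun t ht => ?_
      rw [uIoc_of_le hT] at ht
      exact div_aux hα hα1 hC hK hε hε1 hεR hH hs hK2 h1 h2 (hmc t ht.1.le) (hVct t ht.1.le) (hm t ht.1.le)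
        (ha1 t ht.1.le) (hb1 t ht.1.le) (hV t ht.1.le)
    rw [intervalIntegral.integral_add hIi hPi, ← htr H hH1 ε hε hεR hs T hT, sub_zero, abs_of_nonneg hT] at h3
    have h4 := mass_le hα hα1 hC hK hε hε1 hεR hH hs hK1 h0 h1 h2 (hmc T hT) (hm T hT)
    have h5 := mass_le hα hα1 hC hK hε hε1 hεR hH hs hK1 h0 h1 h2 (hmc 0 le_rfl) (hm 0 le_rfl)
    rw [abs_le] at h3 h4 h5 ⊢
    constructor
    · linarith [h3.1, h4.2, h5.1]
    · linarith [h3.2, h4.1, h5.2]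
  have hlim : Tendsto (fun ε : ℝ => 256 * K * C ^ 2 * ε ^ α * T + 2 * (C * (|A| + |B|) + 16 * K * C * ε))
      (𝓝[>] 0) (𝓝 (256 * K * C ^ 2 * 0 * T + 2 * (C * (|A| + |B|) + 16 * K * C * 0))) := by
    have h1 : Tendsto (fun ε : ℝ => ε ^ α) (𝓝[>] 0) (𝓝 0) := by
      have h2 := (Real.continuousAt_rpow_const 0 α (Or.inr hα.le)).tendsto
      rw [Real.zero_rpow hα.ne'] at h2
      exact h2.mono_left nhdsWithin_le_nhds
    have h2 : Tendsto (fun ε : ℝ => ε) (𝓝[>] 0) (𝓝 0) := tendsto_id.mono_left nhdsWithin_le_nhds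
    exact ((h1.const_mul _).mul_const _).add (((h2.const_mul _).const_add _).const_mul _)
  have hfin := ge_of_tendsto hlim (b := |∫ t in (0 : ℝ)..T, (A * (2 * a t 0 + b t 1) + B * (a t 1 + 2 * b t 2))|) (by
    have h1 : Ioo (0 : ℝ) (min 1 R) ∈ 𝓝[>] (0 : ℝ) := Ioo_mem_nhdsGT (lt_min one_pos hR)
    filter_upwards [h1] with ε hε
    exact key ε hε.1 (hε.2.le.trans (min_le_left _ _)) (hε.2.trans_le (min_le_right _ _)))
  simpa using hfin

theorem qua_smul (k : Fin 3 → ℝ) (ε : ℝ) (z : ℂ) : qua k (ε • z) = ε ^ 2 * qua k z := by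
  simp only [qua, Complex.smul_re, Complex.smul_im, smul_eq_mul]
  ring

theorem qua_cont {α C R : ℝ} (hα : 0 < α) (hR : 0 < R) {v : ℝ → ℂ → ℝ} {a : ℝ → Fin 3 → ℝ}
    (hv : ∀ z ∈ Metric.ball (0 : ℂ) R, ContinuousOn (fun t => v t z) (Ici 0))
    (h : ∀ t, 0 ≤ t → ∀ z ∈ Metric.ball (0 : ℂ) R,
      |v t z - qua (a t) z| ≤ C * (‖z‖ ^ (2 + α) + ‖z‖ ^ 3)) : ContinuousOn a (Ici 0) := by
  have hE : ∀ e : ℂ, ContinuousOn (fun t => qua (a t) e) (Ici 0) := by
    intro e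
    refine continuousOn_of_uniform_approx_of_continuousOn fun u hu => ?_
    obtain ⟨δ, hδ, hδu⟩ := Metric.mem_uniformity_dist.1 hu
    have h2 : Tendsto (fun ε : ℝ => ε) (𝓝[>] 0) (𝓝 0) := tendsto_id.mono_left nhdsWithin_le_nhds
    have h1 : Tendsto (fun ε : ℝ => ε ^ α) (𝓝[>] 0) (𝓝 0) := by
      have h2 := (Real.continuousAt_rpow_const 0 α (Or.inr hα.le)).tendsto
      rw [Real.zero_rpow hα.ne'] at h2
      exact h2.mono_left nhdsWithin_le_nhds
    have h3 : Tendsto (fun ε : ℝ => C * (ε ^ α * ‖e‖ ^ (2 + α) + ε * ‖e‖ ^ 3)) (𝓝[>] 0)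
        (𝓝 (C * (0 * ‖e‖ ^ (2 + α) + 0 * ‖e‖ ^ 3))) :=
      ((h1.mul_const _).add (h2.mul_const _)).const_mul _
    have h4 : Tendsto (fun ε : ℝ => ε * ‖e‖) (𝓝[>] 0) (𝓝 (0 * ‖e‖)) := h2.mul_const _
    rw [zero_mul, zero_mul, add_zero, mul_zero] at h3
    rw [zero_mul] at h4
    obtain ⟨ε, ⟨h5, h6⟩, h7⟩ := (((h3.eventually_lt_const hδ).and (h4.eventually_lt_const hR)).and
      self_mem_nhdsWithin).exists
    have hε : 0 < ε := h7
    have hmem : ε • e ∈ Metric.ball (0 : ℂ) R := by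
      rw [mem_ball_zero_iff, norm_smul, Real.norm_of_nonneg hε.le]
      exact h6
    refine ⟨fun t => (ε ^ 2)⁻¹ * v t (ε • e), continuousOn_const.mul (hv _ hmem), fun t ht => hδu ?_⟩
    have h8 := h t ht _ hmem
    rw [qua_smul, norm_smul, Real.norm_of_nonneg hε.le, Real.mul_rpow hε.le (norm_nonneg _),
      Real.rpow_add hε, Real.rpow_two] at h8
    rw [Real.dist_eq, abs_sub_comm]
    have e1 : (ε ^ 2)⁻¹ * v t (ε • e) - qua (a t) e = (ε ^ 2)⁻¹ * (v t (ε • e) - ε ^ 2 * qua (a t) e) := by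
      field_simp
    rw [e1, abs_mul, abs_of_pos (by positivity)]
    refine lt_of_le_of_lt (mul_le_mul_of_nonneg_left h8 (by positivity)) (lt_of_eq_of_lt ?_ h5)
    field_simp
  have h0 : ContinuousOn (fun t => a t 0) (Ici 0) := by
    refine (hE 1).congr fun t _ => ?_
    simp [qua]
  have h2 : ContinuousOn (fun t => a t 2) (Ici 0) := by
    refine (hE Complex.I).congr fun t _ => ?_
    simp [qua]
  have h1 : ContinuousOn (fun t => a t 1) (Ici 0) := by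
    refine (((hE (1 + Complex.I)).sub h0).sub h2).congr fun t _ => ?_
    simp [qua]
    ring
  refine continuousOn_pi.2 fun i => ?_
  fin_cases i
  · exact h0
  · exact h1
  · exact h2

theorem jet_mono {M : Set ℂ} {C C' : ℝ} (hC : C ≤ C') : ∀ (n : ℕ) {f : ℂ → ℝ}, JetLe M n C f → JetLe M n C' f
  | 0, _, h => fun x hx => (h x hx).trans hC
  | n + 1, _, h => ⟨fun x hx => (h.1 x hx).trans hC, jet_mono hC n h.2.1, jet_mono hC n h.2.2⟩

theorem gslc_mono {α C C' R R' r : ℝ} {a b : Fin 3 → ℝ} {γ μ ν p : ℝ} {s η m W₁ W₂ : ℂ → ℝ}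
    (h : GSlc α C R r a b γ μ ν p s η m W₁ W₂) (hr : 0 < r) (hC : 0 < C) (hCC : C ≤ C') (hR : R' ≤ R) :
    GSlc α C' R' r a b γ μ ν p s η m W₁ W₂ := by
  have hb : Metric.ball (0 : ℂ) R' ⊆ Metric.ball (0 : ℂ) R := Metric.ball_subset_ball hR
  have hpos : ∀ {x : ℝ}, 1 ≤ C * x → 1 ≤ C' * x := fun {x} hx => by
    have hx0 : 0 ≤ x := by
      by_contra hcon
      push Not at hcon
      nlinarith [mul_neg_of_pos_of_neg hC hcon]
    exact hx.trans (mul_le_mul_of_nonneg_right hCC hx0)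
  refine ⟨fun i => (h.a_le i).trans hCC, fun i => (h.b_le i).trans hCC, hpos h.γ_lo,
    h.γ_le.trans hCC, h.μ_le.trans hCC, h.ν_le.trans hCC, hpos h.p_lo, h.p_le.trans hCC, h.s_c2.mono hb,
    fun z hz => (h.s_le z (hb hz)).trans ?_, fun z hz => (h.ds_le z (hb hz)).trans ?_,
    h.η_c1.mono hb, fun z hz => (h.η_le z (hb hz)).trans ?_,
    fun z hz z' hz' => (h.dη_le z (hb hz) z' (hb hz')).trans ?_,
    fun z hz => (h.lap_s z (hb hz)).trans ?_, h.m_cont.mono hb, h.W₁_cont.mono hb, h.W₂_cont.mono hb, ?_, ?_, ?_⟩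
  · exact mul_le_mul_of_nonneg_right hCC (by positivity)
  · exact mul_le_mul_of_nonneg_right hCC (by positivity)
  · exact mul_le_mul_of_nonneg_right hCC (by positivity)
  · exact mul_le_mul_of_nonneg_right hCC (by positivity)
  · exact mul_le_mul_of_nonneg_right (mul_le_mul_of_nonneg_right hCC (by positivity)) (by positivity)
  · obtain ⟨m₁, m₂, h1, h2, h3⟩ := h.m_eq
    exact ⟨m₁, m₂, fun i => (h1 i).trans hCC, fun i => (h2 i).trans hCC, fun z hz => (h3 z (hb hz)).trans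
      (mul_le_mul_of_nonneg_right (mul_le_mul_of_nonneg_right hCC (by positivity)) (by positivity))⟩
  · obtain ⟨c, h1, h3⟩ := h.W₁_eq
    exact ⟨c, fun i => (h1 i).trans hCC, fun z hz => (h3 z (hb hz)).trans
      (mul_le_mul_of_nonneg_right (mul_le_mul_of_nonneg_right hCC (by positivity)) (by positivity))⟩
  · obtain ⟨c, h1, h3⟩ := h.W₂_eq
    exact ⟨c, fun i => (h1 i).trans hCC, fun z hz => (h3 z (hb hz)).trans
      (mul_le_mul_of_nonneg_right (mul_le_mul_of_nonneg_right hCC (by positivity)) (by positivity))⟩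

theorem lmap_sub (p q z z' : ℂ) : lmap p q (z - z') = lmap p q z - lmap p q z' := by
  simp only [lmap, Complex.sub_re, Complex.sub_im, Complex.ofReal_sub]
  ring

theorem lmap_fd (A : ℂ →L[ℝ] ℂ) (τ z : ℂ) :
    lmap (A τ) (A (τ * Complex.I)) z = A (τ * z) := by
  have e : τ * z = z.re • τ + z.im • (τ * Complex.I) := by
    simp only [Complex.real_smul]
    have := Complex.re_add_im z
    calc τ * z = τ * ((z.re : ℂ) + (z.im : ℂ) * Complex.I) := by rw [this]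
      _ = _ := by ring
  rw [e, map_add, map_smul, map_smul, Complex.real_smul, Complex.real_smul, lmap]

theorem cont_max {E : Type} [TopologicalSpace E] {f : ℝ → E} (hf : ContinuousOn f (Ici 0)) :
    Continuous (fun t => f (max t 0)) :=
  hf.comp_continuous (continuous_id.max continuous_const) fun t => le_max_right t 0

theorem fderiv_move {H s : ℂ → ℝ} {m W₁ W₂ : ℝ} {V z : ℂ} (h : (m : ℂ) * V = ⟨W₁, W₂⟩ + perp s z) :
    m * fderiv ℝ H z V = W₁ * dx H z + W₂ * dy H z + pb s H z := by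
  have h1 := congrArg Complex.re h
  have h2 := congrArg Complex.im h
  rw [Complex.re_ofReal_mul, Complex.add_re] at h1
  rw [Complex.im_ofReal_mul, Complex.add_im] at h2
  simp only [perp] at h1 h2
  rw [fderiv_split, pb]
  linear_combination dx H z * h1 + dy H z * h2

end K2e

variable {α κ s₀ s₁ L K E₀ C : ℝ} {w : ℂ → ℝ} {Ψ d : ℝ → ℂ → ℝ} {X : ℝ → ℂ → ℂ}

/-- [K2e] the picture at scale 1 -/
theorem gpic_of_pf (hα : 0 < α) (hα1 : α < 1) (h : PF α κ s₀ s₁ L K E₀ C w Ψ d X) {τ : ℂ}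
    (hτ : ‖τ‖ = 1) {β : ℝ} (hβ : 0 < β) (hw : ∀ z : ℂ, fderiv ℝ w 0 (τ * z) = β * z.im) :
    ∃ C' R : ℝ, 0 < R ∧ ∃ (a b : ℝ → Fin 3 → ℝ) (γ μ ν p : ℝ → ℝ)
      (s η m W₁ W₂ : ℝ → ℂ → ℝ) (Y : ℝ → ℂ → ℂ),
        GPic α C' R 1 β (w 0) (fun y => w (τ * y)) a b γ μ ν p s η m W₁ W₂ Y := by
  have hs₁ := h.s₁_pos
  have hL := h.L_le
  have hC := h.C_le
  have hs₀ : 0 < s₀ := lt_of_lt_of_le (by positivity) h.s_le
  have hff := frame_facts h hτ
  have hLC : 1 ≤ L * C ^ 2 := by nlinarith [mul_self_nonneg (C - 1)]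
  have hLLC : L ≤ L * C ^ 2 := by nlinarith [mul_self_nonneg (C - 1)]
  have hCg : 1 ≤ max C β := hC.trans (le_max_left _ _)
  have hd0 : ∀ t, 0 ≤ t → 0 < d t 0 := fun t ht => by
    have h1 := h.d_lo t ht 0 (Metric.mem_ball_self (by positivity))
    by_contra hcon
    push Not at hcon
    nlinarith
  have hw0 : ∀ t, 0 ≤ t → w 0 = lap (Ψ t) 0 / d t 0 := fun t ht => by
    have h1 := h.vort t ht 0 (Metric.mem_ball_self hs₁)
    rw [h.X_zero t ht] at h1
    rw [h1, mul_div_cancel_left₀ _ (hd0 t ht).ne']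
  obtain ⟨C₁, R₁, hC₁, hR₁, hst⟩ := gstatic (α := α) (κ := κ) (s₀ := s₀) (L := L * C ^ 2) (K := K)
    (E₀ := E₀) (C := max C β) hα hα1 hs₀ h.κ_le hLC hCg h.E₀_nonneg
  have hst' := fun t : {t : ℝ // 0 ≤ t} => hst (Ψ t) (d t) (pf X τ t) (qf X τ t) (w 0) β (d 0 0)
    (h.Ψ_c2 t t.2) (h.dΨ_le t t.2) (h.norm t t.2) (h.d_smooth t t.2)
    (K2e.jet_mono (le_max_left C β) 4 (h.d_jet t t.2))
    (fun v hv => (h.d_lo t t.2 v hv).trans (mul_le_mul_of_nonneg_right (le_max_left _ _) (by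
      have h1 := h.d_lo t t.2 v hv
      by_contra hcon
      push Not at hcon
      nlinarith)))
    (fun z => ((hff t t.2).2.2.1 z).trans (mul_le_mul_of_nonneg_right hLLC (norm_nonneg _)))
    (hff t t.2).2.2.2.1 (hff t t.2).1
    (((le_abs_self _).trans ((h.d_jet 0 le_rfl).1 0 (Metric.mem_ball_self (by positivity)))).trans
      (le_max_left _ _))
    ((h.d_lo 0 le_rfl 0 (Metric.mem_ball_self (by positivity))).trans
      (mul_le_mul_of_nonneg_right (le_max_left _ _) (hd0 0 le_rfl).le))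
    (hw0 t t.2) hβ.le (le_max_right _ _)
    (fun z => by rw [(hff t t.2).2.2.2.2.2.2.2 z, hw])
  choose a₀ b₀ sg W₁ W₂ hsl hV1 hV2 using hst'
  -- extension to negative times
  let tp : ℝ → {t : ℝ // 0 ≤ t} := fun t => ⟨max t 0, le_max_right _ _⟩
  have htp : ∀ t (ht : 0 ≤ t), tp t = ⟨t, ht⟩ := fun t ht => Subtype.ext (max_eq_left ht)
  have hmax : ∀ t : ℝ, 0 ≤ t → max t 0 = t := fun t ht => max_eq_left ht
  obtain ⟨fc1, fc2, fc3, fc4, fc5, fc6⟩ := frame_cont hα hα1 h hτ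
  obtain ⟨Rd, hRd0, hRd1, hRd2, hRd3⟩ : ∃ Rd : ℝ, 0 < Rd ∧ Rd ≤ R₁ ∧ Rd ≤ s₀ / L ∧
      L ^ 3 * C ^ 2 * Rd ≤ s₁ := by
    refine ⟨min R₁ (min (s₀ / L) (s₁ / (L ^ 3 * C ^ 2))), lt_min hR₁ (lt_min (by positivity) (by positivity)),
      min_le_left _ _, (min_le_right _ _).trans (min_le_left _ _), ?_⟩
    have h1 : min R₁ (min (s₀ / L) (s₁ / (L ^ 3 * C ^ 2))) ≤ s₁ / (L ^ 3 * C ^ 2) :=
      (min_le_right _ _).trans (min_le_right _ _)
    rw [le_div_iff₀ (by positivity)] at h1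
    linarith
  have hVc : ContinuousOn (fun x : ℝ × ℂ => Vf κ (Ψ x.1) (d x.1) (pf X τ x.1) (qf X τ x.1) x.2)
      (Ici 0 ×ˢ Metric.ball 0 Rd) :=
    fc6.mono (prod_mono_right (Metric.ball_subset_ball hRd2))
  have hVct : ∀ z ∈ Metric.ball (0 : ℂ) Rd,
      ContinuousOn (fun t => Vf κ (Ψ t) (d t) (pf X τ t) (qf X τ t) z) (Ici 0) := fun z hz =>
    hVc.comp (f := fun t : ℝ => ((t, z) : ℝ × ℂ)) (by fun_prop) fun t ht => ⟨ht, hz⟩
  have hV2' : ∀ t, 0 ≤ t → ∀ z ∈ Metric.ball (0 : ℂ) Rd,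
      |(Vf κ (Ψ t) (d t) (pf X τ t) (qf X τ t) z).re - qua (a₀ (tp t)) z| ≤
        C₁ * (‖z‖ ^ (2 + α) + ‖z‖ ^ 3) ∧
      |(Vf κ (Ψ t) (d t) (pf X τ t) (qf X τ t) z).im - qua (b₀ (tp t)) z| ≤
        C₁ * (‖z‖ ^ (2 + α) + ‖z‖ ^ 3) := by
    intro t ht z hz
    rw [htp t ht]
    exact hV2 ⟨t, ht⟩ z (Metric.ball_subset_ball hRd1 hz)
  have ha0 : ContinuousOn (fun t => a₀ (tp t)) (Ici 0) :=
    K2e.qua_cont hα hRd0 (v := fun t z => (Vf κ (Ψ t) (d t) (pf X τ t) (qf X τ t) z).re)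
      (fun z hz => Complex.continuous_re.comp_continuousOn (hVct z hz))
      (fun t ht z hz => (hV2' t ht z hz).1)
  have hb0 : ContinuousOn (fun t => b₀ (tp t)) (Ici 0) :=
    K2e.qua_cont hα hRd0 (v := fun t z => (Vf κ (Ψ t) (d t) (pf X τ t) (qf X τ t) z).im)
      (fun z hz => Complex.continuous_im.comp_continuousOn (hVct z hz))
      (fun t ht z hz => (hV2' t ht z hz).2)
  have htpm : ∀ t, tp (max t 0) = tp t := fun t => Subtype.ext (max_eq_left (le_max_right t 0))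
  have hac : Continuous (fun t => a₀ (tp t)) := by
    have h1 := K2e.cont_max ha0
    simpa only [htpm] using h1
  have hbc : Continuous (fun t => b₀ (tp t)) := by
    have h1 := K2e.cont_max hb0
    simpa only [htpm] using h1
  -- constants
  obtain ⟨C', c1, c2, c3, c4, c5⟩ : ∃ C' : ℝ, C₁ ≤ C' ∧ β ≤ C' ∧ |w 0| ≤ C' ∧ L ^ 2 * C ^ 2 ≤ C' ∧
      2 * C₁ ≤ C' :=
    ⟨max C₁ (max β (max |w 0| (max (L ^ 2 * C ^ 2) (2 * C₁)))), le_max_left _ _,
      (le_max_left _ _).trans (le_max_right _ _),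
      ((le_max_left _ _).trans (le_max_right _ _)).trans (le_max_right _ _),
      (((le_max_left _ _).trans (le_max_right _ _)).trans (le_max_right _ _)).trans (le_max_right _ _),
      (((le_max_right _ _).trans (le_max_right _ _)).trans (le_max_right _ _)).trans (le_max_right _ _)⟩
  have c0 : 1 ≤ C' := hC₁.trans c1
  obtain ⟨R, hR0, hR1, hR2⟩ : ∃ R : ℝ, 0 < R ∧ R ≤ R₁ ∧ L * R < s₁ := by
    refine ⟨min R₁ (s₁ / (2 * L)), lt_min hR₁ (by positivity), min_le_left _ _, ?_⟩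
    have h1 : min R₁ (s₁ / (2 * L)) ≤ s₁ / (2 * L) := min_le_right _ _
    rw [le_div_iff₀ (by positivity)] at h1
    linarith
  have hRC0 : 0 < R / C' := by positivity
  have hRC : R / C' ≤ R := div_le_self hR0.le c0
  have hRs : R / C' < s₁ := by nlinarith
  have hLR : L ^ 3 * C ^ 2 * (R / C') < s₁ := by
    refine lt_of_le_of_lt ?_ hR2
    rw [mul_div_assoc', div_le_iff₀ (by linarith)]
    have h1 : L * R * (L ^ 2 * C ^ 2) ≤ L * R * C' := mul_le_mul_of_nonneg_left c4 (by positivity)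
    linarith
  have hYl : ∀ t, 0 ≤ t → ∀ y, ‖y‖ < R / C' → ‖Yf X τ t y‖ ≤ C' * ‖y‖ ∧ ‖Yf X τ t y‖ < R := by
    intro t ht y hy
    have h1 := (hff t ht).2.2.2.2.2.1 y (hy.trans hRs)
    have h2 : ‖Yf X τ t y‖ ≤ C' * ‖y‖ := h1.trans (mul_le_mul_of_nonneg_right c4 (norm_nonneg _))
    refine ⟨h2, lt_of_le_of_lt h2 ?_⟩
    rw [lt_div_iff₀ (by linarith)] at hy
    linarith
  have hY0 : ∀ y, ‖y‖ < s₁ → Yf X τ 0 y = y := by
    intro y hy
    have h1 := (hff 0 le_rfl).2.2.2.2.1 y hy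
    have hmem : τ * y ∈ Metric.ball (0 : ℂ) s₁ := by
      rw [mem_ball_zero_iff, norm_mul, hτ, one_mul]
      exact hy
    rw [h.X_start _ hmem] at h1
    have h2 : fderiv ℝ (X 0) 0 = ContinuousLinearMap.id ℝ ℂ := by
      have h3 : X 0 =ᶠ[𝓝 0] id :=
        Filter.eventuallyEq_of_mem (Metric.ball_mem_nhds 0 hs₁) fun x hx => h.X_start x hx
      rw [h3.fderiv_eq, fderiv_id]
    have h3 : lmap (pf X τ 0) (qf X τ 0) y = τ * y := by
      rw [pf, qf, K2e.lmap_fd, h2]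
      rfl
    have h4 := (hff 0 le_rfl).2.2.2.1 (Yf X τ 0 y - y)
    rw [K2e.lmap_sub, h1, h3, sub_self, norm_zero, mul_zero] at h4
    exact sub_eq_zero.1 (norm_le_zero_iff.1 h4)
  have hwf : ∀ t, 0 ≤ t → ∀ y, ‖y‖ < s₁ → wf Ψ d X τ t (Yf X τ t y) = w (τ * y) := fun t ht =>
    (hff t ht).2.2.2.2.2.2.1
  have hηwf : ∀ t, 0 ≤ t → ∀ z, omg α 1 β (w 0) (fun z => lap (Ψ (max t 0)) (lmap (pf X τ (max t 0))
      (qf X τ (max t 0)) z) / d (max t 0) (lmap (pf X τ (max t 0)) (qf X τ (max t 0)) z) - w 0 -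
        β * z.im) z = wf Ψ d X τ t z := by
    intro t ht z
    rw [hmax t ht, omg, Real.one_rpow, wf]
    ring
  refine ⟨C', R, hR0, fun t => a₀ (tp t), fun t => b₀ (tp t),
    fun t => ‖qf X τ (max t 0)‖ ^ 2 / wed (pf X τ (max t 0)) (qf X τ (max t 0)) ^ 2,
    fun t => -((pf X τ (max t 0)).re * (qf X τ (max t 0)).re + (pf X τ (max t 0)).im *
      (qf X τ (max t 0)).im) / wed (pf X τ (max t 0)) (qf X τ (max t 0)) ^ 2,
    fun t => ‖pf X τ (max t 0)‖ ^ 2 / wed (pf X τ (max t 0)) (qf X τ (max t 0)) ^ 2,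
    fun t => 1 / wed (pf X τ (max t 0)) (qf X τ (max t 0)), fun t => sg (tp t),
    fun t z => lap (Ψ (max t 0)) (lmap (pf X τ (max t 0))
      (qf X τ (max t 0)) z) / d (max t 0) (lmap (pf X τ (max t 0)) (qf X τ (max t 0)) z) - w 0 -
        β * z.im,
    fun t z => d (max t 0) (lmap (pf X τ (max t 0)) (qf X τ (max t 0)) z) / d (max t 0) 0,
    fun t => W₁ (tp t), fun t => W₂ (tp t), fun t => Yf X τ t,
    c0, one_pos, le_rfl, hβ, c2, c3, fun t => K2e.gslc_mono (hsl (tp t)) one_pos (by linarith) c1 hR1,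
    hac, hbc, K2e.cont_max fc1, ?_, ?_, ?_, ?_, ?_, ?_, ?_, ?_⟩
  · -- continuity of p
    have h1 : ContinuousOn (fun t => 1 / wed (pf X τ t) (qf X τ t)) (Ici 0) :=
      continuousOn_const.div fc2 fun t ht => (hff t ht).2.1.ne'
    exact K2e.cont_max h1
  · -- start
    intro y hy
    exact hY0 y (hy.trans hRs)
  · -- w_eq
    intro y hy
    have h1 := hwf 0 le_rfl y (hy.trans hRs)
    rw [hY0 y (hy.trans hRs)] at h1
    rw [hηwf 0 le_rfl y, h1]
  · -- Y_le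
    intro t ht y hy
    exact (hYl t ht y hy).1
  · -- ode
    intro t ht y hy
    refine ⟨_, frame_motion hα hα1 h hτ t ht y (hy.trans hRs), ?_⟩
    have hz : Yf X τ t y ∈ Metric.ball (0 : ℂ) R₁ :=
      mem_ball_zero_iff.2 ((hYl t ht y hy).2.trans_le hR1)
    have h1 := hV2 ⟨t, ht⟩ _ hz
    simp only [Real.one_rpow, one_mul, one_pow, htp t ht]
    exact ⟨h1.1.trans (mul_le_mul_of_nonneg_right c1 (by positivity)),
      h1.2.trans (mul_le_mul_of_nonneg_right c1 (by positivity))⟩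
  · -- vort
    intro t ht y hy
    have hys := hy.trans hRs
    have h1 := hwf t ht y hys
    have h2 := hwf 0 le_rfl y hys
    rw [hY0 y hys] at h2
    rw [← hηwf t ht, omg, Real.one_rpow] at h1
    rw [← hηwf 0 le_rfl, omg, Real.one_rpow] at h2
    simp only [Real.one_rpow, one_mul] at h1 h2 ⊢
    linarith
  · -- div_le
    have key : ∀ (A B T : ℝ), 0 ≤ T → |∫ t in (0 : ℝ)..T, (A * (2 * a₀ (tp t) 0 + b₀ (tp t) 1) +
        B * (a₀ (tp t) 1 + 2 * b₀ (tp t) 2))| ≤ 2 * (C₁ * (|A| + |B|)) := by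
      intro A B T hT
      refine K2e.div_le (m := fun t z => mf d X τ t z)
        (V := fun t z => Vf κ (Ψ t) (d t) (pf X τ t) (qf X τ t) z) hα hα1 hC₁ hRd0 ha0 hb0
        (fun t ht => (hsl ⟨t, ht⟩).m_cont.mono (Metric.ball_subset_ball hRd1))
        (fun z hz => fc5 z ((mem_ball_zero_iff.1 hz).trans_le hRd2)) hVc (fun t ht => ?_)
        (fun t ht => (hsl (tp t)).a_le) (fun t ht => (hsl (tp t)).b_le) hV2' ?_ A B hT
      · obtain ⟨m₁, m₂, h1, h2, h3⟩ := (hsl ⟨t, ht⟩).m_eq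
        refine ⟨m₁, m₂, h1, h2, fun z hz => ?_⟩
        have h4 := h3 z (Metric.ball_subset_ball hRd1 hz)
        rw [one_mul, one_pow, one_mul, one_pow, mul_one] at h4
        exact h4
      · intro H hH ε hε hεR hs T hT
        have hLε : L ^ 3 * C ^ 2 * ε < s₁ := by
          have h1 : L ^ 3 * C ^ 2 * ε < L ^ 3 * C ^ 2 * Rd := mul_lt_mul_of_pos_left hεR (by positivity)
          linarith
        have h1 := frame_transport hα hα1 h hτ (f₀ := fun _ => 1) continuousOn_const (f := fun _ _ => 1)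
          (fun _ _ _ _ => rfl) hε hLε (H := fun _ z => H z) (hH.comp contDiff_snd) (fun _ z hz => hs z hz) hT
        simpa only [one_mul, deriv_const, zero_add] using h1
    intro T hT
    have h1 := key 1 0 T hT
    have h2 := key 0 1 T hT
    simp only [one_mul, zero_mul, add_zero, zero_add, abs_one, abs_zero, mul_one] at h1 h2
    exact ⟨h1.trans c5, h2.trans c5⟩
  · -- transport
    intro H hH hH0 T hT
    have hf₀ : ContinuousOn (fun y => w (τ * y)) (Metric.ball 0 s₁) := by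
      refine h.w_c1.continuousOn.comp (by fun_prop) fun y hy => ?_
      rw [mem_ball_zero_iff, norm_mul, hτ, one_mul]
      exact mem_ball_zero_iff.1 hy
    have h1 := frame_transport hα hα1 h hτ (f₀ := fun y => w (τ * y)) hf₀ (f := fun t => wf Ψ d X τ t)
      hwf hRC0 hLR hH hH0 hT
    have hlr : ∀ t, 0 ≤ t → ∀ z, omg α 1 β (w 0) (fun z => lap (Ψ (max t 0)) (lmap (pf X τ (max t 0))
        (qf X τ (max t 0)) z) / d (max t 0) (lmap (pf X τ (max t 0)) (qf X τ (max t 0)) z) - w 0 -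
          β * z.im) z * H t z * (d (max t 0) (lmap (pf X τ (max t 0)) (qf X τ (max t 0)) z) /
            d (max t 0) 0) = wf Ψ d X τ t z * H t z * mf d X τ t z := by
      intro t ht z
      rw [hηwf t ht z, hmax t ht, mf]
    have hR₁C : R / C' ≤ R₁ := hRC.trans hR1
    have hmid : ∀ t, 0 ≤ t → ∀ z, omg α 1 β (w 0) (fun z => lap (Ψ (max t 0)) (lmap (pf X τ (max t 0))
        (qf X τ (max t 0)) z) / d (max t 0) (lmap (pf X τ (max t 0)) (qf X τ (max t 0)) z) - w 0 -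
          β * z.im) z * (deriv (fun t' => H t' z) t * (d (max t 0) (lmap (pf X τ (max t 0))
            (qf X τ (max t 0)) z) / d (max t 0) 0) + dv (W₁ (tp t)) (W₂ (tp t)) (H t) z +
              1 ^ (1 + α) * pb (sg (tp t)) (H t) z) =
        wf Ψ d X τ t z * mf d X τ t z * (deriv (fun t' => H t' z) t +
          fderiv ℝ (H t) z (Vf κ (Ψ t) (d t) (pf X τ t) (qf X τ t) z)) := by
      intro t ht z
      rw [hηwf t ht z, hmax t ht, htp t ht, Real.one_rpow, one_mul]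
      change _ * (_ * mf d X τ t z + _ + _) = _
      by_cases hz : ‖z‖ < R₁
      · have h2 := K2e.fderiv_move (H := H t) (hV1 ⟨t, ht⟩ z (mem_ball_zero_iff.2 hz))
        change mf d X τ t z * _ = _ at h2
        rw [dv]
        linear_combination (-wf Ψ d X τ t z) * h2
      · have hz' : R / C' ≤ ‖z‖ := hR₁C.trans (not_lt.1 hz)
        have hz0 : z ≠ 0 := norm_pos_iff.1 (hRC0.trans_le hz')
        have hHt : ContDiff ℝ 1 (H t) := hH.comp (contDiff_const.prodMk contDiff_id)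
        have h2 : fderiv ℝ (H t) z = 0 := K2e.fderiv_zero' hHt (fun z hz => hH0 t z hz) hz0 hz'
        have h3 : deriv (fun t' => H t' z) t = 0 := by
          have h4 : (fun t' => H t' z) = fun _ => 0 := funext fun t' => hH0 t' z hz'
          rw [h4, deriv_const]
        have h5 : dx (H t) z = 0 := by
          rw [dx, h2]
          rfl
        have h6 : dy (H t) z = 0 := by
          rw [dy, h2]
          rfl
        rw [dv, pb, h2, h3, h5, h6]
        simp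
    have l1 : ∀ t, 0 ≤ t → (∫ z, omg α 1 β (w 0) (fun z => lap (Ψ (max t 0)) (lmap (pf X τ (max t 0))
        (qf X τ (max t 0)) z) / d (max t 0) (lmap (pf X τ (max t 0)) (qf X τ (max t 0)) z) - w 0 -
          β * z.im) z * H t z * (d (max t 0) (lmap (pf X τ (max t 0)) (qf X τ (max t 0)) z) /
            d (max t 0) 0)) = ∫ z, wf Ψ d X τ t z * H t z * mf d X τ t z := fun t ht =>
      integral_congr_ae (Eventually.of_forall fun z => hlr t ht z)
    rw [← l1 T hT, ← l1 0 le_rfl] at h1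
    refine h1.trans (intervalIntegral.integral_congr fun t ht => ?_)
    rw [uIcc_of_le hT] at ht
    exact (integral_congr_ae (Eventually.of_forall fun z => hmid t ht.1 z)).symm

end Pool.Agent.YUS
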