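import Pool.Agent.YUS.PF

open MeasureTheory Set Filter Topology
open scoped ContDiff

namespace Pool.Agent.YUS

open Pool.Agent.YUD Pool.Agent.YUT Pool.Agent.YUB Pool.Agent.YUR Pool.Agent.YUL

namespace K2l

/-- the time interval -/
theorem conv_I (t₀ δ : ℝ) : Convex ℝ (Ici (0 : ℝ) ∩ Ioo (t₀ - δ) (t₀ + δ)) :=
  (convex_Ici 0).inter (convex_Ioo _ _)

theorem int_I {t₀ δ : ℝ} (ht₀ : 0 ≤ t₀) (hδ : 0 < δ) :
    (interior (Ici (0 : ℝ) ∩ Ioo (t₀ - δ) (t₀ + δ))).Nonempty := by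
  refine ⟨t₀ + δ / 2, ?_⟩
  rw [mem_interior]
  refine ⟨Ioo t₀ (t₀ + δ), ?_, isOpen_Ioo, ⟨by linarith, by linarith⟩⟩
  rintro x ⟨hx1, hx2⟩
  exact ⟨by simpa using (by linarith : (0 : ℝ) ≤ x), by linarith, hx2⟩

/-- continuity of the derivative of U along the centre -/
theorem cont_part {t₀ δ s₀ s₁ C' : ℝ} (hs₀ : 0 < s₀) (hs₁ : 0 < s₁)
    {U X₀ : ℝ → ℂ → ℂ}
    (hU : ContinuousOn (fun z : ℝ × ℂ => U z.1 z.2)
      ((Ici 0 ∩ Ioo (t₀ - δ) (t₀ + δ)) ×ˢ Metric.ball 0 (4 * s₀)))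
    (hX : ContDiffOn ℝ 1 (fun z : ℝ × ℂ => X₀ z.1 z.2)
      ((Ici 0 ∩ Ioo (t₀ - δ) (t₀ + δ)) ×ˢ Metric.ball 0 s₁))
    (hm : ∀ t, 0 ≤ t → |t - t₀| < δ → ‖X₀ t 0‖ < s₀ / 8)
    (hd : ∀ t, 0 ≤ t → |t - t₀| < δ → ∀ c ∈ Metric.ball (0 : ℂ) (2 * s₀),
      DifferentiableAt ℝ (U t) c ∧ ‖fderiv ℝ (U t) c‖ ≤ C' ∧ ∀ v : ℂ, ‖v‖ ≤ s₀ →
        ‖U t (c + v) - U t c - fderiv ℝ (U t) c v‖ ≤ C' * ‖v‖ ^ 2) :
    ContinuousOn (fun t => fderiv ℝ (U t) (X₀ t 0)) (Ici 0 ∩ Ioo (t₀ - δ) (t₀ + δ)) := by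
  have hI : ∀ t ∈ Ici (0 : ℝ) ∩ Ioo (t₀ - δ) (t₀ + δ), 0 ≤ t ∧ |t - t₀| < δ := by
    rintro t ⟨h0, h1, h2⟩
    exact ⟨h0, by rw [abs_lt]; constructor <;> linarith⟩
  have hc : ContinuousOn (fun t => X₀ t 0) (Ici 0 ∩ Ioo (t₀ - δ) (t₀ + δ)) := by
    have h1 : ContinuousOn (fun t : ℝ => ((t, (0 : ℂ)) : ℝ × ℂ))
      (Ici 0 ∩ Ioo (t₀ - δ) (t₀ + δ)) := by fun_prop
    exact hX.continuousOn.comp h1 (fun t ht => ⟨ht, by simpa using hs₁⟩)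
  rw [continuousOn_clm_apply]
  intro y
  -- choose the difference quotients
  have hquo : ∀ h : ℝ, 0 < h → h * ‖y‖ ≤ s₀ →
      ContinuousOn (fun t => (h⁻¹ : ℝ) • (U t (X₀ t 0 + (h : ℝ) • y) - U t (X₀ t 0)))
        (Ici 0 ∩ Ioo (t₀ - δ) (t₀ + δ)) := by
    intro h hh hy
    have hny : ‖(h : ℝ) • y‖ ≤ s₀ := by
      rw [norm_smul, Real.norm_eq_abs, abs_of_pos hh]; exact hy
    have h1 : ContinuousOn (fun t : ℝ => ((t, X₀ t 0 + (h : ℝ) • y) : ℝ × ℂ))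
      (Ici 0 ∩ Ioo (t₀ - δ) (t₀ + δ)) := continuousOn_id.prodMk (hc.add continuousOn_const)
    have h2 : ContinuousOn (fun t : ℝ => ((t, X₀ t 0) : ℝ × ℂ))
      (Ici 0 ∩ Ioo (t₀ - δ) (t₀ + δ)) := continuousOn_id.prodMk hc
    have e1 : ContinuousOn (fun t => U t (X₀ t 0 + (h : ℝ) • y))
        (Ici 0 ∩ Ioo (t₀ - δ) (t₀ + δ)) := by
      refine hU.comp h1 (fun t ht => ⟨ht, ?_⟩)
      have := hm t (hI t ht).1 (hI t ht).2
      rw [mem_ball_zero_iff]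
      calc ‖X₀ t 0 + (h : ℝ) • y‖ ≤ ‖X₀ t 0‖ + ‖(h : ℝ) • y‖ := norm_add_le _ _
        _ < 4 * s₀ := by linarith
    have e2 : ContinuousOn (fun t => U t (X₀ t 0))
        (Ici 0 ∩ Ioo (t₀ - δ) (t₀ + δ)) := by
      refine hU.comp h2 (fun t ht => ⟨ht, ?_⟩)
      have := hm t (hI t ht).1 (hI t ht).2
      rw [mem_ball_zero_iff]
      show ‖X₀ t 0‖ < 4 * s₀
      linarith
    exact (e1.sub e2).const_smul (h⁻¹ : ℝ)
  have hclose : ∀ h : ℝ, 0 < h → h * ‖y‖ ≤ s₀ → ∀ t ∈ Ici (0 : ℝ) ∩ Ioo (t₀ - δ) (t₀ + δ),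
      ‖(h⁻¹ : ℝ) • (U t (X₀ t 0 + (h : ℝ) • y) - U t (X₀ t 0)) - fderiv ℝ (U t) (X₀ t 0) y‖
        ≤ C' * h * ‖y‖ ^ 2 := by
    intro h hh hy t ht
    have hm' := hm t (hI t ht).1 (hI t ht).2
    have hny : ‖(h : ℝ) • y‖ = h * ‖y‖ := by
      rw [norm_smul, Real.norm_eq_abs, abs_of_pos hh]
    have := (hd t (hI t ht).1 (hI t ht).2 (X₀ t 0) (by rw [mem_ball_zero_iff]; linarith)).2.2
      ((h : ℝ) • y) (by rw [hny]; exact hy)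
    have e : (h⁻¹ : ℝ) • (U t (X₀ t 0 + (h : ℝ) • y) - U t (X₀ t 0)) - fderiv ℝ (U t) (X₀ t 0) y
        = (h⁻¹ : ℝ) • (U t (X₀ t 0 + (h : ℝ) • y) - U t (X₀ t 0)
          - fderiv ℝ (U t) (X₀ t 0) ((h : ℝ) • y)) := by
      rw [map_smul, smul_sub (h⁻¹ : ℝ) (_ - _) (_ • _), smul_smul, inv_mul_cancel₀ hh.ne', one_smul]
    rw [e, norm_smul, norm_inv, Real.norm_eq_abs, abs_of_pos hh]
    rw [hny] at this
    calc h⁻¹ * ‖U t (X₀ t 0 + (h : ℝ) • y) - U t (X₀ t 0)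
          - fderiv ℝ (U t) (X₀ t 0) ((h : ℝ) • y)‖ ≤ h⁻¹ * (C' * (h * ‖y‖) ^ 2) := by
          gcongr
      _ = C' * h * ‖y‖ ^ 2 := by field_simp
  -- uniform limit
  have hlim : TendstoUniformlyOn
      (fun (h : ℝ) t => (h⁻¹ : ℝ) • (U t (X₀ t 0 + (h : ℝ) • y) - U t (X₀ t 0)))
      (fun t => fderiv ℝ (U t) (X₀ t 0) y) (𝓝[>] 0) (Ici 0 ∩ Ioo (t₀ - δ) (t₀ + δ)) := by
    rw [Metric.tendstoUniformlyOn_iff]
    intro ε hε
    have hK : 0 < |C'| * ‖y‖ ^ 2 + ‖y‖ + 1 := by positivity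
    have h1 : ∀ᶠ h : ℝ in 𝓝[>] 0, h < min ε s₀ / (|C'| * ‖y‖ ^ 2 + ‖y‖ + 1) := by
      apply eventually_nhdsWithin_of_eventually_nhds
      exact Iio_mem_nhds (by positivity)
    filter_upwards [h1, self_mem_nhdsWithin] with h hh h0 t ht
    have h0' : 0 < h := h0
    rw [lt_div_iff₀ hK] at hh
    have hhs : h * ‖y‖ ≤ s₀ := by
      have : h * ‖y‖ ≤ h * (|C'| * ‖y‖ ^ 2 + ‖y‖ + 1) := by
        gcongr
        nlinarith [norm_nonneg y, mul_nonneg (abs_nonneg C') (sq_nonneg ‖y‖)]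
      exact this.trans (hh.le.trans (min_le_right _ _))
    have := hclose h h0' hhs t ht
    rw [dist_comm, dist_eq_norm]
    refine this.trans_lt ?_
    calc C' * h * ‖y‖ ^ 2 ≤ h * (|C'| * ‖y‖ ^ 2) := by
          have : C' * (h * ‖y‖ ^ 2) ≤ |C'| * (h * ‖y‖ ^ 2) :=
            mul_le_mul_of_nonneg_right (le_abs_self _) (by positivity)
          nlinarith
      _ < h * (|C'| * ‖y‖ ^ 2 + ‖y‖ + 1) := by
          apply mul_lt_mul_of_pos_left _ h0'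
          nlinarith [norm_nonneg y]
      _ < ε := hh.trans_le (min_le_left _ _)
  refine hlim.continuousOn ?_
  apply Eventually.frequently
  have h1 : ∀ᶠ h : ℝ in 𝓝[>] 0, h < s₀ / (‖y‖ + 1) := by
    apply eventually_nhdsWithin_of_eventually_nhds
    exact Iio_mem_nhds (by positivity)
  filter_upwards [h1, self_mem_nhdsWithin] with h hh h0
  have h0' : 0 < h := h0
  rw [lt_div_iff₀ (by positivity)] at hh
  exact hquo h h0' (by nlinarith [norm_nonneg y])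

end K2l

theorem lin_flow {t₀ δ s₀ s₁ C' : ℝ} (ht₀ : 0 ≤ t₀) (hδ : 0 < δ) (hs₀ : 0 < s₀) (hs₁ : 0 < s₁)
    {U X₀ : ℝ → ℂ → ℂ}
    (hU : ContinuousOn (fun z : ℝ × ℂ => U z.1 z.2)
      ((Ici 0 ∩ Ioo (t₀ - δ) (t₀ + δ)) ×ˢ Metric.ball 0 (4 * s₀)))
    (hX : ContDiffOn ℝ 1 (fun z : ℝ × ℂ => X₀ z.1 z.2)
      ((Ici 0 ∩ Ioo (t₀ - δ) (t₀ + δ)) ×ˢ Metric.ball 0 s₁))
    (hm : ∀ t, 0 ≤ t → |t - t₀| < δ → ‖X₀ t 0‖ < s₀ / 8)
    (hode : ∀ t, 0 ≤ t → |t - t₀| < δ → ∀ v ∈ Metric.ball (0 : ℂ) s₁,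
      HasDerivWithinAt (fun t' => X₀ t' v) (U t (X₀ t v)) (Ici 0) t)
    (hd : ∀ t, 0 ≤ t → |t - t₀| < δ → ∀ c ∈ Metric.ball (0 : ℂ) (2 * s₀),
      DifferentiableAt ℝ (U t) c ∧ ‖fderiv ℝ (U t) c‖ ≤ C' ∧ ∀ v : ℂ, ‖v‖ ≤ s₀ →
        ‖U t (c + v) - U t c - fderiv ℝ (U t) c v‖ ≤ C' * ‖v‖ ^ 2) :
    ContinuousOn (fun t => fderiv ℝ (U t) (X₀ t 0)) (Ici 0 ∩ Ioo (t₀ - δ) (t₀ + δ)) ∧
      ∀ v : ℂ, HasDerivWithinAt (fun t => fderiv ℝ (X₀ t) 0 v)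
        (fderiv ℝ (U t₀) (X₀ t₀ 0) (fderiv ℝ (X₀ t₀) 0 v)) (Ici 0) t₀ := by
  have hcont := K2l.cont_part hs₀ hs₁ hU hX hm hd
  refine ⟨hcont, ?_⟩
  intro v
  have hI : ∀ t ∈ Ici (0 : ℝ) ∩ Ioo (t₀ - δ) (t₀ + δ), 0 ≤ t ∧ |t - t₀| < δ := by
    rintro t ⟨h0, h1, h2⟩
    exact ⟨h0, by rw [abs_lt]; constructor <;> linarith⟩
  have ht₀I : t₀ ∈ Ici (0 : ℝ) ∩ Ioo (t₀ - δ) (t₀ + δ) := ⟨ht₀, by linarith, by linarith⟩
  set I : Set ℝ := Ici (0 : ℝ) ∩ Ioo (t₀ - δ) (t₀ + δ) with hIdef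
  have hUD : UniqueDiffOn ℝ (I ×ˢ Metric.ball (0 : ℂ) s₁) :=
    (uniqueDiffOn_convex (K2l.conv_I t₀ δ) (K2l.int_I ht₀ hδ)).prod Metric.isOpen_ball.uniqueDiffOn
  -- the spatial derivative
  set F : ℝ × ℂ → ℂ := fun z => X₀ z.1 z.2 with hF
  have hFd : ContinuousOn (fderivWithin ℝ F (I ×ˢ Metric.ball (0 : ℂ) s₁))
      (I ×ˢ Metric.ball (0 : ℂ) s₁) := hX.continuousOn_fderivWithin hUD le_rfl
  have hsp : ∀ t ∈ I, ∀ w ∈ Metric.ball (0 : ℂ) s₁,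
      HasFDerivAt (X₀ t) ((fderivWithin ℝ F (I ×ˢ Metric.ball (0 : ℂ) s₁) (t, w)).comp
        (ContinuousLinearMap.inr ℝ ℝ ℂ)) w := by
    intro t ht w hw
    have h1 : HasFDerivWithinAt F (fderivWithin ℝ F (I ×ˢ Metric.ball (0 : ℂ) s₁) (t, w))
        (I ×ˢ Metric.ball (0 : ℂ) s₁) (t, w) :=
      ((hX.differentiableOn one_ne_zero) (t, w) ⟨ht, hw⟩).hasFDerivWithinAt
    have h2 : HasFDerivWithinAt (fun w' : ℂ => ((t, w') : ℝ × ℂ))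
        (ContinuousLinearMap.inr ℝ ℝ ℂ) (Metric.ball (0 : ℂ) s₁) w :=
      (hasFDerivAt_prodMk_right t w).hasFDerivWithinAt
    have h3 := h1.comp w h2 (fun w' hw' => ⟨ht, hw'⟩)
    exact h3.hasFDerivAt (Metric.isOpen_ball.mem_nhds hw)
  set φ : ℂ →L[ℝ] ℂ := fderiv ℝ (X₀ t₀) 0 with hφ
  set A₀ : ℂ →L[ℝ] ℂ := fderiv ℝ (U t₀) (X₀ t₀ 0) with hA₀
  have h0s : (0 : ℂ) ∈ Metric.ball (0 : ℂ) s₁ := by simpa using hs₁
  have hφ' : φ = (fderivWithin ℝ F (I ×ˢ Metric.ball (0 : ℂ) s₁) (t₀, 0)).comp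
        (ContinuousLinearMap.inr ℝ ℝ ℂ) := (hsp t₀ ht₀I 0 h0s).fderiv
  have hC' : 0 ≤ C' := by
    have h1 := hm t₀ ht₀ (by simpa using hδ)
    exact (norm_nonneg _).trans
      (hd t₀ ht₀ (by simpa using hδ) (X₀ t₀ 0) (by rw [mem_ball_zero_iff]; linarith)).2.1
  rw [hasDerivWithinAt_iff_isLittleO, Asymptotics.isLittleO_iff]
  intro ε₀ hε₀
  -- the small parameter
  obtain ⟨ε, hε, hεb⟩ : ∃ ε : ℝ, 0 < ε ∧ (C' * ‖v‖ + ‖φ v‖) * ε ≤ ε₀ / 2 := by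
    refine ⟨ε₀ / 2 / (C' * ‖v‖ + ‖φ v‖ + 1), by positivity, ?_⟩
    have hp : 0 ≤ C' * ‖v‖ + ‖φ v‖ := by positivity
    rw [mul_div_assoc', div_le_iff₀ (by positivity)]
    nlinarith
  -- closeness of the spatial derivatives
  have hcomp : ContinuousOn (fun z => (fderivWithin ℝ F (I ×ˢ Metric.ball (0 : ℂ) s₁) z).comp
        (ContinuousLinearMap.inr ℝ ℝ ℂ)) (I ×ˢ Metric.ball (0 : ℂ) s₁) :=
    hFd.clm_comp continuousOn_const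
  have hc1 := (Metric.continuousOn_iff.1 hcomp) (t₀, 0) ⟨ht₀I, h0s⟩ ε hε
  obtain ⟨η₁, hη₁, hc1⟩ := hc1
  have hc2 := (Metric.continuousOn_iff.1 hcont) t₀ ht₀I ε hε
  obtain ⟨η₂, hη₂, hc2⟩ := hc2
  set η : ℝ := min (min η₁ η₂) (min δ s₁) with hη
  have hηpos : 0 < η := by positivity
  have hηη₁ : η ≤ η₁ := (min_le_left _ _).trans (min_le_left _ _)
  have hηη₂ : η ≤ η₂ := (min_le_left _ _).trans (min_le_right _ _)
  have hηδ : η ≤ δ := (min_le_right _ _).trans (min_le_left _ _)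
  have hηs : η ≤ s₁ := (min_le_right _ _).trans (min_le_right _ _)
  -- the quotient is close to φ v
  have hb : ∀ t ∈ I, |t - t₀| < η → ∀ h : ℝ, 0 < h → h * ‖v‖ < η →
      ‖(h⁻¹ : ℝ) • (X₀ t ((h : ℝ) • v) - X₀ t 0) - φ v‖ ≤ ε * ‖v‖ := by
    intro t ht htη h hh hhv
    have hnv : ‖(h : ℝ) • v‖ = h * ‖v‖ := by
      rw [norm_smul, Real.norm_eq_abs, abs_of_pos hh]
    have key := Convex.norm_image_sub_le_of_norm_hasFDerivWithin_le' (𝕜 := ℝ) (f := X₀ t)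
      (f' := fun w => (fderivWithin ℝ F (I ×ˢ Metric.ball (0 : ℂ) s₁) (t, w)).comp
        (ContinuousLinearMap.inr ℝ ℝ ℂ)) (s := Metric.ball (0 : ℂ) η) (φ := φ) (C := ε)
      (x := 0) (y := (h : ℝ) • v)
      (fun w hw => (hsp t ht w (Metric.ball_subset_ball hηs hw)).hasFDerivWithinAt)
      (fun w hw => by
        have := hc1 (t, w) ⟨ht, Metric.ball_subset_ball hηs hw⟩ (by
          rw [Prod.dist_eq]
          refine max_lt ?_ ?_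
          · rw [Real.dist_eq]; exact htη.trans_le hηη₁
          · exact (Metric.mem_ball.1 hw).trans_le hηη₁)
        rw [dist_eq_norm] at this
        rw [hφ']
        exact this.le)
      (convex_ball _ _) (by simpa using hηpos) (by rw [mem_ball_zero_iff, hnv]; exact hhv)
    rw [sub_zero] at key
    have e : (h⁻¹ : ℝ) • (X₀ t ((h : ℝ) • v) - X₀ t 0) - φ v
        = (h⁻¹ : ℝ) • (X₀ t ((h : ℝ) • v) - X₀ t 0 - φ ((h : ℝ) • v)) := by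
      rw [map_smul, smul_sub _ (_ - _), smul_smul, inv_mul_cancel₀ hh.ne', one_smul]
    rw [e, norm_smul, norm_inv, Real.norm_eq_abs, abs_of_pos hh]
    rw [hnv] at key
    calc h⁻¹ * ‖X₀ t ((h : ℝ) • v) - X₀ t 0 - φ ((h : ℝ) • v)‖ ≤ h⁻¹ * (ε * (h * ‖v‖)) := by
          gcongr
      _ = ε * ‖v‖ := by field_simp
  -- the neighbourhood
  have hnbhd : {t | |t - t₀| < η} ∈ 𝓝[Ici 0] t₀ := by
    apply mem_nhdsWithin_of_mem_nhds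
    have : {t | |t - t₀| < η} = Metric.ball t₀ η := by
      ext t; simp [Real.dist_eq]
    rw [this]
    exact Metric.ball_mem_nhds _ hηpos
  filter_upwards [hnbhd, self_mem_nhdsWithin] with t htη ht0
  have ht0' : (0 : ℝ) ≤ t := ht0
  have hJ : ∀ s, 0 ≤ s → |s - t₀| < η → s ∈ I := by
    intro s hs hsη
    have := abs_lt.1 (hsη.trans_le hηδ)
    exact ⟨hs, by linarith [this.1], by linarith [this.2]⟩
  have htI : t ∈ I := hJ t ht0' htη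
  -- limit h → 0+
  have hlim : ∀ s ∈ I, Tendsto (fun h : ℝ => (h⁻¹ : ℝ) • (X₀ s ((h : ℝ) • v) - X₀ s 0)) (𝓝[>] 0)
      (𝓝 (fderiv ℝ (X₀ s) 0 v)) := by
    intro s hs
    have h1 : HasFDerivAt (X₀ s) (fderiv ℝ (X₀ s) 0) 0 := by
      have := hsp s hs 0 h0s
      rw [this.fderiv]; exact this
    have h2 := h1.hasLineDerivAt v
    have h3 := h2.tendsto_slope_zero_right
    simpa using h3
  have hmain : ∀ᶠ h : ℝ in 𝓝[>] 0,
      ‖(h⁻¹ : ℝ) • (X₀ t ((h : ℝ) • v) - X₀ t 0) - (h⁻¹ : ℝ) • (X₀ t₀ ((h : ℝ) • v) - X₀ t₀ 0)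
        - (t - t₀) • A₀ (φ v)‖ ≤ ε₀ * ‖t - t₀‖ := by
    have hK : 0 < C' * (‖φ v‖ + ε * ‖v‖) ^ 2 + (‖φ v‖ + ε * ‖v‖) + ‖v‖ + 1 := by positivity
    have h1 : ∀ᶠ h : ℝ in 𝓝[>] 0, h < min (min (ε₀ / 2) s₀) (min η s₁) /
        (C' * (‖φ v‖ + ε * ‖v‖) ^ 2 + (‖φ v‖ + ε * ‖v‖) + ‖v‖ + 1) := by
      apply eventually_nhdsWithin_of_eventually_nhds
      exact Iio_mem_nhds (by positivity)
    filter_upwards [h1, self_mem_nhdsWithin] with h hh h0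
    have h0' : 0 < h := h0
    rw [lt_div_iff₀ hK] at hh
    have hp1 : 0 ≤ C' * (‖φ v‖ + ε * ‖v‖) ^ 2 := by positivity
    have hp2 : 0 ≤ ‖φ v‖ + ε * ‖v‖ := by positivity
    have hp3 := norm_nonneg v
    have hh1 : h * (C' * (‖φ v‖ + ε * ‖v‖) ^ 2) ≤ ε₀ / 2 := by
      have : h * (C' * (‖φ v‖ + ε * ‖v‖) ^ 2) ≤
        h * (C' * (‖φ v‖ + ε * ‖v‖) ^ 2 + (‖φ v‖ + ε * ‖v‖) + ‖v‖ + 1) :=
        mul_le_mul_of_nonneg_left (by linarith) h0'.le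
      exact this.trans (hh.le.trans ((min_le_left _ _).trans (min_le_left _ _)))
    have hh2 : h * (‖φ v‖ + ε * ‖v‖) ≤ s₀ := by
      have : h * (‖φ v‖ + ε * ‖v‖) ≤
        h * (C' * (‖φ v‖ + ε * ‖v‖) ^ 2 + (‖φ v‖ + ε * ‖v‖) + ‖v‖ + 1) :=
        mul_le_mul_of_nonneg_left (by linarith) h0'.le
      exact this.trans (hh.le.trans ((min_le_left _ _).trans (min_le_right _ _)))
    have hh3 : h * ‖v‖ ≤
        h * (C' * (‖φ v‖ + ε * ‖v‖) ^ 2 + (‖φ v‖ + ε * ‖v‖) + ‖v‖ + 1) :=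
        mul_le_mul_of_nonneg_left (by linarith) h0'.le
    have hh4 : h * ‖v‖ < η := hh3.trans_lt (hh.trans_le ((min_le_right _ _).trans (min_le_left _ _)))
    have hh5 : h * ‖v‖ < s₁ := hh3.trans_lt (hh.trans_le ((min_le_right _ _).trans (min_le_right _ _)))
    have hnv : ‖(h : ℝ) • v‖ = h * ‖v‖ := by
      rw [norm_smul, Real.norm_eq_abs, abs_of_pos h0']
    -- mean value inequality in time
    have key := Convex.norm_image_sub_le_of_norm_hasDerivWithin_le (𝕜 := ℝ)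
      (f := fun s => (h⁻¹ : ℝ) • (X₀ s ((h : ℝ) • v) - X₀ s 0) - (s - t₀) • A₀ (φ v))
      (f' := fun s => (h⁻¹ : ℝ) • (U s (X₀ s ((h : ℝ) • v)) - U s (X₀ s 0)) - A₀ (φ v))
      (s := Ici 0 ∩ {s | |s - t₀| < η}) (C := ε₀) (x := t₀) (y := t)
      (fun s hs => by
        have hsI := hJ s hs.1 hs.2
        have e1 := (hode s (hI s hsI).1 (hI s hsI).2 ((h : ℝ) • v)
          (by rw [mem_ball_zero_iff, hnv]; exact hh5)).mono (s := Ici 0 ∩ {s | |s - t₀| < η})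
            inter_subset_left
        have e2 := (hode s (hI s hsI).1 (hI s hsI).2 0 h0s).mono
          (s := Ici 0 ∩ {s | |s - t₀| < η}) inter_subset_left
        have e3 : HasDerivWithinAt (fun s : ℝ => (s - t₀) • A₀ (φ v)) (A₀ (φ v))
            (Ici 0 ∩ {s | |s - t₀| < η}) s := by
          have := ((hasDerivWithinAt_id s (Ici 0 ∩ {s | |s - t₀| < η})).sub_const t₀).smul_const
            (A₀ (φ v))
          simpa using this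
        exact ((e1.sub e2).const_smul (h⁻¹ : ℝ)).sub e3)
      (fun s hs => by
        have hsI := hJ s hs.1 hs.2
        have hms := hm s (hI s hsI).1 (hI s hsI).2
        have hds := hd s (hI s hsI).1 (hI s hsI).2 (X₀ s 0) (by rw [mem_ball_zero_iff]; linarith)
        have hbs := hb s hsI hs.2 h h0' hh4
        obtain ⟨b, hbdef⟩ : ∃ b : ℂ, b = (h⁻¹ : ℝ) • (X₀ s ((h : ℝ) • v) - X₀ s 0) := ⟨_, rfl⟩
        rw [← hbdef] at hbs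
        have hub : X₀ s ((h : ℝ) • v) = X₀ s 0 + (h : ℝ) • b := by
          rw [hbdef, smul_smul, mul_inv_cancel₀ h0'.ne', one_smul]; ring
        have hbn : ‖b‖ ≤ ‖φ v‖ + ε * ‖v‖ := by
          have : b = φ v + (b - φ v) := by ring
          calc ‖b‖ = ‖φ v + (b - φ v)‖ := by rw [← this]
            _ ≤ ‖φ v‖ + ‖b - φ v‖ := norm_add_le _ _
            _ ≤ _ := by linarith
        have hhb : ‖(h : ℝ) • b‖ = h * ‖b‖ := by
          rw [norm_smul, Real.norm_eq_abs, abs_of_pos h0']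
        have hhb' : ‖(h : ℝ) • b‖ ≤ s₀ := by
          rw [hhb]
          exact (mul_le_mul_of_nonneg_left hbn h0'.le).trans hh2
        have ht := hds.2.2 ((h : ℝ) • b) hhb'
        have hA : ‖fderiv ℝ (U s) (X₀ s 0) - A₀‖ ≤ ε := by
          have := hc2 s hsI (by rw [Real.dist_eq]; exact (show |s - t₀| < η from hs.2).trans_le hηη₂)
          rw [dist_eq_norm] at this
          exact this.le
        show ‖(h⁻¹ : ℝ) • (U s (X₀ s ((h : ℝ) • v)) - U s (X₀ s 0)) - A₀ (φ v)‖ ≤ ε₀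
        rw [hub]
        have e : (h⁻¹ : ℝ) • (U s (X₀ s 0 + (h : ℝ) • b) - U s (X₀ s 0)) - A₀ (φ v)
            = (h⁻¹ : ℝ) • (U s (X₀ s 0 + (h : ℝ) • b) - U s (X₀ s 0)
                - fderiv ℝ (U s) (X₀ s 0) ((h : ℝ) • b))
              + fderiv ℝ (U s) (X₀ s 0) (b - φ v)
              + (fderiv ℝ (U s) (X₀ s 0) - A₀) (φ v) := by
          rw [map_smul, smul_sub _ (_ - _) (_ • _), smul_smul, inv_mul_cancel₀ h0'.ne', one_smul,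
            map_sub, sub_apply]
          ring
        rw [e]
        have n1 : ‖(h⁻¹ : ℝ) • (U s (X₀ s 0 + (h : ℝ) • b) - U s (X₀ s 0)
                - fderiv ℝ (U s) (X₀ s 0) ((h : ℝ) • b))‖ ≤ ε₀ / 2 := by
          rw [norm_smul, norm_inv, Real.norm_eq_abs, abs_of_pos h0']
          rw [hhb] at ht
          calc _ ≤ h⁻¹ * (C' * (h * ‖b‖) ^ 2) := by gcongr
            _ = h * (C' * ‖b‖ ^ 2) := by field_simp
            _ ≤ h * (C' * (‖φ v‖ + ε * ‖v‖) ^ 2) := by gcongr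
            _ ≤ ε₀ / 2 := hh1
        have n2 : ‖fderiv ℝ (U s) (X₀ s 0) (b - φ v)‖ ≤ C' * (ε * ‖v‖) :=
          (ContinuousLinearMap.le_opNorm _ _).trans
            (mul_le_mul hds.2.1 hbs (norm_nonneg _) hC')
        have n3 : ‖(fderiv ℝ (U s) (X₀ s 0) - A₀) (φ v)‖ ≤ ε * ‖φ v‖ :=
          (ContinuousLinearMap.le_opNorm _ _).trans
            (mul_le_mul_of_nonneg_right hA (norm_nonneg _))
        calc _ ≤ _ := norm_add₃_le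
          _ ≤ ε₀ / 2 + C' * (ε * ‖v‖) + ε * ‖φ v‖ := by linarith
          _ ≤ ε₀ := by nlinarith)
      ((convex_Ici 0).inter (by
        have : {s | |s - t₀| < η} = Metric.ball t₀ η := by
          ext t; simp [Real.dist_eq]
        rw [this]; exact convex_ball _ _))
      ⟨ht₀, by simpa using hηpos⟩ ⟨ht0', htη⟩
    have e : (h⁻¹ : ℝ) • (X₀ t ((h : ℝ) • v) - X₀ t 0) - (h⁻¹ : ℝ) • (X₀ t₀ ((h : ℝ) • v) - X₀ t₀ 0)
        - (t - t₀) • A₀ (φ v) =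
        ((h⁻¹ : ℝ) • (X₀ t ((h : ℝ) • v) - X₀ t 0) - (t - t₀) • A₀ (φ v)) -
        ((h⁻¹ : ℝ) • (X₀ t₀ ((h : ℝ) • v) - X₀ t₀ 0) - (t₀ - t₀) • A₀ (φ v)) := by
      rw [sub_self, zero_smul]; ring
    rw [e]
    exact key
  have hl := (((hlim t htI).sub (hlim t₀ ht₀I)).sub_const ((t - t₀) • A₀ (φ v))).norm
  exact le_of_tendsto hl hmain

end Pool.Agent.YUS
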