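import Pool.Agent.YUS.A1
import Pool.Agent.YUS.K2a
import Pool.Agent.YUS.K2h
import Pool.Agent.YUS.K2l

/-!
# [YUS-K2m] the moving charts near a time, in terms of the chart at this time
-/

open MeasureTheory Set Filter Topology
open scoped ContDiff

namespace Pool.Agent.YUS

open Pool.Agent.YUD Pool.Agent.YUT Pool.Agent.YUB Pool.Agent.YUR Pool.Agent.YUL

namespace K2m

/-! ### algebra -/

theorem wed_smul (σ p q : ℂ) : wed (σ * p) (σ * q) = ‖σ‖ ^ 2 * wed p q := by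
  rw [← Complex.normSq_eq_norm_sq, Complex.normSq_apply]
  simp only [wed, Complex.mul_re, Complex.mul_im]
  ring

theorem lmap_smul (σ p q z : ℂ) : lmap (σ * p) (σ * q) z = σ * lmap p q z := by
  unfold lmap
  ring

theorem ginv_smul {p q σ : ℂ} (hσ : σ ≠ 0) (h : wed p q ≠ 0) (w : ℂ) :
    ginv (σ * p) (σ * q) (σ * w) = ginv p q w := by
  have h1 : wed (σ * p) (σ * q) ≠ 0 := by
    rw [wed_smul]
    exact mul_ne_zero (pow_ne_zero _ (norm_ne_zero_iff.2 hσ)) h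
  have h2 := K2a.ginv_lmap h1 (ginv p q w)
  rwa [lmap_smul, K2a.lmap_ginv h] at h2

theorem ginv_smul' {p q σ : ℂ} (hσ : σ ≠ 0) (h : wed p q ≠ 0) (w : ℂ) :
    ginv (σ * p) (σ * q) w = ginv p q (σ⁻¹ * w) := by
  rw [← ginv_smul hσ h (σ⁻¹ * w), ← mul_assoc, mul_inv_cancel₀ hσ, one_mul]

/-- real derivative of a holomorphic function -/
theorem hasFDerivAt_real {T : ℂ → ℂ} {T' u : ℂ} (hT : HasDerivAt T T' u) :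
    ∃ A : ℂ →L[ℝ] ℂ, HasFDerivAt T A u ∧ ∀ v, A v = T' * v := by
  refine ⟨_, (hT.hasFDerivAt).restrictScalars ℝ, fun v => ?_⟩
  simp [mul_comm]

theorem perp_comp {f : ℂ → ℝ} {T : ℂ → ℂ} {T' u : ℂ} (hT : HasDerivAt T T' u)
    (hf : DifferentiableAt ℝ f (T u)) :
    perp (fun v => f (T v)) u = (starRingEnd ℂ) T' * perp f (T u) := by
  obtain ⟨A, hA, hA'⟩ := hasFDerivAt_real hT
  have h1 : HasFDerivAt (fun v => f (T v)) ((fderiv ℝ f (T u)).comp A) u :=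
    hf.hasFDerivAt.comp u hA
  have h2 : ∀ z, fderiv ℝ f (T u) z = z.re * dx f (T u) + z.im * dy f (T u) := by
    intro z
    have h : z = z.re • (1 : ℂ) + z.im • Complex.I := by
      apply Complex.ext <;> simp
    conv_lhs => rw [h]
    rw [map_add, map_smul, map_smul]
    rfl
  have h3 : dx (fun v => f (T v)) u = T'.re * dx f (T u) + T'.im * dy f (T u) := by
    unfold dx
    rw [h1.fderiv]
    change fderiv ℝ f (T u) (A 1) = _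
    rw [hA', mul_one, h2]
    rfl
  have h4 : dy (fun v => f (T v)) u = -T'.im * dx f (T u) + T'.re * dy f (T u) := by
    unfold dy
    rw [h1.fderiv]
    change fderiv ℝ f (T u) (A Complex.I) = _
    rw [hA', h2]
    simp only [Complex.mul_re, Complex.mul_im, Complex.I_re, Complex.I_im]
    unfold dx dy
    ring
  unfold perp
  rw [h3, h4]
  apply Complex.ext
  · simp only [Complex.mul_re, Complex.conj_re, Complex.conj_im]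
    ring
  · simp only [Complex.mul_im, Complex.conj_re, Complex.conj_im]
    ring

section

variable {α κ s₀ s₁ L K E₀ C t₀ δ : ℝ} {w : ℂ → ℝ} {Ψ d : ℝ → ℂ → ℝ} {X : ℝ → ℂ → ℂ}
  {x τ : ℝ → ℂ} {X₀ : ℝ → ℂ → ℂ} {ψ₀ : ℝ → ℂ → ℝ} {d₀ : ℂ → ℝ}

theorem kap (h : PF α κ s₀ s₁ L K E₀ C w Ψ d X) : |κ| * (4 * s₀) ^ 2 ≤ 1 / 4 := by
  have h1 := h.κ_le
  have h2 : |κ| * (4 * s₀) ^ 2 = |κ| * (8 * s₀) ^ 2 / 4 := by ring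
  rw [h2]
  linarith

theorem mem_iff {t : ℝ} : t ∈ Ici (0 : ℝ) ∩ Ioo (t₀ - δ) (t₀ + δ) ↔ 0 ≤ t ∧ |t - t₀| < δ := by
  rw [abs_lt]
  constructor
  · rintro ⟨h1, h2, h3⟩
    exact ⟨h1, by linarith, by linarith⟩
  · rintro ⟨h1, h2, h3⟩
    exact ⟨h1, by linarith, by linarith⟩

theorem nhds_S (hδ : 0 < δ) : Ici (0 : ℝ) ∩ Ioo (t₀ - δ) (t₀ + δ) ∈ 𝓝[Ici 0] t₀ :=
  inter_mem self_mem_nhdsWithin (mem_nhdsWithin_of_mem_nhds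
    (Ioo_mem_nhds (by linarith) (by linarith)))

theorem t₀_mem (T : TLoc α κ s₀ s₁ K E₀ C t₀ δ Ψ d X x τ X₀ ψ₀ d₀) (ht₀ : 0 ≤ t₀) :
    t₀ ∈ Ici (0 : ℝ) ∩ Ioo (t₀ - δ) (t₀ + δ) := by
  rw [mem_iff]
  refine ⟨ht₀, ?_⟩
  rw [sub_self, abs_zero]
  exact T.δ_pos

/-- the factor `1 + κ |x t|²` -/
noncomputable def cf (κ : ℝ) (x : ℝ → ℂ) (t : ℝ) : ℝ := 1 + κ * ‖x t‖ ^ 2

theorem x_lt (h : PF α κ s₀ s₁ L K E₀ C w Ψ d X)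
    (T : TLoc α κ s₀ s₁ K E₀ C t₀ δ Ψ d X x τ X₀ ψ₀ d₀) {t : ℝ}
    (ht : t ∈ Ici (0 : ℝ) ∩ Ioo (t₀ - δ) (t₀ + δ)) : ‖x t‖ < s₀ := by
  rw [mem_iff] at ht
  have h1 := T.x_le t ht.1 ht.2
  have h2 := K2a.s₀_pos h
  linarith

theorem cf_pos (h : PF α κ s₀ s₁ L K E₀ C w Ψ d X)
    (T : TLoc α κ s₀ s₁ K E₀ C t₀ δ Ψ d X x τ X₀ ψ₀ d₀) {t : ℝ}
    (ht : t ∈ Ici (0 : ℝ) ∩ Ioo (t₀ - δ) (t₀ + δ)) : 0 < cf κ x t := by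
  have h1 := x_lt h T ht
  have h2 := kap h
  have h3 : |κ| * ‖x t‖ ^ 2 ≤ |κ| * (4 * s₀) ^ 2 := by
    apply mul_le_mul_of_nonneg_left _ (abs_nonneg κ)
    have h4 := norm_nonneg (x t)
    nlinarith
  have h5 : -|κ| * ‖x t‖ ^ 2 ≤ κ * ‖x t‖ ^ 2 :=
    mul_le_mul_of_nonneg_right (neg_abs_le κ) (by positivity)
  unfold cf
  nlinarith

theorem X₀_diff (T : TLoc α κ s₀ s₁ K E₀ C t₀ δ Ψ d X x τ X₀ ψ₀ d₀) {t : ℝ}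
    (ht : t ∈ Ici (0 : ℝ) ∩ Ioo (t₀ - δ) (t₀ + δ)) {v : ℂ} (hv : v ∈ Metric.ball (0 : ℂ) s₁) :
    DifferentiableAt ℝ (X₀ t) v := by
  have h1 : ContDiffOn ℝ 1 (X₀ t) (Metric.ball 0 s₁) :=
    T.X₀_c1.comp (contDiff_prodMk_right t).contDiffOn (fun v hv => ⟨ht, hv⟩)
  exact (h1.differentiableOn one_ne_zero).differentiableAt (Metric.isOpen_ball.mem_nhds hv)

theorem X₀_zero (T : TLoc α κ s₀ s₁ K E₀ C t₀ δ Ψ d X x τ X₀ ψ₀ d₀) {t : ℝ}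
    (ht : t ∈ Ici (0 : ℝ) ∩ Ioo (t₀ - δ) (t₀ + δ)) : X₀ t 0 = x t :=
  T.X₀_zero t (mem_iff.1 ht).1 (mem_iff.1 ht).2

theorem mob_deriv_neg (h : PF α κ s₀ s₁ L K E₀ C w Ψ d X)
    (T : TLoc α κ s₀ s₁ K E₀ C t₀ δ Ψ d X x τ X₀ ψ₀ d₀) {t : ℝ}
    (ht : t ∈ Ici (0 : ℝ) ∩ Ioo (t₀ - δ) (t₀ + δ)) :
    HasDerivAt (mob κ (-x t)) ((cf κ x t : ℂ)⁻¹) (x t) := by
  have h1 := x_lt h T ht
  have h2 := K2a.s₀_pos h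
  have h3 := cf_pos h T ht
  have h4 := mob_hasDerivAt (kap h) (v := -x t) (w := x t) (by rw [norm_neg]; linarith)
    (by linarith)
  have h5 : (((1 + κ * ‖-x t‖ ^ 2 : ℝ) : ℂ) / (1 - κ * (starRingEnd ℂ) (-x t) * x t) ^ 2) =
      (cf κ x t : ℂ)⁻¹ := by
    have h6 : 1 - (κ : ℂ) * (starRingEnd ℂ) (-x t) * x t = (cf κ x t : ℂ) := by
      have h7 : (starRingEnd ℂ) (x t) * x t = ((‖x t‖ ^ 2 : ℝ) : ℂ) := by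
        rw [mul_comm, Complex.mul_conj, Complex.normSq_eq_norm_sq]
      unfold cf
      rw [map_neg]
      push_cast at h7 ⊢
      linear_combination (κ : ℂ) * h7
    rw [h6, norm_neg]
    have h8 : ((1 + κ * ‖x t‖ ^ 2 : ℝ) : ℂ) = (cf κ x t : ℂ) := rfl
    have h9 : (cf κ x t : ℂ) ≠ 0 := by exact_mod_cast h3.ne'
    rw [h8]
    field_simp
  rwa [h5] at h4

/-- the derivative of the flow in the moving chart -/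
theorem fderiv_X (h : PF α κ s₀ s₁ L K E₀ C w Ψ d X)
    (T : TLoc α κ s₀ s₁ K E₀ C t₀ δ Ψ d X x τ X₀ ψ₀ d₀) {t : ℝ}
    (ht : t ∈ Ici (0 : ℝ) ∩ Ioo (t₀ - δ) (t₀ + δ)) (v : ℂ) :
    fderiv ℝ (X t) 0 v = (τ t * (cf κ x t : ℂ)⁻¹) * fderiv ℝ (X₀ t) 0 v := by
  have h0 : (0 : ℂ) ∈ Metric.ball (0 : ℂ) s₁ := Metric.mem_ball_self h.s₁_pos
  have h1 : X t =ᶠ[𝓝 0] fun v => τ t * mob κ (-x t) (X₀ t v) := by
    filter_upwards [Metric.isOpen_ball.mem_nhds h0] with v hv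
    exact T.X_eq t (mem_iff.1 ht).1 (mem_iff.1 ht).2 v hv
  have h2 := mob_deriv_neg h T ht
  rw [← X₀_zero T ht] at h2
  obtain ⟨A, hA, hA'⟩ := hasFDerivAt_real h2
  have h3 : HasFDerivAt (fun v => mob κ (-X₀ t 0) (X₀ t v)) (A.comp (fderiv ℝ (X₀ t) 0)) 0 :=
    hA.comp (0 : ℂ) (X₀_diff T ht h0).hasFDerivAt
  have h4 := h3.const_mul (τ t)
  rw [X₀_zero T ht] at h4
  rw [h1.fderiv_eq, h4.fderiv]
  change τ t * A (fderiv ℝ (X₀ t) 0 v) = _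
  rw [hA']
  ring

/-- the scalar relating the frames -/
theorem sc_ne (h : PF α κ s₀ s₁ L K E₀ C w Ψ d X)
    (T : TLoc α κ s₀ s₁ K E₀ C t₀ δ Ψ d X x τ X₀ ψ₀ d₀) {t : ℝ}
    (ht : t ∈ Ici (0 : ℝ) ∩ Ioo (t₀ - δ) (t₀ + δ)) : τ t * (cf κ x t : ℂ)⁻¹ ≠ 0 := by
  have h1 := cf_pos h T ht
  have h2 : τ t ≠ 0 := by
    intro h3
    have h4 := T.τ_norm t
    rw [h3, norm_zero] at h4
    exact zero_ne_one h4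
  have h3 : (cf κ x t : ℂ) ≠ 0 := by exact_mod_cast h1.ne'
  exact mul_ne_zero h2 (inv_ne_zero h3)

theorem sc_norm (h : PF α κ s₀ s₁ L K E₀ C w Ψ d X)
    (T : TLoc α κ s₀ s₁ K E₀ C t₀ δ Ψ d X x τ X₀ ψ₀ d₀) {t : ℝ}
    (ht : t ∈ Ici (0 : ℝ) ∩ Ioo (t₀ - δ) (t₀ + δ)) : ‖τ t * (cf κ x t : ℂ)⁻¹‖ = (cf κ x t)⁻¹ := by
  have h1 := cf_pos h T ht
  rw [norm_mul, T.τ_norm, one_mul, norm_inv, Complex.norm_real, Real.norm_eq_abs, abs_of_pos h1]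

variable {σ : ℂ}

theorem pf_eq (h : PF α κ s₀ s₁ L K E₀ C w Ψ d X)
    (T : TLoc α κ s₀ s₁ K E₀ C t₀ δ Ψ d X x τ X₀ ψ₀ d₀) {t : ℝ}
    (ht : t ∈ Ici (0 : ℝ) ∩ Ioo (t₀ - δ) (t₀ + δ)) :
    pf X σ t = (τ t * (cf κ x t : ℂ)⁻¹) * pf X₀ σ t := fderiv_X h T ht _

theorem qf_eq (h : PF α κ s₀ s₁ L K E₀ C w Ψ d X)
    (T : TLoc α κ s₀ s₁ K E₀ C t₀ δ Ψ d X x τ X₀ ψ₀ d₀) {t : ℝ}
    (ht : t ∈ Ici (0 : ℝ) ∩ Ioo (t₀ - δ) (t₀ + δ)) :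
    qf X σ t = (τ t * (cf κ x t : ℂ)⁻¹) * qf X₀ σ t := fderiv_X h T ht _

theorem wed_hat (hσ : ‖σ‖ = 1) (h : PF α κ s₀ s₁ L K E₀ C w Ψ d X)
    (T : TLoc α κ s₀ s₁ K E₀ C t₀ δ Ψ d X x τ X₀ ψ₀ d₀) {t : ℝ}
    (ht : t ∈ Ici (0 : ℝ) ∩ Ioo (t₀ - δ) (t₀ + δ)) :
    wed (pf X σ t) (qf X σ t) = ((cf κ x t)⁻¹) ^ 2 * wed (pf X₀ σ t) (qf X₀ σ t) ∧
      wed (pf X₀ σ t) (qf X₀ σ t) ≠ 0 := by
  have h1 : wed (pf X σ t) (qf X σ t) = ((cf κ x t)⁻¹) ^ 2 * wed (pf X₀ σ t) (qf X₀ σ t) := by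
    rw [pf_eq h T ht, qf_eq h T ht, wed_smul, sc_norm h T ht]
  refine ⟨h1, ?_⟩
  have h2 := (frame_facts h hσ t (mem_iff.1 ht).1).2.1
  intro h3
  rw [h1, h3, mul_zero] at h2
  exact lt_irrefl _ h2

/-- the flow in the frame -/
theorem Yf_eq (hσ : ‖σ‖ = 1) (h : PF α κ s₀ s₁ L K E₀ C w Ψ d X)
    (T : TLoc α κ s₀ s₁ K E₀ C t₀ δ Ψ d X x τ X₀ ψ₀ d₀) {t : ℝ}
    (ht : t ∈ Ici (0 : ℝ) ∩ Ioo (t₀ - δ) (t₀ + δ)) {y : ℂ} (hy : ‖y‖ < s₁) :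
    Yf X σ t y = ginv (pf X₀ σ t) (qf X₀ σ t) (cf κ x t * mob κ (-x t) (X₀ t (σ * y))) := by
  have h1 := cf_pos h T ht
  have h2 : (cf κ x t : ℂ) ≠ 0 := by exact_mod_cast h1.ne'
  have h3 := sc_ne h T ht
  have h4 := (wed_hat (σ := σ) hσ h T ht).2
  unfold Yf
  rw [T.X_eq t (mem_iff.1 ht).1 (mem_iff.1 ht).2 (σ * y)
    (mem_ball_zero_iff.2 (by rwa [norm_mul, hσ, one_mul])), pf_eq h T ht, qf_eq h T ht,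
    ginv_smul' h3 h4]
  congr 1
  have h5 : τ t ≠ 0 := left_ne_zero_of_mul h3
  field_simp

/-! ### continuity and expansions in the fixed chart -/

theorem d₀_pos (h : PF α κ s₀ s₁ L K E₀ C w Ψ d X)
    (T : TLoc α κ s₀ s₁ K E₀ C t₀ δ Ψ d X x τ X₀ ψ₀ d₀) {v : ℂ}
    (hv : v ∈ Metric.ball (0 : ℂ) (4 * s₀)) : 0 < d₀ v := by
  have h1 := T.d₀_lo v hv
  have h2 := h.C_le
  by_contra hcon
  nlinarith

theorem U_cont (h : PF α κ s₀ s₁ L K E₀ C w Ψ d X)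
    (T : TLoc α κ s₀ s₁ K E₀ C t₀ δ Ψ d X x τ X₀ ψ₀ d₀) :
    ContinuousOn (fun z : ℝ × ℂ => Uf (ψ₀ z.1) d₀ z.2)
      ((Ici 0 ∩ Ioo (t₀ - δ) (t₀ + δ)) ×ˢ Metric.ball 0 (4 * s₀)) := by
  have h1 : ContinuousOn (fun z : ℝ × ℂ => d₀ z.2)
      ((Ici 0 ∩ Ioo (t₀ - δ) (t₀ + δ)) ×ˢ Metric.ball 0 (4 * s₀)) :=
    T.d₀_smooth.continuousOn.comp continuousOn_snd (fun z hz => hz.2)
  have h2 : ContinuousOn (fun z : ℝ × ℂ => (d₀ z.2)⁻¹)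
      ((Ici 0 ∩ Ioo (t₀ - δ) (t₀ + δ)) ×ˢ Metric.ball 0 (4 * s₀)) :=
    h1.inv₀ (fun z hz => (d₀_pos h T hz.2).ne')
  have h3 : ContinuousOn (fun z : ℝ × ℂ => dx (ψ₀ z.1) z.2)
      ((Ici 0 ∩ Ioo (t₀ - δ) (t₀ + δ)) ×ˢ Metric.ball 0 (4 * s₀)) :=
    T.ψ₀_cont.clm_apply continuousOn_const
  have h4 : ContinuousOn (fun z : ℝ × ℂ => dy (ψ₀ z.1) z.2)
      ((Ici 0 ∩ Ioo (t₀ - δ) (t₀ + δ)) ×ˢ Metric.ball 0 (4 * s₀)) :=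
    T.ψ₀_cont.clm_apply continuousOn_const
  have h5 : (fun z : ℝ × ℂ => Uf (ψ₀ z.1) d₀ z.2) =
      fun z => (d₀ z.2)⁻¹ • (((-dy (ψ₀ z.1) z.2 : ℝ) : ℂ) + ((dx (ψ₀ z.1) z.2 : ℝ) : ℂ) * Complex.I) := by
    funext z
    unfold Uf perp
    congr 1
    apply Complex.ext <;> simp
  rw [h5]
  exact h2.smul ((Complex.continuous_ofReal.comp_continuousOn h4.neg).add
    ((Complex.continuous_ofReal.comp_continuousOn h3).mul continuousOn_const))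

theorem U_exp (hα : 0 < α) (hα1 : α < 1) (h : PF α κ s₀ s₁ L K E₀ C w Ψ d X)
    (T : TLoc α κ s₀ s₁ K E₀ C t₀ δ Ψ d X x τ X₀ ψ₀ d₀) :
    ∃ C' : ℝ, ∀ t, 0 ≤ t → |t - t₀| < δ → ∀ c ∈ Metric.ball (0 : ℂ) (2 * s₀),
      DifferentiableAt ℝ (Uf (ψ₀ t) d₀) c ∧ ‖fderiv ℝ (Uf (ψ₀ t) d₀) c‖ ≤ C' ∧
        ∀ v : ℂ, ‖v‖ ≤ s₀ →
          ‖Uf (ψ₀ t) d₀ (c + v) - Uf (ψ₀ t) d₀ c - fderiv ℝ (Uf (ψ₀ t) d₀) c v‖ ≤ C' * ‖v‖ ^ 2 := by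
  obtain ⟨C', -, hC'⟩ := Uf_expand (K := K) hα hα1 (K2a.s₀_pos h) h.C_le h.E₀_nonneg
  refine ⟨C', fun t ht1 ht2 c hc => ?_⟩
  obtain ⟨h1, -, h3, h4⟩ := hC' (ψ₀ t) d₀ (T.ψ₀_c2 t ht1 ht2) (T.dψ₀_le t ht1 ht2)
    (T.norm₀ t ht1 ht2) T.d₀_smooth T.d₀_jet T.d₀_lo c hc
  exact ⟨h1.differentiableAt one_ne_zero, h3, h4⟩

/-- the linearized flow and continuity of the gradient of the velocity -/
theorem lin (hα : 0 < α) (hα1 : α < 1) (h : PF α κ s₀ s₁ L K E₀ C w Ψ d X)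
    (T : TLoc α κ s₀ s₁ K E₀ C t₀ δ Ψ d X x τ X₀ ψ₀ d₀) (ht₀ : 0 ≤ t₀) :
    ContinuousOn (fun t => fderiv ℝ (Uf (ψ₀ t) d₀) (X₀ t 0)) (Ici 0 ∩ Ioo (t₀ - δ) (t₀ + δ)) ∧
      ∀ v : ℂ, HasDerivWithinAt (fun t => fderiv ℝ (X₀ t) 0 v)
        (fderiv ℝ (Uf (ψ₀ t₀) d₀) 0 (fderiv ℝ (X₀ t₀) 0 v)) (Ici 0) t₀ := by
  obtain ⟨C', hC'⟩ := U_exp hα hα1 h T
  have h1 := lin_flow (U := fun t => Uf (ψ₀ t) d₀) ht₀ T.δ_pos (K2a.s₀_pos h) h.s₁_pos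
    (U_cont h T) T.X₀_c1
    (fun t ht1 ht2 => by rw [T.X₀_zero t ht1 ht2]; exact T.x_le t ht1 ht2) T.ode hC'
  have h2 : X₀ t₀ 0 = 0 := by
    rw [X₀_zero T (t₀_mem T ht₀), T.x_zero]
  rw [h2] at h1
  exact h1

end

end K2m

end Pool.Agent.YUS
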