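import Pool.Agent.YUS.K2m
import Pool.Agent.YUS.A1

/-!
# [YUS-K2n] the relative velocity in terms of the chart at a fixed time
-/

open MeasureTheory Set Filter Topology
open scoped ContDiff

namespace Pool.Agent.YUS

open Pool.Agent.YUD Pool.Agent.YUT Pool.Agent.YUB Pool.Agent.YUR Pool.Agent.YUL

namespace K2m

section

variable {α κ s₀ s₁ L K E₀ C t₀ δ : ℝ} {w : ℂ → ℝ} {Ψ d : ℝ → ℂ → ℝ} {X : ℝ → ℂ → ℂ}
  {x τ : ℝ → ℂ} {X₀ : ℝ → ℂ → ℂ} {ψ₀ : ℝ → ℂ → ℝ} {d₀ : ℂ → ℝ} {σ : ℂ}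

/-- the velocity in the moving chart, up to the rotation -/
noncomputable def Uh (κ : ℝ) (x : ℝ → ℂ) (ψ₀ : ℝ → ℂ → ℝ) (d₀ : ℂ → ℝ) (t : ℝ) (u : ℂ) : ℂ :=
  Uf (ψ₀ t) d₀ (mob κ (x t) u) * ((1 - κ * (starRingEnd ℂ) (x t) * u) ^ 2 * (cf κ x t : ℂ)⁻¹)

theorem mob_mem (h : PF α κ s₀ s₁ L K E₀ C w Ψ d X) {a u : ℂ} (ha : ‖a‖ ≤ s₀ / 8)
    (hu : ‖u‖ < 2 * s₀) : mob κ a u ∈ Metric.ball (0 : ℂ) (4 * s₀) := by
  have h2 := K2a.s₀_pos h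
  have h3 := mob_le (kap h) (v := a) (w := u) (by linarith) (by linarith)
  have h4 : |κ| * ‖a‖ * ‖u‖ ≤ 1 / 4 := by
    have h5 : ‖a‖ * ‖u‖ ≤ (4 * s₀) * (4 * s₀) :=
      mul_le_mul (by linarith) (by linarith) (norm_nonneg _) (by linarith)
    have h6 : |κ| * (‖a‖ * ‖u‖) ≤ |κ| * ((4 * s₀) * (4 * s₀)) :=
      mul_le_mul_of_nonneg_left h5 (abs_nonneg _)
    have h7 := kap h
    nlinarith
  rw [mem_ball_zero_iff]
  refine lt_of_le_of_lt h3 ?_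
  rw [div_lt_iff₀ (by linarith)]
  nlinarith

theorem T_hasDerivAt (h : PF α κ s₀ s₁ L K E₀ C w Ψ d X)
    (T : TLoc α κ s₀ s₁ K E₀ C t₀ δ Ψ d X x τ X₀ ψ₀ d₀) {t : ℝ}
    (ht : t ∈ Ici (0 : ℝ) ∩ Ioo (t₀ - δ) (t₀ + δ)) {u : ℂ} (hu : ‖u‖ < 2 * s₀) :
    HasDerivAt (mob κ (x t)) ((cf κ x t : ℂ) / (1 - κ * (starRingEnd ℂ) (x t) * u) ^ 2) u ∧
      (1 - κ * (starRingEnd ℂ) (x t) * u) ≠ 0 := by
  have h1 := x_lt h T ht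
  have h2 := K2a.s₀_pos h
  refine ⟨mob_hasDerivAt (kap h) (by linarith) (by linarith), ?_⟩
  have h3 := mob_den_ne (kap h) (v := x t) (w := u) (by linarith) (by linarith)
  intro h4
  rw [h4, norm_zero] at h3
  linarith

theorem Uf_pull (h : PF α κ s₀ s₁ L K E₀ C w Ψ d X)
    (T : TLoc α κ s₀ s₁ K E₀ C t₀ δ Ψ d X x τ X₀ ψ₀ d₀) {t : ℝ}
    (ht : t ∈ Ici (0 : ℝ) ∩ Ioo (t₀ - δ) (t₀ + δ)) {u : ℂ} (hu : ‖u‖ < 2 * s₀) :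
    Uf (Ψ t) (d t) (τ t * u) = τ t * Uh κ x ψ₀ d₀ t u := by
  obtain ⟨ht1, ht2⟩ := mem_iff.1 ht
  have hs := K2a.s₀_pos h
  have hx := (T.x_le t ht1 ht2).le
  have hc := cf_pos h T ht
  have hc' : (cf κ x t : ℂ) ≠ 0 := by exact_mod_cast hc.ne'
  have hτ : ‖τ t‖ = 1 := T.τ_norm t
  obtain ⟨hT, hD⟩ := T_hasDerivAt h T ht hu
  have hτu : τ t * u ∈ Metric.ball (0 : ℂ) (4 * s₀) := by
    rw [mem_ball_zero_iff, norm_mul, hτ]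
    linarith
  have hm := mob_mem h hx hu
  -- the stream functions
  have e1 : (fun v => Ψ t (τ t * v)) =ᶠ[𝓝 u] fun v => ψ₀ t (mob κ (x t) v) := by
    filter_upwards [Metric.isOpen_ball.mem_nhds (mem_ball_zero_iff.2 hu)] with v hv
    exact T.Ψ_eq t ht1 ht2 v hv
  have hΨ : DifferentiableAt ℝ (Ψ t) (τ t * u) :=
    ((h.Ψ_c2 t ht1).differentiableOn two_ne_zero).differentiableAt (Metric.isOpen_ball.mem_nhds hτu)
  have hψ : DifferentiableAt ℝ (ψ₀ t) (mob κ (x t) u) :=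
    ((T.ψ₀_c2 t ht1 ht2).differentiableOn two_ne_zero).differentiableAt
      (Metric.isOpen_ball.mem_nhds hm)
  have e2 : perp (fun v => Ψ t (τ t * v)) u = (starRingEnd ℂ) (τ t) * perp (Ψ t) (τ t * u) := by
    have h1 : HasDerivAt (fun v : ℂ => τ t * v) (τ t) u := by
      simpa using (hasDerivAt_id u).const_mul (τ t)
    exact perp_comp h1 hΨ
  have e3 := perp_comp hT hψ
  have e4 : perp (fun v => Ψ t (τ t * v)) u = perp (fun v => ψ₀ t (mob κ (x t) v)) u := by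
    unfold perp dx dy
    rw [e1.fderiv_eq]
  have hττ : τ t * (starRingEnd ℂ) (τ t) = 1 := by
    rw [Complex.mul_conj, Complex.normSq_eq_norm_sq, hτ]
    norm_num
  have e5 : perp (Ψ t) (τ t * u) =
      τ t * ((starRingEnd ℂ) ((cf κ x t : ℂ) / (1 - κ * (starRingEnd ℂ) (x t) * u) ^ 2) *
        perp (ψ₀ t) (mob κ (x t) u)) := by
    rw [← e3, ← e4, e2, ← mul_assoc, hττ, one_mul]
  have e6 := T.d_eq t ht1 ht2 u (mem_ball_zero_iff.2 hu)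
  have hd₀ := d₀_pos h T hm
  -- the computation
  have e7 : (((d t (τ t * u))⁻¹ : ℝ) : ℂ) *
      (starRingEnd ℂ) ((cf κ x t : ℂ) / (1 - κ * (starRingEnd ℂ) (x t) * u) ^ 2) =
      (((d₀ (mob κ (x t) u))⁻¹ : ℝ) : ℂ) *
        ((1 - κ * (starRingEnd ℂ) (x t) * u) ^ 2 * (cf κ x t : ℂ)⁻¹) := by
    have h1 : d t (τ t * u) = d₀ (mob κ (x t) u) * cf κ x t ^ 2 /
        ‖1 - κ * (starRingEnd ℂ) (x t) * u‖ ^ 4 := e6
    rw [h1]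
    set D := 1 - (κ : ℂ) * (starRingEnd ℂ) (x t) * u with hDdef
    have h2 : ((‖D‖ : ℝ) : ℂ) ^ 2 = D * (starRingEnd ℂ) D := by
      rw [Complex.mul_conj, Complex.normSq_eq_norm_sq]
      push_cast
      ring
    have h3 : (starRingEnd ℂ) D ≠ 0 := by
      rw [Ne, map_eq_zero]
      exact hD
    have h4 : (d₀ (mob κ (x t) u) : ℂ) ≠ 0 := by exact_mod_cast hd₀.ne'
    rw [map_div₀, map_pow, Complex.conj_ofReal]
    push_cast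
    have h5 : ((‖D‖ : ℝ) : ℂ) ^ 4 = (D * (starRingEnd ℂ) D) ^ 2 := by
      rw [← h2]
      ring
    rw [h5]
    field_simp
  unfold Uf Uh
  rw [e5, Complex.real_smul]
  have e8 : Uf (ψ₀ t) d₀ (mob κ (x t) u) =
      (((d₀ (mob κ (x t) u))⁻¹ : ℝ) : ℂ) * perp (ψ₀ t) (mob κ (x t) u) := by
    unfold Uf
    rw [Complex.real_smul]
  rw [e8]
  linear_combination (τ t * perp (ψ₀ t) (mob κ (x t) u)) * e7

theorem Uh_zero (t : ℝ) : Uh κ x ψ₀ d₀ t 0 = Uf (ψ₀ t) d₀ (x t) * (cf κ x t : ℂ)⁻¹ := by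
  unfold Uh
  rw [mob_zero_right, mul_zero, sub_zero, one_pow, one_mul]

/-- the derivative of the velocity in the moving chart -/
theorem fderiv_Uf (hα : 0 < α) (hα1 : α < 1) (h : PF α κ s₀ s₁ L K E₀ C w Ψ d X)
    (T : TLoc α κ s₀ s₁ K E₀ C t₀ δ Ψ d X x τ X₀ ψ₀ d₀) {t : ℝ}
    (ht : t ∈ Ici (0 : ℝ) ∩ Ioo (t₀ - δ) (t₀ + δ)) (v : ℂ) :
    fderiv ℝ (Uf (Ψ t) (d t)) 0 (τ t * v) =
      τ t * (fderiv ℝ (Uf (ψ₀ t) d₀) (x t) v -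
        2 * κ * (starRingEnd ℂ) (x t) * (cf κ x t : ℂ)⁻¹ * v * Uf (ψ₀ t) d₀ (x t)) := by
  obtain ⟨ht1, ht2⟩ := mem_iff.1 ht
  have hs := K2a.s₀_pos h
  have hx := x_lt h T ht
  have hc := cf_pos h T ht
  have hc' : (cf κ x t : ℂ) ≠ 0 := by exact_mod_cast hc.ne'
  have hτ : ‖τ t‖ = 1 := T.τ_norm t
  have hττ : τ t * (starRingEnd ℂ) (τ t) = 1 := by
    rw [Complex.mul_conj, Complex.normSq_eq_norm_sq, hτ]
    norm_num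
  have h0 : ‖(0 : ℂ)‖ < 2 * s₀ := by
    rw [norm_zero]
    linarith
  obtain ⟨C', hC'⟩ := U_exp hα hα1 h T
  have hU : DifferentiableAt ℝ (Uf (ψ₀ t) d₀) (x t) :=
    (hC' t ht1 ht2 (x t) (mem_ball_zero_iff.2 (by linarith))).1
  -- derivative of `Uh` at `0`
  obtain ⟨hT, -⟩ := T_hasDerivAt h T ht h0
  rw [mul_zero, sub_zero, one_pow, div_one] at hT
  obtain ⟨A, hA, hA'⟩ := hasFDerivAt_real hT
  have hU' : HasFDerivAt (Uf (ψ₀ t) d₀) (fderiv ℝ (Uf (ψ₀ t) d₀) (x t)) (mob κ (x t) 0) := by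
    rw [mob_zero_right]
    exact hU.hasFDerivAt
  have h1 : HasFDerivAt (fun u => Uf (ψ₀ t) d₀ (mob κ (x t) u))
      ((fderiv ℝ (Uf (ψ₀ t) d₀) (x t)).comp A) 0 := hU'.comp (0 : ℂ) hA
  have hB : HasDerivAt (fun u : ℂ => (1 - κ * (starRingEnd ℂ) (x t) * u) ^ 2 * (cf κ x t : ℂ)⁻¹)
      (-(2 * κ * (starRingEnd ℂ) (x t)) * (cf κ x t : ℂ)⁻¹) 0 := by
    have h2 : HasDerivAt (fun u : ℂ => 1 - (κ : ℂ) * (starRingEnd ℂ) (x t) * u)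
        (-((κ : ℂ) * (starRingEnd ℂ) (x t) * 1)) 0 :=
      ((hasDerivAt_id (0 : ℂ)).const_mul _).const_sub 1
    have h3 := (h2.pow 2).mul_const ((cf κ x t : ℂ)⁻¹)
    have h4 : (((2 : ℕ) : ℂ) * (1 - (κ : ℂ) * (starRingEnd ℂ) (x t) * 0) ^ (2 - 1) *
        -((κ : ℂ) * (starRingEnd ℂ) (x t) * 1)) * (cf κ x t : ℂ)⁻¹ =
        -(2 * κ * (starRingEnd ℂ) (x t)) * (cf κ x t : ℂ)⁻¹ := by
      push_cast
      ring
    rw [h4] at h3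
    exact h3
  obtain ⟨B, hB, hB'⟩ := hasFDerivAt_real hB
  have h5 := h1.mul hB
  obtain ⟨G, hG, hGv⟩ : ∃ G : ℂ →L[ℝ] ℂ, HasFDerivAt (Uh κ x ψ₀ d₀ t) G 0 ∧
      ∀ v, G v = fderiv ℝ (Uf (ψ₀ t) d₀) (x t) v -
        2 * κ * (starRingEnd ℂ) (x t) * (cf κ x t : ℂ)⁻¹ * v * Uf (ψ₀ t) d₀ (x t) := by
    refine ⟨_, h5, fun v => ?_⟩
    have hAv : A v = (cf κ x t) • v := by
      rw [hA', Complex.real_smul]
    have hBv := hB' v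
    have hC : ∀ y : ℂ, fderiv ℝ (Uf (ψ₀ t) d₀) (x t) ((cf κ x t) • y) =
        (cf κ x t : ℂ) * fderiv ℝ (Uf (ψ₀ t) d₀) (x t) y := fun y => by
      rw [map_smul, Complex.real_smul]
    change Uf (ψ₀ t) d₀ (mob κ (x t) 0) * B v +
      ((1 - (κ : ℂ) * (starRingEnd ℂ) (x t) * 0) ^ 2 * (cf κ x t : ℂ)⁻¹) *
        fderiv ℝ (Uf (ψ₀ t) d₀) (x t) (A v) = _
    rw [hAv, hC, hBv, mob_zero_right]
    field_simp
    ring
  -- `Uf (Ψ t) (d t)` near `0`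
  have h6 : Uf (Ψ t) (d t) =ᶠ[𝓝 0] fun w => τ t * Uh κ x ψ₀ d₀ t ((starRingEnd ℂ) (τ t) * w) := by
    have hb : Metric.ball (0 : ℂ) (2 * s₀) ∈ 𝓝 (0 : ℂ) := Metric.ball_mem_nhds _ (by linarith)
    filter_upwards [hb] with w hw
    have h7 : ‖(starRingEnd ℂ) (τ t) * w‖ < 2 * s₀ := by
      rw [norm_mul, RCLike.norm_conj, hτ, one_mul]
      exact mem_ball_zero_iff.1 hw
    rw [← Uf_pull h T ht h7, ← mul_assoc, hττ, one_mul]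
  have hcm : HasDerivAt (fun w : ℂ => (starRingEnd ℂ) (τ t) * w) ((starRingEnd ℂ) (τ t)) 0 := by
    simpa using (hasDerivAt_id (0 : ℂ)).const_mul ((starRingEnd ℂ) (τ t))
  obtain ⟨R, hR, hR'⟩ := hasFDerivAt_real hcm
  have h9 : HasFDerivAt (Uh κ x ψ₀ d₀ t) G ((starRingEnd ℂ) (τ t) * 0) := by
    rw [mul_zero]
    exact hG
  have h8 := h9.comp (0 : ℂ) hR
  have h10 := h8.const_mul (τ t)
  have h11 : fderiv ℝ (Uf (Ψ t) (d t)) 0 = τ t • (G.comp R) := by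
    rw [h6.fderiv_eq]
    exact h10.fderiv
  rw [h11]
  have hτv : R (τ t * v) = v := by
    rw [hR', ← mul_assoc, mul_comm ((starRingEnd ℂ) (τ t)), hττ, one_mul]
  change τ t * G (R (τ t * v)) = _
  rw [hτv, hGv]

/-- the relative velocity in terms of the chart at a fixed time -/
theorem Vf_eq (hα : 0 < α) (hα1 : α < 1) (hσ : ‖σ‖ = 1) (h : PF α κ s₀ s₁ L K E₀ C w Ψ d X)
    (T : TLoc α κ s₀ s₁ K E₀ C t₀ δ Ψ d X x τ X₀ ψ₀ d₀) {t : ℝ}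
    (ht : t ∈ Ici (0 : ℝ) ∩ Ioo (t₀ - δ) (t₀ + δ)) {z u : ℂ}
    (hu : u = (cf κ x t : ℂ)⁻¹ * lmap (pf X₀ σ t) (qf X₀ σ t) z) (hu2 : ‖u‖ < 2 * s₀) :
    Vf κ (Ψ t) (d t) (pf X σ t) (qf X σ t) z = ginv (pf X₀ σ t) (qf X₀ σ t)
      (cf κ x t * (Uh κ x ψ₀ d₀ t u - Uh κ x ψ₀ d₀ t 0 -
        κ * (starRingEnd ℂ) (Uh κ x ψ₀ d₀ t 0) * u ^ 2 -
        (fderiv ℝ (Uf (ψ₀ t) d₀) (x t) u -
          2 * κ * (starRingEnd ℂ) (x t) * (cf κ x t : ℂ)⁻¹ * u * Uf (ψ₀ t) d₀ (x t)))) := by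
  have hs := K2a.s₀_pos h
  have h1 := cf_pos h T ht
  have h2 : (cf κ x t : ℂ) ≠ 0 := by exact_mod_cast h1.ne'
  have h3 := sc_ne h T ht
  have h4 := (wed_hat (σ := σ) hσ h T ht).2
  have h0 : ‖(0 : ℂ)‖ < 2 * s₀ := by
    rw [norm_zero]
    linarith
  have hτ : ‖τ t‖ = 1 := T.τ_norm t
  have hττ : τ t * (starRingEnd ℂ) (τ t) = 1 := by
    rw [Complex.mul_conj, Complex.normSq_eq_norm_sq, hτ]
    norm_num
  have e1 : lmap (pf X σ t) (qf X σ t) z = τ t * u := by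
    rw [pf_eq h T ht, qf_eq h T ht, lmap_smul, hu]
    ring
  have e2 : Uf (Ψ t) (d t) 0 = τ t * Uh κ x ψ₀ d₀ t 0 := by
    have h5 := Uf_pull h T ht h0
    rwa [mul_zero] at h5
  unfold Vf
  rw [e1, e2, Uf_pull h T ht hu2, fderiv_Uf hα hα1 h T ht, pf_eq h T ht, qf_eq h T ht,
    ginv_smul' h3 h4]
  congr 1
  have h5 : τ t ≠ 0 := left_ne_zero_of_mul h3
  rw [map_mul]
  have e3 : (κ : ℂ) * ((starRingEnd ℂ) (τ t) * (starRingEnd ℂ) (Uh κ x ψ₀ d₀ t 0)) *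
      (τ t * u) ^ 2 = τ t * (κ * (starRingEnd ℂ) (Uh κ x ψ₀ d₀ t 0) * u ^ 2) := by
    linear_combination (κ * (starRingEnd ℂ) (Uh κ x ψ₀ d₀ t 0) * u ^ 2 * τ t) * hττ
  rw [e3]
  field_simp

end

end K2m

end Pool.Agent.YUS
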