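import Pool.Agent.YUL.Defs

/-!
# [YUS-K2s] Taylor polynomials of functions with bounded jets
-/

open MeasureTheory Set Filter Topology
open scoped ContDiff

namespace Pool.Agent.YUS.K2s

open Pool.Agent.YUD Pool.Agent.YUT Pool.Agent.YUB Pool.Agent.YUR Pool.Agent.YUL

/-- mean value inequality along the ray through `z` -/
theorem ray {R B : ℝ} {f : ℂ → ℝ} {z : ℂ} (hz : ‖z‖ < R)
    (hf : ∀ v, ‖v‖ < R → DifferentiableAt ℝ f v) {p p' : ℝ → ℝ} (hp : ∀ t, HasDerivAt p (p' t) t)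
    (hB : ∀ t ∈ Icc (0 : ℝ) 1, |z.re * dx f (t * z) + z.im * dy f (t * z) - p' t| ≤ B) :
    |f z - f 0 - (p 1 - p 0)| ≤ B := by
  have hd : ∀ t ∈ Icc (0 : ℝ) 1, HasDerivWithinAt (fun t : ℝ => f (t * z) - p t)
      (z.re * dx f (t * z) + z.im * dy f (t * z) - p' t) (Icc 0 1) t := by
    intro t ht
    have h1 : ‖(t : ℂ) * z‖ < R := by
      rw [norm_mul, Complex.norm_real, Real.norm_eq_abs, abs_of_nonneg ht.1]
      nlinarith [norm_nonneg z, ht.2]
    have h2 : HasDerivAt (fun t : ℝ => (t : ℂ) * z) z t := by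
      have := (Complex.ofRealCLM.hasDerivAt (x := t)).mul_const z
      simpa using this
    have h3 := (hf _ h1).hasFDerivAt.comp_hasDerivAt t h2
    have h4 : fderiv ℝ f (t * z) z = z.re * dx f (t * z) + z.im * dy f (t * z) := by
      rw [fderiv_apply']
    rw [h4] at h3
    exact (h3.sub (hp t)).hasDerivWithinAt
  have h := norm_image_sub_le_of_norm_deriv_le_segment_01' hd
    (fun t ht => by rw [Real.norm_eq_abs]; exact hB t ⟨ht.1, ht.2.le⟩)
  simp only [Real.norm_eq_abs, Complex.ofReal_one, one_mul, Complex.ofReal_zero, zero_mul] at h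
  have e : f z - p 1 - (f 0 - p 0) = f z - f 0 - (p 1 - p 0) := by ring
  rwa [e] at h


theorem ray2 {R B : ℝ} {f : ℂ → ℝ} {z : ℂ} (hz : ‖z‖ < R)
    (hf : ∀ v, ‖v‖ < R → DifferentiableAt ℝ f v) {p P Q : ℝ → ℝ}
    (hp : ∀ t, HasDerivAt p (z.re * P t + z.im * Q t) t)
    (hx : ∀ t ∈ Icc (0 : ℝ) 1, |dx f (t * z) - P t| ≤ B)
    (hy : ∀ t ∈ Icc (0 : ℝ) 1, |dy f (t * z) - Q t| ≤ B) :
    |f z - f 0 - (p 1 - p 0)| ≤ 2 * ‖z‖ * B := by
  refine ray hz hf hp fun t ht => ?_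
  have e : z.re * dx f (t * z) + z.im * dy f (t * z) - (z.re * P t + z.im * Q t) =
      z.re * (dx f (t * z) - P t) + z.im * (dy f (t * z) - Q t) := by ring
  rw [e]
  refine (abs_add_le _ _).trans ?_
  rw [abs_mul, abs_mul]
  have h1 := mul_le_mul (Complex.abs_re_le_norm z) (hx t ht) (abs_nonneg _) (norm_nonneg z)
  have h2 := mul_le_mul (Complex.abs_im_le_norm z) (hy t ht) (abs_nonneg _) (norm_nonneg z)
  linarith

theorem norm_smul_le {t : ℝ} (ht : t ∈ Icc (0 : ℝ) 1) (z : ℂ) : ‖(t : ℂ) * z‖ ≤ ‖z‖ := by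
  rw [norm_mul, Complex.norm_real, Real.norm_eq_abs, abs_of_nonneg ht.1]
  nlinarith [norm_nonneg z, ht.2]

theorem taylor0 {R C : ℝ} {f : ℂ → ℝ} (hf : ContDiffOn ℝ 1 f (Metric.ball 0 R))
    (hj : JetLe (Metric.ball 0 R) 1 C f) : ∀ z : ℂ, ‖z‖ < R → |f z - f 0| ≤ 2 * C * ‖z‖ := by
  intro z hz
  have hd : ∀ v : ℂ, ‖v‖ < R → DifferentiableAt ℝ f v := fun v hv =>
    (hf.contDiffAt (Metric.isOpen_ball.mem_nhds (by simpa using hv))).differentiableAt (by norm_num)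
  have h := ray2 (B := C) hz hd (p := fun _ => 0) (P := fun _ => 0) (Q := fun _ => 0)
    (fun t => by simpa using hasDerivAt_const t (0 : ℝ))
    (fun t ht => by
      have := hj.2.1 (t * z) (by simpa using (norm_smul_le ht z).trans_lt hz)
      simpa using this)
    (fun t ht => by
      have := hj.2.2 (t * z) (by simpa using (norm_smul_le ht z).trans_lt hz)
      simpa using this)
  simp only [sub_zero] at h
  linarith

theorem taylor1 {R C : ℝ} {f : ℂ → ℝ} (hf : ContDiffOn ℝ 2 f (Metric.ball 0 R))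
    (hj : JetLe (Metric.ball 0 R) 2 C f) : ∀ z : ℂ, ‖z‖ < R →
      |f z - f 0 - lin ![dx f 0, dy f 0] z| ≤ 4 * C * ‖z‖ ^ 2 := by
  intro z hz
  have hM : IsOpen (Metric.ball (0 : ℂ) R) := Metric.isOpen_ball
  have hd : ∀ v : ℂ, ‖v‖ < R → DifferentiableAt ℝ f v := fun v hv =>
    (hf.contDiffAt (Metric.isOpen_ball.mem_nhds (by simpa using hv))).differentiableAt (by norm_num)
  have hC : 0 ≤ C := (abs_nonneg _).trans (hj.zero_le z (by simpa using hz))
  have hb : ∀ t ∈ Icc (0 : ℝ) 1, 2 * C * ‖(t : ℂ) * z‖ ≤ 2 * C * ‖z‖ := fun t ht =>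
    mul_le_mul_of_nonneg_left (norm_smul_le ht z) (by positivity)
  have h := ray2 (B := 2 * C * ‖z‖) hz hd (p := fun t => t * (z.re * dx f 0 + z.im * dy f 0))
    (P := fun _ => dx f 0) (Q := fun _ => dy f 0)
    (fun t => by simpa using (hasDerivAt_id t).mul_const (z.re * dx f 0 + z.im * dy f 0))
    (fun t ht => (taylor0 (contDiffOn_dx (n := 1) hM hf) hj.2.1 _
      ((norm_smul_le ht z).trans_lt hz)).trans (hb t ht))
    (fun t ht => (taylor0 (contDiffOn_dy (n := 1) hM hf) hj.2.2 _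
      ((norm_smul_le ht z).trans_lt hz)).trans (hb t ht))
  have e : f z - f 0 - lin ![dx f 0, dy f 0] z =
      f z - f 0 - (1 * (z.re * dx f 0 + z.im * dy f 0) - 0 * (z.re * dx f 0 + z.im * dy f 0)) := by
    simp [lin]; ring
  rw [e]
  refine h.trans (le_of_eq ?_)
  ring

theorem lin_smul (l : Fin 2 → ℝ) (t : ℝ) (z : ℂ) : lin l (t * z) = t * lin l z := by
  simp [lin]; ring

theorem qua_smul (q : Fin 3 → ℝ) (t : ℝ) (z : ℂ) : qua q (t * z) = t ^ 2 * qua q z := by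
  simp [qua]; ring

theorem taylor2 {R C : ℝ} {f : ℂ → ℝ} (hf : ContDiffOn ℝ 3 f (Metric.ball 0 R))
    (hR : 0 < R) (hj : JetLe (Metric.ball 0 R) 3 C f) : ∃ q : Fin 3 → ℝ, (∀ i, |q i| ≤ C) ∧
      ∀ z : ℂ, ‖z‖ < R → |f z - f 0 - lin ![dx f 0, dy f 0] z - qua q z| ≤ 8 * C * ‖z‖ ^ 3 := by
  have hM : IsOpen (Metric.ball (0 : ℂ) R) := Metric.isOpen_ball
  have hd : ∀ v : ℂ, ‖v‖ < R → DifferentiableAt ℝ f v := fun v hv =>
    (hf.contDiffAt (Metric.isOpen_ball.mem_nhds (by simpa using hv))).differentiableAt (by norm_num)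
  have h0 : (0 : ℂ) ∈ Metric.ball (0 : ℂ) R := Metric.mem_ball_self hR
  have hC : 0 ≤ C := (abs_nonneg _).trans (hj.zero_le 0 h0)
  have a1 : |dx (dx f) 0| ≤ C := hj.2.1.2.1.zero_le 0 h0
  have a2 : |dy (dx f) 0| ≤ C := hj.2.1.2.2.zero_le 0 h0
  have a3 : |dx (dy f) 0| ≤ C := hj.2.2.2.1.zero_le 0 h0
  have a4 : |dy (dy f) 0| ≤ C := hj.2.2.2.2.zero_le 0 h0
  rw [abs_le] at a1 a2 a3 a4
  refine ⟨![dx (dx f) 0 / 2, (dy (dx f) 0 + dx (dy f) 0) / 2, dy (dy f) 0 / 2], ?_, ?_⟩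
  · intro i
    fin_cases i <;> simp only [Fin.zero_eta, Fin.isValue, Matrix.cons_val_zero, Fin.mk_one,
      Matrix.cons_val_one, Fin.reduceFinMk, Matrix.cons_val] <;> rw [abs_le] <;>
      constructor <;> linarith
  · intro z hz
    have hb : ∀ t ∈ Icc (0 : ℝ) 1, 4 * C * ‖(t : ℂ) * z‖ ^ 2 ≤ 4 * C * ‖z‖ ^ 2 := fun t ht =>
      mul_le_mul_of_nonneg_left (pow_le_pow_left₀ (norm_nonneg _) (norm_smul_le ht z) 2)
        (by positivity)
    have h := ray2 (B := 4 * C * ‖z‖ ^ 2) hz hd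
      (p := fun t => t * (z.re * dx f 0 + z.im * dy f 0) + t ^ 2 *
        ((z.re * lin ![dx (dx f) 0, dy (dx f) 0] z + z.im * lin ![dx (dy f) 0, dy (dy f) 0] z) / 2))
      (P := fun t => dx f 0 + t * lin ![dx (dx f) 0, dy (dx f) 0] z)
      (Q := fun t => dy f 0 + t * lin ![dx (dy f) 0, dy (dy f) 0] z)
      (fun t => by
        have h1 := ((hasDerivAt_id t).mul_const (z.re * dx f 0 + z.im * dy f 0)).add
          ((hasDerivAt_pow 2 t).mul_const ((z.re * lin ![dx (dx f) 0, dy (dx f) 0] z +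
            z.im * lin ![dx (dy f) 0, dy (dy f) 0] z) / 2))
        refine h1.congr_deriv ?_
        simp; ring)
      (fun t ht => by
        have := (taylor1 (contDiffOn_dx (n := 2) hM hf) hj.2.1 _
          ((norm_smul_le ht z).trans_lt hz)).trans (hb t ht)
        rw [lin_smul, sub_sub] at this
        exact this)
      (fun t ht => by
        have := (taylor1 (contDiffOn_dy (n := 2) hM hf) hj.2.2 _
          ((norm_smul_le ht z).trans_lt hz)).trans (hb t ht)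
        rw [lin_smul, sub_sub] at this
        exact this)
    refine le_trans (le_of_eq ?_) (h.trans (le_of_eq ?_))
    · congr 1
      simp [lin, qua]; ring
    · ring

theorem taylor3 {R C : ℝ} {f : ℂ → ℝ} (hf : ContDiffOn ℝ 4 f (Metric.ball 0 R))
    (hR : 0 < R) (hj : JetLe (Metric.ball 0 R) 4 C f) : ∃ (q : Fin 3 → ℝ) (k : Fin 4 → ℝ),
      (∀ i, |q i| ≤ C) ∧ (∀ i, |k i| ≤ C) ∧
      ∀ z : ℂ, ‖z‖ < R →
        |f z - f 0 - lin ![dx f 0, dy f 0] z - qua q z - cub k z| ≤ 16 * C * ‖z‖ ^ 4 := by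
  have hM : IsOpen (Metric.ball (0 : ℂ) R) := Metric.isOpen_ball
  have hd : ∀ v : ℂ, ‖v‖ < R → DifferentiableAt ℝ f v := fun v hv =>
    (hf.contDiffAt (Metric.isOpen_ball.mem_nhds (by simpa using hv))).differentiableAt (by norm_num)
  have h0 : (0 : ℂ) ∈ Metric.ball (0 : ℂ) R := Metric.mem_ball_self hR
  have hC : 0 ≤ C := (abs_nonneg _).trans (hj.zero_le 0 h0)
  have a1 : |dx (dx f) 0| ≤ C := hj.2.1.2.1.zero_le 0 h0
  have a2 : |dy (dx f) 0| ≤ C := hj.2.1.2.2.zero_le 0 h0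
  have a3 : |dx (dy f) 0| ≤ C := hj.2.2.2.1.zero_le 0 h0
  have a4 : |dy (dy f) 0| ≤ C := hj.2.2.2.2.zero_le 0 h0
  rw [abs_le] at a1 a2 a3 a4
  obtain ⟨qx, hqx, hx⟩ := taylor2 (contDiffOn_dx (n := 3) hM hf) hR hj.2.1
  obtain ⟨qy, hqy, hy⟩ := taylor2 (contDiffOn_dy (n := 3) hM hf) hR hj.2.2
  simp only [abs_le] at hqx hqy
  refine ⟨![dx (dx f) 0 / 2, (dy (dx f) 0 + dx (dy f) 0) / 2, dy (dy f) 0 / 2],
    ![qx 0 / 3, (qx 1 + qy 0) / 3, (qx 2 + qy 1) / 3, qy 2 / 3], ?_, ?_, ?_⟩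
  · intro i
    fin_cases i <;> simp only [Fin.zero_eta, Fin.isValue, Matrix.cons_val_zero, Fin.mk_one,
      Matrix.cons_val_one, Fin.reduceFinMk, Matrix.cons_val] <;> rw [abs_le] <;>
      constructor <;> linarith
  · intro i
    have b0 := hqx 0
    have b1 := hqx 1
    have b2 := hqx 2
    have c0 := hqy 0
    have c1 := hqy 1
    have c2 := hqy 2
    fin_cases i <;> simp only [Fin.zero_eta, Fin.isValue, Matrix.cons_val_zero, Fin.mk_one,
      Matrix.cons_val_one, Fin.reduceFinMk, Matrix.cons_val] <;> rw [abs_le] <;>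
      constructor <;> linarith
  · intro z hz
    have hb : ∀ t ∈ Icc (0 : ℝ) 1, 8 * C * ‖(t : ℂ) * z‖ ^ 3 ≤ 8 * C * ‖z‖ ^ 3 := fun t ht =>
      mul_le_mul_of_nonneg_left (pow_le_pow_left₀ (norm_nonneg _) (norm_smul_le ht z) 3)
        (by positivity)
    have h := ray2 (B := 8 * C * ‖z‖ ^ 3) hz hd
      (p := fun t => t * (z.re * dx f 0 + z.im * dy f 0) + t ^ 2 *
        ((z.re * lin ![dx (dx f) 0, dy (dx f) 0] z + z.im * lin ![dx (dy f) 0, dy (dy f) 0] z) / 2) +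
          t ^ 3 * ((z.re * qua qx z + z.im * qua qy z) / 3))
      (P := fun t => dx f 0 + t * lin ![dx (dx f) 0, dy (dx f) 0] z + t ^ 2 * qua qx z)
      (Q := fun t => dy f 0 + t * lin ![dx (dy f) 0, dy (dy f) 0] z + t ^ 2 * qua qy z)
      (fun t => by
        have h1 := (((hasDerivAt_id t).mul_const (z.re * dx f 0 + z.im * dy f 0)).add
          ((hasDerivAt_pow 2 t).mul_const ((z.re * lin ![dx (dx f) 0, dy (dx f) 0] z +
            z.im * lin ![dx (dy f) 0, dy (dy f) 0] z) / 2))).add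
          ((hasDerivAt_pow 3 t).mul_const ((z.re * qua qx z + z.im * qua qy z) / 3))
        refine h1.congr_deriv ?_
        simp; ring)
      (fun t ht => by
        have := (hx _ ((norm_smul_le ht z).trans_lt hz)).trans (hb t ht)
        rw [lin_smul, qua_smul, sub_sub, sub_sub, ← add_assoc] at this
        exact this)
      (fun t ht => by
        have := (hy _ ((norm_smul_le ht z).trans_lt hz)).trans (hb t ht)
        rw [lin_smul, qua_smul, sub_sub, sub_sub, ← add_assoc] at this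
        exact this)
    refine le_trans (le_of_eq ?_) (h.trans (le_of_eq ?_))
    · congr 1
      simp [lin, qua, cub]; ring
    · ring

end Pool.Agent.YUS.K2s
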