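import Pool.Agent.YUS.K2sa
import Pool.Agent.YUR.F1b

/-!
# [YUS-K2s] The algebra of functions with bounded jets of order four
-/

open MeasureTheory Set Filter Topology
open scoped ContDiff

namespace Pool.Agent.YUS.K2s

open Pool.Agent.YUD Pool.Agent.YUT Pool.Agent.YUB Pool.Agent.YUR Pool.Agent.YUL

/-- jets of the composition with a linear map -/
theorem jet_comp {p q : ℂ} {L : ℝ} (hL : 1 ≤ L) (hp : ‖p‖ ≤ L) (hq : ‖q‖ ≤ L) {M N : Set ℂ}
    (hM : IsOpen M) (hN : IsOpen N) (hmap : ∀ z ∈ N, lmap p q z ∈ M) {n : ℕ} :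
    ∀ {C : ℝ} {f : ℂ → ℝ}, 0 ≤ C → ContDiffOn ℝ n f M → JetLe M n C f →
      JetLe N n ((2 * L) ^ n * C) (fun z => f (lmap p q z)) := by
  induction n with
  | zero => intro C f hC hf h z hz; simpa using h _ (hmap z hz)
  | succ n ih =>
    intro C f hC hf h
    obtain ⟨A, hA, hA1, hAI, -⟩ := lmap_facts p q
    have hlin : ∀ z, HasFDerivAt (fun z => lmap p q z) A z := by
      intro z
      have := A.hasFDerivAt (x := z)
      exact this.congr_of_eventuallyEq (Eventually.of_forall fun z => (hA z).symm)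
    have hLc : ContDiff ℝ ∞ (fun z => lmap p q z) := by
      have e : (fun z => lmap p q z) = A := funext fun z => (hA z).symm
      rw [e]; exact A.contDiff
    have hcomp : ∀ {m : ℕ} {g : ℂ → ℝ}, ContDiffOn ℝ m g M →
        ContDiffOn ℝ m (fun z => g (lmap p q z)) N := fun {m g} hg =>
      hg.comp ((hLc.of_le (by exact_mod_cast le_top)).contDiffOn) fun z hz => hmap z hz
    have hd : ∀ z ∈ N, HasFDerivAt (fun z => f (lmap p q z)) ((fderiv ℝ f (lmap p q z)).comp A) z :=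
      fun z hz => (dat hM hf (hmap z hz)).hasFDerivAt.comp z (hlin z)
    have ex : ∀ z ∈ N, dx (fun z => f (lmap p q z)) z =
        p.re * dx f (lmap p q z) + p.im * dy f (lmap p q z) := by
      intro z hz
      unfold dx
      rw [(hd z hz).fderiv, ContinuousLinearMap.comp_apply, hA1, fderiv_apply']
      rfl
    have ey : ∀ z ∈ N, dy (fun z => f (lmap p q z)) z =
        q.re * dx f (lmap p q z) + q.im * dy f (lmap p q z) := by
      intro z hz
      unfold dy
      rw [(hd z hz).fderiv, ContinuousLinearMap.comp_apply, hAI, fderiv_apply']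
      rfl
    have hfx := contDiffOn_dx hM hf
    have hfy := contDiffOn_dy hM hf
    have hx := ih hC hfx h.2.1
    have hy := ih hC hfy h.2.2
    have hL0 : 0 ≤ (2 * L) ^ n * C := by positivity
    have key : ∀ w : ℂ, ‖w‖ ≤ L →
        JetLe N n ((2 * L) ^ (n + 1) * C) (fun z => w.re * dx f (lmap p q z) +
          w.im * dy f (lmap p q z)) := by
      intro w hw
      have h1 := (hx.const_mul hN w.re (hcomp hfx)).add hN ((hcomp hfx).const_smul w.re)
        ((hcomp hfy).const_smul w.im) (hy.const_mul hN w.im (hcomp hfy))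
      refine h1.mono ?_
      have a1 := (Complex.abs_re_le_norm w).trans hw
      have a2 := (Complex.abs_im_le_norm w).trans hw
      have a3 : (2 * L) ^ (n + 1) * C = L * ((2 * L) ^ n * C) + L * ((2 * L) ^ n * C) := by ring
      rw [a3]
      exact add_le_add (mul_le_mul_of_nonneg_right a1 hL0) (mul_le_mul_of_nonneg_right a2 hL0)
    refine ⟨fun z hz => ?_, ?_, ?_⟩
    · refine (h.1 _ (hmap z hz)).trans ?_
      have : (1 : ℝ) ≤ (2 * L) ^ (n + 1) := one_le_pow₀ (by linarith)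
      nlinarith
    · exact (key p hp).congr hN fun z hz => (ex z hz).symm
    · exact (key q hq).congr hN fun z hz => (ey z hz).symm

/-- bounded jets of order four -/
structure Sm (N : Set ℂ) (C : ℝ) (f : ℂ → ℝ) : Prop where
  smooth : ContDiffOn ℝ 4 f N
  jet : JetLe N 4 C f
  nonneg : 0 ≤ C

theorem Sm.mono {N : Set ℂ} {A B : ℝ} {f : ℂ → ℝ} (h : Sm N A f) (hAB : A ≤ B) : Sm N B f :=
  ⟨h.smooth, h.jet.mono hAB, h.nonneg.trans hAB⟩

theorem Sm.congr {N : Set ℂ} (hN : IsOpen N) {A : ℝ} {f g : ℂ → ℝ} (h : Sm N A f)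
    (hfg : ∀ x ∈ N, f x = g x) : Sm N A g :=
  ⟨h.smooth.congr fun x hx => (hfg x hx).symm, h.jet.congr hN hfg, h.nonneg⟩

theorem Sm.const {N : Set ℂ} {c B : ℝ} (h : |c| ≤ B) : Sm N B (fun _ => c) :=
  ⟨contDiffOn_const, (jetLe_const 4 c).mono h, (abs_nonneg _).trans h⟩

theorem Sm.add {N : Set ℂ} (hN : IsOpen N) {A B : ℝ} {f g : ℂ → ℝ} (hf : Sm N A f)
    (hg : Sm N B g) : Sm N (A + B) (fun x => f x + g x) :=
  ⟨hf.smooth.add hg.smooth, hf.jet.add hN hf.smooth hg.smooth hg.jet, add_nonneg hf.nonneg hg.nonneg⟩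

theorem Sm.neg {N : Set ℂ} (hN : IsOpen N) {A : ℝ} {f : ℂ → ℝ} (hf : Sm N A f) :
    Sm N A (fun x => - f x) :=
  ⟨hf.smooth.neg, hf.jet.neg hN, hf.nonneg⟩

theorem Sm.sub {N : Set ℂ} (hN : IsOpen N) {A B : ℝ} {f g : ℂ → ℝ} (hf : Sm N A f)
    (hg : Sm N B g) : Sm N (A + B) (fun x => f x - g x) :=
  ⟨hf.smooth.sub hg.smooth, hf.jet.sub hN hf.smooth hg.smooth hg.jet, add_nonneg hf.nonneg hg.nonneg⟩

theorem Sm.mul {N : Set ℂ} (hN : IsOpen N) {A B : ℝ} {f g : ℂ → ℝ} (hf : Sm N A f)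
    (hg : Sm N B g) : Sm N (16 * A * B) (fun x => f x * g x) := by
  have h := hf.jet.mul hN hf.smooth hg.smooth hg.jet
  refine ⟨hf.smooth.mul hg.smooth, ?_, mul_nonneg (mul_nonneg (by norm_num) hf.nonneg) hg.nonneg⟩
  norm_num at h
  exact h

theorem jet_zero {N : Set ℂ} {n : ℕ} {C : ℝ} (hC : 0 ≤ C) : JetLe N n C (fun _ => (0 : ℝ)) := by
  have := jetLe_const (M := N) n 0
  rw [abs_zero] at this
  exact this.mono hC

theorem jet_one {N : Set ℂ} {n : ℕ} {C : ℝ} (hC : 1 ≤ C) : JetLe N n C (fun _ => (1 : ℝ)) := by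
  have := jetLe_const (M := N) n 1
  rw [abs_one] at this
  exact this.mono hC

theorem Sm.reId {R : ℝ} (hR : 0 < R) : Sm (Metric.ball 0 R) (R + 1) (fun z : ℂ => z.re) := by
  have e1 : dx (fun z : ℂ => z.re) = fun _ => 1 := by
    funext z
    unfold dx
    have : HasFDerivAt (fun z : ℂ => z.re) Complex.reCLM z := Complex.reCLM.hasFDerivAt
    rw [this.fderiv]; simp
  have e2 : dy (fun z : ℂ => z.re) = fun _ => 0 := by
    funext z
    unfold dy
    have : HasFDerivAt (fun z : ℂ => z.re) Complex.reCLM z := Complex.reCLM.hasFDerivAt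
    rw [this.fderiv]; simp
  refine ⟨(Complex.reCLM.contDiff (n := 4)).contDiffOn, ⟨?_, ?_, ?_⟩, by linarith⟩
  · intro z hz
    have hz' : ‖z‖ < R := by simpa using hz
    exact (Complex.abs_re_le_norm z).trans (by linarith)
  · rw [e1]; exact jet_one (by linarith)
  · rw [e2]; exact jet_zero (by linarith)

theorem Sm.imId {R : ℝ} (hR : 0 < R) : Sm (Metric.ball 0 R) (R + 1) (fun z : ℂ => z.im) := by
  have e1 : dx (fun z : ℂ => z.im) = fun _ => 0 := by
    funext z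
    unfold dx
    have : HasFDerivAt (fun z : ℂ => z.im) Complex.imCLM z := Complex.imCLM.hasFDerivAt
    rw [this.fderiv]; simp
  have e2 : dy (fun z : ℂ => z.im) = fun _ => 1 := by
    funext z
    unfold dy
    have : HasFDerivAt (fun z : ℂ => z.im) Complex.imCLM z := Complex.imCLM.hasFDerivAt
    rw [this.fderiv]; simp
  refine ⟨(Complex.imCLM.contDiff (n := 4)).contDiffOn, ⟨?_, ?_, ?_⟩, by linarith⟩
  · intro z hz
    have hz' : ‖z‖ < R := by simpa using hz
    exact (Complex.abs_im_le_norm z).trans (by linarith)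
  · rw [e1]; exact jet_zero (by linarith)
  · rw [e2]; exact jet_one (by linarith)

/-- complex valued functions with bounded jets of order four -/
structure SmC (N : Set ℂ) (C : ℝ) (F : ℂ → ℂ) : Prop where
  re : Sm N C (fun z => (F z).re)
  im : Sm N C (fun z => (F z).im)

theorem SmC.congr {N : Set ℂ} (hN : IsOpen N) {A : ℝ} {f g : ℂ → ℂ} (h : SmC N A f)
    (hfg : ∀ x ∈ N, f x = g x) : SmC N A g :=
  ⟨h.re.congr hN fun x hx => by rw [hfg x hx], h.im.congr hN fun x hx => by rw [hfg x hx]⟩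

theorem SmC.mono {N : Set ℂ} {A B : ℝ} {f : ℂ → ℂ} (h : SmC N A f) (hAB : A ≤ B) : SmC N B f :=
  ⟨h.re.mono hAB, h.im.mono hAB⟩

theorem SmC.const {N : Set ℂ} {c : ℂ} {B : ℝ} (h : ‖c‖ ≤ B) : SmC N B (fun _ => c) :=
  ⟨Sm.const ((Complex.abs_re_le_norm c).trans h), Sm.const ((Complex.abs_im_le_norm c).trans h)⟩

theorem SmC.ofReal {N : Set ℂ} {B : ℝ} {f : ℂ → ℝ} (h : Sm N B f) :
    SmC N B (fun z => ((f z : ℝ) : ℂ)) :=
  ⟨by simpa using h, by simpa using Sm.const (N := N) (by simpa using h.nonneg : |(0 : ℝ)| ≤ B)⟩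

theorem SmC.add {N : Set ℂ} (hN : IsOpen N) {A B : ℝ} {f g : ℂ → ℂ} (hf : SmC N A f)
    (hg : SmC N B g) : SmC N (A + B) (fun x => f x + g x) :=
  ⟨by simpa using hf.re.add hN hg.re, by simpa using hf.im.add hN hg.im⟩

theorem SmC.sub {N : Set ℂ} (hN : IsOpen N) {A B : ℝ} {f g : ℂ → ℂ} (hf : SmC N A f)
    (hg : SmC N B g) : SmC N (A + B) (fun x => f x - g x) :=
  ⟨by simpa using hf.re.sub hN hg.re, by simpa using hf.im.sub hN hg.im⟩

theorem SmC.mul {N : Set ℂ} (hN : IsOpen N) {A B : ℝ} {f g : ℂ → ℂ} (hf : SmC N A f)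
    (hg : SmC N B g) : SmC N (16 * A * B + 16 * A * B) (fun x => f x * g x) :=
  ⟨by simpa using (hf.re.mul hN hg.re).sub hN (hf.im.mul hN hg.im),
    by simpa using (hf.re.mul hN hg.im).add hN (hf.im.mul hN hg.re)⟩

theorem SmC.conj {N : Set ℂ} (hN : IsOpen N) {A : ℝ} {f : ℂ → ℂ} (hf : SmC N A f) :
    SmC N A (fun x => (starRingEnd ℂ) (f x)) :=
  ⟨by simpa using hf.re, by simpa using hf.im.neg hN⟩

theorem SmC.lmap {R : ℝ} (hR : 0 < R) {p q : ℂ} {L : ℝ} (hp : ‖p‖ ≤ L) (hq : ‖q‖ ≤ L) :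
    SmC (Metric.ball 0 R) (16 * (R + 1) * L + 16 * (R + 1) * L +
      (16 * (R + 1) * L + 16 * (R + 1) * L)) (fun z => lmap p q z) := by
  have hN : IsOpen (Metric.ball (0 : ℂ) R) := Metric.isOpen_ball
  exact ((SmC.ofReal (Sm.reId hR)).mul hN (SmC.const hp)).add hN
    ((SmC.ofReal (Sm.imId hR)).mul hN (SmC.const hq))

theorem SmC.linv {N : Set ℂ} (hN : IsOpen N) {A : ℝ} {f : ℂ → ℂ} (hf : SmC N A f) {p q : ℂ}
    {L : ℝ} (hp : ‖p‖ ≤ L) (hq : ‖q‖ ≤ L) :
    SmC N (16 * A * L + 16 * A * L) (fun z => linv p q (f z)) := by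
  have p1 := (Complex.abs_re_le_norm p).trans hp
  have p2 := (Complex.abs_im_le_norm p).trans hp
  have q1 := (Complex.abs_re_le_norm q).trans hq
  have q2 := (Complex.abs_im_le_norm q).trans hq
  have h1 := (hf.re.mul hN (Sm.const q2)).sub hN (hf.im.mul hN (Sm.const q1))
  have h2 := (hf.im.mul hN (Sm.const p1)).sub hN (hf.re.mul hN (Sm.const p2))
  exact ⟨h1.congr hN fun z _ => by simp [YUR.linv, wed], h2.congr hN fun z _ => by
    simp [YUR.linv, wed]; ring⟩

end Pool.Agent.YUS.K2s
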