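import Pool.Agent.YUS.Defs

/-!
# [YUS] Particle frames

The flow on a surface near one particle, seen in the charts centred at the particle: only functions on
balls of the plane are left. This is the interface between the geometry and the local analysis.
-/

open MeasureTheory Set Filter Topology
open scoped ContDiff

namespace Pool.Agent.YUS

open Pool.Agent.YUD Pool.Agent.YUT Pool.Agent.YUB Pool.Agent.YUR Pool.Agent.YUL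

/-- The charts at the times near `t₀`, in terms of the chart at the time `t₀`: `x t` is the particle, `X₀ t` the
flow, `ψ₀ t` the stream function, `d₀` the density in the fixed chart; `τ t` is a rotation. -/
structure TLoc (α κ s₀ s₁ K E₀ C t₀ δ : ℝ) (Ψ d : ℝ → ℂ → ℝ) (X : ℝ → ℂ → ℂ) (x τ : ℝ → ℂ)
    (X₀ : ℝ → ℂ → ℂ) (ψ₀ : ℝ → ℂ → ℝ) (d₀ : ℂ → ℝ) : Prop where
  δ_pos : 0 < δ
  x_zero : x t₀ = 0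
  τ_one : τ t₀ = 1
  τ_norm : ∀ t, ‖τ t‖ = 1
  x_le : ∀ t, 0 ≤ t → |t - t₀| < δ → ‖x t‖ < s₀ / 8
  X₀_zero : ∀ t, 0 ≤ t → |t - t₀| < δ → X₀ t 0 = x t
  X₀_c1 : ContDiffOn ℝ 1 (fun z : ℝ × ℂ => X₀ z.1 z.2)
    ((Ici 0 ∩ Ioo (t₀ - δ) (t₀ + δ)) ×ˢ Metric.ball 0 s₁)
  X₀_mem : ∀ t, 0 ≤ t → |t - t₀| < δ → ∀ v ∈ Metric.ball (0 : ℂ) s₁,
    X₀ t v ∈ Metric.ball (0 : ℂ) (2 * s₀)
  ψ₀_c2 : ∀ t, 0 ≤ t → |t - t₀| < δ → ContDiffOn ℝ 2 (ψ₀ t) (Metric.ball 0 (4 * s₀))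
  ψ₀_cont : ContinuousOn (fun z : ℝ × ℂ => fderiv ℝ (ψ₀ z.1) z.2)
    ((Ici 0 ∩ Ioo (t₀ - δ) (t₀ + δ)) ×ˢ Metric.ball 0 (4 * s₀))
  dψ₀_le : ∀ t, 0 ≤ t → |t - t₀| < δ → ∀ v ∈ Metric.ball (0 : ℂ) (4 * s₀),
    ‖fderiv ℝ (ψ₀ t) v‖ ≤ E₀
  norm₀ : ∀ t, 0 ≤ t → |t - t₀| < δ →
    NormLe (Metric.ball 0 (4 * s₀)) α K (fun v => lap (ψ₀ t) v / d₀ v)
  d₀_smooth : ContDiffOn ℝ ∞ d₀ (Metric.ball 0 (4 * s₀))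
  d₀_jet : JetLe (Metric.ball 0 (4 * s₀)) 4 C d₀
  d₀_lo : ∀ v ∈ Metric.ball (0 : ℂ) (4 * s₀), 1 ≤ C * d₀ v
  ode : ∀ t, 0 ≤ t → |t - t₀| < δ → ∀ v ∈ Metric.ball (0 : ℂ) s₁,
    HasDerivWithinAt (fun t' => X₀ t' v) ((d₀ (X₀ t v))⁻¹ • perp (ψ₀ t) (X₀ t v)) (Ici 0) t
  Ψ_eq : ∀ t, 0 ≤ t → |t - t₀| < δ → ∀ u ∈ Metric.ball (0 : ℂ) (2 * s₀),
    Ψ t (τ t * u) = ψ₀ t (mob κ (x t) u)
  X_eq : ∀ t, 0 ≤ t → |t - t₀| < δ → ∀ v ∈ Metric.ball (0 : ℂ) s₁,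
    X t v = τ t * mob κ (-x t) (X₀ t v)
  d_eq : ∀ t, 0 ≤ t → |t - t₀| < δ → ∀ u ∈ Metric.ball (0 : ℂ) (2 * s₀),
    d t (τ t * u) = d₀ (mob κ (x t) u) * (1 + κ * ‖x t‖ ^ 2) ^ 2 /
      ‖1 - κ * (starRingEnd ℂ) (x t) * u‖ ^ 4

/-- The flow near a particle in the moving charts: `Ψ t` the stream function, `d t` the density, `X t` the
flow from the initial chart to the chart at time `t`, `w` the initial vorticity. The labels are in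
`ball 0 s₁`, the moving charts contain `ball 0 (4 s₀)`. -/
structure PF (α κ s₀ s₁ L K E₀ C : ℝ) (w : ℂ → ℝ) (Ψ d : ℝ → ℂ → ℝ) (X : ℝ → ℂ → ℂ) : Prop where
  s₁_pos : 0 < s₁
  L_le : 1 ≤ L
  s_le : L * s₁ ≤ s₀
  κ_le : |κ| * (8 * s₀) ^ 2 ≤ 1
  C_le : 1 ≤ C
  E₀_nonneg : 0 ≤ E₀
  w_c1 : ContDiffOn ℝ 1 w (Metric.ball 0 s₁)
  Ψ_c2 : ∀ t, 0 ≤ t → ContDiffOn ℝ 2 (Ψ t) (Metric.ball 0 (4 * s₀))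
  dΨ_le : ∀ t, 0 ≤ t → ∀ v ∈ Metric.ball (0 : ℂ) (4 * s₀), ‖fderiv ℝ (Ψ t) v‖ ≤ E₀
  norm : ∀ t, 0 ≤ t → NormLe (Metric.ball 0 (4 * s₀)) α K (fun v => lap (Ψ t) v / d t v)
  d_smooth : ∀ t, 0 ≤ t → ContDiffOn ℝ ∞ (d t) (Metric.ball 0 (4 * s₀))
  d_jet : ∀ t, 0 ≤ t → JetLe (Metric.ball 0 (4 * s₀)) 4 C (d t)
  d_lo : ∀ t, 0 ≤ t → ∀ v ∈ Metric.ball (0 : ℂ) (4 * s₀), 1 ≤ C * d t v
  X_c1 : ∀ t, 0 ≤ t → ContDiffOn ℝ 1 (X t) (Metric.ball 0 s₁)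
  X_zero : ∀ t, 0 ≤ t → X t 0 = 0
  X_start : ∀ v ∈ Metric.ball (0 : ℂ) s₁, X 0 v = v
  X_lip : ∀ t, 0 ≤ t → ∀ v ∈ Metric.ball (0 : ℂ) s₁, ‖fderiv ℝ (X t) v‖ ≤ L
  X_inj : ∀ t, 0 ≤ t → InjOn (X t) (Metric.ball 0 s₁)
  X_image : ∀ t, 0 ≤ t → ∀ r, 0 < r → r ≤ s₁ →
    Metric.ball 0 (r / L) ⊆ X t '' Metric.ball 0 r
  area : ∀ t, 0 ≤ t → ∀ v ∈ Metric.ball (0 : ℂ) s₁, (fderiv ℝ (X t) v).det * d t (X t v) = d 0 v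
  vort : ∀ t, 0 ≤ t → ∀ v ∈ Metric.ball (0 : ℂ) s₁, lap (Ψ t) (X t v) = d t (X t v) * w v
  tloc : ∀ t₀, 0 ≤ t₀ → ∃ (δ : ℝ) (x τ : ℝ → ℂ) (X₀ : ℝ → ℂ → ℂ) (ψ₀ : ℝ → ℂ → ℝ) (d₀ : ℂ → ℝ),
    TLoc α κ s₀ s₁ K E₀ C t₀ δ Ψ d X x τ X₀ ψ₀ d₀

/-! ### the frame -/

/-- the velocity in a chart -/
noncomputable def Uf (Ψ d : ℂ → ℝ) (v : ℂ) : ℂ := (d v)⁻¹ • perp Ψ v

/-- the relative velocity in the frame with the columns `p`, `q` -/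
noncomputable def Vf (κ : ℝ) (Ψ d : ℂ → ℝ) (p q z : ℂ) : ℂ :=
  ginv p q (Uf Ψ d (lmap p q z) - Uf Ψ d 0 -
    κ * (starRingEnd ℂ) (Uf Ψ d 0) * (lmap p q z) ^ 2 - fderiv ℝ (Uf Ψ d) 0 (lmap p q z))

/-- the columns of the frame -/
noncomputable def pf (X : ℝ → ℂ → ℂ) (τ : ℂ) (t : ℝ) : ℂ := fderiv ℝ (X t) 0 τ

/-- the columns of the frame -/
noncomputable def qf (X : ℝ → ℂ → ℂ) (τ : ℂ) (t : ℝ) : ℂ := fderiv ℝ (X t) 0 (τ * Complex.I)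

/-- the flow in the frame -/
noncomputable def Yf (X : ℝ → ℂ → ℂ) (τ : ℂ) (t : ℝ) (y : ℂ) : ℂ :=
  ginv (pf X τ t) (qf X τ t) (X t (τ * y))

/-- the density in the frame -/
noncomputable def mf (d : ℝ → ℂ → ℝ) (X : ℝ → ℂ → ℂ) (τ : ℂ) (t : ℝ) (z : ℂ) : ℝ :=
  d t (lmap (pf X τ t) (qf X τ t) z) / d t 0

/-- the vorticity in the frame -/
noncomputable def wf (Ψ d : ℝ → ℂ → ℝ) (X : ℝ → ℂ → ℂ) (τ : ℂ) (t : ℝ) (z : ℂ) : ℝ :=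
  lap (Ψ t) (lmap (pf X τ t) (qf X τ t) z) / d t (lmap (pf X τ t) (qf X τ t) z)

end Pool.Agent.YUS
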