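import Pool.Agent.YUS.K2sb
import Pool.Agent.YUS.PF
import Pool.Agent.YUR.F1a

/-!
# [YUS-K2s] The picture at one time: lemmas
-/

open MeasureTheory Set Filter Topology
open scoped ContDiff

namespace Pool.Agent.YUS.K2s

open Pool.Agent.YUD Pool.Agent.YUT Pool.Agent.YUB Pool.Agent.YUR Pool.Agent.YUL

theorem lapG_gen {U : Set ℂ} (hU : IsOpen U) {F : ℂ → ℝ} (hF : ContDiffOn ℝ 2 F U) {p q z : ℂ}
    (hdet : wed p q ≠ 0) (hz : lmap p q z ∈ U) :
    lapG (‖q‖ ^ 2 / wed p q ^ 2) (-(p.re * q.re + p.im * q.im) / wed p q ^ 2) (‖p‖ ^ 2 / wed p q ^ 2)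
      (fun z => F (lmap p q z)) z =
      lap F (lmap p q z) := by
  obtain ⟨A, hA, hA1, hAI, -⟩ := lmap_facts p q
  have hAe : (fun z => F (lmap p q z)) = fun z => F (A z) := by
    funext z
    rw [hA]
  have hcomp : ∀ G : ℂ → ℝ, ∀ y : ℂ, DifferentiableAt ℝ G (A y) → ∀ w : ℂ,
      fderiv ℝ (fun z => G (A z)) y w = fderiv ℝ G (A y) (A w) := by
    intro G y hG w
    have h1 := hG.hasFDerivAt.comp y A.hasFDerivAt
    have h2 : (fun z => G (A z)) = G ∘ A := rfl
    rw [h2, h1.fderiv]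
    rfl
  have hopen : IsOpen (A ⁻¹' U) := hU.preimage A.continuous
  have hz' : z ∈ A ⁻¹' U := by
    rw [mem_preimage, hA]
    exact hz
  have hx1 : ContDiffOn ℝ 1 (dx F) U := contDiffOn_dx (n := 1) hU hF
  have hy1 : ContDiffOn ℝ 1 (dy F) U := contDiffOn_dy (n := 1) hU hF
  have hFd : ∀ y ∈ U, DifferentiableAt ℝ F y := fun y hy =>
    (hF.contDiffAt (hU.mem_nhds hy)).differentiableAt two_ne_zero
  have hxd : ∀ y ∈ U, DifferentiableAt ℝ (dx F) y := fun y hy =>
    (hx1.contDiffAt (hU.mem_nhds hy)).differentiableAt one_ne_zero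
  have hyd : ∀ y ∈ U, DifferentiableAt ℝ (dy F) y := fun y hy =>
    (hy1.contDiffAt (hU.mem_nhds hy)).differentiableAt one_ne_zero
  have e1 : ∀ y ∈ A ⁻¹' U, dx (fun z => F (A z)) y = p.re * dx F (A y) + p.im * dy F (A y) := by
    intro y hy
    unfold dx
    rw [hcomp F y (hFd _ hy), hA1, fderiv_apply']
    rfl
  have e2 : ∀ y ∈ A ⁻¹' U, dy (fun z => F (A z)) y = q.re * dx F (A y) + q.im * dy F (A y) := by
    intro y hy
    unfold dy
    rw [hcomp F y (hFd _ hy), hAI, fderiv_apply']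
    rfl
  have dxd : ∀ y ∈ A ⁻¹' U, DifferentiableAt ℝ (fun z => dx F (A z)) y := by
    intro y hy
    exact DifferentiableAt.comp y (hxd _ hy) A.differentiableAt
  have dyd : ∀ y ∈ A ⁻¹' U, DifferentiableAt ℝ (fun z => dy F (A z)) y := by
    intro y hy
    exact DifferentiableAt.comp y (hyd _ hy) A.differentiableAt
  have k1 : ∀ w : ℂ, fderiv ℝ (dx (fun z => F (A z))) z w =
      p.re * (w.re * (p.re * dx (dx F) (A z) + p.im * dy (dx F) (A z)) +
        w.im * (q.re * dx (dx F) (A z) + q.im * dy (dx F) (A z))) +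
      p.im * (w.re * (p.re * dx (dy F) (A z) + p.im * dy (dy F) (A z)) +
        w.im * (q.re * dx (dy F) (A z) + q.im * dy (dy F) (A z))) := by
    intro w
    have hAw : A w = w.re • p + w.im • q := by
      rw [hA]
      simp [lmap]
    rw [fderiv_congr_on hopen e1 hz',
      fderiv_fun_add ((dxd z hz').const_mul _) ((dyd z hz').const_mul _),
      fderiv_const_mul (dxd z hz'), fderiv_const_mul (dyd z hz')]
    simp only [ContinuousLinearMap.add_apply, ContinuousLinearMap.smul_apply, smul_eq_mul]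
    rw [hcomp (dx F) z (hxd _ hz'), hcomp (dy F) z (hyd _ hz'), fderiv_apply', fderiv_apply', hAw]
    simp only [Complex.add_re, Complex.add_im, Complex.real_smul, Complex.mul_re, Complex.mul_im,
      Complex.ofReal_re, Complex.ofReal_im]
    ring
  have k2 : ∀ w : ℂ, fderiv ℝ (dy (fun z => F (A z))) z w =
      q.re * (w.re * (p.re * dx (dx F) (A z) + p.im * dy (dx F) (A z)) +
        w.im * (q.re * dx (dx F) (A z) + q.im * dy (dx F) (A z))) +
      q.im * (w.re * (p.re * dx (dy F) (A z) + p.im * dy (dy F) (A z)) +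
        w.im * (q.re * dx (dy F) (A z) + q.im * dy (dy F) (A z))) := by
    intro w
    have hAw : A w = w.re • p + w.im • q := by
      rw [hA]
      simp [lmap]
    rw [fderiv_congr_on hopen e2 hz',
      fderiv_fun_add ((dxd z hz').const_mul _) ((dyd z hz').const_mul _),
      fderiv_const_mul (dxd z hz'), fderiv_const_mul (dyd z hz')]
    simp only [ContinuousLinearMap.add_apply, ContinuousLinearMap.smul_apply, smul_eq_mul]
    rw [hcomp (dx F) z (hxd _ hz'), hcomp (dy F) z (hyd _ hz'), fderiv_apply', fderiv_apply', hAw]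
    simp only [Complex.add_re, Complex.add_im, Complex.real_smul, Complex.mul_re, Complex.mul_im,
      Complex.ofReal_re, Complex.ofReal_im]
    ring
  have hsym : dx (dy F) (A z) = dy (dx F) (A z) := dx_dy_comm hU hF hz'
  have hn : ∀ u : ℂ, ‖u‖ ^ 2 = u.re ^ 2 + u.im ^ 2 := by
    intro u
    rw [← Complex.normSq_eq_norm_sq, Complex.normSq_apply]
    ring
  have l1 : dx (dx (fun z => F (A z))) z = _ := k1 1
  have l2 : dx (dy (fun z => F (A z))) z = _ := k2 1
  have l3 : dy (dy (fun z => F (A z))) z = _ := k2 Complex.I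
  rw [hAe, ← hA]
  unfold lapG lap
  rw [l1, l2, l3, hsym, hn, hn]
  simp only [Complex.one_re, Complex.one_im, Complex.I_re, Complex.I_im]
  generalize dx (dx F) (A z) = X
  generalize dy (dx F) (A z) = Y
  generalize dy (dy F) (A z) = Z
  have hd : wed p q = p.re * q.im - p.im * q.re := rfl
  have hd2 : wed p q ^ 2 ≠ 0 := pow_ne_zero 2 hdet
  field_simp
  rw [hd]
  ring

theorem srem_c2 {M : Set ℂ} {ψ : ℂ → ℝ} (hψ : ContDiffOn ℝ 2 ψ M)
    (c b₁ b₂ a : ℂ) : ContDiffOn ℝ 2 (srem ψ c b₁ b₂ a) {v | c + v ∈ M} := by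
  have h1 : ContDiffOn ℝ 2 (fun v => ψ (c + v)) {v | c + v ∈ M} :=
    hψ.comp (contDiff_const.add contDiff_id).contDiffOn fun v hv => hv
  have hre : ∀ f : ℂ → ℂ, ContDiff ℝ 2 f → ContDiff ℝ 2 (fun v => (f v).re) := fun f hf =>
    Complex.reCLM.contDiff.comp hf
  have h2 : ContDiff ℝ 2 (fun v : ℂ => (wg ψ c * v).re) := hre _ (by fun_prop)
  have h3 : ContDiff ℝ 2 (fun v : ℂ => (b₁ * v ^ 2).re) := hre _ (by fun_prop)
  have h4 : ContDiff ℝ 2 (fun v : ℂ => (b₂ * v ^ 3).re) := hre _ (by fun_prop)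
  have h5 : ContDiff ℝ 2 (fun v : ℂ => (a * v).re) := hre _ (by fun_prop)
  have h6 : ContDiff ℝ 2 (fun v : ℂ => ‖v‖ ^ 2) := contDiff_norm_sq ℝ
  have h7 : ContDiff ℝ 2 (fun v : ℂ => ψ c + (wg ψ c * v).re + (b₁ * v ^ 2).re / 2 +
      lap ψ c / 4 * ‖v‖ ^ 2 + (b₂ * v ^ 3).re / 3 + (a * v).re * ‖v‖ ^ 2 / 4) :=
    ((((contDiff_const.add h2).add (h3.div_const 2)).add (contDiff_const.mul h6)).add
      (h4.div_const 3)).add ((h5.mul h6).div_const 4)
  refine (h1.sub h7.contDiffOn).congr fun v _ => ?_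
  unfold srem
  ring


end Pool.Agent.YUS.K2s
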