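import Pool.Agent.YUS.K2sc

/-!
# [YUS-K2s] The picture at one time: the polynomial part of the velocity
-/

open MeasureTheory Set Filter Topology
open scoped ContDiff

namespace Pool.Agent.YUS.K2s

open Pool.Agent.YUD Pool.Agent.YUT Pool.Agent.YUB Pool.Agent.YUR Pool.Agent.YUL

/-- the polynomial part of the complex gradient -/
noncomputable def GG (w₀ b₁ g b₂ a v : ℂ) : ℂ :=
  w₀ + b₁ * v + g * (starRingEnd ℂ) v + b₂ * (v * v) + (a / 2) * (v * (starRingEnd ℂ) v) +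
    ((starRingEnd ℂ) a / 4) * ((starRingEnd ℂ) v * (starRingEnd ℂ) v)

/-- the smooth part of the velocity -/
noncomputable def Wf (κ : ℝ) (p q w₀ b₁ g b₂ a u₀ n₁ n₂ : ℂ) (δi di : ℝ) (m : ℂ → ℝ) (z : ℂ) : ℂ :=
  (δi : ℂ) * linv p q ((di : ℂ) * (Complex.I * (starRingEnd ℂ) (GG w₀ b₁ g b₂ a (lmap p q z))) -
    (m z : ℂ) * (u₀ + κ * (starRingEnd ℂ) u₀ * (lmap p q z * lmap p q z) + lmap n₁ n₂ z))

theorem Wf_sm {B R : ℝ} (hB : 0 ≤ B) (hR : 0 < R) : ∃ C : ℝ, ∀ (κ : ℝ) (p q w₀ b₁ g b₂ a u₀ n₁ n₂ : ℂ)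
    (δi di : ℝ) (m : ℂ → ℝ), |κ| ≤ B → ‖p‖ ≤ B → ‖q‖ ≤ B → ‖w₀‖ ≤ B → ‖b₁‖ ≤ B → ‖g‖ ≤ B →
      ‖b₂‖ ≤ B → ‖a‖ ≤ B → ‖u₀‖ ≤ B → ‖n₁‖ ≤ B → ‖n₂‖ ≤ B → |δi| ≤ B → |di| ≤ B →
        Sm (Metric.ball 0 R) B m →
          SmC (Metric.ball 0 R) C (Wf κ p q w₀ b₁ g b₂ a u₀ n₁ n₂ δi di m) := by
  have hN : IsOpen (Metric.ball (0 : ℂ) R) := Metric.isOpen_ball
  apply Exists.intro
  intro κ p q w₀ b₁ g b₂ a u₀ n₁ n₂ δi di m hκ hp hq hw₀ hb₁ hg hb₂ ha hu₀ hn₁ hn₂ hδi hdi hm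
  have hv := SmC.lmap hR hp hq
  have hn := SmC.lmap hR hn₁ hn₂
  have hvc := hv.conj hN
  have ha2 : ‖a / 2‖ ≤ B := by
    rw [norm_div]; simp; linarith [norm_nonneg a]
  have ha4 : ‖(starRingEnd ℂ) a / 4‖ ≤ B := by
    rw [norm_div, RCLike.norm_conj]; simp; linarith [norm_nonneg a]
  have hκ' : ‖(κ : ℂ)‖ ≤ B := by rw [Complex.norm_real]; exact hκ
  have hδi' : ‖(δi : ℂ)‖ ≤ B := by rw [Complex.norm_real]; exact hδi
  have hdi' : ‖(di : ℂ)‖ ≤ B := by rw [Complex.norm_real]; exact hdi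
  have hu' : ‖(starRingEnd ℂ) u₀‖ ≤ B := by rw [RCLike.norm_conj]; exact hu₀
  have hG := (((((SmC.const hw₀).add hN ((SmC.const hb₁).mul hN hv)).add hN
    ((SmC.const hg).mul hN hvc)).add hN ((SmC.const hb₂).mul hN (hv.mul hN hv))).add hN
    ((SmC.const ha2).mul hN (hv.mul hN hvc))).add hN ((SmC.const ha4).mul hN (hvc.mul hN hvc))
  have hI : ‖Complex.I‖ ≤ 1 := by simp
  have h1 := (SmC.const hdi').mul hN ((SmC.const hI).mul hN (hG.conj hN))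
  have h2 := (SmC.ofReal hm).mul hN (((SmC.const hu₀).add hN
    (((SmC.const hκ').mul hN (SmC.const hu')).mul hN (hv.mul hN hv))).add hN hn)
  exact (SmC.const hδi').mul hN ((h1.sub hN h2).linv hN hp hq)

theorem linv_sub (p q w w' : ℂ) : linv p q (w - w') = linv p q w - linv p q w' := by
  apply Complex.ext <;> simp [linv, wed] <;> ring

theorem linv_add (p q w w' : ℂ) : linv p q (w + w') = linv p q w + linv p q w' := by
  apply Complex.ext <;> simp [linv, wed] <;> ring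

theorem linv_real_mul (p q w : ℂ) (r : ℝ) : linv p q (r * w) = r * linv p q w := by
  apply Complex.ext <;> simp [linv, wed] <;> ring

theorem linv_I_conj (p q w : ℂ) : linv p q (Complex.I * (starRingEnd ℂ) w) =
    ⟨-(q * w).re, (p * w).re⟩ := by
  apply Complex.ext <;> simp [linv, wed] <;> ring

theorem perp_wg (f : ℂ → ℝ) (x : ℂ) : perp f x = Complex.I * (starRingEnd ℂ) (wg f x) := by
  apply Complex.ext <;> simp [perp, wg]

theorem lmap_one (p q : ℂ) : lmap p q 1 = p := by simp [lmap]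

theorem lmap_I (p q : ℂ) : lmap p q Complex.I = q := by simp [lmap]

theorem perp_srem {Ψ : ℂ → ℝ} {p q b₁ b₂ a z : ℂ} {P : ℝ}
    (hΨ : DifferentiableAt ℝ Ψ (lmap p q z)) :
    perp (fun z => srem Ψ 0 b₁ b₂ a (lmap p q z) / P) z =
      ((P⁻¹ : ℝ) : ℂ) * linv p q (Complex.I * (starRingEnd ℂ) (wrem Ψ 0 b₁ b₂ a (lmap p q z))) := by
  have h1 := srem_grad (b₁ := b₁) (b₂ := b₂) (a := a) (c := 0) (v := lmap p q z) (ψ := Ψ)
    (by rwa [zero_add])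
  obtain ⟨A, hA, hA1, hAI, -⟩ := lmap_facts p q
  have h2 : HasFDerivAt (fun z => srem Ψ 0 b₁ b₂ a (lmap p q z))
      ((fderiv ℝ (srem Ψ 0 b₁ b₂ a) (lmap p q z)).comp A) z := by
    have e : (fun z => srem Ψ 0 b₁ b₂ a (lmap p q z)) = fun z => srem Ψ 0 b₁ b₂ a (A z) := by
      funext z; rw [hA]
    rw [e, ← hA]
    rw [← hA] at h1
    exact h1.1.hasFDerivAt.comp z A.hasFDerivAt
  have h3 : HasFDerivAt (fun z => srem Ψ 0 b₁ b₂ a (lmap p q z) / P)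
      (P⁻¹ • (fderiv ℝ (srem Ψ 0 b₁ b₂ a) (lmap p q z)).comp A) z := by
    simpa [div_eq_mul_inv] using h2.mul_const P⁻¹
  rw [linv_I_conj]
  have ex : dx (fun z => srem Ψ 0 b₁ b₂ a (lmap p q z) / P) z =
      P⁻¹ * (p * wrem Ψ 0 b₁ b₂ a (lmap p q z)).re := by
    unfold dx
    rw [h3.fderiv, smul_apply, ContinuousLinearMap.comp_apply, hA1, h1.2, smul_eq_mul]
  have ey : dy (fun z => srem Ψ 0 b₁ b₂ a (lmap p q z) / P) z =
      P⁻¹ * (q * wrem Ψ 0 b₁ b₂ a (lmap p q z)).re := by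
    unfold dy
    rw [h3.fderiv, smul_apply, ContinuousLinearMap.comp_apply, hAI, h1.2, smul_eq_mul]
  unfold perp
  rw [ex, ey]
  apply Complex.ext
  · rw [Complex.re_ofReal_mul]; ring
  · rw [Complex.im_ofReal_mul]

theorem W_eq {κ : ℝ} {Ψ d : ℂ → ℝ} {p q b₁ b₂ a z : ℂ} (hdet : wed p q ≠ 0) (hd0 : d 0 ≠ 0)
    (hdz : d (lmap p q z) ≠ 0) (hΨ : DifferentiableAt ℝ Ψ (lmap p q z)) :
    ((d (lmap p q z) / d 0 : ℝ) : ℂ) * Vf κ Ψ d p q z -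
      perp (fun z => srem Ψ 0 b₁ b₂ a (lmap p q z) / (wed p q * d 0)) z =
    Wf κ p q (wg Ψ 0) b₁ ((lap Ψ 0 / 2 : ℝ) : ℂ) b₂ a (Uf Ψ d 0) (fderiv ℝ (Uf Ψ d) 0 p)
      (fderiv ℝ (Uf Ψ d) 0 q) (wed p q)⁻¹ (d 0)⁻¹ (fun z => d (lmap p q z) / d 0) z := by
  rw [perp_srem hΨ]
  have hlin : fderiv ℝ (Uf Ψ d) 0 (lmap p q z) =
      lmap (fderiv ℝ (Uf Ψ d) 0 p) (fderiv ℝ (Uf Ψ d) 0 q) z := by
    have e : lmap p q z = z.re • p + z.im • q := by simp [lmap]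
    rw [e, map_add, map_smul, map_smul]
    simp [lmap]
  have hG : wg Ψ (lmap p q z) - wrem Ψ 0 b₁ b₂ a (lmap p q z) =
      GG (wg Ψ 0) b₁ ((lap Ψ 0 / 2 : ℝ) : ℂ) b₂ a (lmap p q z) := by
    unfold wrem GG
    rw [zero_add]
    ring
  unfold Vf ginv Wf
  beta_reduce
  rw [hlin, ← hG]
  have hU : Uf Ψ d (lmap p q z) = (((d (lmap p q z))⁻¹ : ℝ) : ℂ) *
      (Complex.I * (starRingEnd ℂ) (wg Ψ (lmap p q z))) := by
    unfold Uf
    rw [perp_wg, Complex.real_smul]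
  rw [hU]
  generalize wrem Ψ 0 b₁ b₂ a (lmap p q z) = r
  generalize wg Ψ (lmap p q z) = X
  generalize Uf Ψ d 0 = u
  generalize lmap (fderiv ℝ (Uf Ψ d) 0 p) (fderiv ℝ (Uf Ψ d) 0 q) z = n
  generalize lmap p q z = v at hdz
  have hdz' : (d v : ℂ) ≠ 0 := by exact_mod_cast hdz
  have hd0' : (d 0 : ℂ) ≠ 0 := by exact_mod_cast hd0
  have hdet' : ((wed p q : ℝ) : ℂ) ≠ 0 := by exact_mod_cast hdet
  have e1 : ((((d v)⁻¹ : ℝ) : ℂ) * (Complex.I * (starRingEnd ℂ) X) - u - κ * (starRingEnd ℂ) u * v ^ 2 - n) =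
      (((d v)⁻¹ : ℝ) : ℂ) * (Complex.I * (starRingEnd ℂ) X) -
        (u + κ * (starRingEnd ℂ) u * (v * v) + n) := by ring
  have e2 : (((d 0)⁻¹ : ℝ) : ℂ) * (Complex.I * (starRingEnd ℂ) (X - r)) =
      (((d 0)⁻¹ : ℝ) : ℂ) * (Complex.I * (starRingEnd ℂ) X) -
        (((d 0)⁻¹ : ℝ) : ℂ) * (Complex.I * (starRingEnd ℂ) r) := by
    rw [map_sub]; ring
  rw [e1, e2, Complex.real_smul]
  simp only [linv_sub, linv_real_mul]
  generalize linv p q (Complex.I * (starRingEnd ℂ) X) = x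
  generalize linv p q (Complex.I * (starRingEnd ℂ) r) = y
  generalize linv p q (u + κ * (starRingEnd ℂ) u * (v * v) + n) = w
  push_cast
  field_simp
  ring

/-- functions which are quadratically small -/
theorem quad_zero {f : ℂ → ℝ} {R B : ℝ} (hR : 0 < R) (h : ∀ z : ℂ, ‖z‖ < R → |f z| ≤ B * ‖z‖ ^ 2) :
    f 0 = 0 ∧ dx f 0 = 0 ∧ dy f 0 = 0 := by
  have h0 : f 0 = 0 := by
    have := h 0 (by simpa using hR)
    simpa using this
  have hd : HasFDerivAt f (0 : ℂ →L[ℝ] ℝ) 0 := by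
    refine Asymptotics.IsBigO.hasFDerivAt (n := 2) ?_ (by norm_num)
    refine Asymptotics.IsBigO.of_bound B ?_
    filter_upwards [Metric.ball_mem_nhds (0 : ℂ) hR] with z hz
    have := h z (by simpa using hz)
    simpa using this
  refine ⟨h0, ?_, ?_⟩
  · unfold dx; rw [hd.fderiv]; rfl
  · unfold dy; rw [hd.fderiv]; rfl

end Pool.Agent.YUS.K2s
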