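import Pool.Agent.YUS.K2sd
import Pool.Agent.YUT.R2

/-!
# [YUS-K2s] The picture at one time: estimates
-/

open MeasureTheory Set Filter Topology
open scoped ContDiff

namespace Pool.Agent.YUS.K2s

open Pool.Agent.YUD Pool.Agent.YUT Pool.Agent.YUB Pool.Agent.YUR Pool.Agent.YUL

/-- a Hoelder continuous derivative is continuous -/
theorem c1_of_holder {M : Set ℂ} (hM : IsOpen M) {g : ℂ → ℝ} {K α : ℝ} (hα : 0 < α)
    (hd : DifferentiableOn ℝ g M)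
    (hh : ∀ x ∈ M, ∀ y ∈ M, ‖fderiv ℝ g x - fderiv ℝ g y‖ ≤ K * ‖x - y‖ ^ α) :
    ContDiffOn ℝ 1 g M := by
  rw [show (1 : WithTop ℕ∞) = 0 + 1 from rfl, contDiffOn_succ_iff_fderiv_of_isOpen hM]
  refine ⟨hd, by simp, ?_⟩
  rw [contDiffOn_zero]
  intro x hx
  have h1 : Tendsto (fun y : ℂ => K * ‖y - x‖ ^ α) (𝓝[M] x) (𝓝 0) := by
    have h2 : Tendsto (fun y : ℂ => ‖y - x‖) (𝓝 x) (𝓝 0) := by
      have h3 : Continuous (fun y : ℂ => ‖y - x‖) := by fun_prop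
      have h4 := h3.tendsto x
      simpa using h4
    have h3 : Tendsto (fun u : ℝ => u ^ α) (𝓝 0) (𝓝 0) := by
      have h4 := (Real.continuousAt_rpow_const 0 α (Or.inr hα.le)).tendsto
      rwa [Real.zero_rpow hα.ne'] at h4
    have h5 := ((h3.comp h2).const_mul K).mono_left (nhdsWithin_le_nhds (s := M))
    rwa [mul_zero] at h5
  rw [ContinuousWithinAt, tendsto_iff_norm_sub_tendsto_zero]
  refine squeeze_zero' (Eventually.of_forall fun y => norm_nonneg _) ?_ h1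
  filter_upwards [self_mem_nhdsWithin] with y hy
  exact hh y hy x hx

/-- bounds of products -/
theorem prod_bounds {r C K α : ℝ} (hα1 : α < 1) (hr : 0 < r) (hK : 0 ≤ K)
    {d w : ℂ → ℝ} (hd : ContDiffOn ℝ 2 d (Metric.ball 0 r)) (hj : JetLe (Metric.ball 0 r) 2 C d)
    (hw : NormLe (Metric.ball 0 r) α K w) :
    DifferentiableOn ℝ (fun v => d v * w v) (Metric.ball 0 r) ∧ |d 0 * w 0| ≤ C * K ∧
      (∀ x ∈ Metric.ball (0 : ℂ) r, ‖fderiv ℝ (fun v => d v * w v) x‖ ≤ 3 * (C * K)) ∧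
      (∀ x ∈ Metric.ball (0 : ℂ) r, ∀ y ∈ Metric.ball (0 : ℂ) r,
        ‖fderiv ℝ (fun v => d v * w v) x - fderiv ℝ (fun v => d v * w v) y‖ ≤
          C * K * (1 + 8 * (2 * r) ^ (1 - α)) * ‖x - y‖ ^ α) := by
  have hM : IsOpen (Metric.ball (0 : ℂ) r) := Metric.isOpen_ball
  have hcv : Convex ℝ (Metric.ball (0 : ℂ) r) := convex_ball 0 r
  have h0 : (0 : ℂ) ∈ Metric.ball (0 : ℂ) r := Metric.mem_ball_self hr
  have hC : 0 ≤ C := (abs_nonneg _).trans (hj.zero_le 0 h0)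
  have hdd : ∀ x ∈ Metric.ball (0 : ℂ) r, DifferentiableAt ℝ d x := fun x hx =>
    dat (n := 1) hM hd hx
  have hwd : ∀ x ∈ Metric.ball (0 : ℂ) r, DifferentiableAt ℝ w x := fun x hx =>
    hw.differentiableAt hM hx
  have hdx := contDiffOn_dx (n := 1) hM hd
  have hdy := contDiffOn_dy (n := 1) hM hd
  have hfd : ∀ x ∈ Metric.ball (0 : ℂ) r, ‖fderiv ℝ d x‖ ≤ 2 * C := by
    intro x hx
    have h1 := norm_fderiv_le d x
    have h2 := hj.2.1.zero_le x hx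
    have h3 := hj.2.2.zero_le x hx
    linarith
  have lipg : ∀ {g : ℂ → ℝ} {B : ℝ}, (∀ x ∈ Metric.ball (0 : ℂ) r, DifferentiableAt ℝ g x) →
      (∀ x ∈ Metric.ball (0 : ℂ) r, ‖fderiv ℝ g x‖ ≤ B) → ∀ x ∈ Metric.ball (0 : ℂ) r,
        ∀ y ∈ Metric.ball (0 : ℂ) r, |g x - g y| ≤ B * ‖x - y‖ := by
    intro g B hg hB x hx y hy
    have := hcv.norm_image_sub_le_of_norm_fderiv_le (𝕜 := ℝ) hg hB hy hx
    rwa [Real.norm_eq_abs] at this
  have lipd := lipg hdd hfd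
  have lipw := lipg hwd fun x hx => hw.norm_fderiv_le hx
  have hfx : ∀ x ∈ Metric.ball (0 : ℂ) r, ‖fderiv ℝ (dx d) x‖ ≤ 2 * C := by
    intro x hx
    have h1 := norm_fderiv_le (dx d) x
    have h2 : |dx (dx d) x| ≤ C := hj.2.1.2.1 x hx
    have h3 : |dy (dx d) x| ≤ C := hj.2.1.2.2 x hx
    linarith
  have hfy : ∀ x ∈ Metric.ball (0 : ℂ) r, ‖fderiv ℝ (dy d) x‖ ≤ 2 * C := by
    intro x hx
    have h1 := norm_fderiv_le (dy d) x
    have h2 : |dx (dy d) x| ≤ C := hj.2.2.2.1 x hx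
    have h3 : |dy (dy d) x| ≤ C := hj.2.2.2.2 x hx
    linarith
  have lipx := lipg (fun x hx => dat (n := 0) hM (by simpa using hdx) hx) hfx
  have lipy := lipg (fun x hx => dat (n := 0) hM (by simpa using hdy) hx) hfy
  have lipfd : ∀ x ∈ Metric.ball (0 : ℂ) r, ∀ y ∈ Metric.ball (0 : ℂ) r,
      ‖fderiv ℝ d x - fderiv ℝ d y‖ ≤ 4 * C * ‖x - y‖ := by
    intro x hx y hy
    have h1 := norm_fderiv_sub_le d d x y
    have h2 := lipx x hx y hy
    have h3 := lipy x hx y hy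
    linarith
  have hf : ∀ x ∈ Metric.ball (0 : ℂ) r, fderiv ℝ (fun v => d v * w v) x =
      d x • fderiv ℝ w x + w x • fderiv ℝ d x := fun x hx => fderiv_fun_mul (hdd x hx) (hwd x hx)
  refine ⟨fun x hx => ((hdd x hx).mul (hwd x hx)).differentiableWithinAt, ?_, ?_, ?_⟩
  · rw [abs_mul]
    exact mul_le_mul (hj.zero_le 0 h0) (hw.abs_le h0) (abs_nonneg _) hC
  · intro x hx
    rw [hf x hx]
    refine (norm_add_le _ _).trans ?_
    rw [norm_smul, norm_smul, Real.norm_eq_abs, Real.norm_eq_abs]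
    have h1 := mul_le_mul (hj.zero_le x hx) (hw.norm_fderiv_le hx) (norm_nonneg _) hC
    have h2 := mul_le_mul (hw.abs_le hx) (hfd x hx) (norm_nonneg _) hK
    nlinarith
  · intro x hx y hy
    rw [hf x hx, hf y hy]
    have e : d x • fderiv ℝ w x + w x • fderiv ℝ d x - (d y • fderiv ℝ w y + w y • fderiv ℝ d y) =
        (d x - d y) • fderiv ℝ w x + d y • (fderiv ℝ w x - fderiv ℝ w y) +
          ((w x - w y) • fderiv ℝ d x + w y • (fderiv ℝ d x - fderiv ℝ d y)) := by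
      module
    rw [e]
    have n1 : ‖(d x - d y) • fderiv ℝ w x‖ ≤ 2 * C * ‖x - y‖ * K := by
      rw [norm_smul, Real.norm_eq_abs]
      exact mul_le_mul (lipd x hx y hy) (hw.norm_fderiv_le hx) (norm_nonneg _) (by positivity)
    have n2 : ‖d y • (fderiv ℝ w x - fderiv ℝ w y)‖ ≤ C * (K * ‖x - y‖ ^ α) := by
      rw [norm_smul, Real.norm_eq_abs]
      exact mul_le_mul (hj.zero_le y hy) (hw.holder hx hy) (norm_nonneg _) hC
    have n3 : ‖(w x - w y) • fderiv ℝ d x‖ ≤ K * ‖x - y‖ * (2 * C) := by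
      rw [norm_smul, Real.norm_eq_abs]
      exact mul_le_mul (lipw x hx y hy) (hfd x hx) (norm_nonneg _) (by positivity)
    have n4 : ‖w y • (fderiv ℝ d x - fderiv ℝ d y)‖ ≤ K * (4 * C * ‖x - y‖) := by
      rw [norm_smul, Real.norm_eq_abs]
      exact mul_le_mul (hw.abs_le hy) (lipfd x hx y hy) (norm_nonneg _) hK
    have n5 : ‖x - y‖ ≤ (2 * r) ^ (1 - α) * ‖x - y‖ ^ α := by
      have hxy : ‖x - y‖ ≤ 2 * r := by
        have h1 : ‖x‖ < r := by simpa using hx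
        have h2 : ‖y‖ < r := by simpa using hy
        linarith [norm_sub_le x y]
      rcases eq_or_lt_of_le (norm_nonneg (x - y)) with h | h
      · rw [← h]; positivity
      · have h1 : ‖x - y‖ ^ (1 - α) ≤ (2 * r) ^ (1 - α) :=
          Real.rpow_le_rpow h.le hxy (by linarith)
        calc ‖x - y‖ = ‖x - y‖ ^ (1 - α) * ‖x - y‖ ^ α := by
              rw [← Real.rpow_add h]; simp
          _ ≤ _ := mul_le_mul_of_nonneg_right h1 (by positivity)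
    calc _ ≤ ‖(d x - d y) • fderiv ℝ w x‖ + ‖d y • (fderiv ℝ w x - fderiv ℝ w y)‖ +
          (‖(w x - w y) • fderiv ℝ d x‖ + ‖w y • (fderiv ℝ d x - fderiv ℝ d y)‖) :=
          (norm_add_le _ _).trans (add_le_add (norm_add_le _ _) (norm_add_le _ _))
      _ ≤ 2 * C * ‖x - y‖ * K + C * (K * ‖x - y‖ ^ α) +
          (K * ‖x - y‖ * (2 * C) + K * (4 * C * ‖x - y‖)) :=
          add_le_add (add_le_add n1 n2) (add_le_add n3 n4)
      _ = C * K * ‖x - y‖ ^ α + 8 * (C * K) * ‖x - y‖ := by ring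
      _ ≤ C * K * ‖x - y‖ ^ α + 8 * (C * K) * ((2 * r) ^ (1 - α) * ‖x - y‖ ^ α) := by
          gcongr
      _ = _ := by ring

theorem norm_linv_le {p q : ℂ} {L : ℝ} (hp : ‖p‖ ≤ L) (hq : ‖q‖ ≤ L) (w : ℂ) :
    ‖linv p q w‖ ≤ 2 * L * ‖w‖ := by
  have h1 := Complex.norm_le_abs_re_add_abs_im (linv p q w)
  have h2 : |(linv p q w).re| ≤ ‖w‖ * L :=
    (wed_le w q).trans (mul_le_mul_of_nonneg_left hq (norm_nonneg _))
  have h3 : |(linv p q w).im| ≤ L * ‖w‖ :=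
    (wed_le p w).trans (mul_le_mul_of_nonneg_right hp (norm_nonneg _))
  linarith

theorem norm_perp_le (f : ℂ → ℝ) (x : ℂ) : ‖perp f x‖ ≤ 2 * ‖fderiv ℝ f x‖ := by
  have h1 := Complex.norm_le_abs_re_add_abs_im (perp f x)
  have h2 : |dx f x| ≤ ‖fderiv ℝ f x‖ := by
    have := (fderiv ℝ f x).le_opNorm 1
    simpa [dx] using this
  have h3 : |dy f x| ≤ ‖fderiv ℝ f x‖ := by
    have := (fderiv ℝ f x).le_opNorm Complex.I
    simpa [dy] using this
  have h4 : |(perp f x).re| = |dy f x| := by simp [perp]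
  have h5 : |(perp f x).im| = |dx f x| := by simp [perp]
  linarith

/-- the bounds of the rough part -/
theorem s_facts {α s₀ L C₁ : ℝ} (hα : 0 < α) (hs : 0 < s₀) (hL : 1 ≤ L) (hC₁ : 0 ≤ C₁)
    {Ψ : ℂ → ℝ} {p q b₁ b₂ a : ℂ} {P : ℝ} (hP : 0 < P)
    (hΨ : ContDiffOn ℝ 2 Ψ (Metric.ball 0 (4 * s₀))) (hA : ∀ z, ‖lmap p q z‖ ≤ L * ‖z‖)
    (hr : ∀ v, ‖v‖ ≤ s₀ / 4 → ‖wrem Ψ 0 b₁ b₂ a v‖ ≤ C₁ * ‖v‖ ^ (2 + α)) :
    ContDiffOn ℝ 2 (fun z => srem Ψ 0 b₁ b₂ a (lmap p q z) / P) (Metric.ball 0 (s₀ / (4 * L))) ∧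
    (∀ z ∈ Metric.ball (0 : ℂ) (s₀ / (4 * L)), |srem Ψ 0 b₁ b₂ a (lmap p q z) / P| ≤
      P⁻¹ * C₁ * L ^ (3 + α) * ‖z‖ ^ (3 + α)) ∧
    (∀ z ∈ Metric.ball (0 : ℂ) (s₀ / (4 * L)),
      ‖fderiv ℝ (fun z => srem Ψ 0 b₁ b₂ a (lmap p q z) / P) z‖ ≤
        P⁻¹ * C₁ * L ^ (3 + α) * ‖z‖ ^ (2 + α)) := by
  have hL0 : 0 < L := by linarith
  have hmap : ∀ z ∈ Metric.ball (0 : ℂ) (s₀ / (4 * L)), ‖lmap p q z‖ < s₀ / 4 := by
    intro z hz
    have h1 : ‖z‖ < s₀ / (4 * L) := by simpa using hz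
    have h2 : L * ‖z‖ < L * (s₀ / (4 * L)) := mul_lt_mul_of_pos_left h1 hL0
    have h3 : L * (s₀ / (4 * L)) = s₀ / 4 := by field_simp
    linarith [hA z]
  obtain ⟨A, hAe, -, -, -⟩ := lmap_facts p q
  have hAc : lmap p q = A := funext fun z => (hAe z).symm
  have hsub : {v : ℂ | 0 + v ∈ Metric.ball (0 : ℂ) (4 * s₀)} = Metric.ball 0 (4 * s₀) := by
    ext v; simp
  have hF2 : ContDiffOn ℝ 2 (srem Ψ 0 b₁ b₂ a) (Metric.ball 0 (4 * s₀)) := by
    have := srem_c2 hΨ 0 b₁ b₂ a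
    rwa [hsub] at this
  have hdiff : ∀ v : ℂ, ‖v‖ < s₀ / 4 → DifferentiableAt ℝ Ψ (0 + v) := by
    intro v hv
    rw [zero_add]
    refine dat (n := 1) Metric.isOpen_ball hΨ ?_
    simp; linarith
  have hle := srem_le (ρ := s₀ / 4) hα hC₁ hdiff fun v hv => hr v hv.le
  refine ⟨?_, ?_, ?_⟩
  · have h1 : ContDiffOn ℝ 2 (fun z => srem Ψ 0 b₁ b₂ a (lmap p q z))
        (Metric.ball 0 (s₀ / (4 * L))) := by
      refine hF2.comp (t := Metric.ball 0 (4 * s₀)) ?_ fun z hz => ?_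
      · rw [hAc]; exact A.contDiff.contDiffOn
      · have := hmap z hz
        simp only [Metric.mem_ball, dist_zero_right]
        linarith
    exact h1.div_const P
  · intro z hz
    have h1 := hle _ (hmap z hz)
    rw [abs_div, abs_of_pos hP, div_eq_inv_mul]
    have h2 : ‖lmap p q z‖ ^ (3 + α) ≤ L ^ (3 + α) * ‖z‖ ^ (3 + α) := by
      rw [← Real.mul_rpow hL0.le (norm_nonneg z)]
      exact Real.rpow_le_rpow (norm_nonneg _) (hA z) (by linarith)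
    calc P⁻¹ * |srem Ψ 0 b₁ b₂ a (lmap p q z)| ≤ P⁻¹ * (C₁ * (L ^ (3 + α) * ‖z‖ ^ (3 + α))) := by
          refine mul_le_mul_of_nonneg_left (h1.trans ?_) (by positivity)
          exact mul_le_mul_of_nonneg_left h2 hC₁
      _ = _ := by ring
  · intro z hz
    have hz' := hmap z hz
    have h1 := srem_grad (b₁ := b₁) (b₂ := b₂) (a := a) (hdiff _ hz')
    have h2 := (fderiv_comp_lmap_le (z := z) hA h1.1).2
    have h3 : ‖fderiv ℝ (srem Ψ 0 b₁ b₂ a) (lmap p q z)‖ ≤ C₁ * ‖lmap p q z‖ ^ (2 + α) := by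
      refine ContinuousLinearMap.opNorm_le_bound _ (by positivity) fun w => ?_
      rw [h1.2 w, Real.norm_eq_abs]
      refine (Complex.abs_re_le_norm _).trans ?_
      rw [norm_mul, mul_comm]
      exact mul_le_mul_of_nonneg_right (hr _ hz'.le) (norm_nonneg _)
    have h4 : ‖lmap p q z‖ ^ (2 + α) ≤ L ^ (2 + α) * ‖z‖ ^ (2 + α) := by
      rw [← Real.mul_rpow hL0.le (norm_nonneg z)]
      exact Real.rpow_le_rpow (norm_nonneg _) (hA z) (by linarith)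
    have h5 : fderiv ℝ (fun z => srem Ψ 0 b₁ b₂ a (lmap p q z) / P) z =
        P⁻¹ • fderiv ℝ (fun z => srem Ψ 0 b₁ b₂ a (lmap p q z)) z := by
      have hd : DifferentiableAt ℝ (fun z => srem Ψ 0 b₁ b₂ a (lmap p q z)) z := by
        have := h1.1
        rw [← hAe] at this
        have h6 := this.comp z A.differentiableAt
        have e : (fun z => srem Ψ 0 b₁ b₂ a (lmap p q z)) = srem Ψ 0 b₁ b₂ a ∘ A := by
          funext z; simp [hAe]
        rw [e]; exact h6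
      have := (hd.hasFDerivAt.mul_const P⁻¹).fderiv
      simpa [div_eq_mul_inv] using this
    rw [h5, norm_smul, Real.norm_eq_abs, abs_of_pos (inv_pos.2 hP)]
    have hLp : L * L ^ (2 + α) = L ^ (3 + α) := by
      rw [show (3 + α) = 1 + (2 + α) by ring, Real.rpow_add hL0 1 (2 + α), Real.rpow_one]
    calc P⁻¹ * ‖fderiv ℝ (fun z => srem Ψ 0 b₁ b₂ a (lmap p q z)) z‖ ≤
          P⁻¹ * (L * (C₁ * (L ^ (2 + α) * ‖z‖ ^ (2 + α)))) := by
          refine mul_le_mul_of_nonneg_left (h2.trans ?_) (by positivity)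
          refine mul_le_mul_of_nonneg_left (h3.trans ?_) hL0.le
          exact mul_le_mul_of_nonneg_left h4 hC₁
      _ = P⁻¹ * C₁ * (L * L ^ (2 + α)) * ‖z‖ ^ (2 + α) := by ring
      _ = _ := by rw [hLp]

end Pool.Agent.YUS.K2s
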