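import Pool.Agent.YUS.K2se

/-!
# [YUS-K2s] The picture at one time: vorticity, density, Laplacian
-/

open MeasureTheory Set Filter Topology
open scoped ContDiff

namespace Pool.Agent.YUS.K2s

open Pool.Agent.YUD Pool.Agent.YUT Pool.Agent.YUB Pool.Agent.YUR Pool.Agent.YUL

theorem lmap_mem {s₀ L : ℝ} (hs : 0 < s₀) (hL : 1 ≤ L) {p q : ℂ}
    (hA : ∀ z, ‖lmap p q z‖ ≤ L * ‖z‖) {z : ℂ} (hz : z ∈ Metric.ball (0 : ℂ) (s₀ / (4 * L))) :
    ‖lmap p q z‖ < s₀ / 4 ∧ lmap p q z ∈ Metric.ball (0 : ℂ) (4 * s₀) := by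
  have hL0 : 0 < L := by linarith
  have h1 : ‖z‖ < s₀ / (4 * L) := by simpa using hz
  have h2 : L * ‖z‖ < L * (s₀ / (4 * L)) := mul_lt_mul_of_pos_left h1 hL0
  have h3 : L * (s₀ / (4 * L)) = s₀ / 4 := by field_simp
  have h4 : ‖lmap p q z‖ < s₀ / 4 := by linarith [hA z]
  refine ⟨h4, ?_⟩
  simp only [Metric.mem_ball, dist_zero_right]
  linarith

theorem lmap_zero (p q : ℂ) : lmap p q 0 = 0 := by simp [lmap]

theorem nat_le_inf (n : ℕ) : ((n : ℕ) : WithTop ℕ∞) ≤ ∞ := by exact_mod_cast le_top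

/-- the vorticity in the frame -/
theorem eta_facts {α K L s₀ : ℝ} (hα : 0 < α) (hs : 0 < s₀) (hL : 1 ≤ L)
    {w : ℂ → ℝ} (hw : NormLe (Metric.ball 0 (4 * s₀)) α K w) {p q : ℂ}
    (hA : ∀ z, ‖lmap p q z‖ ≤ L * ‖z‖) {g β : ℝ} (hg : g = w 0)
    (hβ : ∀ z, fderiv ℝ w 0 (lmap p q z) = β * z.im) :
    ContDiffOn ℝ 1 (fun z => w (lmap p q z) - g - β * z.im) (Metric.ball 0 (s₀ / (4 * L))) ∧
    (∀ z ∈ Metric.ball (0 : ℂ) (s₀ / (4 * L)), |w (lmap p q z) - g - β * z.im| ≤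
      K * L ^ (1 + α) * ‖z‖ ^ (1 + α)) ∧
    (∀ z ∈ Metric.ball (0 : ℂ) (s₀ / (4 * L)), ∀ z' ∈ Metric.ball (0 : ℂ) (s₀ / (4 * L)),
      ‖fderiv ℝ (fun z => w (lmap p q z) - g - β * z.im) z -
        fderiv ℝ (fun z => w (lmap p q z) - g - β * z.im) z'‖ ≤
          K * L ^ (1 + α) * ‖z - z'‖ ^ α) := by
  have hM : IsOpen (Metric.ball (0 : ℂ) (4 * s₀)) := Metric.isOpen_ball
  have hK : 0 ≤ K := hw.nonneg
  have hL0 : 0 < L := by linarith
  obtain ⟨A, hAe, -, -, -⟩ := lmap_facts p q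
  have hAc : lmap p q = A := funext fun z => (hAe z).symm
  have hAn : ‖A‖ ≤ L := A.opNorm_le_bound hL0.le fun z => by rw [hAe]; exact hA z
  have hw1 : ContDiffOn ℝ 1 w (Metric.ball 0 (4 * s₀)) :=
    c1_of_holder hM hα hw.1 fun x hx y hy => hw.holder hx hy
  have hwd : ∀ x ∈ Metric.ball (0 : ℂ) (4 * s₀), DifferentiableAt ℝ w x := fun x hx =>
    hw.differentiableAt hM hx
  have hmem := fun z (hz : z ∈ Metric.ball (0 : ℂ) (s₀ / (4 * L))) => (lmap_mem hs hL hA hz).2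
  have h0 : (0 : ℂ) ∈ Metric.ball (0 : ℂ) (4 * s₀) := Metric.mem_ball_self (by linarith)
  have hpow : ∀ x : ℂ, ‖lmap p q x‖ ^ α ≤ L ^ α * ‖x‖ ^ α := by
    intro x
    rw [← Real.mul_rpow hL0.le (norm_nonneg x)]
    exact Real.rpow_le_rpow (norm_nonneg _) (hA x) hα.le
  have hLp : L ^ α * L = L ^ (1 + α) := by
    rw [add_comm, Real.rpow_add hL0 α 1, Real.rpow_one]
  refine ⟨?_, ?_, ?_⟩
  · refine ((hw1.comp (t := Metric.ball 0 (4 * s₀)) ?_ fun z hz => hmem z hz).sub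
      contDiffOn_const).sub ?_
    · rw [hAc]; exact A.contDiff.contDiffOn
    · exact contDiffOn_const.mul (Complex.imCLM.contDiff.contDiffOn)
  · intro z hz
    have h1 := R2_taylor (w := w) (convex_ball (0 : ℂ) (4 * s₀)) hα hK h0 (hmem z hz) hwd
      fun y hy => hw.holder hy h0
    rw [sub_zero, hβ, ← hg] at h1
    refine h1.trans ?_
    have h2 : ‖lmap p q z‖ ^ (1 + α) ≤ L ^ (1 + α) * ‖z‖ ^ (1 + α) := by
      rw [← Real.mul_rpow hL0.le (norm_nonneg z)]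
      exact Real.rpow_le_rpow (norm_nonneg _) (hA z) (by linarith)
    rw [mul_assoc]
    exact mul_le_mul_of_nonneg_left h2 hK
  · have hf : ∀ z ∈ Metric.ball (0 : ℂ) (s₀ / (4 * L)),
        fderiv ℝ (fun z => w (lmap p q z) - g - β * z.im) z =
          (fderiv ℝ w (lmap p q z)).comp A - β • Complex.imCLM := by
      intro z hz
      have h1 : HasFDerivAt (fun z => w (lmap p q z)) ((fderiv ℝ w (lmap p q z)).comp A) z := by
        have h2 := hwd _ (hmem z hz)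
        rw [← hAe] at h2 ⊢
        have h3 := h2.hasFDerivAt.comp z A.hasFDerivAt
        have e : (fun z => w (lmap p q z)) = w ∘ A := by funext z; simp [hAe]
        rw [e]; exact h3
      have h4 : HasFDerivAt (fun z : ℂ => β * z.im) (β • Complex.imCLM) z :=
        (Complex.imCLM.hasFDerivAt (x := z)).const_mul β
      exact ((h1.sub_const g).sub h4).fderiv
    intro z hz z' hz'
    rw [hf z hz, hf z' hz']
    have e : (fderiv ℝ w (lmap p q z)).comp A - β • Complex.imCLM -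
        ((fderiv ℝ w (lmap p q z')).comp A - β • Complex.imCLM) =
        (fderiv ℝ w (lmap p q z) - fderiv ℝ w (lmap p q z')).comp A := by
      ext v; simp
    rw [e]
    have h1 := hw.holder (hmem z hz) (hmem z' hz')
    have h2 : lmap p q z - lmap p q z' = lmap p q (z - z') := by
      rw [← hAe, ← hAe, ← hAe, map_sub]
    rw [h2] at h1
    calc _ ≤ ‖fderiv ℝ w (lmap p q z) - fderiv ℝ w (lmap p q z')‖ * ‖A‖ :=
          ContinuousLinearMap.opNorm_comp_le _ _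
      _ ≤ K * (L ^ α * ‖z - z'‖ ^ α) * L := by
          refine mul_le_mul (h1.trans ?_) hAn (norm_nonneg _) (by positivity)
          exact mul_le_mul_of_nonneg_left (hpow _) hK
      _ = K * (L ^ α * L) * ‖z - z'‖ ^ α := by ring
      _ = _ := by rw [hLp]

/-- the density in the frame -/
theorem m_facts {L C s₀ : ℝ} (hs : 0 < s₀) (hL : 1 ≤ L) {d : ℂ → ℝ} {p q : ℂ}
    (hC : 1 ≤ C) (hd : ContDiffOn ℝ ∞ d (Metric.ball 0 (4 * s₀)))
    (hj : JetLe (Metric.ball 0 (4 * s₀)) 4 C d) (hlo : 1 ≤ C * d 0)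
    (hA : ∀ z, ‖lmap p q z‖ ≤ L * ‖z‖) :
    Sm (Metric.ball 0 (s₀ / (4 * L))) (C * ((2 * L) ^ 4 * C)) (fun z => d (lmap p q z) / d 0) ∧
      ∀ z, fderiv ℝ d 0 (lmap p q z) = d 0 * lin ![dx (fun z => d (lmap p q z) / d 0) 0,
        dy (fun z => d (lmap p q z) / d 0) 0] z := by
  have hM : IsOpen (Metric.ball (0 : ℂ) (4 * s₀)) := Metric.isOpen_ball
  have hN : IsOpen (Metric.ball (0 : ℂ) (s₀ / (4 * L))) := Metric.isOpen_ball
  have hC0 : 0 < C := by linarith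
  have hd0 : 0 < d 0 := by
    by_contra h
    have : C * d 0 ≤ 0 := mul_nonpos_of_nonneg_of_nonpos hC0.le (not_lt.1 h)
    linarith
  have hdi : |(d 0)⁻¹| ≤ C := by
    rw [abs_of_pos (inv_pos.2 hd0)]
    rw [inv_le_iff_one_le_mul₀ hd0]
    exact hlo
  have hp : ‖p‖ ≤ L := by
    have := hA 1
    rwa [lmap_one, norm_one, mul_one] at this
  have hq : ‖q‖ ≤ L := by
    have := hA Complex.I
    rwa [lmap_I, Complex.norm_I, mul_one] at this
  obtain ⟨A, hAe, hA1, hAI, -⟩ := lmap_facts p q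
  have hAc : lmap p q = A := funext fun z => (hAe z).symm
  have hmem := fun z (hz : z ∈ Metric.ball (0 : ℂ) (s₀ / (4 * L))) => (lmap_mem hs hL hA hz).2
  have hd4 : ContDiffOn ℝ (4 : ℕ) d (Metric.ball 0 (4 * s₀)) :=
    hd.of_le (nat_le_inf 4)
  have hj4 := jet_comp hL hp hq hM hN hmem hC0.le hd4 hj
  have hsm : Sm (Metric.ball 0 (s₀ / (4 * L))) ((2 * L) ^ 4 * C) (fun z => d (lmap p q z)) := by
    refine ⟨?_, hj4, by positivity⟩
    refine hd4.comp (t := Metric.ball 0 (4 * s₀)) ?_ hmem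
    rw [hAc]; exact A.contDiff.contDiffOn
  constructor
  · have h1 := hsm.jet.const_mul hN (d 0)⁻¹ hsm.smooth
    have h2 : Sm (Metric.ball 0 (s₀ / (4 * L))) (|(d 0)⁻¹| * ((2 * L) ^ 4 * C))
        (fun z => (d 0)⁻¹ * d (lmap p q z)) :=
      ⟨contDiffOn_const.mul hsm.smooth, h1, mul_nonneg (abs_nonneg _) hsm.nonneg⟩
    refine (h2.congr hN fun z _ => ?_).mono (mul_le_mul_of_nonneg_right hdi hsm.nonneg)
    rw [div_eq_inv_mul]
  · intro z
    have hdd : DifferentiableAt ℝ d (A 0) := by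
      rw [map_zero]
      exact (hd.contDiffAt (hM.mem_nhds (Metric.mem_ball_self (by linarith)))).differentiableAt
        (by simp)
    have h1 : HasFDerivAt (fun z => d (lmap p q z) / d 0) ((d 0)⁻¹ • (fderiv ℝ d 0).comp A) 0 := by
      have h3 := hdd.hasFDerivAt.comp (0 : ℂ) A.hasFDerivAt
      have e : (fun z => d (lmap p q z)) = d ∘ A := by funext z; simp [hAe]
      rw [← e, map_zero] at h3
      simpa [div_eq_mul_inv] using h3.mul_const (d 0)⁻¹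
    have ex : dx (fun z => d (lmap p q z) / d 0) 0 = (d 0)⁻¹ * fderiv ℝ d 0 p := by
      unfold dx
      rw [h1.fderiv, smul_apply, ContinuousLinearMap.comp_apply, hA1, smul_eq_mul]
    have ey : dy (fun z => d (lmap p q z) / d 0) 0 = (d 0)⁻¹ * fderiv ℝ d 0 q := by
      unfold dy
      rw [h1.fderiv, smul_apply, ContinuousLinearMap.comp_apply, hAI, smul_eq_mul]
    have e : lmap p q z = z.re • p + z.im • q := by simp [lmap]
    rw [ex, ey, e, map_add, map_smul, map_smul]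
    simp only [lin, Matrix.cons_val_zero, Matrix.cons_val_one, smul_eq_mul]
    field_simp

/-- the Laplacian in the frame -/
theorem lap_s {α K L C s₀ : ℝ} (hs : 0 < s₀) (hL : 1 ≤ L) {Ψ d w : ℂ → ℝ}
    {p q b₁ b₂ : ℂ} {g β : ℝ} (hC : 1 ≤ C) (hΨ : ContDiffOn ℝ 2 Ψ (Metric.ball 0 (4 * s₀)))
    (hd : ContDiffOn ℝ ∞ d (Metric.ball 0 (4 * s₀)))
    (hj : JetLe (Metric.ball 0 (4 * s₀)) 4 C d) (hlo : 1 ≤ C * d 0)
    (hA : ∀ z, ‖lmap p q z‖ ≤ L * ‖z‖) (hδ : 0 < wed p q) (hδi : (wed p q)⁻¹ ≤ C ^ 2)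
    (hw : NormLe (Metric.ball 0 (4 * s₀)) α K w)
    (hlap : ∀ v ∈ Metric.ball (0 : ℂ) (4 * s₀), lap Ψ v = d v * w v)
    (hg : g = w 0) (hβ : ∀ z, fderiv ℝ w 0 (lmap p q z) = β * z.im) :
    ∀ z ∈ Metric.ball (0 : ℂ) (s₀ / (4 * L)),
      |lapG (‖q‖ ^ 2 / wed p q ^ 2) (-(p.re * q.re + p.im * q.im) / wed p q ^ 2)
        (‖p‖ ^ 2 / wed p q ^ 2)
        (fun z => srem Ψ 0 b₁ b₂ (wg (lap Ψ) 0 / 2) (lmap p q z) / (wed p q * d 0)) z -
        1 / wed p q * (w (lmap p q z) - g - β * z.im)| ≤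
        C ^ 2 * (6 * (C * ((2 * L) ^ 4 * C)) * (K * L)) * ‖z‖ ^ 2 := by
  intro z hz
  have hM : IsOpen (Metric.ball (0 : ℂ) (4 * s₀)) := Metric.isOpen_ball
  have h0 : (0 : ℂ) ∈ Metric.ball (0 : ℂ) (4 * s₀) := Metric.mem_ball_self (by linarith)
  have hC0 : 0 < C := by linarith
  have hK : 0 ≤ K := hw.nonneg
  have hd0 : 0 < d 0 := by
    by_contra h
    have : C * d 0 ≤ 0 := mul_nonpos_of_nonneg_of_nonpos hC0.le (not_lt.1 h)
    linarith
  have hmem := (lmap_mem hs hL hA hz).2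
  obtain ⟨hm, hm1⟩ := m_facts hs hL hC hd hj hlo hA
  set m : ℂ → ℝ := fun z => d (lmap p q z) / d 0 with hmdef
  have hR : 0 < s₀ / (4 * L) := by positivity
  have hzR : ‖z‖ < s₀ / (4 * L) := by simpa using hz
  have hm0 : m 0 = 1 := by
    rw [hmdef]
    simp only
    rw [lmap_zero]
    exact div_self hd0.ne'
  have t0 := taylor0 (hm.smooth.of_le (by norm_num)) (hm.jet.of_le (by norm_num)) z hzR
  have t1 := taylor1 (hm.smooth.of_le (by norm_num)) (hm.jet.of_le (by norm_num)) z hzR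
  rw [hm0] at t0 t1
  -- the Laplacian
  have hsub : {v : ℂ | 0 + v ∈ Metric.ball (0 : ℂ) (4 * s₀)} = Metric.ball 0 (4 * s₀) := by
    ext v; simp
  have hF2 : ContDiffOn ℝ 2 (srem Ψ 0 b₁ b₂ (wg (lap Ψ) 0 / 2)) (Metric.ball 0 (4 * s₀)) := by
    have := srem_c2 hΨ 0 b₁ b₂ (wg (lap Ψ) 0 / 2)
    rwa [hsub] at this
  have hF2' : ContDiffOn ℝ 2 (fun v => (wed p q * d 0)⁻¹ * srem Ψ 0 b₁ b₂ (wg (lap Ψ) 0 / 2) v)
      (Metric.ball 0 (4 * s₀)) := contDiffOn_const.mul hF2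
  have e1 := lapG_gen hM hF2' hδ.ne' hmem
  rw [lap_const_mul hM _ hF2 hmem, lap_srem hM hΨ (by rwa [zero_add]), zero_add] at e1
  have e2 : (fun z => srem Ψ 0 b₁ b₂ (wg (lap Ψ) 0 / 2) (lmap p q z) / (wed p q * d 0)) =
      fun z => (wed p q * d 0)⁻¹ * srem Ψ 0 b₁ b₂ (wg (lap Ψ) 0 / 2) (lmap p q z) := by
    funext z; rw [div_eq_inv_mul]
  rw [e2, e1]
  -- the derivative of the Laplacian
  have hdd : DifferentiableAt ℝ d 0 :=
    (hd.contDiffAt (hM.mem_nhds h0)).differentiableAt (by simp)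
  have hwd : DifferentiableAt ℝ w 0 := hw.differentiableAt hM h0
  have e3 : 2 * (wg (lap Ψ) 0 / 2 * lmap p q z).re = fderiv ℝ (lap Ψ) 0 (lmap p q z) := by
    rw [fderiv_apply']
    simp [wg]
    ring
  have e4 : fderiv ℝ (lap Ψ) 0 (lmap p q z) = d 0 * (β * z.im) + g * (d 0 * lin ![dx m 0, dy m 0] z) := by
    rw [fderiv_congr_on hM hlap h0, fderiv_fun_mul hdd hwd, add_apply,
      smul_apply, smul_apply, hβ, hm1, smul_eq_mul, smul_eq_mul, hg]
  rw [e3, e4, hlap _ hmem, hlap _ h0, ← hg]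
  have e5 : d (lmap p q z) = d 0 * m z := by
    rw [hmdef]; simp only; field_simp
  rw [e5]
  have e6 : (wed p q * d 0)⁻¹ * (d 0 * m z * w (lmap p q z) - d 0 * g -
      (d 0 * (β * z.im) + g * (d 0 * lin ![dx m 0, dy m 0] z))) -
        1 / wed p q * (w (lmap p q z) - g - β * z.im) =
      (wed p q)⁻¹ * ((m z - 1) * (w (lmap p q z) - g) +
        g * (m z - 1 - lin ![dx m 0, dy m 0] z)) := by
    field_simp
    ring
  rw [e6, abs_mul, abs_of_pos (inv_pos.2 hδ)]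
  -- the bound
  set Bm := C * ((2 * L) ^ 4 * C) with hBm
  have hBm0 : 0 ≤ Bm := by positivity
  have f1 : |w (lmap p q z) - g| ≤ K * (L * ‖z‖) := by
    have := (convex_ball (0 : ℂ) (4 * s₀)).norm_image_sub_le_of_norm_fderiv_le (𝕜 := ℝ) (f := w)
      (C := K) (fun x hx => hw.differentiableAt hM hx) (fun x hx => hw.norm_fderiv_le hx) h0 hmem
    rw [Real.norm_eq_abs, sub_zero, ← hg] at this
    exact this.trans (mul_le_mul_of_nonneg_left (hA z) hK)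
  have f2 : |g| ≤ K := by rw [hg]; exact hw.abs_le h0
  have f3 : |(m z - 1) * (w (lmap p q z) - g)| ≤ 2 * Bm * ‖z‖ * (K * (L * ‖z‖)) := by
    rw [abs_mul]
    exact mul_le_mul t0 f1 (abs_nonneg _) (by positivity)
  have f4 : |g * (m z - 1 - lin ![dx m 0, dy m 0] z)| ≤ K * (4 * Bm * ‖z‖ ^ 2) := by
    rw [abs_mul]
    exact mul_le_mul f2 t1 (abs_nonneg _) hK
  have f5 : |(m z - 1) * (w (lmap p q z) - g) + g * (m z - 1 - lin ![dx m 0, dy m 0] z)| ≤
      6 * Bm * (K * L) * ‖z‖ ^ 2 := by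
    refine (abs_add_le _ _).trans ((add_le_add f3 f4).trans ?_)
    have h5 : K * (4 * Bm * ‖z‖ ^ 2) ≤ K * (4 * Bm * ‖z‖ ^ 2) * L :=
      le_mul_of_one_le_right (by positivity) hL
    nlinarith
  calc _ ≤ C ^ 2 * (6 * Bm * (K * L) * ‖z‖ ^ 2) :=
        mul_le_mul hδi f5 (abs_nonneg _) (by positivity)
    _ = _ := by ring

end Pool.Agent.YUS.K2s
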