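import Pool.Agent.YUS.PF

open MeasureTheory Set Filter Topology
open scoped ContDiff

namespace Pool.Agent.YUS

open Pool.Agent.YUD Pool.Agent.YUT Pool.Agent.YUB Pool.Agent.YUR Pool.Agent.YUL

private theorem R_fd (f : ℂ → ℝ) (c r : ℝ) (z : ℂ) :
    fderiv ℝ (fun z : ℂ => c * f ((r : ℂ) * z)) z = (c * r) • fderiv ℝ f ((r : ℂ) * z) := by
  have e : (fun z : ℂ => c * f ((r : ℂ) * z)) = c • (fun z : ℂ => f (r • z)) := by
    funext z; simp [Complex.real_smul]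
  rw [e, fderiv_const_smul_field, Pi.smul_apply, fderiv_comp_smul, smul_smul, Complex.real_smul]

private theorem R_dx (f : ℂ → ℝ) (c r : ℝ) (z : ℂ) :
    dx (fun z : ℂ => c * f ((r : ℂ) * z)) z = (c * r) * dx f ((r : ℂ) * z) := by
  simp only [dx, R_fd]; rfl

private theorem R_dy (f : ℂ → ℝ) (c r : ℝ) (z : ℂ) :
    dy (fun z : ℂ => c * f ((r : ℂ) * z)) z = (c * r) * dy f ((r : ℂ) * z) := by
  simp only [dy, R_fd]; rfl

private theorem R_norm {r : ℝ} (hr : 0 < r) (z : ℂ) : ‖(r : ℂ) * z‖ = r * ‖z‖ := by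
  rw [norm_mul, Complex.norm_real, Real.norm_of_nonneg hr.le]

private theorem R_re (r : ℝ) (z : ℂ) : ((r : ℂ) * z).re = r * z.re := by
  simp [Complex.mul_re]

private theorem R_im (r : ℝ) (z : ℂ) : ((r : ℂ) * z).im = r * z.im := by
  simp [Complex.mul_im]

private theorem R_lin (k : Fin 2 → ℝ) (r : ℝ) (z : ℂ) : lin k ((r : ℂ) * z) = r * lin k z := by
  simp only [lin, R_re, R_im]; ring

private theorem R_qua (k : Fin 3 → ℝ) (r : ℝ) (z : ℂ) :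
    qua k ((r : ℂ) * z) = r ^ 2 * qua k z := by
  simp only [qua, R_re, R_im]; ring

private theorem R_cub (k : Fin 4 → ℝ) (r : ℝ) (z : ℂ) :
    cub k ((r : ℂ) * z) = r ^ 3 * cub k z := by
  simp only [cub, R_re, R_im]; ring

private theorem R_slc {α C R : ℝ} {a b : Fin 3 → ℝ} {γ μ ν p : ℝ} {s η m W₁ W₂ : ℂ → ℝ}
    (h : GSlc α C R 1 a b γ μ ν p s η m W₁ W₂) {r : ℝ} (hr : 0 < r) :
    GSlc α C (R / r) r a b γ μ ν p (fun z => r ^ (-(3 + α)) * s ((r : ℂ) * z))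
      (fun z => r ^ (-(1 + α)) * η ((r : ℂ) * z)) (fun z => m ((r : ℂ) * z))
      (fun z => r⁻¹ * W₁ ((r : ℂ) * z)) (fun z => r⁻¹ * W₂ ((r : ℂ) * z)) := by
  have hb : ∀ z ∈ Metric.ball (0 : ℂ) (R / r), (r : ℂ) * z ∈ Metric.ball (0 : ℂ) R := by
    intro z hz
    rw [mem_ball_zero_iff] at hz ⊢
    rw [R_norm hr]
    rwa [lt_div_iff₀ hr, mul_comm] at hz
  have hlin : ∀ n : ℕ, ContDiff ℝ n (fun z : ℂ => (r : ℂ) * z) := fun n =>
    contDiff_const.mul contDiff_id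
  have hlc : ContinuousOn (fun z : ℂ => (r : ℂ) * z) (Metric.ball 0 (R / r)) :=
    (continuous_const.mul continuous_id).continuousOn
  have hmul : ∀ (z : ℂ) (e : ℝ), (r * ‖z‖) ^ e = r ^ e * ‖z‖ ^ e := fun z e =>
    Real.mul_rpow hr.le (norm_nonneg _)
  have hW : ∀ (a : Fin 3 → ℝ) (W : ℂ → ℝ),
      (∃ c : Fin 4 → ℝ, (∀ i, |c i| ≤ C) ∧
        ∀ z ∈ Metric.ball (0 : ℂ) R, |W z - 1 * qua a z - 1 ^ 2 * cub c z| ≤ C * 1 ^ 3 * ‖z‖ ^ 4) →
      ∃ c : Fin 4 → ℝ, (∀ i, |c i| ≤ C) ∧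
        ∀ z ∈ Metric.ball (0 : ℂ) (R / r),
          |r⁻¹ * W ((r : ℂ) * z) - r * qua a z - r ^ 2 * cub c z| ≤ C * r ^ 3 * ‖z‖ ^ 4 := by
    rintro a W ⟨c, hc, h1⟩
    refine ⟨c, hc, fun z hz => ?_⟩
    have h2 := h1 _ (hb z hz)
    rw [R_qua, R_cub, R_norm hr] at h2
    have e : r⁻¹ * W ((r : ℂ) * z) - r * qua a z - r ^ 2 * cub c z =
        r⁻¹ * (W ((r : ℂ) * z) - 1 * (r ^ 2 * qua a z) - 1 ^ 2 * (r ^ 3 * cub c z)) := by
      field_simp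
    rw [e, abs_mul, abs_of_pos (inv_pos.mpr hr)]
    calc r⁻¹ * |W ((r : ℂ) * z) - 1 * (r ^ 2 * qua a z) - 1 ^ 2 * (r ^ 3 * cub c z)|
        ≤ r⁻¹ * (C * 1 ^ 3 * (r * ‖z‖) ^ 4) :=
          mul_le_mul_of_nonneg_left h2 (inv_pos.mpr hr).le
      _ = C * r ^ 3 * ‖z‖ ^ 4 := by field_simp
  refine ⟨h.a_le, h.b_le, h.γ_lo, h.γ_le, h.μ_le, h.ν_le, h.p_lo, h.p_le, ?_, ?_, ?_, ?_, ?_, ?_,
    ?_, ?_, ?_, ?_, ?_, ?_, ?_⟩
  · exact contDiffOn_const.mul (h.s_c2.comp ((hlin 2).contDiffOn)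
      (fun z hz => hb z hz))
  · intro z hz
    have h1 := h.s_le _ (hb z hz)
    rw [R_norm hr, hmul] at h1
    rw [abs_mul, abs_of_pos (Real.rpow_pos_of_pos hr _)]
    calc r ^ (-(3 + α)) * |s ((r : ℂ) * z)| ≤ r ^ (-(3 + α)) * (C * (r ^ (3 + α) * ‖z‖ ^ (3 + α))) :=
          mul_le_mul_of_nonneg_left h1 (Real.rpow_nonneg hr.le _)
      _ = (r ^ (-(3 + α)) * r ^ (3 + α)) * (C * ‖z‖ ^ (3 + α)) := by ring
      _ = C * ‖z‖ ^ (3 + α) := by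
          rw [← Real.rpow_add hr, neg_add_cancel, Real.rpow_zero, one_mul]
  · intro z hz
    have h1 := h.ds_le _ (hb z hz)
    rw [R_norm hr, hmul] at h1
    rw [R_fd, norm_smul, Real.norm_of_nonneg (by positivity)]
    calc r ^ (-(3 + α)) * r * ‖fderiv ℝ s ((r : ℂ) * z)‖
        ≤ r ^ (-(3 + α)) * r * (C * (r ^ (2 + α) * ‖z‖ ^ (2 + α))) :=
          mul_le_mul_of_nonneg_left h1 (by positivity)
      _ = (r ^ (-(3 + α)) * r ^ (1 : ℝ) * r ^ (2 + α)) * (C * ‖z‖ ^ (2 + α)) := by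
          rw [Real.rpow_one]; ring
      _ = C * ‖z‖ ^ (2 + α) := by
          rw [← Real.rpow_add hr, ← Real.rpow_add hr,
            show -(3 + α) + 1 + (2 + α) = 0 by ring, Real.rpow_zero, one_mul]
  · exact contDiffOn_const.mul (h.η_c1.comp ((hlin 1).contDiffOn)
      (fun z hz => hb z hz))
  · intro z hz
    have h1 := h.η_le _ (hb z hz)
    rw [R_norm hr, hmul] at h1
    rw [abs_mul, abs_of_pos (Real.rpow_pos_of_pos hr _)]
    calc r ^ (-(1 + α)) * |η ((r : ℂ) * z)| ≤ r ^ (-(1 + α)) * (C * (r ^ (1 + α) * ‖z‖ ^ (1 + α))) :=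
          mul_le_mul_of_nonneg_left h1 (Real.rpow_nonneg hr.le _)
      _ = (r ^ (-(1 + α)) * r ^ (1 + α)) * (C * ‖z‖ ^ (1 + α)) := by ring
      _ = C * ‖z‖ ^ (1 + α) := by
          rw [← Real.rpow_add hr, neg_add_cancel, Real.rpow_zero, one_mul]
  · intro z hz z' hz'
    have h1 := h.dη_le _ (hb z hz) _ (hb z' hz')
    rw [← mul_sub, R_norm hr, hmul] at h1
    rw [R_fd, R_fd, ← smul_sub, norm_smul, Real.norm_of_nonneg (by positivity)]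
    calc r ^ (-(1 + α)) * r * ‖fderiv ℝ η ((r : ℂ) * z) - fderiv ℝ η ((r : ℂ) * z')‖
        ≤ r ^ (-(1 + α)) * r * (C * (r ^ α * ‖z - z'‖ ^ α)) :=
          mul_le_mul_of_nonneg_left h1 (by positivity)
      _ = (r ^ (-(1 + α)) * r ^ (1 : ℝ) * r ^ α) * (C * ‖z - z'‖ ^ α) := by
          rw [Real.rpow_one]; ring
      _ = C * ‖z - z'‖ ^ α := by
          rw [← Real.rpow_add hr, ← Real.rpow_add hr,
            show -(1 + α) + 1 + α = 0 by ring, Real.rpow_zero, one_mul]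
  · intro z hz
    have h1 := h.lap_s _ (hb z hz)
    have ex : dx (fun z : ℂ => r ^ (-(3 + α)) * s ((r : ℂ) * z)) =
        fun z : ℂ => (r ^ (-(3 + α)) * r) * dx s ((r : ℂ) * z) := by
      funext z; exact R_dx _ _ _ _
    have ey : dy (fun z : ℂ => r ^ (-(3 + α)) * s ((r : ℂ) * z)) =
        fun z : ℂ => (r ^ (-(3 + α)) * r) * dy s ((r : ℂ) * z) := by
      funext z; exact R_dy _ _ _ _
    have e0 : r ^ (-(3 + α)) * r * r = r ^ (-(1 + α)) := by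
      have : r ^ (-(3 + α)) * r ^ (1 : ℝ) * r ^ (1 : ℝ) = r ^ (-(1 + α)) := by
        rw [← Real.rpow_add hr, ← Real.rpow_add hr]; congr 1; ring
      rwa [Real.rpow_one] at this
    have e2 : lapG γ μ ν (fun z : ℂ => r ^ (-(3 + α)) * s ((r : ℂ) * z)) z -
        p * (r ^ (-(1 + α)) * η ((r : ℂ) * z)) =
        r ^ (-(1 + α)) * (lapG γ μ ν s ((r : ℂ) * z) - p * η ((r : ℂ) * z)) := by
      simp only [lapG]
      rw [ex, ey, R_dx, R_dx, R_dy, e0]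
      ring
    rw [e2, abs_mul, abs_of_pos (Real.rpow_pos_of_pos hr _)]
    rw [R_norm hr, Real.one_rpow, mul_one] at h1
    calc r ^ (-(1 + α)) * |lapG γ μ ν s ((r : ℂ) * z) - p * η ((r : ℂ) * z)|
        ≤ r ^ (-(1 + α)) * (C * (r * ‖z‖) ^ 2) :=
          mul_le_mul_of_nonneg_left h1 (Real.rpow_nonneg hr.le _)
      _ = C * (r ^ (-(1 + α)) * r ^ (2 : ℝ)) * ‖z‖ ^ 2 := by
          rw [Real.rpow_two]; ring
      _ = C * r ^ (1 - α) * ‖z‖ ^ 2 := by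
          rw [← Real.rpow_add hr, show -(1 + α) + 2 = 1 - α by ring]
  · exact h.m_cont.comp hlc (fun z hz => hb z hz)
  · exact continuousOn_const.mul (h.W₁_cont.comp hlc (fun z hz => hb z hz))
  · exact continuousOn_const.mul (h.W₂_cont.comp hlc (fun z hz => hb z hz))
  · obtain ⟨m₁, m₂, h1, h2, h3⟩ := h.m_eq
    refine ⟨m₁, m₂, h1, h2, fun z hz => ?_⟩
    have h4 := h3 _ (hb z hz)
    rw [R_lin, R_qua, R_norm hr] at h4
    have e1 : m ((r : ℂ) * z) - 1 - 1 * (r * lin m₁ z) - 1 ^ 2 * (r ^ 2 * qua m₂ z) =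
        m ((r : ℂ) * z) - 1 - r * lin m₁ z - r ^ 2 * qua m₂ z := by ring
    have e2 : C * 1 ^ 3 * (r * ‖z‖) ^ 3 = C * r ^ 3 * ‖z‖ ^ 3 := by ring
    rw [e1, e2] at h4
    exact h4
  · exact hW a W₁ h.W₁_eq
  · exact hW b W₂ h.W₂_eq

/-- [R] scaling -/
theorem gpic_scale {α C R β g : ℝ} (hα : 0 < α) (hα1 : α < 1) {w : ℂ → ℝ} {a b : ℝ → Fin 3 → ℝ}
    {γ μ ν p : ℝ → ℝ} {s η m W₁ W₂ : ℝ → ℂ → ℝ} {Y : ℝ → ℂ → ℂ}
    (h : GPic α C R 1 β g w a b γ μ ν p s η m W₁ W₂ Y) {r : ℝ} (hr : 0 < r) (hr1 : r ≤ 1) :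
    GPic α C (R / r) r β g (fun y => w ((r : ℂ) * y)) a b γ μ ν p
      (fun t z => r ^ (-(3 + α)) * s t ((r : ℂ) * z)) (fun t z => r ^ (-(1 + α)) * η t ((r : ℂ) * z))
      (fun t z => m t ((r : ℂ) * z)) (fun t z => r⁻¹ * W₁ t ((r : ℂ) * z))
      (fun t z => r⁻¹ * W₂ t ((r : ℂ) * z)) (fun t y => ((r⁻¹ : ℝ) : ℂ) * Y t ((r : ℂ) * y)) := by
  have hri : 0 < r⁻¹ := inv_pos.mpr hr
  have hrc : (r : ℂ) ≠ 0 := by exact_mod_cast hr.ne'
  have hcan : ∀ z : ℂ, (r : ℂ) * (((r⁻¹ : ℝ) : ℂ) * z) = z := by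
    intro z; push_cast; rw [← mul_assoc, mul_inv_cancel₀ hrc, one_mul]
  have hcan' : ∀ z : ℂ, ((r⁻¹ : ℝ) : ℂ) * ((r : ℂ) * z) = z := by
    intro z; push_cast; rw [← mul_assoc, inv_mul_cancel₀ hrc, one_mul]
  have hC : 0 < C := lt_of_lt_of_le one_pos h.one_le
  have hy : ∀ y : ℂ, ‖y‖ < R / r / C → ‖(r : ℂ) * y‖ < R / C := by
    intro y hy
    rw [R_norm hr]
    rw [div_div, lt_div_iff₀ (by positivity)] at hy
    rw [lt_div_iff₀ hC]
    nlinarith [hy]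
  -- stream functions and vorticities
  have e1 : r ^ (1 + α) * r ^ (-(1 + α)) = 1 := by
    rw [← Real.rpow_add hr, add_neg_cancel, Real.rpow_zero]
  have e2 : r ^ α * r ^ (-(1 + α)) = r⁻¹ := by
    rw [← Real.rpow_add hr, show α + -(1 + α) = -1 by ring, Real.rpow_neg_one]
  have e3 : r ^ (1 + α) * (r ^ (-(3 + α)) * r * r) = 1 := by
    have : r ^ (1 + α) * (r ^ (-(3 + α)) * r ^ (1 : ℝ) * r ^ (1 : ℝ)) = 1 := by
      rw [← Real.rpow_add hr, ← Real.rpow_add hr, ← Real.rpow_add hr,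
        show 1 + α + (-(3 + α) + 1 + 1) = 0 by ring, Real.rpow_zero]
    rwa [Real.rpow_one] at this
  have homg : ∀ (η : ℂ → ℝ) (z : ℂ), omg α r β g (fun z => r ^ (-(1 + α)) * η ((r : ℂ) * z)) z =
      omg α 1 β g η ((r : ℂ) * z) := by
    intro η z
    simp only [omg, Real.one_rpow, one_mul, R_im]
    rw [← mul_assoc, e1, one_mul]
    ring
  -- the velocity bounds
  have hvel : ∀ (k : Fin 3 → ℝ) (u : ℝ) (y : ℂ),
      |u - 1 * qua k y| ≤ C * (1 ^ (1 + α) * ‖y‖ ^ (2 + α) + 1 ^ 2 * ‖y‖ ^ 3) →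
      |r⁻¹ * u - r * qua k (((r⁻¹ : ℝ) : ℂ) * y)| ≤
        C * (r ^ (1 + α) * ‖((r⁻¹ : ℝ) : ℂ) * y‖ ^ (2 + α) +
          r ^ 2 * ‖((r⁻¹ : ℝ) : ℂ) * y‖ ^ 3) := by
    intro k u y hu
    have ey : y = (r : ℂ) * (((r⁻¹ : ℝ) : ℂ) * y) := (hcan y).symm
    set y' : ℂ := ((r⁻¹ : ℝ) : ℂ) * y with hy'
    rw [ey, R_qua, R_norm hr, Real.one_rpow] at hu
    have e : r⁻¹ * u - r * qua k y' = r⁻¹ * (u - 1 * (r ^ 2 * qua k y')) := by
      field_simp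
    rw [e, abs_mul, abs_of_pos hri]
    have e4 : (r * ‖y'‖) ^ (2 + α) = r ^ (2 + α) * ‖y'‖ ^ (2 + α) :=
      Real.mul_rpow hr.le (norm_nonneg _)
    have e5 : r⁻¹ * r ^ (2 + α) = r ^ (1 + α) := by
      rw [← Real.rpow_neg_one, ← Real.rpow_add hr, show -1 + (2 + α) = 1 + α by ring]
    calc r⁻¹ * |u - 1 * (r ^ 2 * qua k y')|
        ≤ r⁻¹ * (C * (1 * (r * ‖y'‖) ^ (2 + α) + 1 ^ 2 * (r * ‖y'‖) ^ 3)) :=
          mul_le_mul_of_nonneg_left hu hri.le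
      _ = C * ((r⁻¹ * r ^ (2 + α)) * ‖y'‖ ^ (2 + α) + r ^ 2 * ‖y'‖ ^ 3) := by
          rw [e4]; field_simp
      _ = C * (r ^ (1 + α) * ‖y'‖ ^ (2 + α) + r ^ 2 * ‖y'‖ ^ 3) := by rw [e5]
  refine ⟨h.one_le, hr, hr1, h.β_pos, h.β_le, h.g_le, fun t => R_slc (h.slc t) hr, h.a_cont,
    h.b_cont, h.γ_cont, h.p_cont, ?_, ?_, ?_, ?_, ?_, h.div_le, ?_⟩
  · intro y hy'
    rw [h.start _ (hy y hy'), hcan']
  · intro y hy'
    rw [h.w_eq _ (hy y hy'), homg]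
  · intro t ht y hy'
    have h1 := h.Y_le t ht _ (hy y hy')
    rw [R_norm hr] at h1
    rw [R_norm hri]
    calc r⁻¹ * ‖Y t ((r : ℂ) * y)‖ ≤ r⁻¹ * (C * (r * ‖y‖)) :=
          mul_le_mul_of_nonneg_left h1 hri.le
      _ = C * ‖y‖ := by field_simp
  · intro t ht y hy'
    obtain ⟨v, h1, h2, h3⟩ := h.ode t ht _ (hy y hy')
    refine ⟨((r⁻¹ : ℝ) : ℂ) * v, h1.const_mul _, ?_, ?_⟩
    · rw [R_re]
      exact hvel (a t) v.re _ h2
    · rw [R_im]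
      exact hvel (b t) v.im _ h3
  · intro t ht y hy'
    have h1 := h.vort t ht _ (hy y hy')
    rw [Real.one_rpow, one_mul, one_mul, R_im] at h1
    rw [hcan, ← mul_assoc, ← mul_assoc, e2, R_im]
    have : β * y.im = r⁻¹ * (β * (r * y.im)) := by field_simp
    rw [this]
    linear_combination r⁻¹ * h1
  · intro H hH hH0 t ht
    set H' : ℝ → ℂ → ℝ := fun t z => H t (((r⁻¹ : ℝ) : ℂ) * z) with hH'
    have hHH : ∀ t z, H t z = H' t ((r : ℂ) * z) := fun t z => by simp only [hH']; rw [hcan']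
    have hH'c : ContDiff ℝ 1 (fun p : ℝ × ℂ => H' p.1 p.2) :=
      hH.comp (contDiff_fst.prodMk (contDiff_const.mul contDiff_snd))
    have hH'0 : ∀ t z, R / C ≤ ‖z‖ → H' t z = 0 := by
      intro t z hz
      refine hH0 t _ ?_
      rw [R_norm hri, div_div, mul_comm r C, ← div_div, div_eq_inv_mul]
      exact mul_le_mul_of_nonneg_left hz hri.le
    have key := h.transport H' hH'c hH'0 t ht
    have hint : ∀ F : ℂ → ℝ, ∫ z, F ((r : ℂ) * z) = (r ^ 2)⁻¹ * ∫ z, F z := by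
      intro F
      have h1 := Measure.integral_comp_smul (volume : Measure ℂ) F r
      simp only [Complex.real_smul, Complex.finrank_real_complex, smul_eq_mul] at h1
      rw [h1, abs_of_pos (by positivity)]
    have eH : ∀ τ, H τ = fun z => 1 * H' τ ((r : ℂ) * z) := by
      intro τ
      funext z; rw [one_mul]; exact hHH τ z
    have hpb : ∀ τ z, r ^ (1 + α) * pb (fun z => r ^ (-(3 + α)) * s τ ((r : ℂ) * z)) (H τ) z =
        1 ^ (1 + α) * pb (s τ) (H' τ) ((r : ℂ) * z) := by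
      intro τ z
      simp only [pb]
      rw [eH τ, R_dx, R_dy, R_dx, R_dy, Real.one_rpow]
      linear_combination (dx (s τ) ((r : ℂ) * z) * dy (H' τ) ((r : ℂ) * z) -
        dy (s τ) ((r : ℂ) * z) * dx (H' τ) ((r : ℂ) * z)) * e3
    have hdv : ∀ τ z, dv (fun z => r⁻¹ * W₁ τ ((r : ℂ) * z)) (fun z => r⁻¹ * W₂ τ ((r : ℂ) * z))
        (H τ) z = dv (W₁ τ) (W₂ τ) (H' τ) ((r : ℂ) * z) := by
      intro τ z
      simp only [dv]
      rw [eH τ, R_dx, R_dy]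
      field_simp
    have l1 : ∀ t, (∫ z, omg α r β g (fun z => r ^ (-(1 + α)) * η t ((r : ℂ) * z)) z * H t z *
        m t ((r : ℂ) * z)) =
        (r ^ 2)⁻¹ * ∫ z, omg α 1 β g (η t) z * H' t z * m t z := by
      intro t
      rw [← hint]
      refine integral_congr_ae (Eventually.of_forall fun z => ?_)
      simp only
      rw [homg, hHH]
    have l3 : (∫ τ in (0 : ℝ)..t, ∫ z, omg α r β g (fun z => r ^ (-(1 + α)) * η τ ((r : ℂ) * z)) z *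
          (deriv (fun t' => H t' z) τ * m τ ((r : ℂ) * z) +
            dv (fun z => r⁻¹ * W₁ τ ((r : ℂ) * z)) (fun z => r⁻¹ * W₂ τ ((r : ℂ) * z)) (H τ) z +
            r ^ (1 + α) * pb (fun z => r ^ (-(3 + α)) * s τ ((r : ℂ) * z)) (H τ) z)) =
        (r ^ 2)⁻¹ * ∫ τ in (0 : ℝ)..t, ∫ z, omg α 1 β g (η τ) z *
          (deriv (fun t' => H' t' z) τ * m τ z + dv (W₁ τ) (W₂ τ) (H' τ) z +
            1 ^ (1 + α) * pb (s τ) (H' τ) z) := by
      rw [← intervalIntegral.integral_const_mul]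
      refine intervalIntegral.integral_congr fun τ _ => ?_
      rw [← hint]
      refine integral_congr_ae (Eventually.of_forall fun z => ?_)
      simp only
      rw [homg, hpb, hdv]
      have ed : (fun t' => H t' z) = fun t' => H' t' ((r : ℂ) * z) := by
        funext t'
        exact hHH t' z
      rw [ed]
    rw [l1 t, l1 0, l3, ← mul_sub, key]

end Pool.Agent.YUS
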