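import Pool.Agent.YUS.PF

/-!
# [YUS] W: the initial vorticity near a point of a surface
-/

open MeasureTheory Set Filter Topology
open scoped ContDiff

namespace Pool.Agent.YUS

open Pool.Agent.YUD Pool.Agent.YUT Pool.Agent.YUB Pool.Agent.YUR Pool.Agent.YUL

/-- roughness survives a smooth perturbation -/
theorem W1_rough {U : Set ℂ} {α c D : ℝ} (hα1 : α < 1) (hc : 0 < c) (hD : 0 ≤ D) {f k : ℂ → ℝ}
    (hf : RoughC U (1 + α) c f)
    (hk : ∀ x v : ℂ, |k (x + v) + k (x - v) - 2 * k x| ≤ D * ‖v‖ ^ 2) :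
    RoughC U (1 + α) (c / 2) (fun x => f x + k x) := by
  intro x₀ hx₀ e he δ hδ
  set δ₁ : ℝ := (c / (2 * (D + 1))) ^ (1 / (1 - α)) with hδ₁
  have hδ₁0 : 0 < δ₁ := Real.rpow_pos_of_pos (by positivity) _
  obtain ⟨x, s, hs, hsδ, hxδ, hb, h⟩ := hf x₀ hx₀ e he (min δ δ₁) (lt_min hδ hδ₁0)
  refine ⟨x, s, hs, hsδ.trans_le (min_le_left _ _), hxδ.trans_le (min_le_left _ _), hb, ?_⟩
  have h1 : s ^ (1 - α) ≤ c / (2 * (D + 1)) := by
    have h2 : s ≤ δ₁ := (hsδ.trans_le (min_le_right _ _)).le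
    calc s ^ (1 - α) ≤ δ₁ ^ (1 - α) := Real.rpow_le_rpow hs.le h2 (by linarith)
      _ = c / (2 * (D + 1)) := by
        rw [hδ₁, ← Real.rpow_mul (by positivity), one_div, inv_mul_cancel₀ (by linarith),
          Real.rpow_one]
  have h2 : D * s ^ 2 ≤ c / 2 * s ^ (1 + α) := by
    have h3 : s ^ 2 = s ^ (1 - α) * s ^ (1 + α) := by
      rw [← Real.rpow_add hs, ← Real.rpow_natCast]
      congr 1
      push_cast
      ring
    have h4 : 0 < s ^ (1 + α) := Real.rpow_pos_of_pos hs _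
    have h5 : D * s ^ (1 - α) ≤ c / 2 := by
      calc D * s ^ (1 - α) ≤ D * (c / (2 * (D + 1))) := mul_le_mul_of_nonneg_left h1 hD
        _ ≤ (D + 1) * (c / (2 * (D + 1))) := by
          apply mul_le_mul_of_nonneg_right (by linarith) (by positivity)
        _ = c / 2 := by field_simp
    rw [h3, ← mul_assoc]
    exact mul_le_mul_of_nonneg_right h5 h4.le
  have h3 := hk x (s • e)
  have h4 : ‖s • e‖ = s := by rw [norm_smul, he, mul_one, Real.norm_of_nonneg hs.le]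
  rw [h4] at h3
  have h5 : f (x + s • e) + k (x + s • e) + (f (x - s • e) + k (x - s • e)) - 2 * (f x + k x) =
      (f (x + s • e) + f (x - s • e) - 2 * f x) + (k (x + s • e) + k (x - s • e) - 2 * k x) := by
    ring
  show c / 2 * s ^ (1 + α) ≤ |f (x + s • e) + k (x + s • e) + (f (x - s • e) + k (x - s • e)) -
    2 * (f x + k x)|
  rw [h5]
  have h6 := abs_sub_abs_le_abs_sub (f (x + s • e) + f (x - s • e) - 2 * f x)
    (-(k (x + s • e) + k (x - s • e) - 2 * k x))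
  rw [abs_neg, sub_neg_eq_add] at h6
  linarith

/-- `C^{1,α}` functions are `C¹` -/
theorem W1_c1 {M : Set ℂ} (hM : IsOpen M) {α K : ℝ} (hα : 0 < α) {f : ℂ → ℝ}
    (hf : NormLe M α K f) : ContDiffOn ℝ 1 f M := by
  rw [show (1 : WithTop ℕ∞) = 0 + 1 from rfl, contDiffOn_succ_iff_fderiv_of_isOpen hM]
  refine ⟨hf.1, by simp, ?_⟩
  rw [contDiffOn_zero]
  obtain ⟨a, b, c, ha, hb, hc, habc, h1, h2, h3⟩ := hf.2
  intro x hx
  rw [Metric.continuousWithinAt_iff]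
  intro ε hε
  refine ⟨(ε / (c + 1)) ^ (1 / α), Real.rpow_pos_of_pos (by positivity) _, fun {y} hy hyx => ?_⟩
  rw [dist_eq_norm] at hyx ⊢
  have h4 : ‖y - x‖ ^ α < ε / (c + 1) := by
    calc ‖y - x‖ ^ α < ((ε / (c + 1)) ^ (1 / α)) ^ α :=
          Real.rpow_lt_rpow (norm_nonneg _) hyx hα
      _ = ε / (c + 1) := by
        rw [← Real.rpow_mul (by positivity), one_div, inv_mul_cancel₀ hα.ne', Real.rpow_one]
  have h5 : 0 ≤ ‖y - x‖ ^ α := by positivity
  calc ‖fderiv ℝ f y - fderiv ℝ f x‖ ≤ c * ‖y - x‖ ^ α := h3 y hy x hx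
    _ ≤ (c + 1) * ‖y - x‖ ^ α := by nlinarith
    _ < (c + 1) * (ε / (c + 1)) := by
      apply mul_lt_mul_of_pos_left h4 (by positivity)
    _ = ε := by field_simp

end Pool.Agent.YUS
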