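import Pool.Agent.YUS.W1
import Pool.Agent.YUS.A2
import Pool.Agent.YUS.A5a
import Pool.Agent.YUS.A6

/-!
# [YUS] W: the initial vorticity near a point of a surface, assembled
-/

open MeasureTheory Set Filter Topology
open scoped ContDiff

namespace Pool.Agent.YUS

open Pool.Agent.YUD Pool.Agent.YUT Pool.Agent.YUB Pool.Agent.YUR Pool.Agent.YUL

/-- a bump supported in `ball 0 ρ`, zero near `0`, with positive integral against a positive density -/
theorem W2_bump {ρ C : ℝ} (hρ : 0 < ρ) (hC : 1 ≤ C) {d : ℂ → ℝ}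
    (hdc : ContinuousOn d (Metric.ball 0 (2 * ρ))) (hd : ∀ v ∈ Metric.ball (0 : ℂ) ρ, 1 ≤ C * d v) :
    ∃ b : ℂ → ℝ, ContDiff ℝ ∞ b ∧ HasCompactSupport b ∧ (∀ x, x ∉ Metric.ball (0 : ℂ) ρ → b x = 0) ∧
      (∀ x ∈ Metric.ball (0 : ℂ) (ρ / 4), b x = 0) ∧
      0 < ∫ v in Metric.ball (0 : ℂ) ρ, b v * d v := by
  have hc : ((ρ / 2 : ℝ) : ℂ) ∈ Metric.ball (0 : ℂ) ρ := by
    rw [mem_ball_zero_iff, Complex.norm_real, Real.norm_of_nonneg (by positivity)]
    linarith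
  let φ : ContDiffBump ((ρ / 2 : ℝ) : ℂ) := ⟨ρ / 8, ρ / 4, by positivity, by linarith⟩
  have hsupp : ∀ x, φ x ≠ 0 → ‖x - ((ρ / 2 : ℝ) : ℂ)‖ < ρ / 4 := by
    intro x hx
    have h1 : x ∈ Function.support φ := hx
    rw [φ.support_eq, Metric.mem_ball, dist_eq_norm] at h1
    exact h1
  have hnorm : ‖((ρ / 2 : ℝ) : ℂ)‖ = ρ / 2 := by
    rw [Complex.norm_real, Real.norm_of_nonneg (by positivity)]
  refine ⟨φ, φ.contDiff, φ.hasCompactSupport, ?_, ?_, ?_⟩
  · intro x hx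
    by_contra h
    apply hx
    rw [mem_ball_zero_iff]
    have h1 := hsupp x h
    have h2 := norm_le_norm_sub_add x ((ρ / 2 : ℝ) : ℂ)
    linarith
  · intro x hx
    by_contra h
    rw [mem_ball_zero_iff] at hx
    have h1 := hsupp x h
    have h2 : ‖((ρ / 2 : ℝ) : ℂ)‖ ≤ ‖x - ((ρ / 2 : ℝ) : ℂ)‖ + ‖x‖ := by
      have := norm_sub_le x (x - ((ρ / 2 : ℝ) : ℂ))
      rw [sub_sub_cancel] at this
      linarith
    linarith
  · have hcont : ContinuousOn (fun v => φ v * d v) (Metric.closedBall (0 : ℂ) ρ) :=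
      φ.continuous.continuousOn.mul (hdc.mono (Metric.closedBall_subset_ball (by linarith)))
    have hint : IntegrableOn (fun v => φ v * d v) (Metric.ball (0 : ℂ) ρ) :=
      (hcont.integrableOn_compact (isCompact_closedBall _ _)).mono_set Metric.ball_subset_closedBall
    have hdpos : ∀ v ∈ Metric.ball (0 : ℂ) ρ, 0 < d v := by
      intro v hv
      have h1 := hd v hv
      by_contra h
      push Not at h
      nlinarith
    have hnn : ∀ v ∈ Metric.ball (0 : ℂ) ρ, 0 ≤ φ v * d v := fun v hv =>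
      mul_nonneg φ.nonneg (hdpos v hv).le
    rw [setIntegral_pos_iff_support_of_nonneg_ae _ hint]
    · have hsub : Metric.ball ((ρ / 2 : ℝ) : ℂ) (ρ / 8) ⊆
          Function.support (fun v => φ v * d v) ∩ Metric.ball (0 : ℂ) ρ := by
        intro v hv
        have hv2 : v ∈ Metric.ball (0 : ℂ) ρ := by
          rw [mem_ball_zero_iff]
          rw [Metric.mem_ball, dist_eq_norm] at hv
          have h2 := norm_le_norm_sub_add v ((ρ / 2 : ℝ) : ℂ)
          linarith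
        refine ⟨?_, hv2⟩
        rw [Function.mem_support]
        have h1 : φ v = 1 := φ.one_of_mem_closedBall (Metric.ball_subset_closedBall hv)
        rw [h1, one_mul]
        exact (hdpos v hv2).ne'
      exact (Metric.measure_ball_pos volume _ (by positivity)).trans_le (measure_mono hsub)
    · exact (ae_restrict_iff' Metric.isOpen_ball.measurableSet).2 (Eventually.of_forall hnn)

/-- [W] the initial vorticity near `a` -/
theorem Surf.exists_init {X : Type} [TopologicalSpace X] [T2Space X] [CompactSpace X] (S : Surf X)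
    {M : Set X} (hM : IsOpen M) {a : X} (ha : a ∈ M) {α : ℝ} (hα : 0 < α) (hα1 : α < 1) {ws : X → ℝ}
    {K : ℝ} (hws : S.Norm M α K ws) {ε : ℝ} (hε : 0 < ε) :
    ∃ (w₀ : X → ℝ) (ρ c β δ B κ : ℝ) (τ : ℂ) (T : ℝ → ℝ) (N : ℕ × ℕ → ℝ)
      (A : ℕ × ℕ → ℕ → ℝ → ℝ → ℝ) (e : ℕ × ℕ → ℝ → ℝ → ℝ),
      0 < ρ ∧ ρ ≤ S.ρ / 4 ∧ Metric.ball 0 ρ ⊆ S.D M a ∧
      (∀ x, x ∉ S.E a '' Metric.ball 0 ρ → w₀ x = ws x) ∧
      (∫ v in Metric.ball (0 : ℂ) ρ, (w₀ (S.E a v) - ws (S.E a v)) * S.den a v) = 0 ∧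
      S.Norm M α ε (fun x => w₀ x - ws x) ∧ 0 < c ∧
      RoughC (Metric.ball 0 ρ) (1 + α) c (fun v => w₀ (S.E a v)) ∧
      ContDiffOn ℝ 1 (fun v => w₀ (S.E a v)) (Metric.ball 0 ρ) ∧ 0 < β ∧ ‖τ‖ = 1 ∧
      (∀ z : ℂ, fderiv ℝ (fun v => w₀ (S.E a v)) 0 (τ * z) = β * z.im) ∧ 0 < δ ∧ 0 < B ∧ 0 < κ ∧
      (∀ x, 0 ≤ T x) ∧ (∀ i, 1 ≤ N i) ∧
      (∀ i : ℕ × ℕ, Packet B κ (T (i.1 + 1)) (i.1 + 1) (1 / (i.2 + 1)) (N i) (A i) (e i)) ∧
      Wavy δ α (fun (i : (ℕ × ℕ) × ℕ) => prof (i.1.1 + 1) (A i.1 0 (i.1.1 + 1)) (i.2 + 1))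
        (fun y => w₀ (S.E a (τ * y))) := by
  classical
  have hDo : IsOpen (S.D M a) := S.isOpen_D hM a
  have h0 : (0 : ℂ) ∈ S.D M a := ⟨by rw [norm_zero]; exact S.ρ_pos, by rw [S.center]; exact ha⟩
  obtain ⟨ρ₁, hρ₁, hB₁⟩ := Metric.isOpen_iff.1 hDo 0 h0
  obtain ⟨ρ, hρ, hρ1, hρ4⟩ : ∃ ρ : ℝ, 0 < ρ ∧ ρ ≤ ρ₁ ∧ ρ ≤ S.ρ / 4 :=
    ⟨min ρ₁ (S.ρ / 4), lt_min hρ₁ (by have := S.ρ_pos; positivity), min_le_left _ _,
      min_le_right _ _⟩
  have hSρ := S.ρ_pos
  have hB : Metric.ball 0 ρ ⊆ S.D M a := (Metric.ball_subset_ball hρ1).trans hB₁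
  obtain ⟨C₀, hC₀, hden⟩ := S.den_bounds
  obtain ⟨hjet, hlo, hsm⟩ := hden a
  have hup : ∀ v ∈ Metric.ball (0 : ℂ) ρ, |S.den a v| ≤ C₀ := fun v hv =>
    hjet.zero_le v (Metric.ball_subset_ball (by linarith) hv)
  have hlo' : ∀ v ∈ Metric.ball (0 : ℂ) ρ, 1 ≤ C₀ * S.den a v := fun v hv =>
    hlo v (Metric.ball_subset_ball (by linarith) hv)
  have hdc : ContinuousOn (S.den a) (Metric.ball 0 (2 * ρ)) :=
    hsm.continuousOn.mono (Metric.ball_subset_ball (by linarith))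
  obtain ⟨b, hbs, hbc, hb0, hbn, hbI⟩ := W2_bump hρ hC₀ hdc hlo'
  obtain ⟨Cb, hCb, hbN, hb2⟩ := smooth_norm hα hα1 hbs hbc
  obtain ⟨Ce, hCe, hext⟩ := S.norm_ext hα hα1
  set I : ℝ := ∫ v in Metric.ball (0 : ℂ) ρ, b v * S.den a v with hI
  set V : ℝ := volume.real (Metric.ball (0 : ℂ) ρ) with hV
  have hV0 : 0 ≤ V := measureReal_nonneg
  set C₂ : ℝ := C₀ * V / I with hC₂
  have hC₂0 : 0 ≤ C₂ := by positivity
  set ε₁ : ℝ := ε / (Ce * (1 + C₂ * Cb)) with hε₁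
  have hε₁0 : 0 < ε₁ := by positivity
  have hfB : NormLe (Metric.ball 0 ρ) α K (fun v => ws (S.E a v)) := T4_restrict hB (hws a)
  obtain ⟨g, c, β, δ, B, κ, τ, T, N, A, e, hg0, hg, -, hc, hrough, hβ, hτ, hgrad, hδ, hB0, hκ,
    hT, hN, hpk, hwavy⟩ := exists_data hρ hα hα1 hfB hε₁0
  have hgc : Continuous g := by
    have h1 := hg.1.continuousOn
    rwa [continuousOn_univ] at h1
  set J : ℝ := ∫ v in Metric.ball (0 : ℂ) ρ, g v * S.den a v with hJ
  have hJ1 : |J| ≤ ε₁ * C₀ * V := by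
    have h1 : ∀ v ∈ Metric.ball (0 : ℂ) ρ, ‖g v * S.den a v‖ ≤ ε₁ * C₀ := by
      intro v hv
      rw [norm_mul, Real.norm_eq_abs, Real.norm_eq_abs]
      exact mul_le_mul (hg.abs_le (mem_univ v)) (hup v hv) (abs_nonneg _) hε₁0.le
    have h2 := norm_setIntegral_le_of_norm_le_const (μ := volume) (s := Metric.ball (0 : ℂ) ρ)
      measure_ball_lt_top h1
    rw [Real.norm_eq_abs] at h2
    exact h2
  set s : ℝ := -J / I with hs
  have hs1 : |s| ≤ ε₁ * C₂ := by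
    rw [hs, abs_div, abs_neg, abs_of_pos hbI, hC₂, div_le_iff₀ hbI]
    calc |J| ≤ ε₁ * C₀ * V := hJ1
      _ = ε₁ * (C₀ * V / I) * I := by field_simp
  set k : ℂ → ℝ := fun x => s * b x with hk
  have hkN : NormLe univ α (|s| * Cb) k := hbN s
  have hk0 : ∀ x, x ∉ Metric.ball (0 : ℂ) ρ → k x = 0 := fun x hx => by
    rw [hk]
    simp only
    rw [hb0 x hx, mul_zero]
  have hk2 : ∀ x v : ℂ, |k (x + v) + k (x - v) - 2 * k x| ≤ |s| * Cb * ‖v‖ ^ 2 := by
    intro x v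
    have h1 : k (x + v) + k (x - v) - 2 * k x = s * (b (x + v) + b (x - v) - 2 * b x) := by
      simp only [hk]; ring
    rw [h1, abs_mul, mul_assoc]
    exact mul_le_mul_of_nonneg_left (hb2 x v) (abs_nonneg _)
  set G : ℂ → ℝ := fun x => g x + k x with hG
  have hGN : NormLe univ α (ε₁ + |s| * Cb) G := hg.add isOpen_univ hkN
  have hG0 : ∀ x, x ∉ Metric.ball (0 : ℂ) ρ → G x = 0 := fun x hx => by
    rw [hG]
    simp only
    rw [hg0 x hx, hk0 x hx, add_zero]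
  have hsize : Ce * (ε₁ + |s| * Cb) ≤ ε := by
    have h1 : ε₁ + |s| * Cb ≤ ε₁ * (1 + C₂ * Cb) := by
      have := mul_le_mul_of_nonneg_right hs1 hCb
      nlinarith
    calc Ce * (ε₁ + |s| * Cb) ≤ Ce * (ε₁ * (1 + C₂ * Cb)) :=
          mul_le_mul_of_nonneg_left h1 (by linarith)
      _ = ε := by
        rw [hε₁]
        field_simp
  have hE := hext a G (ε₁ + |s| * Cb)
    (fun v hv => hG0 v fun h => hv (Metric.ball_subset_ball hρ4 h)) hGN
  set ext : X → ℝ := fun x => if x ∈ S.E a '' Metric.ball 0 S.ρ then G (S.iv a x) else 0 with hext'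
  have hextE : ∀ v ∈ Metric.ball (0 : ℂ) ρ, ext (S.E a v) = G v := by
    intro v hv
    rw [mem_ball_zero_iff] at hv
    have hv2 : ‖v‖ < S.ρ := by linarith
    have h1 : S.E a v ∈ S.E a '' Metric.ball 0 S.ρ := ⟨v, by rwa [mem_ball_zero_iff], rfl⟩
    rw [hext']
    simp only
    rw [if_pos h1, S.iv_E hv2]
  have hwE : ∀ v ∈ Metric.ball (0 : ℂ) ρ,
      ws (S.E a v) + g v + k v = ws (S.E a v) + ext (S.E a v) := by
    intro v hv
    rw [hextE v hv, hG]
    simp only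
    ring
  have hball : Metric.ball (0 : ℂ) ρ ∈ 𝓝 (0 : ℂ) := Metric.ball_mem_nhds 0 hρ
  refine ⟨fun x => ws x + ext x, ρ, c / 2, β, δ, B, κ, τ, T, N, A, e, hρ, hρ4, hB, ?_, ?_, ?_,
    half_pos hc, ?_, ?_, hβ, hτ, ?_, hδ, hB0, hκ, hT, hN, hpk, ?_⟩
  · intro x hx
    show ws x + ext x = ws x
    rw [add_eq_left, hext']
    simp only
    split_ifs with h
    · apply hG0
      intro h1
      exact hx ⟨S.iv a x, h1, (S.E_iv h).1⟩
    · rfl
  · have h1 : ∀ v ∈ Metric.ball (0 : ℂ) ρ,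
        (ws (S.E a v) + ext (S.E a v) - ws (S.E a v)) * S.den a v =
          g v * S.den a v + s * (b v * S.den a v) := by
      intro v hv
      rw [hextE v hv, hG]
      simp only [hk]
      ring
    rw [setIntegral_congr_fun Metric.isOpen_ball.measurableSet h1]
    have hcl : ∀ h : ℂ → ℝ, Continuous h → IntegrableOn (fun v => h v * S.den a v)
        (Metric.ball (0 : ℂ) ρ) := by
      intro h hh
      have hcont : ContinuousOn (fun v => h v * S.den a v) (Metric.closedBall (0 : ℂ) ρ) :=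
        hh.continuousOn.mul (hdc.mono (Metric.closedBall_subset_ball (by linarith)))
      exact (hcont.integrableOn_compact (isCompact_closedBall _ _)).mono_set
        Metric.ball_subset_closedBall
    rw [integral_add (hcl g hgc) ((hcl b hbs.continuous).const_mul s), integral_const_mul, ← hI,
      ← hJ, hs]
    field_simp
    ring
  · intro c'
    have h1 := hE c'
    have h2 : (fun v => ws (S.E c' v) + ext (S.E c' v) - ws (S.E c' v)) =
        fun v => ext (S.E c' v) := by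
      funext v; ring
    show NormLe (S.D M c') α ε (fun v => ws (S.E c' v) + ext (S.E c' v) - ws (S.E c' v))
    rw [h2]
    refine (T4_restrict ?_ h1).mono hsize
    intro v hv
    exact ⟨hv.1, mem_univ _⟩
  · exact T4_rough (W1_rough hα1 hc (by positivity) hrough hk2) hwE
  · have h1 : ContDiffOn ℝ 1 (fun v => ws (S.E a v) + g v + k v) (Metric.ball 0 ρ) :=
      ((W1_c1 Metric.isOpen_ball hα hfB).add
        ((W1_c1 isOpen_univ hα hg).mono (subset_univ _))).add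
        ((W1_c1 isOpen_univ hα hkN).mono (subset_univ _))
    exact h1.congr fun v hv => (hwE v hv).symm
  · intro z
    have h1 : (fun v => ws (S.E a v) + ext (S.E a v)) =ᶠ[𝓝 0] fun v => ws (S.E a v) + g v := by
      filter_upwards [hball, Metric.ball_mem_nhds (0 : ℂ) (by positivity : 0 < ρ / 4)] with v hv hv2
      rw [hextE v hv, hG]
      simp only [hk]
      rw [hbn v hv2, mul_zero, add_zero]
    rw [h1.fderiv_eq]
    exact hgrad z
  · obtain ⟨B', -, hB'⟩ := prof_wprof hB0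
    refine wavy_congr (fun i => ?_) (by positivity : 0 < ρ / 4) (fun y hy => ?_) hwavy
    · exact (hB' _ _ _ _ _ _ _ _ (hpk i.1) (by
          have : (0 : ℝ) ≤ (i.1.1 : ℝ) := Nat.cast_nonneg _
          linarith) (hN i.1) (by
          have : (0 : ℝ) ≤ (i.2 : ℝ) := Nat.cast_nonneg _
          linarith)).supp
    · have hy1 : τ * y ∈ Metric.ball (0 : ℂ) (ρ / 4) := by
        rw [mem_ball_zero_iff, norm_mul, hτ, one_mul]
        rwa [mem_ball_zero_iff] at hy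
      have hy2 : τ * y ∈ Metric.ball (0 : ℂ) ρ := Metric.ball_subset_ball (by linarith) hy1
      show ws (S.E a (0 + τ * y)) + g (0 + τ * y) = ws (S.E a (τ * y)) + ext (S.E a (τ * y))
      rw [zero_add, hextE _ hy2, hG]
      simp only [hk]
      rw [hbn _ hy1, mul_zero, add_zero]

end Pool.Agent.YUS
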