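import Pool.Agent.YUS.W2
import Pool.Agent.YUS.A5a
import Pool.Agent.YUS.E3
import Pool.Agent.YUS.G2
import Pool.Agent.YUS.K1c
import Pool.Agent.YUS.K2e
import Pool.Agent.YUS.R

/-!
# [YUS] Z: instability on surfaces, assembled
-/

open MeasureTheory Set Filter Topology
open scoped ContDiff

namespace Pool.Agent.YUS

open Pool.Agent.YUD Pool.Agent.YUT Pool.Agent.YUB Pool.Agent.YUR Pool.Agent.YUL

/-- [Z] the theorem -/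
theorem Surf.instability {X : Type} [TopologicalSpace X] [T2Space X] [CompactSpace X]
    [ConnectedSpace X] (S : Surf X) {M : Set X} (hM : Fluid M) {α : ℝ} (hα : 0 < α) (hα1 : α < 1)
    {ws : X → ℝ} {K₀ : ℝ} (hws : S.Norm M α K₀ ws) {ε : ℝ} (hε : 0 < ε) :
    ∃ (w₀ : X → ℝ) (a : X) (ρ : ℝ), 0 < ρ ∧ Metric.ball 0 ρ ⊆ S.D M a ∧
      (∀ x, x ∉ S.E a '' Metric.ball 0 ρ → w₀ x = ws x) ∧
      (∫ v in Metric.ball (0 : ℂ) ρ, (w₀ (S.E a v) - ws (S.E a v)) * S.den a v) = 0 ∧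
      S.Norm M α ε (fun x => w₀ x - ws x) ∧
      ∀ (ψ : ℝ → X → ℝ) (Φ : ℝ → X → X), S.Flow M w₀ ψ Φ → S.FlowC2 M Φ →
        ∀ K : ℝ, ∃ t, 0 ≤ t ∧ ¬ S.Norm M α K (S.lapS (ψ t)) := by
  obtain ⟨a, ha⟩ := hM.2.1
  obtain ⟨w₀, ρ, c, β, δ, B, κ, τ, T, N, A, e, hρ, hρ4, hB, hout, hmean, hnorm, hc, hrough, hC1, hβ,
    hτ, hgrad, hδ, hB0, hκ, hT, hN, hpk, hwavy⟩ := S.exists_init hM.1 ha hα hα1 hws hε
  refine ⟨w₀, a, ρ, hρ, hB, hout, hmean, hnorm, fun ψ Φ hF hF2 K => ?_⟩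
  by_contra hcon
  push Not at hcon
  have hK0 : 0 ≤ K := (hcon 0 le_rfl a).nonneg
  obtain ⟨C₁, hC₁, hgb⟩ := S.grad_bound hM
  have hE : ∀ t, 0 ≤ t → ∀ (c : X) (v : ℂ) (r : ℝ), 0 < r → r ≤ 1 →
      Metric.closedBall v r ⊆ S.D M c → Metric.closedBall v r ⊆ Metric.ball 0 (S.ρ / 2) →
        ‖fderiv ℝ (fun v => ψ t (S.E c v)) v‖ ≤ C₁ * K / r := by
    intro t ht c v r hr hr1 h1 h2
    refine hgb (ψ t) K hK0 (fun c => ?_) (hF.zero t ht) (fun x hx => ?_) c v r hr hr1 h1 h2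
    · obtain ⟨C, hC⟩ := hF.stream t
      exact (hC t ht le_rfl c).1
    · have h3 := (hcon t ht x).abs_le (x := 0) ⟨by rw [norm_zero]; exact S.ρ_pos, by
        rw [S.center]; exact hx⟩
      rwa [S.center] at h3
  obtain ⟨C₀, hC₀, hden⟩ := S.den_bounds
  have hSρ := S.ρ_pos
  have hP : ∃ C : ℝ, 1 ≤ C ∧ ∀ x, S.P x ≤ C ∧ 1 ≤ C * S.P x := by
    refine ⟨C₀, hC₀, fun x => ?_⟩
    obtain ⟨h1, h2, -⟩ := hden x
    have h0 : (0 : ℂ) ∈ Metric.ball (0 : ℂ) (S.ρ / 2) := Metric.mem_ball_self (by positivity)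
    have h3 : S.den x 0 = S.P x := by
      unfold Surf.den
      rw [S.center, norm_zero]
      norm_num
    have h4 := h1.zero_le 0 h0
    have h5 := h2 0 h0
    rw [h3] at h4 h5
    exact ⟨(le_abs_self _).trans h4, h5⟩
  obtain ⟨L, hL1, hL⟩ := S.deform_bound hM.1 hF hF2 hα hα1 hcon hc hB hρ4 hP hrough
  obtain ⟨s₀, s₁, L', E₀, C, hPF⟩ := S.pf_of_flow hM.1 hF hα hα1 hcon hρ hB hρ4 hL1 hL hE hC1
  obtain ⟨C', R, hR, qa, qb, γ, μ, ν, p, s, η, m, W₁, W₂, Y, hG⟩ :=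
    gpic_of_pf hα hα1 hPF hτ hβ hgrad
  exact no_gpic (w := fun y => w₀ (S.E a (τ * y))) hα hα1 hR hδ hB0 hκ hT hN hpk
    (fun r hr hr1 => ⟨qa, qb, γ, μ, ν, p, _, _, _, _, _, _, gpic_scale hα hα1 hG hr hr1⟩) hwavy

end Pool.Agent.YUS
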